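import Pool.Agent.Cyl.Base

open MeasureTheory Set Filter Topology Metric
open scoped ContDiff

noncomputable section

namespace Cyl

/-! ## gradients -/

theorem absb_ip_grad (g : ℂ → ℝ) (s v : ℂ) : ip (grad g s) v = fderiv ℝ g s v := by
  have h : v = (v.re : ℝ) • (1 : ℂ) + (v.im : ℝ) • Complex.I := by
    apply Complex.ext <;> simp
  have h2 : fderiv ℝ g s v = v.re * fderiv ℝ g s 1 + v.im * fderiv ℝ g s Complex.I := by
    conv_lhs => rw [h]
    rw [map_add, map_smul, map_smul]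
    simp
  rw [h2]
  simp only [ip, grad, d1, d2]
  ring

theorem absb_norm_grad_le {g : ℂ → ℝ} {C : NNReal} (h : LipschitzWith C g) (s : ℂ) :
    ‖grad g s‖ ≤ C := by
  have h1 : ‖grad g s‖ ^ 2 ≤ C * ‖grad g s‖ := by
    rw [← ip_self, absb_ip_grad]
    calc fderiv ℝ g s (grad g s) ≤ ‖fderiv ℝ g s (grad g s)‖ := Real.le_norm_self _
      _ ≤ ‖fderiv ℝ g s‖ * ‖grad g s‖ := ContinuousLinearMap.le_opNorm _ _
      _ ≤ _ := by
          gcongr
          exact norm_fderiv_le_of_lipschitz ℝ h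
  by_contra hc
  push Not at hc
  have h0 : 0 < ‖grad g s‖ := lt_of_le_of_lt C.2 hc
  nlinarith

theorem absb_measurable_grad (g : ℂ → ℝ) : Measurable (grad g) := by
  have h : grad g = fun s => ((d1 g s : ℝ) : ℂ) + ((d2 g s : ℝ) : ℂ) * Complex.I := by
    funext s
    apply Complex.ext <;> simp [grad]
  rw [h]
  have h1 : Measurable (d1 g) := measurable_fderiv_apply_const ℝ g 1
  have h2 : Measurable (d2 g) := measurable_fderiv_apply_const ℝ g Complex.I
  exact (Complex.measurable_ofReal.comp h1).add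
    ((Complex.measurable_ofReal.comp h2).mul measurable_const)

theorem absb_measurable_ip {f g : ℂ → ℂ} (hf : Measurable f) (hg : Measurable g) :
    Measurable (fun x => ip (f x) (g x)) := by
  unfold ip
  have := Complex.measurable_re
  have := Complex.measurable_im
  fun_prop

theorem absb_grad_mul {f g : ℂ → ℝ} {x : ℂ} (hf : DifferentiableAt ℝ f x)
    (hg : DifferentiableAt ℝ g x) :
    grad (fun y => f y * g y) x = ((f x : ℝ) : ℂ) * grad g x + ((g x : ℝ) : ℂ) * grad f x := by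
  have h : fderiv ℝ (fun y => f y * g y) x = f x • fderiv ℝ g x + g x • fderiv ℝ f x :=
    (hf.hasFDerivAt.mul hg.hasFDerivAt).fderiv
  apply Complex.ext
  · simp only [grad, d1]
    rw [h]
    simp
  · simp only [grad, d2]
    rw [h]
    simp

theorem absb_grad_sub {f g : ℂ → ℝ} {x : ℂ} (hf : DifferentiableAt ℝ f x)
    (hg : DifferentiableAt ℝ g x) :
    grad (fun y => f y - g y) x = grad f x - grad g x := by
  have h : fderiv ℝ (fun y => f y - g y) x = fderiv ℝ f x - fderiv ℝ g x :=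
    (hf.hasFDerivAt.sub hg.hasFDerivAt).fderiv
  apply Complex.ext
  · simp only [grad, d1]
    rw [h]
    simp
  · simp only [grad, d2]
    rw [h]
    simp

theorem absb_grad_zero_of_fderiv {f : ℂ → ℝ} {x : ℂ} (h : fderiv ℝ f x = 0) : grad f x = 0 := by
  apply Complex.ext
  · simp [grad, d1, h]
  · simp [grad, d2, h]

/-! ## the cut-off function -/

theorem absb_cut_nonneg (D : Set ℂ) (ρ : ℝ) (x : ℂ) : 0 ≤ cut D ρ x := le_max_left _ _

theorem absb_cut_le_one (D : Set ℂ) {ρ : ℝ} (hρ : 0 < ρ) (x : ℂ) : cut D ρ x ≤ 1 := by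
  unfold cut
  apply max_le zero_le_one
  have : 0 ≤ infDist x D / ρ := div_nonneg infDist_nonneg hρ.le
  linarith

theorem absb_cut_eq_one (D : Set ℂ) {ρ : ℝ} {x : ℂ} (hx : infDist x D = 0) : cut D ρ x = 1 := by
  unfold cut
  rw [hx]
  simp

theorem absb_cut_eq_zero (D : Set ℂ) {ρ : ℝ} (hρ : 0 < ρ) {x : ℂ} (hx : ρ ≤ infDist x D) :
    cut D ρ x = 0 := by
  unfold cut
  apply max_eq_left
  have : 1 ≤ infDist x D / ρ := by rwa [one_le_div hρ]
  linarith

theorem absb_cut_lip (D : Set ℂ) {ρ : ℝ} (hρ : 0 < ρ) :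
    LipschitzWith (1 / ρ).toNNReal (cut D ρ) := by
  apply LipschitzWith.of_dist_le_mul
  intro x y
  rw [Real.coe_toNNReal _ (by positivity), Real.dist_eq]
  unfold cut
  rw [max_comm, max_comm 0 (1 - infDist y D / ρ)]
  refine (abs_max_sub_max_le_abs _ _ _).trans ?_
  have h := (lipschitz_infDist_pt D).dist_le_mul x y
  rw [Real.dist_eq] at h
  have e : 1 - infDist x D / ρ - (1 - infDist y D / ρ) = -((infDist x D - infDist y D) / ρ) := by
    ring
  rw [e, abs_neg, abs_div, abs_of_pos hρ]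
  simp only [NNReal.coe_one, one_mul] at h
  calc |infDist x D - infDist y D| / ρ ≤ dist x y / ρ := by gcongr
    _ = _ := by ring

theorem absb_norm_grad_cut (D : Set ℂ) {ρ : ℝ} (hρ : 0 < ρ) (x : ℂ) :
    ‖grad (cut D ρ) x‖ ≤ 1 / ρ := by
  have := absb_norm_grad_le (absb_cut_lip D hρ) x
  rwa [Real.coe_toNNReal _ (by positivity)] at this

/-- the gradient of the cut-off function vanishes outside of the open collar -/
theorem absb_grad_cut_zero (D : Set ℂ) {ρ : ℝ} (hρ : 0 < ρ) {x : ℂ}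
    (hx : ¬ (0 < sd D x ∧ sd D x < ρ)) : grad (cut D ρ) x = 0 := by
  apply absb_grad_zero_of_fderiv
  rcases eq_or_lt_of_le (infDist_nonneg (x := x) (s := D)) with h | h
  · -- maximum
    apply IsLocalMax.fderiv_eq_zero
    apply Filter.Eventually.of_forall
    intro y
    rw [absb_cut_eq_one D h.symm]
    exact absb_cut_le_one D hρ y
  · have hxD : x ∉ D := fun hx => by
      rw [infDist_zero_of_mem hx] at h
      exact lt_irrefl _ h
    have hsd : sd D x = infDist x D := by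
      unfold sd
      rw [infDist_zero_of_mem (show x ∈ Dᶜ from hxD)]
      ring
    rw [hsd] at hx
    have h2 : ρ ≤ infDist x D := by
      by_contra hc
      exact hx ⟨h, not_le.1 hc⟩
    apply IsLocalMin.fderiv_eq_zero
    apply Filter.Eventually.of_forall
    intro y
    rw [absb_cut_eq_zero D hρ h2]
    exact absb_cut_nonneg D ρ y

/-- product with a compactly supported Lipschitz function -/
theorem absb_lip_mul (f g : ℂ → ℝ) (R : ℝ) {Cf : NNReal} (hf : LipschitzWith Cf f)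
    (hf0 : ∀ x, R < ‖x‖ → f x = 0) (hfb : ∀ x, |f x| ≤ 1)
    (hg : ∀ R, ∃ C : NNReal, LipschitzOnWith C g (closedBall 0 R)) :
    ∃ C : NNReal, LipschitzWith C (fun x => f x * g x) := by
  set R1 : ℝ := |R| + 1 with hR1
  have hR1' : R + 1 ≤ R1 := by
    have := le_abs_self R
    linarith
  have hR10 : 0 ≤ R1 := by positivity
  obtain ⟨Cg, hCg⟩ := hg R1
  set Mg : ℝ := |g 0| + Cg * R1 with hMg
  have hMg0 : 0 ≤ Mg := by positivity
  have hgb : ∀ x, ‖x‖ ≤ R1 → |g x| ≤ Mg := by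
    intro x hx
    have h := hCg.dist_le_mul x (by simpa using hx) 0 (by simpa using hR10)
    rw [Real.dist_eq, dist_zero_right] at h
    have h2 : |g x| ≤ |g 0| + |g x - g 0| := by
      have := abs_add_le (g 0) (g x - g 0)
      simpa using this
    have h3 : (Cg : ℝ) * ‖x‖ ≤ Cg * R1 := by gcongr
    linarith
  have hK0 : 0 ≤ Cg + Mg * Cf + Mg := by positivity
  refine ⟨(Cg + Mg * Cf + Mg).toNNReal, LipschitzWith.of_dist_le_mul ?_⟩
  rw [Real.coe_toNNReal _ hK0]
  have key : ∀ x y, R1 < ‖x‖ → |f x * g x - f y * g y| ≤ (Cg + Mg * Cf + Mg) * ‖x - y‖ := by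
    intro x y hx
    have hx0 : f x = 0 := hf0 x (by linarith)
    rw [hx0]
    by_cases hy : R < ‖y‖
    · rw [hf0 y hy]
      simp
      positivity
    · push Not at hy
      have h1 : |f y * g y| ≤ Mg := by
        rw [abs_mul]
        calc |f y| * |g y| ≤ 1 * Mg := by
              gcongr
              · exact hfb y
              · exact hgb y (by linarith)
          _ = Mg := one_mul _
      have h2 : 1 ≤ ‖x - y‖ := by
        have := norm_sub_norm_le x y
        linarith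
      calc |0 * g x - f y * g y| = |f y * g y| := by simp [abs_mul]
        _ ≤ Mg * 1 := by linarith
        _ ≤ (Cg + Mg * Cf + Mg) * ‖x - y‖ := by
            apply mul_le_mul _ h2 zero_le_one hK0
            have : 0 ≤ (Cg : ℝ) + Mg * Cf := by positivity
            linarith
  intro x y
  rw [Real.dist_eq, dist_eq_norm]
  by_cases hx : R1 < ‖x‖
  · exact key x y hx
  by_cases hy : R1 < ‖y‖
  · have := key y x hy
    rwa [abs_sub_comm, norm_sub_rev] at this
  push Not at hx hy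
  have h1 := hCg.dist_le_mul x (by simpa using hx) y (by simpa using hy)
  have h2 := hf.dist_le_mul x y
  rw [Real.dist_eq, dist_eq_norm] at h1 h2
  have e : f x * g x - f y * g y = f x * (g x - g y) + g y * (f x - f y) := by ring
  rw [e]
  calc |f x * (g x - g y) + g y * (f x - f y)|
      ≤ |f x| * |g x - g y| + |g y| * |f x - f y| := by
        refine (abs_add_le _ _).trans ?_
        rw [abs_mul, abs_mul]
    _ ≤ 1 * (Cg * ‖x - y‖) + Mg * (Cf * ‖x - y‖) := by
        gcongr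
        · exact hfb x
        · exact hgb y hy
    _ ≤ _ := by nlinarith [norm_nonneg (x - y)]


/-! ## a function and its sup-convolutions -/

/-- the upper bound for the difference of the sup-convolutions -/
theorem absb_sub_le {D : Set ℂ} (hDb : Bornology.IsBounded D) (hDn : D.Nonempty)
    {S S' : Set E3} (hS : IsCompact S) (hS' : IsCompact S')
    (hne : S'.Nonempty) (hcyl : ∀ X ∈ S', X.1 ∈ closure D)
    (honto : ∀ x ∈ closure D, ∃ X ∈ S, X.1 = x) {Z : ℝ} (hZ : ∀ X ∈ S, -Z ≤ X.2)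
    (hZ' : ∀ X ∈ S', X.2 ≤ Z) {ε : ℝ} (hε : 0 < ε) (x : ℂ) :
    sc ε S' x - sc ε S x ≤ 2 * Z := by
  have hcomp : IsCompact (closure D) := hDb.isCompact_closure
  obtain ⟨p, hp, hp'⟩ := hcomp.exists_infDist_eq_dist hDn.closure x
  obtain ⟨X, hX, hXp⟩ := honto p hp
  have h1 := le_sc hS ε x hX
  obtain ⟨Y, hY, h2⟩ := exists_sc hS' hne ε x
  have h3 : ‖x - p‖ ≤ ‖x - Y.1‖ := by
    rw [← dist_eq_norm, ← dist_eq_norm, ← hp']
    exact infDist_le_dist_of_mem (hcyl Y hY)
  have h4 : ‖x - p‖ ^ 2 / (2 * ε) ≤ ‖x - Y.1‖ ^ 2 / (2 * ε) := by gcongr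
  rw [hXp] at h1
  have h5 := hZ X hX
  have h6 := hZ' Y hY
  linarith

/-- jets at all points -/
theorem absb_jet_triv {S : Set E3} (hS : IsCompact S) (hne : S.Nonempty) {ε : ℝ} (hε : 0 < ε)
    (x : ℂ) : ∃ p B, LJ (sc ε S) x p B ∧ -(2 / ε) ≤ curv p B := by
  obtain ⟨X, hX, h⟩ := exists_sc hS hne ε x
  refine ⟨((1 / ε : ℝ) : ℂ) * (X.1 - x), ⟨-(1 / ε), 0, -(1 / ε)⟩, ?_, ?_⟩
  · intro η hη
    refine ⟨1, one_pos, fun v _ => ?_⟩
    have h1 := le_sc hS ε (x + v) hX
    have e : ‖x + v - X.1‖ ^ 2 = ‖x - X.1‖ ^ 2 + 2 * ip (x - X.1) v + ‖v‖ ^ 2 := by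
      rw [← norm_add_sq']
      congr 2
      ring
    rw [e] at h1
    rw [h, ip_ofReal_mul_left]
    have e2 : ip (X.1 - x) v = - ip (x - X.1) v := by
      rw [← ip_neg_left]
      congr 1
      ring
    have e3 : Q2.app ⟨-(1 / ε), 0, -(1 / ε)⟩ v = -(1 / ε) * ‖v‖ ^ 2 := by
      rw [← ip_self, ip, Q2.app]
      ring
    rw [e2, e3]
    have h5 : 0 ≤ η * ‖v‖ ^ 2 := by positivity
    have e4 : (‖x - X.1‖ ^ 2 + 2 * ip (x - X.1) v + ‖v‖ ^ 2) / (2 * ε)
        = ‖x - X.1‖ ^ 2 / (2 * ε) + 1 / ε * ip (x - X.1) v + 1 / ε * ‖v‖ ^ 2 / 2 := by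
      field_simp
    rw [e4] at h1
    linarith
  · set p := ((1 / ε : ℝ) : ℂ) * (X.1 - x)
    have e : curv p ⟨-(1 / ε), 0, -(1 / ε)⟩ = -(1 / ε) * ((1 + W p ^ 2) / W p ^ 3) := by
      unfold curv
      rw [W_sq]
      ring
    rw [e]
    have h1 := one_le_W p
    have h2 : (1 + W p ^ 2) / W p ^ 3 ≤ 2 := by
      rw [div_le_iff₀ (by positivity)]
      nlinarith [mul_nonneg (sub_nonneg.2 h1) (sq_nonneg (W p)), sq_nonneg (W p)]
    have h3 : 1 / ε * ((1 + W p ^ 2) / W p ^ 3) ≤ 1 / ε * 2 := by gcongr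
    have e4 : 2 / ε = 1 / ε * 2 := by ring
    rw [e4]
    linarith

/-- jets where the patch wins -/
theorem absb_jet_patch (hJ : JetScStatement) (hG : GraphJetStatement)
    {S : Set E3} (hS : IsCompact S) (hne : S.Nonempty)
    (F : Frame) (q : E3) (G : ℂ → ℝ) (Ω U : Set ℂ) (k : ℝ) (hU : IsOpen U)
    (hΩU : Ω ⊆ U) (hGs : ContDiffOn ℝ ∞ G U)
    (hbd : ∀ s ∈ Ω, s ∉ interior Ω → F.pt q G s ∈ below S) (hmc : ∀ s ∈ Ω, |mc G s| ≤ k)
    (hP : IsCompact (F.pt q G '' Ω))
    {ε : ℝ} (hε : 0 < ε) {x : ℂ} (hx : 0 < sc ε (S ∪ F.pt q G '' Ω) x - sc ε S x) :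
    ∃ p B, LJ (sc ε (S ∪ F.pt q G '' Ω)) x p B ∧ -k ≤ curv p B := by
  have hS' : IsCompact (S ∪ F.pt q G '' Ω) := hS.union hP
  obtain ⟨X, hX, h⟩ := exists_sc hS' (hne.mono subset_union_left) ε x
  have hXb : X ∉ below S := by
    rintro ⟨Y, hY, e1, e2⟩
    have h1 := le_sc hS ε x hY
    rw [e1] at h1
    linarith
  have hXP : X ∈ F.pt q G '' Ω := by
    rcases hX with hX | hX
    · exact absurd (subset_below S hX) hXb
    · exact hX
  obtain ⟨s, hs, rfl⟩ := hXP
  have hsi : s ∈ interior Ω := by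
    by_contra hc
    exact hXb (hbd s hs hc)
  have hcd : ContDiffAt ℝ 2 G s :=
    (hGs.contDiffAt (hU.mem_nhds (hΩU hs))).of_le (by norm_cast)
  have hev : ∀ᶠ t in 𝓝 s, F.pt q G t ∈ S ∪ F.pt q G '' Ω := by
    filter_upwards [isOpen_interior.mem_nhds hsi] with t ht
    exact Or.inr (mem_image_of_mem _ (interior_subset ht))
  obtain ⟨B', h1, h2⟩ := hJ _ hS' ε hε x _ hX h F _ _ (hG _ F q G s hcd hev)
  refine ⟨_, B', h1, ?_⟩
  have h3 := hmc s hs
  have h4 : |curv (grad G s) (hess G s)| ≤ k := h3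
  rw [← h2] at h4
  exact (abs_le.1 h4).1


/-! ## the data -/

structure AbsbData (D : Set ℂ) (S S' : Set E3) (Z R : ℝ) : Prop where
  bdd : ∀ x ∈ D, ‖x‖ ≤ R
  neD : D.Nonempty
  cS : IsCompact S
  cS' : IsCompact S'
  sub : S ⊆ S'
  neS : S.Nonempty
  cyl : ∀ X ∈ S', X.1 ∈ closure D
  onto : ∀ x ∈ closure D, ∃ X ∈ S, X.1 = x
  lo : ∀ X ∈ S, -Z ≤ X.2
  hi : ∀ X ∈ S', X.2 ≤ Z

def absbPhi (D : Set ℂ) (S S' : Set E3) (ρ ε : ℝ) (x : ℂ) : ℝ :=
  cut D ρ x * (sc ε S' x - sc ε S x)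

section data

variable {D : Set ℂ} {S S' : Set E3} {Z R : ℝ}

theorem AbsbData.isBounded (h : AbsbData D S S' Z R) : Bornology.IsBounded D :=
  (isBounded_closedBall (x := (0 : ℂ)) (r := R)).subset fun x hx => by simpa using h.bdd x hx

theorem AbsbData.neS' (h : AbsbData D S S' Z R) : S'.Nonempty := h.neS.mono h.sub

theorem AbsbData.diff_nonneg (h : AbsbData D S S' Z R) (ε : ℝ) (x : ℂ) :
    0 ≤ sc ε S' x - sc ε S x :=
  sub_nonneg.2 (sc_mono h.cS' h.neS h.cS h.sub)

theorem AbsbData.diff_le (h : AbsbData D S S' Z R) {ε : ℝ} (hε : 0 < ε) (x : ℂ) :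
    sc ε S' x - sc ε S x ≤ 2 * Z :=
  absb_sub_le h.isBounded h.neD h.cS h.cS' h.neS' h.cyl h.onto h.lo h.hi hε x

theorem AbsbData.Z_nonneg (h : AbsbData D S S' Z R) : 0 ≤ 2 * Z :=
  (h.diff_nonneg 1 0).trans (h.diff_le one_pos 0)

theorem AbsbData.infDist_ge (h : AbsbData D S S' Z R) (x : ℂ) : ‖x‖ - R ≤ infDist x D := by
  rw [le_infDist h.neD]
  intro y hy
  have h1 := h.bdd y hy
  have h2 := norm_sub_norm_le x y
  rw [dist_eq_norm]
  linarith

theorem AbsbData.cut_zero (h : AbsbData D S S' Z R) {ρ : ℝ} (hρ : 0 < ρ) {x : ℂ}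
    (hx : R + ρ < ‖x‖) : cut D ρ x = 0 := by
  apply absb_cut_eq_zero D hρ
  have := h.infDist_ge x
  linarith

theorem AbsbData.phi_nonneg (h : AbsbData D S S' Z R) (ρ ε : ℝ) (x : ℂ) :
    0 ≤ absbPhi D S S' ρ ε x :=
  mul_nonneg (absb_cut_nonneg D ρ x) (h.diff_nonneg ε x)

theorem AbsbData.phi_le (h : AbsbData D S S' Z R) (ρ : ℝ) {ε : ℝ} (hε : 0 < ε) (x : ℂ) :
    absbPhi D S S' ρ ε x ≤ 2 * Z * cut D ρ x := by
  unfold absbPhi
  rw [mul_comm (2 * Z)]
  exact mul_le_mul_of_nonneg_left (h.diff_le hε x) (absb_cut_nonneg D ρ x)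

theorem AbsbData.phi_zero (h : AbsbData D S S' Z R) {ρ : ℝ} (hρ : 0 < ρ) (ε : ℝ) {x : ℂ}
    (hx : R + ρ < ‖x‖) : absbPhi D S S' ρ ε x = 0 := by
  unfold absbPhi
  rw [h.cut_zero hρ hx, zero_mul]

theorem AbsbData.phi_lip (h : AbsbData D S S' Z R) {ρ ε : ℝ} (hρ : 0 < ρ) (hε : 0 < ε) :
    ∃ C : NNReal, LipschitzWith C (absbPhi D S S' ρ ε) := by
  apply absb_lip_mul (cut D ρ) (fun x => sc ε S' x - sc ε S x) (R + ρ) (absb_cut_lip D hρ)
  · intro x hx
    exact h.cut_zero hρ hx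
  · intro x
    rw [abs_of_nonneg (absb_cut_nonneg D ρ x)]
    exact absb_cut_le_one D hρ x
  · intro R'
    obtain ⟨C1, h1⟩ := sc_lipschitzOn h.cS' h.neS' hε R'
    obtain ⟨C2, h2⟩ := sc_lipschitzOn h.cS h.neS hε R'
    refine ⟨C1 + C2, ?_⟩
    apply LipschitzOnWith.of_dist_le_mul
    intro x hx y hy
    have e1 := h1.dist_le_mul x hx y hy
    have e2 := h2.dist_le_mul x hx y hy
    rw [Real.dist_eq] at e1 e2 ⊢
    have e : sc ε S' x - sc ε S x - (sc ε S' y - sc ε S y)
        = (sc ε S' x - sc ε S' y) - (sc ε S x - sc ε S y) := by ring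
    rw [e]
    push_cast
    have := abs_sub (sc ε S' x - sc ε S' y) (sc ε S x - sc ε S y)
    linarith

theorem AbsbData.phi_compact (h : AbsbData D S S' Z R) {ρ : ℝ} (hρ : 0 < ρ) (ε : ℝ) :
    HasCompactSupport (absbPhi D S S' ρ ε) := by
  apply HasCompactSupport.intro (isCompact_closedBall (0 : ℂ) (R + ρ))
  intro x hx
  apply h.phi_zero hρ
  simpa using hx

theorem absb_integrable {f : ℂ → ℝ} (hf : Measurable f) {C R : ℝ} (hb : ∀ x, |f x| ≤ C)
    (h0 : ∀ x, R < ‖x‖ → f x = 0) : Integrable f := by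
  have h1 : Integrable ((closedBall (0 : ℂ) R).indicator fun _ => C) := by
    rw [integrable_indicator_iff measurableSet_closedBall]
    exact integrableOn_const measure_closedBall_lt_top.ne (by simp)
  apply h1.mono' hf.aestronglyMeasurable
  apply Filter.Eventually.of_forall
  intro x
  by_cases hx : x ∈ closedBall (0 : ℂ) R
  · rw [indicator_of_mem hx]
    exact hb x
  · rw [indicator_of_notMem hx, h0 x (by simpa using hx)]
    simp

/-- the gradient vanishes where the function vanishes outside of a ball -/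
theorem absb_grad_zero_out {f : ℂ → ℝ} {R : ℝ} (h0 : ∀ x, R < ‖x‖ → f x = 0) {x : ℂ}
    (hx : R < ‖x‖) : grad f x = 0 := by
  apply absb_grad_zero_of_fderiv
  have h1 : f =ᶠ[𝓝 x] fun _ => (0 : ℝ) := by
    have : {y : ℂ | R < ‖y‖} ∈ 𝓝 x := (isOpen_lt continuous_const continuous_norm).mem_nhds hx
    filter_upwards [this] with y hy
    exact h0 y hy
  rw [h1.fderiv_eq]
  simp

theorem absb_measurable_T : Measurable T := continuous_T.measurable

theorem absb_flux_integrable (u : ℂ → ℝ) {f : ℂ → ℝ} {C : NNReal} (hf : LipschitzWith C f) {R : ℝ}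
    (h0 : ∀ x, R < ‖x‖ → f x = 0) : Integrable (fun x => ip (T (grad u x)) (grad f x)) := by
  apply absb_integrable (C := C) (R := R)
  · exact absb_measurable_ip (absb_measurable_T.comp (absb_measurable_grad u))
      (absb_measurable_grad f)
  · intro x
    refine (abs_ip_le _ _).trans ?_
    calc ‖T (grad u x)‖ * ‖grad f x‖ ≤ 1 * C := by
          gcongr
          · exact norm_T_le _
          · exact absb_norm_grad_le hf x
      _ = C := one_mul _
  · intro x hx
    rw [absb_grad_zero_out h0 hx, ip_zero_right]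

/-- the open collar -/
def absbCol (D : Set ℂ) (ρ : ℝ) : Set ℂ := {x | 0 < sd D x ∧ sd D x < ρ}

theorem absb_continuous_sd (D : Set ℂ) : Continuous (sd D) :=
  (continuous_infDist_pt D).sub (continuous_infDist_pt Dᶜ)

theorem absb_isOpen_col (D : Set ℂ) (ρ : ℝ) : IsOpen (absbCol D ρ) := by
  have h1 : IsOpen {x | 0 < sd D x} := isOpen_lt continuous_const (absb_continuous_sd D)
  have h2 : IsOpen {x | sd D x < ρ} := isOpen_lt (absb_continuous_sd D) continuous_const
  exact h1.inter h2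

theorem AbsbData.col_bdd (h : AbsbData D S S' Z R) {ρ : ℝ} {x : ℂ} (hx : x ∈ absbCol D ρ) :
    ‖x‖ ≤ R + ρ := by
  have h1 := h.infDist_ge x
  have hxD : x ∉ D := by
    intro hxD
    have : sd D x ≤ 0 := by
      unfold sd
      rw [infDist_zero_of_mem hxD]
      have := infDist_nonneg (x := x) (s := Dᶜ)
      linarith
    exact absurd hx.1 (not_lt.2 this)
  have h2 : sd D x = infDist x D := by
    unfold sd
    rw [infDist_zero_of_mem (show x ∈ Dᶜ from hxD)]
    ring
  have h3 := hx.2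
  linarith

/-- the integrand on the collar -/
def absbCI (D : Set ℂ) (ρ : ℝ) (u : ℂ → ℝ) (x : ℂ) : ℝ :=
  ‖T (grad u x) - (ρ : ℂ) * grad (cut D ρ) x‖

theorem absb_CI_measurable (D : Set ℂ) (ρ : ℝ) (u : ℂ → ℝ) : Measurable (absbCI D ρ u) := by
  unfold absbCI
  have h1 := absb_measurable_T.comp (absb_measurable_grad u)
  have h2 := (absb_measurable_grad (cut D ρ)).const_mul (ρ : ℂ)
  exact (h1.sub h2).norm

theorem absb_CI_le (D : Set ℂ) {ρ : ℝ} (hρ : 0 < ρ) (u : ℂ → ℝ) (x : ℂ) : absbCI D ρ u x ≤ 2 := by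
  unfold absbCI
  refine (norm_sub_le _ _).trans ?_
  have h1 := norm_T_le (grad u x)
  have h2 : ‖(ρ : ℂ) * grad (cut D ρ) x‖ ≤ 1 := by
    rw [norm_mul, Complex.norm_real, Real.norm_eq_abs, abs_of_pos hρ]
    calc ρ * ‖grad (cut D ρ) x‖ ≤ ρ * (1 / ρ) := by
          gcongr
          exact absb_norm_grad_cut D hρ x
      _ = 1 := by field_simp
  linarith

theorem AbsbData.CI_integrable (h : AbsbData D S S' Z R) {ρ : ℝ} (hρ : 0 < ρ) (u : ℂ → ℝ) :
    Integrable ((absbCol D ρ).indicator (absbCI D ρ u)) := by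
  apply absb_integrable (C := 2) (R := R + ρ)
  · exact (absb_CI_measurable D ρ u).indicator (absb_isOpen_col D ρ).measurableSet
  · intro x
    by_cases hx : x ∈ absbCol D ρ
    · rw [indicator_of_mem hx]
      have h0 : 0 ≤ absbCI D ρ u x := norm_nonneg _
      rw [abs_of_nonneg h0]
      exact absb_CI_le D hρ u x
    · rw [indicator_of_notMem hx]
      simp
  · intro x hx
    apply indicator_of_notMem
    intro hx'
    exact absurd (h.col_bdd hx') (not_le.2 hx)

/-- pointwise inequality -/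
theorem AbsbData.pointwise (h : AbsbData D S S' Z R) {ρ ε : ℝ} (hρ : 0 < ρ) (hε : 0 < ε) {x : ℂ}
    (h1 : DifferentiableAt ℝ (cut D ρ) x) (h2 : DifferentiableAt ℝ (sc ε S) x)
    (h3 : DifferentiableAt ℝ (sc ε S') x) :
    ip (T (grad (sc ε S) x)) (grad (absbPhi D S S' ρ ε) x)
      - ip (T (grad (sc ε S') x)) (grad (absbPhi D S S' ρ ε) x)
      ≤ 2 * Z / ρ * ((absbCol D ρ).indicator (absbCI D ρ (sc ε S')) x
        + (absbCol D ρ).indicator (absbCI D ρ (sc ε S)) x) := by
  have e1 : grad (absbPhi D S S' ρ ε) x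
      = ((cut D ρ x : ℝ) : ℂ) * (grad (sc ε S') x - grad (sc ε S) x)
        + ((sc ε S' x - sc ε S x : ℝ) : ℂ) * grad (cut D ρ) x := by
    have hs : DifferentiableAt ℝ (fun y => sc ε S' y - sc ε S y) x := h3.sub h2
    unfold absbPhi
    rw [absb_grad_mul h1 hs, absb_grad_sub h3 h2]
  set p := grad (sc ε S) x
  set p' := grad (sc ε S') x
  set φ := sc ε S' x - sc ε S x
  have hφ0 : 0 ≤ φ := h.diff_nonneg ε x
  have hφ1 : φ ≤ 2 * Z := h.diff_le hε x
  rw [e1]
  have e2 : ip (T p) (((cut D ρ x : ℝ) : ℂ) * (p' - p) + ((φ : ℝ) : ℂ) * grad (cut D ρ) x)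
      - ip (T p') (((cut D ρ x : ℝ) : ℂ) * (p' - p) + ((φ : ℝ) : ℂ) * grad (cut D ρ) x)
      = -(cut D ρ x * ip (T p' - T p) (p' - p)) + φ * ip (T p - T p') (grad (cut D ρ) x) := by
    simp only [ip_add_right, ip_ofReal_mul_right, ip_sub_left]
    ring
  rw [e2]
  have h4 : 0 ≤ cut D ρ x * ip (T p' - T p) (p' - p) :=
    mul_nonneg (absb_cut_nonneg D ρ x) (T_mono p' p)
  by_cases hx : x ∈ absbCol D ρ
  · rw [indicator_of_mem hx, indicator_of_mem hx]
    have h5 : ip (T p - T p') (grad (cut D ρ) x)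
        ≤ (absbCI D ρ (sc ε S') x + absbCI D ρ (sc ε S) x) * (1 / ρ) := by
      refine (ip_le _ _).trans ?_
      apply mul_le_mul _ (absb_norm_grad_cut D hρ x) (norm_nonneg _)
      · unfold absbCI
        positivity
      · have e : T p - T p' = (T p - (ρ : ℂ) * grad (cut D ρ) x)
            - (T p' - (ρ : ℂ) * grad (cut D ρ) x) := by ring
        rw [e]
        refine (norm_sub_le _ _).trans ?_
        unfold absbCI
        rw [add_comm]
    have h6 : 0 ≤ (absbCI D ρ (sc ε S') x + absbCI D ρ (sc ε S) x) * (1 / ρ) := by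
      unfold absbCI
      positivity
    have h7 : φ * ip (T p - T p') (grad (cut D ρ) x)
        ≤ 2 * Z * ((absbCI D ρ (sc ε S') x + absbCI D ρ (sc ε S) x) * (1 / ρ)) :=
      (mul_le_mul_of_nonneg_left h5 hφ0).trans (mul_le_mul_of_nonneg_right hφ1 h6)
    calc _ ≤ φ * ip (T p - T p') (grad (cut D ρ) x) := by linarith
      _ ≤ _ := h7
      _ = _ := by ring
  · rw [indicator_of_notMem hx, indicator_of_notMem hx]
    have : grad (cut D ρ) x = 0 := absb_grad_cut_zero D hρ hx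
    rw [this, ip_zero_right]
    linarith

/-- integrated inequality -/
theorem AbsbData.integrated (h : AbsbData D S S' Z R) {ρ ε : ℝ} (hρ : 0 < ρ) (hε : 0 < ε) :
    (∫ x, ip (T (grad (sc ε S) x)) (grad (absbPhi D S S' ρ ε) x))
      - (∫ x, ip (T (grad (sc ε S') x)) (grad (absbPhi D S S' ρ ε) x))
      ≤ 2 * Z / ρ * ((∫ x in absbCol D ρ, absbCI D ρ (sc ε S') x)
        + ∫ x in absbCol D ρ, absbCI D ρ (sc ε S) x) := by
  obtain ⟨C, hC⟩ := h.phi_lip hρ hε
  have i1 := absb_flux_integrable (sc ε S) hC (fun x hx => h.phi_zero hρ ε hx)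
  have i2 := absb_flux_integrable (sc ε S') hC (fun x hx => h.phi_zero hρ ε hx)
  have j1 := h.CI_integrable hρ (sc ε S')
  have j2 := h.CI_integrable hρ (sc ε S)
  rw [← integral_sub i1 i2, ← integral_indicator (absb_isOpen_col D ρ).measurableSet,
    ← integral_indicator (absb_isOpen_col D ρ).measurableSet, ← integral_add j1 j2,
    ← integral_const_mul]
  apply integral_mono_ae (i1.sub i2) ((j1.add j2).const_mul _)
  have d1 := (absb_cut_lip D hρ).ae_differentiableAt (μ := volume)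
  have d2 := sc_ae_differentiableAt h.cS h.neS hε
  have d3 := sc_ae_differentiableAt h.cS' h.neS' hε
  filter_upwards [d1, d2, d3] with x h1 h2 h3
  exact h.pointwise hρ hε h1 h2 h3

/-- the weak inequality for `S'` -/
theorem AbsbData.weak (h : AbsbData D S S' Z R) (hW : WeakIneqStatement) {ρ ε k : ℝ}
    (hρ : 0 < ρ) (hε : 0 < ε)
    (hjet : ∀ x, 0 < sc ε S' x - sc ε S x → ∃ p B, LJ (sc ε S') x p B ∧ -k ≤ curv p B) :
    -k * (∫ x, absbPhi D S S' ρ ε x)
      ≤ - ∫ x, ip (T (grad (sc ε S') x)) (grad (absbPhi D S S' ρ ε) x) := by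
  classical
  set V : Set ℂ := {x | 0 < sc ε S' x - sc ε S x} with hV
  have hVo : IsOpen V := isOpen_lt continuous_const
    ((sc_continuous h.cS' h.neS' hε).sub (sc_continuous h.cS h.neS hε))
  set hh : ℂ → ℝ := V.piecewise (fun _ => -k) (fun _ => -(2 / ε)) with hhh
  have hm : Measurable hh := Measurable.piecewise hVo.measurableSet measurable_const measurable_const
  have hb : ∀ x, |hh x| ≤ |k| + 2 / ε := by
    intro x
    have h2 : 0 ≤ 2 / ε := by positivity
    by_cases hx : x ∈ V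
    · rw [hhh, piecewise_eq_of_mem _ _ _ hx, abs_neg]
      linarith
    · rw [hhh, piecewise_eq_of_notMem _ _ _ hx, abs_neg, abs_of_nonneg h2]
      have := abs_nonneg k
      linarith
  have hj : ∀ᵐ x, ∃ p B, LJ (sc ε S') x p B ∧ hh x ≤ curv p B := by
    apply Filter.Eventually.of_forall
    intro x
    by_cases hx : x ∈ V
    · rw [hhh, piecewise_eq_of_mem _ _ _ hx]
      exact hjet x hx
    · rw [hhh, piecewise_eq_of_notMem _ _ _ hx]
      exact absb_jet_triv h.cS' h.neS' hε x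
  have key := hW (sc ε S') (1 / ε) (by positivity) (sc_convex h.cS' h.neS' hε) hh _ hm hb hj
    (absbPhi D S S' ρ ε) (h.phi_lip hρ hε) (h.phi_compact hρ ε) (h.phi_nonneg ρ ε)
  have e : (fun x => absbPhi D S S' ρ ε x * hh x) = fun x => -k * absbPhi D S S' ρ ε x := by
    funext x
    by_cases hx : x ∈ V
    · rw [hhh, piecewise_eq_of_mem _ _ _ hx]
      ring
    · have h0 : sc ε S' x - sc ε S x = 0 :=
        le_antisymm (not_lt.1 hx) (h.diff_nonneg ε x)
      unfold absbPhi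
      rw [h0]
      simp
  rw [e, integral_const_mul] at key
  exact key

end data


/-! ## the key inequality -/

theorem absb_key (hW : WeakIneqStatement) (hA : AsymSuperStatement) (hC : CollarLimitStatement)
    {D : Set ℂ} {γ : ℝ → ℂ} {L H : ℝ} {S S' : Set E3} {a ν : ℝ → ℝ}
    (fd : FluxData D γ L H S a ν) {Z R c : ℝ} (h : AbsbData D S S' Z R)
    (hjet : ∀ ε > 0, ∀ x, 0 < sc ε S' x - sc ε S x →
      ∃ p B, LJ (sc ε S') x p B ∧ -(2 * H - c) ≤ curv p B) {η : ℝ} (hη : 0 < η) :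
    ∃ ρ > 0, ∃ ε₀ > 0, ∀ ε, 0 < ε → ε < ε₀ → c * (∫ x, absbPhi D S S' ρ ε x) ≤ η := by
  set η1 : ℝ := η / (2 * (2 * Z + 1)) with hη1
  have hZ := h.Z_nonneg
  have hη1p : 0 < η1 := by positivity
  obtain ⟨ρ₀, hρ₀, hA1⟩ := hA D γ L H S a ν fd η1 hη1p
  set ρ : ℝ := ρ₀ / 2 with hρ
  have hρp : 0 < ρ := by positivity
  obtain ⟨ε₁, hε₁, hA2⟩ := hA1 ρ hρp (by linarith)
  have hbd' : ∀ θ, (γ θ, (0 : ℝ)) ∈ S' := fun θ => h.sub (fd.bdry θ)
  have t1 := hC D γ L fd.curve S h.cS fd.cyl fd.bdry ρ hρp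
  have t2 := hC D γ L fd.curve S' h.cS' h.cyl hbd' ρ hρp
  set η2 : ℝ := η / (8 * ((2 * Z + 1) / ρ)) with hη2
  have hη2p : 0 < η2 := by positivity
  have t3 := t1.eventually (gt_mem_nhds hη2p)
  have t4 := t2.eventually (gt_mem_nhds hη2p)
  have t5 := t3.and t4
  rw [eventually_nhdsWithin_iff, Metric.eventually_nhds_iff] at t5
  obtain ⟨ε₂, hε₂, t6⟩ := t5
  refine ⟨ρ, hρp, min ε₁ ε₂, lt_min hε₁ hε₂, fun ε hε hε' => ?_⟩
  have b1 := hA2 ε hε (hε'.trans_le (min_le_left _ _)) (2 * Z) (absbPhi D S S' ρ ε) hZ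
    (h.phi_lip hρp hε) (h.phi_nonneg ρ ε) (h.phi_le ρ hε)
  have b2 := h.weak hW hρp hε (k := 2 * H - c) (hjet ε hε)
  have b3 := h.integrated hρp hε
  have b4 := t6 (y := ε) (by
    rw [Real.dist_eq, sub_zero, abs_of_pos hε]
    exact hε'.trans_le (min_le_right _ _)) hε
  have b5 : ∫ x in absbCol D ρ, absbCI D ρ (sc ε S) x < η2 := b4.1
  have b6 : ∫ x in absbCol D ρ, absbCI D ρ (sc ε S') x < η2 := b4.2
  have b7 : 2 * Z / ρ * ((∫ x in absbCol D ρ, absbCI D ρ (sc ε S') x)
      + ∫ x in absbCol D ρ, absbCI D ρ (sc ε S) x) ≤ 2 * Z / ρ * (η2 + η2) := by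
    gcongr
  have b8 : 2 * Z / ρ * (η2 + η2) ≤ η / 4 := by
    calc 2 * Z / ρ * (η2 + η2) ≤ (2 * Z + 1) / ρ * (η2 + η2) := by
          gcongr
          linarith
      _ = η / 4 := by
          rw [hη2]
          field_simp
          ring
  have b9 : 2 * Z * η1 ≤ η / 2 := by
    calc 2 * Z * η1 ≤ (2 * Z + 1) * η1 := by
          gcongr
          linarith
      _ = η / 2 := by
          rw [hη1]
          field_simp
  linarith

/-! ## geometry of the patch -/

/-- the horizontal part of the patch is locally open where the normal is not horizontal -/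
theorem absb_open (F : Frame) (q : E3) (G : ℂ → ℝ) {s : ℂ} (hG : ContDiffAt ℝ 1 G s)
    (hN : F.n.2 - d1 G s * F.a.2 - d2 G s * F.b.2 ≠ 0) {V : Set ℂ} (hV : V ∈ 𝓝 s) :
    (fun t => (F.pt q G t).1) '' V ∈ 𝓝 (F.pt q G s).1 := by
  set Ψ : ℂ → ℂ := fun t => (F.pt q G t).1 with hΨ
  have e : Ψ = fun t => q.1 + t.re • F.a.1 + t.im • F.b.1 + G t • F.n.1 := by
    funext t
    simp [hΨ, Frame.pt]
  have hGs : HasStrictFDerivAt G (fderiv ℝ G s) s := hG.hasStrictFDerivAt one_ne_zero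
  have h1 : HasStrictFDerivAt (fun t : ℂ => t.re • F.a.1) (Complex.reCLM.smulRight F.a.1) s :=
    (Complex.reCLM.smulRight F.a.1).hasStrictFDerivAt
  have h2 : HasStrictFDerivAt (fun t : ℂ => t.im • F.b.1) (Complex.imCLM.smulRight F.b.1) s :=
    (Complex.imCLM.smulRight F.b.1).hasStrictFDerivAt
  have h3 : HasStrictFDerivAt (fun t : ℂ => G t • F.n.1) ((fderiv ℝ G s).smulRight F.n.1) s :=
    hGs.smul_const F.n.1
  have h4 : HasStrictFDerivAt Ψ (Complex.reCLM.smulRight F.a.1 + Complex.imCLM.smulRight F.b.1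
      + (fderiv ℝ G s).smulRight F.n.1) s := by
    rw [e]
    exact ((h1.const_add q.1).add h2).add h3
  set A : ℂ →L[ℝ] ℂ := Complex.reCLM.smulRight F.a.1 + Complex.imCLM.smulRight F.b.1
      + (fderiv ℝ G s).smulRight F.n.1 with hA
  have hinj : Function.Injective A := by
    rw [injective_iff_map_eq_zero]
    intro v hv
    set VV : E3 := v.re • F.a + v.im • F.b + (fderiv ℝ G s v) • F.n with hVV
    have hV1 : VV.1 = 0 := by
      have : A v = VV.1 := by
        simp [hA, hVV]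
      rw [← this, hv]
    have da : dot VV F.a = v.re := by
      rw [hVV]
      simp only [dot_add_left, dot_smul_left]
      rw [dot_comm F.b F.a, dot_comm F.n F.a, F.haa, F.hab, F.han]
      ring
    have db : dot VV F.b = v.im := by
      rw [hVV]
      simp only [dot_add_left, dot_smul_left]
      rw [dot_comm F.n F.b, F.hbb, F.hab, F.hbn]
      ring
    have dn : dot VV F.n = fderiv ℝ G s v := by
      rw [hVV]
      simp only [dot_add_left, dot_smul_left]
      rw [F.hnn, F.han, F.hbn]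
      ring
    have da' : dot VV F.a = VV.2 * F.a.2 := by unfold dot; rw [hV1, ip_zero_left]; ring
    have db' : dot VV F.b = VV.2 * F.b.2 := by unfold dot; rw [hV1, ip_zero_left]; ring
    have dn' : dot VV F.n = VV.2 * F.n.2 := by unfold dot; rw [hV1, ip_zero_left]; ring
    have hgrad : fderiv ℝ G s v = d1 G s * v.re + d2 G s * v.im := by
      rw [← absb_ip_grad]
      simp [ip, grad]
    have hz : VV.2 * (F.n.2 - d1 G s * F.a.2 - d2 G s * F.b.2) = 0 := by
      have : VV.2 * F.n.2 = d1 G s * (VV.2 * F.a.2) + d2 G s * (VV.2 * F.b.2) := by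
        rw [← da', ← db', ← dn', da, db, dn, hgrad]
      linear_combination this
    have hz2 : VV.2 = 0 := by
      rcases mul_eq_zero.1 hz with h | h
      · exact h
      · exact absurd h hN
    rw [hz2, zero_mul] at da' db'
    apply Complex.ext
    · rw [← da, da']; rfl
    · rw [← db, db']; rfl
  have hsurj : A.range = ⊤ := by
    have : Function.Surjective (A : ℂ →ₗ[ℝ] ℂ) := LinearMap.injective_iff_surjective.1 hinj
    exact LinearMap.range_eq_top.2 this
  have h5 := h4.map_nhds_eq_of_surj hsurj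
  rw [← h5]
  exact image_mem_map hV

theorem absb_pt_continuousAt (F : Frame) (q : E3) {G : ℂ → ℝ} {s : ℂ} (hG : ContinuousAt G s) :
    ContinuousAt (F.pt q G) s := by
  unfold Frame.pt
  have h1 : ContinuousAt (fun t : ℂ => t.re) s := Complex.continuous_re.continuousAt
  have h2 : ContinuousAt (fun t : ℂ => t.im) s := Complex.continuous_im.continuousAt
  exact ((continuousAt_const.add (h1.smul continuousAt_const)).add
    (h2.smul continuousAt_const)).add (hG.smul continuousAt_const)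

/-- derivative of the patch along the lifted vertical direction -/
theorem absb_hasDerivAt (F : Frame) (q : E3) (G : ℂ → ℝ) {s : ℂ} (hG : DifferentiableAt ℝ G s)
    (hN : F.n.2 - d1 G s * F.a.2 - d2 G s * F.b.2 = 0) {s0 : ℂ} {τ : ℝ}
    (hs : s = s0 + (τ : ℂ) * ⟨F.a.2, F.b.2⟩) :
    HasDerivAt (fun t : ℝ => F.pt q G (s0 + (t : ℂ) * ⟨F.a.2, F.b.2⟩)) ((0 : ℂ), (1 : ℝ)) τ := by
  set ξ : ℂ := ⟨F.a.2, F.b.2⟩ with hξ
  have h0 : HasDerivAt (fun t : ℝ => s0 + (t : ℂ) * ξ) ξ τ := by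
    have := ((hasDerivAt_id τ).ofReal_comp.mul_const ξ).const_add s0
    simpa using this
  have h1 : HasDerivAt (fun t : ℝ => (s0 + (t : ℂ) * ξ).re) ξ.re τ :=
    (Complex.reCLM.hasFDerivAt.comp_hasDerivAt τ h0)
  have h2 : HasDerivAt (fun t : ℝ => (s0 + (t : ℂ) * ξ).im) ξ.im τ :=
    (Complex.imCLM.hasFDerivAt.comp_hasDerivAt τ h0)
  have hG' : HasFDerivAt G (fderiv ℝ G s) (s0 + (τ : ℂ) * ξ) := by
    rw [← hs]
    exact hG.hasFDerivAt
  have h3 : HasDerivAt (fun t : ℝ => G (s0 + (t : ℂ) * ξ)) (fderiv ℝ G s ξ) τ :=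
    hG'.comp_hasDerivAt τ h0
  have h4 := (((h1.smul_const F.a).const_add q).add (h2.smul_const F.b)).add (h3.smul_const F.n)
  have e : ((0 : ℂ), (1 : ℝ)) = ξ.re • F.a + ξ.im • F.b + (fderiv ℝ G s ξ) • F.n := by
    rw [F.expand_vert, ← absb_ip_grad]
    have : ip (grad G s) ξ = F.n.2 := by
      simp only [ip, grad, hξ]
      linarith
    rw [this]
  rw [e]
  exact h4

/-- a patch which is vertical wherever it is not below `S` is below `S` -/
theorem absb_vertical {S : Set E3} (hS : IsCompact S) (F : Frame) (q : E3) (G : ℂ → ℝ)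
    {Ω U : Set ℂ} (hΩ : IsCompact Ω) (hU : IsOpen U) (hΩU : Ω ⊆ U) (hGs : ContDiffOn ℝ ∞ G U)
    (hbd : ∀ s ∈ Ω, s ∉ interior Ω → F.pt q G s ∈ below S)
    (hN : ∀ s ∈ Ω, F.pt q G s ∉ below S → F.n.2 - d1 G s * F.a.2 - d2 G s * F.b.2 = 0) :
    ∀ s ∈ Ω, F.pt q G s ∈ below S := by
  intro s0 hs0
  by_contra hc
  set ξ : ℂ := ⟨F.a.2, F.b.2⟩ with hξ
  have hξ0 : ξ ≠ 0 := by
    intro h0
    have ha : F.a.2 = 0 := congrArg Complex.re h0
    have hb : F.b.2 = 0 := congrArg Complex.im h0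
    have h1 := hN s0 hs0 hc
    have h2 := F.complete.zz
    rw [ha, hb] at h1 h2
    have h3 : F.n.2 = 0 := by linarith
    rw [h3] at h2
    norm_num at h2
  -- continuous induction
  have hcont : ∀ s ∈ Ω, ContinuousAt (F.pt q G) s := fun s hs =>
    absb_pt_continuousAt F q (hGs.continuousOn.continuousAt (hU.mem_nhds (hΩU hs)))
  have hline : Continuous (fun t : ℝ => s0 + (t : ℂ) * ξ) := by fun_prop
  set I : Set ℝ := {t | s0 + (t : ℂ) * ξ ∈ Ω ∧ F.pt q G (s0 + (t : ℂ) * ξ) ∉ below S ∧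
    F.pt q G (s0 + (t : ℂ) * ξ) = F.pt q G s0 + t • ((0 : ℂ), (1 : ℝ))} with hI
  have hI0 : (0 : ℝ) ∈ I := by
    refine ⟨by simpa using hs0, by simpa using hc, by simp⟩
  obtain ⟨R, hR⟩ := hΩ.isBounded.subset_closedBall (0 : ℂ)
  have hξp : 0 < ‖ξ‖ := norm_pos_iff.2 hξ0
  set T1 : ℝ := (‖s0‖ + |R| + 1) / ‖ξ‖ with hT1
  have hT1p : 0 < T1 := by positivity
  have hsub : Icc 0 T1 ⊆ I := by
    apply IsClosed.Icc_subset_of_forall_mem_nhdsWithin _ hI0
    · -- open
      rintro t ⟨⟨ht1, ht2, ht3⟩, ht4⟩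
      have hti : s0 + (t : ℂ) * ξ ∈ interior Ω := by
        by_contra hcc
        exact ht2 (hbd _ ht1 hcc)
      -- near t the point is in the interior and not below S
      have e1 : ∀ᶠ t' : ℝ in 𝓝 t, s0 + (t' : ℂ) * ξ ∈ interior Ω :=
        hline.continuousAt.eventually_mem (isOpen_interior.mem_nhds hti)
      have e2 : ∀ᶠ t' : ℝ in 𝓝 t, F.pt q G (s0 + (t' : ℂ) * ξ) ∉ below S := by
        have hc2 : ContinuousAt (fun t' : ℝ => F.pt q G (s0 + (t' : ℂ) * ξ)) t :=
          ContinuousAt.comp (f := fun t' : ℝ => s0 + (t' : ℂ) * ξ) (hcont _ ht1) hline.continuousAt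
        exact hc2.eventually_mem ((isClosed_below hS).isOpen_compl.mem_nhds ht2)
      obtain ⟨δ, hδ, he⟩ := Metric.eventually_nhds_iff_ball.1 (e1.and e2)
      have hball : ∀ t' ∈ ball t δ, F.pt q G (s0 + (t' : ℂ) * ξ) - t' • ((0 : ℂ), (1 : ℝ))
          = F.pt q G (s0 + (t : ℂ) * ξ) - t • ((0 : ℂ), (1 : ℝ)) := by
        intro t' ht'
        have hconv : Convex ℝ (ball t δ) := convex_ball t δ
        have hder : ∀ x ∈ ball t δ, HasDerivWithinAt (fun t' : ℝ => F.pt q G (s0 + (t' : ℂ) * ξ)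
            - t' • ((0 : ℂ), (1 : ℝ))) 0 (ball t δ) x := by
          intro x hx
          obtain ⟨hx1, hx2⟩ := he x hx
          have hxΩ := interior_subset hx1
          have hd : DifferentiableAt ℝ G (s0 + (x : ℂ) * ξ) :=
            (hGs.contDiffAt (hU.mem_nhds (hΩU hxΩ))).differentiableAt (by simp)
          have h5 := absb_hasDerivAt F q G hd (hN _ hxΩ hx2) (s0 := s0) (τ := x) rfl
          have h6 : HasDerivAt (fun t' : ℝ => t' • ((0 : ℂ), (1 : ℝ))) ((0 : ℂ), (1 : ℝ)) x := by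
            have := (hasDerivAt_id x).smul_const ((0 : ℂ), (1 : ℝ))
            simpa using this
          have h7 := h5.sub h6
          rw [sub_self] at h7
          exact h7.hasDerivWithinAt
        have h8 := hconv.norm_image_sub_le_of_norm_hasDerivWithin_le (C := 0) hder
          (fun x _ => by simp) (mem_ball_self hδ) ht'
        rw [zero_mul, norm_le_zero_iff, sub_eq_zero] at h8
        exact h8
      apply mem_nhdsWithin_of_mem_nhds
      apply Filter.mem_of_superset (ball_mem_nhds t hδ)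
      intro t' ht'
      obtain ⟨h1, h2⟩ := he t' ht'
      refine ⟨interior_subset h1, h2, ?_⟩
      have h3 := hball t' ht'
      rw [ht3] at h3
      have h4 : F.pt q G (s0 + (t' : ℂ) * ξ) = F.pt q G s0 + t • ((0 : ℂ), (1 : ℝ))
          - t • ((0 : ℂ), (1 : ℝ)) + t' • ((0 : ℂ), (1 : ℝ)) := by
        rw [← h3]
        abel
      rw [h4]
      abel
    · -- closed
      apply IsSeqClosed.isClosed
      rintro tn t htn hlim
      have h0 : ∀ n, 0 ≤ tn n := fun n => (htn n).2.1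
      have ht0 : 0 ≤ t := ge_of_tendsto' hlim h0
      have htT : t ≤ T1 := le_of_tendsto' hlim fun n => (htn n).2.2
      have hl : Tendsto (fun n => s0 + (tn n : ℂ) * ξ) atTop (𝓝 (s0 + (t : ℂ) * ξ)) :=
        (hline.tendsto t).comp hlim
      have hΩt : s0 + (t : ℂ) * ξ ∈ Ω :=
        hΩ.isClosed.mem_of_tendsto hl (Filter.Eventually.of_forall fun n => (htn n).1.1)
      have hp1 : Tendsto (fun n => F.pt q G (s0 + (tn n : ℂ) * ξ)) atTop
          (𝓝 (F.pt q G (s0 + (t : ℂ) * ξ))) := (hcont _ hΩt).tendsto.comp hl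
      have hp2 : Tendsto (fun n => F.pt q G s0 + tn n • ((0 : ℂ), (1 : ℝ))) atTop
          (𝓝 (F.pt q G s0 + t • ((0 : ℂ), (1 : ℝ)))) :=
        tendsto_const_nhds.add (hlim.smul_const _)
      have hp3 : (fun n => F.pt q G (s0 + (tn n : ℂ) * ξ))
          = fun n => F.pt q G s0 + tn n • ((0 : ℂ), (1 : ℝ)) := funext fun n => (htn n).1.2.2
      rw [hp3] at hp1
      have heq := tendsto_nhds_unique hp1 hp2
      refine ⟨⟨hΩt, ?_, heq⟩, ht0, htT⟩
      intro hb
      apply hc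
      apply below_down hb
      · rw [heq]
        simp
      · rw [heq]
        simp [ht0]
  have hTI := (hsub (right_mem_Icc.2 hT1p.le)).1
  have h9 := hR hTI
  rw [mem_closedBall, dist_zero_right] at h9
  have h10 : ‖(T1 : ℂ) * ξ‖ = ‖s0‖ + |R| + 1 := by
    rw [norm_mul, Complex.norm_real, Real.norm_eq_abs, abs_of_pos hT1p, hT1]
    field_simp
  have h11 : ‖(T1 : ℂ) * ξ‖ ≤ ‖s0 + (T1 : ℂ) * ξ‖ + ‖s0‖ := by
    have := norm_sub_le (s0 + (T1 : ℂ) * ξ) s0
    rwa [add_sub_cancel_left] at this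
  have := le_abs_self R
  linarith


theorem ABS_holds (hW : WeakIneqStatement) (hA : AsymSuperStatement) (hJ : JetScStatement)
    (hG : GraphJetStatement) (hC : CollarLimitStatement) : AbsorbStatement := by
  intro D γ L H S a ν fd F q G Ω U c hΩ hU hΩU hGs hc hcl hbd hmc
  apply absb_vertical fd.compact F q G hΩ hU hΩU hGs hbd
  intro s0 hs0 hsb
  by_contra hN
  have hcont : ∀ s ∈ Ω, ContinuousAt (F.pt q G) s := fun s hs =>
    absb_pt_continuousAt F q (hGs.continuousOn.continuousAt (hU.mem_nhds (hΩU hs)))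
  have hP : IsCompact (F.pt q G '' Ω) :=
    hΩ.image_of_continuousOn fun s hs => (hcont s hs).continuousWithinAt
  set S' : Set E3 := S ∪ F.pt q G '' Ω with hS'
  have cS' : IsCompact S' := fd.compact.union hP
  have neS : S.Nonempty := ⟨_, fd.bdry 0⟩
  obtain ⟨Z, hZ⟩ := cS'.isBounded.subset_closedBall (0 : E3)
  have hZ' : ∀ X ∈ S', |X.2| ≤ Z := by
    intro X hX
    have h1 := hZ hX
    rw [mem_closedBall, dist_zero_right] at h1
    have h2 : ‖X.2‖ ≤ ‖X‖ := norm_snd_le X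
    rw [Real.norm_eq_abs] at h2
    exact h2.trans h1
  obtain ⟨R, hR⟩ := fd.curve.bounded.subset_closedBall (0 : ℂ)
  have data : AbsbData D S S' Z R := by
    refine ⟨fun x hx => by simpa using hR hx, fd.curve.nonempty, fd.compact, cS',
      subset_union_left, neS, ?_, fd.onto, ?_, ?_⟩
    · rintro X (hX | ⟨s, hs, rfl⟩)
      · exact fd.cyl X hX
      · exact hcl s hs
    · intro X hX
      exact (abs_le.1 (hZ' X (Or.inl hX))).1
    · intro X hX
      exact (abs_le.1 (hZ' X hX)).2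
  have hjet : ∀ ε > 0, ∀ x, 0 < sc ε S' x - sc ε S x →
      ∃ p B, LJ (sc ε S') x p B ∧ -(2 * H - c) ≤ curv p B := fun ε hε x hx =>
    absb_jet_patch hJ hG fd.compact neS F q G Ω U (2 * H - c) hU hΩU hGs hbd hmc hP hε hx
  have hsi : s0 ∈ interior Ω := by
    by_contra hcc
    exact hsb (hbd s0 hs0 hcc)
  -- a ball around the point which does not meet `below S`
  obtain ⟨δ4, hδ4, hball⟩ := Metric.isOpen_iff.1 (isClosed_below fd.compact).isOpen_compl _ hsb
  set δ : ℝ := δ4 / 4 with hδ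
  have hδp : 0 < δ := by positivity
  have hV : interior Ω ∩ {t | dist (F.pt q G t) (F.pt q G s0) < δ} ∈ 𝓝 s0 := by
    apply Filter.inter_mem (isOpen_interior.mem_nhds hsi)
    have := (hcont s0 hs0).eventually_mem (ball_mem_nhds (F.pt q G s0) hδp)
    exact this
  have hcd : ContDiffAt ℝ 1 G s0 :=
    (hGs.contDiffAt (hU.mem_nhds (hΩU hs0))).of_le (by norm_cast)
  have himg := absb_open F q G hcd hN hV
  obtain ⟨r', hr', hrb⟩ := Metric.mem_nhds_iff.1 himg
  set r : ℝ := min r' δ with hr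
  have hrp : 0 < r := lt_min hr' hδp
  set x0 : ℂ := (F.pt q G s0).1 with hx0
  have hZ0 : 0 ≤ Z := by
    have := data.Z_nonneg
    linarith
  set ε₃ : ℝ := δ ^ 2 / (4 * Z + 1) with hε₃
  have hε₃p : 0 < ε₃ := by positivity
  have hlow : ∀ ε, 0 < ε → ε < ε₃ → ∀ x ∈ ball x0 r,
      x ∈ closure D ∧ δ ≤ sc ε S' x - sc ε S x := by
    intro ε hε hε' x hx
    have hxb : x ∈ ball x0 r' := ball_subset_ball (min_le_left _ _) hx
    obtain ⟨t, ⟨ht1, ht2⟩, ht3⟩ := hrb hxb
    have ht3' : (F.pt q G t).1 = x := ht3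
    have htΩ : t ∈ Ω := interior_subset ht1
    have hxD : x ∈ closure D := by
      rw [← ht3']
      exact hcl t htΩ
    refine ⟨hxD, ?_⟩
    have h1 : (F.pt q G t).2 ≤ sc ε S' x := by
      have := le_sc cS' ε x (Or.inr (mem_image_of_mem _ htΩ))
      rw [ht3', sub_self] at this
      simpa using this
    obtain ⟨X, hX, h2⟩ := exists_sc fd.compact neS ε x
    obtain ⟨Y, hY, hYx⟩ := fd.onto x hxD
    have h3 : Y.2 ≤ sc ε S x := by
      have := le_sc fd.compact ε x hY
      rw [hYx, sub_self] at this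
      simpa using this
    have h4 := data.lo Y hY
    have h5 := data.hi X (Or.inl hX)
    have h6 : ‖x - X.1‖ ^ 2 / (2 * ε) ≤ 2 * Z := by linarith
    have h7 : ‖x - X.1‖ ^ 2 < δ ^ 2 := by
      rw [div_le_iff₀ (by positivity)] at h6
      have h8 : ε * (4 * Z + 1) < δ ^ 2 := by
        rwa [hε₃, lt_div_iff₀ (by positivity)] at hε'
      nlinarith
    have h8 : ‖x - X.1‖ < δ := lt_of_pow_lt_pow_left₀ 2 hδp.le h7
    have h9 : X.2 ≤ (F.pt q G t).2 - δ := by
      by_contra hcc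
      push Not at hcc
      have hb : ((X.1, (F.pt q G t).2 - δ) : E3) ∈ below S :=
        ⟨X, hX, rfl, hcc.le⟩
      have hdist : ((X.1, (F.pt q G t).2 - δ) : E3) ∈ ball (F.pt q G s0) δ4 := by
        rw [mem_ball, Prod.dist_eq]
        apply max_lt
        · have h10 : dist X.1 x0 ≤ dist X.1 x + dist x x0 := dist_triangle _ _ _
          have h11 : dist X.1 x = ‖x - X.1‖ := by rw [dist_comm, dist_eq_norm]
          have h12 : dist x x0 < δ := (mem_ball.1 hx).trans_le (min_le_right _ _)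
          calc dist X.1 (F.pt q G s0).1 ≤ dist X.1 x + dist x x0 := h10
            _ < δ + δ := by rw [h11]; linarith
            _ ≤ δ4 := by rw [hδ]; linarith
        · have h10 : dist (F.pt q G t).2 (F.pt q G s0).2 < δ :=
            (le_max_right _ _).trans_lt ht2
          rw [Real.dist_eq] at h10 ⊢
          have h11 := abs_lt.1 h10
          simp only
          rw [abs_lt]
          constructor
          · rw [hδ] at *
            linarith [h11.1]
          · rw [hδ] at *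
            linarith [h11.2]
      exact hball hdist hb
    have h10 : 0 ≤ ‖x - X.1‖ ^ 2 / (2 * ε) := by positivity
    linarith
  set v : ℝ := volume.real (ball x0 r) with hv
  have hvp : 0 < v := by
    rw [hv, Measure.real]
    exact ENNReal.toReal_pos (measure_ball_pos volume x0 hrp).ne' measure_ball_lt_top.ne
  obtain ⟨ρ, hρ, ε₀, hε₀, hkey⟩ := absb_key hW hA hC fd data hjet
    (η := c * (δ * v) / 2) (by positivity)
  set ε : ℝ := min ε₀ ε₃ / 2 with hε
  have hmin : 0 < min ε₀ ε₃ := lt_min hε₀ hε₃p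
  have hεp : 0 < ε := by positivity
  have hεl : ε < min ε₀ ε₃ := by
    rw [hε]
    linarith
  have k1 := hkey ε hεp (hεl.trans_le (min_le_left _ _))
  have k2 : δ * v ≤ ∫ x, absbPhi D S S' ρ ε x := by
    obtain ⟨C, hC'⟩ := data.phi_lip hρ hεp
    have hint : Integrable (absbPhi D S S' ρ ε) :=
      hC'.continuous.integrable_of_hasCompactSupport (data.phi_compact hρ ε)
    have e1 : δ * v = ∫ x, (ball x0 r).indicator (fun _ => δ) x := by
      rw [integral_indicator measurableSet_ball, setIntegral_const, smul_eq_mul, hv]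
      ring
    rw [e1]
    apply integral_mono _ hint
    · intro x
      by_cases hx : x ∈ ball x0 r
      · simp only [indicator_of_mem hx]
        obtain ⟨h1, h2⟩ := hlow ε hεp (hεl.trans_le (min_le_right _ _)) x hx
        have h3 : cut D ρ x = 1 := by
          apply absb_cut_eq_one
          rw [← infDist_closure]
          exact infDist_zero_of_mem h1
        unfold absbPhi
        rw [h3, one_mul]
        exact h2
      · simp only [indicator_of_notMem hx]
        exact data.phi_nonneg ρ ε x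
    · rw [integrable_indicator_iff measurableSet_ball]
      exact integrableOn_const measure_ball_lt_top.ne (by simp)
  have k3 : c * (δ * v) ≤ c * (∫ x, absbPhi D S S' ρ ε x) := by gcongr
  have k4 : 0 < c * (δ * v) := by positivity
  linarith

end Cyl
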