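import Pool.Agent.Cyl.Stmt

/-!
# Statements of the modules, part 2: geometry of the surface
-/

open MeasureTheory Set Filter Topology Metric
open scoped ContDiff

noncomputable section

namespace Cyl

universe u

variable {M : Type u} [TopologicalSpace M]

theorem Setup.exists_b (S : Setup M) (θ : ℝ) : ∃ q, q ∈ S.bd ∧ S.f q = (S.γ θ, (0 : ℝ)) := by
  have h : (S.γ θ, (0 : ℝ)) ∈ S.f '' S.bd := by
    rw [S.img_bd]
    refine ⟨?_, rfl⟩
    rw [← S.curve.range_eq]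
    exact mem_range_self θ
  obtain ⟨q, hq, h⟩ := h
  exact ⟨q, hq, h⟩

/-- the boundary point of the surface over `γ θ` -/
def Setup.b (S : Setup M) (θ : ℝ) : M := Classical.choose (S.exists_b θ)

theorem Setup.b_mem (S : Setup M) (θ : ℝ) : S.b θ ∈ S.bd := (Classical.choose_spec (S.exists_b θ)).1

theorem Setup.f_b (S : Setup M) (θ : ℝ) : S.f (S.b θ) = (S.γ θ, (0 : ℝ)) :=
  (Classical.choose_spec (S.exists_b θ)).2

/-- `⟨N, i γ'⟩` along the boundary -/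
def Setup.ν (S : Setup M) (θ : ℝ) : ℝ := ip (S.N (S.b θ)).1 (Complex.I * deriv S.γ θ)

/-- the vector `σ N × (γ', 0)` -/
def Setup.cn (S : Setup M) (σ θ : ℝ) : E3 :=
  σ • (((((S.N (S.b θ)).2 : ℝ) : ℂ) * (Complex.I * deriv S.γ θ)), - S.ν θ)

/-- the inner conormal is `σ N × (γ', 0)` at all boundary points -/
def Setup.Conormal (S : Setup M) (σ : ℝ) : Prop :=
  ∀ θ F r g β e, BdPatch S.f S.N S.bd S.H (S.b θ) F r g β e → F.b = S.cn σ θ

/-- BASIC. -/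
def BasicStatement : Prop :=
  ∀ (M : Type u) [TopologicalSpace M] [CompactSpace M] [T2Space M] (S : Setup M),
    Continuous S.f ∧ Continuous S.N ∧ IsClosed S.bd ∧ Continuous S.b ∧
    (∀ θ, S.b (θ + S.L) = S.b θ) ∧ (∀ q ∈ S.bd, ∃ θ, S.b θ = q) ∧
    (∀ q, dot (S.N q) (S.N q) = 1) ∧ (∀ θ, dot (S.N (S.b θ)) (deriv S.γ θ, 0) = 0)

/-- ORIENT. -/
def OrientStatement : Prop :=
  ∀ (M : Type u) [TopologicalSpace M] [CompactSpace M] [T2Space M] (S : Setup M),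
    ∃ σ : ℝ, (σ = 1 ∨ σ = -1) ∧ S.Conormal σ

/-- REFLECT. -/
def ReflectStatement : Prop :=
  ∀ (M : Type u) [TopologicalSpace M] [CompactSpace M] [T2Space M] (S : Setup M),
    ∃ S' : Setup M, S'.D = S.D ∧ S'.γ = S.γ ∧ S'.L = S.L ∧ S'.H = S.H ∧ S'.bd = S.bd ∧
      (∀ q, S'.f q = ((S.f q).1, - (S.f q).2)) ∧ (∀ q, S'.N q = ((S.N q).1, - (S.N q).2)) ∧
      (S.Conormal 1 → S'.Conormal (-1))

/-! ## Stokes -/

/-- a patch of either kind -/
def AnyPatch (f N : M → E3) (bd : Set M) (H : ℝ) (q : M) (F : Frame) (r : ℝ) (g : ℂ → ℝ)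
    (R : Set ℂ) (e : PartialEquiv M ℂ) : Prop :=
  (R = ball 0 r ∧ IntPatch f N bd H q F r g e) ∨
    ∃ β, R = halfDisc r β ∧ BdPatch f N bd H q F r g β e

/-- AMEAS. The area measure. -/
def AreaMeasureStatement : Prop :=
  ∀ (M : Type u) [TopologicalSpace M] [CompactSpace M] [T2Space M] [MeasurableSpace M]
    [BorelSpace M] (S : Setup M), ∃ μ : Measure M, IsFiniteMeasure μ ∧
    ∀ q F r g R e, AnyPatch S.f S.N S.bd S.H q F r g R e →
      μ.restrict e.source =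
        Measure.map e.symm ((volume.restrict R).withDensity fun s => ENNReal.ofReal (W (grad g s)))

/-- the horizontal `1`-form `V ↦ ⟨Y, π V⟩` is closed on the surface -/
def Setup.Closed (S : Setup M) (Y : M → ℂ) : Prop :=
  ∀ q, ∃ F r g R e, AnyPatch S.f S.N S.bd S.H q F r g R e ∧ ∃ Y' : ℂ → ℂ,
    ContDiffOn ℝ 1 Y' (ball 0 r) ∧ (∀ s ∈ R, Y (e.symm s) = Y' s) ∧
    ∀ s ∈ R, d1 (fun t => ip (Y' t) (F.b.1 + ((d2 g t : ℝ) : ℂ) * F.n.1)) s =
      d2 (fun t => ip (Y' t) (F.a.1 + ((d1 g t : ℝ) : ℂ) * F.n.1)) s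

/-- STOKES. -/
def StokesStatement : Prop :=
  ∀ (M : Type u) [TopologicalSpace M] [CompactSpace M] [T2Space M] (S : Setup M) (σ : ℝ),
    (σ = 1 ∨ σ = -1) → S.Conormal σ → ∀ Y : M → ℂ, S.Closed Y →
    ∫ θ in (0:ℝ)..S.L, ip (Y (S.b θ)) (deriv S.γ θ) = 0

/-- CLN. -/
def ClosedNStatement : Prop :=
  ∀ (M : Type u) [TopologicalSpace M] [CompactSpace M] [T2Space M] (S : Setup M),
    S.Closed (fun q => Complex.I * ((S.N q).1 + (S.H : ℂ) * (S.f q).1))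

/-- CLA. -/
def ClosedAngleStatement : Prop :=
  ∀ (M : Type u) [TopologicalSpace M] [CompactSpace M] [T2Space M] (S : Setup M) (x₀ : ℂ),
    (∀ q, (S.f q).1 ≠ x₀) →
    S.Closed (fun q => Complex.I * ((((‖(S.f q).1 - x₀‖ ^ 2)⁻¹ : ℝ) : ℂ) * ((S.f q).1 - x₀)))

/-- FLUX. -/
def FluxStatement : Prop :=
  ∀ (M : Type u) [TopologicalSpace M] [CompactSpace M] [T2Space M] (S : Setup M) (σ : ℝ),
    (σ = 1 ∨ σ = -1) → S.Conormal σ → ∫ θ in (0:ℝ)..S.L, S.ν θ = 2 * S.H * volume.real S.D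

/-- ONTO. -/
def OntoStatement : Prop :=
  ∀ (M : Type u) [TopologicalSpace M] [CompactSpace M] [T2Space M] (S : Setup M) (σ : ℝ),
    (σ = 1 ∨ σ = -1) → S.Conormal σ → ∀ x ∈ closure S.D, ∃ q, (S.f q).1 = x

/-- FDATA. -/
def FluxDataStatement : Prop :=
  ∀ (M : Type u) [TopologicalSpace M] [CompactSpace M] [T2Space M] (S : Setup M),
    S.Conormal (-1) →
    FluxData S.D S.γ S.L S.H (range S.f) (fun θ => - (S.N (S.b θ)).2) S.ν

/-! ## Interior structure -/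

/-- the points of the surface over `D` which are not interior to the region below the surface -/
def Setup.top (S : Setup M) : Set M := {q | (S.f q).1 ∈ S.D ∧ S.f q ∉ interior (below (range S.f))}

/-- NSIDE. The side of the surface into which `N` points lies below the surface. -/
def NSideStatement : Prop :=
  ∀ (M : Type u) [TopologicalSpace M] [CompactSpace M] [T2Space M] (S : Setup M),
    Absorbs S.D S.H (range S.f) → ∀ q F r g e, IntPatch S.f S.N S.bd S.H q F r g e →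
    ∀ s₁ ∈ ball (0 : ℂ) r, (F.pt (S.f q) g s₁).1 ∈ S.D →
    ∃ δ > 0, ∀ s : ℂ, ‖s - s₁‖ < δ → ∀ y : ℝ, g s ≤ y → y ≤ g s + δ →
      S.f q + s.re • F.a + s.im • F.b + y • F.n ∈ below (range S.f)

/-- TOPEN. -/
def TopOpenStatement : Prop :=
  ∀ (M : Type u) [TopologicalSpace M] [CompactSpace M] [T2Space M] (S : Setup M),
    Absorbs S.D S.H (range S.f) → IsOpen S.top

/-- TNEG. -/
def TopNegStatement : Prop :=
  ∀ (M : Type u) [TopologicalSpace M] [CompactSpace M] [T2Space M] (S : Setup M),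
    Absorbs S.D S.H (range S.f) → ∀ q ∈ S.top, (S.N q).2 < 0

/-- LOC. Near a non-vertical interior point the surface is a graph over the horizontal plane. -/
def LocalGraphStatement : Prop :=
  ∀ (M : Type u) [TopologicalSpace M] [CompactSpace M] [T2Space M] (S : Setup M),
    ∀ q, q ∉ S.bd → (S.N q).2 ≠ 0 →
    (∀ V ∈ 𝓝 q, (fun q' => (S.f q').1) '' V ∈ 𝓝 (S.f q).1) ∧
    (∃ V ∈ 𝓝 q, InjOn (fun q' => (S.f q').1) V) ∧
    ∃ w : ℂ → ℝ, ContDiffAt ℝ ∞ w (S.f q).1 ∧ ∀ᶠ q' in 𝓝 q, (S.f q').2 = w (S.f q').1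

/-- Everything about `S.top` used later. -/
structure TopFacts (S : Setup M) : Prop where
  onto : ∀ x ∈ closure S.D, ∃ q, (S.f q).1 = x
  isOpen : IsOpen S.top
  neg : ∀ q ∈ S.top, (S.N q).2 < 0
  high : ∀ q ∈ S.top, ∀ q', (S.f q').1 = (S.f q).1 → (S.f q').2 ≤ (S.f q).2
  ex : ∀ x ∈ S.D, ∃ q ∈ S.top, (S.f q).1 = x
  dich : (∀ q ∈ S.top, ∀ q' ∈ S.top, (S.f q).1 = (S.f q').1 → q = q') ∨
    ∀ x ∈ S.D, ∃ q ∈ S.top, ∃ q' ∈ S.top, (S.f q).1 = x ∧ (S.f q').1 = x ∧ q ≠ q'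
  conn : ∀ A : Set M, IsPreconnected A → (∀ q ∈ A, (S.f q).1 ∈ S.D) → (A ∩ S.top).Nonempty →
    A ⊆ S.top

/-- TFACTS. -/
def TopFactsStatement : Prop :=
  ∀ (M : Type u) [TopologicalSpace M] [CompactSpace M] [T2Space M] (S : Setup M),
    Absorbs S.D S.H (range S.f) → (∀ x ∈ closure S.D, ∃ q, (S.f q).1 = x) → TopFacts S

/-! ## Boundary structure -/

/-- a punctured neighbourhood of the boundary point consists of top points -/
def Setup.Good (S : Setup M) (θ : ℝ) : Prop := ∃ V ∈ 𝓝 (S.b θ), V \ S.bd ⊆ S.top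

/-- contacts with the wall are negligible -/
def Setup.Null (S : Setup M) : Prop :=
  ∀ᵐ θ ∂(volume.restrict (Ioo 0 S.L)), VertContact (range S.f) (S.γ θ) → S.ν θ = 1

/-- NODOWN. -/
def NoDownStatement : Prop :=
  ∀ (M : Type u) [TopologicalSpace M] [CompactSpace M] [T2Space M] (S : Setup M),
    S.Conormal (-1) → ∀ θ, -1 < S.ν θ ∧ S.ν θ ≤ 1

/-- BCOLLAR. Non-vertical boundary points. -/
def BdCollarStatement : Prop :=
  ∀ (M : Type u) [TopologicalSpace M] [CompactSpace M] [T2Space M] (S : Setup M),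
    S.Conormal (-1) → ∀ θ, |S.ν θ| < 1 → ∀ V ∈ 𝓝 (S.b θ), ∃ V' ∈ 𝓝 (S.b θ), V' ⊆ V ∧
      IsPreconnected (V' \ S.bd) ∧ (∀ q ∈ V' \ S.bd, (S.f q).1 ∈ S.D) ∧
      InjOn (fun q => (S.f q).1) V' ∧
      ∃ δ > 0, ∀ x ∈ S.D, ‖x - S.γ θ‖ < δ → ∃ q ∈ V' \ S.bd, (S.f q).1 = x

/-- A patch at a boundary point where the surface is vertical. -/
structure VertPatch (S : Setup M) (θ κ : ℝ) (F : Frame) (r : ℝ) (g : ℂ → ℝ)
    (e : PartialEquiv M ℂ) : Prop where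
  patch : Patch S.f S.N S.H (S.b θ) F r g (halfDisc r fun _ => 0) e
  bd_iff : ∀ s ∈ halfDisc r (fun _ => 0), e.symm s ∈ S.bd ↔ s.im = 0
  sign : κ = 1 ∨ κ = -1
  ha : F.a = ((κ : ℂ) * deriv S.γ θ, (0 : ℝ))
  hb : F.b = ((0 : ℂ), (1 : ℝ))
  hn : F.n = (Complex.I * deriv S.γ θ, (0 : ℝ))
  wall : ∀ s ∈ halfDisc r (fun _ => 0), g (s.re : ℂ) ≤ g s
  inside : ∀ s ∈ halfDisc r (fun _ => 0), (S.f (e.symm s)).1 ∈ S.D ↔ g (s.re : ℂ) < g s

/-- VBD. -/
def VertBdStatement : Prop :=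
  ∀ (M : Type u) [TopologicalSpace M] [CompactSpace M] [T2Space M] (S : Setup M),
    S.Conormal (-1) → ∀ θ, S.ν θ = 1 → ∃ κ F r g e, VertPatch S θ κ F r g e

/-- COV. At a good boundary point the top collar covers. -/
def CovStatement : Prop :=
  ∀ (M : Type u) [TopologicalSpace M] [CompactSpace M] [T2Space M] (S : Setup M),
    S.Conormal (-1) → TopFacts S → ∀ θ, S.Good θ → ∀ V ∈ 𝓝 (S.b θ), ∃ δ > 0, ∀ x ∈ S.D,
      ‖x - S.γ θ‖ < δ → ∃ q ∈ V ∩ S.top, (S.f q).1 = x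

/-- UNIQ. -/
def UniqueStatement : Prop :=
  ∀ (M : Type u) [TopologicalSpace M] [CompactSpace M] [T2Space M] (S : Setup M),
    S.Conormal (-1) → TopFacts S → S.Null → (∃ θ, |S.ν θ| < 1) →
    ∀ q ∈ S.top, ∀ q' ∈ S.top, (S.f q).1 = (S.f q').1 → q = q'

/-- CGOOD. -/
def CollarGoodStatement : Prop :=
  ∀ (M : Type u) [TopologicalSpace M] [CompactSpace M] [T2Space M] (S : Setup M),
    S.Conormal (-1) → TopFacts S → S.Null → ∀ θ, |S.ν θ| < 1 → S.Good θ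

/-- NOCON. -/
def NoContactStatement : Prop :=
  ∀ (M : Type u) [TopologicalSpace M] [CompactSpace M] [T2Space M] (S : Setup M),
    S.Conormal (-1) → TopFacts S → ∀ θ, S.Good θ → ∀ q, (S.f q).1 = S.γ θ → (S.f q).2 ≤ 0

/-- STEP. -/
def GoodStepStatement : Prop :=
  ∀ (M : Type u) [TopologicalSpace M] [CompactSpace M] [T2Space M] (S : Setup M),
    S.Conormal (-1) → TopFacts S → ∀ θ κ, S.ν θ = 1 → (κ = 1 ∨ κ = -1) →
    (∃ δ > 0, ∀ t, 0 < t → t < δ → S.Good (θ - κ * t)) → S.Good θ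

/-- FINAL. -/
def FinalStatement : Prop :=
  ∀ (M : Type u) [TopologicalSpace M] [CompactSpace M] [T2Space M] [ConnectedSpace M]
    (S : Setup M), S.Conormal (-1) → TopFacts S → (∀ θ, S.Good θ) →
    (∀ q ∈ S.top, ∀ q' ∈ S.top, (S.f q).1 = (S.f q').1 → q = q') → IsGraph S.f S.D

end Cyl
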