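import Pool.Agent.Cyl.Base
import Pool.Agent.Cyl.Stmt2

open MeasureTheory Set Filter Topology Metric
open scoped ContDiff

noncomputable section

namespace Cyl

universe u

variable {M : Type u} [TopologicalSpace M]

/-! ## linear algebra -/

/-- Parseval -/
theorem am_parseval (F : Frame) (X Y : E3) :
    dot X Y = dot X F.a * dot Y F.a + dot X F.b * dot Y F.b + dot X F.n * dot Y F.n := by
  conv_lhs => rw [F.expand X]
  simp only [dot_add_left, dot_smul_left]
  rw [dot_comm F.a Y, dot_comm F.b Y, dot_comm F.n Y]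

theorem am_det (A : ℂ →L[ℝ] ℂ) :
    A.det = (A 1).re * (A Complex.I).im - (A Complex.I).re * (A 1).im := by
  have h : A.det = LinearMap.det (A : ℂ →ₗ[ℝ] ℂ) := rfl
  rw [h, ← LinearMap.det_toMatrix Complex.basisOneI, Matrix.det_fin_two]
  simp [LinearMap.toMatrix_apply]

/-- pure algebra: the cross product of two vectors orthogonal to a unit vector -/
theorem am_algebra (a1 b1 c1 a2 b2 c2 x y z w : ℝ) (hu : x ^ 2 + y ^ 2 + z ^ 2 = 1)
    (h1 : a1 * x + b1 * y + c1 * z = 0) (h2 : a2 * x + b2 * y + c2 * z = 0)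
    (hw : (a1 ^ 2 + b1 ^ 2 + c1 ^ 2) * (a2 ^ 2 + b2 ^ 2 + c2 ^ 2)
      - (a1 * a2 + b1 * b2 + c1 * c2) ^ 2 = w ^ 2) :
    (a1 * b2 - a2 * b1) ^ 2 = w ^ 2 * z ^ 2 := by
  have e1 : (b1 * c2 - c1 * b2) * z = (a1 * b2 - a2 * b1) * x := by
    linear_combination b1 * h2 - b2 * h1
  have e2 : (c1 * a2 - a1 * c2) * z = (a1 * b2 - a2 * b1) * y := by
    linear_combination (-a1) * h2 + a2 * h1
  have e3 : (b1 * c2 - c1 * b2) ^ 2 + (c1 * a2 - a1 * c2) ^ 2 + (a1 * b2 - a2 * b1) ^ 2 = w ^ 2 := by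
    linear_combination hw
  calc (a1 * b2 - a2 * b1) ^ 2 = (a1 * b2 - a2 * b1) ^ 2 * (x ^ 2 + y ^ 2 + z ^ 2) := by
        rw [hu, mul_one]
    _ = ((a1 * b2 - a2 * b1) * x) ^ 2 + ((a1 * b2 - a2 * b1) * y) ^ 2
        + ((a1 * b2 - a2 * b1) * z) ^ 2 := by ring
    _ = ((b1 * c2 - c1 * b2) * z) ^ 2 + ((c1 * a2 - a1 * c2) * z) ^ 2
        + ((a1 * b2 - a2 * b1) * z) ^ 2 := by rw [e1, e2]
    _ = ((b1 * c2 - c1 * b2) ^ 2 + (c1 * a2 - a1 * c2) ^ 2 + (a1 * b2 - a2 * b1) ^ 2) * z ^ 2 := by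
        ring
    _ = _ := by rw [e3]

/-- the key identity for the Jacobian of the change of patches -/
theorem am_jacobian (F1 F2 : Frame) (g1 g2 : ℂ → ℝ) (s t : ℂ) (hN : F1.nor g1 s = F2.nor g2 t) :
    |dot (F1.a + d1 g1 s • F1.n) F2.a * dot (F1.b + d2 g1 s • F1.n) F2.b
      - dot (F1.b + d2 g1 s • F1.n) F2.a * dot (F1.a + d1 g1 s • F1.n) F2.b| * W (grad g2 t)
      = W (grad g1 s) := by
  set X1 := F1.a + d1 g1 s • F1.n with hX1
  set X2 := F1.b + d2 g1 s • F1.n with hX2
  set N := F1.nor g1 s with hNd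
  have hW1 := W_pos (grad g1 s)
  have hW2 := W_pos (grad g2 t)
  have hu : dot N N = 1 := F1.dot_nor g1 s
  have f1 : dot F1.b F1.a = 0 := by rw [dot_comm]; exact F1.hab
  have f2 : dot F1.n F1.a = 0 := by rw [dot_comm]; exact F1.han
  have f3 : dot F1.n F1.b = 0 := by rw [dot_comm]; exact F1.hbn
  have o1 : dot X1 N = 0 := by
    rw [hNd, hX1]
    unfold Frame.nor
    simp only [dot_smul_right, dot_sub_right, dot_add_left, dot_smul_left]
    rw [F1.haa, F1.hnn, F1.hab, F1.han, f2, f3]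
    ring
  have o2 : dot X2 N = 0 := by
    rw [hNd, hX2]
    unfold Frame.nor
    simp only [dot_smul_right, dot_sub_right, dot_add_left, dot_smul_left]
    rw [F1.hbb, F1.hnn, f1, F1.hbn, f2, f3]
    ring
  have g11 : dot X1 X1 = 1 + d1 g1 s ^ 2 := by
    rw [hX1]
    simp only [dot_add_left, dot_smul_left, dot_add_right, dot_smul_right]
    rw [F1.haa, F1.hnn, F1.han, f2]
    ring
  have g22 : dot X2 X2 = 1 + d2 g1 s ^ 2 := by
    rw [hX2]
    simp only [dot_add_left, dot_smul_left, dot_add_right, dot_smul_right]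
    rw [F1.hbb, F1.hnn, F1.hbn, f3]
    ring
  have g12 : dot X1 X2 = d1 g1 s * d2 g1 s := by
    rw [hX1, hX2]
    simp only [dot_add_left, dot_smul_left, dot_add_right, dot_smul_right]
    rw [F1.hab, F1.hnn, F1.han, f3]
    ring
  have hn : dot N F2.n * W (grad g2 t) = 1 := by
    rw [hN]
    unfold Frame.nor
    simp only [dot_smul_left, dot_sub_left]
    rw [F2.hnn, F2.han, F2.hbn]
    field_simp
    ring
  rw [am_parseval F2] at hu o1 o2 g11 g22 g12
  have hWs := W_sq (grad g1 s)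
  simp only [grad] at hWs
  have key := am_algebra (dot X1 F2.a) (dot X1 F2.b) (dot X1 F2.n) (dot X2 F2.a) (dot X2 F2.b)
    (dot X2 F2.n) (dot N F2.a) (dot N F2.b) (dot N F2.n) (W (grad g1 s))
    (by linear_combination hu) (by linear_combination o1) (by linear_combination o2)
    (by
      have e1 : dot X1 F2.a ^ 2 + dot X1 F2.b ^ 2 + dot X1 F2.n ^ 2 = 1 + d1 g1 s ^ 2 := by
        linear_combination g11
      have e2 : dot X2 F2.a ^ 2 + dot X2 F2.b ^ 2 + dot X2 F2.n ^ 2 = 1 + d2 g1 s ^ 2 := by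
        linear_combination g22
      rw [e1, e2, g12]
      simp only [grad]
      rw [hWs]
      ring)
  have e : (|dot X1 F2.a * dot X2 F2.b - dot X2 F2.a * dot X1 F2.b| * W (grad g2 t)) ^ 2
      = W (grad g1 s) ^ 2 := by
    rw [mul_pow, sq_abs, key]
    calc W (grad g1 s) ^ 2 * dot N F2.n ^ 2 * W (grad g2 t) ^ 2
        = W (grad g1 s) ^ 2 * (dot N F2.n * W (grad g2 t)) ^ 2 := by ring
      _ = _ := by rw [hn]; ring
  exact (pow_left_inj₀ (by positivity) hW1.le two_ne_zero).1 e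

/-! ## change of patches -/

/-- the explicit change of patches -/
def amTau (F1 F2 : Frame) (p1 p2 : E3) (g1 : ℂ → ℝ) (s : ℂ) : ℂ :=
  ⟨dot (F1.pt p1 g1 s - p2) F2.a, dot (F1.pt p1 g1 s - p2) F2.b⟩

/-- `dot · Y` as a continuous linear map -/
def amDot (Y : E3) : E3 →L[ℝ] ℝ :=
  (Y.1.re • Complex.reCLM + Y.1.im • Complex.imCLM).comp (ContinuousLinearMap.fst ℝ ℂ ℝ)
    + Y.2 • ContinuousLinearMap.snd ℝ ℂ ℝ

theorem amDot_apply (X Y : E3) : amDot Y X = dot X Y := by
  simp [amDot, dot, ip]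
  ring

def amD (F1 : Frame) (g1 : ℂ → ℝ) (s : ℂ) : ℂ →L[ℝ] E3 :=
  Complex.reCLM.smulRight F1.a + Complex.imCLM.smulRight F1.b + (fderiv ℝ g1 s).smulRight F1.n

theorem am_hasFDerivAt_pt (F1 : Frame) (p1 : E3) {g1 : ℂ → ℝ} {s : ℂ}
    (hg : DifferentiableAt ℝ g1 s) : HasFDerivAt (F1.pt p1 g1) (amD F1 g1 s) s := by
  have h1 : HasFDerivAt (fun t : ℂ => t.re • F1.a) (Complex.reCLM.smulRight F1.a) s :=
    (Complex.reCLM.smulRight F1.a).hasFDerivAt
  have h2 : HasFDerivAt (fun t : ℂ => t.im • F1.b) (Complex.imCLM.smulRight F1.b) s :=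
    (Complex.imCLM.smulRight F1.b).hasFDerivAt
  have h3 : HasFDerivAt (fun t : ℂ => g1 t • F1.n) ((fderiv ℝ g1 s).smulRight F1.n) s :=
    hg.hasFDerivAt.smul_const F1.n
  exact ((h1.const_add p1).add h2).add h3

def amA (F1 F2 : Frame) (g1 : ℂ → ℝ) (s : ℂ) : ℂ →L[ℝ] ℂ :=
  ((amDot F2.a).comp (amD F1 g1 s)).smulRight (1 : ℂ)
    + ((amDot F2.b).comp (amD F1 g1 s)).smulRight Complex.I

theorem am_hasFDerivAt_tau (F1 F2 : Frame) (p1 p2 : E3) {g1 : ℂ → ℝ} {s : ℂ}
    (hg : DifferentiableAt ℝ g1 s) :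
    HasFDerivAt (amTau F1 F2 p1 p2 g1) (amA F1 F2 g1 s) s := by
  have e : amTau F1 F2 p1 p2 g1 = fun t => (amDot F2.a (F1.pt p1 g1 t - p2)) • (1 : ℂ)
      + (amDot F2.b (F1.pt p1 g1 t - p2)) • Complex.I := by
    funext t
    rw [amDot_apply, amDot_apply]
    apply Complex.ext <;> simp [amTau]
  rw [e]
  have h0 := (am_hasFDerivAt_pt F1 p1 hg).sub_const p2
  have h1 := ((amDot F2.a).hasFDerivAt.comp s h0).smul_const (1 : ℂ)
  have h2 := ((amDot F2.b).hasFDerivAt.comp s h0).smul_const Complex.I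
  exact h1.add h2

theorem am_det_A (F1 F2 : Frame) (g1 : ℂ → ℝ) (s : ℂ) :
    (amA F1 F2 g1 s).det = dot (F1.a + d1 g1 s • F1.n) F2.a * dot (F1.b + d2 g1 s • F1.n) F2.b
      - dot (F1.b + d2 g1 s • F1.n) F2.a * dot (F1.a + d1 g1 s • F1.n) F2.b := by
  have e1 : amD F1 g1 s 1 = F1.a + d1 g1 s • F1.n := by
    simp [amD, d1]
  have e2 : amD F1 g1 s Complex.I = F1.b + d2 g1 s • F1.n := by
    simp [amD, d2]
  rw [am_det]
  simp only [amA, add_apply, ContinuousLinearMap.smulRight_apply,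
    ContinuousLinearMap.comp_apply]
  rw [e1, e2, amDot_apply, amDot_apply, amDot_apply, amDot_apply]
  simp

/-! ## measures -/

/-- the area measure of a patch -/
def amP [MeasurableSpace M] (R : Set ℂ) (g : ℂ → ℝ) (e : PartialEquiv M ℂ) : Measure M :=
  Measure.map e.symm ((volume.restrict R).withDensity fun s => ENNReal.ofReal (W (grad g s)))

section meas

variable [MeasurableSpace M] [BorelSpace M]

theorem am_apply {R : Set ℂ} {g : ℂ → ℝ} {e : PartialEquiv M ℂ} (hR : MeasurableSet R)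
    (hc : ContinuousOn e.symm R) {A : Set M} (hA : MeasurableSet A) :
    amP R g e A = ∫⁻ s in (e.symm ⁻¹' A) ∩ R, ENNReal.ofReal (W (grad g s)) := by
  unfold amP
  have h1 : AEMeasurable e.symm (volume.restrict R) := hc.aemeasurable hR
  have h2 : AEMeasurable e.symm
      ((volume.restrict R).withDensity fun s => ENNReal.ofReal (W (grad g s))) :=
    h1.mono_ac (withDensity_absolutelyContinuous _ _)
  rw [Measure.map_apply_of_aemeasurable h2 hA, withDensity_apply', Measure.restrict_restrict' hR]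

theorem am_measurableSet {R : Set ℂ} {e : PartialEquiv M ℂ} (hR : MeasurableSet R)
    (hc : ContinuousOn e.symm R) {A : Set M} (hA : MeasurableSet A) :
    MeasurableSet ((e.symm ⁻¹' A) ∩ R) := by
  have h1 : Continuous (R.domRestrict e.symm) := continuousOn_iff_continuous_domRestrict.1 hc
  have h2 : MeasurableSet ((R.domRestrict e.symm) ⁻¹' A) := h1.measurable hA
  have h3 := hR.subtype_image h2
  convert h3 using 1
  ext s
  constructor
  · rintro ⟨h4, h5⟩
    exact ⟨⟨s, h5⟩, h4, rfl⟩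
  · rintro ⟨⟨s', h5⟩, h4, rfl⟩
    exact ⟨h4, h5⟩

theorem am_consistent {f N : M → E3} {H : ℝ} {q1 q2 : M} {F1 F2 : Frame} {r1 r2 : ℝ}
    {g1 g2 : ℂ → ℝ} {R1 R2 : Set ℂ} {e1 e2 : PartialEquiv M ℂ}
    (h1 : Patch f N H q1 F1 r1 g1 R1 e1) (h2 : Patch f N H q2 F2 r2 g2 R2 e2)
    (m1 : MeasurableSet R1) (m2 : MeasurableSet R2) (b1 : R1 ⊆ ball 0 r1) :
    (amP R1 g1 e1).restrict e2.source = (amP R2 g2 e2).restrict e1.source := by
  have c1 : ContinuousOn e1.symm R1 := by
    have := h1.cont_symm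
    rwa [h1.target] at this
  have c2 : ContinuousOn e2.symm R2 := by
    have := h2.cont_symm
    rwa [h2.target] at this
  ext A hA
  have hA1 : MeasurableSet (A ∩ e2.source) := hA.inter h2.isOpen.measurableSet
  have hA2 : MeasurableSet (A ∩ e1.source) := hA.inter h1.isOpen.measurableSet
  rw [Measure.restrict_apply hA, Measure.restrict_apply hA, am_apply m1 c1 hA1,
    am_apply m2 c2 hA2]
  set s1 := (e1.symm ⁻¹' (A ∩ e2.source)) ∩ R1 with hs1
  set s2 := (e2.symm ⁻¹' (A ∩ e1.source)) ∩ R2 with hs2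
  set τ := amTau F1 F2 (f q1) (f q2) g1 with hτ
  have hτe : ∀ s ∈ s1, τ s = e2 (e1.symm s) := by
    rintro s ⟨⟨_, hs2'⟩, hs3⟩
    have hp : e2 (e1.symm s) ∈ R2 := by
      rw [← h2.target]
      exact e2.map_source hs2'
    have e3 := h2.param _ hp
    rw [e2.left_inv hs2'] at e3
    have e4 := h1.param s hs3
    have e5 := F2.dot_pt_sub (f q2) g2 (e2 (e1.symm s))
    rw [← e3, e4] at e5
    apply Complex.ext
    · exact e5.1
    · exact e5.2.1
  have hτN : ∀ s ∈ s1, F1.nor g1 s = F2.nor g2 (τ s) := by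
    intro s hs
    rw [hτe s hs]
    obtain ⟨⟨_, hs2'⟩, hs3⟩ := hs
    have hp : e2 (e1.symm s) ∈ R2 := by
      rw [← h2.target]
      exact e2.map_source hs2'
    rw [← h1.normal s hs3, ← h2.normal _ hp, e2.left_inv hs2']
  have hms1 : MeasurableSet s1 := am_measurableSet m1 c1 hA1
  have himg : τ '' s1 = s2 := by
    ext t
    constructor
    · rintro ⟨s, hs, rfl⟩
      rw [hτe s hs]
      obtain ⟨⟨hsA, hs2'⟩, hs3⟩ := hs
      refine ⟨?_, ?_⟩
      · change e2.symm (e2 (e1.symm s)) ∈ A ∩ e1.source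
        rw [e2.left_inv hs2']
        refine ⟨hsA, ?_⟩
        apply e1.map_target
        rw [h1.target]
        exact hs3
      · rw [← h2.target]
        exact e2.map_source hs2'
    · rintro ⟨⟨htA, ht1⟩, ht2⟩
      have ht2' : t ∈ e2.target := by rw [h2.target]; exact ht2
      have hs : e1 (e2.symm t) ∈ s1 := by
        refine ⟨?_, ?_⟩
        · change e1.symm (e1 (e2.symm t)) ∈ A ∩ e2.source
          rw [e1.left_inv ht1]
          exact ⟨htA, e2.map_target ht2'⟩
        · rw [← h1.target]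
          exact e1.map_source ht1
      refine ⟨_, hs, ?_⟩
      rw [hτe _ hs, e1.left_inv ht1, e2.right_inv ht2']
  have hinj : InjOn τ s1 := by
    intro s hs s' hs' heq
    rw [hτe s hs, hτe s' hs'] at heq
    have k1 := e2.injOn hs.1.2 hs'.1.2 heq
    have k2 : s ∈ e1.target := by rw [h1.target]; exact hs.2
    have k3 : s' ∈ e1.target := by rw [h1.target]; exact hs'.2
    rw [← e1.right_inv k2, ← e1.right_inv k3, k1]
  have hder : ∀ s ∈ s1, HasFDerivWithinAt τ (amA F1 F2 g1 s) s1 s := by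
    intro s hs
    have hd : DifferentiableAt ℝ g1 s :=
      (h1.smooth.contDiffAt (isOpen_ball.mem_nhds (b1 hs.2))).differentiableAt (by simp)
    exact (am_hasFDerivAt_tau F1 F2 (f q1) (f q2) hd).hasFDerivWithinAt
  rw [← himg, lintegral_image_eq_lintegral_abs_det_fderiv_mul volume hms1 hder hinj]
  apply setLIntegral_congr_fun hms1
  intro s hs
  simp only
  rw [← ENNReal.ofReal_mul (abs_nonneg _), am_det_A, am_jacobian F1 F2 g1 g2 s (τ s) (hτN s hs)]


omit [MeasurableSpace M] [BorelSpace M] in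
theorem am_facts {f N : M → E3} {bd : Set M} {H : ℝ} {q : M} {F : Frame} {r : ℝ} {g : ℂ → ℝ}
    {R : Set ℂ} {e : PartialEquiv M ℂ} (h : AnyPatch f N bd H q F r g R e) :
    MeasurableSet R ∧ R ⊆ ball 0 r ∧ Patch f N H q F r g R e := by
  rcases h with ⟨rfl, h, _⟩ | ⟨β, rfl, h, hβ, _⟩
  · exact ⟨measurableSet_ball, subset_rfl, h⟩
  · refine ⟨?_, fun s hs => hs.1, h⟩
    have h1 : MeasurableSet {s : ℂ | β s.re ≤ s.im} :=
      measurableSet_le (hβ.continuous.measurable.comp Complex.measurable_re) Complex.measurable_im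
    exact measurableSet_ball.inter h1

omit [MeasurableSpace M] [BorelSpace M] in
theorem am_exists (S : Setup M) (q : M) :
    ∃ F r g R e, AnyPatch S.f S.N S.bd S.H q F r g R e := by
  by_cases hq : q ∈ S.bd
  · obtain ⟨F, r, g, β, e, h⟩ := S.surf.boundary q hq
    exact ⟨F, r, g, _, e, Or.inr ⟨β, rfl, h⟩⟩
  · obtain ⟨F, r, g, e, h⟩ := S.surf.interior q hq
    exact ⟨F, r, g, _, e, Or.inl ⟨rfl, h⟩⟩

/-- a finite measure neighbourhood -/
theorem am_nhd {f N : M → E3} {H : ℝ} {q : M} {F : Frame} {r : ℝ} {g : ℂ → ℝ}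
    {R : Set ℂ} {e : PartialEquiv M ℂ} (h : Patch f N H q F r g R e) (hR : MeasurableSet R) :
    ∃ V : Set M, IsOpen V ∧ q ∈ V ∧ V ⊆ e.source ∧ amP R g e V < ⊤ := by
  have hr := h.r_pos
  have c1 : ContinuousOn e.symm R := by
    have := h.cont_symm
    rwa [h.target] at this
  have hV : IsOpen (e.source ∩ e ⁻¹' ball 0 (r / 2)) := h.cont.isOpen_inter_preimage h.isOpen isOpen_ball
  refine ⟨e.source ∩ e ⁻¹' ball 0 (r / 2), hV, ⟨h.mem, ?_⟩, inter_subset_left, ?_⟩
  · change e q ∈ ball (0 : ℂ) (r / 2)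
    rw [h.map_zero]
    exact mem_ball_self (by positivity)
  · rw [am_apply hR c1 hV.measurableSet]
    have hsub : (e.symm ⁻¹' (e.source ∩ e ⁻¹' ball 0 (r / 2))) ∩ R ⊆ closedBall (0 : ℂ) (r / 2) := by
      rintro s ⟨⟨_, h2⟩, h3⟩
      have h4 : e (e.symm s) ∈ ball (0 : ℂ) (r / 2) := h2
      rw [e.right_inv (by rw [h.target]; exact h3)] at h4
      exact ball_subset_closedBall h4
    have hcb : closedBall (0 : ℂ) (r / 2) ⊆ ball 0 r := closedBall_subset_ball (by linarith)
    have hcont : ContinuousOn (fun s => W (grad g s)) (closedBall (0 : ℂ) (r / 2)) := by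
      have h1 : ContinuousOn (fderiv ℝ g) (ball 0 r) :=
        h.smooth.continuousOn_fderiv_of_isOpen isOpen_ball (by simp)
      have h2 : ContinuousOn (d1 g) (ball 0 r) := h1.clm_apply continuousOn_const
      have h3 : ContinuousOn (d2 g) (ball 0 r) := h1.clm_apply continuousOn_const
      have h4 : ContinuousOn (grad g) (ball 0 r) := by
        have e : grad g = fun s => ((d1 g s : ℝ) : ℂ) + ((d2 g s : ℝ) : ℂ) * Complex.I := by
          funext s
          apply Complex.ext <;> simp [grad]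
        rw [e]
        exact (Complex.continuous_ofReal.comp_continuousOn h2).add
          ((Complex.continuous_ofReal.comp_continuousOn h3).mul continuousOn_const)
      exact continuous_W.comp_continuousOn (h4.mono hcb)
    obtain ⟨C, hC⟩ := (isCompact_closedBall (0 : ℂ) (r / 2)).exists_bound_of_continuousOn hcont
    calc ∫⁻ s in (e.symm ⁻¹' (e.source ∩ e ⁻¹' ball 0 (r / 2))) ∩ R, ENNReal.ofReal (W (grad g s))
        ≤ ∫⁻ s in closedBall (0 : ℂ) (r / 2), ENNReal.ofReal (W (grad g s)) :=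
          lintegral_mono_set hsub
      _ ≤ ∫⁻ _ in closedBall (0 : ℂ) (r / 2), ENNReal.ofReal C := by
          apply setLIntegral_mono' measurableSet_closedBall
          intro s hs
          apply ENNReal.ofReal_le_ofReal
          exact (Real.le_norm_self _).trans (hC s hs)
      _ = ENNReal.ofReal C * volume (closedBall (0 : ℂ) (r / 2)) := setLIntegral_const _ _
      _ < ⊤ := ENNReal.mul_lt_top ENNReal.ofReal_lt_top measure_closedBall_lt_top

end meas

theorem AMEAS_holds : AreaMeasureStatement.{u} := by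
  intro M _ _ _ _ _ S
  choose F r g R e hP using am_exists S
  have hV := fun q => am_nhd (am_facts (hP q)).2.2 (am_facts (hP q)).1
  choose V hVo hVq hVs hVf using hV
  obtain ⟨t, -, ht⟩ := isCompact_univ.elim_nhds_subcover V
    (fun q _ => (hVo q).mem_nhds (hVq q))
  set n := t.card
  set P : Fin n → M := fun i => (t.equivFin.symm i : M) with hPdef
  have hcov : ⋃ i, V (P i) = univ := by
    rw [eq_univ_iff_forall]
    intro q
    obtain ⟨x, hx, hq⟩ := mem_iUnion₂.1 (ht (mem_univ q))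
    refine mem_iUnion.2 ⟨t.equivFin ⟨x, hx⟩, ?_⟩
    simp only [hPdef, Equiv.symm_apply_apply]
    exact hq
  set A : Fin n → Set M := disjointed (fun i => V (P i)) with hA
  have hAm : ∀ i, MeasurableSet (A i) :=
    fun i => disjointedRec (fun _ j ht => ht.diff (hVo (P j)).measurableSet)
      ((hVo (P i)).measurableSet)
  have hAd : Pairwise (Function.onFun Disjoint A) := disjoint_disjointed _
  have hAU : ⋃ i, A i = univ := by rw [hA, iUnion_disjointed, hcov]
  have hAV : ∀ i, A i ⊆ V (P i) := fun i => disjointed_subset _ i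
  refine ⟨Measure.sum fun i => (amP (R (P i)) (g (P i)) (e (P i))).restrict (A i), ?_, ?_⟩
  · constructor
    rw [Measure.sum_apply _ MeasurableSet.univ, tsum_fintype]
    rw [ENNReal.sum_lt_top]
    intro i _
    rw [Measure.restrict_apply MeasurableSet.univ, univ_inter]
    exact (measure_mono (hAV i)).trans_lt (hVf (P i))
  · intro q F' r' g' R' e' hQ
    obtain ⟨m', b', h'⟩ := am_facts hQ
    rw [Measure.restrict_sum _ h'.isOpen.measurableSet]
    have key : ∀ i, ((amP (R (P i)) (g (P i)) (e (P i))).restrict (A i)).restrict e'.source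
        = (amP R' g' e').restrict (A i) := by
      intro i
      obtain ⟨m, b, h⟩ := am_facts (hP (P i))
      rw [Measure.restrict_restrict h'.isOpen.measurableSet, inter_comm,
        ← Measure.restrict_restrict (hAm i), am_consistent h h' m m' b,
        Measure.restrict_restrict (hAm i)]
      congr 1
      exact inter_eq_left.2 ((hAV i).trans (hVs (P i)))
    simp only [key]
    rw [← Measure.restrict_iUnion hAd hAm, hAU, Measure.restrict_univ]
    rfl

end Cyl
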