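import Pool.Agent.Cyl.Base

/-!
# Gradient of the cut-off function
-/

open MeasureTheory Set Filter Topology Metric
open scoped ContDiff

noncomputable section

namespace Cyl

variable {D : Set ℂ} {γ : ℝ → ℂ} {L : ℝ}

theorem ConvexCurve.norm_n (h : ConvexCurve D γ L) (θ : ℝ) : ‖Complex.I * deriv γ θ‖ = 1 := by
  rw [norm_mul, Complex.norm_I, one_mul, h.unit]

theorem ConvexCurve.mem_closure (h : ConvexCurve D γ L) (θ : ℝ) : γ θ ∈ closure D := by
  have h1 : γ θ ∈ frontier D := h.range_eq ▸ mem_range_self θ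
  exact frontier_subset_closure h1

theorem ConvexCurve.neg_ip_le_infDist (h : ConvexCurve D γ L) (θ : ℝ) (y : ℂ) :
    - ip (y - γ θ) (Complex.I * deriv γ θ) ≤ infDist y D := by
  rw [le_infDist h.nonempty]
  intro z hz
  have h1 := h.inner θ z hz
  have h2 : ip (z - y) (Complex.I * deriv γ θ) ≤ dist y z := by
    have := ip_le (z - y) (Complex.I * deriv γ θ)
    rw [h.norm_n, mul_one] at this
    rw [dist_comm, dist_eq_norm]
    exact this
  have h3 : ip (z - y) (Complex.I * deriv γ θ)
      = ip (z - γ θ) (Complex.I * deriv γ θ) - ip (y - γ θ) (Complex.I * deriv γ θ) := by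
    rw [← ip_sub_left]
    congr 1
    ring
  linarith

theorem ConvexCurve.infDist_le (h : ConvexCurve D γ L) (θ : ℝ) (y : ℂ) :
    infDist y D ≤ ‖y - γ θ‖ := by
  rw [← infDist_closure, ← dist_eq_norm]
  exact infDist_le_dist_of_mem (h.mem_closure θ)

theorem ConvexCurve.Phi_sub (_h : ConvexCurve D γ L) (θ t : ℝ) :
    Phi γ θ t - γ θ = -((t : ℂ) * (Complex.I * deriv γ θ)) := by
  unfold Phi
  ring

theorem ConvexCurve.infDist_Phi (h : ConvexCurve D γ L) (θ : ℝ) {t : ℝ} (ht : 0 ≤ t) :
    infDist (Phi γ θ t) D = t := by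
  apply le_antisymm
  · refine (h.infDist_le θ _).trans ?_
    rw [h.Phi_sub, norm_neg, norm_mul, h.norm_n, mul_one, Complex.norm_real, Real.norm_of_nonneg ht]
  · refine le_trans ?_ (h.neg_ip_le_infDist θ _)
    rw [h.Phi_sub, ip_neg_left, ip_ofReal_mul_left, ip_self, h.norm_n]
    simp

/-- Derivative of the distance to a convex domain at a point outside. -/
theorem ConvexCurve.hasFDerivAt_infDist (h : ConvexCurve D γ L) (θ : ℝ) {t : ℝ} (ht : 0 < t) :
    HasFDerivAt (fun y => infDist y D) (-(innerSL ℝ (Complex.I * deriv γ θ))) (Phi γ θ t) := by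
  set n := Complex.I * deriv γ θ with hn
  set x := Phi γ θ t with hx
  have hfx : infDist x D = t := h.infDist_Phi θ ht.le
  refine HasFDerivAt.of_isLittleO ?_
  rw [Asymptotics.isLittleO_iff]
  intro c hc
  have hball : ball x (2 * t * c) ∈ 𝓝 x := ball_mem_nhds x (by positivity)
  filter_upwards [hball] with y hy
  rw [mem_ball, dist_eq_norm] at hy
  have hL : (-(innerSL ℝ n)) (y - x) = - ip n (y - x) := by
    rw [ip_eq_inner]
    simp
  rw [hL, hfx]
  have h1 := h.neg_ip_le_infDist θ y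
  have h2 := h.infDist_le θ y
  rw [← hn] at h1
  have h3 : ip (y - γ θ) n = ip n (y - x) - t := by
    have h4 : y - γ θ = (y - x) + (x - γ θ) := by ring
    rw [h4, ip_add_left, hx, h.Phi_sub, ← hn, ip_neg_left, ip_ofReal_mul_left, ip_self, hn,
      h.norm_n, ip_comm]
    ring
  have h5 : ‖y - γ θ‖ ^ 2 = t ^ 2 - 2 * t * ip n (y - x) + ‖y - x‖ ^ 2 := by
    have h4 : y - γ θ = (x - γ θ) + (y - x) := by ring
    rw [h4, norm_add_sq', hx, h.Phi_sub, ← hn, ip_neg_left, ip_ofReal_mul_left, norm_neg, norm_mul,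
      hn, h.norm_n, Complex.norm_real, Real.norm_of_nonneg ht.le]
    ring
  have h6 : ‖y - γ θ‖ ≤ t - ip n (y - x) + ‖y - x‖ ^ 2 / (2 * t) := by
    have h7 : t - ip n (y - x) + ‖y - x‖ ^ 2 / (2 * t) = (‖y - γ θ‖ ^ 2 + t ^ 2) / (2 * t) := by
      rw [h5]
      field_simp
      ring
    rw [h7, le_div_iff₀ (by positivity)]
    nlinarith [sq_nonneg (‖y - γ θ‖ - t)]
  have h8 : ‖y - x‖ ^ 2 / (2 * t) ≤ c * ‖y - x‖ := by
    rw [div_le_iff₀ (by positivity)]
    nlinarith [norm_nonneg (y - x)]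
  rw [Real.norm_eq_abs, abs_le]
  constructor
  · have : 0 ≤ c * ‖y - x‖ := by positivity
    linarith
  · linarith

theorem cut_eq_one {ρ : ℝ} {x : ℂ} (hx : x ∈ D) : cut D ρ x = 1 := by
  unfold cut
  rw [infDist_zero_of_mem hx]
  simp

theorem cut_eq_zero {ρ : ℝ} (hρ : 0 < ρ) {x : ℂ} (hx : ρ ≤ infDist x D) : cut D ρ x = 0 := by
  unfold cut
  rw [max_eq_left]
  rw [sub_nonpos, le_div_iff₀ hρ]
  linarith

theorem grad_of_eventually_const {g : ℂ → ℝ} {x : ℂ} {k : ℝ} (h : ∀ᶠ y in 𝓝 x, g y = k) :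
    grad g x = 0 := by
  have h1 : fderiv ℝ g x = 0 := by
    have h2 : g =ᶠ[𝓝 x] fun _ => k := h
    rw [h2.fderiv_eq]
    simp
  apply Complex.ext <;> simp [grad, d1, d2, h1]

theorem cut_lipschitz (hD : D.Nonempty) {ρ : ℝ} (hρ : 0 < ρ) :
    LipschitzWith (Real.toNNReal (1 / ρ)) (cut D ρ) := by
  have _ := hD
  refine LipschitzWith.of_dist_le_mul fun x y => ?_
  rw [Real.coe_toNNReal _ (by positivity), Real.dist_eq]
  unfold cut
  have h1 : |max 0 (1 - infDist x D / ρ) - max 0 (1 - infDist y D / ρ)|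
      ≤ |(1 - infDist x D / ρ) - (1 - infDist y D / ρ)| := by
    rw [max_comm 0, max_comm 0]
    exact abs_max_sub_max_le_abs _ _ _
  refine h1.trans ?_
  have h2 : (1 - infDist x D / ρ) - (1 - infDist y D / ρ) = (1 / ρ) * (infDist y D - infDist x D) := by
    ring
  rw [h2, abs_mul, abs_of_pos (by positivity : (0 : ℝ) < 1 / ρ)]
  refine mul_le_mul_of_nonneg_left ?_ (by positivity)
  have h3 := (lipschitz_infDist_pt D).dist_le_mul y x
  rw [Real.dist_eq] at h3
  rw [dist_comm x y]
  simpa using h3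

theorem cut_hasCompactSupport (hD : D.Nonempty) (hb : Bornology.IsBounded D) {ρ : ℝ}
    (hρ : 0 < ρ) : HasCompactSupport (cut D ρ) := by
  obtain ⟨a, ha⟩ := hD
  obtain ⟨R, hR⟩ := hb.subset_closedBall a
  refine HasCompactSupport.of_support_subset_isCompact (isCompact_closedBall a (R + ρ + 1)) ?_
  intro x hx
  by_contra hcon
  apply hx
  refine cut_eq_zero hρ ?_
  rw [le_infDist ⟨a, ha⟩]
  intro y hy
  rw [mem_closedBall, not_le] at hcon
  have h1 : dist y a ≤ R := hR hy
  have h2 := dist_triangle x y a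
  linarith

theorem CUTG_holds : CutGradStatement := by
  intro D γ L h ρ hρ
  refine ⟨?_, ?_, ⟨_, cut_lipschitz h.nonempty hρ⟩, cut_hasCompactSupport h.nonempty h.bounded hρ⟩
  · intro θ t ht htρ
    set x := Phi γ θ t with hx
    have hfx : infDist x D = t := h.infDist_Phi θ ht.le
    have hev : cut D ρ =ᶠ[𝓝 x] fun y => 1 - infDist y D / ρ := by
      have hcont : ContinuousAt (fun y => infDist y D) x := (continuous_infDist_pt D).continuousAt
      have h1 : ∀ᶠ y in 𝓝 x, infDist y D < ρ := hcont.eventually_lt_const (show infDist x D < ρ by rw [hfx]; exact htρ)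
      filter_upwards [h1] with y hy
      unfold cut
      rw [max_eq_right]
      rw [sub_nonneg, div_le_one hρ]
      exact hy.le
    have hd := h.hasFDerivAt_infDist θ ht
    rw [← hx] at hd
    have hd2 : HasFDerivAt (fun y => 1 - infDist y D / ρ)
        (-((1 / ρ) • (-(innerSL ℝ (Complex.I * deriv γ θ))))) x := by
      have h3 := ((hd.const_mul (1 / ρ)).const_sub 1)
      refine h3.congr_of_eventuallyEq ?_
      filter_upwards with y
      ring
    have hfd : fderiv ℝ (cut D ρ) x = -((1 / ρ) • (-(innerSL ℝ (Complex.I * deriv γ θ)))) := by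
      rw [hev.fderiv_eq]
      exact hd2.fderiv
    have happ : ∀ v : ℂ, fderiv ℝ (cut D ρ) x v = (1 / ρ) * ip (Complex.I * deriv γ θ) v := by
      intro v
      rw [hfd, ip_eq_inner]
      simp
    apply Complex.ext
    · simp only [grad, d1, happ]
      rw [Complex.re_ofReal_mul]
      simp [ip]
    · simp only [grad, d2, happ]
      rw [Complex.im_ofReal_mul]
      simp [ip]
  · rintro x (hx | hx)
    · refine grad_of_eventually_const (k := 1) ?_
      filter_upwards [h.isOpen.mem_nhds hx] with y hy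
      exact cut_eq_one hy
    · refine grad_of_eventually_const (k := 0) ?_
      have hcont : ContinuousAt (fun y => infDist y D) x := (continuous_infDist_pt D).continuousAt
      filter_upwards [hcont.eventually_const_lt hx] with y hy
      exact cut_eq_zero hρ hy.le

end Cyl
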