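import Pool.Agent.Cyl.CHVAR
import Pool.Agent.Cyl.CUTG

/-!
# Green's formula for the area
-/

open MeasureTheory Set Filter Topology Metric
open scoped ContDiff

noncomputable section

namespace Cyl

variable {D : Set ℂ} {γ : ℝ → ℂ} {L : ℝ}

namespace Area

theorem continuous_Phi (h : ConvexCurve D γ L) : Continuous (fun z : ℝ × ℝ => Phi γ z.1 z.2) := by
  have h1 : Continuous γ := h.smooth.continuous
  have h2 : Continuous (deriv γ) := (Chvar.contDiff_dg h).continuous
  unfold Phi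
  fun_prop

theorem continuous_ip {X : Type*} [TopologicalSpace X] {f g : X → ℂ} (hf : Continuous f)
    (hg : Continuous g) : Continuous (fun x => ip (f x) (g x)) := by
  unfold ip
  fun_prop

theorem continuous_kap (h : ConvexCurve D γ L) : Continuous (kap γ) := by
  have h2 : Continuous (deriv γ) := (Chvar.contDiff_dg h).continuous
  have h3 : Continuous (deriv (deriv γ)) :=
    ((contDiff_infty_iff_deriv.1 (Chvar.contDiff_dg h)).2).continuous
  exact continuous_ip h3 (continuous_const.mul h2)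

/-- Change of variables for the Bochner integral. -/
theorem bochner (h : ConvexCurve D γ L) {t₀ : ℝ} (ht : Tube D γ L t₀) {ρ : ℝ} (hρ : 0 < ρ)
    {G : ℂ → ℝ} (hG : Measurable G) :
    ∫ x in {x | -t₀ < sd D x ∧ sd D x < ρ}, G x =
      ∫ z in Ioo 0 L ×ˢ Ioo (-t₀) ρ, (1 + kap γ z.1 * z.2) * G (Phi γ z.1 z.2) := by
  set A : Set ℂ := {x | -t₀ < sd D x ∧ sd D x < ρ} with hA
  set Q : Set (ℝ × ℝ) := Ioo 0 L ×ˢ Ioo (-t₀) ρ with hQ
  have hQm : MeasurableSet Q := measurableSet_Ioo.prod measurableSet_Ioo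
  set P : ℝ × ℝ → ℂ := fun z => Phi γ z.1 z.2 with hP
  have hPm : Measurable P := (continuous_Phi h).measurable
  set d : ℝ × ℝ → NNReal := fun z => (1 + kap γ z.1 * z.2).toNNReal with hd
  have hk := continuous_kap h
  have hdm : Measurable d := by
    have : Continuous (fun z : ℝ × ℝ => 1 + kap γ z.1 * z.2) := by fun_prop
    exact this.measurable.real_toNNReal
  set μ : Measure (ℝ × ℝ) := ((volume : Measure (ℝ × ℝ)).restrict Q).withDensity
    (fun z => (d z : ENNReal)) with hμ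
  have hmap : μ.map P = volume.restrict A := by
    ext s hs
    have h1 := CHVAR_holds D γ L t₀ h ht ρ hρ (s.indicator 1) (measurable_one.indicator hs)
    rw [lintegral_indicator_one hs, Measure.restrict_apply hs] at h1
    rw [Measure.map_apply hPm hs, withDensity_apply _ (hPm hs), Measure.restrict_apply hs, h1,
      ← lintegral_indicator (hPm hs)]
    apply lintegral_congr
    intro z
    by_cases hz : P z ∈ s
    · rw [indicator_of_mem (show z ∈ P ⁻¹' s from hz)]
      have hz' : Phi γ z.1 z.2 ∈ s := hz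
      rw [indicator_of_mem hz']
      simp [hd, ENNReal.ofReal]
    · rw [indicator_of_notMem (show z ∉ P ⁻¹' s from hz)]
      have hz' : Phi γ z.1 z.2 ∉ s := hz
      rw [indicator_of_notMem hz']
      simp
  rw [← hmap, integral_map hPm.aemeasurable hG.aestronglyMeasurable, hμ,
    integral_withDensity_eq_integral_smul hdm]
  refine setIntegral_congr_fun hQm ?_
  intro z hz
  have h3 := ht.jac z.1 z.2 hz.2.1
  simp only [hd, hP]
  rw [NNReal.smul_def, Real.coe_toNNReal _ (by linarith), smul_eq_mul]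

theorem ibp_dir {ψ f : ℂ → ℝ} {C C' : NNReal} (h : LipschitzWith C ψ) (hc : HasCompactSupport ψ)
    (hf : LipschitzWith C' f) (v : ℂ) (hv : ∀ x, lineDeriv ℝ f x v = 1) :
    ∫ x, f x * fderiv ℝ ψ x v = - ∫ x, ψ x := by
  have h1 := hf.integral_lineDeriv_mul_eq (μ := volume) h hc v
  have h2 : ∀ᵐ x, DifferentiableAt ℝ ψ x := h.ae_differentiableAt
  have h3 : ∫ x, f x * fderiv ℝ ψ x v = - ∫ x, lineDeriv ℝ ψ x (-v) * f x := by
    rw [← integral_neg]
    apply integral_congr_ae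
    filter_upwards [h2] with x hx
    rw [hx.lineDeriv_eq_fderiv, map_neg]
    ring
  rw [h3, ← h1]
  simp [hv]

theorem measurable_d1 (ψ : ℂ → ℝ) : Measurable (d1 ψ) := measurable_fderiv_apply_const ℝ ψ 1

theorem measurable_d2 (ψ : ℂ → ℝ) : Measurable (d2 ψ) :=
  measurable_fderiv_apply_const ℝ ψ Complex.I

theorem norm_fderiv_le {ψ : ℂ → ℝ} {C : NNReal} (h : LipschitzWith C ψ) (x v : ℂ) :
    |fderiv ℝ ψ x v| ≤ C * ‖v‖ := by
  have h1 := (fderiv ℝ ψ x).le_opNorm v
  have h2 : ‖fderiv ℝ ψ x‖ ≤ C := norm_fderiv_le_of_lipschitz ℝ h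
  rw [Real.norm_eq_abs] at h1
  exact h1.trans (mul_le_mul_of_nonneg_right h2 (norm_nonneg v))

theorem fderiv_zero_off {ψ : ℂ → ℝ} {x : ℂ} (hx : x ∉ tsupport ψ) : fderiv ℝ ψ x = 0 := by
  have h1 : ψ =ᶠ[𝓝 x] 0 := notMem_tsupport_iff_eventuallyEq.1 hx
  rw [h1.fderiv_eq]
  simp

theorem integrable_mul_fderiv {ψ f : ℂ → ℝ} {C : NNReal} (h : LipschitzWith C ψ)
    (hc : HasCompactSupport ψ) (hf : Continuous f) (v : ℂ) :
    Integrable (fun x => f x * fderiv ℝ ψ x v) := by
  have hK : IsCompact (tsupport ψ) := hc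
  obtain ⟨M, hM⟩ := hK.exists_bound_of_continuousOn hf.continuousOn
  have h1 : IntegrableOn (fun x => f x * fderiv ℝ ψ x v) (tsupport ψ) := by
    refine Measure.integrableOn_of_bounded (M := M * (C * ‖v‖)) hK.measure_lt_top.ne ?_ ?_
    · exact (hf.measurable.mul (measurable_fderiv_apply_const ℝ ψ v)).aestronglyMeasurable
    · rw [ae_restrict_iff' (isClosed_tsupport ψ).measurableSet]
      refine Eventually.of_forall fun x hx => ?_
      rw [norm_mul]
      have h3 := hM x hx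
      have h4 := norm_fderiv_le h x v
      rw [← Real.norm_eq_abs] at h4
      exact mul_le_mul h3 h4 (norm_nonneg _) ((norm_nonneg _).trans h3)
  rw [← integrableOn_univ]
  refine h1.of_forall_sdiff_eq_zero MeasurableSet.univ ?_
  rintro x ⟨_, hx⟩
  rw [fderiv_zero_off hx]
  simp

/-- Integration by parts against the position vector. -/
theorem ibp {ψ : ℂ → ℝ} {C : NNReal} (h : LipschitzWith C ψ) (hc : HasCompactSupport ψ) :
    ∫ x, ip x (grad ψ x) = - (2 * ∫ x, ψ x) := by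
  have hre : LipschitzWith ‖Complex.reCLM‖₊ (fun z : ℂ => z.re) := Complex.reCLM.lipschitz
  have him : LipschitzWith ‖Complex.imCLM‖₊ (fun z : ℂ => z.im) := Complex.imCLM.lipschitz
  have h1 : ∫ x : ℂ, x.re * fderiv ℝ ψ x 1 = - ∫ x, ψ x := by
    refine ibp_dir h hc hre 1 fun x => ?_
    have : lineDeriv ℝ (fun z : ℂ => z.re) x 1 = Complex.reCLM 1 := by
      exact (Complex.reCLM.differentiableAt (x := x)).lineDeriv_eq_fderiv.trans
            (by rw [Complex.reCLM.fderiv])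
    rw [this]
    simp
  have h2 : ∫ x : ℂ, x.im * fderiv ℝ ψ x Complex.I = - ∫ x, ψ x := by
    refine ibp_dir h hc him Complex.I fun x => ?_
    have : lineDeriv ℝ (fun z : ℂ => z.im) x Complex.I = Complex.imCLM Complex.I := by
      exact (Complex.imCLM.differentiableAt (x := x)).lineDeriv_eq_fderiv.trans
            (by rw [Complex.imCLM.fderiv])
    rw [this]
    simp
  have h3 : ∫ x, ip x (grad ψ x)
      = (∫ x : ℂ, x.re * fderiv ℝ ψ x 1) + ∫ x : ℂ, x.im * fderiv ℝ ψ x Complex.I := by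
    rw [← integral_add (integrable_mul_fderiv h hc Complex.continuous_re 1)
      (integrable_mul_fderiv h hc Complex.continuous_im Complex.I)]
    rfl
  rw [h3, h1, h2]
  ring

theorem grad_zero_of_max {ψ : ℂ → ℝ} {x : ℂ} (h : ∀ y, ψ y ≤ ψ x) : grad ψ x = 0 := by
  have h1 : fderiv ℝ ψ x = 0 := by
    have : IsLocalMax ψ x := Eventually.of_forall h
    exact this.fderiv_eq_zero
  apply Complex.ext <;> simp [grad, d1, d2, h1]

theorem grad_zero_of_min {ψ : ℂ → ℝ} {x : ℂ} (h : ∀ y, ψ x ≤ ψ y) : grad ψ x = 0 := by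
  have h1 : fderiv ℝ ψ x = 0 := by
    have : IsLocalMin ψ x := Eventually.of_forall h
    exact this.fderiv_eq_zero
  apply Complex.ext <;> simp [grad, d1, d2, h1]

theorem cut_nonneg (D : Set ℂ) (ρ : ℝ) (x : ℂ) : 0 ≤ cut D ρ x := le_max_left _ _

theorem cut_le_one (D : Set ℂ) {ρ : ℝ} (hρ : 0 < ρ) (x : ℂ) : cut D ρ x ≤ 1 := by
  unfold cut
  apply max_le (by norm_num)
  have : 0 ≤ infDist x D / ρ := div_nonneg infDist_nonneg hρ.le
  linarith

theorem sd_nonneg_of_notMem {x : ℂ} (hx : x ∉ D) : 0 ≤ sd D x := by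
  unfold sd
  rw [infDist_zero_of_mem (show x ∈ Dᶜ from hx), sub_zero]
  exact infDist_nonneg

theorem cut_one_of_sd {ρ : ℝ} {x : ℂ} (hx : sd D x ≤ 0) : cut D ρ x = 1 := by
  have h0 : infDist x D = 0 := by
    by_cases hxD : x ∈ D
    · exact infDist_zero_of_mem hxD
    · unfold sd at hx
      rw [infDist_zero_of_mem (show x ∈ Dᶜ from hxD), sub_zero] at hx
      exact le_antisymm hx infDist_nonneg
  unfold cut
  rw [h0]
  simp

theorem cut_zero_of_sd {ρ : ℝ} (hρ : 0 < ρ) {x : ℂ} (hx : ρ ≤ sd D x) : cut D ρ x = 0 := by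
  refine cut_eq_zero hρ (hx.trans ?_)
  unfold sd
  have : 0 ≤ infDist x Dᶜ := infDist_nonneg
  linarith

theorem grad_cut_zero {ρ : ℝ} (hρ : 0 < ρ) {x : ℂ} (hx : sd D x ≤ 0 ∨ ρ ≤ sd D x) :
    grad (cut D ρ) x = 0 := by
  rcases hx with hx | hx
  · apply grad_zero_of_max
    intro y
    rw [cut_one_of_sd hx]
    exact cut_le_one D hρ y
  · apply grad_zero_of_min
    intro y
    rw [cut_zero_of_sd hρ hx]
    exact cut_nonneg D ρ y

theorem measurable_ip {f g : ℂ → ℂ} (hf : Measurable f) (hg : Measurable g) :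
    Measurable (fun x => ip (f x) (g x)) := by
  unfold ip
  exact ((Complex.measurable_re.comp hf).mul (Complex.measurable_re.comp hg)).add
    ((Complex.measurable_im.comp hf).mul (Complex.measurable_im.comp hg))

theorem measurable_grad (ψ : ℂ → ℝ) : Measurable (grad ψ) := by
  have h1 : grad ψ = fun x => ((d1 ψ x : ℝ) : ℂ) + ((d2 ψ x : ℝ) : ℂ) * Complex.I := by
    funext x
    apply Complex.ext <;> simp [grad]
  rw [h1]
  exact (Complex.measurable_ofReal.comp (measurable_d1 ψ)).add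
    ((Complex.measurable_ofReal.comp (measurable_d2 ψ)).mul_const _)

/-- The flux of the position vector through the collar. -/
theorem flux_eq (h : ConvexCurve D γ L) {t₀ : ℝ} (ht : Tube D γ L t₀) {ρ : ℝ} (hρ : 0 < ρ) :
    ∫ x, ip x (grad (cut D ρ) x) =
      ∫ z in Ioo 0 L ×ˢ Ioo 0 ρ, (1 + kap γ z.1 * z.2) *
        ((1 / ρ) * (ip (γ z.1) (Complex.I * deriv γ z.1) - z.2)) := by
  have ht0 := ht.pos
  have hA : ∫ x, ip x (grad (cut D ρ) x)
      = ∫ x in {x | -t₀ < sd D x ∧ sd D x < ρ}, ip x (grad (cut D ρ) x) := by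
    symm
    apply setIntegral_eq_integral_of_forall_compl_eq_zero
    intro x hx
    rw [grad_cut_zero hρ, ip_zero_right]
    by_contra hcon
    rw [not_or, not_le, not_le] at hcon
    exact hx ⟨by linarith [hcon.1], hcon.2⟩
  have hm : Measurable (fun x => ip x (grad (cut D ρ) x)) :=
    measurable_ip measurable_id (measurable_grad _)
  rw [hA, bochner h ht hρ hm]
  have hsub : (Ioo 0 L ×ˢ Ioo 0 ρ : Set (ℝ × ℝ)) ⊆ Ioo 0 L ×ˢ Ioo (-t₀) ρ := by
    apply prod_mono subset_rfl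
    exact Ioo_subset_Ioo_left (by linarith)
  rw [setIntegral_eq_of_subset_of_forall_sdiff_eq_zero (measurableSet_Ioo.prod measurableSet_Ioo)
    hsub]
  · refine setIntegral_congr_fun (measurableSet_Ioo.prod measurableSet_Ioo) ?_
    rintro ⟨θ, t⟩ ⟨_, hz2⟩
    simp only
    have hz3 : 0 < t ∧ t < ρ := hz2
    rw [((CUTG_holds D γ L h ρ hρ).1 θ t hz3.1 hz3.2)]
    rw [ip_ofReal_mul_right]
    unfold Phi
    rw [ip_sub_left, ip_ofReal_mul_left, ip_self, h.norm_n]
    ring
  · rintro ⟨θ, t⟩ ⟨⟨hz1, hz2⟩, hz3⟩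
    simp only at *
    have hz2' : -t₀ < t ∧ t < ρ := hz2
    have ht1 : t ≤ 0 := by
      by_contra hcon
      exact hz3 ⟨hz1, not_le.1 hcon, hz2'.2⟩
    rw [grad_cut_zero hρ, ip_zero_right, mul_zero]
    left
    rw [ht.sd_Phi θ t hz2'.1]
    exact ht1

theorem volume_rect {L ρ : ℝ} (hL : 0 < L) (hρ : 0 < ρ) :
    (volume : Measure (ℝ × ℝ)).real (Ioo 0 L ×ˢ Ioo 0 ρ) = L * ρ := by
  rw [measureReal_def, Measure.volume_eq_prod, Measure.prod_prod, Real.volume_Ioo, Real.volume_Ioo,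
    ENNReal.toReal_mul, ENNReal.toReal_ofReal (by linarith), ENNReal.toReal_ofReal (by linarith)]
  ring

theorem volume_rect' {L ρ : ℝ} (hL : 0 < L) (hρ : 0 < ρ) :
    (volume : Measure (ℝ × ℝ)).real (Ioo 0 L ×ˢ Ico 0 ρ) = L * ρ := by
  rw [measureReal_def, Measure.volume_eq_prod, Measure.prod_prod, Real.volume_Ioo, Real.volume_Ico,
    ENNReal.toReal_mul, ENNReal.toReal_ofReal (by linarith), ENNReal.toReal_ofReal (by linarith)]
  ring

/-- The mass of the cut-off function. -/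
theorem mass_le (h : ConvexCurve D γ L) {t₀ : ℝ} (ht : Tube D γ L t₀) {ρ K : ℝ} (hρ : 0 < ρ)
    (hρ1 : ρ ≤ 1) (hK0 : 0 ≤ K) (hK : ∀ θ ∈ Icc 0 L, |kap γ θ| ≤ K) :
    |(∫ x, cut D ρ x) - volume.real D| ≤ (1 + K) * (L * ρ) := by
  have ht0 := ht.pos
  have hDm : MeasurableSet D := h.isOpen.measurableSet
  have hcc : Continuous (cut D ρ) := (cut_lipschitz h.nonempty hρ).continuous
  have hint : Integrable (cut D ρ) :=
    hcc.integrable_of_hasCompactSupport (cut_hasCompactSupport h.nonempty h.bounded hρ)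
  have h1 := integral_add_compl hDm hint
  have h2 : ∫ x in D, cut D ρ x = volume.real D := by
    rw [setIntegral_congr_fun hDm (fun x hx => cut_eq_one hx)]
    simp
  have h3 : ∫ x in Dᶜ, cut D ρ x = ∫ x, Dᶜ.indicator (cut D ρ) x :=
    (integral_indicator hDm.compl).symm
  have hχm : Measurable (Dᶜ.indicator (cut D ρ)) := hcc.measurable.indicator hDm.compl
  have h4 : ∫ x, Dᶜ.indicator (cut D ρ) x
      = ∫ x in {x | -t₀ < sd D x ∧ sd D x < ρ}, Dᶜ.indicator (cut D ρ) x := by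
    symm
    apply setIntegral_eq_integral_of_forall_compl_eq_zero
    intro x hx
    by_cases hxD : x ∈ D
    · rw [indicator_of_notMem (by simpa using hxD)]
    · rw [indicator_of_mem (show x ∈ Dᶜ from hxD)]
      apply cut_zero_of_sd hρ
      by_contra hcon
      have := sd_nonneg_of_notMem hxD
      exact hx ⟨by linarith, not_le.1 hcon⟩
  have hsub : (Ioo 0 L ×ˢ Ico 0 ρ : Set (ℝ × ℝ)) ⊆ Ioo 0 L ×ˢ Ioo (-t₀) ρ := by
    apply prod_mono subset_rfl
    intro t ht'
    exact ⟨by linarith [ht'.1], ht'.2⟩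
  have h5 : ∫ z in Ioo 0 L ×ˢ Ioo (-t₀) ρ,
        (1 + kap γ z.1 * z.2) * Dᶜ.indicator (cut D ρ) (Phi γ z.1 z.2)
      = ∫ z in Ioo 0 L ×ˢ Ico 0 ρ,
        (1 + kap γ z.1 * z.2) * Dᶜ.indicator (cut D ρ) (Phi γ z.1 z.2) := by
    rw [setIntegral_eq_of_subset_of_forall_sdiff_eq_zero (measurableSet_Ioo.prod measurableSet_Ioo)
      hsub]
    rintro ⟨θ, t⟩ ⟨⟨hz1, hz2⟩, hz3⟩
    simp only at *
    have hz2' : -t₀ < t ∧ t < ρ := hz2
    have ht1 : t < 0 := by
      by_contra hcon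
      exact hz3 ⟨hz1, not_lt.1 hcon, hz2'.2⟩
    have hD : Phi γ θ t ∈ D := by
      by_contra hcon
      have h6 := sd_nonneg_of_notMem hcon
      rw [ht.sd_Phi θ t hz2'.1] at h6
      linarith
    rw [indicator_of_notMem (by simpa using hD), mul_zero]
  have h6 : ‖∫ z in Ioo 0 L ×ˢ Ico 0 ρ,
        (1 + kap γ z.1 * z.2) * Dᶜ.indicator (cut D ρ) (Phi γ z.1 z.2)‖
      ≤ (1 + K) * (volume : Measure (ℝ × ℝ)).real (Ioo 0 L ×ˢ Ico 0 ρ) := by
    apply norm_setIntegral_le_of_norm_le_const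
    · rw [Measure.volume_eq_prod, Measure.prod_prod, Real.volume_Ioo, Real.volume_Ico]
      exact ENNReal.mul_lt_top ENNReal.ofReal_lt_top ENNReal.ofReal_lt_top
    · rintro ⟨θ, t⟩ ⟨hz1, hz2⟩
      have hz1' : 0 < θ ∧ θ < L := hz1
      have hz2' : 0 ≤ t ∧ t < ρ := hz2
      rw [norm_mul]
      have h7 : ‖Dᶜ.indicator (cut D ρ) (Phi γ θ t)‖ ≤ 1 := by
        refine (norm_indicator_le_norm_self _ _).trans ?_
        rw [Real.norm_of_nonneg (cut_nonneg D ρ _)]
        exact cut_le_one D hρ _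
      have h8 : ‖1 + kap γ θ * t‖ ≤ 1 + K := by
        refine (norm_add_le _ _).trans ?_
        rw [norm_one, norm_mul, Real.norm_eq_abs, Real.norm_eq_abs]
        have h9 := hK θ ⟨hz1'.1.le, hz1'.2.le⟩
        have h10 : |t| ≤ 1 := by
          rw [abs_of_nonneg hz2'.1]
          linarith
        have h11 : |kap γ θ| * |t| ≤ K * 1 := mul_le_mul h9 h10 (abs_nonneg _) hK0
        linarith
      have h12 := mul_le_mul h8 h7 (norm_nonneg _) (by linarith)
      simpa using h12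
  rw [volume_rect' h.L_pos hρ, Real.norm_eq_abs] at h6
  have h7 : (∫ x, cut D ρ x) - volume.real D = ∫ x in Dᶜ, cut D ρ x := by
    rw [← h1, h2]
    ring
  rw [h7, h3, h4, bochner h ht hρ hχm, h5]
  exact h6

end Area

open Area

theorem AREA_holds (hT : TubeStatement) : AreaStatement := by
  intro D γ L h
  obtain ⟨t₀, ht⟩ := hT D γ L h
  have hLpos := h.L_pos
  have hkc := continuous_kap h
  have hgc : Continuous (fun θ => ip (γ θ) (Complex.I * deriv γ θ)) :=
    continuous_ip h.smooth.continuous (continuous_const.mul (Chvar.contDiff_dg h).continuous)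
  obtain ⟨K, hK⟩ := (isCompact_Icc (a := (0 : ℝ)) (b := L)).exists_bound_of_continuousOn
    hkc.continuousOn
  obtain ⟨M, hM⟩ := (isCompact_Icc (a := (0 : ℝ)) (b := L)).exists_bound_of_continuousOn
    hgc.continuousOn
  simp only [Real.norm_eq_abs] at hK hM
  have hK0 : 0 ≤ K := (abs_nonneg _).trans (hK 0 ⟨le_rfl, hLpos.le⟩)
  have hM0 : 0 ≤ M := (abs_nonneg _).trans (hM 0 ⟨le_rfl, hLpos.le⟩)
  set J := ∫ θ in (0:ℝ)..L, ip (γ θ) (Complex.I * deriv γ θ) with hJ
  have hJ' : J = ∫ θ in Ioo 0 L, ip (γ θ) (Complex.I * deriv γ θ) := by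
    rw [hJ, intervalIntegral.integral_of_le hLpos.le, ← integral_Ioc_eq_integral_Ioo]
  have key : ∀ ρ, 0 < ρ → ρ ≤ 1 →
      |J - (- (2 * volume.real D))| ≤ ((K * M + 1 + K) * L + 2 * ((1 + K) * L)) * ρ := by
    intro ρ hρ hρ1
    have h1 := ibp (cut_lipschitz h.nonempty hρ) (cut_hasCompactSupport h.nonempty h.bounded hρ)
    rw [flux_eq h ht hρ] at h1
    have h2 := mass_le h ht hρ hρ1 hK0 hK
    have hJ2 : J = ∫ z in Ioo 0 L ×ˢ Ioo 0 ρ, ip (γ z.1) (Complex.I * deriv γ z.1) * (1 / ρ) := by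
      have h3 := setIntegral_prod_mul (μ := (volume : Measure ℝ)) (ν := (volume : Measure ℝ))
        (fun θ => ip (γ θ) (Complex.I * deriv γ θ)) (fun _ => 1 / ρ) (Ioo 0 L) (Ioo 0 ρ)
      rw [Measure.volume_eq_prod, h3, ← hJ']
      have h4 : ∫ _ in Ioo 0 ρ, (1 / ρ) = (1 : ℝ) := by
        rw [setIntegral_const, measureReal_def, Real.volume_Ioo, ENNReal.toReal_ofReal (by linarith)]
        simp only [smul_eq_mul]
        field_simp
        ring
      rw [h4, mul_one]
    have hfin : (volume : Measure (ℝ × ℝ)) (Ioo 0 L ×ˢ Ioo 0 ρ) < ⊤ := by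
      rw [Measure.volume_eq_prod, Measure.prod_prod, Real.volume_Ioo, Real.volume_Ioo]
      exact ENNReal.mul_lt_top ENNReal.ofReal_lt_top ENNReal.ofReal_lt_top
    have hio : ∀ F : ℝ × ℝ → ℝ, Continuous F →
        IntegrableOn F (Ioo 0 L ×ˢ Ioo 0 ρ) := by
      intro F hF
      have : IntegrableOn F (Icc 0 L ×ˢ Icc 0 ρ) :=
        hF.continuousOn.integrableOn_compact (isCompact_Icc.prod isCompact_Icc)
      exact this.mono_set (prod_mono Ioo_subset_Icc_self Ioo_subset_Icc_self)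
    have hgc2 : Continuous (fun z : ℝ × ℝ => ip (γ z.1) (Complex.I * deriv γ z.1)) :=
      hgc.comp continuous_fst
    have hkc2 : Continuous (fun z : ℝ × ℝ => kap γ z.1) := hkc.comp continuous_fst
    have h5 : (∫ z in Ioo 0 L ×ˢ Ioo 0 ρ, (1 + kap γ z.1 * z.2) *
        ((1 / ρ) * (ip (γ z.1) (Complex.I * deriv γ z.1) - z.2))) - J
        = ∫ z in Ioo 0 L ×ˢ Ioo 0 ρ, ((1 + kap γ z.1 * z.2) *
        ((1 / ρ) * (ip (γ z.1) (Complex.I * deriv γ z.1) - z.2))
          - ip (γ z.1) (Complex.I * deriv γ z.1) * (1 / ρ)) := by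
      rw [hJ2]
      refine (integral_sub (hio _ ?_) (hio _ ?_)).symm
      · exact (continuous_const.add (hkc2.mul continuous_snd)).mul
          (continuous_const.mul (hgc2.sub continuous_snd))
      · exact hgc2.mul continuous_const
    have h6 : ‖∫ z in Ioo 0 L ×ˢ Ioo 0 ρ, ((1 + kap γ z.1 * z.2) *
        ((1 / ρ) * (ip (γ z.1) (Complex.I * deriv γ z.1) - z.2))
          - ip (γ z.1) (Complex.I * deriv γ z.1) * (1 / ρ))‖
        ≤ (K * M + 1 + K) * (volume : Measure (ℝ × ℝ)).real (Ioo 0 L ×ˢ Ioo 0 ρ) := by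
      apply norm_setIntegral_le_of_norm_le_const hfin
      rintro ⟨θ, t⟩ ⟨hz1, hz2⟩
      have hz1' : 0 < θ ∧ θ < L := hz1
      have hz2' : 0 < t ∧ t < ρ := hz2
      simp only
      set g := ip (γ θ) (Complex.I * deriv γ θ) with hg
      have hg1 : |g| ≤ M := hM θ ⟨hz1'.1.le, hz1'.2.le⟩
      have hk1 : |kap γ θ| ≤ K := hK θ ⟨hz1'.1.le, hz1'.2.le⟩
      have h7 : (1 + kap γ θ * t) * ((1 / ρ) * (g - t)) - g * (1 / ρ)
          = (t / ρ) * (kap γ θ * g - (1 + kap γ θ * t)) := by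
        field_simp
        ring
      rw [h7, norm_mul, Real.norm_eq_abs, Real.norm_eq_abs]
      have h8 : |t / ρ| ≤ 1 := by
        rw [abs_of_pos (div_pos hz2'.1 hρ), div_le_one hρ]
        exact hz2'.2.le
      have h9 : |kap γ θ * g - (1 + kap γ θ * t)| ≤ K * M + 1 + K := by
        have h10 : |kap γ θ * g| ≤ K * M := by
          rw [abs_mul]
          exact mul_le_mul hk1 hg1 (abs_nonneg _) hK0
        have h11 : |kap γ θ * t| ≤ K * 1 := by
          rw [abs_mul]
          refine mul_le_mul hk1 ?_ (abs_nonneg _) hK0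
          rw [abs_of_pos hz2'.1]
          linarith [hz2'.2]
        rw [abs_le] at h10 h11 ⊢
        constructor <;> linarith [h10.1, h10.2, h11.1, h11.2]
      have h12 := mul_le_mul h8 h9 (abs_nonneg _) (by norm_num)
      simpa using h12
    rw [volume_rect hLpos hρ, Real.norm_eq_abs, ← h5, h1] at h6
    have h13 : J - (- (2 * volume.real D))
        = -((- (2 * ∫ x, cut D ρ x)) - J) - 2 * ((∫ x, cut D ρ x) - volume.real D) := by ring
    rw [h13]
    rw [abs_le] at h6 h2 ⊢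
    constructor <;> nlinarith [h6.1, h6.2, h2.1, h2.2]
  have hz : J - (- (2 * volume.real D)) = 0 := by
    rw [← abs_nonpos_iff]
    by_contra hcon
    rw [not_le] at hcon
    set a := |J - (- (2 * volume.real D))| with ha
    set C := (K * M + 1 + K) * L + 2 * ((1 + K) * L) with hC
    have hC0 : 0 < C := by
      rw [hC]
      have : 0 ≤ K * M := mul_nonneg hK0 hM0
      have h1 : 0 < (K * M + 1 + K) * L := mul_pos (by linarith) hLpos
      have h2 : 0 < (1 + K) * L := mul_pos (by linarith) hLpos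
      linarith
    have h1 := key (min 1 (a / (2 * C))) (lt_min one_pos (by positivity)) (min_le_left _ _)
    have h2 : C * min 1 (a / (2 * C)) ≤ C * (a / (2 * C)) :=
      mul_le_mul_of_nonneg_left (min_le_right _ _) hC0.le
    have h3 : C * (a / (2 * C)) = a / 2 := by
      field_simp
    linarith
  linarith

end Cyl
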