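import Pool.Agent.Cyl.Base2

/-!
# ASYM: the sup-convolutions are asymptotically supersolutions; contacts with the wall
-/

open MeasureTheory Set Filter Topology Metric
open scoped ContDiff

noncomputable section

namespace Cyl

namespace Asym

/-! ## gradients of Lipschitz functions -/

theorem measurable_grad (g : ℂ → ℝ) : Measurable (grad g) := by
  have h1 : Measurable (d1 g) := measurable_fderiv_apply_const ℝ g 1
  have h2 : Measurable (d2 g) := measurable_fderiv_apply_const ℝ g Complex.I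
  have e : grad g = fun s => d1 g s • (1 : ℂ) + d2 g s • Complex.I := funext (grad_eq_smul g)
  rw [e]
  exact (h1.smul_const _).add (h2.smul_const _)

theorem norm_grad_le {C : NNReal} {g : ℂ → ℝ} (hg : LipschitzWith C g) (x : ℂ) :
    ‖grad g x‖ ≤ C := by
  have h1 : ‖fderiv ℝ g x‖ ≤ C := norm_fderiv_le_of_lipschitz ℝ hg
  have h2 : ‖grad g x‖ ^ 2 = fderiv ℝ g x (grad g x) := by
    rw [fderiv_ip, ip_self]
  have h3 : fderiv ℝ g x (grad g x) ≤ C * ‖grad g x‖ := by
    calc fderiv ℝ g x (grad g x) ≤ ‖fderiv ℝ g x (grad g x)‖ := le_abs_self _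
      _ ≤ ‖fderiv ℝ g x‖ * ‖grad g x‖ := ContinuousLinearMap.le_opNorm _ _
      _ ≤ C * ‖grad g x‖ := by gcongr
  by_contra hcon
  push Not at hcon
  have h4 : 0 < ‖grad g x‖ := lt_of_le_of_lt C.coe_nonneg hcon
  nlinarith

theorem grad_eq_zero_of_fderiv {g : ℂ → ℝ} {x : ℂ} (h : fderiv ℝ g x = 0) : grad g x = 0 := by
  apply Complex.ext <;> simp [grad, d1, d2, h]

theorem grad_eq_zero_of_notMem {g : ℂ → ℝ} {x : ℂ} (h : x ∉ tsupport g) : grad g x = 0 := by
  apply grad_eq_zero_of_fderiv
  by_contra hcon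
  exact h (support_fderiv_subset ℝ hcon)

theorem measurable_ip {f g : ℂ → ℂ} (hf : Measurable f) (hg : Measurable g) :
    Measurable fun x => ip (f x) (g x) := by
  unfold ip
  exact ((Complex.measurable_re.comp hf).mul (Complex.measurable_re.comp hg)).add
    ((Complex.measurable_im.comp hf).mul (Complex.measurable_im.comp hg))

theorem measurable_Tgrad (u : ℂ → ℝ) : Measurable fun x => T (grad u x) :=
  continuous_T.measurable.comp (measurable_grad u)

/-- the flux integrand is integrable -/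
theorem integrable_flux (u : ℂ → ℝ) {ψ : ℂ → ℝ} {C : NNReal} (hψ : LipschitzWith C ψ)
    (hc : HasCompactSupport ψ) : Integrable fun x => ip (T (grad u x)) (grad ψ x) := by
  have hK : IsCompact (tsupport ψ) := hc
  have h1 : Function.support (fun x => ip (T (grad u x)) (grad ψ x)) ⊆ tsupport ψ := by
    intro x hx
    by_contra hcon
    apply hx
    simp only
    rw [grad_eq_zero_of_notMem hcon, ip_zero_right]
  rw [← integrableOn_iff_integrable_of_support_subset h1]
  apply Measure.integrableOn_of_bounded (M := C) hK.measure_lt_top.ne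
  · exact (measurable_ip (measurable_Tgrad u) (measurable_grad ψ)).aestronglyMeasurable
  · filter_upwards with x
    rw [Real.norm_eq_abs]
    calc |ip (T (grad u x)) (grad ψ x)| ≤ ‖T (grad u x)‖ * ‖grad ψ x‖ := abs_ip_le _ _
      _ ≤ 1 * C := by
          gcongr
          · exact norm_T_le _
          · exact norm_grad_le hψ x
      _ = C := one_mul _

theorem integrable_mul_bdd {ψ h : ℂ → ℝ} {C : NNReal} {K : ℝ} (hψ : LipschitzWith C ψ)
    (hc : HasCompactSupport ψ) (hm : Measurable h) (hK : ∀ x, |h x| ≤ K) :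
    Integrable fun x => ψ x * h x :=
  (hψ.continuous.integrable_of_hasCompactSupport hc).mul_bdd (c := K) hm.aestronglyMeasurable
    (Eventually.of_forall fun x => by rw [Real.norm_eq_abs]; exact hK x)

theorem ae_grad_sub {φ ψ : ℂ → ℝ} {C C' : NNReal} (hφ : LipschitzWith C φ)
    (hψ : LipschitzWith C' ψ) (K : ℝ) :
    ∀ᵐ x, grad (fun y => K * ψ y - φ y) x = (K : ℂ) * grad ψ x - grad φ x := by
  filter_upwards [hφ.ae_differentiableAt (μ := volume), hψ.ae_differentiableAt (μ := volume)]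
    with x h1 h2
  have h3 : HasFDerivAt (fun y => K * ψ y - φ y) (K • fderiv ℝ ψ x - fderiv ℝ φ x) x :=
    (h2.hasFDerivAt.const_mul K).sub h1.hasFDerivAt
  apply Complex.ext
  · simp [grad, d1, h3.fderiv]
  · simp [grad, d2, h3.fderiv]

/-! ## the signed distance and the cut-off function -/

theorem continuous_sd (D : Set ℂ) : Continuous (sd D) :=
  (continuous_infDist_pt D).sub (continuous_infDist_pt Dᶜ)

theorem sd_le_infDist (D : Set ℂ) (x : ℂ) : sd D x ≤ infDist x D := by
  unfold sd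
  have := infDist_nonneg (x := x) (s := Dᶜ)
  linarith

theorem cut_nonneg (D : Set ℂ) (ρ : ℝ) (x : ℂ) : 0 ≤ cut D ρ x := le_max_left _ _

theorem cut_le_one {D : Set ℂ} {ρ : ℝ} (hρ : 0 < ρ) (x : ℂ) : cut D ρ x ≤ 1 := by
  unfold cut
  apply max_le zero_le_one
  have : 0 ≤ infDist x D / ρ := div_nonneg infDist_nonneg hρ.le
  linarith

theorem cut_eq_zero {D : Set ℂ} {ρ : ℝ} (hρ : 0 < ρ) {x : ℂ} (h : ρ ≤ infDist x D) :
    cut D ρ x = 0 := by
  unfold cut
  apply max_eq_left
  rw [sub_nonpos, le_div_iff₀ hρ]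
  linarith

theorem grad_cut_eq_zero {D : Set ℂ} {ρ : ℝ} (hρ : 0 < ρ) {x : ℂ} (h : sd D x ≤ 0 ∨ ρ ≤ sd D x) :
    grad (cut D ρ) x = 0 := by
  apply grad_eq_zero_of_fderiv
  rcases h with h | h
  · -- a maximum
    have h0 : infDist x D = 0 := by
      by_cases hx : x ∈ D
      · exact infDist_zero_of_mem hx
      · have h1 : infDist x Dᶜ = 0 := infDist_zero_of_mem hx
        unfold sd at h
        have := infDist_nonneg (x := x) (s := D)
        linarith
    have h1 : cut D ρ x = 1 := by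
      unfold cut
      rw [h0]
      simp
    apply IsLocalMax.fderiv_eq_zero
    apply Eventually.of_forall
    intro y
    rw [h1]
    exact cut_le_one hρ y
  · have h0 : ρ ≤ infDist x D := h.trans (sd_le_infDist D x)
    have h1 : cut D ρ x = 0 := cut_eq_zero hρ h0
    apply IsLocalMin.fderiv_eq_zero
    apply Eventually.of_forall
    intro y
    rw [h1]
    exact cut_nonneg D ρ y

theorem measurableSet_collar (D : Set ℂ) (a b : ℝ) : MeasurableSet {x | a < sd D x ∧ sd D x < b} :=
  ((isOpen_lt continuous_const (continuous_sd D)).inter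
    (isOpen_lt (continuous_sd D) continuous_const)).measurableSet

theorem isClosed_XC {D : Set ℂ} {ε : ℝ} {S : Set E3} (hS : IsCompact S) (hne : S.Nonempty)
    (hε : 0 < ε) : IsClosed (XC D ε S) :=
  isClosed_eq (sc_continuous hS hne hε) (((continuous_sd D).pow 2).neg.div_const _)

theorem continuous_kk {ε : ℝ} : Continuous (kk ε) := by
  unfold kk
  apply Continuous.div continuous_const
  · fun_prop
  · intro t
    positivity

theorem kk_nonneg {ε : ℝ} (hε : 0 < ε) (t : ℝ) : 0 ≤ kk ε t := by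
  unfold kk; positivity

theorem kk_le {ε : ℝ} (hε : 0 < ε) (t : ℝ) : kk ε t ≤ 1 / ε := by
  unfold kk
  apply div_le_self (by positivity)
  apply one_le_pow₀
  rw [Real.one_le_sqrt]
  have := sq_nonneg (t / ε)
  linarith

/-! ## volumes -/

variable {D : Set ℂ} {γ : ℝ → ℂ} {L H : ℝ} {S : Set E3} {a ν : ℝ → ℝ} {t₀ : ℝ}

theorem collar_subset (hC : ConvexCurve D γ L) {ρ : ℝ} (hρ : 0 < ρ) :
    {x | sd D x < ρ} ⊆ thickening ρ D := by
  intro x hx
  rw [mem_thickening_iff_infDist_lt hC.nonempty]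
  by_cases h : x ∈ D
  · rw [infDist_zero_of_mem h]; exact hρ
  · have h1 : infDist x Dᶜ = 0 := infDist_zero_of_mem h
    have h2 : sd D x < ρ := hx
    unfold sd at h2
    linarith

theorem volume_thickening_lt (hC : ConvexCurve D γ L) (ρ : ℝ) :
    volume (thickening ρ D) < ⊤ :=
  (hC.bounded.thickening).measure_lt_top

theorem integral_cut_le (hC : ConvexCurve D γ L) {ρ : ℝ} (hρ : 0 < ρ) :
    ∫ x, cut D ρ x ≤ volume.real (thickening ρ D) := by
  have h1 : ∀ x, cut D ρ x ≤ (thickening ρ D).indicator (fun _ => (1 : ℝ)) x := by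
    intro x
    by_cases hx : x ∈ thickening ρ D
    · rw [indicator_of_mem hx]; exact cut_le_one hρ x
    · rw [indicator_of_notMem hx]
      rw [mem_thickening_iff_infDist_lt hC.nonempty, not_lt] at hx
      exact (cut_eq_zero hρ hx).le
  calc ∫ x, cut D ρ x ≤ ∫ x, (thickening ρ D).indicator (fun _ => (1 : ℝ)) x := by
        apply integral_mono_of_nonneg (Eventually.of_forall fun x => cut_nonneg D ρ x) _
          (Eventually.of_forall h1)
        rw [integrable_indicator_iff isOpen_thickening.measurableSet]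
        exact integrableOn_const (volume_thickening_lt hC ρ).ne
    _ = volume.real (thickening ρ D) := by
        rw [integral_indicator isOpen_thickening.measurableSet]
        simp

theorem volume_closure (hC : ConvexCurve D γ L) : volume (closure D) = volume D := by
  apply le_antisymm _ (measure_mono subset_closure)
  calc volume (closure D) ≤ volume (D ∪ frontier D) := by
        apply measure_mono
        rw [← closure_eq_self_union_frontier]
    _ ≤ volume D + volume (frontier D) := measure_union_le _ _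
    _ = volume D := by rw [hC.convex.addHaar_frontier volume, add_zero]

theorem exists_vol (hC : ConvexCurve D γ L) (hH : 0 < H) {η : ℝ} (hη : 0 < η) :
    ∃ ρ₀ > 0, ∀ ρ, 0 < ρ → ρ < ρ₀ →
      2 * H * volume.real (thickening ρ D) ≤ 2 * H * volume.real D + η := by
  have h1 : Tendsto (fun r => volume (thickening r D)) (𝓝[>] 0) (𝓝 (volume (closure D))) :=
    tendsto_measure_thickening ⟨1, one_pos, (volume_thickening_lt hC 1).ne⟩
  rw [volume_closure hC] at h1
  have hfin : volume D ≠ ⊤ := hC.bounded.measure_lt_top.ne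
  have h2 : Tendsto (fun r => volume.real (thickening r D)) (𝓝[>] 0) (𝓝 (volume.real D)) :=
    (ENNReal.tendsto_toReal hfin).comp h1
  have h3 : ∀ᶠ r in 𝓝[>] (0 : ℝ), volume.real (thickening r D) < volume.real D + η / (2 * H) :=
    h2.eventually (gt_mem_nhds (by
      have : 0 < η / (2 * H) := by positivity
      linarith))
  rw [eventually_nhdsWithin_iff, Metric.eventually_nhds_iff] at h3
  obtain ⟨ρ₀, hρ₀, h4⟩ := h3
  refine ⟨ρ₀, hρ₀, fun ρ hρ hρ' => ?_⟩
  have h5 := h4 (y := ρ) (by rw [Real.dist_eq, sub_zero, abs_of_pos hρ]; exact hρ') hρ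
  have h6 : 2 * H * volume.real (thickening ρ D) ≤ 2 * H * (volume.real D + η / (2 * H)) := by
    gcongr
  calc _ ≤ 2 * H * (volume.real D + η / (2 * H)) := h6
    _ = _ := by field_simp

theorem volume_collar_ge (hcv : ChangeVarStatement) (hC : ConvexCurve D γ L)
    (ht : Tube D γ L t₀) {ρ : ℝ} (hρ : 0 < ρ) :
    L * ρ ≤ volume.real {x | 0 < sd D x ∧ sd D x < ρ} := by
  set A : Set ℂ := {x | 0 < sd D x ∧ sd D x < ρ} with hA
  have hAm : MeasurableSet A := measurableSet_collar D 0 ρ
  have hcv1 := hcv D γ L t₀ hC ht ρ hρ (A.indicator fun _ => 1)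
    (measurable_const.indicator hAm)
  have hsub : A ⊆ {x | -t₀ < sd D x ∧ sd D x < ρ} := by
    intro x hx
    have := ht.pos
    exact ⟨by have := hx.1; linarith, hx.2⟩
  have hL : ∫⁻ x in {x | -t₀ < sd D x ∧ sd D x < ρ}, A.indicator (fun _ => (1 : ENNReal)) x =
      volume A := by
    rw [lintegral_indicator hAm]
    simp only [lintegral_const, one_mul]
    rw [Measure.restrict_restrict hAm, Measure.restrict_apply_univ, inter_eq_left.2 hsub]
  rw [hL] at hcv1
  have hR : ENNReal.ofReal (L * ρ) ≤ volume A := by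
    rw [hcv1]
    calc ENNReal.ofReal (L * ρ)
        = ∫⁻ z in Ioo 0 L ×ˢ Ioo 0 ρ, (1 : ENNReal) := by
          rw [lintegral_const, one_mul, Measure.restrict_apply_univ, Measure.volume_eq_prod,
            Measure.prod_prod, Real.volume_Ioo, Real.volume_Ioo,
            ← ENNReal.ofReal_mul (by have := hC.L_pos; linarith)]
          simp
      _ ≤ ∫⁻ z in Ioo 0 L ×ˢ Ioo 0 ρ, A.indicator (fun _ => (1 : ENNReal)) (Phi γ z.1 z.2) *
            ENNReal.ofReal (1 + kap γ z.1 * z.2) := by
          apply setLIntegral_mono' (measurableSet_Ioo.prod measurableSet_Ioo)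
          intro z hz
          have hz1 : 0 < z.2 := hz.2.1
          have hz2 : z.2 < ρ := hz.2.2
          have hsd := ht.sd_Phi z.1 z.2 (by have := ht.pos; linarith)
          have hmem : Phi γ z.1 z.2 ∈ A := by
            rw [hA, mem_ofPred_eq, hsd]
            exact ⟨hz1, hz2⟩
          rw [indicator_of_mem hmem, one_mul, ← ENNReal.ofReal_one]
          apply ENNReal.ofReal_le_ofReal
          have := mul_nonneg (ht.kap_nonneg z.1) hz1.le
          linarith
      _ ≤ _ := by
          apply lintegral_mono_set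
          apply prod_mono subset_rfl
          apply Ioo_subset_Ioo_left
          have := ht.pos
          linarith
  have hfin : volume A ≠ ⊤ := by
    apply ne_top_of_le_ne_top (volume_thickening_lt hC ρ).ne
    apply measure_mono
    intro x hx
    exact collar_subset hC hρ hx.2
  exact (ENNReal.ofReal_le_iff_le_toReal hfin).1 hR

/-- lower bound of the flux through the outer collar -/
theorem flux_cut_ge (hcv : ChangeVarStatement) (hcg : CutGradStatement)
    (hC : ConvexCurve D γ L) (ht : Tube D γ L t₀) {ρ : ℝ} (hρ : 0 < ρ) (u : ℂ → ℝ) :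
    L - 1 / ρ * (∫ x in {x | 0 < sd D x ∧ sd D x < ρ},
      ‖T (grad u x) - (ρ : ℂ) * grad (cut D ρ) x‖) ≤
      ∫ x, ip (T (grad u x)) (grad (cut D ρ) x) := by
  obtain ⟨g1, -, ⟨C, hlip⟩, hcomp⟩ := hcg D γ L hC ρ hρ
  set A : Set ℂ := {x | 0 < sd D x ∧ sd D x < ρ} with hA
  have hAm : MeasurableSet A := measurableSet_collar D 0 ρ
  have hfin : volume A ≠ ⊤ := by
    apply ne_top_of_le_ne_top (volume_thickening_lt hC ρ).ne
    apply measure_mono
    intro x hx
    exact collar_subset hC hρ hx.2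
  have hwhole : ∫ x in A, ip (T (grad u x)) (grad (cut D ρ) x) =
      ∫ x, ip (T (grad u x)) (grad (cut D ρ) x) := by
    apply setIntegral_eq_integral_of_forall_compl_eq_zero
    intro x hx
    rw [grad_cut_eq_zero hρ, ip_zero_right]
    by_contra hcon
    push Not at hcon
    exact hx ⟨hcon.1, hcon.2⟩
  have hgrad : ∀ x ∈ A, ‖(ρ : ℂ) * grad (cut D ρ) x‖ = 1 ∧
      grad (cut D ρ) x = ((1 / ρ : ℝ) : ℂ) * ((ρ : ℂ) * grad (cut D ρ) x) := by
    intro x hx
    have hρ' : (ρ : ℂ) ≠ 0 := by exact_mod_cast hρ.ne'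
    have e2 : grad (cut D ρ) x = ((1 / ρ : ℝ) : ℂ) * ((ρ : ℂ) * grad (cut D ρ) x) := by
      push_cast
      field_simp
    refine ⟨?_, e2⟩
    obtain ⟨θ, -, hθ⟩ := ht.surj x (by have := ht.pos; have := hx.1; linarith)
    have h1 := g1 θ (sd D x) hx.1 hx.2
    rw [← hθ] at h1
    rw [h1, norm_mul, norm_mul, norm_mul, hC.unit]
    simp [abs_of_pos hρ, hρ.ne']
  have hpt : ∀ x ∈ A, 1 / ρ - 1 / ρ * ‖T (grad u x) - (ρ : ℂ) * grad (cut D ρ) x‖ ≤
      ip (T (grad u x)) (grad (cut D ρ) x) := by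
    intro x hx
    obtain ⟨h1, h2⟩ := hgrad x hx
    set n : ℂ := (ρ : ℂ) * grad (cut D ρ) x with hn
    rw [h2, ip_ofReal_mul_right]
    have h3 : ip (T (grad u x)) n = ip (T (grad u x) - n) n + 1 := by
      rw [ip_sub_left, ip_self, h1]; ring
    have h4 : -‖T (grad u x) - n‖ ≤ ip (T (grad u x) - n) n := by
      have := abs_ip_le (T (grad u x) - n) n
      rw [h1, mul_one] at this
      exact (abs_le.1 this).1
    rw [h3]
    have h5 : 0 < 1 / ρ := by positivity
    nlinarith
  have hm : Measurable fun x => ‖T (grad u x) - (ρ : ℂ) * grad (cut D ρ) x‖ :=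
    ((measurable_Tgrad u).sub ((measurable_grad _).const_mul _)).norm
  have hi1 : IntegrableOn (fun x => ‖T (grad u x) - (ρ : ℂ) * grad (cut D ρ) x‖) A := by
    apply Measure.integrableOn_of_bounded (M := 2) hfin hm.aestronglyMeasurable
    filter_upwards [ae_restrict_mem hAm] with x hx
    rw [norm_norm]
    calc _ ≤ ‖T (grad u x)‖ + ‖(ρ : ℂ) * grad (cut D ρ) x‖ := norm_sub_le _ _
      _ ≤ 1 + 1 := by
          gcongr
          · exact norm_T_le _
          · exact (hgrad x hx).1.le
      _ = 2 := by norm_num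
  have hi2 : IntegrableOn (fun _ : ℂ => 1 / ρ) A := integrableOn_const hfin
  have hi3 : IntegrableOn (fun x => ip (T (grad u x)) (grad (cut D ρ) x)) A :=
    (integrable_flux u hlip hcomp).integrableOn
  rw [← hwhole]
  have hmono := setIntegral_mono_on (hi2.sub (hi1.const_mul (1 / ρ))) hi3 hAm hpt
  refine le_trans ?_ hmono
  have e1 : ∫ x in A, ((fun _ : ℂ => 1 / ρ) - fun x => 1 / ρ *
      ‖T (grad u x) - (ρ : ℂ) * grad (cut D ρ) x‖) x =
      volume.real A * (1 / ρ) - 1 / ρ * ∫ x in A, ‖T (grad u x) - (ρ : ℂ) * grad (cut D ρ) x‖ := by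
    simp only [Pi.sub_apply]
    rw [integral_sub hi2 (hi1.const_mul (1 / ρ)), integral_const_mul, setIntegral_const, smul_eq_mul]
  rw [e1]
  have h6 := volume_collar_ge hcv hC ht hρ
  have h7 : L ≤ volume.real A * (1 / ρ) := by
    rw [mul_one_div, le_div_iff₀ hρ]
    exact h6
  linarith

/-- the lower bound of the curvature of the jets of the sup-convolution -/
def hf (D : Set ℂ) (H : ℝ) (S : Set E3) (t₀ K₀ ε : ℝ) (x : ℂ) : ℝ :=
  -(2 * H) - {x | x ∈ XC D ε S ∧ -t₀ < sd D x}.indicator (fun x => kk ε (sd D x) + K₀) x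

theorem measurableSet_bad {ε : ℝ} (hS : IsCompact S) (hne : S.Nonempty) (hε : 0 < ε) :
    MeasurableSet {x | x ∈ XC D ε S ∧ -t₀ < sd D x} :=
  (isClosed_XC hS hne hε).measurableSet.inter
    (isOpen_lt continuous_const (continuous_sd D)).measurableSet

theorem measurable_hf {ε K₀ : ℝ} (hS : IsCompact S) (hne : S.Nonempty) (hε : 0 < ε) :
    Measurable (hf D H S t₀ K₀ ε) := by
  unfold hf
  apply Measurable.const_sub
  apply Measurable.indicator _ (measurableSet_bad hS hne hε)
  exact ((continuous_kk.comp (continuous_sd D)).add continuous_const).measurable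

theorem hf_le {ε K₀ : ℝ} (hε : 0 < ε) (hK : 0 ≤ K₀) (x : ℂ) : hf D H S t₀ K₀ ε x ≤ -(2 * H) := by
  unfold hf
  have : 0 ≤ {x | x ∈ XC D ε S ∧ -t₀ < sd D x}.indicator (fun x => kk ε (sd D x) + K₀) x := by
    apply indicator_nonneg
    intro y _
    have := kk_nonneg hε (sd D y)
    linarith
  linarith

theorem abs_hf_le {ε K₀ : ℝ} (hε : 0 < ε) (hK : 0 ≤ K₀) (hH : 0 < H) (x : ℂ) :
    |hf D H S t₀ K₀ ε x| ≤ 2 * H + (1 / ε + K₀) := by
  have h1 := hf_le (D := D) (H := H) (S := S) (t₀ := t₀) hε hK x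
  rw [abs_le]
  constructor
  · unfold hf
    have : {x | x ∈ XC D ε S ∧ -t₀ < sd D x}.indicator (fun x => kk ε (sd D x) + K₀) x ≤
        1 / ε + K₀ := by
      by_cases hx : x ∈ {x | x ∈ XC D ε S ∧ -t₀ < sd D x}
      · rw [indicator_of_mem hx]
        have := kk_le hε (sd D x)
        linarith
      · rw [indicator_of_notMem hx]
        positivity
    linarith
  · have : 0 < 1 / ε := by positivity
    linarith

/-- the main estimate -/
theorem lam (hTube : TubeStatement) (hcv : ChangeVarStatement) (hcg : CutGradStatement)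
    (hCL : CollarLimitStatement) (hFJ : FluxJetStatement) (hFL : FluxLocStatement)
    (hFM : FluxMassStatement) (hF : FluxData D γ L H S a ν) {η : ℝ} (hη : 0 < η) :
    ∃ ρ₀ > 0, ∀ ρ, 0 < ρ → ρ < ρ₀ → ∃ ε₀ > 0, ∀ ε, 0 < ε → ε < ε₀ →
      ∃ (Gd : Set ℝ) (h : ℂ → ℝ) (K : ℝ), MeasurableSet Gd ∧
        (∀ θ ∈ Gd, ¬ VertContact S (γ θ)) ∧ Measurable h ∧ (∀ x, |h x| ≤ K) ∧
        (∀ x, h x ≤ -(2 * H)) ∧ (∀ x, ∃ p B, LJ (sc ε S) x p B ∧ h x ≤ curv p B) ∧
        -(∫ x, cut D ρ x * h x) - ∫ x, ip (T (grad (sc ε S) x)) (grad (cut D ρ) x) ≤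
          2 * H * volume.real D - L + (∫ θ in Ioo 0 L ∩ Gd, (1 - ν θ)) + η := by
  have hC := hF.curve
  have hS := hF.compact
  have hne : S.Nonempty := ⟨_, hF.bdry 0⟩
  have hH := hF.H_pos
  obtain ⟨t₀, ht⟩ := hTube D γ L hC
  have ht0 := ht.pos
  obtain ⟨K₀, hK₀, hjet⟩ := hFJ D γ L H S a ν hF t₀ ht
  obtain ⟨-, Z, hZ⟩ := hFL D γ L H S a ν hF t₀ ht
  obtain ⟨ρ₁, hρ₁, hmass⟩ := hFM D γ L H S a ν hF t₀ ht K₀ hK₀ (η / 3) (by positivity)
  obtain ⟨ρ₂, hρ₂, hvol⟩ := exists_vol hC hH (show 0 < η / 3 by positivity)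
  refine ⟨min ρ₁ ρ₂, lt_min hρ₁ hρ₂, fun ρ hρ hρ' => ?_⟩
  obtain ⟨ε₁, hε₁, hmass⟩ := hmass ρ hρ (hρ'.trans_le (min_le_left _ _))
  have hvol := hvol ρ hρ (hρ'.trans_le (min_le_right _ _))
  obtain ⟨ε₂, hε₂, hcol⟩ : ∃ ε₂ > 0, ∀ ε, 0 < ε → ε < ε₂ →
      ∫ x in {x | 0 < sd D x ∧ sd D x < ρ},
        ‖T (grad (sc ε S) x) - (ρ : ℂ) * grad (cut D ρ) x‖ < ρ * (η / 3) := by
    have h1 := hCL D γ L hC S hS hF.cyl hF.bdry ρ hρ
    have h2 := h1.eventually (gt_mem_nhds (show (0 : ℝ) < ρ * (η / 3) by positivity))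
    rw [eventually_nhdsWithin_iff, Metric.eventually_nhds_iff] at h2
    obtain ⟨ε₂, hε₂, h3⟩ := h2
    refine ⟨ε₂, hε₂, fun ε hε hε' => ?_⟩
    exact h3 (y := ε) (by rw [Real.dist_eq, sub_zero, abs_of_pos hε]; exact hε') hε
  set ε₃ : ℝ := t₀ ^ 2 / (2 * (|Z| + 1)) with hε₃
  have hε₃0 : 0 < ε₃ := by positivity
  refine ⟨min ε₁ (min ε₂ ε₃), lt_min hε₁ (lt_min hε₂ hε₃0), fun ε hε hε' => ?_⟩
  have he1 : ε < ε₁ := hε'.trans_le (min_le_left _ _)
  have he2 : ε < ε₂ := hε'.trans_le ((min_le_right _ _).trans (min_le_left _ _))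
  have he3 : ε < ε₃ := hε'.trans_le ((min_le_right _ _).trans (min_le_right _ _))
  obtain ⟨Gd, hGm, hGv, hGi⟩ := hmass ε hε he1
  refine ⟨Gd, hf D H S t₀ K₀ ε, 2 * H + (1 / ε + K₀), hGm, hGv, measurable_hf hS hne hε,
    abs_hf_le hε hK₀ hH, hf_le hε hK₀, ?_, ?_⟩
  · -- jets
    intro x
    by_cases hx : x ∈ XC D ε S
    · have hsd : -t₀ < sd D x := by
        by_contra hcon
        push Not at hcon
        have hxD : x ∈ D := by
          by_contra hxD
          have h1 : infDist x Dᶜ = 0 := infDist_zero_of_mem hxD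
          have h2 : 0 ≤ sd D x := by
            unfold sd; rw [h1, sub_zero]; exact infDist_nonneg
          linarith
        have h3 := hZ ε hε x hx hxD
        have h4 : t₀ ^ 2 ≤ sd D x ^ 2 := by nlinarith
        have h5 : 2 * ε * Z ≤ 2 * ε * (|Z| + 1) := by
          have := le_abs_self Z
          gcongr
          linarith
        have h6 : 2 * ε * (|Z| + 1) < t₀ ^ 2 := by
          rw [hε₃, lt_div_iff₀ (by positivity)] at he3
          linarith
        linarith
      obtain ⟨p, B, h1, h2⟩ := (hjet ε hε x).2 hsd hx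
      refine ⟨p, B, h1, ?_⟩
      unfold hf
      rw [indicator_of_mem (show x ∈ {x | x ∈ XC D ε S ∧ -t₀ < sd D x} from ⟨hx, hsd⟩)]
      linarith
    · obtain ⟨p, B, h1, h2⟩ := (hjet ε hε x).1 hx
      refine ⟨p, B, h1, ?_⟩
      exact (hf_le hε hK₀ x).trans h2
  · -- the estimate
    obtain ⟨-, -, ⟨C, hlip⟩, hcomp⟩ := hcg D γ L hC ρ hρ
    have hflux := flux_cut_ge hcv hcg hC ht hρ (sc ε S)
    have hcol' := hcol ε hε he2
    have h1 : 1 / ρ * (∫ x in {x | 0 < sd D x ∧ sd D x < ρ},
        ‖T (grad (sc ε S) x) - (ρ : ℂ) * grad (cut D ρ) x‖) ≤ η / 3 := by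
      rw [one_div, inv_mul_le_iff₀ hρ]
      exact hcol'.le
    have hbm := measurableSet_bad (D := D) (t₀ := t₀) hS hne hε
    set Bad : Set ℂ := {x | x ∈ XC D ε S ∧ -t₀ < sd D x} with hBad
    set k : ℂ → ℝ := fun x => kk ε (sd D x) + K₀ with hk
    have hkc : Continuous k := (continuous_kk.comp (continuous_sd D)).add continuous_const
    have hk0 : ∀ x, 0 ≤ k x := fun x => by
      have := kk_nonneg hε (sd D x)
      simp only [hk]; linarith
    have hkb : ∀ x, |k x| ≤ 1 / ε + K₀ := fun x => by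
      rw [abs_of_nonneg (hk0 x)]
      have := kk_le hε (sd D x)
      simp only [hk]; linarith
    have hibd : ∀ x, |Bad.indicator k x| ≤ 1 / ε + K₀ := by
      intro x
      by_cases hx : x ∈ Bad
      · rw [indicator_of_mem hx]; exact hkb x
      · rw [indicator_of_notMem hx, abs_zero]; positivity
    have hi1 : Integrable fun x => cut D ρ x * Bad.indicator k x :=
      integrable_mul_bdd hlip hcomp (hkc.measurable.indicator hbm) hibd
    have hi2 : Integrable fun x => cut D ρ x :=
      hlip.continuous.integrable_of_hasCompactSupport hcomp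
    have hsplit : -(∫ x, cut D ρ x * hf D H S t₀ K₀ ε x) =
        2 * H * (∫ x, cut D ρ x) + ∫ x, cut D ρ x * Bad.indicator k x := by
      rw [← integral_neg, ← integral_const_mul, ← integral_add (hi2.const_mul _) hi1]
      apply integral_congr_ae
      filter_upwards with x
      unfold hf
      ring
    have hcut : 2 * H * (∫ x, cut D ρ x) ≤ 2 * H * volume.real D + η / 3 := by
      refine le_trans ?_ hvol
      have := integral_cut_le hC hρ
      gcongr
    have hbad : ∫ x, cut D ρ x * Bad.indicator k x ≤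
        ∫ x in {x | x ∈ XC D ε S ∧ -t₀ < sd D x ∧ sd D x < ρ}, (kk ε (sd D x) + K₀) := by
      have hm2 : MeasurableSet {x | x ∈ XC D ε S ∧ -t₀ < sd D x ∧ sd D x < ρ} :=
        (isClosed_XC hS hne hε).measurableSet.inter (measurableSet_collar D (-t₀) ρ)
      rw [← integral_indicator hm2]
      apply integral_mono_of_nonneg
      · apply Eventually.of_forall
        intro x
        exact mul_nonneg (cut_nonneg D ρ x) (indicator_nonneg (fun y _ => hk0 y) x)
      · rw [integrable_indicator_iff hm2]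
        apply Measure.integrableOn_of_bounded (M := 1 / ε + K₀) _ hkc.aestronglyMeasurable
        · exact Eventually.of_forall hkb
        · apply ne_top_of_le_ne_top (volume_thickening_lt hC ρ).ne
          apply measure_mono
          intro x hx
          exact collar_subset hC hρ hx.2.2
      · apply Eventually.of_forall
        intro x
        simp only
        by_cases hx : x ∈ Bad
        · rw [indicator_of_mem hx]
          by_cases hx2 : sd D x < ρ
          · rw [indicator_of_mem (show x ∈ {x | x ∈ XC D ε S ∧ -t₀ < sd D x ∧ sd D x < ρ} from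
              ⟨hx.1, hx.2, hx2⟩)]
            calc cut D ρ x * k x ≤ 1 * k x := by
                  have := cut_le_one (D := D) hρ x
                  have := hk0 x
                  gcongr
              _ = _ := one_mul _
          · push Not at hx2
            rw [cut_eq_zero hρ (hx2.trans (sd_le_infDist D x)), zero_mul]
            exact indicator_nonneg (fun y _ => hk0 y) x
        · rw [indicator_of_notMem hx, mul_zero]
          exact indicator_nonneg (fun y _ => hk0 y) x
    rw [hsplit]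
    linarith

theorem nu_le_one (hF : FluxData D γ L H S a ν) (θ : ℝ) : ν θ ≤ 1 := by
  have h1 := hF.a_ν θ
  nlinarith [sq_nonneg (a θ), sq_nonneg (ν θ - 1)]

theorem integrableOn_one_sub (hF : FluxData D γ L H S a ν) (A : Set ℝ) :
    IntegrableOn (fun θ => 1 - ν θ) (Ioo 0 L ∩ A) := by
  have h1 : IntegrableOn (fun θ => 1 - ν θ) (Icc 0 L) :=
    (continuous_const.sub hF.ν_cont).continuousOn.integrableOn_compact isCompact_Icc
  exact h1.mono_set (inter_subset_left.trans Ioo_subset_Icc_self)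

theorem integral_one_sub (hF : FluxData D γ L H S a ν) :
    ∫ θ in Ioo 0 L, (1 - ν θ) = L - 2 * H * volume.real D := by
  have hL := hF.curve.L_pos
  have h1 : ∫ θ in (0:ℝ)..L, (1 - ν θ) = L - 2 * H * volume.real D := by
    rw [intervalIntegral.integral_sub (by simp) (hF.ν_cont.intervalIntegrable _ _), hF.flux]
    simp
  rw [intervalIntegral.integral_of_le hL.le, integral_Ioc_eq_integral_Ioo] at h1
  exact h1

theorem integral_one_sub_inter_le (hF : FluxData D γ L H S a ν) (A : Set ℝ) :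
    ∫ θ in Ioo 0 L ∩ A, (1 - ν θ) ≤ L - 2 * H * volume.real D := by
  rw [← integral_one_sub hF]
  apply setIntegral_mono_set
  · simpa using integrableOn_one_sub hF univ
  · apply Eventually.of_forall
    intro θ
    have := nu_le_one hF θ
    simp only [Pi.zero_apply]
    linarith
  · exact (inter_subset_left).eventuallyLE

end Asym

open Asym in
/-- FLX5a -/
theorem ASYM_holds (hW : WeakIneqStatement) (hTube : TubeStatement) (hcv : ChangeVarStatement)
    (hcg : CutGradStatement) (hCL : CollarLimitStatement) (hFJ : FluxJetStatement)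
    (hFL : FluxLocStatement) (hFM : FluxMassStatement) : AsymSuperStatement := by
  intro D γ L H S a ν hF η hη
  obtain ⟨ρ₀, hρ₀, hlam⟩ := lam hTube hcv hcg hCL hFJ hFL hFM hF hη
  refine ⟨ρ₀, hρ₀, fun ρ hρ hρ' => ?_⟩
  obtain ⟨ε₀, hε₀, hlam⟩ := hlam ρ hρ hρ'
  refine ⟨ε₀, hε₀, fun ε hε hε' K φ hK ⟨C', hφlip⟩ hφ0 hφle => ?_⟩
  obtain ⟨Gd, h, Kh, hGm, -, hhm, hhb, hhle, hjet, hΛ⟩ := hlam ε hε hε'
  obtain ⟨-, -, ⟨C, hlip⟩, hcomp⟩ := hcg D γ L hF.curve ρ hρ
  have hS := hF.compact
  have hne : S.Nonempty := ⟨_, hF.bdry 0⟩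
  have hGle := integral_one_sub_inter_le hF Gd
  have hΛ' : -(∫ x, cut D ρ x * h x) - ∫ x, ip (T (grad (sc ε S) x)) (grad (cut D ρ) x) ≤ η := by
    linarith
  -- the test function
  have hφc : HasCompactSupport φ := by
    apply HasCompactSupport.of_support_subset_isCompact (K := tsupport (cut D ρ)) hcomp
    intro x hx
    apply subset_tsupport
    intro h0
    apply hx
    have h1 := hφle x
    rw [h0, mul_zero] at h1
    exact le_antisymm h1 (hφ0 x)
  have hψlip : LipschitzWith (‖K‖₊ * C + C') (fun y => K * cut D ρ y - φ y) :=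
    ((lipschitzWith_smul K).comp hlip).sub hφlip
  have hψc : HasCompactSupport (fun y => K * cut D ρ y - φ y) := by
    apply HasCompactSupport.of_support_subset_isCompact (K := tsupport (cut D ρ)) hcomp
    intro x hx
    apply subset_tsupport
    intro h0
    apply hx
    have h1 := hφle x
    rw [h0, mul_zero] at h1
    simp only
    rw [h0, le_antisymm h1 (hφ0 x)]
    simp
  have hweak := hW (sc ε S) (1 / ε) (by positivity) (sc_convex hS hne hε) h Kh hhm hhb
    (Eventually.of_forall hjet) _ ⟨_, hψlip⟩ hψc (fun x => by have := hφle x; linarith)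
  have e1 : ∫ x, (K * cut D ρ x - φ x) * h x = K * (∫ x, cut D ρ x * h x) - ∫ x, φ x * h x := by
    rw [← integral_const_mul, ← integral_sub
      ((integrable_mul_bdd hlip hcomp hhm hhb).const_mul K) (integrable_mul_bdd hφlip hφc hhm hhb)]
    apply integral_congr_ae
    filter_upwards with x
    ring
  have e2 : ∫ x, ip (T (grad (sc ε S) x)) (grad (fun y => K * cut D ρ y - φ y) x) =
      K * (∫ x, ip (T (grad (sc ε S) x)) (grad (cut D ρ) x)) -
        ∫ x, ip (T (grad (sc ε S) x)) (grad φ x) := by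
    rw [← integral_const_mul, ← integral_sub ((integrable_flux (sc ε S) hlip hcomp).const_mul K)
      (integrable_flux (sc ε S) hφlip hφc)]
    apply integral_congr_ae
    filter_upwards [ae_grad_sub hφlip hlip K] with x hx
    rw [hx, ip_sub_right, ip_ofReal_mul_right]
  have e3 : 2 * H * (∫ x, φ x) ≤ -∫ x, φ x * h x := by
    rw [← integral_const_mul, ← integral_neg]
    apply integral_mono ((hφlip.continuous.integrable_of_hasCompactSupport hφc).const_mul _)
      (integrable_mul_bdd hφlip hφc hhm hhb).neg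
    intro x
    have h1 := hhle x
    have h2 := hφ0 x
    simp only [Pi.neg_apply]
    nlinarith
  rw [e1, e2] at hweak
  have h4 : K * (-(∫ x, cut D ρ x * h x) -
      ∫ x, ip (T (grad (sc ε S) x)) (grad (cut D ρ) x)) ≤ K * η := by gcongr
  linarith

open Asym in
/-- FLX5b -/
theorem NULLC_holds (hW : WeakIneqStatement) (hTube : TubeStatement) (hcv : ChangeVarStatement)
    (hcg : CutGradStatement) (hCL : CollarLimitStatement) (hFJ : FluxJetStatement)
    (hFL : FluxLocStatement) (hFM : FluxMassStatement) : NullContactStatement := by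
  intro D γ L H S a ν hF
  have hS := hF.compact
  have hne : S.Nonempty := ⟨_, hF.bdry 0⟩
  have key : ∀ n : ℕ, ∃ Gd : Set ℝ, MeasurableSet Gd ∧ (∀ θ ∈ Gd, ¬ VertContact S (γ θ)) ∧
      L - 2 * H * volume.real D - 1 / ((n : ℝ) + 1) ≤ ∫ θ in Ioo 0 L ∩ Gd, (1 - ν θ) := by
    intro n
    have hη : 0 < 1 / ((n : ℝ) + 1) := by positivity
    obtain ⟨ρ₀, hρ₀, hlam⟩ := lam hTube hcv hcg hCL hFJ hFL hFM hF hη
    obtain ⟨ε₀, hε₀, hlam⟩ := hlam (ρ₀ / 2) (by positivity) (by linarith)
    obtain ⟨Gd, h, Kh, hGm, hGv, hhm, hhb, hhle, hjet, hΛ⟩ :=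
      hlam (ε₀ / 2) (by positivity) (by linarith)
    obtain ⟨-, -, ⟨C, hlip⟩, hcomp⟩ := hcg D γ L hF.curve (ρ₀ / 2) (by positivity)
    have hweak := hW (sc (ε₀ / 2) S) (1 / (ε₀ / 2)) (by positivity)
      (sc_convex hS hne (by positivity)) h Kh hhm hhb
      (Eventually.of_forall hjet) _ ⟨_, hlip⟩ hcomp (fun x => cut_nonneg D _ x)
    exact ⟨Gd, hGm, hGv, by linarith⟩
  choose Gd hGm hGv hGi using key
  set E : Set ℝ := ⋂ n, (Gd n)ᶜ with hE
  have hEm : MeasurableSet E := MeasurableSet.iInter fun n => (hGm n).compl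
  have hnn : ∀ A : Set ℝ, 0 ≤ᵐ[volume.restrict (Ioo 0 L ∩ A)] fun θ => 1 - ν θ := by
    intro A
    apply Eventually.of_forall
    intro θ
    have := nu_le_one hF θ
    simp only [Pi.zero_apply]
    linarith
  have hle : ∀ n : ℕ, ∫ θ in Ioo 0 L ∩ E, (1 - ν θ) ≤ 1 / ((n : ℝ) + 1) := by
    intro n
    have h1 : ∫ θ in Ioo 0 L ∩ E, (1 - ν θ) ≤ ∫ θ in Ioo 0 L ∩ (Gd n)ᶜ, (1 - ν θ) := by
      apply setIntegral_mono_set (integrableOn_one_sub hF _) (hnn _)
      exact (inter_subset_inter_right _ (iInter_subset _ n)).eventuallyLE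
    have h2 : (∫ θ in Ioo 0 L ∩ Gd n, (1 - ν θ)) + ∫ θ in Ioo 0 L ∩ (Gd n)ᶜ, (1 - ν θ) =
        ∫ θ in Ioo 0 L, (1 - ν θ) := by
      have h3 : IntegrableOn (fun θ => 1 - ν θ) (Ioo 0 L) := by
        simpa using integrableOn_one_sub hF univ
      rw [← integral_inter_add_sdiff (hGm n) h3, sdiff_eq]
    rw [integral_one_sub hF] at h2
    have h4 := hGi n
    linarith
  have hzero : ∫ θ in Ioo 0 L ∩ E, (1 - ν θ) = 0 := by
    apply le_antisymm
    · apply le_of_forall_pos_le_add
      intro δ hδ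
      obtain ⟨n, hn⟩ := exists_nat_one_div_lt hδ
      have := hle n
      linarith
    · exact setIntegral_nonneg_of_ae_restrict (hnn _)
  rw [setIntegral_eq_zero_iff_of_nonneg_ae (hnn _) (integrableOn_one_sub hF _)] at hzero
  have hz2 : ∀ᵐ θ, θ ∈ Ioo 0 L ∩ E → 1 - ν θ = 0 :=
    (ae_restrict_iff' (measurableSet_Ioo.inter hEm)).1 hzero
  rw [ae_restrict_iff' measurableSet_Ioo]
  filter_upwards [hz2] with θ h1 h2 h3
  have h4 : θ ∈ E := by
    rw [hE, mem_iInter]
    intro n hn
    exact hGv n θ hn h3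
  have := h1 ⟨h2, h4⟩
  linarith

end Cyl
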