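import Pool.Agent.Cyl.Base2

/-!
# Module BASIC
-/

open MeasureTheory Set Filter Topology Metric
open scoped ContDiff

noncomputable section

namespace Cyl

universe u

variable {M : Type u} [TopologicalSpace M]

theorem CMC.continuous_f {f N : M → E3} {bd : Set M} {H : ℝ} (h : CMC f N bd H) :
    Continuous f := by
  rw [continuous_iff_continuousAt]
  intro q
  obtain ⟨F, r, g, R, e, hp⟩ := h.anyPatch q
  have hP := hp.patch
  have h1 : ContinuousAt (F.pt (f q) g) (e q) := by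
    rw [hP.map_zero]
    exact (F.contDiffOn_pt (f q) hP.smooth).continuousOn.continuousAt
      (ball_mem_nhds _ hP.r_pos)
  have h2 : ContinuousAt e q := hP.cont.continuousAt (hP.isOpen.mem_nhds hP.mem)
  have h3 : ContinuousAt (fun x => F.pt (f q) g (e x)) q := ContinuousAt.comp h1 h2
  apply h3.congr
  filter_upwards [hP.isOpen.mem_nhds hP.mem] with x hx
  exact (hP.f_eq hx).symm

theorem CMC.continuous_N {f N : M → E3} {bd : Set M} {H : ℝ} (h : CMC f N bd H) :
    Continuous N := by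
  rw [continuous_iff_continuousAt]
  intro q
  obtain ⟨F, r, g, R, e, hp⟩ := h.anyPatch q
  have hP := hp.patch
  have h1 : ContinuousAt (F.nor g) (e q) := by
    rw [hP.map_zero]
    exact (F.contDiffOn_nor isOpen_ball hP.smooth).continuousOn.continuousAt
      (ball_mem_nhds _ hP.r_pos)
  have h2 : ContinuousAt e q := hP.cont.continuousAt (hP.isOpen.mem_nhds hP.mem)
  have h3 : ContinuousAt (fun x => F.nor g (e x)) q := ContinuousAt.comp h1 h2
  apply h3.congr
  filter_upwards [hP.isOpen.mem_nhds hP.mem] with x hx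
  exact (hP.N_eq hx).symm

theorem CMC.isClosed_bd {f N : M → E3} {bd : Set M} {H : ℝ} (h : CMC f N bd H) :
    IsClosed bd := by
  rw [← isOpen_compl_iff, isOpen_iff_mem_nhds]
  intro q hq
  obtain ⟨F, r, g, e, hp⟩ := h.interior q hq
  filter_upwards [hp.1.isOpen.mem_nhds hp.1.mem] with x hx hx'
  exact (Set.disjoint_left.1 hp.2) hx hx'

theorem CMC.unit {f N : M → E3} {bd : Set M} {H : ℝ} (h : CMC f N bd H) (q : M) :
    dot (N q) (N q) = 1 := by
  obtain ⟨F, r, g, R, e, hp⟩ := h.anyPatch q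
  rw [hp.patch.normal_center]; exact F.hnn

theorem Setup.b_unique (S : Setup M) {q : M} (hq : q ∈ S.bd) {θ : ℝ}
    (h : S.f q = (S.γ θ, (0 : ℝ))) : S.b θ = q :=
  S.inj_bd (S.b_mem θ) hq (by rw [S.f_b, h])

theorem Setup.b_periodic (S : Setup M) (θ : ℝ) : S.b (θ + S.L) = S.b θ := by
  apply S.b_unique (S.b_mem θ)
  rw [S.f_b, S.curve.periodic]

theorem Setup.exists_b_eq (S : Setup M) {q : M} (hq : q ∈ S.bd) : ∃ θ, S.b θ = q := by
  have h : S.f q ∈ S.f '' S.bd := mem_image_of_mem _ hq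
  rw [S.img_bd] at h
  obtain ⟨h1, h2⟩ := h
  rw [← S.curve.range_eq] at h1
  obtain ⟨θ, hθ⟩ := h1
  exact ⟨θ, S.b_unique hq (Prod.ext hθ.symm h2)⟩

theorem Setup.continuous_b [CompactSpace M] (S : Setup M) : Continuous S.b := by
  have hcl := S.surf.isClosed_bd
  have hf := S.surf.continuous_f
  have : CompactSpace S.bd := isCompact_iff_compactSpace.1 hcl.isCompact
  let ι : S.bd → E3 := fun q => S.f q
  have hι : Continuous ι := hf.comp continuous_subtype_val
  have hinj : Function.Injective ι := by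
    intro x y hxy
    exact Subtype.ext (S.inj_bd x.2 y.2 hxy)
  have hemb : IsClosedEmbedding ι := hι.isClosedEmbedding hinj
  let b' : ℝ → S.bd := fun θ => ⟨S.b θ, S.b_mem θ⟩
  have h1 : Continuous (ι ∘ b') := by
    have e : ι ∘ b' = fun θ => (S.γ θ, (0 : ℝ)) := by
      funext θ; exact S.f_b θ
    rw [e]
    exact S.curve.smooth.continuous.prodMk continuous_const
  have h2 : Continuous b' := hemb.isInducing.continuous_iff.2 h1
  exact continuous_subtype_val.comp h2

theorem Setup.dot_N_tangent [CompactSpace M] (S : Setup M) (θ : ℝ) :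
    dot (S.N (S.b θ)) (deriv S.γ θ, 0) = 0 := by
  obtain ⟨F, r, g, R, e, hp⟩ := S.surf.anyPatch (S.b θ)
  have hP := hp.patch
  rw [hP.normal_center]
  have hγ : HasDerivAt S.γ (deriv S.γ θ) θ :=
    ((S.curve.smooth.differentiable (by simp)) θ).hasDerivAt
  -- linear functionals of the curve
  have hlin : ∀ V : E3, HasDerivAt (fun θ' => dot ((S.γ θ', (0 : ℝ)) - (S.γ θ, (0 : ℝ))) V)
      (dot (deriv S.γ θ, 0) V) θ := by
    intro V
    have h1 : HasDerivAt (fun θ' => (S.γ θ').re) (deriv S.γ θ).re θ :=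
      (Complex.reCLM.hasFDerivAt.comp_hasDerivAt θ hγ)
    have h2 : HasDerivAt (fun θ' => (S.γ θ').im) (deriv S.γ θ).im θ :=
      (Complex.imCLM.hasFDerivAt.comp_hasDerivAt θ hγ)
    have h3 := ((h1.sub_const (S.γ θ).re).mul_const V.1.re).add
      ((h2.sub_const (S.γ θ).im).mul_const V.1.im)
    have e1 : (fun θ' => dot ((S.γ θ', (0 : ℝ)) - (S.γ θ, (0 : ℝ))) V)
        = fun θ' => ((S.γ θ').re - (S.γ θ).re) * V.1.re + ((S.γ θ').im - (S.γ θ).im) * V.1.im := by
      funext θ'; simp [dot, ip]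
    rw [e1]
    have e2 : dot (deriv S.γ θ, 0) V
        = (deriv S.γ θ).re * V.1.re + (deriv S.γ θ).im * V.1.im := by
      simp [dot, ip]
    rw [e2]
    exact h3
  let s : ℝ → ℂ := fun θ' => (dot ((S.γ θ', (0 : ℝ)) - (S.γ θ, (0 : ℝ))) F.a : ℂ)
    + (dot ((S.γ θ', (0 : ℝ)) - (S.γ θ, (0 : ℝ))) F.b : ℂ) * Complex.I
  have hs : HasDerivAt s ((dot (deriv S.γ θ, 0) F.a : ℂ) + (dot (deriv S.γ θ, 0) F.b : ℂ)
      * Complex.I) θ := ((hlin F.a).ofReal_comp).add (((hlin F.b).ofReal_comp).mul_const _)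
  have hs0 : s θ = 0 := by simp [s, dot, ip]
  have hg : HasFDerivAt g (0 : ℂ →L[ℝ] ℝ) 0 := by
    have h1 : DifferentiableAt ℝ g 0 :=
      (hP.smooth.contDiffAt (ball_mem_nhds _ hP.r_pos)).differentiableAt (by simp)
    have h2 : fderiv ℝ g 0 = 0 := by
      apply ContinuousLinearMap.ext
      intro v
      rw [fderiv_re_im, hP.d1_zero, hP.d2_zero]; simp
    rw [← h2]; exact h1.hasFDerivAt
  have hgs : HasDerivAt (fun θ' => g (s θ')) 0 θ := by
    have h1 : HasFDerivAt g (0 : ℂ →L[ℝ] ℝ) (s θ) := by rw [hs0]; exact hg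
    have h2 := h1.comp_hasDerivAt θ hs
    rw [zero_apply] at h2
    exact h2
  have hev : (fun θ' => g (s θ')) =ᶠ[𝓝 θ]
      fun θ' => dot ((S.γ θ', (0 : ℝ)) - (S.γ θ, (0 : ℝ))) F.n := by
    have h1 : ∀ᶠ θ' in 𝓝 θ, S.b θ' ∈ e.source :=
      S.continuous_b.continuousAt.eventually (hP.isOpen.mem_nhds hP.mem)
    filter_upwards [h1] with θ' hθ'
    have h2 := hP.f_eq hθ'
    rw [S.f_b, S.f_b] at h2
    have h3 := F.dot_pt_sub (S.γ θ, (0 : ℝ)) g (e (S.b θ'))
    rw [← h2] at h3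
    have h4 : s θ' = e (S.b θ') := by
      apply Complex.ext
      · rw [← h3.1]; simp [s]
      · rw [← h3.2.1]; simp [s]
    rw [h4, h3.2.2]
  have h5 := (hlin F.n).congr_of_eventuallyEq hev
  have h6 := h5.unique hgs
  rw [dot_comm]; exact h6

theorem BASIC_holds : BasicStatement.{u} := by
  intro M _ _ _ S
  exact ⟨S.surf.continuous_f, S.surf.continuous_N, S.surf.isClosed_bd, S.continuous_b,
    S.b_periodic, fun q hq => S.exists_b_eq hq, S.surf.unit, S.dot_N_tangent⟩

end Cyl
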