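import Pool.Agent.Cyl.LOC

/-!
# Module BCOLLAR
-/

open MeasureTheory Set Filter Topology Metric
open scoped ContDiff

noncomputable section

namespace Cyl

universe u

/-- a curved rectangle -/
def crect (r₁ : ℝ) (β : ℝ → ℝ) : Set ℂ :=
  {s | |s.re| < r₁ ∧ β s.re < s.im ∧ s.im < β s.re + r₁}

theorem isPreconnected_crect (r₁ : ℝ) {β : ℝ → ℝ} (hβ : Continuous β) :
    IsPreconnected (crect r₁ β) := by
  have e : crect r₁ β = (fun p : ℝ × ℝ => (⟨p.1, β p.1 + p.2⟩ : ℂ)) '' (Ioo (-r₁) r₁ ×ˢ Ioo 0 r₁) := by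
    ext s
    constructor
    · rintro ⟨h1, h2, h3⟩
      refine ⟨(s.re, s.im - β s.re), ⟨?_, ?_⟩, ?_⟩
      · simpa [abs_lt] using h1
      · exact ⟨by simp; linarith, by simp; linarith⟩
      · apply Complex.ext <;> simp
    · rintro ⟨⟨x, y⟩, ⟨h1, h2⟩, rfl⟩
      refine ⟨?_, ?_, ?_⟩
      · simpa [abs_lt] using h1
      · have := h2.1; simp only at this ⊢; linarith
      · have := h2.2; simp only at this ⊢; linarith
  rw [e]
  apply IsPreconnected.image
  · exact isPreconnected_Ioo.prod isPreconnected_Ioo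
  · apply Continuous.continuousOn
    have h1 : Continuous (fun p : ℝ × ℝ => ((p.1 : ℂ) + ((β p.1 + p.2 : ℝ) : ℂ) * Complex.I)) := by
      fun_prop
    have e2 : (fun p : ℝ × ℝ => (⟨p.1, β p.1 + p.2⟩ : ℂ)) =
        (fun p : ℝ × ℝ => ((p.1 : ℂ) + ((β p.1 + p.2 : ℝ) : ℂ) * Complex.I)) := by
      funext p
      apply Complex.ext <;> simp
    rw [e2]; exact h1

theorem isOpen_crect (r₁ : ℝ) {β : ℝ → ℝ} (hβ : Continuous β) : IsOpen (crect r₁ β) := by
  have h1 : Continuous (fun s : ℂ => |s.re|) := Complex.continuous_re.abs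
  have h2 : Continuous (fun s : ℂ => β s.re) := hβ.comp Complex.continuous_re
  exact (isOpen_lt h1 continuous_const).inter
    ((isOpen_lt h2 Complex.continuous_im).inter
      (isOpen_lt Complex.continuous_im (h2.add continuous_const)))

/-- the full neighbourhood `{|s₁| < r₁, |s₂ - β(s₁)| < r₁}` -/
def cnb (r₁ : ℝ) (β : ℝ → ℝ) : Set ℂ := {s | |s.re| < r₁ ∧ |s.im - β s.re| < r₁}

theorem isOpen_cnb (r₁ : ℝ) {β : ℝ → ℝ} (hβ : Continuous β) : IsOpen (cnb r₁ β) := by
  have h1 : Continuous (fun s : ℂ => |s.re|) := Complex.continuous_re.abs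
  have h2 : Continuous (fun s : ℂ => |s.im - β s.re|) :=
    (Complex.continuous_im.sub (hβ.comp Complex.continuous_re)).abs
  exact (isOpen_lt h1 continuous_const).inter (isOpen_lt h2 continuous_const)

theorem exists_cnb_subset {β : ℝ → ℝ} (hβ : Continuous β) (hβ0 : β 0 = 0) {O : Set ℂ}
    (hO : O ∈ 𝓝 (0 : ℂ)) : ∃ r₁ > 0, cnb r₁ β ⊆ O := by
  obtain ⟨ε, hε, h1⟩ := Metric.mem_nhds_iff.1 hO
  have h2 : ∀ᶠ t in 𝓝 (0 : ℝ), |β t| < ε / 4 := by
    have : Tendsto (fun t => |β t|) (𝓝 0) (𝓝 0) := by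
      have := hβ.abs.tendsto 0
      simpa [hβ0] using this
    exact this.eventually (gt_mem_nhds (by positivity))
  obtain ⟨δ, hδ, h3⟩ := Metric.eventually_nhds_iff.1 h2
  refine ⟨min δ (ε / 4), by positivity, ?_⟩
  rintro s ⟨hs1, hs2⟩
  apply h1
  have h4 : |β s.re| < ε / 4 := by
    apply h3
    rw [Real.dist_eq, sub_zero]
    exact hs1.trans_le (min_le_left _ _)
  have h5 : |s.re| < ε / 4 := hs1.trans_le (min_le_right _ _)
  have h6 : |s.im - β s.re| < ε / 4 := hs2.trans_le (min_le_right _ _)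
  rw [mem_ball, dist_zero_right]
  have h7 : |s.im| < ε / 2 := by
    have := abs_add_le (s.im - β s.re) (β s.re)
    rw [sub_add_cancel] at this
    linarith
  have h8 := Complex.norm_le_abs_re_add_abs_im s
  linarith

theorem ConvexCurve.interior_closure {D : Set ℂ} {γ : ℝ → ℂ} {L : ℝ} (h : ConvexCurve D γ L) :
    interior (closure D) = D := by
  rw [h.convex.interior_closure_eq_interior_of_nonempty_interior, h.isOpen.interior_eq]
  rw [h.isOpen.interior_eq]; exact h.nonempty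

/-- the normal is not vertical if `|ν| < 1`: the horizontal part of the normal is `ν n` -/
theorem Setup.N3_sq {M : Type u} [TopologicalSpace M] [CompactSpace M] (S : Setup M)
    (θ : ℝ) : (S.N (S.b θ)).2 ^ 2 = 1 - S.ν θ ^ 2 := by
  have h1 := S.surf.unit (S.b θ)
  have h2 := S.dot_N_tangent θ
  have h3 := S.curve.unit θ
  have h4 : (deriv S.γ θ).re ^ 2 + (deriv S.γ θ).im ^ 2 = 1 := by
    have := ip_self (deriv S.γ θ)
    rw [h3] at this
    unfold ip at this
    nlinarith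
  unfold Setup.ν
  simp only [dot, ip, Complex.mul_re, Complex.mul_im, Complex.I_re, Complex.I_im] at h1 h2 ⊢
  set a := (S.N (S.b θ)).1.re
  set b := (S.N (S.b θ)).1.im
  set c := (S.N (S.b θ)).2
  set x := (deriv S.γ θ).re
  set y := (deriv S.γ θ).im
  have h5 : a * x + b * y = 0 := by linarith
  have h6 : (a * x + b * y) ^ 2 + (-a * y + b * x) ^ 2 = (a ^ 2 + b ^ 2) * (x ^ 2 + y ^ 2) := by ring
  rw [h5, h4] at h6
  nlinarith

/-- points of the surface near a boundary point, in terms of a boundary patch -/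
theorem BCOLLAR_holds : BdCollarStatement.{u} := by
  intro M _ _ _ S _hc θ hν V hV
  obtain ⟨F, r, g, β, e, hp⟩ := S.surf.boundary (S.b θ) (S.b_mem θ)
  have hP := hp.1
  have hβ : Continuous β := hp.2.1.continuous
  have hβ0 : β 0 = 0 := hp.2.2.1
  have hn : F.n.2 ≠ 0 := by
    rw [← hP.normal_center]
    intro h
    have h1 := S.N3_sq θ
    rw [h] at h1
    have h2 : S.ν θ ^ 2 < 1 := by
      rw [← sq_abs]
      nlinarith [abs_nonneg (S.ν θ)]
    nlinarith
  obtain ⟨G, hG0, hGr, hG, _, hG00⟩ := hP.locinv hn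
  have hf0 : (S.f (S.b θ)).1 = S.γ θ := by rw [S.f_b]
  rw [hf0] at hG00
  -- small neighbourhood
  obtain ⟨ε, hε, hVε⟩ := hP.exists_ball hV
  obtain ⟨r₁, hr₁, hcn⟩ := exists_cnb_subset hβ hβ0
    (inter_mem (G.open_source.mem_nhds hG0) (ball_mem_nhds (0 : ℂ) hε))
  have hcs : cnb r₁ β ⊆ G.source := fun s hs => (hcn hs).1
  have hcε : ∀ s ∈ cnb r₁ β, ‖s‖ < ε := fun s hs => by simpa using (hcn hs).2
  have hcr : cnb r₁ β ⊆ ball 0 r := fun s hs => hGr (hcs hs)
  have hQc : crect r₁ β ⊆ cnb r₁ β := by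
    rintro s ⟨h1, h2, h3⟩
    refine ⟨h1, ?_⟩
    rw [abs_lt]; constructor <;> linarith
  have hQR : crect r₁ β ⊆ halfDisc r β := fun s hs => ⟨hcr (hQc hs), hs.2.1.le⟩
  have hpi : ∀ s ∈ halfDisc r β, (S.f (e.symm s)).1 = G s := by
    intro s hs
    rw [hP.param s hs, hG]
  have hR0 : (0 : ℂ) ∈ halfDisc r β := hP.zero_mem
  have h0c : (0 : ℂ) ∈ cnb r₁ β := by
    refine ⟨?_, ?_⟩
    · simpa using hr₁
    · simpa [hβ0] using hr₁
  -- the neighbourhood
  let V' : Set M := e.symm '' (halfDisc r β ∩ cnb r₁ β)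
  have hV'bd : V' \ S.bd = e.symm '' crect r₁ β := by
    ext q
    constructor
    · rintro ⟨⟨s, ⟨hs1, hs2⟩, rfl⟩, hq⟩
      refine ⟨s, ⟨hs2.1, ?_, ?_⟩, rfl⟩
      · apply lt_of_le_of_ne hs1.2
        intro h
        exact hq ((hp.2.2.2.2 s hs1).2 h.symm)
      · have := (abs_lt.1 hs2.2).2; linarith
    · rintro ⟨s, hs, rfl⟩
      refine ⟨⟨s, ⟨hQR hs, hQc hs⟩, rfl⟩, ?_⟩
      intro h
      have := (hp.2.2.2.2 s (hQR hs)).1 h
      have := hs.2.1
      linarith
  -- the image of the open rectangle lies in `D`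
  have hQD : ∀ s ∈ crect r₁ β, G s ∈ S.D := by
    intro s hs
    rw [← S.curve.interior_closure]
    apply mem_interior.2
    refine ⟨G '' crect r₁ β, ?_, ?_, mem_image_of_mem _ hs⟩
    · rintro x ⟨t, ht, rfl⟩
      rw [← hpi t (hQR ht)]
      exact S.cyl _
    · exact G.isOpen_image_of_subset_source (isOpen_crect r₁ hβ) (hQc.trans hcs)
  refine ⟨V', ?_, ?_, ?_, ?_, ?_, ?_⟩
  · apply hP.image_mem_nhds hP.mem
    rw [hP.map_zero]
    exact mem_nhdsWithin_of_mem_nhds ((isOpen_cnb r₁ hβ).mem_nhds h0c)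
  · rintro q ⟨s, ⟨hs1, hs2⟩, rfl⟩
    exact hVε s hs1 (hcε s hs2)
  · rw [hV'bd]
    apply (isPreconnected_crect r₁ hβ).image
    apply hP.cont_symm.mono
    rw [hP.target]
    exact hQR
  · intro q hq
    rw [hV'bd] at hq
    obtain ⟨s, hs, rfl⟩ := hq
    rw [hpi s (hQR hs)]
    exact hQD s hs
  · rintro x ⟨s, ⟨hs1, hs2⟩, rfl⟩ y ⟨t, ⟨ht1, ht2⟩, rfl⟩ hxy
    simp only at hxy
    rw [hpi s hs1, hpi t ht1] at hxy
    rw [G.injOn (hcs hs2) (hcs ht2) hxy]
  · have hopen : IsOpen (G '' cnb r₁ β) :=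
      G.isOpen_image_of_subset_source (isOpen_cnb r₁ hβ) hcs
    have hmem : S.γ θ ∈ G '' cnb r₁ β := ⟨0, h0c, hG00⟩
    obtain ⟨δ, hδ, hball⟩ := Metric.isOpen_iff.1 hopen _ hmem
    -- the preimage of `ball ∩ D`
    have hBsub : ball (S.γ θ) δ ∩ S.D ⊆ G.target := by
      rintro x ⟨hx, _⟩
      obtain ⟨s, hs, rfl⟩ := hball hx
      exact G.map_source (hcs hs)
    have hΨ : ∀ x ∈ ball (S.γ θ) δ ∩ S.D, G.symm x ∈ cnb r₁ β := by
      rintro x ⟨hx, _⟩
      obtain ⟨s, hs, rfl⟩ := hball hx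
      rw [G.left_inv (hcs hs)]
      exact hs
    have hpre : IsPreconnected (G.symm '' (ball (S.γ θ) δ ∩ S.D)) := by
      apply IsPreconnected.image
      · exact ((convex_ball _ _).inter S.curve.convex).isPreconnected
      · exact G.continuousOn_symm.mono hBsub
    -- it avoids the boundary curve
    have havoid : ∀ s ∈ G.symm '' (ball (S.γ θ) δ ∩ S.D), s.im ≠ β s.re := by
      rintro s ⟨x, hx, rfl⟩ heq
      have h1 := hΨ x hx
      have h2 : G.symm x ∈ halfDisc r β := ⟨hcr h1, heq.symm.le⟩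
      have h3 : e.symm (G.symm x) ∈ S.bd := (hp.2.2.2.2 _ h2).2 heq
      have h4 : S.f (e.symm (G.symm x)) ∈ S.f '' S.bd := mem_image_of_mem _ h3
      rw [S.img_bd] at h4
      have h5 := h4.1
      rw [hpi _ h2, G.right_inv (hBsub hx)] at h5
      rw [S.curve.isOpen.frontier_eq] at h5
      exact h5.2 hx.2
    -- it meets the upper side
    have hmeet : ∃ s ∈ G.symm '' (ball (S.γ θ) δ ∩ S.D), β s.re < s.im := by
      have hcG : ContinuousAt G 0 := G.continuousAt hG0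
      have h1 : ∀ᶠ s in 𝓝 (0 : ℂ), G s ∈ ball (S.γ θ) δ := by
        apply hcG
        rw [hG00]; exact ball_mem_nhds _ hδ
      have h2 : ∀ᶠ t : ℝ in 𝓝 (0 : ℝ), G ((t : ℂ) * Complex.I) ∈ ball (S.γ θ) δ := by
        have hc : Tendsto (fun t : ℝ => (t : ℂ) * Complex.I) (𝓝 0) (𝓝 0) := by
          have : Continuous (fun t : ℝ => (t : ℂ) * Complex.I) := by fun_prop
          simpa using this.tendsto 0
        exact hc.eventually h1
      obtain ⟨δ', hδ', h3⟩ := Metric.eventually_nhds_iff.1 h2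
      let t := min δ' r₁ / 2
      have ht0 : 0 < t := by positivity
      have ht1 : t < δ' := by
        have : min δ' r₁ ≤ δ' := min_le_left _ _
        show min δ' r₁ / 2 < δ'
        linarith
      have ht2 : t < r₁ := by
        have : min δ' r₁ ≤ r₁ := min_le_right _ _
        show min δ' r₁ / 2 < r₁
        linarith
      have hQt : (t : ℂ) * Complex.I ∈ crect r₁ β := by
        refine ⟨?_, ?_, ?_⟩
        · simpa using hr₁
        · simpa [hβ0] using ht0
        · simpa [hβ0] using ht2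
      refine ⟨(t : ℂ) * Complex.I, ⟨G ((t : ℂ) * Complex.I), ⟨h3 ?_, hQD _ hQt⟩, ?_⟩, hQt.2.1⟩
      · rw [Real.dist_eq, sub_zero, abs_of_pos ht0]; exact ht1
      · exact G.left_inv (hcs (hQc hQt))
    have hside : ∀ s ∈ G.symm '' (ball (S.γ θ) δ ∩ S.D), β s.re < s.im := by
      have hA : IsOpen {s : ℂ | β s.re < s.im} :=
        isOpen_lt (hβ.comp Complex.continuous_re) Complex.continuous_im
      have hB : IsOpen {s : ℂ | s.im < β s.re} :=
        isOpen_lt Complex.continuous_im (hβ.comp Complex.continuous_re)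
      intro s hs
      by_contra hcon
      have hs' : s.im < β s.re := lt_of_le_of_ne (not_lt.1 hcon) (havoid s hs)
      obtain ⟨s₁, hs₁, hs₁'⟩ := hmeet
      obtain ⟨w, hw, hw1, hw2⟩ := hpre {s : ℂ | β s.re < s.im} {s : ℂ | s.im < β s.re} hA hB
        (fun t ht => by
          rcases lt_or_gt_of_ne (havoid t ht) with h | h
          · right; exact h
          · left; exact h) ⟨s₁, hs₁, hs₁'⟩ ⟨s, hs, hs'⟩
      have h1 : β w.re < w.im := hw1
      have h2 : w.im < β w.re := hw2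
      linarith
    refine ⟨δ, hδ, ?_⟩
    intro x hxD hx
    have hxB : x ∈ ball (S.γ θ) δ ∩ S.D := ⟨by simpa [dist_eq_norm] using hx, hxD⟩
    have h1 := hΨ x hxB
    have h2 := hside _ (mem_image_of_mem _ hxB)
    have h3 : G.symm x ∈ crect r₁ β := by
      refine ⟨h1.1, h2, ?_⟩
      have := (abs_lt.1 h1.2).2
      linarith
    refine ⟨e.symm (G.symm x), ?_, ?_⟩
    · rw [hV'bd]; exact mem_image_of_mem _ h3
    · rw [hpi _ (hQR h3), G.right_inv (hBsub hxB)]

end Cyl
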