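import Pool.Agent.Cyl.Stmt

/-!
# Basic facts shared by all modules
-/

open MeasureTheory Set Filter Topology Metric
open scoped ContDiff

noncomputable section

namespace Cyl

/-! ## the plane -/

theorem ip_eq_inner (p q : ℂ) : ip p q = inner ℝ p q := by
  rw [Complex.inner]; simp [ip]; ring

theorem ip_comm (p q : ℂ) : ip p q = ip q p := by unfold ip; ring

theorem ip_add_left (p q r : ℂ) : ip (p + q) r = ip p r + ip q r := by
  simp only [ip, Complex.add_re, Complex.add_im]; ring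

theorem ip_add_right (p q r : ℂ) : ip p (q + r) = ip p q + ip p r := by
  simp only [ip, Complex.add_re, Complex.add_im]; ring

theorem ip_sub_left (p q r : ℂ) : ip (p - q) r = ip p r - ip q r := by
  simp only [ip, Complex.sub_re, Complex.sub_im]; ring

theorem ip_sub_right (p q r : ℂ) : ip p (q - r) = ip p q - ip p r := by
  simp only [ip, Complex.sub_re, Complex.sub_im]; ring

theorem ip_neg_left (p q : ℂ) : ip (-p) q = - ip p q := by
  simp only [ip, Complex.neg_re, Complex.neg_im]; ring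

theorem ip_neg_right (p q : ℂ) : ip p (-q) = - ip p q := by
  simp only [ip, Complex.neg_re, Complex.neg_im]; ring

theorem ip_zero_left (q : ℂ) : ip 0 q = 0 := by simp [ip]

theorem ip_zero_right (q : ℂ) : ip q 0 = 0 := by simp [ip]

theorem ip_ofReal_mul_left (t : ℝ) (p q : ℂ) : ip ((t : ℂ) * p) q = t * ip p q := by
  simp [ip]; ring

theorem ip_ofReal_mul_right (t : ℝ) (p q : ℂ) : ip p ((t : ℂ) * q) = t * ip p q := by
  simp [ip]; ring

theorem ip_smul_left (t : ℝ) (p q : ℂ) : ip (t • p) q = t * ip p q := by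
  simp [ip]; ring

theorem ip_smul_right (t : ℝ) (p q : ℂ) : ip p (t • q) = t * ip p q := by
  simp [ip]; ring

theorem ip_self (p : ℂ) : ip p p = ‖p‖ ^ 2 := by
  rw [← Complex.normSq_eq_norm_sq, Complex.normSq_apply, ip]

theorem ip_I_mul (p q : ℂ) : ip (Complex.I * p) (Complex.I * q) = ip p q := by
  simp only [ip, Complex.mul_re, Complex.mul_im, Complex.I_re, Complex.I_im]; ring

theorem ip_I_mul_self (p : ℂ) : ip (Complex.I * p) p = 0 := by
  simp only [ip, Complex.mul_re, Complex.mul_im, Complex.I_re, Complex.I_im]; ring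

theorem ip_I_left (p q : ℂ) : ip (Complex.I * p) q = - ip p (Complex.I * q) := by
  simp only [ip, Complex.mul_re, Complex.mul_im, Complex.I_re, Complex.I_im]; ring

theorem abs_ip_le (p q : ℂ) : |ip p q| ≤ ‖p‖ * ‖q‖ := by
  rw [ip_eq_inner]; exact abs_real_inner_le_norm p q

theorem ip_le (p q : ℂ) : ip p q ≤ ‖p‖ * ‖q‖ := (le_abs_self _).trans (abs_ip_le p q)

theorem norm_sub_sq' (p q : ℂ) : ‖p - q‖ ^ 2 = ‖p‖ ^ 2 - 2 * ip p q + ‖q‖ ^ 2 := by
  rw [← ip_self, ← ip_self, ← ip_self]; simp only [ip, Complex.sub_re, Complex.sub_im]; ring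

theorem norm_add_sq' (p q : ℂ) : ‖p + q‖ ^ 2 = ‖p‖ ^ 2 + 2 * ip p q + ‖q‖ ^ 2 := by
  rw [← ip_self, ← ip_self, ← ip_self]; simp only [ip, Complex.add_re, Complex.add_im]; ring

/-! ## `W` and `T` -/

theorem W_eq (p : ℂ) : W p = Real.sqrt (1 + ‖p‖ ^ 2) := by
  rw [← ip_self, W, ip]; congr 1; ring

theorem W_sq (p : ℂ) : W p ^ 2 = 1 + p.re ^ 2 + p.im ^ 2 := by
  rw [W, Real.sq_sqrt (by positivity)]

theorem W_sq' (p : ℂ) : W p ^ 2 = 1 + ‖p‖ ^ 2 := by
  rw [W_sq, ← ip_self, ip]; ring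

theorem W_pos (p : ℂ) : 0 < W p := by
  unfold W; positivity

theorem one_le_W (p : ℂ) : 1 ≤ W p := by
  unfold W
  rw [show (1:ℝ) = Real.sqrt 1 by simp]
  apply Real.sqrt_le_sqrt
  simp
  nlinarith [sq_nonneg p.re, sq_nonneg p.im]

theorem W_zero : W 0 = 1 := by simp [W]

theorem T_eq (p : ℂ) : T p = (((W p)⁻¹ : ℝ) : ℂ) * p := by
  apply Complex.ext <;> simp [T] <;> ring

theorem norm_T (p : ℂ) : ‖T p‖ = ‖p‖ / W p := by
  rw [T_eq, norm_mul, Complex.norm_real, Real.norm_eq_abs, abs_of_pos (inv_pos.2 (W_pos p))]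
  ring

theorem norm_lt_W (p : ℂ) : ‖p‖ < W p := by
  rw [W_eq]
  calc ‖p‖ = Real.sqrt (‖p‖ ^ 2) := by rw [Real.sqrt_sq (norm_nonneg p)]
    _ < _ := Real.sqrt_lt_sqrt (by positivity) (by linarith)

theorem norm_T_lt (p : ℂ) : ‖T p‖ < 1 := by
  rw [norm_T, div_lt_one (W_pos p)]; exact norm_lt_W p

theorem norm_T_le (p : ℂ) : ‖T p‖ ≤ 1 := (norm_T_lt p).le

theorem contDiff_W : ContDiff ℝ ∞ W := by
  have h : ∀ p : ℂ, (1 + p.re ^ 2 + p.im ^ 2 : ℝ) ≠ 0 := fun p => by positivity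
  unfold W
  apply ContDiff.sqrt _ h
  have h1 : ContDiff ℝ ∞ (fun p : ℂ => p.re) := Complex.reCLM.contDiff
  have h2 : ContDiff ℝ ∞ (fun p : ℂ => p.im) := Complex.imCLM.contDiff
  fun_prop

theorem continuous_W : Continuous W := contDiff_W.continuous

theorem contDiff_T : ContDiff ℝ ∞ T := by
  have h : T = fun p => ((W p)⁻¹ : ℝ) • p := by
    funext p
    rw [T_eq]
    simp
  rw [h]
  exact (contDiff_W.inv fun p => (W_pos p).ne').smul contDiff_id

theorem continuous_T : Continuous T := contDiff_T.continuous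

/-- `T` is monotone. -/
theorem T_mono (p q : ℂ) : 0 ≤ ip (T p - T q) (p - q) := by
  -- `⟨Tp - Tq, p - q⟩ = |p|²/Wp + |q|²/Wq - ⟨p,q⟩(1/Wp + 1/Wq)`
  have hp := W_pos p
  have hq := W_pos q
  have key : ip (T p - T q) (p - q) = ‖p‖ ^ 2 / W p + ‖q‖ ^ 2 / W q
      - ip p q * (1 / W p + 1 / W q) := by
    rw [T_eq, T_eq, ← ip_self, ← ip_self]
    simp only [ip_sub_left, ip_sub_right, ip_ofReal_mul_left]
    rw [ip_comm q p]
    ring
  rw [key]
  have h1 : ip p q * (1 / W p + 1 / W q) ≤ (‖p‖ * ‖q‖) * (1 / W p + 1 / W q) :=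
    mul_le_mul_of_nonneg_right (ip_le p q) (by positivity)
  have h2 : 0 ≤ ‖p‖ ^ 2 / W p + ‖q‖ ^ 2 / W q - (‖p‖ * ‖q‖) * (1 / W p + 1 / W q) := by
    have e : ‖p‖ ^ 2 / W p + ‖q‖ ^ 2 / W q - (‖p‖ * ‖q‖) * (1 / W p + 1 / W q)
        = (‖p‖ - ‖q‖) * (‖p‖ / W p - ‖q‖ / W q) := by ring
    rw [e]
    rcases le_total ‖q‖ ‖p‖ with h | h
    · apply mul_nonneg (by linarith)
      rw [sub_nonneg, div_le_div_iff₀ hq hp]
      have := W_sq' p
      have := W_sq' q
      have h3 : (‖q‖ * W p) ^ 2 ≤ (‖p‖ * W q) ^ 2 := by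
        rw [mul_pow, mul_pow, W_sq', W_sq']
        nlinarith [norm_nonneg q, norm_nonneg p, mul_self_le_mul_self (norm_nonneg q) h]
      exact le_of_sq_le_sq h3 (by positivity)
    · apply mul_nonneg_of_nonpos_of_nonpos (by linarith)
      rw [sub_nonpos, div_le_div_iff₀ hp hq]
      have h3 : (‖p‖ * W q) ^ 2 ≤ (‖q‖ * W p) ^ 2 := by
        rw [mul_pow, mul_pow, W_sq', W_sq']
        nlinarith [norm_nonneg q, norm_nonneg p, mul_self_le_mul_self (norm_nonneg p) h]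
      exact le_of_sq_le_sq h3 (by positivity)
  linarith

/-! ## quadratic forms -/

theorem curv_eq (p : ℂ) (B : Q2) :
    curv p B = (B.app 1 + B.app Complex.I + B.app (Complex.I * p)) / W p ^ 3 := by
  unfold curv Q2.app
  simp
  congr 1
  ring

theorem curv_eq_lin (p : ℂ) (B : Q2) : curv p B = lin p B / W p ^ 3 := rfl

theorem curv_zero (B : Q2) : curv 0 B = B.a + B.c := by
  simp [curv, W_zero]

theorem app_smul (B : Q2) (t : ℝ) (v : ℂ) : B.app ((t : ℂ) * v) = t ^ 2 * B.app v := by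
  simp [Q2.app]; ring

theorem app_neg (B : Q2) (v : ℂ) : B.app (-v) = B.app v := by
  simp [Q2.app]

theorem app_zero (B : Q2) : B.app 0 = 0 := by simp [Q2.app]

theorem abs_app_le (B : Q2) (v : ℂ) : |B.app v| ≤ (|B.a| + 2 * |B.b| + |B.c|) * ‖v‖ ^ 2 := by
  have h1 : v.re ^ 2 ≤ ‖v‖ ^ 2 := by
    rw [← ip_self, ip]; nlinarith [mul_self_nonneg v.im]
  have h2 : v.im ^ 2 ≤ ‖v‖ ^ 2 := by
    rw [← ip_self, ip]; nlinarith [mul_self_nonneg v.re]
  have h3 : |v.re * v.im| ≤ ‖v‖ ^ 2 := by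
    rw [abs_le]
    rw [← ip_self, ip]
    constructor <;> nlinarith [sq_nonneg (v.re + v.im), sq_nonneg (v.re - v.im)]
  unfold Q2.app
  calc |B.a * v.re ^ 2 + 2 * B.b * v.re * v.im + B.c * v.im ^ 2|
      ≤ |B.a * v.re ^ 2| + |2 * B.b * v.re * v.im| + |B.c * v.im ^ 2| := abs_add_three _ _ _
    _ = |B.a| * v.re ^ 2 + 2 * |B.b| * |v.re * v.im| + |B.c| * v.im ^ 2 := by
        rw [show 2 * B.b * v.re * v.im = 2 * (B.b * (v.re * v.im)) by ring]
        simp [abs_mul, abs_of_nonneg (sq_nonneg v.re), abs_of_nonneg (sq_nonneg v.im)]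
        ring
    _ ≤ |B.a| * ‖v‖ ^ 2 + 2 * |B.b| * ‖v‖ ^ 2 + |B.c| * ‖v‖ ^ 2 := by gcongr
    _ = _ := by ring

/-! ## sup-convolution -/

section sc

variable {ε : ℝ} {S S' : Set E3} {x : ℂ}

theorem sc_continuous_aux (ε : ℝ) (x : ℂ) :
    Continuous (fun X : E3 => X.2 - ‖x - X.1‖ ^ 2 / (2 * ε)) := by fun_prop

theorem sc_bddAbove (hS : IsCompact S) (ε : ℝ) (x : ℂ) :
    BddAbove ((fun X : E3 => X.2 - ‖x - X.1‖ ^ 2 / (2 * ε)) '' S) :=
  (hS.image (sc_continuous_aux ε x)).bddAbove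

/-- every point of `S` gives a lower bound -/
theorem le_sc (hS : IsCompact S) (ε : ℝ) (x : ℂ) {X : E3} (hX : X ∈ S) :
    X.2 - ‖x - X.1‖ ^ 2 / (2 * ε) ≤ sc ε S x :=
  le_csSup (sc_bddAbove hS ε x) (mem_image_of_mem _ hX)

/-- the supremum is attained -/
theorem exists_sc (hS : IsCompact S) (hne : S.Nonempty) (ε : ℝ) (x : ℂ) :
    ∃ X ∈ S, sc ε S x = X.2 - ‖x - X.1‖ ^ 2 / (2 * ε) := by
  obtain ⟨X, hX, h⟩ := hS.exists_sSup_image_eq hne (sc_continuous_aux ε x).continuousOn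
  exact ⟨X, hX, h⟩

theorem sc_le (hS : IsCompact S) (hne : S.Nonempty) {C : ℝ}
    (h : ∀ X ∈ S, X.2 - ‖x - X.1‖ ^ 2 / (2 * ε) ≤ C) : sc ε S x ≤ C := by
  obtain ⟨X, hX, h'⟩ := exists_sc hS hne ε x
  rw [h']; exact h X hX

theorem sc_mono (hS' : IsCompact S') (hne : S.Nonempty) (hS : IsCompact S) (h : S ⊆ S') :
    sc ε S x ≤ sc ε S' x :=
  sc_le hS hne fun _ hX => le_sc hS' ε x (h hX)

/-- semiconvexity -/
theorem sc_convex (hS : IsCompact S) (hne : S.Nonempty) (hε : 0 < ε) :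
    ConvexOn ℝ univ (fun x => sc ε S x + (1 / ε) / 2 * ‖x‖ ^ 2) := by
  refine ⟨convex_univ, ?_⟩
  intro x _ y _ a b ha hb hab
  obtain ⟨X, hX, h⟩ := exists_sc hS hne ε (a • x + b • y)
  have e : ∀ w : ℂ, X.2 - ‖w - X.1‖ ^ 2 / (2 * ε) + (1 / ε) / 2 * ‖w‖ ^ 2
      = X.2 + (1 / ε) * ip w X.1 - (1 / ε) / 2 * ‖X.1‖ ^ 2 := by
    intro w
    rw [norm_sub_sq']
    field_simp
    ring
  simp only [smul_eq_mul]
  rw [h, e]
  have h1 := le_sc hS ε x hX
  have h2 := le_sc hS ε y hX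
  have e1 := e x
  have e2 := e y
  have e3 : ip (a • x + b • y) X.1 = a * ip x X.1 + b * ip y X.1 := by
    rw [ip_add_left, ip_smul_left, ip_smul_left]
  rw [e3]
  have h1' : X.2 + 1 / ε * ip x X.1 - 1 / ε / 2 * ‖X.1‖ ^ 2 ≤ sc ε S x + 1 / ε / 2 * ‖x‖ ^ 2 := by
    linarith
  have h2' : X.2 + 1 / ε * ip y X.1 - 1 / ε / 2 * ‖X.1‖ ^ 2 ≤ sc ε S y + 1 / ε / 2 * ‖y‖ ^ 2 := by
    linarith
  calc X.2 + 1 / ε * (a * ip x X.1 + b * ip y X.1) - 1 / ε / 2 * ‖X.1‖ ^ 2
      = a * (X.2 + 1 / ε * ip x X.1 - 1 / ε / 2 * ‖X.1‖ ^ 2)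
        + b * (X.2 + 1 / ε * ip y X.1 - 1 / ε / 2 * ‖X.1‖ ^ 2) := by
        have hb' : b = 1 - a := by linarith
        subst hb'
        ring
    _ ≤ _ := by gcongr

/-- local Lipschitz bound -/
theorem sc_lipschitzOn (hS : IsCompact S) (hne : S.Nonempty) (hε : 0 < ε) (R : ℝ) :
    ∃ C : NNReal, LipschitzOnWith C (sc ε S) (closedBall 0 R) := by
  obtain ⟨R', hR'⟩ := hS.isBounded.subset_closedBall (0 : E3)
  have hR'' : ∀ X ∈ S, ‖X.1‖ ≤ R' := fun X hX =>
    (norm_fst_le X).trans (by simpa using hR' hX)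
  set C : ℝ := (|R| + |R'|) / ε with hC
  have hC0 : 0 ≤ C := by positivity
  refine ⟨C.toNNReal, ?_⟩
  apply LipschitzOnWith.of_dist_le_mul
  rw [Real.coe_toNNReal C hC0]
  have key : ∀ x ∈ closedBall (0 : ℂ) R, ∀ y ∈ closedBall (0 : ℂ) R,
      sc ε S x - sc ε S y ≤ C * ‖x - y‖ := by
    intro x hx y hy
    obtain ⟨X, hX, h⟩ := exists_sc hS hne ε x
    have h' := le_sc hS ε y hX
    have hx' : ‖x‖ ≤ |R| := (by simpa using hx : ‖x‖ ≤ R).trans (le_abs_self R)
    have hy' : ‖y‖ ≤ |R| := (by simpa using hy : ‖y‖ ≤ R).trans (le_abs_self R)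
    have hX' : ‖X.1‖ ≤ |R'| := (hR'' X hX).trans (le_abs_self R')
    rw [h]
    have e : ‖y - X.1‖ ^ 2 - ‖x - X.1‖ ^ 2 ≤ 2 * (|R| + |R'|) * ‖x - y‖ := by
      have h3 : ‖y - X.1‖ ≤ ‖x - X.1‖ + ‖x - y‖ := by
        have := norm_sub_le_norm_sub_add_norm_sub y x X.1
        rw [norm_sub_rev y x] at this
        linarith
      have h4 : ‖y - X.1‖ ≤ |R| + |R'| := (norm_sub_le _ _).trans (by linarith)
      have h5 : ‖x - X.1‖ ≤ |R| + |R'| := (norm_sub_le _ _).trans (by linarith)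
      nlinarith [norm_nonneg (y - X.1), norm_nonneg (x - X.1), norm_nonneg (x - y)]
    have e2 : (‖y - X.1‖ ^ 2 - ‖x - X.1‖ ^ 2) / (2 * ε) ≤ C * ‖x - y‖ := by
      rw [div_le_iff₀ (by positivity), hC]
      calc _ ≤ 2 * (|R| + |R'|) * ‖x - y‖ := e
        _ = (|R| + |R'|) / ε * ‖x - y‖ * (2 * ε) := by field_simp
    have e3 : (‖y - X.1‖ ^ 2 - ‖x - X.1‖ ^ 2) / (2 * ε)
        = ‖y - X.1‖ ^ 2 / (2 * ε) - ‖x - X.1‖ ^ 2 / (2 * ε) := by ring
    linarith
  intro x hx y hy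
  rw [Real.dist_eq, dist_eq_norm, abs_le]
  constructor
  · have := key y hy x hx
    rw [norm_sub_rev y x] at this
    linarith
  · exact key x hx y hy

theorem sc_continuous (hS : IsCompact S) (hne : S.Nonempty) (hε : 0 < ε) :
    Continuous (sc ε S) := by
  rw [continuous_iff_continuousAt]
  intro x
  obtain ⟨C, hC⟩ := sc_lipschitzOn hS hne hε (‖x‖ + 1)
  apply (hC.continuousOn).continuousAt
  apply closedBall_mem_nhds_of_mem
  simp
  
/-- differentiable almost everywhere -/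
theorem sc_ae_differentiableAt (hS : IsCompact S) (hne : S.Nonempty) (hε : 0 < ε) :
    ∀ᵐ x, DifferentiableAt ℝ (sc ε S) x := by
  have h : ∀ n : ℕ, ∀ᵐ x, x ∈ ball (0 : ℂ) n → DifferentiableAt ℝ (sc ε S) x := by
    intro n
    obtain ⟨C, hC⟩ := sc_lipschitzOn hS hne hε n
    have h1 := (hC.mono ball_subset_closedBall).ae_differentiableWithinAt_of_mem (μ := volume)
    filter_upwards [h1] with x hx hx'
    exact (hx hx').differentiableAt (isOpen_ball.mem_nhds hx')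
  rw [← ae_all_iff] at h
  filter_upwards [h] with x hx
  obtain ⟨n, hn⟩ := exists_nat_gt ‖x‖
  exact hx n (by simpa using hn)

/-- at a point of differentiability the gradient is `(X.1 - x)/ε` -/
theorem grad_sc (hS : IsCompact S) (hd : DifferentiableAt ℝ (sc ε S) x)
    {X : E3} (hX : X ∈ S) (h : sc ε S x = X.2 - ‖x - X.1‖ ^ 2 / (2 * ε)) :
    grad (sc ε S) x = ((1 / ε : ℝ) : ℂ) * (X.1 - x) := by
  -- the difference `sc ε S w - (X.2 - ‖w - X.1‖²/(2ε))` has a minimum at `w = x`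
  set ψ : ℂ → ℝ := fun w => X.2 - ‖w - X.1‖ ^ 2 / (2 * ε) with hψ
  have hψ' : ∀ w, ψ w = X.2 - ((w.re - X.1.re) ^ 2 + (w.im - X.1.im) ^ 2) / (2 * ε) := by
    intro w
    rw [hψ]
    simp only
    rw [← ip_self]
    simp [ip]
    ring
  have hdψ : HasFDerivAt ψ (-((1 / ε) • ((x.re - X.1.re) • Complex.reCLM
      + (x.im - X.1.im) • Complex.imCLM))) x := by
    have h1 : HasFDerivAt (fun w : ℂ => w.re - X.1.re) Complex.reCLM x :=
      (Complex.reCLM.hasFDerivAt).sub_const _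
    have h2 : HasFDerivAt (fun w : ℂ => w.im - X.1.im) Complex.imCLM x :=
      (Complex.imCLM.hasFDerivAt).sub_const _
    have h3 := (((h1.pow 2).add (h2.pow 2)).const_mul (1 / (2 * ε))).const_sub X.2
    have e : ψ = fun w => X.2 - (1 / (2 * ε)) * ((w.re - X.1.re) ^ 2 + (w.im - X.1.im) ^ 2) := by
      funext w
      rw [hψ' w]
      ring
    rw [e]
    refine HasFDerivAt.congr_fderiv h3 ?_
    ext v
    simp
    by_cases hε : ε = 0
    · simp [hε]
    · field_simp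
  have hmin : IsLocalMin (fun w => sc ε S w - ψ w) x := by
    apply Filter.Eventually.of_forall
    intro w
    have h1 : ψ w ≤ sc ε S w := le_sc hS ε w hX
    have h2 : sc ε S x = ψ x := h
    simp only
    linarith
  have h0 := hmin.hasFDerivAt_eq_zero (hd.hasFDerivAt.sub hdψ)
  rw [sub_eq_zero] at h0
  apply Complex.ext
  · simp only [grad, d1, h0]
    simp
    ring
  · simp only [grad, d2, h0]
    simp
    ring

end sc

/-! ## the region below a compact set -/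

theorem subset_below (S : Set E3) : S ⊆ below S := fun X hX => ⟨X, hX, rfl, le_rfl⟩

theorem below_down {S : Set E3} {X Y : E3} (hX : X ∈ below S) (h1 : Y.1 = X.1) (h2 : Y.2 ≤ X.2) :
    Y ∈ below S := by
  obtain ⟨Z, hZ, e1, e2⟩ := hX
  exact ⟨Z, hZ, e1.trans h1.symm, h2.trans e2⟩

theorem isClosed_below {S : Set E3} (hS : IsCompact S) : IsClosed (below S) := by
  apply IsSeqClosed.isClosed
  intro X x hX hx
  choose Y hY e1 e2 using hX
  obtain ⟨Z, hZ, φ, hφ, hlim⟩ := hS.tendsto_subseq hY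
  refine ⟨Z, hZ, ?_, ?_⟩
  · have h1 : Tendsto (fun n => (Y (φ n)).1) atTop (𝓝 Z.1) :=
      (continuous_fst.tendsto Z).comp hlim
    have h2 : Tendsto (fun n => (X (φ n)).1) atTop (𝓝 x.1) :=
      ((continuous_fst.tendsto x).comp hx).comp hφ.tendsto_atTop
    have h3 : (fun n => (Y (φ n)).1) = fun n => (X (φ n)).1 := funext fun n => e1 (φ n)
    rw [h3] at h1
    exact tendsto_nhds_unique h1 h2
  · have h1 : Tendsto (fun n => (Y (φ n)).2) atTop (𝓝 Z.2) :=
      (continuous_snd.tendsto Z).comp hlim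
    have h2 : Tendsto (fun n => (X (φ n)).2) atTop (𝓝 x.2) :=
      ((continuous_snd.tendsto x).comp hx).comp hφ.tendsto_atTop
    exact le_of_tendsto_of_tendsto' h2 h1 fun n => e2 (φ n)

theorem not_below_of_high {S : Set E3} {X : E3} (h : ∀ Y ∈ S, Y.1 = X.1 → Y.2 < X.2) :
    X ∉ below S := by
  rintro ⟨Y, hY, e1, e2⟩
  exact absurd (h Y hY e1) (not_lt.2 e2)

/-! ## frames -/

theorem dot_comm (X Y : E3) : dot X Y = dot Y X := by
  unfold dot; rw [ip_comm]; ring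

theorem dot_add_left (X Y Z : E3) : dot (X + Y) Z = dot X Z + dot Y Z := by
  simp only [dot, Prod.fst_add, Prod.snd_add, ip_add_left]; ring

theorem dot_sub_left (X Y Z : E3) : dot (X - Y) Z = dot X Z - dot Y Z := by
  simp only [dot, Prod.fst_sub, Prod.snd_sub, ip_sub_left]; ring

theorem dot_smul_left (t : ℝ) (X Y : E3) : dot (t • X) Y = t * dot X Y := by
  simp only [dot, Prod.smul_fst, Prod.smul_snd, ip_smul_left, smul_eq_mul]; ring

theorem dot_add_right (X Y Z : E3) : dot Z (X + Y) = dot Z X + dot Z Y := by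
  rw [dot_comm, dot_add_left, dot_comm X, dot_comm Y]

theorem dot_sub_right (X Y Z : E3) : dot Z (X - Y) = dot Z X - dot Z Y := by
  rw [dot_comm, dot_sub_left, dot_comm X, dot_comm Y]

theorem dot_smul_right (t : ℝ) (X Y : E3) : dot X (t • Y) = t * dot X Y := by
  rw [dot_comm, dot_smul_left, dot_comm]

/-- the completeness relations of an orthonormal frame -/
structure Frame.Complete (F : Frame) : Prop where
  xx : F.a.1.re ^ 2 + F.b.1.re ^ 2 + F.n.1.re ^ 2 = 1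
  yy : F.a.1.im ^ 2 + F.b.1.im ^ 2 + F.n.1.im ^ 2 = 1
  zz : F.a.2 ^ 2 + F.b.2 ^ 2 + F.n.2 ^ 2 = 1
  xy : F.a.1.re * F.a.1.im + F.b.1.re * F.b.1.im + F.n.1.re * F.n.1.im = 0
  xz : F.a.1.re * F.a.2 + F.b.1.re * F.b.2 + F.n.1.re * F.n.2 = 0
  yz : F.a.1.im * F.a.2 + F.b.1.im * F.b.2 + F.n.1.im * F.n.2 = 0

set_option maxHeartbeats 1000000 in
theorem Frame.complete (F : Frame) : F.Complete := by
  have haa := F.haa
  have hbb := F.hbb
  have hnn := F.hnn
  have hab := F.hab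
  have han := F.han
  have hbn := F.hbn
  simp only [dot, ip] at haa hbb hnn hab han hbn
  let R : Matrix (Fin 3) (Fin 3) ℝ := !![F.a.1.re, F.a.1.im, F.a.2; F.b.1.re, F.b.1.im, F.b.2;
    F.n.1.re, F.n.1.im, F.n.2]
  have h1 : R * R.transpose = 1 := by
    ext i j
    fin_cases i <;> fin_cases j <;>
      simp [R, Matrix.mul_apply, Fin.sum_univ_three] <;> linarith
  have h2 : R.transpose * R = 1 := mul_eq_one_comm.1 h1
  have e : ∀ i j, (R.transpose * R) i j = (1 : Matrix (Fin 3) (Fin 3) ℝ) i j := fun i j => by rw [h2]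
  have e00 := e 0 0
  have e11 := e 1 1
  have e22 := e 2 2
  have e01 := e 0 1
  have e02 := e 0 2
  have e12 := e 1 2
  simp only [Matrix.mul_apply, Fin.sum_univ_three, Matrix.transpose_apply] at e00 e11 e22 e01 e02 e12
  simp [R] at e00 e11 e22 e01 e02 e12
  exact ⟨by linarith, by linarith, by linarith, by linarith, by linarith, by linarith⟩

/-- expansion of a vector in an orthonormal frame -/
theorem Frame.expand (F : Frame) (V : E3) : V = dot V F.a • F.a + dot V F.b • F.b + dot V F.n • F.n := by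
  obtain ⟨xx, yy, zz, xy, xz, yz⟩ := F.complete
  apply Prod.ext
  · apply Complex.ext
    · simp [dot, ip]
      linear_combination (-V.1.re) * xx + (-V.1.im) * xy + (-V.2) * xz
    · simp [dot, ip]
      linear_combination (-V.1.re) * xy + (-V.1.im) * yy + (-V.2) * yz
  · simp [dot, ip]
    linear_combination (-V.1.re) * xz + (-V.1.im) * yz + (-V.2) * zz

/-- the vertical vector in a frame -/
theorem Frame.expand_vert (F : Frame) :
    ((0 : ℂ), (1 : ℝ)) = F.a.2 • F.a + F.b.2 • F.b + F.n.2 • F.n := by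
  have h := F.expand ((0 : ℂ), (1 : ℝ))
  simpa [dot, ip] using h

theorem Frame.dot_pt_sub (F : Frame) (q : E3) (g : ℂ → ℝ) (s : ℂ) :
    dot (F.pt q g s - q) F.a = s.re ∧ dot (F.pt q g s - q) F.b = s.im ∧
      dot (F.pt q g s - q) F.n = g s := by
  have e : F.pt q g s - q = s.re • F.a + s.im • F.b + g s • F.n := by
    unfold Frame.pt; abel
  rw [e]
  simp only [dot_add_left, dot_smul_left]
  rw [dot_comm F.b F.a, dot_comm F.n F.a, dot_comm F.n F.b, F.haa, F.hbb, F.hnn, F.hab, F.han, F.hbn]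
  simp

theorem Frame.pt_injective (F : Frame) (q : E3) (g : ℂ → ℝ) : Function.Injective (F.pt q g) := by
  intro s t h
  have h1 := F.dot_pt_sub q g s
  have h2 := F.dot_pt_sub q g t
  rw [h] at h1
  apply Complex.ext
  · rw [← h1.1, h2.1]
  · rw [← h1.2.1, h2.2.1]

theorem Frame.dot_nor (F : Frame) (g : ℂ → ℝ) (s : ℂ) : dot (F.nor g s) (F.nor g s) = 1 := by
  have hW := W_sq (grad g s)
  have hW0 := W_pos (grad g s)
  unfold Frame.nor
  simp only [dot_smul_left, dot_smul_right, dot_sub_left, dot_sub_right]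
  rw [dot_comm F.b F.a, dot_comm F.n F.a, dot_comm F.n F.b, F.haa, F.hbb, F.hnn, F.hab, F.han, F.hbn]
  have e : (1 - d1 g s * 0 - d2 g s * 0 - d1 g s * (0 - d1 g s * 1 - d2 g s * 0)
      - d2 g s * (0 - d1 g s * 0 - d2 g s * 1)) = W (grad g s) ^ 2 := by
    rw [hW]; simp [grad]; ring
  field_simp
  simp [grad] at hW
  nlinarith [hW]

end Cyl
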