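import Pool.Agent.Cyl.Stmt3
import Pool.Agent.Cyl.Base

/-!
# Patch API
-/

open MeasureTheory Set Filter Topology Metric
open scoped ContDiff

noncomputable section

namespace Cyl

universe u

/-! ## calculus in the plane -/

theorem fderiv_re_im (g : ℂ → ℝ) (s v : ℂ) :
    fderiv ℝ g s v = v.re * d1 g s + v.im * d2 g s := by
  have e : v = v.re • (1 : ℂ) + v.im • Complex.I := by
    apply Complex.ext <;> simp
  conv_lhs => rw [e]
  rw [map_add, map_smul, map_smul]
  simp [d1, d2]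

theorem fderiv_ip (g : ℂ → ℝ) (s v : ℂ) : fderiv ℝ g s v = ip (grad g s) v := by
  rw [fderiv_re_im]; simp [ip, grad]; ring

theorem contDiffOn_fderiv_apply {U : Set ℂ} (hU : IsOpen U) {g : ℂ → ℝ} (hg : ContDiffOn ℝ ∞ g U)
    (v : ℂ) : ContDiffOn ℝ ∞ (fun s => fderiv ℝ g s v) U := by
  have h : ContDiffOn ℝ ∞ (fderiv ℝ g) U := hg.fderiv_of_isOpen hU (by simp)
  exact h.clm_apply contDiffOn_const

theorem contDiffOn_d1 {U : Set ℂ} (hU : IsOpen U) {g : ℂ → ℝ} (hg : ContDiffOn ℝ ∞ g U) :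
    ContDiffOn ℝ ∞ (d1 g) U := contDiffOn_fderiv_apply hU hg 1

theorem contDiffOn_d2 {U : Set ℂ} (hU : IsOpen U) {g : ℂ → ℝ} (hg : ContDiffOn ℝ ∞ g U) :
    ContDiffOn ℝ ∞ (d2 g) U := contDiffOn_fderiv_apply hU hg Complex.I

theorem grad_eq_smul (g : ℂ → ℝ) (s : ℂ) : grad g s = d1 g s • (1 : ℂ) + d2 g s • Complex.I := by
  apply Complex.ext <;> simp [grad]

theorem contDiffOn_grad {U : Set ℂ} (hU : IsOpen U) {g : ℂ → ℝ} (hg : ContDiffOn ℝ ∞ g U) :
    ContDiffOn ℝ ∞ (grad g) U := by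
  have h : grad g = fun s => d1 g s • (1 : ℂ) + d2 g s • Complex.I := funext (grad_eq_smul g)
  rw [h]
  exact ((contDiffOn_d1 hU hg).smul contDiffOn_const).add
    ((contDiffOn_d2 hU hg).smul contDiffOn_const)

theorem contDiffOn_mc {U : Set ℂ} (hU : IsOpen U) {g : ℂ → ℝ} (hg : ContDiffOn ℝ ∞ g U) :
    ContDiffOn ℝ ∞ (mc g) U := by
  have h1 := contDiffOn_d1 hU hg
  have h2 := contDiffOn_d2 hU hg
  have h11 := contDiffOn_d1 hU h1
  have h12 := contDiffOn_d2 hU h1
  have h22 := contDiffOn_d2 hU h2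
  have hW : ContDiffOn ℝ ∞ (fun s => W (grad g s)) U :=
    contDiff_W.comp_contDiffOn (contDiffOn_grad hU hg)
  have e : mc g = fun s => ((1 + d2 g s ^ 2) * d1 (d1 g) s - 2 * d1 g s * d2 g s * d2 (d1 g) s
      + (1 + d1 g s ^ 2) * d2 (d2 g) s) / (W (grad g s)) ^ 3 := rfl
  rw [e]
  apply ContDiffOn.div
  · exact (((contDiffOn_const.add (h2.pow 2)).mul h11).sub
      (((contDiffOn_const.mul h1).mul h2).mul h12)).add ((contDiffOn_const.add (h1.pow 2)).mul h22)
  · exact hW.pow 3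
  · intro s _
    exact pow_ne_zero _ (W_pos _).ne'

/-- the graph map is smooth -/
theorem Frame.contDiffOn_pt (F : Frame) (q : E3) {U : Set ℂ} {g : ℂ → ℝ}
    (hg : ContDiffOn ℝ ∞ g U) : ContDiffOn ℝ ∞ (F.pt q g) U := by
  have hre : ContDiff ℝ ∞ (fun p : ℂ => p.re) := Complex.reCLM.contDiff
  have him : ContDiff ℝ ∞ (fun p : ℂ => p.im) := Complex.imCLM.contDiff
  unfold Frame.pt
  exact ((contDiffOn_const.add (hre.contDiffOn.smul contDiffOn_const)).add
    (him.contDiffOn.smul contDiffOn_const)).add (hg.smul contDiffOn_const)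

/-- the unit normal is smooth -/
theorem Frame.contDiffOn_nor (F : Frame) {U : Set ℂ} (hU : IsOpen U) {g : ℂ → ℝ}
    (hg : ContDiffOn ℝ ∞ g U) : ContDiffOn ℝ ∞ (F.nor g) U := by
  have h1 := contDiffOn_d1 hU hg
  have h2 := contDiffOn_d2 hU hg
  have hW : ContDiffOn ℝ ∞ (fun s => W (grad g s)) U :=
    contDiff_W.comp_contDiffOn (contDiffOn_grad hU hg)
  unfold Frame.nor
  exact (hW.inv fun s _ => (W_pos _).ne').smul ((contDiffOn_const.sub (h1.smul contDiffOn_const)).sub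
    (h2.smul contDiffOn_const))

/-- derivative of the graph map -/
theorem Frame.hasFDerivAt_pt (F : Frame) (q : E3) {g : ℂ → ℝ} {s : ℂ}
    (hg : DifferentiableAt ℝ g s) :
    HasFDerivAt (F.pt q g) ((Complex.reCLM.smulRight (F.X1 g s)) +
      (Complex.imCLM.smulRight (F.X2 g s))) s := by
  have h1 : HasFDerivAt (fun p : ℂ => p.re) Complex.reCLM s := Complex.reCLM.hasFDerivAt
  have h2 : HasFDerivAt (fun p : ℂ => p.im) Complex.imCLM s := Complex.imCLM.hasFDerivAt
  have h3 := ((((hasFDerivAt_const q s).add (h1.smul_const F.a)).add (h2.smul_const F.b)).add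
    (hg.hasFDerivAt.smul_const F.n))
  refine HasFDerivAt.congr_fderiv h3 ?_
  ext v
  all_goals
    simp [Frame.X1, Frame.X2, fderiv_re_im, ContinuousLinearMap.smulRight_apply]
    try ring

section patch

variable {M : Type u} [TopologicalSpace M]
variable {f N : M → E3} {bd : Set M} {H : ℝ} {q q' : M} {F : Frame} {r : ℝ} {g : ℂ → ℝ}
  {R : Set ℂ} {e : PartialEquiv M ℂ} {s : ℂ}

theorem Patch.symm_zero (h : Patch f N H q F r g R e) : e.symm 0 = q := by
  rw [← h.map_zero]; exact e.left_inv h.mem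

theorem Patch.zero_mem (h : Patch f N H q F r g R e) : (0 : ℂ) ∈ R := by
  rw [← h.target, ← h.map_zero]; exact e.map_source h.mem

theorem Patch.map_mem (h : Patch f N H q F r g R e) (hq : q' ∈ e.source) : e q' ∈ R := by
  rw [← h.target]; exact e.map_source hq

theorem Patch.symm_mem (h : Patch f N H q F r g R e) (hs : s ∈ R) : e.symm s ∈ e.source := by
  apply e.map_target; rw [h.target]; exact hs

theorem Patch.right_inv (h : Patch f N H q F r g R e) (hs : s ∈ R) : e (e.symm s) = s := by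
  apply e.right_inv; rw [h.target]; exact hs

theorem Patch.f_eq (h : Patch f N H q F r g R e) (hq : q' ∈ e.source) :
    f q' = F.pt (f q) g (e q') := by
  have := h.param (e q') (h.map_mem hq)
  rwa [e.left_inv hq] at this

theorem Patch.N_eq (h : Patch f N H q F r g R e) (hq : q' ∈ e.source) :
    N q' = F.nor g (e q') := by
  have := h.normal (e q') (h.map_mem hq)
  rwa [e.left_inv hq] at this

theorem Patch.d1_zero (h : Patch f N H q F r g R e) : d1 g 0 = 0 := by
  have := congrArg Complex.re h.grad_zero; simpa [grad] using this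

theorem Patch.d2_zero (h : Patch f N H q F r g R e) : d2 g 0 = 0 := by
  have := congrArg Complex.im h.grad_zero; simpa [grad] using this

/-- at the centre of a patch the normal is the third frame vector -/
theorem Patch.normal_center (h : Patch f N H q F r g R e) : N q = F.n := by
  have := h.normal 0 h.zero_mem
  rw [h.symm_zero] at this
  rw [this, Frame.nor, h.grad_zero, h.d1_zero, h.d2_zero, W_zero]
  simp

theorem Patch.injOn (h : Patch f N H q F r g R e) : InjOn f e.source := by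
  intro x hx y hy hxy
  rw [h.f_eq hx, h.f_eq hy] at hxy
  exact e.injOn hx hy (F.pt_injective _ _ hxy)

theorem Patch.tendsto_symm (h : Patch f N H q F r g R e) (hs : s ∈ R) :
    Tendsto e.symm (𝓝[R] s) (𝓝 (e.symm s)) := by
  have := h.cont_symm s (by rw [h.target]; exact hs)
  rwa [ContinuousWithinAt, h.target] at this

theorem Patch.tendsto (h : Patch f N H q F r g R e) (hq : q' ∈ e.source) :
    Tendsto e (𝓝 q') (𝓝[R] (e q')) := by
  have h1 : ContinuousAt e q' := h.cont.continuousAt (h.isOpen.mem_nhds hq)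
  apply tendsto_nhdsWithin_of_tendsto_nhds_of_eventually_within _ h1
  filter_upwards [h.isOpen.mem_nhds hq] with x hx
  exact h.map_mem hx

/-- images of relative neighbourhoods under the parametrisation are neighbourhoods -/
theorem Patch.image_mem_nhds (h : Patch f N H q F r g R e) (hq : q' ∈ e.source) {O : Set ℂ}
    (hO : O ∈ 𝓝[R] (e q')) : e.symm '' (R ∩ O) ∈ 𝓝 q' := by
  filter_upwards [h.tendsto hq hO, h.isOpen.mem_nhds hq] with x hx hx'
  exact ⟨e x, ⟨h.map_mem hx', hx⟩, e.left_inv hx'⟩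

theorem Patch.image_ball_mem_nhds (h : Patch f N H q F r g R e) {ε : ℝ} (hε : 0 < ε) :
    e.symm '' (R ∩ ball 0 ε) ∈ 𝓝 q := by
  apply h.image_mem_nhds h.mem
  rw [h.map_zero]
  exact mem_nhdsWithin_of_mem_nhds (ball_mem_nhds 0 hε)

/-- small images -/
theorem Patch.exists_ball (h : Patch f N H q F r g R e) {V : Set M} (hV : V ∈ 𝓝 q) :
    ∃ ε > 0, ∀ s ∈ R, ‖s‖ < ε → e.symm s ∈ V := by
  have h1 := h.tendsto_symm h.zero_mem
  rw [h.symm_zero] at h1
  have h2 := h1 hV
  rw [mem_map, mem_nhdsWithin_iff] at h2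
  obtain ⟨ε, hε, h3⟩ := h2
  refine ⟨ε, hε, fun s hs hs' => h3 ⟨by simpa using hs', hs⟩⟩

/-- small images around an arbitrary point of the patch -/
theorem Patch.exists_ball' (h : Patch f N H q F r g R e) (hq : q' ∈ e.source) {V : Set M}
    (hV : V ∈ 𝓝 q') : ∃ ε > 0, ∀ s ∈ R, ‖s - e q'‖ < ε → e.symm s ∈ V := by
  have h1 := h.tendsto_symm (h.map_mem hq)
  rw [e.left_inv hq] at h1
  have h2 := h1 hV
  rw [mem_map, mem_nhdsWithin_iff] at h2
  obtain ⟨ε, hε, h3⟩ := h2
  refine ⟨ε, hε, fun s hs hs' => h3 ⟨by simpa [dist_eq_norm] using hs', hs⟩⟩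

/-- shrinking a patch -/
theorem Patch.shrink (h : Patch f N H q F r g R e) {r' : ℝ} (hr' : 0 < r') (hrr : r' ≤ r) :
    Patch f N H q F r' g (R ∩ ball 0 r') (e.restr (e ⁻¹' ball 0 r')) := by
  have htgt : (e.restr (e ⁻¹' ball 0 r')).target = R ∩ ball 0 r' := by
    rw [PartialEquiv.restr_target, h.target]
    ext t
    constructor
    · rintro ⟨h1, h2⟩
      refine ⟨h1, ?_⟩
      simpa [h.right_inv h1] using h2
    · rintro ⟨h1, h2⟩
      refine ⟨h1, ?_⟩
      simpa [h.right_inv h1] using h2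
  have hsrc : (e.restr (e ⁻¹' ball 0 r')).source = e.source ∩ e ⁻¹' ball 0 r' := by
    rw [PartialEquiv.restr_source]
  refine ⟨hr', h.smooth.mono (ball_subset_ball hrr), h.g_zero, h.grad_zero, ?_, htgt, ?_, ?_, ?_,
    ?_, ?_, ?_, ?_⟩
  · rw [hsrc]; exact h.cont.isOpen_inter_preimage h.isOpen isOpen_ball
  · rw [hsrc]; exact h.cont.mono inter_subset_left
  · rw [htgt]
    exact h.cont_symm.mono (by rw [h.target]; exact inter_subset_left)
  · rw [hsrc]; refine ⟨h.mem, ?_⟩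
    rw [mem_preimage, h.map_zero]; simpa using hr'
  · exact h.map_zero
  · intro s hs; exact h.param s hs.1
  · intro s hs; exact h.normal s hs.1
  · intro s hs; exact h.mean s hs.1

theorem IntPatch.shrink (h : IntPatch f N bd H q F r g e) {r' : ℝ} (hr' : 0 < r') (hrr : r' ≤ r) :
    IntPatch f N bd H q F r' g (e.restr (e ⁻¹' ball 0 r')) := by
  refine ⟨?_, ?_⟩
  · have := h.1.shrink hr' hrr
    rwa [inter_eq_right.2 (ball_subset_ball hrr)] at this
  · rw [PartialEquiv.restr_source]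
    exact h.2.mono_left inter_subset_left

theorem halfDisc_inter {r r' : ℝ} (hrr : r' ≤ r) (β : ℝ → ℝ) :
    halfDisc r β ∩ ball 0 r' = halfDisc r' β := by
  ext s
  constructor
  · rintro ⟨⟨_, h2⟩, h3⟩; exact ⟨h3, h2⟩
  · rintro ⟨h1, h2⟩; exact ⟨⟨ball_subset_ball hrr h1, h2⟩, h1⟩

theorem BdPatch.shrink {β : ℝ → ℝ} (h : BdPatch f N bd H q F r g β e) {r' : ℝ} (hr' : 0 < r')
    (hrr : r' ≤ r) : BdPatch f N bd H q F r' g β (e.restr (e ⁻¹' ball 0 r')) := by
  refine ⟨?_, h.2.1, h.2.2.1, h.2.2.2.1, ?_⟩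
  · have := h.1.shrink hr' hrr
    rwa [halfDisc_inter hrr] at this
  · intro s hs
    exact h.2.2.2.2 s ⟨ball_subset_ball hrr hs.1, hs.2⟩

theorem BdPatch.mem_bd {β : ℝ → ℝ} (h : BdPatch f N bd H q F r g β e) : q ∈ bd := by
  have := (h.2.2.2.2 0 h.1.zero_mem).2 (by simp [h.2.2.1])
  rwa [h.1.symm_zero] at this

theorem AnyPatch.patch (h : AnyPatch f N bd H q F r g R e) : Patch f N H q F r g R e := by
  rcases h with ⟨rfl, h⟩ | ⟨β, rfl, h⟩
  · exact h.1
  · exact h.1

theorem AnyPatch.subset_ball (h : AnyPatch f N bd H q F r g R e) : R ⊆ ball 0 r := by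
  rcases h with ⟨rfl, h⟩ | ⟨β, rfl, h⟩
  · exact subset_rfl
  · exact fun s hs => hs.1

theorem AnyPatch.shrink (h : AnyPatch f N bd H q F r g R e) {r' : ℝ} (hr' : 0 < r')
    (hrr : r' ≤ r) : AnyPatch f N bd H q F r' g (R ∩ ball 0 r') (e.restr (e ⁻¹' ball 0 r')) := by
  rcases h with ⟨rfl, h⟩ | ⟨β, rfl, h⟩
  · left
    exact ⟨inter_eq_right.2 (ball_subset_ball hrr), h.shrink hr' hrr⟩
  · right
    exact ⟨β, halfDisc_inter hrr β, h.shrink hr' hrr⟩

theorem CMC.anyPatch (h : CMC f N bd H) (q : M) : ∃ F r g R e, AnyPatch f N bd H q F r g R e := by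
  by_cases hq : q ∈ bd
  · obtain ⟨F, r, g, β, e, h1⟩ := h.boundary q hq
    exact ⟨F, r, g, _, e, Or.inr ⟨β, rfl, h1⟩⟩
  · obtain ⟨F, r, g, e, h1⟩ := h.interior q hq
    exact ⟨F, r, g, _, e, Or.inl ⟨rfl, h1⟩⟩

end patch

end Cyl
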