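import Pool.Agent.Cyl.Base

/-!
# Change of variables in Fermi coordinates
-/

open MeasureTheory Set Filter Topology Metric
open scoped ContDiff

noncomputable section

namespace Cyl

variable {D : Set ℂ} {γ : ℝ → ℂ} {L : ℝ}

namespace Chvar

theorem hasDerivAt_g (h : ConvexCurve D γ L) (θ : ℝ) : HasDerivAt γ (deriv γ θ) θ :=
  ((h.smooth.differentiable (by simp)) θ).hasDerivAt

theorem contDiff_dg (h : ConvexCurve D γ L) : ContDiff ℝ ∞ (deriv γ) := by
  have := h.smooth
  exact (contDiff_infty_iff_deriv.1 this).2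

theorem hasDerivAt_dg (h : ConvexCurve D γ L) (θ : ℝ) :
    HasDerivAt (deriv γ) (deriv (deriv γ) θ) θ :=
  (((contDiff_dg h).differentiable (by simp)) θ).hasDerivAt

theorem hasDerivAt_re {f : ℝ → ℂ} {f' : ℂ} {θ : ℝ} (h : HasDerivAt f f' θ) :
    HasDerivAt (fun s => (f s).re) f'.re θ :=
  Complex.reCLM.hasFDerivAt.comp_hasDerivAt θ h

theorem hasDerivAt_im {f : ℝ → ℂ} {f' : ℂ} {θ : ℝ} (h : HasDerivAt f f' θ) :
    HasDerivAt (fun s => (f s).im) f'.im θ :=
  Complex.imCLM.hasFDerivAt.comp_hasDerivAt θ h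

theorem sq_one (h : ConvexCurve D γ L) (θ : ℝ) :
    (deriv γ θ).re * (deriv γ θ).re + (deriv γ θ).im * (deriv γ θ).im = 1 := by
  have h1 : ip (deriv γ θ) (deriv γ θ) = 1 := by rw [ip_self, h.unit]; norm_num
  exact h1

theorem perp (h : ConvexCurve D γ L) (θ : ℝ) :
    (deriv γ θ).re * (deriv (deriv γ) θ).re + (deriv γ θ).im * (deriv (deriv γ) θ).im = 0 := by
  have h1 := hasDerivAt_re (hasDerivAt_dg h θ)
  have h2 := hasDerivAt_im (hasDerivAt_dg h θ)
  have h3 := (h1.mul h1).add (h2.mul h2)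
  have h4 : HasDerivAt (fun s => (deriv γ s).re * (deriv γ s).re + (deriv γ s).im * (deriv γ s).im)
      0 θ := by
    have : (fun s => (deriv γ s).re * (deriv γ s).re + (deriv γ s).im * (deriv γ s).im)
        = fun _ => (1 : ℝ) := by
      funext s
      exact sq_one h s
    rw [this]
    exact hasDerivAt_const θ 1
  have h5 := h3.unique h4
  linarith

theorem ddg_re (h : ConvexCurve D γ L) (θ : ℝ) :
    (deriv (deriv γ) θ).re = - kap γ θ * (deriv γ θ).im := by
  have h1 := sq_one h θ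
  have h2 := perp h θ
  unfold kap ip
  simp only [Complex.mul_re, Complex.mul_im, Complex.I_re, Complex.I_im]
  set a := (deriv γ θ).re
  set b := (deriv γ θ).im
  set c := (deriv (deriv γ) θ).re
  set d := (deriv (deriv γ) θ).im
  have : c = (a * a + b * b) * c := by rw [h1]; ring
  linear_combination this + a * h2

theorem ddg_im (h : ConvexCurve D γ L) (θ : ℝ) :
    (deriv (deriv γ) θ).im = kap γ θ * (deriv γ θ).re := by
  have h1 := sq_one h θ
  have h2 := perp h θ
  unfold kap ip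
  simp only [Complex.mul_re, Complex.mul_im, Complex.I_re, Complex.I_im]
  set a := (deriv γ θ).re
  set b := (deriv γ θ).im
  set c := (deriv (deriv γ) θ).re
  set d := (deriv (deriv γ) θ).im
  have : d = (a * a + b * b) * d := by rw [h1]; ring
  linear_combination this + b * h2

/-- Fermi coordinates as a map of `ℝ × ℝ`. -/
def Psi (γ : ℝ → ℂ) (z : ℝ × ℝ) : ℝ × ℝ :=
  ((γ z.1).re + z.2 * (deriv γ z.1).im, (γ z.1).im - z.2 * (deriv γ z.1).re)

theorem Psi_eq (γ : ℝ → ℂ) (z : ℝ × ℝ) :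
    Complex.measurableEquivRealProd.symm (Psi γ z) = Phi γ z.1 z.2 := by
  apply Complex.ext
  · simp [Psi, Phi]
  · simp [Psi, Phi]

/-- Its derivative. -/
def dPsi (γ : ℝ → ℂ) (z : ℝ × ℝ) : ℝ × ℝ →L[ℝ] ℝ × ℝ :=
  (Matrix.toLin (.finTwoProd ℝ) (.finTwoProd ℝ)
    !![(1 + kap γ z.1 * z.2) * (deriv γ z.1).re, (deriv γ z.1).im;
      (1 + kap γ z.1 * z.2) * (deriv γ z.1).im, -(deriv γ z.1).re]).toContinuousLinearMap

theorem hasFDerivAt_Psi (h : ConvexCurve D γ L) (z : ℝ × ℝ) :
    HasFDerivAt (Psi γ) (dPsi γ z) z := by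
  unfold dPsi
  rw [Matrix.toLin_finTwoProd_toContinuousLinearMap]
  have h1 := (hasDerivAt_re (hasDerivAt_g h z.1)).comp_hasFDerivAt z (hasFDerivAt_fst (𝕜 := ℝ))
  have h2 := (hasDerivAt_im (hasDerivAt_g h z.1)).comp_hasFDerivAt z (hasFDerivAt_fst (𝕜 := ℝ))
  have h3 := (hasDerivAt_re (hasDerivAt_dg h z.1)).comp_hasFDerivAt z (hasFDerivAt_fst (𝕜 := ℝ))
  have h4 := (hasDerivAt_im (hasDerivAt_dg h z.1)).comp_hasFDerivAt z (hasFDerivAt_fst (𝕜 := ℝ))
  have h5 := h1.add ((hasFDerivAt_snd (𝕜 := ℝ) (p := z)).mul h4)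
  have h6 := h2.sub ((hasFDerivAt_snd (𝕜 := ℝ) (p := z)).mul h3)
  have h7 := h5.prodMk h6
  refine h7.congr_fderiv ?_
  apply ContinuousLinearMap.ext
  intro w
  apply Prod.ext
  · simp only [Function.comp, ContinuousLinearMap.prod_apply, add_apply,
      smul_apply, ContinuousLinearMap.coe_fst', ContinuousLinearMap.coe_snd',
      smul_eq_mul]
    rw [ddg_im h]
    ring
  · simp only [Function.comp, ContinuousLinearMap.prod_apply, add_apply,
      sub_apply,
      smul_apply, ContinuousLinearMap.coe_fst', ContinuousLinearMap.coe_snd',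
      smul_eq_mul]
    rw [ddg_re h]
    ring

theorem det_dPsi (h : ConvexCurve D γ L) (z : ℝ × ℝ) :
    (dPsi γ z).det = -(1 + kap γ z.1 * z.2) := by
  unfold dPsi
  simp only [LinearMap.det_toContinuousLinearMap, LinearMap.det_toLin, Matrix.det_fin_two_of]
  have h1 := sq_one h z.1
  linear_combination -(1 + kap γ z.1 * z.2) * h1

theorem continuous_sd (D : Set ℂ) : Continuous (sd D) :=
  (continuous_infDist_pt D).sub (continuous_infDist_pt Dᶜ)

end Chvar

open Chvar

theorem CHVAR_holds : ChangeVarStatement := by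
  intro D γ L t₀ h ht ρ _hρ F hF
  set T : Set ℂ := {x | -t₀ < sd D x ∧ sd D x < ρ} with hT
  have hTo : IsOpen T :=
    (isOpen_lt continuous_const (continuous_sd D)).inter
      (isOpen_lt (continuous_sd D) continuous_const)
  set S' : Set (ℝ × ℝ) := Ico 0 L ×ˢ Ioo (-t₀) ρ with hS'
  have hS'm : MeasurableSet S' := measurableSet_Ico.prod measurableSet_Ioo
  have hinj : InjOn (Psi γ) S' := by
    intro z hz w hw hzw
    refine ht.inj ⟨hz.1, hz.2.1⟩ ⟨hw.1, hw.2.1⟩ ?_
    simp only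
    rw [← Psi_eq, ← Psi_eq, hzw]
  have himg : Complex.measurableEquivRealProd.symm ⁻¹' T = Psi γ '' S' := by
    ext w
    constructor
    · intro hw
      have hw' : -t₀ < sd D (Complex.measurableEquivRealProd.symm w) ∧
        sd D (Complex.measurableEquivRealProd.symm w) < ρ := hw
      obtain ⟨θ, hθ, hx⟩ := ht.surj _ hw'.1
      refine ⟨(θ, sd D (Complex.measurableEquivRealProd.symm w)), ⟨hθ, hw'⟩, ?_⟩
      apply Complex.measurableEquivRealProd.symm.injective
      rw [Psi_eq]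
      exact hx.symm
    · rintro ⟨z, hz, rfl⟩
      show -t₀ < sd D (Complex.measurableEquivRealProd.symm (Psi γ z)) ∧
        sd D (Complex.measurableEquivRealProd.symm (Psi γ z)) < ρ
      rw [Psi_eq, ht.sd_Phi _ _ hz.2.1]
      exact hz.2
  have h1 := Complex.volume_preserving_equiv_real_prod.symm.setLIntegral_comp_preimage
    hTo.measurableSet hF
  rw [← h1, himg, lintegral_image_eq_lintegral_abs_det_fderiv_mul volume hS'm
    (fun z _ => (hasFDerivAt_Psi h z).hasFDerivWithinAt) hinj]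
  have h2 : (volume : Measure (ℝ × ℝ)).restrict S'
      = (volume : Measure (ℝ × ℝ)).restrict (Ioo 0 L ×ˢ Ioo (-t₀) ρ) := by
    rw [hS', Measure.volume_eq_prod, ← Measure.prod_restrict, ← Measure.prod_restrict]
    rw [Measure.restrict_congr_set Ioo_ae_eq_Ico.symm]
  rw [h2]
  refine setLIntegral_congr_fun (measurableSet_Ioo.prod measurableSet_Ioo) fun z hz => ?_
  rw [Psi_eq, det_dPsi h, abs_neg, mul_comm]
  have h3 := ht.jac z.1 z.2 hz.2.1
  rw [abs_of_pos (by linarith)]

end Cyl
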