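import Pool.Agent.Cyl.Base2

/-!
# Module CLA: the angle form is closed
-/

open MeasureTheory Set Filter Topology Metric
open scoped ContDiff

noncomputable section

namespace Cyl

universe u

namespace Cla

theorem hasDerivAt_line {f : ℂ → ℝ} {s : ℂ} (hf : DifferentiableAt ℝ f s) (v : ℂ) :
    HasDerivAt (fun τ : ℝ => f (s + τ • v)) (fderiv ℝ f s v) 0 :=
  hf.hasFDerivAt.hasLineDerivAt v

/-- derivative of the angle form in the direction `v` -/
theorem fderiv_form {X Y U V : ℂ → ℝ} {s v : ℂ} (hX : DifferentiableAt ℝ X s)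
    (hY : DifferentiableAt ℝ Y s) (hU : DifferentiableAt ℝ U s) (hV : DifferentiableAt ℝ V s)
    (hn : X s ^ 2 + Y s ^ 2 ≠ 0) :
    fderiv ℝ (fun t => (X t * V t - Y t * U t) / (X t ^ 2 + Y t ^ 2)) s v =
      ((fderiv ℝ X s v * V s + X s * fderiv ℝ V s v
          - (fderiv ℝ Y s v * U s + Y s * fderiv ℝ U s v)) * (X s ^ 2 + Y s ^ 2)
        - (X s * V s - Y s * U s) * (2 * X s * fderiv ℝ X s v + 2 * Y s * fderiv ℝ Y s v))
        / (X s ^ 2 + Y s ^ 2) ^ 2 := by
  have hd : DifferentiableAt ℝ (fun t => (X t * V t - Y t * U t) / (X t ^ 2 + Y t ^ 2)) s := by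
    have h0 : DifferentiableAt ℝ (fun t => (X t ^ 2 + Y t ^ 2)⁻¹) s :=
      ((hX.fun_pow 2).fun_add (hY.fun_pow 2)).fun_inv hn
    simp only [div_eq_mul_inv]
    exact ((hX.fun_mul hV).fun_sub (hY.fun_mul hU)).fun_mul h0
  have h1 := hasDerivAt_line hd v
  have hX' := hasDerivAt_line hX v
  have hY' := hasDerivAt_line hY v
  have hU' := hasDerivAt_line hU v
  have hV' := hasDerivAt_line hV v
  have hn' : (fun τ : ℝ => X (s + τ • v)) 0 ^ 2 + (fun τ : ℝ => Y (s + τ • v)) 0 ^ 2 ≠ 0 := by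
    simpa using hn
  have h2 := ((hX'.mul hV').sub (hY'.mul hU')).div ((hX'.pow 2).add (hY'.pow 2)) hn'
  have h3 := h1.unique h2
  rw [h3]
  simp

theorem two_le_inf : (2 : WithTop ℕ∞) ≤ ∞ := ENat.LEInfty.out

theorem d_symm {g : ℂ → ℝ} {s : ℂ} (hg : ContDiffAt ℝ ∞ g s) :
    fderiv ℝ (d2 g) s 1 = fderiv ℝ (d1 g) s Complex.I := by
  have h1 : IsSymmSndFDerivAt ℝ g s := by
    apply hg.isSymmSndFDerivAt
    rw [minSmoothness_of_isRCLikeNormedField]
    exact two_le_inf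
  have h2 : DifferentiableAt ℝ (fderiv ℝ g) s := by
    have h3 : ContDiffAt ℝ 1 (fderiv ℝ g) s := hg.fderiv_right (by
      rw [one_add_one_eq_two]; exact two_le_inf)
    exact h3.differentiableAt (by simp)
  have h4 : ∀ v w : ℂ, fderiv ℝ (fun t => fderiv ℝ g t v) s w = fderiv ℝ (fderiv ℝ g) s w v := by
    intro v w
    have h5 := (h2.hasFDerivAt.clm_apply (hasFDerivAt_const v s)).fderiv
    rw [h5]
    simp
  show fderiv ℝ (fun t => fderiv ℝ g t Complex.I) s 1 = fderiv ℝ (fun t => fderiv ℝ g t 1) s Complex.I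
  rw [h4, h4]
  exact h1 1 Complex.I

/-- derivative of an affine function of `(s, g s)` -/
theorem fderiv_aff {g : ℂ → ℝ} {s : ℂ} (hg : DifferentiableAt ℝ g s) (c a b n : ℝ) (v : ℂ) :
    DifferentiableAt ℝ (fun t : ℂ => c + t.re * a + t.im * b + g t * n) s ∧
    fderiv ℝ (fun t : ℂ => c + t.re * a + t.im * b + g t * n) s v
      = v.re * a + v.im * b + fderiv ℝ g s v * n := by
  have h1 : HasFDerivAt (fun p : ℂ => p.re) Complex.reCLM s := Complex.reCLM.hasFDerivAt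
  have h2 : HasFDerivAt (fun p : ℂ => p.im) Complex.imCLM s := Complex.imCLM.hasFDerivAt
  have h3 := (((h1.mul_const a).const_add c).add (h2.mul_const b)).add (hg.hasFDerivAt.mul_const n)
  refine ⟨h3.differentiableAt, ?_⟩
  have h4 := h3.fderiv
  have h5 : fderiv ℝ (fun t : ℂ => c + t.re * a + t.im * b + g t * n) s = _ := h4
  rw [h5]
  simp
  ring

theorem fderiv_aff' {g : ℂ → ℝ} {s : ℂ} (hg : DifferentiableAt ℝ g s) (c n : ℝ) (v : ℂ) :
    DifferentiableAt ℝ (fun t : ℂ => c + g t * n) s ∧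
    fderiv ℝ (fun t : ℂ => c + g t * n) s v = fderiv ℝ g s v * n := by
  have h3 := (hg.hasFDerivAt.mul_const n).const_add c
  refine ⟨h3.differentiableAt, ?_⟩
  have h4 := h3.fderiv
  have h5 : fderiv ℝ (fun t : ℂ => c + g t * n) s = _ := h4
  rw [h5]
  simp
  ring

end Cla

open Cla

theorem CLA_holds : ClosedAngleStatement := by
  intro M _ _ _ S x₀ hx q
  obtain ⟨F, r, g, R, e, hp⟩ := S.surf.anyPatch q
  have hP := hp.patch
  set P : ℂ → ℂ := fun s => (F.pt (S.f q) g s).1 with hPdef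
  have hPs : ContDiffOn ℝ ∞ P (ball 0 r) :=
    (contDiff_fst.comp_contDiffOn (F.contDiffOn_pt (S.f q) hP.smooth))
  have hP0 : P 0 ≠ x₀ := by
    have h1 : F.pt (S.f q) g 0 = S.f q := by
      simp [Frame.pt, hP.g_zero]
    rw [hPdef]
    simp only
    rw [h1]
    exact hx q
  have hPc : ContinuousAt P 0 :=
    hPs.continuousOn.continuousAt (ball_mem_nhds _ hP.r_pos)
  have hev : ∀ᶠ s in 𝓝 (0 : ℂ), P s ≠ x₀ := hPc.eventually_ne hP0
  obtain ⟨ε, hε, hball⟩ := Metric.eventually_nhds_iff_ball.1 hev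
  set r' := min r ε with hr'
  have hr'0 : 0 < r' := lt_min hP.r_pos hε
  have hr'r : r' ≤ r := min_le_left _ _
  have hne : ∀ s ∈ ball (0 : ℂ) r', P s ≠ x₀ := fun s hs =>
    hball s (ball_subset_ball (min_le_right _ _) hs)
  have hsub : ball (0 : ℂ) r' ⊆ ball 0 r := ball_subset_ball hr'r
  set Z : ℂ → ℂ := fun s => Complex.I * ((((‖P s - x₀‖ ^ 2)⁻¹ : ℝ) : ℂ) * (P s - x₀)) with hZ
  refine ⟨F, r', g, _, _, hp.shrink hr'0 hr'r, Z, ?_, ?_, ?_⟩
  · have h1 : ContDiffOn ℝ 1 P (ball 0 r') := (hPs.mono hsub).of_le (by exact_mod_cast le_top)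
    have h2 : ContDiffOn ℝ 1 (fun s => P s - x₀) (ball 0 r') := h1.sub contDiffOn_const
    have h3 : ContDiffOn ℝ 1 (fun s => (‖P s - x₀‖ ^ 2)⁻¹) (ball 0 r') := by
      refine (h2.norm_sq ℝ).inv ?_
      intro s hs
      have := hne s hs
      have h4 : P s - x₀ ≠ 0 := sub_ne_zero.2 this
      positivity
    have h5 : ContDiffOn ℝ 1 (fun s => (((‖P s - x₀‖ ^ 2)⁻¹ : ℝ) : ℂ)) (ball 0 r') :=
      Complex.ofRealCLM.contDiff.comp_contDiffOn h3
    exact contDiffOn_const.mul (h5.mul h2)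
  · rintro s ⟨hs, _⟩
    show Complex.I * ((((‖(S.f (e.symm s)).1 - x₀‖ ^ 2)⁻¹ : ℝ) : ℂ) * ((S.f (e.symm s)).1 - x₀)) = Z s
    rw [hP.param s hs]
  · rintro s ⟨_, hs⟩
    have hgs : ContDiffAt ℝ ∞ g s :=
      hP.smooth.contDiffAt (isOpen_ball.mem_nhds (hsub hs))
    have hgd : DifferentiableAt ℝ g s := hgs.differentiableAt (by simp)
    have h1d : DifferentiableAt ℝ (d1 g) s :=
      ((contDiffOn_d1 isOpen_ball hP.smooth).contDiffAt
        (isOpen_ball.mem_nhds (hsub hs))).differentiableAt (by simp)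
    have h2d : DifferentiableAt ℝ (d2 g) s :=
      ((contDiffOn_d2 isOpen_ball hP.smooth).contDiffAt
        (isOpen_ball.mem_nhds (hsub hs))).differentiableAt (by simp)
    set X : ℂ → ℝ := fun t => ((S.f q).1.re - x₀.re) + t.re * F.a.1.re + t.im * F.b.1.re
      + g t * F.n.1.re with hX
    set Y : ℂ → ℝ := fun t => ((S.f q).1.im - x₀.im) + t.re * F.a.1.im + t.im * F.b.1.im
      + g t * F.n.1.im with hY
    have hXe : ∀ t, X t = (P t - x₀).re := by
      intro t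
      simp [hX, hPdef, Frame.pt]
      ring
    have hYe : ∀ t, Y t = (P t - x₀).im := by
      intro t
      simp [hY, hPdef, Frame.pt]
      ring
    have hn : ∀ t, ‖P t - x₀‖ ^ 2 = X t ^ 2 + Y t ^ 2 := by
      intro t
      rw [← ip_self, ip, ← hXe, ← hYe]
      ring
    have hform : ∀ (t : ℂ) (w : ℂ), ip (Z t) w
        = (X t * w.im - Y t * w.re) / (X t ^ 2 + Y t ^ 2) := by
      intro t w
      rw [hZ]
      simp only
      rw [ip_I_left, ip_ofReal_mul_left, hn, ip]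
      simp only [Complex.mul_re, Complex.mul_im, Complex.I_re, Complex.I_im]
      rw [← hXe, ← hYe]
      ring
    have hA : (fun t => ip (Z t) (F.b.1 + ((d2 g t : ℝ) : ℂ) * F.n.1))
        = fun t => (X t * (F.b.1.im + d2 g t * F.n.1.im) - Y t * (F.b.1.re + d2 g t * F.n.1.re))
          / (X t ^ 2 + Y t ^ 2) := by
      funext t
      rw [hform]
      simp
    have hB : (fun t => ip (Z t) (F.a.1 + ((d1 g t : ℝ) : ℂ) * F.n.1))
        = fun t => (X t * (F.a.1.im + d1 g t * F.n.1.im) - Y t * (F.a.1.re + d1 g t * F.n.1.re))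
          / (X t ^ 2 + Y t ^ 2) := by
      funext t
      rw [hform]
      simp
    have hns : X s ^ 2 + Y s ^ 2 ≠ 0 := by
      rw [← hn]
      have h4 : P s - x₀ ≠ 0 := sub_ne_zero.2 (hne s hs)
      positivity
    rw [hA, hB]
    unfold d1 d2
    have hXd := fun v => (fderiv_aff hgd ((S.f q).1.re - x₀.re) F.a.1.re F.b.1.re F.n.1.re v)
    have hYd := fun v => (fderiv_aff hgd ((S.f q).1.im - x₀.im) F.a.1.im F.b.1.im F.n.1.im v)
    have hU1 := fun v => (fderiv_aff' h1d F.a.1.re F.n.1.re v)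
    have hV1 := fun v => (fderiv_aff' h1d F.a.1.im F.n.1.im v)
    have hU2 := fun v => (fderiv_aff' h2d F.b.1.re F.n.1.re v)
    have hV2 := fun v => (fderiv_aff' h2d F.b.1.im F.n.1.im v)
    have e1 := fderiv_form (v := 1) (hXd 1).1 (hYd 1).1 (hU2 1).1 (hV2 1).1 hns
    have e2 := fderiv_form (v := Complex.I) (hXd 1).1 (hYd 1).1 (hU1 1).1 (hV1 1).1 hns
    rw [(hXd 1).2, (hYd 1).2, (hU2 1).2, (hV2 1).2] at e1
    rw [(hXd Complex.I).2, (hYd Complex.I).2, (hU1 Complex.I).2, (hV1 Complex.I).2] at e2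
    have hsym := d_symm hgs
    rw [hsym] at e1
    refine e1.trans (Eq.trans ?_ e2.symm)
    congr 1
    have hg1 : fderiv ℝ g s 1 = d1 g s := rfl
    have hg2 : fderiv ℝ g s Complex.I = d2 g s := rfl
    rw [hg1, hg2]
    simp only [Complex.one_re, Complex.one_im, Complex.I_re, Complex.I_im]
    have hXs : ((S.f q).1.re - x₀.re) + s.re * F.a.1.re + s.im * F.b.1.re
      + g s * F.n.1.re = X s := rfl
    have hYs : ((S.f q).1.im - x₀.im) + s.re * F.a.1.im + s.im * F.b.1.im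
      + g s * F.n.1.im = Y s := rfl
    rw [hXs, hYs]
    ring

end Cyl
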