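import Pool.Agent.Cyl.Stmt3
import Pool.Agent.Cyl.Base2

/-!
# The form of the flux is closed
-/

open MeasureTheory Set Filter Topology Metric
open scoped ContDiff

noncomputable section

namespace Cyl

universe u

namespace CLN

theorem fderiv_ip_mul {f g : ℂ → ℂ} {f' g' : ℂ →L[ℝ] ℂ} {s : ℂ} (hf : HasFDerivAt f f' s)
    (hg : HasFDerivAt g g' s) (v : ℂ) :
    fderiv ℝ (fun t => ip (f t) (g t)) s v = ip (f' v) (g s) + ip (f s) (g' v) := by
  have h1 := Complex.reCLM.hasFDerivAt.comp s hf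
  have h2 := Complex.imCLM.hasFDerivAt.comp s hf
  have h3 := Complex.reCLM.hasFDerivAt.comp s hg
  have h4 := Complex.imCLM.hasFDerivAt.comp s hg
  have h := (h1.mul h3).add (h2.mul h4)
  have e : (fun t => ip (f t) (g t)) = fun t =>
      (Complex.reCLM ∘ f) t * (Complex.reCLM ∘ g) t + (Complex.imCLM ∘ f) t * (Complex.imCLM ∘ g) t := by
    funext t
    simp [ip]
  rw [e]
  have h5 := h.fderiv
  erw [h5]
  simp only [ip, ContinuousLinearMap.add_apply, ContinuousLinearMap.smul_apply,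
    ContinuousLinearMap.comp_apply, Complex.reCLM_apply, Complex.imCLM_apply, Function.comp,
    smul_eq_mul]
  ring

theorem hasFDerivAt_ofReal {φ : ℂ → ℝ} {φ' : ℂ →L[ℝ] ℝ} {s : ℂ} (h : HasFDerivAt φ φ' s) :
    HasFDerivAt (fun t => ((φ t : ℝ) : ℂ)) (Complex.ofRealCLM.comp φ') s :=
  Complex.ofRealCLM.hasFDerivAt.comp s h

/-- derivative of a line `B + q N` -/
theorem hasFDerivAt_X {q : ℂ → ℝ} {q' : ℂ →L[ℝ] ℝ} {s : ℂ} (hq : HasFDerivAt q q' s) (B N : ℂ) :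
    ∃ X' : ℂ →L[ℝ] ℂ, HasFDerivAt (fun t => B + ((q t : ℝ) : ℂ) * N) X' s ∧
      ∀ v, X' v = ((q' v : ℝ) : ℂ) * N := by
  refine ⟨_, ((hasFDerivAt_ofReal hq).mul_const' N).const_add B, fun v => ?_⟩
  simp
  ring

/-- derivative of the vector field -/
theorem hasFDerivAt_Y {w p q g : ℂ → ℝ} {w' p' q' g' : ℂ →L[ℝ] ℝ} {s : ℂ}
    (hw : HasFDerivAt w w' s) (hp : HasFDerivAt p p' s) (hq : HasFDerivAt q q' s)
    (hg : HasFDerivAt g g' s) (A B N c : ℂ) (H : ℝ) :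
    ∃ Y' : ℂ →L[ℝ] ℂ, HasFDerivAt (fun t => Complex.I * (((w t : ℝ) : ℂ) *
        (N - ((p t : ℝ) : ℂ) * A - ((q t : ℝ) : ℂ) * B) + (H : ℂ) *
        (c + ((t.re : ℝ) : ℂ) * A + ((t.im : ℝ) : ℂ) * B + ((g t : ℝ) : ℂ) * N))) Y' s ∧
      ∀ v, Y' v = Complex.I * (((w' v : ℝ) : ℂ) *
        (N - ((p s : ℝ) : ℂ) * A - ((q s : ℝ) : ℂ) * B) + ((w s : ℝ) : ℂ) *
        (- ((p' v : ℝ) : ℂ) * A - ((q' v : ℝ) : ℂ) * B) + (H : ℂ) *
        (((v.re : ℝ) : ℂ) * A + ((v.im : ℝ) : ℂ) * B + ((g' v : ℝ) : ℂ) * N)) := by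
  have hre : HasFDerivAt (fun t : ℂ => t.re) Complex.reCLM s := Complex.reCLM.hasFDerivAt
  have him : HasFDerivAt (fun t : ℂ => t.im) Complex.imCLM s := Complex.imCLM.hasFDerivAt
  have h1 := (((hasFDerivAt_const N s).sub ((hasFDerivAt_ofReal hp).mul_const' A)).sub
    ((hasFDerivAt_ofReal hq).mul_const' B))
  have h2 := ((((hasFDerivAt_const c s).add ((hasFDerivAt_ofReal hre).mul_const' A)).add
    ((hasFDerivAt_ofReal him).mul_const' B)).add ((hasFDerivAt_ofReal hg).mul_const' N))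
  have h3 := (((hasFDerivAt_ofReal hw).mul h1).add (h2.const_mul (H : ℂ))).const_mul Complex.I
  refine ⟨_, h3, fun v => ?_⟩
  simp
  ring

theorem snd_app {g : ℂ → ℝ} {s : ℂ} (hg : ContDiffAt ℝ 2 g s) (v w : ℂ) :
    fderiv ℝ (fun t => fderiv ℝ g t w) s v = fderiv ℝ (fderiv ℝ g) s v w := by
  have hD : DifferentiableAt ℝ (fderiv ℝ g) s :=
    (hg.fderiv_right (m := 1) (by norm_num)).differentiableAt (by norm_num)
  have h := (hD.hasFDerivAt.clm_apply (hasFDerivAt_const w s)).fderiv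
  rw [h]
  simp

theorem schwarz {g : ℂ → ℝ} {s : ℂ} (hg : ContDiffAt ℝ 2 g s) : d1 (d2 g) s = d2 (d1 g) s := by
  unfold d1 d2
  rw [snd_app hg, snd_app hg]
  exact (hg.isSymmSndFDerivAt (by simp)) 1 Complex.I

theorem hasFDerivAt_W {p q : ℂ → ℝ} {p' q' : ℂ →L[ℝ] ℝ} {s : ℂ} (hp : HasFDerivAt p p' s)
    (hq : HasFDerivAt q q' s) :
    ∃ w' : ℂ →L[ℝ] ℝ, HasFDerivAt (fun t => (W ⟨p t, q t⟩)⁻¹) w' s ∧
      ∀ v, w' v = - (W ⟨p s, q s⟩)⁻¹ ^ 3 * (p s * p' v + q s * q' v) := by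
  have h1 : HasFDerivAt (fun t => 1 + p t ^ 2 + q t ^ 2)
      ((2 * p s) • p' + (2 * q s) • q') s := by
    refine (((hp.pow 2).const_add 1).add (hq.pow 2)).congr_fderiv ?_
    ext v
    simp
  have hpos : 0 < 1 + p s ^ 2 + q s ^ 2 := by positivity
  have h2 : HasDerivAt (fun x => (Real.sqrt x)⁻¹)
      (-(1 / (2 * Real.sqrt (1 + p s ^ 2 + q s ^ 2))) / Real.sqrt (1 + p s ^ 2 + q s ^ 2) ^ 2)
      (1 + p s ^ 2 + q s ^ 2) :=
    (Real.hasDerivAt_sqrt hpos.ne').inv (Real.sqrt_pos.mpr hpos).ne'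
  have h3 := h2.comp_hasFDerivAt s h1
  refine ⟨_, h3, fun v => ?_⟩
  have e : W ⟨p s, q s⟩ = Real.sqrt (1 + p s ^ 2 + q s ^ 2) := rfl
  rw [e]
  have hs : Real.sqrt (1 + p s ^ 2 + q s ^ 2) ≠ 0 := (Real.sqrt_pos.mpr hpos).ne'
  generalize Real.sqrt (1 + p s ^ 2 + q s ^ 2) = ρ at hs ⊢
  simp
  field_simp
  ring

end CLN

open CLN in
/-- CLN -/
theorem CLN_holds : ClosedNStatement.{u} := by
  intro M _ _ _ S q
  obtain ⟨F, r, g, R, e, hP⟩ := S.surf.anyPatch q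
  refine ⟨F, r, g, R, e, hP, fun s => Complex.I * ((F.nor g s).1 +
    (S.H : ℂ) * (F.pt (S.f q) g s).1), ?_, ?_, ?_⟩
  · have hg := hP.patch.smooth
    have h1 := F.contDiffOn_nor isOpen_ball hg
    have h2 := F.contDiffOn_pt (S.f q) hg
    have h3 : ContDiffOn ℝ ∞ (fun s => Complex.I * ((F.nor g s).1 +
        (S.H : ℂ) * (F.pt (S.f q) g s).1)) (ball 0 r) :=
      contDiffOn_const.mul ((contDiff_fst.comp_contDiffOn h1).add
        (contDiffOn_const.mul (contDiff_fst.comp_contDiffOn h2)))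
    exact h3.of_le (by simp)
  · intro s hs
    simp only
    rw [hP.patch.normal s hs, hP.patch.param s hs]
  · intro s hs
    have hsb := hP.subset_ball hs
    have hg := hP.patch.smooth
    have hm := hP.patch.mean s hs
    have hnh : ball (0 : ℂ) r ∈ 𝓝 s := isOpen_ball.mem_nhds hsb
    have hgs : HasFDerivAt g (fderiv ℝ g s) s :=
      ((hg.contDiffAt hnh).differentiableAt (by simp)).hasFDerivAt
    have hps : HasFDerivAt (d1 g) (fderiv ℝ (d1 g) s) s :=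
      (((contDiffOn_d1 isOpen_ball hg).contDiffAt hnh).differentiableAt (by simp)).hasFDerivAt
    have hqs : HasFDerivAt (d2 g) (fderiv ℝ (d2 g) s) s :=
      (((contDiffOn_d2 isOpen_ball hg).contDiffAt hnh).differentiableAt (by simp)).hasFDerivAt
    have hsch : d1 (d2 g) s = d2 (d1 g) s :=
      schwarz ((hg.contDiffAt hnh).of_le ENat.LEInfty.out)
    obtain ⟨w', hw, hw'⟩ := hasFDerivAt_W hps hqs
    obtain ⟨Y', hY, hY'⟩ := hasFDerivAt_Y hw hps hqs hgs F.a.1 F.b.1 F.n.1 (S.f q).1 S.H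
    obtain ⟨X₂', hX₂, hX₂'⟩ := hasFDerivAt_X hqs F.b.1 F.n.1
    obtain ⟨X₁', hX₁, hX₁'⟩ := hasFDerivAt_X hps F.a.1 F.n.1
    have eY : (fun t : ℂ => Complex.I * ((F.nor g t).1 + (S.H : ℂ) * (F.pt (S.f q) g t).1)) =
        fun t => Complex.I * ((((W ⟨d1 g t, d2 g t⟩)⁻¹ : ℝ) : ℂ) *
        (F.n.1 - ((d1 g t : ℝ) : ℂ) * F.a.1 - ((d2 g t : ℝ) : ℂ) * F.b.1) + (S.H : ℂ) *
        ((S.f q).1 + ((t.re : ℝ) : ℂ) * F.a.1 + ((t.im : ℝ) : ℂ) * F.b.1
          + ((g t : ℝ) : ℂ) * F.n.1)) := by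
      funext t
      simp only [Frame.nor, Frame.pt, grad, Prod.fst_add, Prod.fst_sub, Prod.smul_fst,
        Complex.real_smul]
    have eY1 : ∀ t : ℂ, Complex.I * ((F.nor g t).1 + (S.H : ℂ) * (F.pt (S.f q) g t).1) =
        Complex.I * ((((W ⟨d1 g t, d2 g t⟩)⁻¹ : ℝ) : ℂ) *
        (F.n.1 - ((d1 g t : ℝ) : ℂ) * F.a.1 - ((d2 g t : ℝ) : ℂ) * F.b.1) + (S.H : ℂ) *
        ((S.f q).1 + ((t.re : ℝ) : ℂ) * F.a.1 + ((t.im : ℝ) : ℂ) * F.b.1
          + ((g t : ℝ) : ℂ) * F.n.1)) := fun t => congrFun eY t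
    have hYx : HasFDerivAt (fun t : ℂ => Complex.I * ((F.nor g t).1 +
        (S.H : ℂ) * (F.pt (S.f q) g t).1)) Y' s := by rw [eY]; exact hY
    have g1 := fderiv_ip_mul hYx hX₂ 1
    have g2 := fderiv_ip_mul hYx hX₁ Complex.I
    rw [hY', hX₂', eY1, hw'] at g1
    rw [hY', hX₁', eY1, hw'] at g2
    refine g1.trans (Eq.trans ?_ g2.symm)
    -- names for the numbers
    have d11 : fderiv ℝ (d1 g) s 1 = d1 (d1 g) s := rfl
    have d12 : fderiv ℝ (d1 g) s Complex.I = d2 (d1 g) s := rfl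
    have d21 : fderiv ℝ (d2 g) s 1 = d2 (d1 g) s := hsch
    have d22 : fderiv ℝ (d2 g) s Complex.I = d2 (d2 g) s := rfl
    have dg1 : fderiv ℝ g s 1 = d1 g s := rfl
    have dg2 : fderiv ℝ g s Complex.I = d2 g s := rfl
    rw [d11, d12, d21, d22, dg1, dg2]
    have hW2 : (W ⟨d1 g s, d2 g s⟩)⁻¹ ^ 2 * (1 + d1 g s ^ 2 + d2 g s ^ 2) = 1 := by
      have h1 := W_sq ⟨d1 g s, d2 g s⟩
      have h2 := W_pos ⟨d1 g s, d2 g s⟩
      simp only at h1
      rw [← h1]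
      field_simp
    have hmc : (W ⟨d1 g s, d2 g s⟩)⁻¹ ^ 3 * ((1 + d2 g s ^ 2) * d1 (d1 g) s
        - 2 * d1 g s * d2 g s * d2 (d1 g) s + (1 + d1 g s ^ 2) * d2 (d2 g) s) = 2 * S.H := by
      rw [← hm]
      have h2 := W_pos ⟨d1 g s, d2 g s⟩
      unfold mc curv grad hess
      simp only
      field_simp
    generalize (W ⟨d1 g s, d2 g s⟩)⁻¹ = w at hW2 hmc ⊢
    generalize d1 (d1 g) s = P₁ at hmc ⊢
    generalize d2 (d1 g) s = b at hmc ⊢
    generalize d2 (d2 g) s = Q₂ at hmc ⊢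
    generalize d1 g s = p at hW2 hmc ⊢
    generalize d2 g s = q at hW2 hmc ⊢
    generalize F.a.1 = A
    generalize F.b.1 = B
    generalize F.n.1 = N
    generalize (S.f _).1 = c
    generalize g s = gs
    simp only [ip, Complex.mul_re, Complex.mul_im, Complex.add_re, Complex.add_im, Complex.sub_re,
      Complex.sub_im, Complex.neg_re, Complex.neg_im, Complex.I_re, Complex.I_im,
      Complex.ofReal_re, Complex.ofReal_im, Complex.one_re, Complex.one_im]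
    linear_combination (-((A.re + p * N.re) * (B.im + q * N.im) -
      (A.im + p * N.im) * (B.re + q * N.re))) * hmc + w * (((P₁ * A.re + b * B.re) *
      (B.im + q * N.im) - (P₁ * A.im + b * B.im) * (B.re + q * N.re)) -
      ((b * A.re + Q₂ * B.re) * (A.im + p * N.im) - (b * A.im + Q₂ * B.im) *
      (A.re + p * N.re))) * hW2

end Cyl
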