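import Pool.Agent.Cyl.TUBE

/-!
# Limit of `T (∇ sc)` on the outer collar
-/

open MeasureTheory Set Filter Topology Metric
open scoped ContDiff

noncomputable section

namespace Cyl

namespace COLLIM

theorem measurable_grad (g : ℂ → ℝ) : Measurable (grad g) := by
  have h1 : Measurable (fun s => fderiv ℝ g s 1) := measurable_fderiv_apply_const ℝ g 1
  have h2 : Measurable (fun s => fderiv ℝ g s Complex.I) :=
    measurable_fderiv_apply_const ℝ g Complex.I
  have h3 := Complex.measurableEquivRealProd.symm.measurable.comp (h1.prodMk h2)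
  exact h3

theorem measure_collar (D : Set ℂ) (hD : Bornology.IsBounded D) (hne : D.Nonempty) (ρ : ℝ) :
    volume {x | 0 < sd D x ∧ sd D x < ρ} < ⊤ := by
  refine (hD.thickening (δ := ρ)).measure_lt_top.trans_le' (measure_mono ?_)
  rintro x ⟨h1, h2⟩
  rw [mem_thickening_iff_infDist_lt hne]
  have hx : x ∉ D := by
    intro hx
    rw [sd, infDist_zero_of_mem hx] at h1
    have : 0 ≤ infDist x Dᶜ := infDist_nonneg
    linarith
  have h3 : infDist x Dᶜ = 0 := infDist_zero_of_mem hx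
  rw [sd, h3, sub_zero] at h2
  exact h2

theorem measurableSet_collar (D : Set ℂ) (ρ : ℝ) :
    MeasurableSet {x | 0 < sd D x ∧ sd D x < ρ} := by
  have hsd : Continuous (sd D) := by
    unfold sd
    exact (continuous_infDist_pt D).sub (continuous_infDist_pt Dᶜ)
  exact ((isOpen_lt continuous_const hsd).inter (isOpen_lt hsd continuous_const)).measurableSet

open TUBE in
/-- the pointwise bound -/
theorem bound {D : Set ℂ} {γ : ℝ → ℂ} {L : ℝ} (h : ConvexCurve D γ L) {S : Set E3}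
    (hS : IsCompact S) (hcyl : ∀ X ∈ S, X.1 ∈ closure D) (hb : ∀ θ, (γ θ, (0 : ℝ)) ∈ S) {Z : ℝ}
    (hZ : ∀ X ∈ S, X.2 ≤ Z) (hZ0 : 0 ≤ Z) {ε : ℝ} (hε : 0 < ε) {θ t : ℝ} (ht : 0 < t)
    (hd : DifferentiableAt ℝ (sc ε S) (Phi γ θ t)) :
    ‖T (grad (sc ε S) (Phi γ θ t)) - nn γ θ‖ ^ 2 ≤
      2 - 2 * (t / Real.sqrt (ε ^ 2 + t ^ 2 + 2 * ε * Z)) := by
  obtain ⟨x, hx⟩ : ∃ x, x = Phi γ θ t := ⟨_, rfl⟩
  rw [← hx] at hd ⊢
  obtain ⟨X, hX, hsc⟩ := exists_sc hS ⟨_, hb 0⟩ ε x
  rw [grad_sc hS hd hX hsc]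
  obtain ⟨p, hp⟩ : ∃ p : ℂ, p = ((1 / ε : ℝ) : ℂ) * (X.1 - x) := ⟨_, rfl⟩
  rw [← hp]
  have hxθ : ‖x - γ θ‖ = t := by rw [hx, norm_Phi_sub h, abs_of_pos ht]
  -- lower bound of the inner product with the normal
  have h1 : t / ε ≤ ip p (nn γ θ) := by
    have h2 := ip_closure h θ (hcyl X hX)
    have h3 : ip (X.1 - x) (nn γ θ) = ip (X.1 - γ θ) (nn γ θ) + t := by
      have e : X.1 - x = (X.1 - γ θ) + (t : ℂ) * nn γ θ := by rw [hx, Phi_eq]; ring
      rw [e, ip_add_left, ip_ofReal_mul_left, ip_nn_nn h, mul_one]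
    rw [hp, ip_ofReal_mul_left, h3]
    rw [div_eq_mul_one_div, mul_comm]
    refine mul_le_mul_of_nonneg_left (by linarith) (by positivity)
  -- upper bound of the norm
  have h4 : ‖X.1 - x‖ ^ 2 ≤ t ^ 2 + 2 * ε * Z := by
    have h5 := le_sc hS ε x (hb θ)
    simp only at h5
    rw [hsc, hxθ] at h5
    have h6 := hZ X hX
    have h7 : ‖x - X.1‖ ^ 2 / (2 * ε) ≤ Z + t ^ 2 / (2 * ε) := by linarith
    rw [div_le_iff₀ (by positivity)] at h7
    have h8 : (Z + t ^ 2 / (2 * ε)) * (2 * ε) = t ^ 2 + 2 * ε * Z := by field_simp; ring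
    rw [h8, norm_sub_rev] at h7
    exact h7
  have hnp : ε ^ 2 * ‖p‖ ^ 2 = ‖X.1 - x‖ ^ 2 := by
    rw [hp, norm_mul, Complex.norm_real, Real.norm_eq_abs, abs_of_pos (by positivity)]
    field_simp
  have hW : ε * W p ≤ Real.sqrt (ε ^ 2 + t ^ 2 + 2 * ε * Z) := by
    refine Real.le_sqrt_of_sq_le ?_
    rw [mul_pow, W_sq', mul_add, mul_one, hnp]
    linarith
  have hWp := W_pos p
  have hT2 : ‖T p‖ ^ 2 ≤ 1 := by
    have := norm_T_le p
    nlinarith [norm_nonneg (T p)]
  have hTn : t / Real.sqrt (ε ^ 2 + t ^ 2 + 2 * ε * Z) ≤ ip (T p) (nn γ θ) := by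
    rw [T_eq, ip_ofReal_mul_left]
    have h5 : t / Real.sqrt (ε ^ 2 + t ^ 2 + 2 * ε * Z) ≤ t / (ε * W p) := by
      exact div_le_div_of_nonneg_left ht.le (by positivity) hW
    refine h5.trans ?_
    have h6 : t / (ε * W p) = (W p)⁻¹ * (t / ε) := by field_simp
    rw [h6]
    exact mul_le_mul_of_nonneg_left h1 (by positivity)
  rw [norm_sub_sq', norm_nn h]
  linarith

end COLLIM

open COLLIM TUBE in
/-- COLLIM -/
theorem COLLIM_holds (hTU : TubeStatement) (hCG : CutGradStatement) : CollarLimitStatement := by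
  intro D γ L h S hS hcyl hb ρ hρ
  obtain ⟨t₀, ht₀⟩ := hTU D γ L h
  obtain ⟨hg, -, -, -⟩ := hCG D γ L h ρ hρ
  have hne : S.Nonempty := ⟨_, hb 0⟩
  obtain ⟨Z, hZ0, hZ⟩ : ∃ Z : ℝ, 0 ≤ Z ∧ ∀ X ∈ S, X.2 ≤ Z := by
    obtain ⟨Z, hZ⟩ := (hS.image continuous_snd).bddAbove
    refine ⟨max Z 0, le_max_right _ _, fun X hX => ?_⟩
    exact (hZ (mem_image_of_mem _ hX)).trans (le_max_left _ _)
  have hmeas := measurableSet_collar D ρ
  have hfin := measure_collar D h.bounded h.nonempty ρ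
  -- points of the collar
  have hcol : ∀ x ∈ {x | 0 < sd D x ∧ sd D x < ρ}, ∃ θ t, 0 < t ∧ t < ρ ∧ x = Phi γ θ t := by
    rintro x ⟨h1, h2⟩
    obtain ⟨θ, _, hθ⟩ := ht₀.surj x (by have := ht₀.pos; linarith)
    exact ⟨θ, _, h1, h2, hθ⟩
  have hng : ∀ θ t, 0 < t → t < ρ → (ρ : ℂ) * grad (cut D ρ) (Phi γ θ t) = nn γ θ := by
    intro θ t h1 h2
    rw [hg θ t h1 h2, nn]
    have : (ρ : ℂ) ≠ 0 := by exact_mod_cast hρ.ne'
    push_cast
    field_simp
  refine tendsto_of_seq_tendsto fun e he => ?_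
  have he0 : ∀ᶠ n in atTop, 0 < e n := he.eventually self_mem_nhdsWithin
  have he1 : Tendsto e atTop (𝓝 0) := he.mono_right nhdsWithin_le_nhds
  have hlim : Tendsto (fun n => ∫ x in {x | 0 < sd D x ∧ sd D x < ρ},
      ‖T (grad (sc (e n) S) x) - (ρ : ℂ) * grad (cut D ρ) x‖) atTop
      (𝓝 (∫ x in {x | 0 < sd D x ∧ sd D x < ρ}, (0 : ℝ))) := by
    refine tendsto_integral_of_dominated_convergence (fun _ => (2 : ℝ)) ?_ ?_ ?_ ?_
    · intro n
      refine Measurable.aestronglyMeasurable ?_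
      refine Measurable.norm ?_
      refine Measurable.sub (continuous_T.measurable.comp (measurable_grad _)) ?_
      exact (measurable_grad _).const_mul _
    · exact integrableOn_const hfin.ne
    · intro n
      rw [ae_restrict_iff' hmeas]
      refine Eventually.of_forall fun x hx => ?_
      obtain ⟨θ, t, h1, h2, rfl⟩ := hcol x hx
      rw [norm_norm, hng θ t h1 h2]
      refine (norm_sub_le _ _).trans ?_
      rw [norm_nn h]
      have := norm_T_le (grad (sc (e n) S) (Phi γ θ t))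
      linarith
    · -- pointwise limit
      have hae : ∀ᵐ x, ∀ n, 0 < e n → DifferentiableAt ℝ (sc (e n) S) x := by
        rw [ae_all_iff]
        intro n
        by_cases hn : 0 < e n
        · filter_upwards [sc_ae_differentiableAt hS hne hn] with x hx _
          exact hx
        · exact Eventually.of_forall fun x hn' => absurd hn' hn
      filter_upwards [ae_restrict_of_ae hae, ae_restrict_mem hmeas] with x hx hxc
      obtain ⟨θ, t, h1, h2, rfl⟩ := hcol x hxc
      rw [hng θ t h1 h2]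
      have hsq : Tendsto (fun n => ‖T (grad (sc (e n) S) (Phi γ θ t)) - nn γ θ‖ ^ 2) atTop
          (𝓝 0) := by
        have hup : Tendsto (fun n => 2 - 2 * (t / Real.sqrt ((e n) ^ 2 + t ^ 2 + 2 * e n * Z)))
            atTop (𝓝 0) := by
          have hcont : ContinuousAt
              (fun ε : ℝ => 2 - 2 * (t / Real.sqrt (ε ^ 2 + t ^ 2 + 2 * ε * Z))) 0 := by
            have h3 : Real.sqrt ((0 : ℝ) ^ 2 + t ^ 2 + 2 * 0 * Z) ≠ 0 := by
              rw [Real.sqrt_ne_zero']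
              have : 0 < t ^ 2 := by positivity
              linarith
            have h4 : ContinuousAt (fun ε : ℝ => Real.sqrt (ε ^ 2 + t ^ 2 + 2 * ε * Z)) 0 := by
              fun_prop
            exact continuousAt_const.sub (continuousAt_const.mul (continuousAt_const.div h4 h3))
          have h5 := hcont.tendsto.comp he1
          have h6 : (2 : ℝ) - 2 * (t / Real.sqrt ((0 : ℝ) ^ 2 + t ^ 2 + 2 * 0 * Z)) = 0 := by
            have h7 : (0 : ℝ) ^ 2 + t ^ 2 + 2 * 0 * Z = t ^ 2 := by ring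
            rw [h7, Real.sqrt_sq h1.le, div_self h1.ne']
            ring
          rw [h6] at h5
          exact h5
        refine squeeze_zero' (Eventually.of_forall fun n => by positivity) ?_ hup
        filter_upwards [he0] with n hn
        exact bound h hS hcyl hb hZ hZ0 hn h1 (hx n hn)
      have h8 := hsq.sqrt
      rw [Real.sqrt_zero] at h8
      refine h8.congr fun n => ?_
      rw [Real.sqrt_sq (norm_nonneg _)]
  rw [integral_zero] at hlim
  exact hlim

end Cyl
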