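import Pool.Agent.Cyl.SMP

/-!
# CORNER: a positive solution in a quarter disc does not vanish to third order at the corner
-/

open MeasureTheory Set Filter Topology Metric
open scoped ContDiff

noncomputable section

namespace Cyl

/-- the product of the two linear forms of a slightly narrower cone -/
def coneP (κ : ℝ) : ℂ → ℝ := quad (-1 / 20) (κ * (401 / 800)) (-1 / 20) 0 0 0

theorem coneP_eq {κ : ℝ} (hκ : κ = 1 ∨ κ = -1) (s : ℂ) :
    coneP κ s = (κ * s.re - s.im / 20) * (s.im - κ * s.re / 20) := by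
  unfold coneP quad
  rcases hκ with h | h <;> subst h <;> ring

theorem coneP_le {κ : ℝ} (hκ : κ = 1 ∨ κ = -1) (s : ℂ) : coneP κ s ≤ 0.46 * ‖s‖ ^ 2 := by
  rw [coneP_eq hκ, ← ip_self, ip]
  rcases hκ with h | h <;> subst h <;>
    nlinarith [sq_nonneg (s.re - s.im), sq_nonneg (s.re + s.im), sq_nonneg s.re, sq_nonneg s.im]

/-- the barrier -/
def barr (κ : ℝ) (s : ℂ) : ℝ := coneP κ s ^ ((5 : ℝ) / 4)

theorem continuous_barr (κ : ℝ) : Continuous (barr κ) := by
  unfold barr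
  exact (Real.continuous_rpow_const (by norm_num)).comp
    (contDiff_quad _ _ _ _ _ _ (n := 0)).continuous

theorem contDiffAt_barr {κ : ℝ} {s : ℂ} (h : 0 < coneP κ s) : ContDiffAt ℝ 2 (barr κ) s := by
  have h1 : ContDiffAt ℝ 2 (fun x : ℝ => x ^ ((5 : ℝ) / 4)) (coneP κ s) :=
    Real.contDiffAt_rpow_const_of_ne h.ne'
  exact h1.comp s (contDiff_quad _ _ _ _ _ _).contDiffAt

theorem barr_lin {κ : ℝ} {s : ℂ} (h : 0 < coneP κ s) (m β : ℂ) :
    lin m (hess (barr κ) s) + ip β (grad (barr κ) s) =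
      (5 / 16) * coneP κ s ^ (-(3 : ℝ) / 4) *
        ((d1 (coneP κ) s ^ 2 + d2 (coneP κ) s ^ 2 + (m.im * d1 (coneP κ) s - m.re * d2 (coneP κ) s) ^ 2)
          + 4 * coneP κ s * (lin m (hess (coneP κ) s) + ip β (grad (coneP κ) s))) := by
  set p := coneP κ s with hp
  have hPc : ContDiffAt ℝ 2 (coneP κ) s := (contDiff_quad _ _ _ _ _ _).contDiffAt
  have hF : ∀ᶠ t in 𝓝 (coneP κ s), HasDerivAt (fun t : ℝ => t ^ ((5 : ℝ) / 4))
      ((fun t : ℝ => (5 / 4) * t ^ ((1 : ℝ) / 4)) t) t := by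
    have : ∀ᶠ t in 𝓝 (coneP κ s), 0 < t := lt_mem_nhds h
    filter_upwards [this] with t ht
    have h1 := Real.hasDerivAt_rpow_const (x := t) (p := (5 : ℝ) / 4) (Or.inl ht.ne')
    refine h1.congr_deriv ?_
    norm_num
  have hF' : HasDerivAt (fun t : ℝ => (5 / 4) * t ^ ((1 : ℝ) / 4))
      ((5 / 16) * (coneP κ s) ^ (-(3 : ℝ) / 4)) (coneP κ s) := by
    have h1 := (Real.hasDerivAt_rpow_const (x := coneP κ s) (p := (1 : ℝ) / 4)
      (Or.inl h.ne')).const_mul (5 / 4)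
    refine h1.congr_deriv ?_
    rw [show (1 : ℝ) / 4 - 1 = -(3 : ℝ) / 4 by norm_num]
    ring
  have hc := comp_formula hPc hF hF'
  have e : barr κ = fun t => (fun t : ℝ => t ^ ((5 : ℝ) / 4)) (coneP κ t) := rfl
  rw [e, hc.1, hc.2]
  have hpow : p ^ ((1 : ℝ) / 4) = p ^ (-(3 : ℝ) / 4) * p := by
    have h1 := Real.rpow_add h (-(3 : ℝ) / 4) 1
    rw [Real.rpow_one] at h1
    rw [← h1]
    norm_num
  rw [ip_ofReal_mul_right]
  simp only [← hp]
  rw [hpow]
  unfold lin ip grad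
  ring

theorem corner_ineq {κ : ℝ} (hκ : κ = 1 ∨ κ = -1) {s m β : ℂ} (h : 0 < coneP κ s)
    (hm : ‖m‖ ^ 2 ≤ 1 / 80) (hβ : ‖β‖ * ‖s‖ ≤ 1 / 80) :
    0 < lin m (hess (barr κ) s) + ip β (grad (barr κ) s) := by
  rw [barr_lin h]
  apply mul_pos (by positivity)
  set p := coneP κ s with hp
  have hd := d_quad (-1 / 20) (κ * (401 / 800)) (-1 / 20) 0 0 0 s
  have hh := hess_quad (-1 / 20) (κ * (401 / 800)) (-1 / 20) 0 0 0 s
  have hp1 : p ≤ 0.46 * ‖s‖ ^ 2 := coneP_le hκ s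
  have hs : ‖s‖ ^ 2 = s.re ^ 2 + s.im ^ 2 := by rw [← ip_self, ip]; ring
  have hmn : ‖m‖ ^ 2 = m.re ^ 2 + m.im ^ 2 := by rw [← ip_self, ip]; ring
  have hd1 : d1 (coneP κ) s = 2 * (-1 / 20) * s.re + 2 * (κ * (401 / 800)) * s.im + 0 := hd.1
  have hd2 : d2 (coneP κ) s = 2 * (κ * (401 / 800)) * s.re + 2 * (-1 / 20) * s.im + 0 := hd.2
  have hh' : hess (coneP κ) s = ⟨2 * (-1 / 20), 2 * (κ * (401 / 800)), 2 * (-1 / 20)⟩ := hh
  have hs0 : 0 < ‖s‖ ^ 2 := by
    by_contra h0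
    have : 0.46 * ‖s‖ ^ 2 ≤ 0 := by linarith
    linarith
  -- lower bound for `|∇P|²`
  have hg : 0.8 * ‖s‖ ^ 2 ≤ d1 (coneP κ) s ^ 2 + d2 (coneP κ) s ^ 2 := by
    rw [hd1, hd2, hs]
    rcases hκ with h | h <;> subst h <;>
      nlinarith [sq_nonneg (s.re - s.im), sq_nonneg (s.re + s.im), sq_nonneg s.re, sq_nonneg s.im]
  have hg2 : ‖grad (coneP κ) s‖ ≤ 2 * ‖s‖ := by
    have h1 : ‖grad (coneP κ) s‖ ^ 2 ≤ (2 * ‖s‖) ^ 2 := by
      rw [← ip_self, ip, mul_pow, hs]
      simp only [grad, hd1, hd2]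
      rcases hκ with h | h <;> subst h <;>
        nlinarith [sq_nonneg (s.re - s.im), sq_nonneg (s.re + s.im), sq_nonneg s.re,
          sq_nonneg s.im]
    exact le_of_sq_le_sq h1 (by positivity)
  have hl : -(0.25 : ℝ) ≤ lin m (hess (coneP κ) s) := by
    rw [hh']
    unfold lin
    simp only
    rcases hκ with h | h <;> subst h <;>
      nlinarith [sq_nonneg (m.re - m.im), sq_nonneg (m.re + m.im), sq_nonneg m.re, sq_nonneg m.im]
  have hb : -(0.025 : ℝ) ≤ ip β (grad (coneP κ) s) := by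
    have h1 := abs_ip_le β (grad (coneP κ) s)
    have h2 : ‖β‖ * ‖grad (coneP κ) s‖ ≤ ‖β‖ * (2 * ‖s‖) := by gcongr
    have h3 := neg_abs_le (ip β (grad (coneP κ) s))
    nlinarith
  have h4 : -(0.506 * ‖s‖ ^ 2) ≤ 4 * p * (lin m (hess (coneP κ) s) + ip β (grad (coneP κ) s)) := by
    have h5 : -(0.275 : ℝ) ≤ lin m (hess (coneP κ) s) + ip β (grad (coneP κ) s) := by linarith
    have h6 : 4 * p * (-(0.275 : ℝ)) ≤ 4 * p * (lin m (hess (coneP κ) s)
        + ip β (grad (coneP κ) s)) := mul_le_mul_of_nonneg_left h5 (by positivity)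
    nlinarith
  have h7 := sq_nonneg (m.im * d1 (coneP κ) s - m.re * d2 (coneP κ) s)
  nlinarith

theorem CORNER_holds : CornerStatement := by
  intro r v m β κ C hr hκ hv hm hβ hm0 hL hcon
  have hκ2 : κ * κ = 1 := by rcases hκ with h | h <;> subst h <;> norm_num
  -- a small radius
  obtain ⟨B, hB0, hB⟩ := exists_bound hβ (show r / 2 < r by linarith)
  obtain ⟨ρ₁, hρ₁, hmρ⟩ : ∃ ρ₁ > 0, ∀ s : ℂ, ‖s‖ < ρ₁ → ‖m s‖ ^ 2 ≤ 1 / 80 := by
    have h1 : ContinuousAt m 0 := hm.continuousAt (ball_mem_nhds 0 hr)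
    have h2 : ContinuousAt (fun s => ‖m s‖ ^ 2) 0 := (h1.norm).pow 2
    have h3 : ∀ᶠ s in 𝓝 (0 : ℂ), ‖m s‖ ^ 2 < 1 / 80 := by
      apply h2.eventually_lt continuousAt_const
      simp [hm0]
    obtain ⟨δ, hδ, h4⟩ := Metric.eventually_nhds_iff.1 h3
    exact ⟨δ, hδ, fun s hs => (h4 (by simpa using hs)).le⟩
  set ρ : ℝ := min (min (r / 2) (ρ₁ / 2)) (1 / (80 * (B + 1))) with hρ
  have hρ0 : 0 < ρ := by
    rw [hρ]
    apply lt_min (lt_min (by linarith) (by linarith)) (by positivity)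
  have hρr : ρ ≤ r / 2 := (min_le_left _ _).trans (min_le_left _ _)
  have hρρ : ρ ≤ ρ₁ / 2 := (min_le_left _ _).trans (min_le_right _ _)
  have hρB : ρ * (B + 1) ≤ 1 / 80 := by
    have h1 : ρ ≤ 1 / (80 * (B + 1)) := min_le_right _ _
    rw [le_div_iff₀ (by positivity)] at h1
    linarith
  -- the cone
  set K : Set ℂ := {s | (s.im / 20 ≤ κ * s.re ∧ κ * s.re / 20 ≤ s.im) ∧ ‖s‖ ≤ ρ} with hK
  set O : Set ℂ := {s | (s.im / 20 < κ * s.re ∧ κ * s.re / 20 < s.im) ∧ ‖s‖ < ρ} with hO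
  have c1 : Continuous (fun s : ℂ => s.im / 20) := by fun_prop
  have c2 : Continuous (fun s : ℂ => κ * s.re) := by fun_prop
  have c3 : Continuous (fun s : ℂ => κ * s.re / 20) := by fun_prop
  have c4 : Continuous (fun s : ℂ => s.im) := by fun_prop
  have c5 : Continuous (fun s : ℂ => ‖s‖) := by fun_prop
  have hKcomp : IsCompact K := by
    have h1 : IsCompact (closedBall (0 : ℂ) ρ) := isCompact_closedBall _ _
    refine h1.of_isClosed_subset ?_ ?_
    · exact ((isClosed_le c1 c2).inter (isClosed_le c3 c4)).inter (isClosed_le c5 continuous_const)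
    · intro s hs
      rw [mem_closedBall_zero_iff]; exact hs.2
  have hOo : IsOpen O :=
    ((isOpen_lt c1 c2).inter (isOpen_lt c3 c4)).inter (isOpen_lt c5 continuous_const)
  have hOK : O ⊆ K := fun s hs => ⟨⟨hs.1.1.le, hs.1.2.le⟩, hs.2.le⟩
  have hKr : ∀ s ∈ K, s ∈ ball (0 : ℂ) r := by
    intro s hs
    rw [mem_ball_zero_iff]; linarith [hs.2]
  have hquarter : ∀ s ∈ K, s ≠ 0 → 0 < κ * s.re ∧ 0 < s.im := by
    intro s hs hs0
    obtain ⟨⟨h1, h2⟩, h3⟩ := hs
    have h4 : 0 ≤ κ * s.re := by linarith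
    have h5 : 0 ≤ s.im := by linarith
    have h6 : κ * s.re ≠ 0 := by
      intro h
      have h7 : s.im = 0 := by linarith
      apply hs0
      have h8 : s.re = 0 := by
        have : κ * (κ * s.re) = 0 := by rw [h]; ring
        rw [← mul_assoc, hκ2, one_mul] at this
        exact this
      exact Complex.ext h8 h7
    have h9 : 0 < κ * s.re := lt_of_le_of_ne h4 (Ne.symm h6)
    exact ⟨h9, by linarith⟩
  have hvpos : ∀ s ∈ K, s ≠ 0 → 0 < v s := by
    intro s hs hs0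
    obtain ⟨h1, h2⟩ := hquarter s hs hs0
    exact (hL s (hKr s hs) h1 h2).1
  -- the diagonal
  set D : ℝ → ℂ := fun t => ⟨κ * t, t⟩ with hD
  have hDn : ∀ t, ‖D t‖ ^ 2 = 2 * t ^ 2 := by
    intro t
    rw [← ip_self, ip, hD]
    simp only
    calc κ * t * (κ * t) + t * t = (κ * κ) * t ^ 2 + t ^ 2 := by ring
      _ = _ := by rw [hκ2]; ring
  have hDn' : ∀ t, 0 ≤ t → ‖D t‖ ≤ 2 * t := by
    intro t ht
    have : ‖D t‖ ^ 2 ≤ (2 * t) ^ 2 := by rw [hDn]; nlinarith [sq_nonneg t]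
    exact le_of_sq_le_sq this (by positivity)
  have hDK : ∀ t, 0 ≤ t → 2 * t ≤ ρ → D t ∈ K := by
    intro t ht ht'
    have e : κ * (D t).re = t := by
      rw [hD]; simp only; rw [← mul_assoc, hκ2, one_mul]
    refine ⟨⟨?_, ?_⟩, (hDn' t ht).trans ht'⟩
    · rw [e]; simp only [hD]; linarith
    · rw [e]; simp only [hD]; linarith
  have hDr : ∀ t, (D t).im = t := fun t => rfl
  have hDk : ∀ t, κ * (D t).re = t := by
    intro t; rw [hD]; simp only; rw [← mul_assoc, hκ2, one_mul]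
  have hv00 : 0 ≤ v 0 := by
    by_contra hneg
    rw [not_le] at hneg
    have h1 : ContinuousAt v 0 := hv.continuousOn.continuousAt (ball_mem_nhds 0 hr)
    have h2 : ∀ᶠ s in 𝓝 (0 : ℂ), v s < 0 := h1.eventually_lt continuousAt_const hneg
    obtain ⟨δ, hδ, h3⟩ := Metric.eventually_nhds_iff.1 h2
    set t := min (δ / 4) (ρ / 2) with ht
    have ht0 : 0 < t := lt_min (by linarith) (by linarith)
    have h4 : D t ∈ K := hDK t ht0.le (by have := min_le_right (δ / 4) (ρ / 2); linarith)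
    have h5 : D t ≠ 0 := by
      intro h
      have := congrArg Complex.im h
      rw [hDr] at this
      simp at this
      linarith
    have h6 := hvpos _ h4 h5
    have h7 := h3 (y := D t) (by
      rw [dist_zero_right]
      have := hDn' t ht0.le
      have h8 := min_le_left (δ / 4) (ρ / 2)
      linarith)
    linarith
  have hvK : ∀ s ∈ K, 0 ≤ v s := by
    intro s hs
    by_cases h : s = 0
    · rw [h]; exact hv00
    · exact (hvpos s hs h).le
  have hvcK : ContinuousOn v K := hv.continuousOn.mono hKr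
  -- minimum on the arc
  obtain ⟨μ, hμ0, hμ⟩ : ∃ μ, 0 < μ ∧ ∀ s ∈ K ∩ {s | ‖s‖ = ρ}, μ ≤ v s := by
    apply IsCompact.exists_forall_le'
    · exact hKcomp.inter_right (isClosed_eq c5 continuous_const)
    · exact hvcK.mono inter_subset_left
    · intro s hs
      apply hvpos s hs.1
      intro h
      have h1 : ‖s‖ = ρ := hs.2
      rw [h, norm_zero] at h1
      linarith
  obtain ⟨M, hM⟩ := hKcomp.exists_bound_of_continuousOn (continuous_barr κ).continuousOn
  set k : ℝ := μ / (|M| + 1) with hk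
  have hk0 : 0 < k := by positivity
  have hcomp : ∀ s ∈ K, 0 ≤ v s - k * barr κ s := by
    apply comparison (m := m) (β := β) hKcomp hOo hOK
    · exact hvcK.sub (continuous_const.mul (continuous_barr κ)).continuousOn
    · intro s hs hsO
      by_cases h1 : ‖s‖ = ρ
      · have h2 := hμ s ⟨hs, h1⟩
        have h3 : barr κ s ≤ |M| + 1 := by
          have h4 := hM s hs
          rw [Real.norm_eq_abs] at h4
          have h5 := le_abs_self (barr κ s)
          have h6 := le_abs_self M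
          linarith
        have h4 : k * barr κ s ≤ μ := by
          calc k * barr κ s ≤ k * (|M| + 1) := by gcongr
            _ = μ := by rw [hk]; field_simp
        linarith
      · have h2 : ‖s‖ < ρ := lt_of_le_of_ne hs.2 h1
        have h3 : coneP κ s = 0 := by
          rw [coneP_eq hκ]
          by_contra h4
          have h5 : κ * s.re - s.im / 20 ≠ 0 := left_ne_zero_of_mul h4
          have h6 : s.im - κ * s.re / 20 ≠ 0 := right_ne_zero_of_mul h4
          apply hsO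
          refine ⟨⟨lt_of_le_of_ne hs.1.1 ?_, lt_of_le_of_ne hs.1.2 ?_⟩, h2⟩
          · intro h; apply h5; linarith
          · intro h; apply h6; linarith
        have h4 : barr κ s = 0 := by
          unfold barr; rw [h3, Real.zero_rpow (by norm_num)]
        rw [h4]
        have := hvK s hs
        linarith
    · intro s hs
      have h1 : ContDiffAt ℝ 2 v s := hv.contDiffAt (isOpen_ball.mem_nhds (hKr s (hOK hs)))
      have h2 : 0 < coneP κ s := by
        rw [coneP_eq hκ]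
        exact mul_pos (by linarith [hs.1.1]) (by linarith [hs.1.2])
      exact h1.sub (contDiffAt_const.mul (contDiffAt_barr h2))
    · intro s hs
      have h1 : ContDiffAt ℝ 2 v s := hv.contDiffAt (isOpen_ball.mem_nhds (hKr s (hOK hs)))
      have h2 : 0 < coneP κ s := by
        rw [coneP_eq hκ]
        exact mul_pos (by linarith [hs.1.1]) (by linarith [hs.1.2])
      have h3 := contDiffAt_barr h2
      rw [lin_sub_mul k (m s) h1 h3, grad_sub_mul k (h1.differentiableAt (by norm_num))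
        (h3.differentiableAt (by norm_num)), ip_sub_right, ip_ofReal_mul_right]
      have hs0 : s ≠ 0 := by
        intro h
        rw [h] at h2
        simp [coneP, quad] at h2
      obtain ⟨q1, q2⟩ := hquarter s (hOK hs) hs0
      have h4 := (hL s (hKr s (hOK hs)) q1 q2).2
      have h5 : ‖m s‖ ^ 2 ≤ 1 / 80 := hmρ s (by linarith [hs.2])
      have h6 : ‖β s‖ * ‖s‖ ≤ 1 / 80 := by
        have h7 : ‖β s‖ ≤ B := hB s (by rw [mem_closedBall_zero_iff]; linarith [hs.2])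
        calc ‖β s‖ * ‖s‖ ≤ (B + 1) * ρ := by
              apply mul_le_mul (by linarith) hs.2.le (norm_nonneg _) (by linarith)
          _ ≤ 1 / 80 := by linarith
      have h8 := corner_ineq hκ h2 h5 h6
      nlinarith
  -- contradiction along the diagonal
  set c₀ : ℝ := (361 / 400 : ℝ) ^ ((5 : ℝ) / 4) with hc₀
  have hc₀pos : 0 < c₀ := by positivity
  have hbD : ∀ τ : ℝ, 0 < τ → barr κ (D (τ ^ 2)) = c₀ * τ ^ 5 := by
    intro τ hτ
    unfold barr
    rw [coneP_eq hκ, hDk, hDr]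
    have e1 : (τ ^ 2 - τ ^ 2 / 20) * (τ ^ 2 - τ ^ 2 / 20) = (361 / 400) * τ ^ 4 := by ring
    rw [e1, Real.mul_rpow (by norm_num) (by positivity), hc₀]
    congr 1
    rw [← Real.rpow_natCast τ 4, ← Real.rpow_mul hτ.le]
    norm_num
  set τ : ℝ := min (min 1 (ρ / 2)) (k * c₀ / (16 * (|C| + 1))) with hτ
  have hτ0 : 0 < τ := by
    rw [hτ]
    exact lt_min (lt_min one_pos (by linarith)) (by positivity)
  have hτ1 : τ ≤ 1 := (min_le_left _ _).trans (min_le_left _ _)
  have hτρ : τ ≤ ρ / 2 := (min_le_left _ _).trans (min_le_right _ _)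
  have hτC : τ * (16 * (|C| + 1)) ≤ k * c₀ := by
    have h1 : τ ≤ k * c₀ / (16 * (|C| + 1)) := min_le_right _ _
    rwa [le_div_iff₀ (by positivity)] at h1
  have ht2 : τ ^ 2 ≤ τ := by nlinarith
  have hin : D (τ ^ 2) ∈ K := hDK _ (by positivity) (by linarith)
  have h1 := hcomp _ hin
  rw [hbD τ hτ0] at h1
  have h2 := hcon _ (hKr _ hin) (by rw [hDk]; positivity) (by rw [hDr]; positivity)
  have h3 : ‖D (τ ^ 2)‖ ^ 3 ≤ (2 * τ ^ 2) ^ 3 := by
    have := hDn' (τ ^ 2) (by positivity)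
    gcongr
  have h4 : C * ‖D (τ ^ 2)‖ ^ 3 ≤ |C| * (2 * τ ^ 2) ^ 3 := by
    calc C * ‖D (τ ^ 2)‖ ^ 3 ≤ |C| * ‖D (τ ^ 2)‖ ^ 3 :=
          mul_le_mul_of_nonneg_right (le_abs_self C) (by positivity)
      _ ≤ _ := by gcongr
  have h5 : k * (c₀ * τ ^ 5) ≤ |C| * (2 * τ ^ 2) ^ 3 := by linarith
  have h6 : |C| * (2 * τ ^ 2) ^ 3 = (8 * |C| * τ) * τ ^ 5 := by ring
  have h7 : (τ * (16 * (|C| + 1))) * τ ^ 5 ≤ (k * c₀) * τ ^ 5 := by gcongr
  have h8 : 0 < τ ^ 5 := by positivity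
  have h9 : (8 * |C| * τ) * τ ^ 5 < (τ * (16 * (|C| + 1))) * τ ^ 5 := by
    apply mul_lt_mul_of_pos_right _ h8
    have := abs_nonneg C
    nlinarith
  linarith

end Cyl
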