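import Pool.Agent.Cyl.Base2

open MeasureTheory Set Filter Topology Metric
open scoped ContDiff

noncomputable section

namespace Cyl

universe u

/-- expansion of a plane vector in the basis `κ τ, i τ` -/
theorem Cov.expand2 {τ : ℂ} {κ : ℝ} (hτ : ‖τ‖ = 1) (hκ : κ = 1 ∨ κ = -1) (z : ℂ) :
    z = ip z ((κ : ℂ) * τ) • ((κ : ℂ) * τ) + ip z (Complex.I * τ) • (Complex.I * τ) := by
  have h1 : τ.re * τ.re + τ.im * τ.im = 1 := by
    have h2 := Complex.normSq_apply τ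
    rw [Complex.normSq_eq_norm_sq, hτ] at h2
    linarith
  have hκ2 : κ * κ = 1 := by rcases hκ with h | h <;> rw [h] <;> norm_num
  apply Complex.ext
  · simp [ip]
    linear_combination (-z.re) * h1 - (τ.re * (z.re * τ.re + z.im * τ.im)) * hκ2
  · simp [ip]
    linear_combination (-z.im) * h1 - (τ.im * (z.re * τ.re + z.im * τ.im)) * hκ2

/-- COV. -/
theorem COV_holds (hBC : BdCollarStatement.{u}) (hVB : VertBdStatement.{u})
    (hND : NoDownStatement.{u}) : CovStatement.{u} := by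
  intro M _ _ _ S hC hT θ hG V hV
  obtain ⟨V₀, hV₀, hV₀t⟩ := hG
  obtain ⟨hν1, hν2⟩ := hND M S hC θ
  rcases lt_or_eq_of_le hν2 with hν | hν
  · obtain ⟨V', hV', hsub, -, -, -, δ, hδ, hcov⟩ :=
      hBC M S hC θ (abs_lt.2 ⟨hν1, hν⟩) (V ∩ V₀) (inter_mem hV hV₀)
    refine ⟨δ, hδ, fun x hx hxδ => ?_⟩
    obtain ⟨q, hq, hqx⟩ := hcov x hx hxδ
    exact ⟨q, ⟨(hsub hq.1).1, hV₀t ⟨(hsub hq.1).2, hq.2⟩⟩, hqx⟩
  · obtain ⟨κ, F, r, g, e, hp⟩ := hVB M S hC θ hν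
    obtain ⟨ε, hε, hball⟩ := hp.patch.exists_ball (inter_mem hV hV₀)
    have hr := hp.patch.r_pos
    obtain ⟨ρ, hρ, hρε, hρr⟩ : ∃ ρ > 0, 2 * ρ ≤ ε ∧ 2 * ρ ≤ r :=
      ⟨min ε r / 2, by positivity, by linarith [min_le_left ε r], by linarith [min_le_right ε r]⟩
    have hR : ∀ s1 t : ℝ, |s1| < ρ → 0 ≤ t → t ≤ ρ →
        (⟨s1, t⟩ : ℂ) ∈ halfDisc r (fun _ => 0) ∧ ‖(⟨s1, t⟩ : ℂ)‖ < ε := by
      intro s1 t h1 h2 h3
      have h4 : ‖(⟨s1, t⟩ : ℂ)‖ < 2 * ρ := by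
        refine lt_of_le_of_lt (Complex.norm_le_abs_re_add_abs_im _) ?_
        simp only
        rw [abs_of_nonneg h2]
        linarith
      exact ⟨⟨mem_ball_zero_iff.2 (by linarith), h2⟩, by linarith⟩
    have hf : ∀ s ∈ halfDisc r (fun _ => 0), (S.f (e.symm s)).1 =
        S.γ θ + s.re • ((κ : ℂ) * deriv S.γ θ) + g s • (Complex.I * deriv S.γ θ) := by
      intro s hs
      rw [hp.patch.param s hs, Frame.pt, hp.ha, hp.hb, hp.hn, S.f_b]
      simp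
    have htop : ∀ s1 t : ℝ, |s1| < ρ → 0 < t → t ≤ ρ →
        e.symm ⟨s1, t⟩ ∈ V ∩ S.top := by
      intro s1 t h1 h2 h3
      obtain ⟨h4, h5⟩ := hR s1 t h1 h2.le h3
      have h6 := hball _ h4 h5
      refine ⟨h6.1, hV₀t ⟨h6.2, ?_⟩⟩
      intro h7
      exact h2.ne' ((hp.bd_iff _ h4).1 h7)
    have hin : ∀ s1 t : ℝ, |s1| < ρ → 0 < t → t ≤ ρ → g (s1 : ℂ) < g ⟨s1, t⟩ := by
      intro s1 t h1 h2 h3
      exact (hp.inside _ (hR s1 t h1 h2.le h3).1).1 (htop s1 t h1 h2 h3).2.1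
    have hgc : ContinuousOn g (ball 0 r) := hp.patch.smooth.continuousOn
    -- height of the collar
    obtain ⟨η, hη⟩ : ∃ η, η = g ⟨0, ρ⟩ := ⟨_, rfl⟩
    have hη0 : 0 < η := by
      have h1 := hin 0 ρ (by simpa using hρ) hρ le_rfl
      rw [← hη] at h1
      simpa [hp.patch.g_zero] using h1
    have hcont : ContinuousAt (fun s1 : ℝ => g ⟨s1, ρ⟩) 0 := by
      have h1 : ContinuousAt g (⟨0, ρ⟩ : ℂ) :=
        hgc.continuousAt (isOpen_ball.mem_nhds (hR 0 ρ (by simpa using hρ) hρ.le le_rfl).1.1)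
      have h2 : Continuous fun s1 : ℝ => (⟨s1, ρ⟩ : ℂ) := by
        have e1 : (fun s1 : ℝ => (⟨s1, ρ⟩ : ℂ)) = fun s1 : ℝ => (s1 : ℂ) + (ρ : ℂ) * Complex.I :=
          funext fun s1 => Complex.mk_eq_add_mul_I _ _
        rw [e1]; fun_prop
      exact ContinuousAt.comp (f := fun s1 : ℝ => (⟨s1, ρ⟩ : ℂ)) (x := (0 : ℝ)) h1 h2.continuousAt
    have hev : ∀ᶠ s1 : ℝ in 𝓝 0, η / 2 < g ⟨s1, ρ⟩ :=
      hcont.eventually (lt_mem_nhds (show η / 2 < g ⟨0, ρ⟩ by rw [← hη]; linarith))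
    rw [Metric.eventually_nhds_iff] at hev
    obtain ⟨δ₁, hδ₁, hev⟩ := hev
    refine ⟨min (min δ₁ (η / 2)) ρ, by positivity, fun x hx hxδ => ?_⟩
    have hx1 : ‖x - S.γ θ‖ < δ₁ := hxδ.trans_le ((min_le_left _ _).trans (min_le_left _ _))
    have hx2 : ‖x - S.γ θ‖ < η / 2 := hxδ.trans_le ((min_le_left _ _).trans (min_le_right _ _))
    have hx3 : ‖x - S.γ θ‖ < ρ := hxδ.trans_le (min_le_right _ _)
    have hτ := S.curve.unit θ
    have hexp := Cov.expand2 hτ hp.sign (x - S.γ θ)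
    obtain ⟨s1, hs1⟩ : ∃ s1, s1 = ip (x - S.γ θ) ((κ : ℂ) * deriv S.γ θ) := ⟨_, rfl⟩
    obtain ⟨y, hy⟩ : ∃ y, y = ip (x - S.γ θ) (Complex.I * deriv S.γ θ) := ⟨_, rfl⟩
    rw [← hs1, ← hy] at hexp
    have hκn : ‖(κ : ℂ)‖ = 1 := by
      rcases hp.sign with h | h <;> rw [h] <;> simp
    have hs1a : |s1| ≤ ‖x - S.γ θ‖ := by
      rw [hs1]
      refine (abs_ip_le _ _).trans ?_
      rw [norm_mul, hκn, hτ]; simp
    have hya : |y| ≤ ‖x - S.γ θ‖ := by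
      rw [hy]
      refine (abs_ip_le _ _).trans ?_
      rw [norm_mul, hτ]; simp
    have hs1ρ : |s1| < ρ := hs1a.trans_lt hx3
    have hxe : x = S.γ θ + s1 • ((κ : ℂ) * deriv S.γ θ) + y • (Complex.I * deriv S.γ θ) := by
      rw [add_assoc, ← hexp]; ring
    have hylt : y < g ⟨s1, ρ⟩ := by
      have h1 := hev (y := s1) (by rw [Real.dist_eq, sub_zero]; exact hs1a.trans_lt hx1)
      have h2 := (abs_le.1 hya).2
      linarith
    have hygt : g (s1 : ℂ) < y := by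
      by_contra hcon
      push Not at hcon
      have h1 := hR s1 0 hs1ρ le_rfl hρ.le
      have h1' : (⟨s1, 0⟩ : ℂ) = (s1 : ℂ) := by apply Complex.ext <;> simp
      have h2 : e.symm ⟨s1, 0⟩ ∈ S.bd := (hp.bd_iff _ h1.1).2 rfl
      have h3 : (S.f (e.symm ⟨s1, 0⟩)).1 ∈ frontier S.D := by
        have h4 : S.f (e.symm ⟨s1, 0⟩) ∈ frontier S.D ×ˢ ({0} : Set ℝ) := by
          rw [← S.img_bd]; exact mem_image_of_mem _ h2
        exact h4.1
      rw [hf _ h1.1] at h3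
      simp only at h3
      rw [h1'] at h3
      have h4 := (htop s1 ρ hs1ρ hρ le_rfl).2.1
      rw [hf _ (hR s1 ρ hs1ρ hρ.le le_rfl).1] at h4
      simp only at h4
      have h5 := hin s1 ρ hs1ρ hρ le_rfl
      -- a convex combination
      have h6 : 0 < g ⟨s1, ρ⟩ - y := by linarith
      have h7 : S.γ θ + s1 • ((κ : ℂ) * deriv S.γ θ) + g (s1 : ℂ) • (Complex.I * deriv S.γ θ) ∈
          S.D := by
        have h8 := S.curve.convex hx h4
          (a := (g ⟨s1, ρ⟩ - g (s1 : ℂ)) / (g ⟨s1, ρ⟩ - y))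
          (b := (g (s1 : ℂ) - y) / (g ⟨s1, ρ⟩ - y))
          (div_nonneg (by linarith) h6.le) (div_nonneg (by linarith) h6.le)
          (by rw [← add_div, div_eq_one_iff_eq h6.ne']; ring)
        convert h8 using 1
        rw [hxe]
        obtain ⟨A, hA⟩ : ∃ A, A = (g ⟨s1, ρ⟩ - g (s1 : ℂ)) / (g ⟨s1, ρ⟩ - y) := ⟨_, rfl⟩
        obtain ⟨B, hB⟩ : ∃ B, B = (g (s1 : ℂ) - y) / (g ⟨s1, ρ⟩ - y) := ⟨_, rfl⟩
        have hAB : A + B = 1 := by
          rw [hA, hB, ← add_div, div_eq_one_iff_eq h6.ne']; ring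
        have hg : g (s1 : ℂ) = A * y + B * g ⟨s1, ρ⟩ := by
          rw [hA, hB]; field_simp; ring
        rw [← hA, ← hB]
        conv_lhs => rw [hg]
        have hA' : A = 1 - B := by linarith
        rw [hA']
        module
      rw [S.curve.isOpen.frontier_eq] at h3
      exact h3.2 h7
    -- intermediate value
    have hc2 : ContinuousOn (fun t : ℝ => g ⟨s1, t⟩) (Icc 0 ρ) := by
      have h2 : Continuous fun t : ℝ => (⟨s1, t⟩ : ℂ) := by
        have e1 : (fun t : ℝ => (⟨s1, t⟩ : ℂ)) = fun t : ℝ => (s1 : ℂ) + (t : ℂ) * Complex.I :=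
          funext fun t => Complex.mk_eq_add_mul_I _ _
        rw [e1]; fun_prop
      exact hgc.comp h2.continuousOn fun t ht => (hR s1 t hs1ρ ht.1 ht.2).1.1
    have h0' : (⟨s1, 0⟩ : ℂ) = (s1 : ℂ) := by apply Complex.ext <;> simp
    obtain ⟨t, ht, hty⟩ := intermediate_value_Icc hρ.le hc2
      (show y ∈ Icc (g ⟨s1, 0⟩) (g ⟨s1, ρ⟩) from ⟨by rw [h0']; exact hygt.le, hylt.le⟩)
    simp only at hty
    have ht0 : 0 < t := by
      rcases lt_or_eq_of_le ht.1 with h | h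
      · exact h
      · rw [← h, h0'] at hty
        linarith
    refine ⟨e.symm ⟨s1, t⟩, htop s1 t hs1ρ ht0 ht.2, ?_⟩
    rw [hf _ (hR s1 t hs1ρ ht.1 ht.2).1]
    simp only
    rw [hty, ← hxe]

end Cyl
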