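import Pool.Agent.Cyl.BASIC

/-!
# Module FDATA
-/

open MeasureTheory Set Filter Topology Metric
open scoped ContDiff

noncomputable section

namespace Cyl

universe u

theorem ip_sq_add (a b : ℂ) : (ip a b) ^ 2 + (ip a (Complex.I * b)) ^ 2 = ‖a‖ ^ 2 * ‖b‖ ^ 2 := by
  rw [← ip_self, ← ip_self]
  simp only [ip, Complex.mul_re, Complex.mul_im, Complex.I_re, Complex.I_im]
  ring

theorem Frame.norm_n_le_one (F : Frame) : ‖F.n‖ ≤ 1 := by
  have h := F.hnn
  unfold dot at h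
  rw [ip_self] at h
  rw [Prod.norm_def]
  apply max_le
  · nlinarith [norm_nonneg F.n.1, mul_self_nonneg F.n.2]
  · rw [Real.norm_eq_abs, abs_le]
    constructor <;> nlinarith [norm_nonneg F.n.1, sq_nonneg ‖F.n.1‖]

/-- points of the closure of `D` lie in the supporting half planes -/
theorem ConvexCurve.inner_closure {D : Set ℂ} {γ : ℝ → ℂ} {L : ℝ} (h : ConvexCurve D γ L) (θ : ℝ)
    {x : ℂ} (hx : x ∈ closure D) : 0 ≤ ip (x - γ θ) (Complex.I * deriv γ θ) := by
  have hcl : IsClosed {x : ℂ | 0 ≤ ip (x - γ θ) (Complex.I * deriv γ θ)} := by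
    apply isClosed_le continuous_const
    unfold ip
    fun_prop
  have hsub : D ⊆ {x : ℂ | 0 ≤ ip (x - γ θ) (Complex.I * deriv γ θ)} :=
    fun y hy => (h.inner θ y hy).le
  exact (hcl.closure_subset_iff.2 hsub) hx

section patch

variable {M : Type u} [TopologicalSpace M]
variable {f N : M → E3} {bd : Set M} {H : ℝ} {q q' : M} {F : Frame} {r : ℝ} {g : ℂ → ℝ}
  {R : Set ℂ} {e : PartialEquiv M ℂ} {s : ℂ}

theorem Patch.hasFDerivAt_zero (hP : Patch f N H q F r g R e) :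
    HasFDerivAt g (0 : ℂ →L[ℝ] ℝ) 0 := by
  have h1 : DifferentiableAt ℝ g 0 :=
    (hP.smooth.contDiffAt (ball_mem_nhds _ hP.r_pos)).differentiableAt (by simp)
  have h2 : fderiv ℝ g 0 = 0 := by
    apply ContinuousLinearMap.ext
    intro v
    rw [fderiv_re_im, hP.d1_zero, hP.d2_zero]; simp
  rw [← h2]; exact h1.hasFDerivAt

theorem Patch.g_small (hP : Patch f N H q F r g R e) {η : ℝ} (hη : 0 < η) :
    ∃ δ > 0, ∀ s : ℂ, ‖s‖ < δ → |g s| ≤ η * ‖s‖ := by
  have h := (hP.hasFDerivAt_zero.isLittleO).bound hη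
  rw [Metric.eventually_nhds_iff] at h
  obtain ⟨δ, hδ, h⟩ := h
  refine ⟨δ, hδ, fun s hs => ?_⟩
  have := h (y := s) (by simpa using hs)
  simpa [hP.g_zero] using this

theorem Frame.pt_sub_ray (F : Frame) (p : E3) (g : ℂ → ℝ) (τ : ℝ) :
    F.pt p g ((τ : ℂ) * Complex.I) - (p + τ • F.b) = g ((τ : ℂ) * Complex.I) • F.n := by
  unfold Frame.pt
  simp

end patch

theorem FDATA_holds (hG : GraphJetStatement) (hFl : FluxStatement.{u}) (hO : OntoStatement.{u}) :
    FluxDataStatement.{u} := by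
  intro M _ _ _ S hc
  have hfc := S.surf.continuous_f
  have hNc := S.surf.continuous_N
  have hbc := S.continuous_b
  have hγ' : Continuous (deriv S.γ) := S.curve.smooth.continuous_deriv (by simp)
  have hνc : Continuous S.ν := by
    have h1 : Continuous fun θ => S.N (S.b θ) := hNc.comp hbc
    unfold Setup.ν ip
    fun_prop
  have hcn : ∀ θ, S.cn (-1) θ = (((-(S.N (S.b θ)).2 : ℝ) : ℂ) * (Complex.I * deriv S.γ θ), S.ν θ) := by
    intro θ
    unfold Setup.cn
    apply Prod.ext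
    · simp
    · simp
  -- boundary patches
  have hpatch : ∀ θ, ∃ F r g β e, BdPatch S.f S.N S.bd S.H (S.b θ) F r g β e ∧ F.b = S.cn (-1) θ := by
    intro θ
    obtain ⟨F, r, g, β, e, h⟩ := S.surf.boundary (S.b θ) (S.b_mem θ)
    exact ⟨F, r, g, β, e, h, hc θ F r g β e h⟩
  -- points on the inner conormal curve
  have hray : ∀ θ, ∀ η > 0, ∃ δ > 0, ∀ τ : ℝ, 0 < τ → τ < δ → ∃ q, ‖S.f q - ((S.γ θ, (0 : ℝ)) +
      τ • S.cn (-1) θ)‖ ≤ η * τ := by
    intro θ η hη
    obtain ⟨F, r, g, β, e, hB, hb⟩ := hpatch θ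
    obtain ⟨δ, hδ, h⟩ := hB.1.g_small hη
    refine ⟨min δ r, lt_min hδ hB.1.r_pos, fun τ hτ hτ' => ⟨e.symm ((τ : ℂ) * Complex.I), ?_⟩⟩
    have hn : ‖((τ : ℂ) * Complex.I)‖ = τ := by simp [abs_of_pos hτ]
    have hR : ((τ : ℂ) * Complex.I) ∈ halfDisc r β := by
      refine ⟨?_, ?_⟩
      · simp only [mem_ball, dist_zero_right, hn]
        exact hτ'.trans_le (min_le_right _ _)
      · simp [hB.2.2.1, hτ.le]
    rw [hB.1.param _ hR, S.f_b, ← hb, F.pt_sub_ray, norm_smul]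
    have h1 := h ((τ : ℂ) * Complex.I) (by rw [hn]; exact hτ'.trans_le (min_le_left _ _))
    rw [hn] at h1
    calc ‖g ((τ : ℂ) * Complex.I)‖ * ‖F.n‖ ≤ (η * τ) * 1 :=
          mul_le_mul h1 F.norm_n_le_one (norm_nonneg _) (by positivity)
      _ = η * τ := mul_one _
  have hiN : ∀ θ, ip (S.cn (-1) θ).1 (Complex.I * deriv S.γ θ) = -(S.N (S.b θ)).2 := by
    intro θ
    rw [hcn]
    simp only
    rw [ip_ofReal_mul_left, ip_I_mul, ip_self, S.curve.unit]
    ring
  refine ⟨S.curve, S.H_pos, isCompact_range hfc, ?_, ?_, ?_, ?_, hνc, ?_, ?_, ?_, ?_⟩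
  · rintro X ⟨q, rfl⟩; exact S.cyl q
  · intro x hx
    obtain ⟨q, hq⟩ := hO M S (-1) (Or.inr rfl) hc x hx
    exact ⟨S.f q, mem_range_self q, hq⟩
  · intro θ; rw [← S.f_b θ]; exact mem_range_self _
  · rintro X ⟨q, rfl⟩ hX
    have hq : q ∉ S.bd := by
      intro hq
      apply hX
      rw [← S.img_bd]
      exact mem_image_of_mem _ hq
    obtain ⟨F, r, g, e, hp⟩ := S.surf.interior q hq
    have h1 : F.pt (S.f q) g 0 = S.f q := by simp [Frame.pt, hp.1.g_zero]
    have h2 := hG (range S.f) F (S.f q) g 0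
      ((hp.1.smooth.contDiffAt (ball_mem_nhds _ hp.1.r_pos)).of_le (by norm_cast)) (by
        filter_upwards [ball_mem_nhds (0 : ℂ) hp.1.r_pos] with t ht
        rw [← hp.1.param t ht]
        exact mem_range_self _)
    rw [h1] at h2
    refine ⟨F, _, _, h2, ?_⟩
    have h3 := hp.1.mean 0 hp.1.zero_mem
    unfold mc at h3
    rw [h3, abs_of_pos (by have := S.H_pos; positivity)]
  · intro θ
    -- nonnegativity of the horizontal component
    by_contra hneg
    rw [not_le] at hneg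
    set A : ℝ := -(S.N (S.b θ)).2 with hA
    obtain ⟨δ, hδ, h⟩ := hray θ (-A / 4) (by linarith)
    obtain ⟨q, hq⟩ := h (δ / 2) (by positivity) (by linarith)
    have h1 := S.curve.inner_closure θ (S.cyl q)
    set V : E3 := S.f q - ((S.γ θ, (0 : ℝ)) + (δ / 2) • S.cn (-1) θ) with hV
    have h2 : (S.f q).1 - S.γ θ = V.1 + (δ / 2) • (S.cn (-1) θ).1 := by
      rw [hV]; simp; ring
    rw [h2, ip_add_left, ip_smul_left, hiN θ] at h1
    have h3 : ip V.1 (Complex.I * deriv S.γ θ) ≤ -A / 4 * (δ / 2) := by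
      calc ip V.1 (Complex.I * deriv S.γ θ) ≤ ‖V.1‖ * ‖Complex.I * deriv S.γ θ‖ := ip_le _ _
        _ = ‖V.1‖ := by rw [norm_mul, Complex.norm_I, S.curve.unit]; ring
        _ ≤ ‖V‖ := norm_fst_le V
        _ ≤ _ := hq
    nlinarith
  · intro θ
    have h1 := S.surf.unit (S.b θ)
    have h2 := S.dot_N_tangent θ
    unfold dot at h1 h2
    rw [ip_self] at h1
    have h3 := ip_sq_add (S.N (S.b θ)).1 (deriv S.γ θ)
    rw [S.curve.unit] at h3
    have h4 : ip (S.N (S.b θ)).1 (deriv S.γ θ) = 0 := by simpa using h2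
    rw [h4] at h3
    unfold Setup.ν
    nlinarith
  · intro θ η hη
    obtain ⟨δ, hδ, h⟩ := hray θ η hη
    refine ⟨δ, hδ, fun τ h1 h2 => ?_⟩
    obtain ⟨q, hq⟩ := h τ h1 h2
    refine ⟨S.f q, mem_range_self q, ?_⟩
    rw [hcn] at hq
    exact hq
  · exact hFl M S (-1) (Or.inr rfl) hc

end Cyl
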