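import Pool.Agent.Cyl.Stmt2

/-!
# Statements of the modules, part 3: sub-modules of WEAK and STOKES
-/

open MeasureTheory Set Filter Topology Metric
open scoped ContDiff

noncomputable section

namespace Cyl

universe u

/-! ## sub-modules of WEAK -/

/-- second difference -/
def dd (u : ℂ → ℝ) (v x : ℂ) : ℝ := u (x + v) + u (x - v) - 2 * u x

/-- discrete version of `lin q (D²u)` at scale `1/(n+1)` -/
def D2n (u : ℂ → ℝ) (q : ℂ) (n : ℕ) (x : ℂ) : ℝ :=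
  ((n : ℝ) + 1) ^ 2 * (dd u (((((n : ℝ) + 1)⁻¹ : ℝ) : ℂ)) x
    + dd u (((((n : ℝ) + 1)⁻¹ : ℝ) : ℂ) * Complex.I) x
    + dd u (((((n : ℝ) + 1)⁻¹ : ℝ) : ℂ) * (Complex.I * q)) x)

/-- WEAK1. -/
def Weak1Statement : Prop :=
  ∀ (u : ℂ → ℝ) (c : ℝ), 0 ≤ c → ConvexOn ℝ univ (fun x => u x + c / 2 * ‖x‖ ^ 2) →
  ∀ (q : ℂ) (F : ℂ → ℝ) (K : ℝ), Measurable F → (∀ x, |F x| ≤ K) →
  (∀ᵐ x, ∀ η > 0, ∀ᶠ n in atTop, F x - η ≤ D2n u q n x) →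
  ∀ ψ : ℂ → ℝ, ContDiff ℝ ∞ ψ → HasCompactSupport ψ → (∀ x, 0 ≤ ψ x) →
  ∫ x, ψ x * F x ≤ ∫ x, u x * lin q (hess ψ x)

/-- WEAK2. Mollification. -/
def Weak2Statement : Prop :=
  ∀ (u : ℂ → ℝ) (c : ℝ), 0 ≤ c → ConvexOn ℝ univ (fun x => u x + c / 2 * ‖x‖ ^ 2) →
  ∃ un : ℕ → ℂ → ℝ, (∀ n, ContDiff ℝ ∞ (un n)) ∧
    (∀ n, ConvexOn ℝ univ (fun x => un n x + c / 2 * ‖x‖ ^ 2)) ∧
    (∀ x, DifferentiableAt ℝ u x → Tendsto (fun n => grad (un n) x) atTop (𝓝 (grad u x))) ∧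
    ∀ (q : ℂ) (F : ℂ → ℝ) (K : ℝ), Measurable F → (∀ x, |F x| ≤ K) →
      (∀ ψ : ℂ → ℝ, ContDiff ℝ ∞ ψ → HasCompactSupport ψ → (∀ x, 0 ≤ ψ x) →
        ∫ x, ψ x * F x ≤ ∫ x, u x * lin q (hess ψ x)) →
      ∀ᵐ x, ∀ η > 0, ∀ᶠ n in atTop, F x - η ≤ lin q (hess (un n) x)

/-- WEAK3. -/
def Weak3Statement : Prop := Weak1Statement → Weak2Statement → WeakIneqStatement

/-! ## sub-modules of STOKES -/

/-- cross product -/
def cross (X Y : E3) : E3 :=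
  (⟨X.1.im * Y.2 - X.2 * Y.1.im, X.2 * Y.1.re - X.1.re * Y.2⟩, X.1.re * Y.1.im - X.1.im * Y.1.re)

/-- orientation of a frame, `±1` -/
def Frame.det (F : Frame) : ℝ := dot (cross F.a F.b) F.n

/-- first tangent vector of a graph -/
def Frame.X1 (F : Frame) (g : ℂ → ℝ) (s : ℂ) : E3 := F.a + d1 g s • F.n

/-- second tangent vector of a graph -/
def Frame.X2 (F : Frame) (g : ℂ → ℝ) (s : ℂ) : E3 := F.b + d2 g s • F.n

variable {M : Type u} [TopologicalSpace M]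

/-- ST1. A partition of unity of `ℝ³` which, lifted to the surface, is subordinate to given
open neighbourhoods `U q` of the points `q` on which `f` is injective. -/
def LiftPartitionStatement : Prop :=
  ∀ (M : Type u) [TopologicalSpace M] [CompactSpace M] [T2Space M] (f : M → E3), Continuous f →
    ∀ U : M → Set M, (∀ q, IsOpen (U q)) → (∀ q, q ∈ U q) → (∀ q, InjOn f (U q)) →
    ∃ (n m : ℕ) (ρ : Fin n → E3 → ℝ) (Q : Fin m → M) (V : Fin n → Fin m → Set M),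
      (∀ k, ContDiff ℝ ∞ (ρ k)) ∧
      (∃ O : Set E3, IsOpen O ∧ range f ⊆ O ∧ ∀ X ∈ O, ∑ k, ρ k X = 1) ∧
      (∀ k i, IsOpen (V k i)) ∧ (∀ k i j, i ≠ j → Disjoint (V k i) (V k j)) ∧
      (∀ k q, f q ∈ tsupport (ρ k) → ∃ i, q ∈ V k i) ∧
      (∀ k i, V k i ⊆ U (Q i)) ∧
      (∀ k i, IsCompact {q | q ∈ V k i ∧ f q ∈ tsupport (ρ k)})

/-- ST2. Stokes' theorem on one patch. -/
def PlanarStokesStatement : Prop :=
  ∀ (r : ℝ) (g : ℂ → ℝ) (F : Frame) (p : E3) (R O O' : Set ℂ) (Y' : ℂ → ℂ) (ρ : E3 → ℝ), 0 < r →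
    ContDiffOn ℝ ∞ g (ball 0 r) → ContDiffOn ℝ 1 Y' (ball 0 r) → ContDiff ℝ ∞ ρ →
    IsOpen O' → O = O' ∩ R → IsCompact {s | s ∈ O ∧ F.pt p g s ∈ tsupport ρ} →
    (∀ s ∈ R, d1 (fun t => ip (Y' t) (F.X2 g t).1) s = d2 (fun t => ip (Y' t) (F.X1 g t).1) s) →
    (R = ball 0 r →
      ∫ s in O, (fderiv ℝ ρ (F.pt p g s) (F.X1 g s) * ip (Y' s) (F.X2 g s).1
        - fderiv ℝ ρ (F.pt p g s) (F.X2 g s) * ip (Y' s) (F.X1 g s).1) = 0) ∧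
    (∀ β : ℝ → ℝ, ContDiff ℝ ∞ β → R = halfDisc r β →
      ∫ s in O, (fderiv ℝ ρ (F.pt p g s) (F.X1 g s) * ip (Y' s) (F.X2 g s).1
        - fderiv ℝ ρ (F.pt p g s) (F.X2 g s) * ip (Y' s) (F.X1 g s).1) =
      ∫ t in {t : ℝ | (⟨t, β t⟩ : ℂ) ∈ O}, ρ (F.pt p g ⟨t, β t⟩) *
        ip (Y' ⟨t, β t⟩) (F.X1 g ⟨t, β t⟩ + deriv β t • F.X2 g ⟨t, β t⟩).1)

/-- ST4. Assembly of Stokes' theorem. -/
def StokesAssemblyStatement : Prop :=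
  LiftPartitionStatement.{u} → PlanarStokesStatement → AreaMeasureStatement.{u} →
    BasicStatement.{u} → StokesStatement.{u}

end Cyl
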