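import Pool.Agent.Cyl.Base2
import Pool.Agent.Cyl.Stmt3

/-!
# FINAL: the surface is a graph when all boundary points are good
-/

open MeasureTheory Set Filter Topology Metric
open scoped ContDiff

noncomputable section

namespace Cyl

universe u

theorem FINAL_holds (hCOV : CovStatement.{u}) (hLOC : LocalGraphStatement.{u})
    (hB : BasicStatement.{u}) : FinalStatement.{u} := by
  intro M _ _ _ _ S hc hT hG hU
  obtain ⟨hf, hN, hbd, hb, hper, hsurj, hNN, hNg⟩ := hB M S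
  have hD := S.curve.isOpen
  have hbd1 : ∀ q ∈ S.bd, (S.f q).1 ∈ frontier S.D ∧ (S.f q).2 = 0 := by
    intro q hq
    have h : S.f q ∈ frontier S.D ×ˢ ({0} : Set ℝ) := by
      rw [← S.img_bd]; exact mem_image_of_mem _ hq
    exact ⟨h.1, h.2⟩
  have hfr : ∀ x ∈ frontier S.D, x ∉ S.D := fun x hx hx' => by
    rw [hD.frontier_eq] at hx
    exact hx.2 hx'
  have hfrγ : ∀ x ∈ frontier S.D, ∃ θ, S.γ θ = x := by
    intro x hx
    rw [← S.curve.range_eq] at hx
    exact hx
  have hcl : ∀ x ∈ closure S.D, x ∉ S.D → x ∈ frontier S.D := fun x hx hx' => by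
    rw [hD.frontier_eq]; exact ⟨hx, hx'⟩
  have htopbd : ∀ q ∈ S.top, q ∉ S.bd := fun q hq hq' => hfr _ (hbd1 q hq').1 hq.1
  -- `top ∪ bd` is everything
  have hopen : IsOpen (S.top ∪ S.bd) := by
    rw [isOpen_iff_mem_nhds]
    rintro q (hq | hq)
    · exact mem_of_superset (hT.isOpen.mem_nhds hq) subset_union_left
    · obtain ⟨θ, hθ⟩ := hsurj q hq
      obtain ⟨V, hV, hVt⟩ := hG θ
      rw [hθ] at hV
      refine mem_of_superset hV fun q' hq' => ?_
      by_cases h : q' ∈ S.bd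
      · exact Or.inr h
      · exact Or.inl (hVt ⟨hq', h⟩)
  have hclosed : IsClosed (S.top ∪ S.bd) := by
    rw [← closure_subset_iff_isClosed]
    intro q₀ hq₀
    by_cases hq₀b : q₀ ∈ S.bd
    · exact Or.inr hq₀b
    rw [closure_union, hbd.closure_eq] at hq₀
    have hq₀t : q₀ ∈ closure S.top := by
      rcases hq₀ with h | h
      · exact h
      · exact absurd h hq₀b
    left
    by_cases hx : (S.f q₀).1 ∈ S.D
    · refine ⟨hx, ?_⟩
      have hcl2 : IsClosed {q | S.f q ∉ interior (below (range S.f))} :=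
        (isOpen_interior.preimage hf).isClosed_compl
      have hsub : S.top ⊆ {q | S.f q ∉ interior (below (range S.f))} := fun q hq => hq.2
      exact (closure_minimal hsub hcl2) hq₀t
    · exfalso
      obtain ⟨θ, hθ⟩ := hfrγ _ (hcl _ (S.cyl q₀) hx)
      have hne : q₀ ≠ S.b θ := fun h => hq₀b (h ▸ S.b_mem θ)
      obtain ⟨U, V, hUo, hVo, hqU, hbV, hdis⟩ := t2_separation hne
      obtain ⟨δ, hδ, hcov⟩ := hCOV M S hc hT θ (hG θ) V (hVo.mem_nhds hbV)
      have hW : {q | q ∈ U ∧ ‖(S.f q).1 - S.γ θ‖ < δ} ∈ 𝓝 q₀ := by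
        have h1 : ContinuousAt (fun q => ‖(S.f q).1 - S.γ θ‖) q₀ :=
          ((continuous_fst.comp hf).sub continuous_const).norm.continuousAt
        have h2 : ‖(S.f q₀).1 - S.γ θ‖ < δ := by rw [hθ, sub_self, norm_zero]; exact hδ
        exact inter_mem (hUo.mem_nhds hqU) (h1.eventually (gt_mem_nhds h2))
      obtain ⟨q, hq1, hq2⟩ := mem_closure_iff_nhds.1 hq₀t _ hW
      obtain ⟨q', hq', hq'x⟩ := hcov _ hq2.1 hq1.2
      have h3 := hU q hq2 q' hq'.2 hq'x.symm
      rw [← h3] at hq'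
      exact (Set.disjoint_left.1 hdis) hq1.1 hq'.1
  have huniv : S.top ∪ S.bd = univ :=
    IsClopen.eq_univ ⟨hclosed, hopen⟩ ⟨S.b 0, Or.inr (S.b_mem 0)⟩
  have hall : ∀ q, q ∈ S.top ∨ q ∈ S.bd := fun q => by
    have : q ∈ S.top ∪ S.bd := by rw [huniv]; trivial
    exact this
  -- the height function
  classical
  obtain ⟨w, hw⟩ : ∃ w : ℂ → ℝ, w = fun x => if h : ∃ q ∈ S.top, (S.f q).1 = x then
    (S.f (Classical.choose h)).2 else 0 := ⟨_, rfl⟩
  have hwtop : ∀ q ∈ S.top, w (S.f q).1 = (S.f q).2 := by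
    intro q hq
    have h : ∃ q' ∈ S.top, (S.f q').1 = (S.f q).1 := ⟨q, hq, rfl⟩
    have h1 := Classical.choose_spec h
    have h2 := hU _ h1.1 q hq h1.2
    rw [hw]
    simp only
    rw [dif_pos h, h2]
  have hwout : ∀ x, x ∉ S.D → w x = 0 := by
    intro x hx
    have h : ¬ ∃ q ∈ S.top, (S.f q).1 = x := by
      rintro ⟨q, hq, hqx⟩
      exact hx (hqx ▸ hq.1)
    rw [hw]
    simp only
    rw [dif_neg h]
  -- smoothness
  have hsm : ∀ x ∈ S.D, ContDiffAt ℝ ∞ w x := by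
    intro x hx
    obtain ⟨q, hq, hqx⟩ := hT.ex x hx
    obtain ⟨hL1, _, w', hw', hev⟩ := hLOC M S q (htopbd q hq) (hT.neg q hq).ne
    rw [hqx] at hL1 hw'
    have hV := hL1 _ (inter_mem hev (hT.isOpen.mem_nhds hq))
    have heq : w =ᶠ[𝓝 x] w' := by
      filter_upwards [hV] with y hy
      obtain ⟨q', ⟨h1, h2⟩, h3⟩ := hy
      have h1' : (S.f q').2 = w' (S.f q').1 := h1
      rw [← h3, ← h1', hwtop q' h2]
    exact hw'.congr_of_eventuallyEq heq
  refine ⟨w, fun x hx => (hsm x hx).contDiffWithinAt, ?_, fun x hx => hwout x (hfr x hx), ?_, ?_⟩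
  · -- continuity
    intro x hx
    by_cases hxD : x ∈ S.D
    · exact (hsm x hxD).continuousAt.continuousWithinAt
    · obtain ⟨θ, hθ⟩ := hfrγ _ (hcl _ hx hxD)
      rw [ContinuousWithinAt, hwout x hxD, Metric.tendsto_nhdsWithin_nhds]
      intro ε hε
      have hV : {q | |(S.f q).2| < ε} ∈ 𝓝 (S.b θ) := by
        have h1 : ContinuousAt (fun q => |(S.f q).2|) (S.b θ) :=
          (continuous_snd.comp hf).abs.continuousAt
        have h2 : |(S.f (S.b θ)).2| < ε := by rw [S.f_b]; simpa using hε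
        exact h1.eventually (gt_mem_nhds h2)
      obtain ⟨δ, hδ, hcov⟩ := hCOV M S hc hT θ (hG θ) _ hV
      refine ⟨δ, hδ, fun y hy hyd => ?_⟩
      rw [Real.dist_eq, sub_zero]
      by_cases hyD : y ∈ S.D
      · rw [dist_eq_norm, ← hθ] at hyd
        obtain ⟨q, hq, hqy⟩ := hcov y hyD hyd
        rw [← hqy, hwtop q hq.2]
        exact hq.1
      · rw [hwout y hyD, abs_zero]
        exact hε
  · -- injectivity
    intro q q' hqq
    rcases hall q with h | h <;> rcases hall q' with h' | h'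
    · exact hU q h q' h' (by rw [hqq])
    · exact absurd (hqq ▸ h.1 : (S.f q').1 ∈ S.D) (hfr _ (hbd1 q' h').1)
    · exact absurd (hqq ▸ h'.1 : (S.f q).1 ∈ S.D) (hfr _ (hbd1 q h).1)
    · exact S.inj_bd h h' hqq
  · -- range
    ext X
    constructor
    · rintro ⟨q, rfl⟩
      refine ⟨S.cyl q, ?_⟩
      rcases hall q with h | h
      · exact (hwtop q h).symm
      · rw [(hbd1 q h).2, hwout _ (hfr _ (hbd1 q h).1)]
    · rintro ⟨h1, h2⟩
      by_cases hx : X.1 ∈ S.D
      · obtain ⟨q, hq, hqx⟩ := hT.ex _ hx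
        refine ⟨q, Prod.ext hqx ?_⟩
        rw [h2, ← hqx, hwtop q hq]
      · have h3 : X ∈ S.f '' S.bd := by
          rw [S.img_bd]
          refine ⟨hcl _ h1 hx, ?_⟩
          rw [mem_singleton_iff, h2, hwout _ hx]
        obtain ⟨q, _, hq⟩ := h3
        exact ⟨q, hq⟩

end Cyl
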