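import Pool.Agent.Cyl.Base

/-!
# Lower jets of the sup-convolution in the tube
-/

open MeasureTheory Set Filter Topology Metric
open scoped ContDiff

noncomputable section

namespace Cyl

namespace FJetAux

/-! ### distance to the frontier -/

theorem abs_sd_le {D : Set ℂ} (x : ℂ) {p : ℂ} (hp : p ∈ frontier D) : |sd D x| ≤ ‖x - p‖ := by
  have h1 : infDist x D ≤ ‖x - p‖ := by
    rw [← infDist_closure, ← dist_eq_norm]
    exact infDist_le_dist_of_mem (frontier_subset_closure hp)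
  have h2 : infDist x Dᶜ ≤ ‖x - p‖ := by
    rw [← infDist_closure, ← dist_eq_norm]
    apply infDist_le_dist_of_mem
    rw [← frontier_compl] at hp
    exact frontier_subset_closure hp
  have h3 : (0 : ℝ) ≤ infDist x D := infDist_nonneg
  have h4 : (0 : ℝ) ≤ infDist x Dᶜ := infDist_nonneg
  unfold sd
  rw [abs_le]
  constructor <;> linarith

theorem inter_frontier {t D : Set ℂ} (ht : IsPreconnected t) (h1 : (t ∩ D).Nonempty)
    (h2 : (t ∩ Dᶜ).Nonempty) : (t ∩ frontier D).Nonempty := by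
  by_contra hne
  rw [not_nonempty_iff_eq_empty] at hne
  have hnf : ∀ y ∈ t, y ∉ frontier D := fun y hy hf =>
    (by rw [← hne]; exact ⟨hy, hf⟩ : y ∈ (∅ : Set ℂ))
  have hsub : ∀ y ∈ t, y ∈ interior D ∨ y ∈ interior Dᶜ := by
    intro y hy
    have h3 := hnf y hy
    rw [frontier_eq_closure_inter_closure] at h3
    by_cases h4 : y ∈ closure D
    · have h5 : y ∉ closure Dᶜ := fun h => h3 ⟨h4, h⟩
      left
      rw [interior_eq_compl_closure_compl]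
      exact h5
    · right
      rw [interior_compl]
      exact h4
  obtain ⟨y, hy, hyD⟩ := h1
  obtain ⟨z, hz, hzD⟩ := h2
  have hy' : y ∈ interior D := by
    rcases hsub y hy with h | h
    · exact h
    · exact absurd hyD (interior_subset h)
  have hz' : z ∈ interior Dᶜ := by
    rcases hsub z hz with h | h
    · exact absurd (interior_subset h) hzD
    · exact h
  obtain ⟨w, -, hw1, hw2⟩ := ht _ _ isOpen_interior isOpen_interior hsub ⟨y, hy, hy'⟩ ⟨z, hz, hz'⟩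
  exact interior_subset hw2 (interior_subset hw1)

theorem exists_mem_frontier {D : Set ℂ} {x q : ℂ} (h : (x ∈ D ∧ q ∉ D) ∨ (x ∉ D ∧ q ∈ D)) :
    ∃ p ∈ frontier D, ‖x - p‖ ≤ ‖x - q‖ := by
  have hc : IsPreconnected (segment ℝ x q) := (convex_segment x q).isPreconnected
  have hx : x ∈ segment ℝ x q := left_mem_segment ℝ x q
  have hq : q ∈ segment ℝ x q := right_mem_segment ℝ x q
  have hne : (segment ℝ x q ∩ frontier D).Nonempty := by
    rcases h with ⟨h1, h2⟩ | ⟨h1, h2⟩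
    · exact inter_frontier hc ⟨x, hx, h1⟩ ⟨q, hq, h2⟩
    · exact inter_frontier hc ⟨q, hq, h2⟩ ⟨x, hx, h1⟩
  obtain ⟨p, hp, hpf⟩ := hne
  refine ⟨p, hpf, ?_⟩
  obtain ⟨a, b, ha, hb, hab, rfl⟩ := hp
  have e : x - (a • x + b • q) = b • (x - q) := by
    have : a = 1 - b := by linarith
    rw [this]
    simp only [Complex.real_smul]
    push_cast
    ring
  rw [e, norm_smul, Real.norm_eq_abs, abs_of_nonneg hb]
  have : b ≤ 1 := by linarith
  exact mul_le_of_le_one_left (norm_nonneg _) this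

theorem exists_frontier_le {D : Set ℂ} (hD : D.Nonempty) (hD' : (Dᶜ).Nonempty) (x : ℂ) :
    ∃ p ∈ frontier D, ‖x - p‖ ≤ |sd D x| := by
  by_cases hx : x ∈ D
  · obtain ⟨q, hq, hq'⟩ := isClosed_closure.exists_infDist_eq_dist (hD'.closure) x
    rw [infDist_closure] at hq'
    have e1 : |sd D x| = infDist x Dᶜ := by
      unfold sd
      rw [infDist_zero_of_mem hx, zero_sub, abs_neg, abs_of_nonneg infDist_nonneg]
    rw [e1, hq']
    by_cases hqD : q ∈ D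
    · -- q is in `D` and in the closure of the complement: it is a frontier point
      refine ⟨q, ?_, by rw [dist_eq_norm]⟩
      rw [frontier_eq_closure_inter_closure]
      exact ⟨subset_closure hqD, hq⟩
    · obtain ⟨p, hp, hp'⟩ := exists_mem_frontier (Or.inl ⟨hx, hqD⟩)
      exact ⟨p, hp, by rw [dist_eq_norm]; exact hp'⟩
  · obtain ⟨q, hq, hq'⟩ := isClosed_closure.exists_infDist_eq_dist (hD.closure) x
    rw [infDist_closure] at hq'
    have e1 : |sd D x| = infDist x D := by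
      unfold sd
      rw [infDist_zero_of_mem (s := Dᶜ) hx, sub_zero, abs_of_nonneg infDist_nonneg]
    rw [e1, hq']
    by_cases hqD : q ∈ D
    · obtain ⟨p, hp, hp'⟩ := exists_mem_frontier (Or.inr ⟨hx, hqD⟩)
      exact ⟨p, hp, by rw [dist_eq_norm]; exact hp'⟩
    · refine ⟨q, ?_, by rw [dist_eq_norm]⟩
      rw [frontier_eq_closure_inter_closure]
      exact ⟨hq, subset_closure hqD⟩

/-! ### Taylor -/

theorem taylor2 {γ : ℝ → ℂ} (hγ : ContDiff ℝ ∞ γ) (θ : ℝ) : ∀ η > 0, ∃ δ > 0, ∀ σ : ℝ, |σ| < δ →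
    ‖γ (θ + σ) - γ θ - σ • deriv γ θ - (σ ^ 2 / 2) • deriv (deriv γ) θ‖ ≤ η * σ ^ 2 := by
  intro η hη
  have hd : ContDiff ℝ ∞ (deriv γ) := by
    have := (contDiff_infty_iff_deriv.1 hγ).2
    exact this
  have hd' : HasDerivAt (deriv γ) (deriv (deriv γ) θ) θ :=
    ((hd.differentiable (by simp)) θ).hasDerivAt
  have h1 := hasDerivAt_iff_isLittleO.1 hd'
  have h2 := (Asymptotics.isLittleO_iff.1 h1) hη
  obtain ⟨δ, hδ, hδ'⟩ := Metric.eventually_nhds_iff.1 h2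
  refine ⟨δ, hδ, fun σ hσ => ?_⟩
  set g : ℝ → ℂ := fun s => γ (θ + s) - γ θ - s • deriv γ θ - (s ^ 2 / 2) • deriv (deriv γ) θ
    with hg
  have hgd : ∀ s, HasDerivAt g (deriv γ (θ + s) - deriv γ θ - s • deriv (deriv γ) θ) s := by
    intro s
    have e1 : HasDerivAt (fun s => γ (θ + s)) (deriv γ (θ + s)) s := by
      have := ((hγ.differentiable (by simp)) (θ + s)).hasDerivAt.comp_const_add θ s
      exact this
    have e2 : HasDerivAt (fun s : ℝ => s • deriv γ θ) (deriv γ θ) s := by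
      simpa using (hasDerivAt_id s).smul_const (deriv γ θ)
    have e3 : HasDerivAt (fun s : ℝ => (s ^ 2 / 2) • deriv (deriv γ) θ)
        (s • deriv (deriv γ) θ) s := by
      have := ((hasDerivAt_pow 2 s).div_const 2).smul_const (deriv (deriv γ) θ)
      simpa using this
    exact ((e1.sub_const _).sub e2).sub e3
  have hbound : ∀ s ∈ closedBall (0:ℝ) |σ|,
      ‖deriv γ (θ + s) - deriv γ θ - s • deriv (deriv γ) θ‖ ≤ η * |σ| := by
    intro s hs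
    rw [mem_closedBall, dist_zero_right, Real.norm_eq_abs] at hs
    have h3 := hδ' (y := θ + s) (by rw [dist_eq_norm]; simpa using hs.trans_lt hσ)
    rw [add_sub_cancel_left] at h3
    calc _ ≤ η * ‖s‖ := h3
      _ ≤ η * |σ| := by gcongr; exact hs
  have h4 := (convex_closedBall (0:ℝ) |σ|).norm_image_sub_le_of_norm_hasDerivWithin_le
    (f := g) (f' := fun s => deriv γ (θ + s) - deriv γ θ - s • deriv (deriv γ) θ)
    (C := η * |σ|) (fun s _ => (hgd s).hasDerivWithinAt) hbound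
    (mem_closedBall_self (abs_nonneg σ)) (y := σ) (by simp)
  have e0 : g 0 = 0 := by simp [hg]
  rw [e0, sub_zero, sub_zero, Real.norm_eq_abs] at h4
  calc _ = ‖g σ‖ := rfl
    _ ≤ η * |σ| * |σ| := h4
    _ = η * σ ^ 2 := by rw [mul_assoc, abs_mul_abs_self, sq]

/-! ### the frame of the curve -/

theorem gg_eq {D : Set ℂ} {γ : ℝ → ℂ} {L : ℝ} (hc : ConvexCurve D γ L) (θ : ℝ) :
    deriv (deriv γ) θ = (kap γ θ) • (Complex.I * deriv γ θ) := by
  have hd : ContDiff ℝ ∞ (deriv γ) := (contDiff_infty_iff_deriv.1 hc.smooth).2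
  have hd' : HasDerivAt (deriv γ) (deriv (deriv γ) θ) θ :=
    ((hd.differentiable (by simp)) θ).hasDerivAt
  have h1 : HasDerivAt (fun s => (deriv γ s).re) (deriv (deriv γ) θ).re θ :=
    (Complex.reCLM.hasFDerivAt.comp_hasDerivAt θ hd')
  have h2 : HasDerivAt (fun s => (deriv γ s).im) (deriv (deriv γ) θ).im θ :=
    (Complex.imCLM.hasFDerivAt.comp_hasDerivAt θ hd')
  have h3 : HasDerivAt (fun s => (deriv γ s).re ^ 2 + (deriv γ s).im ^ 2)
      (2 * (deriv γ θ).re * (deriv (deriv γ) θ).re + 2 * (deriv γ θ).im * (deriv (deriv γ) θ).im)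
      θ := by
    refine ((h1.pow 2).add (h2.pow 2)).congr_deriv ?_
    simp
  have hu : ∀ s, (deriv γ s).re ^ 2 + (deriv γ s).im ^ 2 = 1 := by
    intro s
    have := hc.unit s
    have h := ip_self (deriv γ s)
    rw [this, ip] at h
    nlinarith
  have h4 : (fun s => (deriv γ s).re ^ 2 + (deriv γ s).im ^ 2) = fun _ => 1 := funext hu
  rw [h4] at h3
  have h5 := h3.unique (hasDerivAt_const θ (1:ℝ))
  have h6 := hu θ
  unfold kap ip
  apply Complex.ext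
  · simp
    linear_combination (-(deriv (deriv γ) θ).re) * h6 + (deriv γ θ).re / 2 * h5
  · simp
    linear_combination (-(deriv (deriv γ) θ).im) * h6 + (deriv γ θ).im / 2 * h5

theorem jet_out {D : Set ℂ} {γ : ℝ → ℂ} {L H : ℝ} {S : Set E3} {a ν : ℝ → ℝ}
    (h1 : JetScStatement) (hF : FluxData D γ L H S a ν) {ε : ℝ} (hε : 0 < ε) {x : ℂ}
    (hx : x ∉ XC D ε S) : ∃ p B, LJ (sc ε S) x p B ∧ - (2 * H) ≤ curv p B := by
  have hne : S.Nonempty := ⟨_, hF.bdry 0⟩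
  obtain ⟨X, hX, hsc⟩ := exists_sc hF.compact hne ε x
  have hXn : X ∉ frontier D ×ˢ ({0} : Set ℝ) := by
    rintro ⟨hX1, hX2⟩
    apply hx
    rw [mem_singleton_iff] at hX2
    have hD0 : γ 0 ∈ frontier D := by rw [← hF.curve.range_eq]; exact mem_range_self 0
    have hDc : (Dᶜ).Nonempty := by
      refine ⟨γ 0, fun h => ?_⟩
      rw [hF.curve.isOpen.frontier_eq] at hD0
      exact hD0.2 h
    obtain ⟨p, hp, hp'⟩ := exists_frontier_le hF.curve.nonempty hDc x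
    have hpS : (p, (0:ℝ)) ∈ S := by
      rw [← hF.curve.range_eq] at hp
      obtain ⟨θ, rfl⟩ := hp
      exact hF.bdry θ
    have h2 := le_sc hF.compact ε x hpS
    have h3 := abs_sd_le x hX1
    have h2ε : 0 < 2 * ε := by linarith
    show sc ε S x = - (sd D x) ^ 2 / (2 * ε)
    apply le_antisymm
    · rw [hsc, hX2, zero_sub, neg_div, neg_le_neg_iff, ← sq_abs]
      gcongr
    · refine le_trans ?_ h2
      simp only
      rw [zero_sub, neg_div, neg_le_neg_iff, ← sq_abs (sd D x)]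
      gcongr
  obtain ⟨F, m, B, hJ, hc⟩ := hF.jet X hX hXn
  obtain ⟨B', hL, hB'⟩ := h1 S hF.compact ε hε x X hX hsc F m B hJ
  refine ⟨_, B', hL, ?_⟩
  have h2 := neg_abs_le (curv (((1 / ε : ℝ) : ℂ) * (X.1 - x)) B')
  rw [hB'] at h2
  linarith

theorem frame_decomp {τ : ℂ} (hτ : ‖τ‖ = 1) (v : ℂ) :
    v = ((ip v τ : ℝ) : ℂ) * τ + ((ip v (Complex.I * τ) : ℝ) : ℂ) * (Complex.I * τ) := by
  have h := ip_self τ
  rw [hτ, ip] at h
  apply Complex.ext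
  · simp [ip]
    linear_combination (-v.re) * h
  · simp [ip]
    linear_combination (-v.im) * h

theorem norm_frame {τ : ℂ} (hτ : ‖τ‖ = 1) (α β : ℝ) :
    ‖(α : ℂ) * τ + (β : ℂ) * (Complex.I * τ)‖ ^ 2 = α ^ 2 + β ^ 2 := by
  have h := ip_self τ
  rw [hτ, ip] at h
  rw [← ip_self]
  simp [ip]
  linear_combination (α ^ 2 + β ^ 2) * h

theorem jet_tube {D : Set ℂ} {γ : ℝ → ℂ} {L : ℝ} {S : Set E3} (hc : ConvexCurve D γ L)
    (hS : IsCompact S) (hbd : ∀ θ, (γ θ, (0 : ℝ)) ∈ S) {ε : ℝ} (hε : 0 < ε) {θ t κ J : ℝ}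
    (hκ : κ = kap γ θ) (hκ0 : 0 ≤ κ) (hJ : J = 1 + κ * t) (hJ2 : 1 / 2 ≤ J)
    (hsc : sc ε S (Phi γ θ t) = - t ^ 2 / (2 * ε)) (B : Q2)
    (hB : ∀ v, B.app v = - (1 / ε) * ((ip v (Complex.I * deriv γ θ)) ^ 2
      + t * κ / J * (ip v (deriv γ θ)) ^ 2)) :
    LJ (sc ε S) (Phi γ θ t) (((t / ε : ℝ) : ℂ) * (Complex.I * deriv γ θ)) B := by
  have hτ : ‖deriv γ θ‖ = 1 := hc.unit θ
  have hgg := gg_eq hc θ
  rw [← hκ] at hgg
  set τ : ℂ := deriv γ θ with hτdef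
  have hJ0 : 0 < J := by linarith
  intro η hη
  set C : ℝ := |t| + 4 + 2 * κ with hC
  have hC0 : 0 ≤ C := by positivity
  set η₁ : ℝ := min 1 (ε * η / (8 * C + 16)) with hη₁
  have hη₁0 : 0 < η₁ := by
    rw [hη₁]
    exact lt_min one_pos (by positivity)
  have hη₁1 : η₁ ≤ 1 := min_le_left _ _
  have hη₁2 : η₁ * (8 * C + 16) ≤ ε * η := by
    have := min_le_right 1 (ε * η / (8 * C + 16))
    rw [le_div_iff₀ (by positivity)] at this
    exact this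
  obtain ⟨δ₁, hδ₁, hT1⟩ := taylor2 hc.smooth θ η₁ hη₁0
  refine ⟨min (min 1 (δ₁ / 2)) (ε * η / (4 * κ ^ 2 + 4 * κ + 1)),
    lt_min (lt_min one_pos (by positivity)) (by positivity), fun v hv => ?_⟩
  have hv1 : ‖v‖ ≤ 1 := (hv.le.trans (min_le_left _ _)).trans (min_le_left _ _)
  have hv2 : ‖v‖ < δ₁ / 2 := hv.trans_le ((min_le_left _ _).trans (min_le_right _ _))
  have hv3 : ‖v‖ ≤ ε * η / (4 * κ ^ 2 + 4 * κ + 1) := hv.le.trans (min_le_right _ _)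
  rw [le_div_iff₀ (by positivity)] at hv3
  have hv0 : 0 ≤ ‖v‖ := norm_nonneg v
  set vt : ℝ := ip v τ with hvt
  set vn : ℝ := ip v (Complex.I * τ) with hvn
  have hvdec : v = (vt : ℂ) * τ + (vn : ℂ) * (Complex.I * τ) := frame_decomp hτ v
  have hvv : ‖v‖ ^ 2 = vt ^ 2 + vn ^ 2 := by
    conv_lhs => rw [hvdec]
    exact norm_frame hτ vt vn
  have hvt' : |vt| ≤ ‖v‖ :=
    abs_le_of_sq_le_sq (by rw [hvv]; linarith [sq_nonneg vn]) hv0
  have hvn' : |vn| ≤ ‖v‖ :=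
    abs_le_of_sq_le_sq (by rw [hvv]; linarith [sq_nonneg vt]) hv0
  set σ : ℝ := vt / J with hσ
  have hσv : |σ| ≤ 2 * ‖v‖ := by
    rw [hσ, abs_div, abs_of_pos hJ0, div_le_iff₀ hJ0]
    calc |vt| ≤ ‖v‖ := hvt'
      _ = 2 * ‖v‖ * (1 / 2) := by ring
      _ ≤ 2 * ‖v‖ * J := by gcongr
  have hR := hT1 σ (hσv.trans_lt (by linarith))
  rw [hgg] at hR
  set R : ℂ := γ (θ + σ) - γ θ - σ • τ - (σ ^ 2 / 2) • (κ • (Complex.I * τ)) with hRdef
  have hσ2 : σ ^ 2 ≤ 4 * ‖v‖ ^ 2 := by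
    rw [← sq_abs]
    calc |σ| ^ 2 ≤ (2 * ‖v‖) ^ 2 := by gcongr
      _ = _ := by ring
  have hR' : ‖R‖ ≤ 4 * η₁ * ‖v‖ ^ 2 := hR.trans (by
    calc η₁ * σ ^ 2 ≤ η₁ * (4 * ‖v‖ ^ 2) := by gcongr
      _ = _ := by ring)
  set M : ℂ := ((vt - σ : ℝ) : ℂ) * τ + ((vn - t - κ * σ ^ 2 / 2 : ℝ) : ℂ) * (Complex.I * τ) with hM
  have hle := le_sc hS ε (Phi γ θ t + v) (hbd (θ + σ))
  have e1 : Phi γ θ t + v - γ (θ + σ) = M - R := by
    conv_lhs => rw [hvdec]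
    rw [hM, hRdef, Phi, ← hτdef]
    simp only [Complex.real_smul]
    push_cast
    ring
  have hMM : ‖M‖ ^ 2 = (vt - σ) ^ 2 + (vn - t - κ * σ ^ 2 / 2) ^ 2 := norm_frame hτ _ _
  have hMC : ‖M‖ ≤ C := by
    have h1 : ‖((vt - σ : ℝ) : ℂ) * τ‖ ≤ 3 := by
      rw [norm_mul, hτ, mul_one, Complex.norm_real, Real.norm_eq_abs]
      calc |vt - σ| ≤ |vt| + |σ| := abs_sub _ _
        _ ≤ 1 + 2 := add_le_add (hvt'.trans hv1) (hσv.trans (by linarith))
        _ = 3 := by norm_num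
    have h2 : ‖((vn - t - κ * σ ^ 2 / 2 : ℝ) : ℂ) * (Complex.I * τ)‖ ≤ 1 + |t| + 2 * κ := by
      rw [norm_mul, norm_mul, Complex.norm_I, hτ, mul_one, mul_one, Complex.norm_real,
        Real.norm_eq_abs]
      have h3 : |κ * σ ^ 2 / 2| ≤ 2 * κ := by
        rw [abs_of_nonneg (by positivity)]
        have h4 : σ ^ 2 ≤ 4 := hσ2.trans (by nlinarith)
        nlinarith
      calc |vn - t - κ * σ ^ 2 / 2| ≤ |vn - t| + |κ * σ ^ 2 / 2| := abs_sub _ _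
        _ ≤ (|vn| + |t|) + |κ * σ ^ 2 / 2| := by gcongr; exact abs_sub _ _
        _ ≤ (1 + |t|) + 2 * κ := by gcongr; exact hvn'.trans hv1
        _ = _ := by ring
    calc ‖M‖ ≤ 3 + (1 + |t| + 2 * κ) := (norm_add_le _ _).trans (add_le_add h1 h2)
      _ = C := by rw [hC]; ring
  have hMR : ‖M - R‖ ^ 2 ≤ ‖M‖ ^ 2 + (8 * C + 16) * η₁ * ‖v‖ ^ 2 := by
    rw [norm_sub_sq']
    have h1 : - (2 * ip M R) ≤ 2 * (C * (4 * η₁ * ‖v‖ ^ 2)) := by
      have h2 : -ip M R ≤ ‖M‖ * ‖R‖ := by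
        have := abs_le.1 (abs_ip_le M R)
        linarith [this.1]
      have h3 : ‖M‖ * ‖R‖ ≤ C * (4 * η₁ * ‖v‖ ^ 2) := by gcongr
      linarith
    have h4 : ‖R‖ ^ 2 ≤ 16 * η₁ * ‖v‖ ^ 2 := by
      have h5 : 4 * η₁ * ‖v‖ ^ 2 ≤ 4 := by
        have h6 : ‖v‖ ^ 2 ≤ 1 := pow_le_one₀ hv0 hv1
        nlinarith
      calc ‖R‖ ^ 2 ≤ (4 * η₁ * ‖v‖ ^ 2) ^ 2 := by gcongr
        _ = (4 * η₁ * ‖v‖ ^ 2) * (4 * η₁ * ‖v‖ ^ 2) := by ring
        _ ≤ 4 * (4 * η₁ * ‖v‖ ^ 2) := by gcongr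
        _ = _ := by ring
    calc _ = ‖M‖ ^ 2 + (- (2 * ip M R)) + ‖R‖ ^ 2 := by ring
      _ ≤ ‖M‖ ^ 2 + 2 * (C * (4 * η₁ * ‖v‖ ^ 2)) + 16 * η₁ * ‖v‖ ^ 2 := by gcongr
      _ = _ := by ring
  have hmain : (vt - σ) ^ 2 + t * κ * σ ^ 2 = t * κ / J * vt ^ 2 := by
    rw [hσ]
    field_simp
    rw [hJ]
    ring
  have hextra : κ ^ 2 * σ ^ 4 / 4 - κ * vn * σ ^ 2 ≤ ε * η * ‖v‖ ^ 2 := by
    have h1 : σ ^ 4 ≤ 16 * ‖v‖ ^ 3 := by
      calc σ ^ 4 = σ ^ 2 * σ ^ 2 := by ring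
        _ ≤ (4 * ‖v‖ ^ 2) * (4 * ‖v‖ ^ 2) := by gcongr
        _ = 16 * ‖v‖ ^ 3 * ‖v‖ := by ring
        _ ≤ 16 * ‖v‖ ^ 3 * 1 := by gcongr
        _ = _ := by ring
    have h2 : - (vn * σ ^ 2) ≤ 4 * ‖v‖ ^ 3 := by
      calc - (vn * σ ^ 2) = (-vn) * σ ^ 2 := by ring
        _ ≤ ‖v‖ * σ ^ 2 := by
            gcongr
            exact (neg_le_abs vn).trans hvn'
        _ ≤ ‖v‖ * (4 * ‖v‖ ^ 2) := by gcongr
        _ = _ := by ring
    calc _ = κ ^ 2 * σ ^ 4 / 4 + κ * (- (vn * σ ^ 2)) := by ring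
      _ ≤ κ ^ 2 * (16 * ‖v‖ ^ 3) / 4 + κ * (4 * ‖v‖ ^ 3) := by gcongr
      _ = (‖v‖ * (4 * κ ^ 2 + 4 * κ)) * ‖v‖ ^ 2 := by ring
      _ ≤ (ε * η) * ‖v‖ ^ 2 := by
          apply mul_le_mul_of_nonneg_right _ (sq_nonneg _)
          refine le_trans ?_ hv3
          apply mul_le_mul_of_nonneg_left _ hv0
          linarith
  have hfin : ‖M - R‖ ^ 2 ≤ t ^ 2 - 2 * t * vn + vn ^ 2 + t * κ / J * vt ^ 2
      + 2 * (ε * η * ‖v‖ ^ 2) := by
    have h1 : (8 * C + 16) * η₁ * ‖v‖ ^ 2 ≤ ε * η * ‖v‖ ^ 2 := by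
      apply mul_le_mul_of_nonneg_right _ (sq_nonneg _)
      linarith
    have h2 : ‖M‖ ^ 2 = t ^ 2 - 2 * t * vn + vn ^ 2 + ((vt - σ) ^ 2 + t * κ * σ ^ 2)
        + (κ ^ 2 * σ ^ 4 / 4 - κ * vn * σ ^ 2) := by rw [hMM]; ring
    rw [hmain] at h2
    linarith
  rw [e1] at hle
  refine le_trans ?_ hle
  simp only
  rw [hsc, hB, ip_ofReal_mul_left, ip_comm (Complex.I * τ) v, ← hvn, ← hvt]
  have e2 : - t ^ 2 / (2 * ε) + t / ε * vn + - (1 / ε) * (vn ^ 2 + t * κ / J * vt ^ 2) / 2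
      - η * ‖v‖ ^ 2 = 0 - (t ^ 2 - 2 * t * vn + vn ^ 2 + t * κ / J * vt ^ 2
      + 2 * (ε * η * ‖v‖ ^ 2)) / (2 * ε) := by
    field_simp
    ring
  rw [e2]
  gcongr

/-- the quadratic form `-(1/ε)(⟨v, iτ⟩² + c ⟨v, τ⟩²)` -/
def tubeForm (ε c : ℝ) (τ : ℂ) : Q2 :=
  ⟨- (1 / ε) * (τ.im ^ 2 + c * τ.re ^ 2), - (1 / ε) * (- τ.im * τ.re + c * τ.re * τ.im),
    - (1 / ε) * (τ.re ^ 2 + c * τ.im ^ 2)⟩

theorem tubeForm_app (ε c : ℝ) (τ v : ℂ) : (tubeForm ε c τ).app v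
    = - (1 / ε) * ((ip v (Complex.I * τ)) ^ 2 + c * (ip v τ) ^ 2) := by
  simp [tubeForm, Q2.app, ip]
  ring

theorem curv_tubeForm {ε c t : ℝ} (hε : 0 < ε) {τ : ℂ} (hτ : ‖τ‖ = 1) :
    curv (((t / ε : ℝ) : ℂ) * (Complex.I * τ)) (tubeForm ε c τ)
      = - kk ε t - c / ε / Real.sqrt (1 + (t / ε) ^ 2) := by
  have h := ip_self τ
  rw [hτ, ip] at h
  have hW : W (((t / ε : ℝ) : ℂ) * (Complex.I * τ)) = Real.sqrt (1 + (t / ε) ^ 2) := by
    rw [W_eq, norm_mul, norm_mul, Complex.norm_I, hτ, Complex.norm_real, Real.norm_eq_abs]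
    simp [sq_abs]
  rw [curv_eq, hW]
  have hs : 0 < Real.sqrt (1 + (t / ε) ^ 2) := Real.sqrt_pos.2 (by positivity)
  have hs2 : Real.sqrt (1 + (t / ε) ^ 2) ^ 2 = 1 + (t / ε) ^ 2 := Real.sq_sqrt (by positivity)
  set w : ℝ := Real.sqrt (1 + (t / ε) ^ 2) with hw
  have e1 : (tubeForm ε c τ).app 1 + (tubeForm ε c τ).app Complex.I
      + (tubeForm ε c τ).app (Complex.I * (((t / ε : ℝ) : ℂ) * (Complex.I * τ)))
      = - (1 / ε) * (1 + c * w ^ 2) := by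
    rw [hs2]
    have e0 : Complex.I * (((t / ε : ℝ) : ℂ) * (Complex.I * τ)) = ((-(t / ε) : ℝ) : ℂ) * τ := by
      push_cast
      linear_combination ((t : ℂ) / (ε : ℂ)) * τ * Complex.I_mul_I
    rw [e0, app_smul, tubeForm_app, tubeForm_app, tubeForm_app]
    have e2 : ip τ (Complex.I * τ) = 0 := by rw [ip_comm, ip_I_mul_self]
    have e3 : ip τ τ = 1 := by rw [ip]; linarith
    rw [e2, e3]
    simp [ip]
    linear_combination (-(1 / ε) * (1 + c)) * h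
  rw [e1, kk, ← hw]
  field_simp
  ring

end FJetAux

open FJetAux in
theorem FJET_holds (h1 : JetScStatement) : FluxJetStatement := by
  intro D γ L H S a ν hF t₀ hT
  -- the curvature is bounded
  have hcont : Continuous (kap γ) := by
    have hd : ContDiff ℝ ∞ (deriv γ) := (contDiff_infty_iff_deriv.1 hF.curve.smooth).2
    have hd2 : ContDiff ℝ ∞ (deriv (deriv γ)) := (contDiff_infty_iff_deriv.1 hd).2
    have c1 := hd.continuous
    have c2 := hd2.continuous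
    unfold kap ip
    fun_prop
  obtain ⟨K₀, hK₀⟩ := (isCompact_Icc (a := (0:ℝ)) (b := L)).exists_bound_of_continuousOn
    hcont.continuousOn
  refine ⟨2 * |K₀|, by positivity, fun ε hε x => ⟨fun hx => jet_out h1 hF hε hx, fun hx hxC => ?_⟩⟩
  obtain ⟨θ, hθ, hxθ⟩ := hT.surj x hx
  set t : ℝ := sd D x with ht
  have hκ0 : 0 ≤ kap γ θ := hT.kap_nonneg θ
  have hJ := hT.jac θ t hx
  have hκK : kap γ θ ≤ |K₀| := by
    have h := hK₀ θ ⟨hθ.1, hθ.2.le⟩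
    exact ((le_abs_self _).trans h).trans (le_abs_self _)
  have hJ0 : 0 < 1 + kap γ θ * t := by linarith
  have hsc : sc ε S (Phi γ θ t) = - t ^ 2 / (2 * ε) := by
    rw [← hxθ]; exact hxC
  have hL := jet_tube hF.curve hF.compact hF.bdry hε (θ := θ) (t := t) rfl hκ0 rfl hJ hsc
    (tubeForm ε (t * kap γ θ / (1 + kap γ θ * t)) (deriv γ θ)) (fun v => tubeForm_app _ _ _ _)
  rw [← hxθ] at hL
  refine ⟨_, _, hL, ?_⟩
  rw [curv_tubeForm hε (hF.curve.unit θ)]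
  have hs : 0 < Real.sqrt (1 + (t / ε) ^ 2) := Real.sqrt_pos.2 (by positivity)
  have hbound : t * kap γ θ / (1 + kap γ θ * t) / ε / Real.sqrt (1 + (t / ε) ^ 2) ≤ 2 * |K₀| := by
    have h2 : t / ε ≤ Real.sqrt (1 + (t / ε) ^ 2) := by
      apply Real.le_sqrt_of_sq_le
      linarith
    rw [div_le_iff₀ hs, div_div, div_le_iff₀ (by positivity)]
    have h3 : t ≤ ε * Real.sqrt (1 + (t / ε) ^ 2) := by
      rw [div_le_iff₀ hε] at h2
      linarith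
    calc t * kap γ θ ≤ (ε * Real.sqrt (1 + (t / ε) ^ 2)) * |K₀| := by
          calc t * kap γ θ ≤ (ε * Real.sqrt (1 + (t / ε) ^ 2)) * kap γ θ :=
                mul_le_mul_of_nonneg_right h3 hκ0
            _ ≤ _ := by gcongr
      _ = 2 * |K₀| * Real.sqrt (1 + (t / ε) ^ 2) * ((1 / 2) * ε) := by ring
      _ ≤ 2 * |K₀| * Real.sqrt (1 + (t / ε) ^ 2) * ((1 + kap γ θ * t) * ε) := by gcongr
  have hH := hF.H_pos
  linarith

end Cyl
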