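import Pool.Agent.Cyl.BASIC

/-!
# Module FLUXONTO
-/

open MeasureTheory Set Filter Topology Metric
open scoped ContDiff

noncomputable section

namespace Cyl

universe u

theorem FLUX_holds (hS : StokesStatement.{u}) (hN : ClosedNStatement.{u}) (hA : AreaStatement) :
    FluxStatement.{u} := by
  intro M _ _ _ S σ hσ hc
  have h1 := hS M S σ hσ hc _ (hN M S)
  have h2 := hA _ _ _ S.curve
  have hγ' : Continuous (deriv S.γ) := S.curve.smooth.continuous_deriv (by simp)
  have hγ : Continuous S.γ := S.curve.smooth.continuous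
  have hNc : Continuous fun θ => S.N (S.b θ) := S.surf.continuous_N.comp S.continuous_b
  have e : ∀ θ, ip (Complex.I * ((S.N (S.b θ)).1 + (S.H : ℂ) * (S.f (S.b θ)).1)) (deriv S.γ θ)
      = - S.ν θ - S.H * ip (S.γ θ) (Complex.I * deriv S.γ θ) := by
    intro θ
    rw [ip_I_left, S.f_b, ip_add_left, ip_ofReal_mul_left, Setup.ν]
    ring
  simp only [e] at h1
  have hν : Continuous S.ν := by
    unfold Setup.ν ip
    fun_prop
  have hi : Continuous fun θ => ip (S.γ θ) (Complex.I * deriv S.γ θ) := by
    unfold ip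
    fun_prop
  have i1 : IntervalIntegrable (fun θ => - S.ν θ) volume 0 S.L := by
    have : Continuous fun θ => - S.ν θ := hν.neg
    exact this.intervalIntegrable _ _
  have i2 : IntervalIntegrable (fun θ => S.H * ip (S.γ θ) (Complex.I * deriv S.γ θ)) volume
      0 S.L := by
    have : Continuous fun θ => S.H * ip (S.γ θ) (Complex.I * deriv S.γ θ) := by fun_prop
    exact this.intervalIntegrable _ _
  rw [intervalIntegral.integral_sub i1 i2, intervalIntegral.integral_neg,
    intervalIntegral.integral_const_mul, h2] at h1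
  linarith

theorem ONTO_holds (hS : StokesStatement.{u}) (hN : ClosedAngleStatement.{u}) :
    OntoStatement.{u} := by
  intro M _ _ _ S σ hσ hc x hx
  by_cases hxD : x ∈ S.D
  · by_contra hcon
    have hcon' : ∀ q, (S.f q).1 ≠ x := fun q hq => hcon ⟨q, hq⟩
    have h1 := hS M S σ hσ hc _ (hN M S x hcon')
    have hγ' : Continuous (deriv S.γ) := S.curve.smooth.continuous_deriv (by simp)
    have hγ : Continuous S.γ := S.curve.smooth.continuous
    have hne : ∀ θ, S.γ θ - x ≠ 0 := by
      intro θ h
      apply hcon' (S.b θ)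
      rw [S.f_b]
      exact sub_eq_zero.1 h
    have e : ∀ θ, ip (Complex.I * ((((‖(S.f (S.b θ)).1 - x‖ ^ 2)⁻¹ : ℝ) : ℂ)
        * ((S.f (S.b θ)).1 - x))) (deriv S.γ θ)
        = (‖S.γ θ - x‖ ^ 2)⁻¹ * ip (x - S.γ θ) (Complex.I * deriv S.γ θ) := by
      intro θ
      rw [ip_I_left, S.f_b, ip_ofReal_mul_left]
      simp only
      rw [← neg_sub (S.γ θ) x, ip_neg_left]
      ring
    simp only [e] at h1
    have hcont : Continuous fun θ => (‖S.γ θ - x‖ ^ 2)⁻¹ *
        ip (x - S.γ θ) (Complex.I * deriv S.γ θ) := by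
      apply Continuous.mul
      · apply Continuous.inv₀
        · fun_prop
        · intro θ
          exact pow_ne_zero _ (norm_ne_zero_iff.2 (hne θ))
      · unfold ip
        fun_prop
    have h2 : 0 < ∫ θ in (0:ℝ)..S.L, (‖S.γ θ - x‖ ^ 2)⁻¹ *
        ip (x - S.γ θ) (Complex.I * deriv S.γ θ) := by
      apply intervalIntegral.intervalIntegral_pos_of_pos_on (hcont.intervalIntegrable _ _)
      · intro θ _
        apply mul_pos
        · have := norm_pos_iff.2 (hne θ)
          positivity
        · exact S.curve.inner θ x hxD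
      · exact S.curve.L_pos
    linarith
  · have hf : x ∈ frontier S.D := by
      rw [S.curve.isOpen.frontier_eq]
      exact ⟨hx, hxD⟩
    rw [← S.curve.range_eq] at hf
    obtain ⟨θ, hθ⟩ := hf
    exact ⟨S.b θ, by rw [S.f_b, hθ]⟩

end Cyl
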