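import Pool.Agent.Cyl.TUBE

/-!
# Mass of the contact set
-/

open MeasureTheory Set Filter Topology Metric
open scoped ContDiff

noncomputable section

namespace Cyl

namespace FMASS

/-- antiderivative of `kk ε` -/
def GG (ε t : ℝ) : ℝ := (t / ε) / Real.sqrt (1 + (t / ε) ^ 2)

theorem sqrt_pos' (y : ℝ) : 0 < Real.sqrt (1 + y ^ 2) := Real.sqrt_pos.mpr (by positivity)

theorem hasDerivAt_GG {ε : ℝ} (hε : 0 < ε) (t : ℝ) : HasDerivAt (GG ε) (kk ε t) t := by
  have h1 : HasDerivAt (fun t : ℝ => t / ε) (1 / ε) t := (hasDerivAt_id t).div_const ε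
  have h2 : HasDerivAt (fun t : ℝ => 1 + (t / ε) ^ 2) (2 * (t / ε) * (1 / ε)) t := by
    have := (h1.pow 2).const_add 1
    refine this.congr_deriv ?_
    norm_num
  have hpos : 0 < 1 + (t / ε) ^ 2 := by positivity
  have h3 := h2.sqrt hpos.ne'
  have h4 := h1.div h3 (sqrt_pos' (t / ε)).ne'
  refine h4.congr_deriv ?_
  unfold kk
  obtain ⟨r, hr⟩ : ∃ r, r = Real.sqrt (1 + (t / ε) ^ 2) := ⟨_, rfl⟩
  have hr0 : 0 < r := by rw [hr]; exact sqrt_pos' _
  have hr2 : r ^ 2 = 1 + (t / ε) ^ 2 := by rw [hr]; exact Real.sq_sqrt hpos.le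
  obtain ⟨y, hy⟩ : ∃ y, y = t / ε := ⟨_, rfl⟩
  rw [← hr]
  rw [← hy] at hr2 ⊢
  have hyy : y ^ 2 = r ^ 2 - 1 := by linarith
  field_simp
  rw [hyy]
  ring

theorem abs_GG_le (ε t : ℝ) : |GG ε t| ≤ 1 := by
  unfold GG
  rw [abs_div, abs_of_pos (sqrt_pos' _), div_le_one (sqrt_pos' _)]
  refine Real.le_sqrt_of_sq_le ?_
  rw [sq_abs]
  linarith

theorem GG_val {ε a ν : ℝ} (hε : 0 < ε) (ha : 0 < a) (h : a ^ 2 + ν ^ 2 = 1) :
    GG ε (ε * ν / a) = ν := by
  unfold GG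
  have e1 : ε * ν / a / ε = ν / a := by field_simp
  have e2 : 1 + (ν / a) ^ 2 = (1 / a) ^ 2 := by
    field_simp
    linarith
  rw [e1, e2, Real.sqrt_sq (by positivity)]
  field_simp

theorem kk_nonneg {ε : ℝ} (hε : 0 < ε) (t : ℝ) : 0 ≤ kk ε t := by
  unfold kk
  have := sqrt_pos' (t / ε)
  positivity

theorem continuous_kk {ε : ℝ} : Continuous (kk ε) := by
  unfold kk
  refine Continuous.div continuous_const (by fun_prop) ?_
  intro t
  have := sqrt_pos' (t / ε)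
  positivity

theorem int_kk {ε c d : ℝ} (hε : 0 < ε) (hcd : c ≤ d) :
    ∫⁻ t in Icc c d, ENNReal.ofReal (kk ε t) = ENNReal.ofReal (GG ε d - GG ε c) := by
  have h1 : ∫ t in c..d, kk ε t = GG ε d - GG ε c :=
    intervalIntegral.integral_eq_sub_of_hasDerivAt (fun t _ => hasDerivAt_GG hε t)
      (continuous_kk.intervalIntegrable c d)
  rw [← h1, intervalIntegral.integral_of_le hcd, ← integral_Icc_eq_integral_Ioc,
    ofReal_integral_eq_lintegral_ofReal]
  · exact continuous_kk.continuousOn.integrableOn_compact isCompact_Icc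
  · exact Eventually.of_forall fun t => kk_nonneg hε t

theorem inner_le {ε a ν δ ρ K : ℝ} (hε : 0 < ε) (ha : 0 ≤ a) (haν : a ^ 2 + ν ^ 2 = 1)
    (hδ : 0 ≤ δ) (hρ : 0 < ρ) (hK : 0 ≤ K) {E : Set ℝ}
    (hE : ∀ t ∈ E, -δ ≤ t ∧ t ≤ ρ ∧ ε * ν ≤ t * a) (hne : E.Nonempty) :
    ∫⁻ t in E, ENNReal.ofReal (kk ε t + K) ≤ ENNReal.ofReal ((1 - ν) + K * (ρ + δ)) := by
  have hν : |ν| ≤ 1 := by
    rw [abs_le_one_iff_mul_self_le_one]
    nlinarith
  have hν1 := (abs_le.mp hν).2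
  obtain ⟨c, hc1, hc2, hc3⟩ : ∃ c, c ≤ ρ ∧ E ⊆ Icc c ρ ∧ ν ≤ GG ε c := by
    rcases ha.eq_or_lt with h0 | h0
    · have hν2 : ν = -1 := by
        have h1 : ν ^ 2 = 1 := by rw [← h0] at haν; linarith
        rcases sq_eq_one_iff.mp h1 with h2 | h2
        · exfalso
          obtain ⟨t, ht⟩ := hne
          have h3 := (hE t ht).2.2
          rw [← h0, h2, mul_zero] at h3
          linarith
        · exact h2
      refine ⟨-δ, by linarith, fun t ht => ⟨(hE t ht).1, (hE t ht).2.1⟩, ?_⟩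
      rw [hν2]
      exact (abs_le.mp (abs_GG_le ε (-δ))).1
    · refine ⟨ε * ν / a, ?_, ?_, (GG_val hε h0 haν).ge⟩
      · obtain ⟨t, ht⟩ := hne
        have h1 := hE t ht
        have h2 : ε * ν / a ≤ t := by rw [div_le_iff₀ h0]; exact h1.2.2
        linarith
      · intro t ht
        have h1 := hE t ht
        exact ⟨by rw [div_le_iff₀ h0]; exact h1.2.2, h1.2.1⟩
  have h1 : ∀ t, ENNReal.ofReal (kk ε t + K) = ENNReal.ofReal (kk ε t) + ENNReal.ofReal K :=
    fun t => ENNReal.ofReal_add (kk_nonneg hε t) hK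
  simp_rw [h1]
  rw [lintegral_add_left (continuous_kk.measurable.ennreal_ofReal)]
  have h2 : ∫⁻ t in E, ENNReal.ofReal (kk ε t) ≤ ENNReal.ofReal (1 - ν) := by
    refine (lintegral_mono_set hc2).trans ?_
    rw [int_kk hε hc1]
    refine ENNReal.ofReal_le_ofReal ?_
    have := (abs_le.mp (abs_GG_le ε ρ)).2
    linarith
  have h3 : ∫⁻ _ in E, ENNReal.ofReal K ≤ ENNReal.ofReal (K * (ρ + δ)) := by
    refine (lintegral_mono_set (show E ⊆ Icc (-δ) ρ from
      fun t ht => ⟨(hE t ht).1, (hE t ht).2.1⟩)).trans ?_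
    rw [setLIntegral_const, Real.volume_Icc, ← ENNReal.ofReal_mul hK]
    refine ENNReal.ofReal_le_ofReal (le_of_eq ?_)
    ring
  refine (add_le_add h2 h3).trans ?_
  rw [← ENNReal.ofReal_add (by linarith) (by positivity)]

end FMASS

open FMASS TUBE in
/-- FLX3 -/
theorem FMASS_holds (hCH : ChangeVarStatement) (hFL : FluxLocStatement) : FluxMassStatement := by
  intro D γ L H S a ν hd t₀ ht K hK η hη
  have hc := hd.curve
  have hL := hc.L_pos
  obtain ⟨κ, hκ1, hκ⟩ := exists_K hc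
  have hkap : ∀ θ, kap γ θ ≤ κ := by
    intro θ
    refine (ip_le _ _).trans ?_
    have := norm_nn hc θ
    rw [nn] at this
    rw [this, mul_one]
    exact hκ θ
  obtain ⟨hloc, Z, hZ⟩ := hFL D γ L H S a ν hd t₀ ht
  have hne : S.Nonempty := ⟨_, hd.bdry 0⟩
  have ht₀ := ht.pos
  obtain ⟨M₁, hM₁⟩ : ∃ M₁, M₁ = 2 * κ + (1 + κ) * K + 1 := ⟨_, rfl⟩
  have hM0 : 0 < M₁ := by rw [hM₁]; positivity
  have hν : ∀ θ, |ν θ| ≤ 1 := by
    intro θ
    have := hd.a_ν θ
    rw [abs_le_one_iff_mul_self_le_one]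
    nlinarith [sq_nonneg (a θ)]
  refine ⟨min 1 (η / (2 * L * M₁)), by positivity, fun ρ hρ0 hρ => ?_⟩
  have hρ1 : ρ < 1 := lt_of_lt_of_le hρ (min_le_left _ _)
  have hρ2 : ρ < η / (2 * L * M₁) := lt_of_lt_of_le hρ (min_le_right _ _)
  obtain ⟨δ, hδ⟩ : ∃ δ, δ = min (t₀ / 4) (η / (2 * L * M₁)) := ⟨_, rfl⟩
  have hδ0 : 0 < δ := by rw [hδ]; positivity
  have hδ1 : δ ≤ t₀ / 4 := by rw [hδ]; exact min_le_left _ _
  have hδ2 : δ ≤ η / (2 * L * M₁) := by rw [hδ]; exact min_le_right _ _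
  refine ⟨δ ^ 2 / (2 * (|Z| + 1)), by positivity, fun ε hε0 hε => ?_⟩
  -- the set XC is closed
  have hsd : Continuous (sd D) := by
    unfold sd
    exact (continuous_infDist_pt D).sub (continuous_infDist_pt Dᶜ)
  have hXC : IsClosed (XC D ε S) := by
    unfold XC
    refine isClosed_eq (sc_continuous hd.compact hne hε0) ?_
    exact ((hsd.pow 2).neg).div_const _
  have hPhi : Continuous (fun z : ℝ × ℝ => Phi γ z.1 z.2) := by
    have h1 := hc.smooth.continuous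
    have h2 := (contDiff_deriv hc).continuous
    unfold Phi
    fun_prop
  -- points of XC inside are close to the curve
  have hin : ∀ θ t, -t₀ < t → Phi γ θ t ∈ XC D ε S → -δ ≤ t := by
    intro θ t ht1 hx
    by_contra hcon
    push Not at hcon
    have hsdt := ht.sd_Phi θ t ht1
    have hD : Phi γ θ t ∈ D := by
      by_contra hD
      have h1 : infDist (Phi γ θ t) Dᶜ = 0 := infDist_zero_of_mem hD
      have h2 : 0 ≤ infDist (Phi γ θ t) D := infDist_nonneg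
      rw [sd, h1] at hsdt
      linarith
    have h1 := hZ ε hε0 _ hx hD
    rw [hsdt] at h1
    have h2 : 2 * ε * Z ≤ 2 * ε * (|Z| + 1) := by
      refine mul_le_mul_of_nonneg_left ?_ (by positivity)
      linarith [le_abs_self Z]
    have h3 : ε * (2 * (|Z| + 1)) < δ ^ 2 := by
      rwa [lt_div_iff₀ (by positivity)] at hε
    nlinarith
  obtain ⟨Gd, hGd⟩ : ∃ Gd : Set ℝ, Gd = Prod.fst '' ((Icc (0 : ℝ) L ×ˢ Icc (-t₀ / 2) ρ) ∩
      {z : ℝ × ℝ | Phi γ z.1 z.2 ∈ XC D ε S}) := ⟨_, rfl⟩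
  have hGdm : MeasurableSet Gd := by
    rw [hGd]
    have h1 : IsClosed {z : ℝ × ℝ | Phi γ z.1 z.2 ∈ XC D ε S} := hXC.preimage hPhi
    exact (((isCompact_Icc.prod isCompact_Icc).inter_right h1).image
      continuous_fst).isClosed.measurableSet
  refine ⟨Gd, hGdm, ?_, ?_⟩
  · intro θ hθ
    rw [hGd] at hθ
    obtain ⟨⟨θ', t⟩, ⟨⟨_, h2⟩, h3⟩, rfl⟩ := hθ
    exact (hloc ε hε0 θ' t (by have := h2.1; simp only at this; linarith) h3).2
  -- the integrand
  have hg0 : ∀ t, 0 ≤ kk ε t + K := fun t => by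
    have := kk_nonneg hε0 t
    positivity
  have hgm : Continuous (fun x => kk ε (sd D x) + K) := (continuous_kk.comp hsd).add_const K
  rw [integral_eq_lintegral_of_nonneg_ae (Eventually.of_forall fun x => hg0 _)
    hgm.aestronglyMeasurable]
  have hRnn : 0 ≤ (∫ θ in Ioo 0 L ∩ Gd, (1 - ν θ)) + η := by
    have : 0 ≤ ∫ θ in Ioo 0 L ∩ Gd, (1 - ν θ) := by
      refine integral_nonneg fun θ => ?_
      have := (abs_le.mp (hν θ)).2
      simp only [Pi.zero_apply]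
      linarith
    linarith
  refine ENNReal.toReal_le_of_le_ofReal hRnn ?_
  -- change of variables
  have hset : {x | x ∈ XC D ε S ∧ -t₀ < sd D x ∧ sd D x < ρ} =
      XC D ε S ∩ {x | -t₀ < sd D x ∧ sd D x < ρ} := rfl
  rw [hset, ← setLIntegral_indicator hXC.measurableSet]
  have hFm : Measurable ((XC D ε S).indicator fun x => ENNReal.ofReal (kk ε (sd D x) + K)) :=
    (hgm.measurable.ennreal_ofReal).indicator hXC.measurableSet
  rw [hCH D γ L t₀ hc ht ρ hρ0 _ hFm]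
  obtain ⟨E, hE⟩ : ∃ E : Set (ℝ × ℝ), E = {z : ℝ × ℝ | Phi γ z.1 z.2 ∈ XC D ε S} := ⟨_, rfl⟩
  have hEm : MeasurableSet E := by rw [hE]; exact (hXC.preimage hPhi).measurableSet
  have h1κρ : 0 < 1 + κ * ρ := by positivity
  have step1 : ∫⁻ z in Ioo 0 L ×ˢ Ioo (-t₀) ρ,
      (XC D ε S).indicator (fun x => ENNReal.ofReal (kk ε (sd D x) + K)) (Phi γ z.1 z.2) *
        ENNReal.ofReal (1 + kap γ z.1 * z.2) ≤
      ∫⁻ z in Ioo 0 L ×ˢ Ioo (-t₀) ρ, ENNReal.ofReal (1 + κ * ρ) *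
        E.indicator (fun z => ENNReal.ofReal (kk ε z.2 + K)) z := by
    refine setLIntegral_mono' (measurableSet_Ioo.prod measurableSet_Ioo) ?_
    rintro ⟨θ, t⟩ ⟨hθ, ht1⟩
    simp only at hθ ht1 ⊢
    by_cases hx : Phi γ θ t ∈ XC D ε S
    · have hzE : ((θ, t) : ℝ × ℝ) ∈ E := by rw [hE]; exact hx
      rw [indicator_of_mem hx, indicator_of_mem hzE, ht.sd_Phi θ t ht1.1, mul_comm]
      refine mul_le_mul_left ?_ _
      refine ENNReal.ofReal_le_ofReal ?_
      have hk0 := ht.kap_nonneg θ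
      have h2 : kap γ θ * t ≤ κ * ρ := by
        rcases le_or_gt 0 t with h0 | h0
        · exact mul_le_mul (hkap θ) ht1.2.le h0 (by linarith)
        · have h3 : kap γ θ * t ≤ 0 := mul_nonpos_of_nonneg_of_nonpos hk0 h0.le
          have h4 : 0 ≤ κ * ρ := by positivity
          linarith
      linarith
    · rw [indicator_of_notMem hx, zero_mul]
      exact bot_le
  refine step1.trans ?_
  have hQm : Measurable (fun z : ℝ × ℝ => ENNReal.ofReal (1 + κ * ρ) *
      E.indicator (fun z => ENNReal.ofReal (kk ε z.2 + K)) z) := by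
    refine Measurable.const_mul ?_ _
    refine Measurable.indicator ?_ hEm
    exact ((continuous_kk.comp continuous_snd).add_const K).measurable.ennreal_ofReal
  rw [Measure.volume_eq_prod, ← Measure.prod_restrict, lintegral_prod _ hQm.aemeasurable]
  have step2 : ∫⁻ θ in Ioo 0 L, ∫⁻ t in Ioo (-t₀) ρ, ENNReal.ofReal (1 + κ * ρ) *
        E.indicator (fun z => ENNReal.ofReal (kk ε z.2 + K)) (θ, t) ≤
      ∫⁻ θ in Ioo 0 L, Gd.indicator (fun θ => ENNReal.ofReal
        ((1 + κ * ρ) * ((1 - ν θ) + K * (ρ + δ)))) θ := by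
    refine setLIntegral_mono' measurableSet_Ioo ?_
    intro θ hθ
    obtain ⟨Eθ, hEθ⟩ : ∃ Eθ : Set ℝ, Eθ = {t | Phi γ θ t ∈ XC D ε S} := ⟨_, rfl⟩
    have hEθm : MeasurableSet Eθ := by
      rw [hEθ]
      have : Continuous (fun t : ℝ => Phi γ θ t) := hPhi.comp (Continuous.prodMk_right θ)
      exact (hXC.preimage this).measurableSet
    have e1 : ∀ t, E.indicator (fun z => ENNReal.ofReal (kk ε z.2 + K)) (θ, t) =
        Eθ.indicator (fun t => ENNReal.ofReal (kk ε t + K)) t := by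
      intro t
      by_cases hx : Phi γ θ t ∈ XC D ε S
      · rw [indicator_of_mem (by rw [hE]; exact hx), indicator_of_mem (by rw [hEθ]; exact hx)]
      · rw [indicator_of_notMem (by rw [hE]; exact hx), indicator_of_notMem (by rw [hEθ]; exact hx)]
    simp_rw [e1]
    rw [lintegral_const_mul _ ((continuous_kk.add_const K).measurable.ennreal_ofReal.indicator
      hEθm), setLIntegral_indicator hEθm]
    by_cases hnonempty : (Eθ ∩ Ioo (-t₀) ρ).Nonempty
    · have hbd : ∀ t ∈ Eθ ∩ Ioo (-t₀) ρ, -δ ≤ t ∧ t ≤ ρ ∧ ε * ν θ ≤ t * a θ := by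
        rintro t ⟨h1, h2⟩
        rw [hEθ] at h1
        exact ⟨hin θ t h2.1 h1, h2.2.le, (hloc ε hε0 θ t h2.1 h1).1⟩
      have hθG : θ ∈ Gd := by
        obtain ⟨t, h1, h2⟩ := hnonempty
        rw [hEθ] at h1
        rw [hGd]
        refine ⟨(θ, t), ⟨⟨⟨hθ.1.le, hθ.2.le⟩, ?_, h2.2.le⟩, h1⟩, rfl⟩
        have := hin θ t h2.1 h1
        simp only
        linarith
      rw [indicator_of_mem hθG, ENNReal.ofReal_mul h1κρ.le]
      refine mul_le_mul_right ?_ _
      exact inner_le hε0 (hd.a_nonneg θ) (hd.a_ν θ) hδ0.le hρ0 hK hbd hnonempty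
    · rw [not_nonempty_iff_eq_empty] at hnonempty
      rw [hnonempty, Measure.restrict_empty, lintegral_zero_measure, mul_zero]
      exact bot_le
  refine step2.trans ?_
  rw [setLIntegral_indicator hGdm, inter_comm Gd (Ioo 0 L)]
  have hfin : volume (Ioo 0 L ∩ Gd) ≠ ⊤ := by
    refine ne_top_of_le_ne_top ?_ (measure_mono inter_subset_left)
    rw [Real.volume_Ioo]
    exact ENNReal.ofReal_ne_top
  have hνint : IntegrableOn ν (Ioo 0 L ∩ Gd) := by
    refine IntegrableOn.mono_set (t := Icc 0 L) ?_ (inter_subset_left.trans Ioo_subset_Icc_self)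
    exact hd.ν_cont.continuousOn.integrableOn_compact isCompact_Icc
  have hconst : ∀ c : ℝ, IntegrableOn (fun _ : ℝ => c) (Ioo 0 L ∩ Gd) := fun c =>
    integrableOn_const (by exact hfin) (by simp)
  have hint1 : IntegrableOn (fun θ => 1 - ν θ) (Ioo 0 L ∩ Gd) := (hconst 1).sub hνint
  have hint2 : IntegrableOn (fun θ => (1 + κ * ρ) * ((1 - ν θ) + K * (ρ + δ)))
      (Ioo 0 L ∩ Gd) := (hint1.add (hconst _)).const_mul _
  rw [← ofReal_integral_eq_lintegral_ofReal hint2]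
  swap
  · refine Eventually.of_forall fun θ => ?_
    have h1 := (abs_le.mp (hν θ)).2
    have h2 : 0 ≤ 1 - ν θ := by linarith
    simp only [Pi.zero_apply]
    positivity
  refine ENNReal.ofReal_le_ofReal ?_
  have hbound : ∀ θ, (1 + κ * ρ) * ((1 - ν θ) + K * (ρ + δ)) ≤ (1 - ν θ) + η / L := by
    intro θ
    have h1 := (abs_le.mp (hν θ)).1
    have h2 : M₁ * ρ ≤ η / (2 * L) := by
      calc M₁ * ρ ≤ M₁ * (η / (2 * L * M₁)) := mul_le_mul_of_nonneg_left hρ2.le hM0.le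
        _ = η / (2 * L) := by field_simp
    have h3 : M₁ * δ ≤ η / (2 * L) := by
      calc M₁ * δ ≤ M₁ * (η / (2 * L * M₁)) := mul_le_mul_of_nonneg_left hδ2 hM0.le
        _ = η / (2 * L) := by field_simp
    have h4 : η / L = η / (2 * L) + η / (2 * L) := by field_simp; ring
    have h5 : (1 + κ * ρ) * (K * (ρ + δ)) ≤ (1 + κ) * (K * (ρ + δ)) := by
      refine mul_le_mul_of_nonneg_right ?_ (by positivity)
      nlinarith
    have h6 : κ * ρ * (1 - ν θ) ≤ 2 * κ * ρ := by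
      have : κ * ρ * (1 - ν θ) ≤ κ * ρ * 2 := mul_le_mul_of_nonneg_left (by linarith) (by positivity)
      linarith
    have h7 : (1 + κ * ρ) * ((1 - ν θ) + K * (ρ + δ)) =
        (1 - ν θ) + κ * ρ * (1 - ν θ) + (1 + κ * ρ) * (K * (ρ + δ)) := by ring
    have h8 : M₁ * ρ = 2 * κ * ρ + (1 + κ) * K * ρ + ρ := by rw [hM₁]; ring
    have h9 : M₁ * δ = 2 * κ * δ + (1 + κ) * K * δ + δ := by rw [hM₁]; ring
    have h10 : 0 ≤ κ * δ := by positivity
    nlinarith
  calc ∫ θ in Ioo 0 L ∩ Gd, (1 + κ * ρ) * ((1 - ν θ) + K * (ρ + δ))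
      ≤ ∫ θ in Ioo 0 L ∩ Gd, ((1 - ν θ) + η / L) :=
        setIntegral_mono hint2 (hint1.add (hconst _)) hbound
    _ = (∫ θ in Ioo 0 L ∩ Gd, (1 - ν θ)) + ∫ _ in Ioo 0 L ∩ Gd, η / L :=
        integral_add hint1 (hconst _)
    _ ≤ (∫ θ in Ioo 0 L ∩ Gd, (1 - ν θ)) + η := by
        rw [setIntegral_const, smul_eq_mul]
        have h1 : volume.real (Ioo 0 L ∩ Gd) ≤ L := by
          have h2 : volume.real (Ioo 0 L ∩ Gd) ≤ volume.real (Ioo 0 L) :=
            measureReal_mono inter_subset_left (by rw [Real.volume_Ioo]; exact ENNReal.ofReal_ne_top)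
          rwa [Real.volume_real_Ioo_of_le hL.le, sub_zero] at h2
        have h3 : volume.real (Ioo 0 L ∩ Gd) * (η / L) ≤ L * (η / L) :=
          mul_le_mul_of_nonneg_right h1 (by positivity)
        have h4 : L * (η / L) = η := by field_simp
        linarith

end Cyl
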