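import Pool.Agent.Cyl.Stmt3
import Pool.Agent.Cyl.Base2

/-!
# GJET: second order Taylor expansion, the graph of a `C²` function contains its jets
-/

open MeasureTheory Set Filter Topology Metric
open scoped ContDiff

noncomputable section

namespace Cyl

theorem snd_app {g : ℂ → ℝ} {s : ℂ} (hg : ContDiffAt ℝ 2 g s) (v w : ℂ) :
    fderiv ℝ (fun t => fderiv ℝ g t w) s v = fderiv ℝ (fderiv ℝ g) s v w := by
  have hD : DifferentiableAt ℝ (fderiv ℝ g) s :=
    (hg.fderiv_right (m := 1) (by norm_num)).differentiableAt (by norm_num)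
  have h := (hD.hasFDerivAt.clm_apply (hasFDerivAt_const w s)).fderiv
  rw [h]
  simp

theorem hess_app {g : ℂ → ℝ} {s : ℂ} (hg : ContDiffAt ℝ 2 g s) (v : ℂ) :
    (hess g s).app v = fderiv ℝ (fderiv ℝ g) s v v := by
  have hsym := hg.isSymmSndFDerivAt (by simp)
  set A := fderiv ℝ (fderiv ℝ g) s with hA
  have e1 : (hess g s).a = A 1 1 := snd_app hg 1 1
  have e2 : (hess g s).b = A Complex.I 1 := snd_app hg Complex.I 1
  have e3 : (hess g s).c = A Complex.I Complex.I := snd_app hg Complex.I Complex.I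
  have e4 : A 1 Complex.I = A Complex.I 1 := hsym 1 Complex.I
  have hv : v = v.re • (1 : ℂ) + v.im • Complex.I := by
    apply Complex.ext <;> simp
  unfold Q2.app
  rw [e1, e2, e3]
  conv_rhs => rw [hv]
  simp only [map_add, map_smul, _root_.add_apply, _root_.smul_apply,
    smul_eq_mul, e4]
  ring

/-- second order Taylor expansion -/
theorem taylor2 {g : ℂ → ℝ} {s : ℂ} (hg : ContDiffAt ℝ 2 g s) :
    ∀ η > 0, ∃ δ > 0, ∀ v : ℂ, ‖v‖ < δ →
      |g (s + v) - g s - ip (grad g s) v - (hess g s).app v / 2| ≤ η * ‖v‖ ^ 2 := by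
  intro η hη
  have hD : HasFDerivAt (fderiv ℝ g) (fderiv ℝ (fderiv ℝ g) s) s :=
    ((hg.fderiv_right (m := 1) (by norm_num)).differentiableAt (by norm_num)).hasFDerivAt
  set A := fderiv ℝ (fderiv ℝ g) s with hA
  have h1 : ∀ᶠ t in 𝓝 s, ‖fderiv ℝ g t - fderiv ℝ g s - A (t - s)‖ ≤ η * ‖t - s‖ :=
    (hasFDerivAt_iff_isLittleO.mp hD).def hη
  have h2 : ∀ᶠ t in 𝓝 s, DifferentiableAt ℝ g t := by
    filter_upwards [hg.eventually (by simp)] with t ht
    exact ht.differentiableAt (by norm_num)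
  obtain ⟨δ, hδ, h3⟩ := Metric.eventually_nhds_iff.mp (h1.and h2)
  refine ⟨δ, hδ, fun v hv => ?_⟩
  rw [← fderiv_ip, hess_app hg v]
  have hin : ∀ τ ∈ Icc (0 : ℝ) 1, dist (s + τ • v) s < δ := by
    intro τ hτ
    rw [dist_self_add_left, norm_smul, Real.norm_eq_abs, abs_of_nonneg hτ.1]
    calc τ * ‖v‖ ≤ 1 * ‖v‖ := mul_le_mul_of_nonneg_right hτ.2 (norm_nonneg _)
      _ < δ := by rw [one_mul]; exact hv
  have hder : ∀ τ ∈ Icc (0 : ℝ) 1, HasDerivWithinAt
      (fun τ : ℝ => g (s + τ • v) - τ * fderiv ℝ g s v - τ ^ 2 * (A v v / 2))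
      (fderiv ℝ g (s + τ • v) v - fderiv ℝ g s v - τ * A v v) (Icc 0 1) τ := by
    intro τ hτ
    have hd := (h3 (hin τ hτ)).2.hasFDerivAt
    have hl : HasDerivAt (fun τ : ℝ => s + τ • v) v τ := by
      have := ((hasDerivAt_id τ).smul_const v).const_add s
      simpa using this
    have hc := hd.comp_hasDerivAt τ hl
    have hq : HasDerivAt (fun τ : ℝ => τ ^ 2 * (A v v / 2)) (τ * A v v) τ := by
      refine ((hasDerivAt_pow 2 τ).mul_const (A v v / 2)).congr_deriv ?_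
      norm_num
      ring
    have hlin : HasDerivAt (fun τ : ℝ => τ * fderiv ℝ g s v) (fderiv ℝ g s v) τ := by
      have := (hasDerivAt_id τ).mul_const (fderiv ℝ g s v)
      simpa using this
    exact ((hc.sub hlin).sub hq).hasDerivWithinAt
  have hbd : ∀ τ ∈ Ico (0 : ℝ) 1, ‖fderiv ℝ g (s + τ • v) v - fderiv ℝ g s v - τ * A v v‖ ≤
      η * ‖v‖ ^ 2 := by
    intro τ hτ
    have h4 := (h3 (hin τ ⟨hτ.1, hτ.2.le⟩)).1
    have e : s + τ • v - s = τ • v := by abel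
    rw [e] at h4
    have e2 : fderiv ℝ g (s + τ • v) v - fderiv ℝ g s v - τ * A v v =
        (fderiv ℝ g (s + τ • v) - fderiv ℝ g s - A (τ • v)) v := by
      simp only [_root_.sub_apply, map_smul, _root_.smul_apply,
        smul_eq_mul]
    rw [e2]
    refine (ContinuousLinearMap.le_opNorm _ _).trans ?_
    have h5 : ‖τ • v‖ ≤ ‖v‖ := by
      rw [norm_smul, Real.norm_eq_abs, abs_of_nonneg hτ.1]
      exact mul_le_of_le_one_left (norm_nonneg _) hτ.2.le
    calc ‖fderiv ℝ g (s + τ • v) - fderiv ℝ g s - A (τ • v)‖ * ‖v‖ ≤ (η * ‖τ • v‖) * ‖v‖ :=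
          mul_le_mul_of_nonneg_right h4 (norm_nonneg _)
      _ ≤ (η * ‖v‖) * ‖v‖ := by gcongr
      _ = η * ‖v‖ ^ 2 := by ring
  have hfin := norm_image_sub_le_of_norm_deriv_le_segment_01' hder hbd
  rw [Real.norm_eq_abs] at hfin
  have e : g (s + (1 : ℝ) • v) - 1 * fderiv ℝ g s v - 1 ^ 2 * (A v v / 2) -
      (g (s + (0 : ℝ) • v) - 0 * fderiv ℝ g s v - 0 ^ 2 * (A v v / 2)) =
      g (s + v) - g s - fderiv ℝ g s v - A v v / 2 := by
    rw [one_smul, zero_smul, add_zero]; ring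
  rw [e] at hfin
  exact hfin

theorem Frame.norm_n_le (F : Frame) : ‖F.n‖ ≤ 1 := by
  have h := F.hnn
  unfold dot at h
  rw [ip_self] at h
  have h1 : ‖F.n.1‖ ≤ 1 := by
    have h0 := norm_nonneg F.n.1
    nlinarith [mul_self_nonneg F.n.2]
  have h2 : ‖F.n.2‖ ≤ 1 := by
    rw [Real.norm_eq_abs, abs_le]
    constructor <;> nlinarith [sq_nonneg ‖F.n.1‖]
  rw [Prod.norm_def]
  exact max_le h1 h2

/-- GJET -/
theorem GJET_holds : GraphJetStatement := by
  intro S F q g s hg hS η hη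
  obtain ⟨δ₁, hδ₁, h1⟩ := taylor2 hg η hη
  obtain ⟨δ₂, hδ₂, h2⟩ := Metric.eventually_nhds_iff.mp hS
  refine ⟨min δ₁ δ₂, lt_min hδ₁ hδ₂, fun v hv => ?_⟩
  refine ⟨F.pt q g (s + v), h2 (by
    rw [dist_self_add_left]; exact hv.trans_le (min_le_right _ _)), ?_⟩
  have h3 := h1 v (hv.trans_le (min_le_left _ _))
  have e : F.pt q g (s + v) - (F.pt q g s + v.re • F.a + v.im • F.b +
      (ip (grad g s) v + (hess g s).app v / 2) • F.n) =
      (g (s + v) - g s - ip (grad g s) v - (hess g s).app v / 2) • F.n := by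
    unfold Frame.pt
    rw [Complex.add_re, Complex.add_im]
    module
  rw [e, norm_smul, Real.norm_eq_abs]
  calc |g (s + v) - g s - ip (grad g s) v - (hess g s).app v / 2| * ‖F.n‖
      ≤ (η * ‖v‖ ^ 2) * 1 := mul_le_mul h3 F.norm_n_le (norm_nonneg _) (by positivity)
    _ = η * ‖v‖ ^ 2 := mul_one _

end Cyl
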