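import Pool.Agent.Cyl.Base

/-!
# Jets of the sup-convolution
-/

open MeasureTheory Set Filter Topology Metric
open scoped ContDiff

noncomputable section

namespace Cyl

namespace JetAux

/-- the algebra behind the invariance of the mean curvature -/
theorem alg_core {a1 a2 a3 b1 b2 b3 n1 n2 n3 m1 m2 p1 p2 : ℝ}
    (xx : a1 ^ 2 + b1 ^ 2 + n1 ^ 2 = 1) (yy : a2 ^ 2 + b2 ^ 2 + n2 ^ 2 = 1)
    (zz : a3 ^ 2 + b3 ^ 2 + n3 ^ 2 = 1)
    (xy : a1 * a2 + b1 * b2 + n1 * n2 = 0) (xz : a1 * a3 + b1 * b3 + n1 * n3 = 0)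
    (yz : a2 * a3 + b2 * b3 + n2 * n3 = 0)
    (hqa : a3 + m1 * n3 = p1 * (a1 + m1 * n1) + p2 * (a2 + m1 * n2))
    (hqb : b3 + m2 * n3 = p1 * (b1 + m2 * n1) + p2 * (b2 + m2 * n2)) (l al be ga de : ℝ)
    (hl : l = n3 - (p1 * n1 + p2 * n2)) (hal : al = a1 + m1 * n1) (hbe : be = b1 + m2 * n1)
    (hga : ga = a2 + m1 * n2) (hde : de = b2 + m2 * n2) :
    1 + p2 ^ 2 = l ^ 2 * (al ^ 2 * (1 + m2 ^ 2) - 2 * al * be * (m1 * m2) + be ^ 2 * (1 + m1 ^ 2)) ∧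
    - (p1 * p2) = l ^ 2 * (al * ga * (1 + m2 ^ 2) - (al * de + be * ga) * (m1 * m2)
      + be * de * (1 + m1 ^ 2)) ∧
    1 + p1 ^ 2 = l ^ 2 * (ga ^ 2 * (1 + m2 ^ 2) - 2 * ga * de * (m1 * m2) + de ^ 2 * (1 + m1 ^ 2)) ∧
    1 + p1 ^ 2 + p2 ^ 2 = l ^ 2 * (1 + m1 ^ 2 + m2 ^ 2) := by
  have ha : a3 - p1 * a1 - p2 * a2 = - (m1 * l) := by rw [hl]; linarith
  have hb : b3 - p1 * b1 - p2 * b2 = - (m2 * l) := by rw [hl]; linarith
  have e1 : -p1 = l * (n1 - m1 * a1 - m2 * b1) := by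
    have h0 : -p1 = (a3 - p1 * a1 - p2 * a2) * a1 + (b3 - p1 * b1 - p2 * b2) * b1 + l * n1 := by
      rw [hl]; linear_combination p1 * xx + p2 * xy - xz
    rw [ha, hb] at h0
    linear_combination h0
  have e2 : -p2 = l * (n2 - m1 * a2 - m2 * b2) := by
    have h0 : -p2 = (a3 - p1 * a1 - p2 * a2) * a2 + (b3 - p1 * b1 - p2 * b2) * b2 + l * n2 := by
      rw [hl]; linear_combination p1 * xy + p2 * yy - yz
    rw [ha, hb] at h0
    linear_combination h0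
  have e3 : 1 = l * (n3 - m1 * a3 - m2 * b3) := by
    have h0 : 1 = (a3 - p1 * a1 - p2 * a2) * a3 + (b3 - p1 * b1 - p2 * b2) * b3 + l * n3 := by
      rw [hl]; linear_combination p1 * xz + p2 * yz - zz
    rw [ha, hb] at h0
    linear_combination h0
  have hW : 1 + p1 ^ 2 + p2 ^ 2 = l ^ 2 * (1 + m1 ^ 2 + m2 ^ 2) := by
    have h0 : 1 + p1 ^ 2 + p2 ^ 2 = (a3 - p1 * a1 - p2 * a2) ^ 2 + (b3 - p1 * b1 - p2 * b2) ^ 2
        + l ^ 2 := by
      rw [hl]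
      linear_combination (-p1 ^ 2) * xx - p2 ^ 2 * yy - zz - 2 * p1 * p2 * xy + 2 * p1 * xz
        + 2 * p2 * yz
    rw [ha, hb] at h0
    linear_combination h0
  have hp1 : p1 ^ 2 = l ^ 2 * (n1 - m1 * a1 - m2 * b1) ^ 2 := by
    have : p1 ^ 2 = (-p1) ^ 2 := by ring
    rw [this, e1]; ring
  have hp2 : p2 ^ 2 = l ^ 2 * (n2 - m1 * a2 - m2 * b2) ^ 2 := by
    have : p2 ^ 2 = (-p2) ^ 2 := by ring
    rw [this, e2]; ring
  have hp12 : p1 * p2 = l ^ 2 * ((n1 - m1 * a1 - m2 * b1) * (n2 - m1 * a2 - m2 * b2)) := by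
    have : p1 * p2 = (-p1) * (-p2) := by ring
    rw [this, e1, e2]; ring
  refine ⟨?_, ?_, ?_, hW⟩
  · have : 1 + p2 ^ 2 = l ^ 2 * (1 + m1 ^ 2 + m2 ^ 2) - p1 ^ 2 := by linarith
    rw [this, hp1, hal, hbe]
    linear_combination (-l ^ 2 * (1 + m1 ^ 2 + m2 ^ 2)) * xx
  · rw [hp12, hal, hbe, hga, hde]
    linear_combination (-l ^ 2 * (1 + m1 ^ 2 + m2 ^ 2)) * xy
  · have : 1 + p1 ^ 2 = l ^ 2 * (1 + m1 ^ 2 + m2 ^ 2) - p2 ^ 2 := by linarith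
    rw [this, hp2, hga, hde]
    linear_combination (-l ^ 2 * (1 + m1 ^ 2 + m2 ^ 2)) * yy

theorem alg_det {m1 m2 p1 p2 l al be ga de : ℝ}
    (h11 : 1 + p2 ^ 2 = l ^ 2 * (al ^ 2 * (1 + m2 ^ 2) - 2 * al * be * (m1 * m2)
      + be ^ 2 * (1 + m1 ^ 2)))
    (h12 : - (p1 * p2) = l ^ 2 * (al * ga * (1 + m2 ^ 2) - (al * de + be * ga) * (m1 * m2)
      + be * de * (1 + m1 ^ 2)))
    (h22 : 1 + p1 ^ 2 = l ^ 2 * (ga ^ 2 * (1 + m2 ^ 2) - 2 * ga * de * (m1 * m2)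
      + de ^ 2 * (1 + m1 ^ 2)))
    (hW : 1 + p1 ^ 2 + p2 ^ 2 = l ^ 2 * (1 + m1 ^ 2 + m2 ^ 2)) :
    l ^ 2 * (al * de - be * ga) ^ 2 = 1 := by
  have h1 : (1 + p2 ^ 2) * (1 + p1 ^ 2) - (- (p1 * p2)) ^ 2 = l ^ 2 * (1 + m1 ^ 2 + m2 ^ 2) := by
    rw [← hW]; ring
  rw [h11, h12, h22] at h1
  have h2 : (l ^ 2 * (1 + m1 ^ 2 + m2 ^ 2)) * (l ^ 2 * (al * de - be * ga) ^ 2 - 1) = 0 := by
    linear_combination h1
  have h3 : l ^ 2 * (1 + m1 ^ 2 + m2 ^ 2) ≠ 0 := by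
    rw [← hW]; positivity
  rcases mul_eq_zero.1 h2 with h | h
  · exact absurd h h3
  · linarith

/-- horizontal part of the tangent vector -/
def hor (F : Frame) (m s : ℂ) : ℂ := s.re • F.a.1 + s.im • F.b.1 + (ip m s) • F.n.1

/-- vertical part of the tangent vector -/
def vert (F : Frame) (m s : ℂ) : ℝ := s.re * F.a.2 + s.im * F.b.2 + ip m s * F.n.2

theorem hor_neg (F : Frame) (m s : ℂ) : hor F m (-s) = - hor F m s := by
  unfold hor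
  rw [ip_neg_right]
  simp only [Complex.neg_re, Complex.neg_im, neg_smul]
  abel

theorem vert_neg (F : Frame) (m s : ℂ) : vert F m (-s) = - vert F m s := by
  unfold vert
  rw [ip_neg_right]
  simp only [Complex.neg_re, Complex.neg_im]
  ring

theorem hor_smul (F : Frame) (m s : ℂ) (t : ℝ) : hor F m ((t : ℂ) * s) = t • hor F m s := by
  unfold hor
  rw [ip_ofReal_mul_right]
  simp only [Complex.re_ofReal_mul, Complex.im_ofReal_mul, smul_add, smul_smul]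

theorem vert_smul (F : Frame) (m s : ℂ) (t : ℝ) : vert F m ((t : ℂ) * s) = t * vert F m s := by
  unfold vert
  rw [ip_ofReal_mul_right]
  simp only [Complex.re_ofReal_mul, Complex.im_ofReal_mul]
  ring

theorem norm_n_fst_le (F : Frame) : ‖F.n.1‖ ≤ 1 := by
  have h := F.hnn
  rw [dot, ip_self] at h
  nlinarith [norm_nonneg F.n.1, mul_self_nonneg F.n.2]

theorem abs_n_snd_le (F : Frame) : |F.n.2| ≤ 1 := by
  have h := F.hnn
  rw [dot, ip_self] at h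
  rw [abs_le]
  constructor <;> nlinarith [sq_nonneg ‖F.n.1‖, mul_self_nonneg F.n.2]

/-- lower bound of the sup-convolution near a maximiser -/
theorem sc_lower {S : Set E3} (hS : IsCompact S) {ε : ℝ} (hε : 0 < ε) {x : ℂ} {X : E3}
    (hsc : sc ε S x = X.2 - ‖x - X.1‖ ^ 2 / (2 * ε)) {Y : E3} (hY : Y ∈ S) (v : ℂ) :
    sc ε S x + (Y.2 - X.2) - ip (((1 / ε : ℝ) : ℂ) * (X.1 - x)) (Y.1 - X.1 - v)
      - ‖Y.1 - X.1 - v‖ ^ 2 / (2 * ε) ≤ sc ε S (x + v) := by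
  have h1 := le_sc hS ε (x + v) hY
  have e : x + v - Y.1 = (x - X.1) - (Y.1 - X.1 - v) := by ring
  rw [e, norm_sub_sq'] at h1
  have e2 : ip (((1 / ε : ℝ) : ℂ) * (X.1 - x)) (Y.1 - X.1 - v)
      = - (1 / ε) * ip (x - X.1) (Y.1 - X.1 - v) := by
    rw [ip_ofReal_mul_left, show X.1 - x = -(x - X.1) by ring, ip_neg_left]
    ring
  rw [e2, hsc]
  refine le_trans (le_of_eq ?_) h1
  field_simp
  ring

theorem first_order_le {S : Set E3} (hS : IsCompact S) {ε : ℝ} (hε : 0 < ε) {x : ℂ} {X : E3}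
    (hsc : sc ε S x = X.2 - ‖x - X.1‖ ^ 2 / (2 * ε)) {F : Frame} {m : ℂ} {B : Q2}
    (hJ : HasJet S X F m B) (s : ℂ) :
    vert F m s ≤ ip (((1 / ε : ℝ) : ℂ) * (X.1 - x)) (hor F m s) := by
  set p : ℂ := ((1 / ε : ℝ) : ℂ) * (X.1 - x) with hp
  obtain ⟨δ, hδ, hδ'⟩ := hJ 1 one_pos
  set C₁ : ℝ := ‖s‖ ^ 2 + |B.app s| / 2 with hC₁
  have hC₁0 : 0 ≤ C₁ := by positivity
  set C : ℝ := C₁ + ‖p‖ * C₁ + (‖hor F m s‖ + C₁) ^ 2 / (2 * ε) with hC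
  have hC0 : 0 ≤ C := by positivity
  -- the inequality for small `τ`
  have key : ∀ τ : ℝ, 0 < τ → τ ≤ 1 → τ * ‖s‖ < δ →
      vert F m s - ip p (hor F m s) ≤ C * τ := by
    intro τ hτ hτ1 hτδ
    have hn : ‖(τ : ℂ) * s‖ = τ * ‖s‖ := by
      rw [norm_mul, Complex.norm_real, Real.norm_eq_abs, abs_of_pos hτ]
    obtain ⟨Y, hY, hYe⟩ := hδ' ((τ : ℂ) * s) (by rw [hn]; exact hτδ)
    set E : E3 := Y - (X + ((τ : ℂ) * s).re • F.a + ((τ : ℂ) * s).im • F.b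
      + (ip m ((τ : ℂ) * s) + B.app ((τ : ℂ) * s) / 2) • F.n) with hE
    have hYE : Y = E + (X + ((τ : ℂ) * s).re • F.a + ((τ : ℂ) * s).im • F.b
      + (ip m ((τ : ℂ) * s) + B.app ((τ : ℂ) * s) / 2) • F.n) := by rw [hE]; abel
    rw [hn, one_mul] at hYe
    have hE1 : ‖E.1‖ ≤ τ ^ 2 * ‖s‖ ^ 2 := (norm_fst_le E).trans (by rw [← mul_pow]; exact hYe)
    have hE2 : |E.2| ≤ τ ^ 2 * ‖s‖ ^ 2 := by
      rw [← Real.norm_eq_abs]
      exact (norm_snd_le E).trans (by rw [← mul_pow]; exact hYe)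
    have hY1 : Y.1 - X.1 - 0 = τ • hor F m s + (E.1 + (τ ^ 2 * B.app s / 2) • F.n.1) := by
      rw [hYE, ← hor_smul, app_smul]
      unfold hor
      simp only [Prod.fst_add, Prod.smul_fst, add_smul]
      abel
    have hY2 : Y.2 - X.2 = τ * vert F m s + (E.2 + (τ ^ 2 * B.app s / 2) * F.n.2) := by
      rw [hYE, ← vert_smul, app_smul]
      unfold vert
      simp only [Prod.snd_add, Prod.smul_snd, smul_eq_mul]
      ring
    set w₁ : ℂ := E.1 + (τ ^ 2 * B.app s / 2) • F.n.1 with hw₁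
    set w₂ : ℝ := E.2 + (τ ^ 2 * B.app s / 2) * F.n.2 with hw₂
    have hw₁' : ‖w₁‖ ≤ τ ^ 2 * C₁ := by
      calc ‖w₁‖ ≤ ‖E.1‖ + ‖(τ ^ 2 * B.app s / 2) • F.n.1‖ := norm_add_le _ _
        _ ≤ τ ^ 2 * ‖s‖ ^ 2 + (τ ^ 2 * |B.app s| / 2) * 1 := by
            rw [norm_smul, Real.norm_eq_abs, abs_div, abs_mul, abs_of_nonneg (sq_nonneg τ)]
            gcongr
            · norm_num
            · exact norm_n_fst_le F
        _ = τ ^ 2 * C₁ := by rw [hC₁]; ring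
    have hw₂' : |w₂| ≤ τ ^ 2 * C₁ := by
      calc |w₂| ≤ |E.2| + |(τ ^ 2 * B.app s / 2) * F.n.2| := abs_add_le _ _
        _ ≤ τ ^ 2 * ‖s‖ ^ 2 + (τ ^ 2 * |B.app s| / 2) * 1 := by
            rw [abs_mul, abs_div, abs_mul, abs_of_nonneg (sq_nonneg τ)]
            gcongr
            · norm_num
            · exact abs_n_snd_le F
        _ = τ ^ 2 * C₁ := by rw [hC₁]; ring
    have h := sc_lower hS hε hsc hY 0
    rw [hY1, hY2, add_zero, ← hp, ip_add_right, ip_smul_right] at h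
    have h3 : ip p w₁ ≤ ‖p‖ * (τ ^ 2 * C₁) := (ip_le p w₁).trans (by gcongr)
    have h4 : ‖τ • hor F m s + w₁‖ ≤ τ * (‖hor F m s‖ + C₁) := by
      calc ‖τ • hor F m s + w₁‖ ≤ ‖τ • hor F m s‖ + ‖w₁‖ := norm_add_le _ _
        _ ≤ τ * ‖hor F m s‖ + τ ^ 2 * C₁ := by
            rw [norm_smul, Real.norm_eq_abs, abs_of_pos hτ]; gcongr
        _ ≤ τ * ‖hor F m s‖ + τ * C₁ := by
            gcongr
            nlinarith
        _ = _ := by ring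
    have h5 : ‖τ • hor F m s + w₁‖ ^ 2 / (2 * ε) ≤ τ ^ 2 * ((‖hor F m s‖ + C₁) ^ 2 / (2 * ε)) := by
      rw [mul_div_assoc', ← mul_pow]
      gcongr
    have h6 := neg_abs_le w₂
    have h7 : τ * (vert F m s - ip p (hor F m s)) ≤ τ * (C * τ) := by
      rw [hC]
      nlinarith
    exact le_of_mul_le_mul_left h7 hτ
  by_contra hcon
  push Not at hcon
  set d : ℝ := vert F m s - ip p (hor F m s) with hd
  have hd0 : 0 < d := by rw [hd]; linarith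
  set τ : ℝ := min (min 1 (δ / (2 * (‖s‖ + 1)))) (d / (2 * (C + 1))) with hτ
  have hs1 : 0 < 2 * (‖s‖ + 1) := by positivity
  have hC1 : 0 < 2 * (C + 1) := by positivity
  have hτ0 : 0 < τ := by
    rw [hτ]
    exact lt_min (lt_min one_pos (div_pos hδ hs1)) (div_pos hd0 hC1)
  have hτ1 : τ ≤ 1 := (min_le_left _ _).trans (min_le_left _ _)
  have hτ2 : τ ≤ δ / (2 * (‖s‖ + 1)) := (min_le_left _ _).trans (min_le_right _ _)
  have hτ3 : τ ≤ d / (2 * (C + 1)) := min_le_right _ _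
  rw [le_div_iff₀ hs1] at hτ2
  rw [le_div_iff₀ hC1] at hτ3
  have h1 := key τ hτ0 hτ1 (by nlinarith [norm_nonneg s])
  nlinarith

theorem first_order {S : Set E3} (hS : IsCompact S) {ε : ℝ} (hε : 0 < ε) {x : ℂ} {X : E3}
    (hsc : sc ε S x = X.2 - ‖x - X.1‖ ^ 2 / (2 * ε)) {F : Frame} {m : ℂ} {B : Q2}
    (hJ : HasJet S X F m B) (s : ℂ) :
    vert F m s = ip (((1 / ε : ℝ) : ℂ) * (X.1 - x)) (hor F m s) := by
  apply le_antisymm (first_order_le hS hε hsc hJ s)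
  have h := first_order_le hS hε hsc hJ (-s)
  rw [vert_neg, hor_neg, ip_neg_right] at h
  linarith

theorem abs_app_sub_le (B : Q2) (s t : ℂ) :
    |B.app s - B.app t| ≤ (|B.a| + 2 * |B.b| + |B.c|) * (‖s - t‖ * (‖s‖ + ‖t‖)) := by
  have hr : |s.re - t.re| ≤ ‖s - t‖ := by
    rw [← Complex.sub_re]; exact Complex.abs_re_le_norm _
  have hi : |s.im - t.im| ≤ ‖s - t‖ := by
    rw [← Complex.sub_im]; exact Complex.abs_im_le_norm _
  have hr' : |s.re + t.re| ≤ ‖s‖ + ‖t‖ := by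
    rw [← Complex.add_re]; exact (Complex.abs_re_le_norm _).trans (norm_add_le _ _)
  have hi' : |s.im + t.im| ≤ ‖s‖ + ‖t‖ := by
    rw [← Complex.add_im]; exact (Complex.abs_im_le_norm _).trans (norm_add_le _ _)
  have e : B.app s - B.app t = B.a * ((s.re - t.re) * (s.re + t.re))
      + B.b * ((s.re - t.re) * (s.im + t.im) + (s.im - t.im) * (s.re + t.re))
      + B.c * ((s.im - t.im) * (s.im + t.im)) := by
    unfold Q2.app; ring
  have q : ∀ x y : ℝ, |x| ≤ ‖s - t‖ → |y| ≤ ‖s‖ + ‖t‖ → |x * y| ≤ ‖s - t‖ * (‖s‖ + ‖t‖) := by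
    intro x y hx hy
    rw [abs_mul]
    exact mul_le_mul hx hy (abs_nonneg _) (norm_nonneg _)
  rw [e]
  calc _ ≤ |B.a * ((s.re - t.re) * (s.re + t.re))|
      + |B.b * ((s.re - t.re) * (s.im + t.im) + (s.im - t.im) * (s.re + t.re))|
      + |B.c * ((s.im - t.im) * (s.im + t.im))| := abs_add_three _ _ _
    _ ≤ |B.a| * (‖s - t‖ * (‖s‖ + ‖t‖)) + |B.b| * (2 * (‖s - t‖ * (‖s‖ + ‖t‖)))
      + |B.c| * (‖s - t‖ * (‖s‖ + ‖t‖)) := by
        rw [abs_mul, abs_mul B.b, abs_mul B.c]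
        gcongr
        · exact q _ _ hr hr'
        · refine (abs_add_le _ _).trans ?_
          have h1 := q _ _ hr hi'
          have h2 := q _ _ hi hr'
          linarith
        · exact q _ _ hi hi'
    _ = _ := by ring

theorem hor_add (F : Frame) (m s t : ℂ) : hor F m (s + t) = hor F m s + hor F m t := by
  unfold hor
  rw [ip_add_right]
  simp only [Complex.add_re, Complex.add_im, add_smul]
  abel

theorem lower_jet {S : Set E3} (hS : IsCompact S) {ε : ℝ} (hε : 0 < ε) {x : ℂ} {X : E3}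
    (hsc : sc ε S x = X.2 - ‖x - X.1‖ ^ 2 / (2 * ε)) {F : Frame} {m : ℂ} {B : Q2}
    (hJ : HasJet S X F m B) (r : ℂ →L[ℝ] ℂ) (hr : ∀ v, hor F m (r v) = v) (B' : Q2)
    (hB' : ∀ v, B'.app v
      = (F.n.2 - ip (((1 / ε : ℝ) : ℂ) * (X.1 - x)) F.n.1) * B.app (r v)) :
    LJ (sc ε S) x (((1 / ε : ℝ) : ℂ) * (X.1 - x)) B' := by
  have hfo := first_order hS hε hsc hJ
  set p : ℂ := ((1 / ε : ℝ) : ℂ) * (X.1 - x) with hp
  set K : ℝ := ‖r‖ with hK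
  have hK0 : 0 ≤ K := norm_nonneg r
  have hrv : ∀ v, ‖r v‖ ≤ K * ‖v‖ := fun v => r.le_opNorm v
  set KB : ℝ := |B.a| + 2 * |B.b| + |B.c| with hKB
  have hKB0 : 0 ≤ KB := by positivity
  set K₁ : ℝ := K + KB * K ^ 3 / 2 with hK₁
  have hK₁0 : 0 ≤ K₁ := by positivity
  set C₂ : ℝ := KB ^ 2 * K ^ 3 * (K₁ + K) / 4 with hC₂
  have hC₂0 : 0 ≤ C₂ := by positivity
  set K₂ : ℝ := 1 + ‖p‖ + 1 / (2 * ε) with hK₂
  have hK₂0 : 0 < K₂ := by positivity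
  intro η hη
  set η₁ : ℝ := η / (2 * K₂ * (K₁ ^ 2 + 1)) with hη₁
  have hη₁0 : 0 < η₁ := by positivity
  obtain ⟨δ₁, hδ₁, hJ₁⟩ := hJ η₁ hη₁0
  set δ : ℝ := min (min 1 (δ₁ / (K₁ + 1))) (min (η / (2 * K₂ * (C₂ + 1)))
    (1 / (η₁ * K₁ ^ 2 + C₂ + 1))) with hδ
  have hδ0 : 0 < δ := by
    rw [hδ]
    refine lt_min (lt_min one_pos (by positivity)) (lt_min (by positivity) (by positivity))
  refine ⟨δ, hδ0, fun v hv => ?_⟩
  have hv1 : ‖v‖ ≤ 1 := (hv.le.trans (min_le_left _ _)).trans (min_le_left _ _)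
  have hv2 : ‖v‖ < δ₁ / (K₁ + 1) := hv.trans_le ((min_le_left _ _).trans (min_le_right _ _))
  have hv3 : ‖v‖ ≤ η / (2 * K₂ * (C₂ + 1)) :=
    hv.le.trans ((min_le_right _ _).trans (min_le_left _ _))
  have hv4 : ‖v‖ ≤ 1 / (η₁ * K₁ ^ 2 + C₂ + 1) :=
    hv.le.trans ((min_le_right _ _).trans (min_le_right _ _))
  rw [lt_div_iff₀ (by positivity)] at hv2
  rw [le_div_iff₀ (by positivity)] at hv3 hv4
  have hv0 : 0 ≤ ‖v‖ := norm_nonneg v
  -- the point of the jet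
  set σ : ℂ := r v - ((B.app (r v) / 2 : ℝ) : ℂ) * r F.n.1 with hσ
  have hBr : |B.app (r v)| ≤ KB * (K * ‖v‖) ^ 2 :=
    (abs_app_le B (r v)).trans (by gcongr; exact hrv v)
  have hrn : ‖r F.n.1‖ ≤ K := (hrv _).trans (mul_le_of_le_one_right hK0 (norm_n_fst_le F))
  have hσr : ‖σ - r v‖ ≤ KB * K ^ 3 / 2 * ‖v‖ ^ 2 := by
    have e : σ - r v = -(((B.app (r v) / 2 : ℝ) : ℂ) * r F.n.1) := by rw [hσ]; ring
    rw [e, norm_neg, norm_mul, Complex.norm_real, Real.norm_eq_abs, abs_div,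
      abs_of_pos (two_pos : (0:ℝ) < 2)]
    calc |B.app (r v)| / 2 * ‖r F.n.1‖ ≤ KB * (K * ‖v‖) ^ 2 / 2 * K := by gcongr
      _ = _ := by ring
  have hσn : ‖σ‖ ≤ K₁ * ‖v‖ := by
    have e : σ = (σ - r v) + r v := by ring
    rw [e]
    calc ‖(σ - r v) + r v‖ ≤ ‖σ - r v‖ + ‖r v‖ := norm_add_le _ _
      _ ≤ KB * K ^ 3 / 2 * ‖v‖ ^ 2 + K * ‖v‖ := add_le_add hσr (hrv v)
      _ ≤ KB * K ^ 3 / 2 * ‖v‖ + K * ‖v‖ := by
          gcongr
          exact pow_le_of_le_one hv0 hv1 two_ne_zero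
      _ = _ := by rw [hK₁]; ring
  have hBB : |B.app σ - B.app (r v)| ≤ 2 * (C₂ * ‖v‖ ^ 3) := by
    calc _ ≤ KB * (‖σ - r v‖ * (‖σ‖ + ‖r v‖)) := abs_app_sub_le B σ (r v)
      _ ≤ KB * ((KB * K ^ 3 / 2 * ‖v‖ ^ 2) * (K₁ * ‖v‖ + K * ‖v‖)) := by
          gcongr
          exact hrv v
      _ = _ := by rw [hC₂]; ring
  obtain ⟨Y, hY, hYe⟩ := hJ₁ σ (lt_of_le_of_lt hσn (by linarith))
  set E : E3 := Y - (X + σ.re • F.a + σ.im • F.b + (ip m σ + B.app σ / 2) • F.n) with hE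
  have hYE : Y = E + (X + σ.re • F.a + σ.im • F.b + (ip m σ + B.app σ / 2) • F.n) := by
    rw [hE]; abel
  have hEn : ‖E‖ ≤ η₁ * (K₁ * ‖v‖) ^ 2 := hYe.trans (by gcongr)
  set e : ℝ := η₁ * (K₁ * ‖v‖) ^ 2 + C₂ * ‖v‖ ^ 3 with he
  have he0 : 0 ≤ e := by positivity
  have hhσ : hor F m σ = v - (B.app (r v) / 2) • F.n.1 := by
    have e1 : σ = r v + ((-(B.app (r v) / 2) : ℝ) : ℂ) * r F.n.1 := by
      rw [hσ]; push_cast; ring
    rw [e1, hor_add, hor_smul, hr, hr, neg_smul]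
    abel
  set w₁ : ℂ := E.1 + ((B.app σ - B.app (r v)) / 2) • F.n.1 with hw₁
  set w₂ : ℝ := E.2 + ((B.app σ - B.app (r v)) / 2) * F.n.2 with hw₂
  have hY1 : Y.1 - X.1 - v = w₁ := by
    have e1 : Y.1 - X.1 = E.1 + hor F m σ + (B.app σ / 2) • F.n.1 := by
      rw [hYE]
      unfold hor
      simp only [Prod.fst_add, Prod.smul_fst, add_smul]
      abel
    rw [e1, hhσ, hw₁, sub_div, sub_smul]
    abel
  have hY2 : Y.2 - X.2 = ip p v + B'.app v / 2 + w₂ := by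
    have e1 : Y.2 - X.2 = E.2 + vert F m σ + (B.app σ / 2) * F.n.2 := by
      rw [hYE]
      unfold vert
      simp only [Prod.snd_add, Prod.smul_snd, smul_eq_mul]
      ring
    rw [e1, hfo, hhσ, ip_sub_right, ip_smul_right, hw₂, hB']
    ring
  have hw₁' : ‖w₁‖ ≤ e := by
    calc ‖w₁‖ ≤ ‖E.1‖ + ‖((B.app σ - B.app (r v)) / 2) • F.n.1‖ := norm_add_le _ _
      _ ≤ η₁ * (K₁ * ‖v‖) ^ 2 + (2 * (C₂ * ‖v‖ ^ 3)) / 2 * 1 := by
          rw [norm_smul, Real.norm_eq_abs, abs_div, abs_of_pos (two_pos : (0:ℝ) < 2)]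
          gcongr
          · exact (norm_fst_le E).trans hEn
          · exact norm_n_fst_le F
      _ = e := by rw [he]; ring
  have hw₂' : |w₂| ≤ e := by
    calc |w₂| ≤ |E.2| + |((B.app σ - B.app (r v)) / 2) * F.n.2| := abs_add_le _ _
      _ ≤ η₁ * (K₁ * ‖v‖) ^ 2 + (2 * (C₂ * ‖v‖ ^ 3)) / 2 * 1 := by
          rw [abs_mul, abs_div, abs_of_pos (two_pos : (0:ℝ) < 2)]
          gcongr
          · rw [← Real.norm_eq_abs]
            exact (norm_snd_le E).trans hEn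
          · exact abs_n_snd_le F
      _ = e := by rw [he]; ring
  -- `e` is small
  have he1 : e ≤ 1 := by
    have h1 : e ≤ (η₁ * K₁ ^ 2 + C₂ + 1) * ‖v‖ := by
      have h2 : ‖v‖ ^ 2 ≤ ‖v‖ := pow_le_of_le_one hv0 hv1 two_ne_zero
      have h3 : ‖v‖ ^ 3 ≤ ‖v‖ := pow_le_of_le_one hv0 hv1 three_ne_zero
      calc e = η₁ * K₁ ^ 2 * ‖v‖ ^ 2 + C₂ * ‖v‖ ^ 3 := by rw [he]; ring
        _ ≤ η₁ * K₁ ^ 2 * ‖v‖ + C₂ * ‖v‖ := by gcongr
        _ ≤ _ := by linarith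
    linarith
  have heη : K₂ * e ≤ η * ‖v‖ ^ 2 := by
    have h1 : K₂ * (η₁ * K₁ ^ 2) ≤ η / 2 := by
      rw [hη₁, div_mul_eq_mul_div, mul_div_assoc', div_le_div_iff₀ (by positivity) two_pos]
      have : 0 ≤ K₂ * η := by positivity
      linarith
    have h2 : K₂ * (C₂ * ‖v‖) ≤ η / 2 := by
      have : 0 ≤ ‖v‖ * K₂ := by positivity
      linarith
    calc K₂ * e = (K₂ * (η₁ * K₁ ^ 2) + K₂ * (C₂ * ‖v‖)) * ‖v‖ ^ 2 := by rw [he]; ring
      _ ≤ (η / 2 + η / 2) * ‖v‖ ^ 2 := by gcongr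
      _ = _ := by ring
  have h := sc_lower hS hε hsc hY v
  rw [hY1, hY2, ← hp] at h
  have h3 : ip p w₁ ≤ ‖p‖ * e := (ip_le p w₁).trans (by gcongr)
  have h4 : ‖w₁‖ ^ 2 / (2 * ε) ≤ 1 / (2 * ε) * e := by
    rw [div_le_iff₀ (by positivity)]
    have : ‖w₁‖ ^ 2 ≤ e := by
      calc ‖w₁‖ ^ 2 ≤ e ^ 2 := by gcongr
        _ ≤ e := pow_le_of_le_one he0 he1 two_ne_zero
    calc ‖w₁‖ ^ 2 ≤ e := this
      _ = 1 / (2 * ε) * e * (2 * ε) := by field_simp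
  have h5 := neg_abs_le w₂
  have h6 : K₂ * e = e + ‖p‖ * e + 1 / (2 * ε) * e := by rw [hK₂]; ring
  linarith

theorem alg_lin {m1 m2 p1 p2 l al be ga de : ℝ}
    (h11 : 1 + p2 ^ 2 = l ^ 2 * (al ^ 2 * (1 + m2 ^ 2) - 2 * al * be * (m1 * m2)
      + be ^ 2 * (1 + m1 ^ 2)))
    (h12 : - (p1 * p2) = l ^ 2 * (al * ga * (1 + m2 ^ 2) - (al * de + be * ga) * (m1 * m2)
      + be * de * (1 + m1 ^ 2)))
    (h22 : 1 + p1 ^ 2 = l ^ 2 * (ga ^ 2 * (1 + m2 ^ 2) - 2 * ga * de * (m1 * m2)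
      + de ^ 2 * (1 + m1 ^ 2)))
    {D : ℝ} (hD : D = al * de - be * ga) (hD0 : D ≠ 0) (Ba Bb Bc : ℝ) :
    (1 + p2 ^ 2) * (Ba * (de / D) ^ 2 + 2 * Bb * (de / D) * (-ga / D) + Bc * (-ga / D) ^ 2)
      - 2 * p1 * p2 * (Ba * (de / D) * (-be / D) + Bb * ((de / D) * (al / D) + (-ga / D) * (-be / D))
        + Bc * (-ga / D) * (al / D))
      + (1 + p1 ^ 2) * (Ba * (-be / D) ^ 2 + 2 * Bb * (-be / D) * (al / D) + Bc * (al / D) ^ 2)
      = l ^ 2 * ((1 + m2 ^ 2) * Ba - 2 * m1 * m2 * Bb + (1 + m1 ^ 2) * Bc) := by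
  have e : ∀ u : ℝ, - 2 * p1 * p2 * u = 2 * (-(p1 * p2)) * u := fun u => by ring
  have h0 : (1 + p2 ^ 2) * (Ba * de ^ 2 - 2 * Bb * de * ga + Bc * ga ^ 2)
      + 2 * (-(p1 * p2)) * (- Ba * de * be + Bb * (de * al + ga * be) - Bc * ga * al)
      + (1 + p1 ^ 2) * (Ba * be ^ 2 - 2 * Bb * be * al + Bc * al ^ 2)
      = l ^ 2 * ((1 + m2 ^ 2) * Ba - 2 * m1 * m2 * Bb + (1 + m1 ^ 2) * Bc) * D ^ 2 := by
    rw [h11, h12, h22, hD]
    ring
  have hD2 : D ^ 2 ≠ 0 := pow_ne_zero 2 hD0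
  rw [← mul_left_inj' hD2, ← h0]
  field_simp
  ring

theorem exists_jet (F : Frame) (m p : ℂ) (B : Q2) (hfo : ∀ s, vert F m s = ip p (hor F m s)) :
    ∃ (r : ℂ →L[ℝ] ℂ) (B' : Q2), (∀ v, hor F m (r v) = v) ∧
      (∀ v, B'.app v = (F.n.2 - ip p F.n.1) * B.app (r v)) ∧ |curv p B'| = |curv m B| := by
  obtain ⟨xx, yy, zz, xy, xz, yz⟩ := F.complete
  have ha := hfo 1
  have hb := hfo Complex.I
  have hqa : F.a.2 + m.re * F.n.2 = p.re * (F.a.1.re + m.re * F.n.1.re)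
      + p.im * (F.a.1.im + m.re * F.n.1.im) := by
    have := ha
    simp [vert, hor, ip] at this
    linarith
  have hqb : F.b.2 + m.im * F.n.2 = p.re * (F.b.1.re + m.im * F.n.1.re)
      + p.im * (F.b.1.im + m.im * F.n.1.im) := by
    have := hb
    simp [vert, hor, ip] at this
    linarith
  set l : ℝ := F.n.2 - (p.re * F.n.1.re + p.im * F.n.1.im) with hl
  set al : ℝ := F.a.1.re + m.re * F.n.1.re with hal
  set be : ℝ := F.b.1.re + m.im * F.n.1.re with hbe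
  set ga : ℝ := F.a.1.im + m.re * F.n.1.im with hga
  set de : ℝ := F.b.1.im + m.im * F.n.1.im with hde
  obtain ⟨h11, h12, h22, hW⟩ := alg_core xx yy zz xy xz yz hqa hqb l al be ga de rfl rfl rfl rfl rfl
  have hdet := alg_det h11 h12 h22 hW
  set D : ℝ := al * de - be * ga with hD
  have hD0 : D ≠ 0 := by
    intro h0
    rw [h0] at hdet
    norm_num at hdet
  have hl0 : l ≠ 0 := by
    intro h0
    rw [h0] at hdet
    norm_num at hdet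
  set c1 : ℂ := ⟨de / D, -ga / D⟩ with hc1
  set c2 : ℂ := ⟨-be / D, al / D⟩ with hc2
  refine ⟨Complex.reCLM.smulRight c1 + Complex.imCLM.smulRight c2,
    ⟨l * (B.a * (de / D) ^ 2 + 2 * B.b * (de / D) * (-ga / D) + B.c * (-ga / D) ^ 2),
     l * (B.a * (de / D) * (-be / D) + B.b * ((de / D) * (al / D) + (-ga / D) * (-be / D))
        + B.c * (-ga / D) * (al / D)),
     l * (B.a * (-be / D) ^ 2 + 2 * B.b * (-be / D) * (al / D) + B.c * (al / D) ^ 2)⟩,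
    ?_, ?_, ?_⟩
  · intro v
    have e : ∀ s : ℂ, hor F m s = ⟨al * s.re + be * s.im, ga * s.re + de * s.im⟩ := by
      intro s
      apply Complex.ext
      · simp [hor, ip, hal, hbe]; ring
      · simp [hor, ip, hga, hde]; ring
    rw [e]
    apply Complex.ext
    · simp [hc1, hc2]
      field_simp
      rw [hD]; ring
    · simp [hc1, hc2]
      field_simp
      rw [hD]; ring
  · intro v
    have e : F.n.2 - ip p F.n.1 = l := rfl
    rw [e]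
    simp [Q2.app, hc1, hc2]
    ring
  · have hWp : W p ^ 2 = l ^ 2 * W m ^ 2 := by rw [W_sq, W_sq]; exact hW
    have hWp' : W p = |l| * W m := by
      have h1 : W p ^ 2 = (|l| * W m) ^ 2 := by rw [mul_pow, sq_abs]; exact hWp
      have h2 : 0 ≤ |l| * W m := mul_nonneg (abs_nonneg _) (W_pos m).le
      exact (pow_left_inj₀ (W_pos p).le h2 two_ne_zero).1 h1
    rw [curv_eq_lin, curv_eq_lin]
    have e : lin p ⟨l * (B.a * (de / D) ^ 2 + 2 * B.b * (de / D) * (-ga / D) + B.c * (-ga / D) ^ 2),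
     l * (B.a * (de / D) * (-be / D) + B.b * ((de / D) * (al / D) + (-ga / D) * (-be / D))
        + B.c * (-ga / D) * (al / D)),
     l * (B.a * (-be / D) ^ 2 + 2 * B.b * (-be / D) * (al / D) + B.c * (al / D) ^ 2)⟩
      = l ^ 3 * lin m B := by
      have h0 := alg_lin h11 h12 h22 hD hD0 B.a B.b B.c
      unfold lin
      calc _ = l * ((1 + p.im ^ 2) * (B.a * (de / D) ^ 2 + 2 * B.b * (de / D) * (-ga / D)
            + B.c * (-ga / D) ^ 2)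
          - 2 * p.re * p.im * (B.a * (de / D) * (-be / D) + B.b * ((de / D) * (al / D)
            + (-ga / D) * (-be / D)) + B.c * (-ga / D) * (al / D))
          + (1 + p.re ^ 2) * (B.a * (-be / D) ^ 2 + 2 * B.b * (-be / D) * (al / D)
            + B.c * (al / D) ^ 2)) := by ring
        _ = _ := by rw [h0]; ring
    rw [e, hWp', abs_div, abs_mul, abs_div, abs_pow, mul_pow, abs_mul, abs_pow, abs_abs]
    have h3 : |l| ^ 3 ≠ 0 := pow_ne_zero 3 (abs_ne_zero.2 hl0)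
    rw [mul_div_mul_left _ _ h3]

end JetAux

theorem JET_holds : JetScStatement := by
  intro S hS ε hε x X hX hsc F m B hJ
  obtain ⟨r, B', h1, h2, h3⟩ := JetAux.exists_jet F m (((1 / ε : ℝ) : ℂ) * (X.1 - x)) B
    (JetAux.first_order hS hε hsc hJ)
  exact ⟨B', JetAux.lower_jet hS hε hsc hJ r h1 B' h2, h3⟩

end Cyl
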