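import Pool.Agent.Cyl.GJET

/-!
# LIN: directional derivatives of a solution of `mc g = const` solve the linear equation
-/

open MeasureTheory Set Filter Topology Metric
open scoped ContDiff

noncomputable section

namespace Cyl

/-- derivative of `curv` along a curve in the space of 2-jets -/
theorem hasDerivAt_curv {P Q A B C : ℝ → ℝ} {P' Q' A' B' C' τ : ℝ} (hP : HasDerivAt P P' τ)
    (hQ : HasDerivAt Q Q' τ) (hA : HasDerivAt A A' τ) (hB : HasDerivAt B B' τ)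
    (hC : HasDerivAt C C' τ) :
    HasDerivAt (fun t => curv ⟨P t, Q t⟩ ⟨A t, B t, C t⟩)
      ((lin ⟨P τ, Q τ⟩ ⟨A', B', C'⟩ + ip (dcurv ⟨P τ, Q τ⟩ ⟨A τ, B τ, C τ⟩) ⟨P', Q'⟩) /
        (W ⟨P τ, Q τ⟩) ^ 3) τ := by
  have hW2 : HasDerivAt (fun t => 1 + P t ^ 2 + Q t ^ 2) (2 * P τ * P' + 2 * Q τ * Q') τ := by
    refine (((hP.pow 2).const_add 1).add (hQ.pow 2)).congr_deriv ?_
    norm_num
  have hpos : 0 < 1 + P τ ^ 2 + Q τ ^ 2 := by positivity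
  have hW : HasDerivAt (fun t => W ⟨P t, Q t⟩) ((P τ * P' + Q τ * Q') / W ⟨P τ, Q τ⟩) τ := by
    refine (hW2.sqrt hpos.ne').congr_deriv ?_
    show (2 * P τ * P' + 2 * Q τ * Q') / (2 * √(1 + P τ ^ 2 + Q τ ^ 2)) = _
    have e : W ⟨P τ, Q τ⟩ = √(1 + P τ ^ 2 + Q τ ^ 2) := rfl
    rw [e]
    have h0 : √(1 + P τ ^ 2 + Q τ ^ 2) ≠ 0 := (Real.sqrt_pos.mpr hpos).ne'
    field_simp
  have hWp : 0 < W ⟨P τ, Q τ⟩ := W_pos _
  have hnum : HasDerivAt (fun t => (1 + Q t ^ 2) * A t - 2 * P t * Q t * B t + (1 + P t ^ 2) * C t)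
      ((2 * Q τ * Q') * A τ + (1 + Q τ ^ 2) * A' - (2 * P' * Q τ + 2 * P τ * Q') * B τ -
        2 * P τ * Q τ * B' + (2 * P τ * P') * C τ + (1 + P τ ^ 2) * C') τ := by
    have h1 := ((hQ.pow 2).const_add 1).mul hA
    have h2 := ((hP.const_mul 2).mul hQ).mul hB
    have h3 := ((hP.pow 2).const_add 1).mul hC
    refine ((h1.sub h2).add h3).congr_deriv ?_
    norm_num
    ring
  have hmain := hnum.div (hW.pow 3) (pow_ne_zero 3 hWp.ne')
  refine hmain.congr_deriv ?_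
  have hWsq : W ⟨P τ, Q τ⟩ ^ 2 = 1 + P τ ^ 2 + Q τ ^ 2 := W_sq _
  have hW0 : W ⟨P τ, Q τ⟩ ≠ 0 := hWp.ne'
  simp only [lin, dcurv, ip, Pi.pow_apply]
  generalize W ⟨P τ, Q τ⟩ = w at hW0
  norm_num
  field_simp
  ring

theorem contDiffAt_of_mem {U : Set ℂ} (hU : IsOpen U) {g : ℂ → ℝ} (hg : ContDiffOn ℝ ∞ g U) {s : ℂ}
    (hs : s ∈ U) : ContDiffAt ℝ ∞ g s := hg.contDiffAt (hU.mem_nhds hs)

theorem contDiffAt_two {g : ℂ → ℝ} {s : ℂ} (hg : ContDiffAt ℝ ∞ g s) : ContDiffAt ℝ 2 g s :=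
  hg.of_le ENat.LEInfty.out

/-- Schwarz -/
theorem fderiv_comm {φ : ℂ → ℝ} {s : ℂ} (hφ : ContDiffAt ℝ ∞ φ s) (v ξ : ℂ) :
    fderiv ℝ (fun t => fderiv ℝ φ t v) s ξ = fderiv ℝ (fun t => fderiv ℝ φ t ξ) s v := by
  have h2 := contDiffAt_two hφ
  rw [snd_app h2, snd_app h2]
  exact (h2.isSymmSndFDerivAt (by simp)) ξ v

theorem lin_hasDerivAt_line {φ : ℂ → ℝ} {s ξ : ℂ} (hφ : DifferentiableAt ℝ φ s) :
    HasDerivAt (fun τ : ℝ => φ (s + τ • ξ)) (fderiv ℝ φ s ξ) 0 := by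
  have hl : HasDerivAt (fun τ : ℝ => s + τ • ξ) ξ 0 := by
    have := ((hasDerivAt_id (0 : ℝ)).smul_const ξ).const_add s
    simpa using this
  have hd : HasFDerivAt φ (fderiv ℝ φ s) (s + (0 : ℝ) • ξ) := by
    rw [zero_smul, add_zero]; exact hφ.hasFDerivAt
  exact hd.comp_hasDerivAt 0 hl

/-- LIN -/
theorem LIN_holds : LinPDEStatement := by
  intro U g k ξ hU hg hmc s hs
  have c1 := contDiffOn_d1 hU hg
  have c2 := contDiffOn_d2 hU hg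
  have c11 := contDiffOn_d1 hU c1
  have c12 := contDiffOn_d2 hU c1
  have c22 := contDiffOn_d2 hU c2
  have dif : ∀ {φ : ℂ → ℝ}, ContDiffOn ℝ ∞ φ U → DifferentiableAt ℝ φ s := fun h =>
    (contDiffAt_of_mem hU h hs).differentiableAt (by simp)
  set h : ℂ → ℝ := fun t => fderiv ℝ g t ξ with hh
  -- first derivatives of `h`
  have e1 : ∀ t ∈ U, fderiv ℝ (d1 g) t ξ = d1 h t := fun t ht =>
    fderiv_comm (contDiffAt_of_mem hU hg ht) 1 ξ
  have e2 : ∀ t ∈ U, fderiv ℝ (d2 g) t ξ = d2 h t := fun t ht =>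
    fderiv_comm (contDiffAt_of_mem hU hg ht) Complex.I ξ
  have ev : ∀ {φ ψ : ℂ → ℝ}, (∀ t ∈ U, φ t = ψ t) → fderiv ℝ φ s = fderiv ℝ ψ s := by
    intro φ ψ hφ
    apply Filter.EventuallyEq.fderiv_eq
    filter_upwards [hU.mem_nhds hs] with t ht
    exact hφ t ht
  have e11 : fderiv ℝ (d1 (d1 g)) s ξ = d1 (d1 h) s := by
    have := fderiv_comm (contDiffAt_of_mem hU c1 hs) 1 ξ
    refine this.trans ?_
    rw [ev e1]; rfl
  have e12 : fderiv ℝ (d2 (d1 g)) s ξ = d2 (d1 h) s := by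
    have := fderiv_comm (contDiffAt_of_mem hU c1 hs) Complex.I ξ
    refine this.trans ?_
    rw [ev e1]; rfl
  have e22 : fderiv ℝ (d2 (d2 g)) s ξ = d2 (d2 h) s := by
    have := fderiv_comm (contDiffAt_of_mem hU c2 hs) Complex.I ξ
    refine this.trans ?_
    rw [ev e2]; rfl
  have hder := hasDerivAt_curv (lin_hasDerivAt_line (ξ := ξ) (dif c1)) (lin_hasDerivAt_line (ξ := ξ) (dif c2))
    (lin_hasDerivAt_line (ξ := ξ) (dif c11)) (lin_hasDerivAt_line (ξ := ξ) (dif c12))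
    (lin_hasDerivAt_line (ξ := ξ) (dif c22))
  have hconst : HasDerivAt (fun τ : ℝ => curv ⟨d1 g (s + τ • ξ), d2 g (s + τ • ξ)⟩
      ⟨d1 (d1 g) (s + τ • ξ), d2 (d1 g) (s + τ • ξ), d2 (d2 g) (s + τ • ξ)⟩) 0 0 := by
    refine (hasDerivAt_const (0 : ℝ) k).congr_of_eventuallyEq ?_
    have hcont : ContinuousAt (fun τ : ℝ => s + τ • ξ) 0 := by fun_prop
    have hmem : U ∈ 𝓝 (s + (0 : ℝ) • ξ) := by
      rw [zero_smul, add_zero]; exact hU.mem_nhds hs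
    filter_upwards [hcont.preimage_mem_nhds hmem] with τ hτ
    exact hmc _ hτ
  have huniq := hder.unique hconst
  rw [div_eq_zero_iff] at huniq
  rcases huniq with h0 | h0
  · rw [zero_smul, add_zero] at h0
    rw [e1 s hs, e2 s hs, e11, e12, e22] at h0
    exact h0
  · exact absurd h0 (pow_ne_zero 3 (W_pos _).ne')

end Cyl
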