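import Pool.Agent.Cyl.BASIC

/-!
# Module LOC
-/

open MeasureTheory Set Filter Topology Metric
open scoped ContDiff

noncomputable section

namespace Cyl

universe u

/-- the linear map `v ↦ v₁ a + v₂ b`, projected to the plane -/
def Frame.lam (F : Frame) : ℂ →L[ℝ] ℂ :=
  Complex.reCLM.smulRight F.a.1 + Complex.imCLM.smulRight F.b.1

theorem Frame.lam_apply (F : Frame) (v : ℂ) : F.lam v = v.re • F.a.1 + v.im • F.b.1 := by
  simp [Frame.lam]

theorem Frame.lam_inj (F : Frame) (hn : F.n.2 ≠ 0) : Function.Injective F.lam := by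
  rw [injective_iff_map_eq_zero]
  intro v hv
  rw [F.lam_apply] at hv
  have e : v.re • F.a + v.im • F.b = ((0 : ℂ), v.re * F.a.2 + v.im * F.b.2) := by
    apply Prod.ext
    · simpa using hv
    · simp
  have h1 : dot (v.re • F.a + v.im • F.b) F.n = 0 := by
    rw [dot_add_left, dot_smul_left, dot_smul_left, F.han, F.hbn]; simp
  rw [e] at h1
  have h2 : v.re * F.a.2 + v.im * F.b.2 = 0 := by
    have : (v.re * F.a.2 + v.im * F.b.2) * F.n.2 = 0 := by simpa [dot, ip] using h1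
    rcases mul_eq_zero.1 this with h | h
    · exact h
    · exact absurd h hn
  rw [h2] at e
  have h3 : dot (v.re • F.a + v.im • F.b) F.a = v.re := by
    rw [dot_add_left, dot_smul_left, dot_smul_left, F.haa, dot_comm F.b F.a, F.hab]; simp
  have h4 : dot (v.re • F.a + v.im • F.b) F.b = v.im := by
    rw [dot_add_left, dot_smul_left, dot_smul_left, F.hbb, F.hab]; simp
  rw [e] at h3 h4
  apply Complex.ext
  · rw [← h3]; simp [dot, ip]
  · rw [← h4]; simp [dot, ip]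

/-- `lam` as an equivalence -/
def Frame.lamEquiv (F : Frame) (hn : F.n.2 ≠ 0) : ℂ ≃L[ℝ] ℂ :=
  (LinearEquiv.ofInjectiveEndo (F.lam : ℂ →ₗ[ℝ] ℂ) (F.lam_inj hn)).toContinuousLinearEquiv

theorem Frame.lamEquiv_coe (F : Frame) (hn : F.n.2 ≠ 0) :
    ((F.lamEquiv hn : ℂ ≃L[ℝ] ℂ) : ℂ →L[ℝ] ℂ) = F.lam := by
  ext v
  rfl

section

variable {M : Type u} [TopologicalSpace M]
variable {f N : M → E3} {bd : Set M} {H : ℝ} {q q' : M} {F : Frame} {r : ℝ} {g : ℂ → ℝ}
  {R : Set ℂ} {e : PartialEquiv M ℂ} {s : ℂ}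

theorem Patch.hasFDerivAt_fst (h : Patch f N H q F r g R e) :
    HasFDerivAt (fun s => (F.pt (f q) g s).1) F.lam 0 := by
  have hd : DifferentiableAt ℝ g 0 :=
    (h.smooth.contDiffAt (ball_mem_nhds _ h.r_pos)).differentiableAt (by simp)
  have h1 := F.hasFDerivAt_pt (f q) hd
  have h2 := (ContinuousLinearMap.fst ℝ ℂ ℝ).hasFDerivAt.comp (0 : ℂ) h1
  refine HasFDerivAt.congr_fderiv h2 ?_
  ext v
  all_goals simp [Frame.lam, Frame.X1, Frame.X2, h.d1_zero, h.d2_zero]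

/-- the local inverse of the projection of a patch whose centre is not vertical -/
theorem Patch.locinv (h : Patch f N H q F r g R e) (hn : F.n.2 ≠ 0) :
    ∃ G : OpenPartialHomeomorph ℂ ℂ, (0 : ℂ) ∈ G.source ∧ G.source ⊆ ball 0 r ∧
      (∀ s, G s = (F.pt (f q) g s).1) ∧ ContDiffAt ℝ ∞ G.symm (f q).1 ∧ G 0 = (f q).1 := by
  have hc : ContDiffAt ℝ ∞ (fun s => (F.pt (f q) g s).1) 0 := by
    have h1 := (F.contDiffOn_pt (f q) h.smooth).contDiffAt (ball_mem_nhds _ h.r_pos)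
    exact contDiff_fst.contDiffAt.comp (0 : ℂ) h1
  have hd : HasFDerivAt (fun s => (F.pt (f q) g s).1) ((F.lamEquiv hn : ℂ ≃L[ℝ] ℂ) : ℂ →L[ℝ] ℂ) 0 := by
    rw [F.lamEquiv_coe]
    exact h.hasFDerivAt_fst
  have hne : (∞ : WithTop ℕ∞) ≠ 0 := by simp
  let G0 := hc.toOpenPartialHomeomorph (fun s => (F.pt (f q) g s).1) hd hne
  have h0 : (0 : ℂ) ∈ G0.source := hc.mem_toOpenPartialHomeomorph_source hd hne
  have hG00 : (F.pt (f q) g 0).1 = (f q).1 := by
    simp [Frame.pt, h.g_zero]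
  refine ⟨G0.restrOpen (ball 0 r) isOpen_ball, ?_, ?_, ?_, ?_, ?_⟩
  · rw [OpenPartialHomeomorph.restrOpen_source]
    exact ⟨h0, by simpa using h.r_pos⟩
  · rw [OpenPartialHomeomorph.restrOpen_source]
    exact inter_subset_right
  · intro s
    rfl
  · have := hc.to_localInverse hd hne
    rw [hG00] at this
    exact this
  · exact hG00

end

theorem LOC_holds : LocalGraphStatement.{u} := by
  intro M _ _ _ S q hq hN
  obtain ⟨F, r, g, e, hp⟩ := S.surf.interior q hq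
  have hP := hp.1
  have hn : F.n.2 ≠ 0 := by rw [← hP.normal_center]; exact hN
  obtain ⟨G, hG0, hGr, hG, hGs, hG00⟩ := hP.locinv hn
  have hpi : ∀ q' ∈ e.source, (S.f q').1 = G (e q') := by
    intro q' hq'
    rw [hP.f_eq hq', hG]
  have hev : ∀ᶠ q' in 𝓝 q, q' ∈ e.source ∧ e q' ∈ G.source := by
    have h1 : ContinuousAt e q := hP.cont.continuousAt (hP.isOpen.mem_nhds hP.mem)
    have h2 : G.source ∈ 𝓝 (e q) := by
      rw [hP.map_zero]; exact G.open_source.mem_nhds hG0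
    filter_upwards [hP.isOpen.mem_nhds hP.mem, h1 h2] with x hx hx'
    exact ⟨hx, hx'⟩
  refine ⟨?_, ?_, ?_⟩
  · intro V hV
    obtain ⟨ε, hε, hV'⟩ := hP.exists_ball hV
    have hU : G.source ∩ ball 0 ε ∈ 𝓝 (0 : ℂ) :=
      inter_mem (G.open_source.mem_nhds hG0) (ball_mem_nhds _ hε)
    have h1 : G '' (G.source ∩ ball 0 ε) ∈ 𝓝 (G 0) := by
      apply IsOpen.mem_nhds
      · exact G.isOpen_image_of_subset_source (G.open_source.inter isOpen_ball) inter_subset_left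
      · exact ⟨0, ⟨hG0, by simpa using hε⟩, rfl⟩
    rw [hG00] at h1
    apply mem_of_superset h1
    rintro x ⟨s, ⟨hs1, hs2⟩, rfl⟩
    have hsr := hGr hs1
    refine ⟨e.symm s, hV' s hsr (by simpa using hs2), ?_⟩
    show (S.f (e.symm s)).1 = G s
    rw [hP.param s hsr, hG]
  · refine ⟨_, hev, ?_⟩
    rintro x ⟨hx1, hx2⟩ y ⟨hy1, hy2⟩ hxy
    simp only at hxy
    rw [hpi x hx1, hpi y hy1] at hxy
    exact e.injOn hx1 hy1 (G.injOn hx2 hy2 hxy)
  · refine ⟨fun x => (F.pt (S.f q) g (G.symm x)).2, ?_, ?_⟩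
    · have h1 : G.symm (S.f q).1 = 0 := by
        rw [← hG00]; exact G.left_inv hG0
      have h2 : ContDiffAt ℝ ∞ (F.pt (S.f q) g) (G.symm (S.f q).1) := by
        rw [h1]
        exact (F.contDiffOn_pt (S.f q) hP.smooth).contDiffAt (ball_mem_nhds _ hP.r_pos)
      exact contDiff_snd.contDiffAt.comp _ (h2.comp _ hGs)
    · filter_upwards [hev] with x hx
      rw [hpi x hx.1, G.left_inv hx.2]
      rw [hP.f_eq hx.1]

end Cyl
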