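import Pool.Agent.Cyl.BASIC

/-!
# Module MAIN: assembly
-/

open MeasureTheory Set Filter Topology Metric
open scoped ContDiff

noncomputable section

namespace Cyl

universe u

variable {M : Type u} [TopologicalSpace M]

theorem Setup.ν_continuous [CompactSpace M] (S : Setup M) : Continuous S.ν := by
  have h1 : Continuous fun θ => S.N (S.b θ) := S.surf.continuous_N.comp S.continuous_b
  have h2 : Continuous (deriv S.γ) := S.curve.smooth.continuous_deriv (by simp)
  unfold Setup.ν ip
  fun_prop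

theorem Setup.Good.eventually [CompactSpace M] {S : Setup M} {θ : ℝ} (h : S.Good θ) :
    ∀ᶠ θ' in 𝓝 θ, S.Good θ' := by
  obtain ⟨V, hV, hVt⟩ := h
  obtain ⟨O, hOV, hO, hbO⟩ := mem_nhds_iff.1 hV
  have h1 : ∀ᶠ θ' in 𝓝 θ, S.b θ' ∈ O := S.continuous_b.continuousAt.eventually (hO.mem_nhds hbO)
  filter_upwards [h1] with θ' hθ'
  exact ⟨O, hO.mem_nhds hθ', fun q hq => hVt ⟨hOV hq.1, hq.2⟩⟩

/-- an open nonempty set of reals containing the endpoints of its intervals is everything -/
theorem eq_univ_of_step {G : Set ℝ} (hG : IsOpen G) (hne : G.Nonempty)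
    (hl : ∀ θ, (∃ δ > 0, ∀ t, 0 < t → t < δ → θ - t ∈ G) → θ ∈ G)
    (hr : ∀ θ, (∃ δ > 0, ∀ t, 0 < t → t < δ → θ + t ∈ G) → θ ∈ G) : ∀ θ, θ ∈ G := by
  -- every point is reached from a point of `G` by an interval
  have key : ∀ a ∈ G, ∀ b, a ≤ b → b ∈ G := by
    intro a ha b hab
    by_contra hb
    let E : Set ℝ := {x | a ≤ x ∧ x ∉ G}
    have hE : b ∈ E := ⟨hab, hb⟩
    have hbdd : BddBelow E := ⟨a, fun x hx => hx.1⟩
    have hcl : IsClosed E := (isClosed_Ici).inter hG.isClosed_compl
    have hmem : sInf E ∈ E := hcl.csInf_mem ⟨b, hE⟩ hbdd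
    apply hmem.2
    have hlt : a < sInf E := by
      rcases hmem.1.lt_or_eq with h | h
      · exact h
      · exfalso; apply hmem.2; rw [← h]; exact ha
    apply hl
    refine ⟨sInf E - a, by linarith, fun t ht1 ht2 => ?_⟩
    by_contra hcon
    have : sInf E - t ∈ E := ⟨by linarith, hcon⟩
    have := csInf_le hbdd this
    linarith
  have key' : ∀ a ∈ G, ∀ b, b ≤ a → b ∈ G := by
    intro a ha b hab
    by_contra hb
    let E : Set ℝ := {x | x ≤ a ∧ x ∉ G}
    have hE : b ∈ E := ⟨hab, hb⟩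
    have hbdd : BddAbove E := ⟨a, fun x hx => hx.1⟩
    have hcl : IsClosed E := (isClosed_Iic).inter hG.isClosed_compl
    have hmem : sSup E ∈ E := hcl.csSup_mem ⟨b, hE⟩ hbdd
    apply hmem.2
    have hlt : sSup E < a := by
      rcases hmem.1.lt_or_eq with h | h
      · exact h
      · exfalso; apply hmem.2; rw [h]; exact ha
    apply hr
    refine ⟨a - sSup E, by linarith, fun t ht1 ht2 => ?_⟩
    by_contra hcon
    have : sSup E + t ∈ E := ⟨by linarith, hcon⟩
    have := le_csSup hbdd this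
    linarith
  obtain ⟨a, ha⟩ := hne
  intro θ
  rcases le_total a θ with h | h
  · exact key a ha θ h
  · exact key' a ha θ h

/-- reflection transports the conclusion -/
theorem isGraph_of_reflect {f f' : M → E3} {D : Set ℂ} (h : ∀ q, f' q = ((f q).1, - (f q).2))
    (hg : IsGraph f' D) : IsGraph f D := by
  obtain ⟨w, h1, h2, h3, h4, h5⟩ := hg
  refine ⟨fun x => - w x, h1.neg, h2.neg, fun x hx => by simp [h3 x hx], ?_, ?_⟩
  · intro x y hxy
    apply h4
    rw [h, h, hxy]
  · ext X
    constructor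
    · rintro ⟨q, rfl⟩
      have : f' q ∈ range f' := mem_range_self q
      rw [h5, h q] at this
      exact ⟨this.1, by have := this.2; simp only at this; linarith⟩
    · rintro ⟨hX1, hX2⟩
      have : ((X.1, - X.2) : E3) ∈ range f' := by
        rw [h5]; exact ⟨hX1, by simp [hX2]⟩
      obtain ⟨q, hq⟩ := this
      refine ⟨q, ?_⟩
      rw [h q] at hq
      have e1 := congrArg Prod.fst hq
      have e2 := congrArg Prod.snd hq
      simp only at e1 e2
      exact Prod.ext e1 (by linarith)

/-- the theorem for surfaces with conormal `-N × γ'` -/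
theorem main_neg [CompactSpace M] [T2Space M] [ConnectedSpace M]
    (hFD : FluxDataStatement.{u}) (hABS : AbsorbStatement) (hNC : NullContactStatement)
    (hTF : TopFactsStatement.{u}) (hND : NoDownStatement.{u}) (hCG : CollarGoodStatement.{u})
    (hST : GoodStepStatement.{u}) (hUN : UniqueStatement.{u}) (hFI : FinalStatement.{u})
    (S : Setup M) (hc : S.Conormal (-1)) :
    IsGraph S.f S.D ∨ (2 * S.H * volume.real S.D = S.L ∧ ∀ q ∈ S.bd, (S.N q).2 = 0) := by
  have hF := hFD M S hc
  have habs := hABS _ _ _ _ _ _ _ hF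
  have hnull : S.Null := hNC _ _ _ _ _ _ _ hF
  have honto : ∀ x ∈ closure S.D, ∃ q, (S.f q).1 = x := by
    intro x hx
    obtain ⟨X, ⟨q, rfl⟩, h⟩ := hF.onto x hx
    exact ⟨q, h⟩
  have ht := hTF M S habs honto
  have hnd := hND M S hc
  by_cases hJ : ∃ θ, |S.ν θ| < 1
  · left
    have hgood : ∀ θ, S.Good θ := by
      have hopen : IsOpen {θ | S.Good θ} := by
        rw [isOpen_iff_mem_nhds]
        intro θ hθ
        exact Setup.Good.eventually hθ
      apply eq_univ_of_step hopen
      · obtain ⟨θ, hθ⟩ := hJ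
        exact ⟨θ, hCG M S hc ht hnull θ hθ⟩
      · rintro θ ⟨δ, hδ, h⟩
        by_cases hν : S.ν θ = 1
        · exact hST M S hc ht θ 1 hν (Or.inl rfl) ⟨δ, hδ, fun t h1 h2 => by
            rw [one_mul]; exact h t h1 h2⟩
        · apply hCG M S hc ht hnull θ
          rw [abs_lt]
          exact ⟨(hnd θ).1, lt_of_le_of_ne (hnd θ).2 hν⟩
      · rintro θ ⟨δ, hδ, h⟩
        by_cases hν : S.ν θ = 1
        · exact hST M S hc ht θ (-1) hν (Or.inr rfl) ⟨δ, hδ, fun t h1 h2 => by
            have := h t h1 h2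
            simpa using this⟩
        · apply hCG M S hc ht hnull θ
          rw [abs_lt]
          exact ⟨(hnd θ).1, lt_of_le_of_ne (hnd θ).2 hν⟩
    exact hFI M S hc ht hgood (hUN M S hc ht hnull hJ)
  · right
    replace hJ : ∀ θ, ¬ |S.ν θ| < 1 := fun θ h => hJ ⟨θ, h⟩
    have hν : ∀ θ, S.ν θ = 1 := by
      intro θ
      have h2 := hnd θ
      by_contra hne
      have h3 : S.ν θ < 1 := lt_of_le_of_ne h2.2 hne
      exact hJ θ (abs_lt.2 ⟨h2.1, h3⟩)
    constructor
    · have h1 := hF.flux
      rw [← h1]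
      simp [hν]
    · intro q hq
      obtain ⟨θ, rfl⟩ := S.exists_b_eq hq
      have h1 := hF.a_ν θ
      rw [hν θ] at h1
      nlinarith

theorem MAIN_holds (hOR : OrientStatement.{u}) (hRE : ReflectStatement.{u})
    (hFD : FluxDataStatement.{u}) (hABS : AbsorbStatement) (hNC : NullContactStatement)
    (hTF : TopFactsStatement.{u}) (hND : NoDownStatement.{u}) (hCG : CollarGoodStatement.{u})
    (hST : GoodStepStatement.{u}) (hUN : UniqueStatement.{u}) (hFI : FinalStatement.{u}) :
    MainStatement.{u} := by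
  intro M _ _ _ _ S
  obtain ⟨σ, hσ, hc⟩ := hOR M S
  rcases hσ with rfl | rfl
  · obtain ⟨S', hD, hγ, hL, hH, hbd, hf, hN, hcon⟩ := hRE M S
    have h := main_neg hFD hABS hNC hTF hND hCG hST hUN hFI S' (hcon hc)
    rcases h with h | ⟨h1, h2⟩
    · left
      rw [hD] at h
      exact isGraph_of_reflect hf h
    · right
      rw [hD, hH, hL] at h1
      refine ⟨h1, fun q hq => ?_⟩
      have := h2 q (by rw [hbd]; exact hq)
      rw [hN q] at this
      simpa using this
  · exact main_neg hFD hABS hNC hTF hND hCG hST hUN hFI S hc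

end Cyl
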