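import Pool.Agent.Cyl.Base

/-!
# Weak maximum principle on compact sets (used by SMP and CORNER)
-/

open MeasureTheory Set Filter Topology Metric
open scoped ContDiff

noncomputable section

namespace Cyl

theorem lin_eq_app (m : ℂ) (B : Q2) :
    lin m B = B.app 1 + B.app Complex.I + B.app (Complex.I * m) := by
  unfold lin Q2.app
  simp
  ring

theorem fderiv_apply_eq (w : ℂ → ℝ) (s v : ℂ) :
    fderiv ℝ w s v = v.re * d1 w s + v.im * d2 w s := by
  have h : v = v.re • (1 : ℂ) + v.im • Complex.I := by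
    apply Complex.ext <;> simp
  conv_lhs => rw [h, map_add, map_smul, map_smul]
  simp [d1, d2]

theorem contDiffAt_d1 {w : ℂ → ℝ} {s : ℂ} (hw : ContDiffAt ℝ 2 w s) : ContDiffAt ℝ 1 (d1 w) s :=
  (hw.fderiv_right (m := 1) (by norm_num)).clm_apply contDiffAt_const

theorem contDiffAt_d2 {w : ℂ → ℝ} {s : ℂ} (hw : ContDiffAt ℝ 2 w s) : ContDiffAt ℝ 1 (d2 w) s :=
  (hw.fderiv_right (m := 1) (by norm_num)).clm_apply contDiffAt_const

theorem eventually_differentiableAt {w : ℂ → ℝ} {s : ℂ} (hw : ContDiffAt ℝ 2 w s) :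
    ∀ᶠ t in 𝓝 s, DifferentiableAt ℝ w t := by
  have h := hw.eventually (by simp)
  filter_upwards [h] with t ht
  exact ht.differentiableAt (by norm_num)

theorem d1_d2_comm {w : ℂ → ℝ} {s : ℂ} (hw : ContDiffAt ℝ 2 w s) :
    d1 (d2 w) s = d2 (d1 w) s := by
  have hs := hw.isSymmSndFDerivAt (by simp)
  have hd : DifferentiableAt ℝ (fderiv ℝ w) s :=
    (hw.fderiv_right (m := 1) (by norm_num)).differentiableAt (by norm_num)
  have e : ∀ u v : ℂ, fderiv ℝ (fun t => fderiv ℝ w t u) s v = fderiv ℝ (fderiv ℝ w) s v u := by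
    intro u v
    have h := hd.hasFDerivAt.clm_apply (hasFDerivAt_const u s)
    rw [h.fderiv]
    simp
  have h1 := e Complex.I 1
  have h2 := e 1 Complex.I
  have h3 := hs 1 Complex.I
  unfold d1 d2
  rw [h1, h2, h3]

theorem grad_eq_zero_of_isLocalMin {w : ℂ → ℝ} {s : ℂ} (h : IsLocalMin w s) : grad w s = 0 := by
  have h0 := h.fderiv_eq_zero
  unfold grad d1 d2
  rw [h0]
  rfl

/-- first derivative along a line -/
theorem hasDerivAt_line {w : ℂ → ℝ} {s v : ℂ} {t : ℝ} (hw : DifferentiableAt ℝ w (s + t • v)) :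
    HasDerivAt (fun t : ℝ => w (s + t • v)) (fderiv ℝ w (s + t • v) v) t := by
  have h1 : HasDerivAt (fun t : ℝ => s + t • v) v t := by
    simpa using ((hasDerivAt_id t).smul_const v).const_add s
  exact hw.hasFDerivAt.comp_hasDerivAt t h1

theorem eventually_line {s v : ℂ} {p : ℂ → Prop} (h : ∀ᶠ t in 𝓝 s, p t) :
    ∀ᶠ t : ℝ in 𝓝 0, p (s + t • v) := by
  have h1 : Tendsto (fun t : ℝ => s + t • v) (𝓝 0) (𝓝 s) := by
    have : Continuous (fun t : ℝ => s + t • v) := by fun_prop
    simpa using this.tendsto 0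
  exact h1.eventually h

/-- second derivative along a line -/
theorem hasDerivAt_deriv_line {w : ℂ → ℝ} {s : ℂ} (hw : ContDiffAt ℝ 2 w s) (v : ℂ) :
    HasDerivAt (deriv (fun t : ℝ => w (s + t • v))) ((hess w s).app v) 0 := by
  have h1 : (deriv (fun t : ℝ => w (s + t • v))) =ᶠ[𝓝 0]
      fun t => v.re * d1 w (s + t • v) + v.im * d2 w (s + t • v) := by
    filter_upwards [eventually_line (v := v) (eventually_differentiableAt hw)] with t ht
    rw [(hasDerivAt_line ht).deriv, fderiv_apply_eq]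
  refine HasDerivAt.congr_of_eventuallyEq ?_ h1
  have e1 : DifferentiableAt ℝ (d1 w) (s + (0 : ℝ) • v) := by
    simpa using (contDiffAt_d1 hw).differentiableAt (by norm_num)
  have e2 : DifferentiableAt ℝ (d2 w) (s + (0 : ℝ) • v) := by
    simpa using (contDiffAt_d2 hw).differentiableAt (by norm_num)
  have h2 := ((hasDerivAt_line e1).const_mul v.re).add ((hasDerivAt_line e2).const_mul v.im)
  refine h2.congr_deriv ?_
  rw [fderiv_apply_eq, fderiv_apply_eq]
  simp only [zero_smul, add_zero]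
  rw [d1_d2_comm hw]
  simp only [hess, Q2.app]
  ring

theorem hess_nonneg_of_isLocalMin {w : ℂ → ℝ} {s : ℂ} (hw : ContDiffAt ℝ 2 w s)
    (h : IsLocalMin w s) (v : ℂ) : 0 ≤ (hess w s).app v := by
  by_contra hneg
  rw [not_le] at hneg
  set φ : ℝ → ℝ := fun t : ℝ => w (s + t • v) with hφ
  set c : ℝ := -(hess w s).app v with hc
  have hc0 : 0 < c := by linarith
  have hd : ∀ᶠ t : ℝ in 𝓝 0, DifferentiableAt ℝ φ t := by
    filter_upwards [eventually_line (v := v) (eventually_differentiableAt hw)] with t ht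
    exact (hasDerivAt_line ht).differentiableAt
  have h0 : fderiv ℝ w s = 0 := h.fderiv_eq_zero
  have hφ0 : deriv φ 0 = 0 := by
    have h1 : DifferentiableAt ℝ w (s + (0 : ℝ) • v) := by
      simpa using hw.differentiableAt (by norm_num)
    rw [(hasDerivAt_line h1).deriv]
    simp [h0]
  -- the perturbed function
  set ψ : ℝ → ℝ := fun t => φ t + c / 4 * t ^ 2 with hψ
  have hψ' : deriv ψ =ᶠ[𝓝 0] fun t => deriv φ t + c / 2 * t := by
    filter_upwards [hd] with t ht
    have h1 : HasDerivAt ψ (deriv φ t + c / 4 * (2 * t)) t := by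
      have h3 : HasDerivAt (fun t : ℝ => c / 4 * t ^ 2) (c / 4 * (2 * t)) t := by
        simpa using (hasDerivAt_pow 2 t).const_mul (c / 4)
      exact ht.hasDerivAt.add h3
    rw [h1.deriv]
    ring
  have hψ'' : HasDerivAt (deriv ψ) (-c + c / 2) 0 := by
    refine HasDerivAt.congr_of_eventuallyEq ?_ hψ'
    have h1 := hasDerivAt_deriv_line hw v
    have h2 := (hasDerivAt_id (0 : ℝ)).const_mul (c / 2)
    refine (h1.add h2).congr_deriv ?_
    rw [hc]; ring
  have hcont : ContinuousAt ψ 0 := by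
    have h1 : ContinuousAt φ 0 := (hd.self_of_nhds).continuousAt
    exact h1.add (by fun_prop)
  have hmax : IsLocalMax ψ 0 := by
    apply isLocalMax_of_deriv_deriv_neg _ _ hcont
    · rw [hψ''.deriv]; linarith
    · rw [hψ'.self_of_nhds]; simp [hφ0]
  have hmin : ∀ᶠ t : ℝ in 𝓝 0, φ 0 ≤ φ t := by
    have h1 : ∀ᶠ z in 𝓝 s, w s ≤ w z := h
    filter_upwards [eventually_line (v := v) h1] with t ht
    simpa [hφ] using ht
  have hboth : ∀ᶠ t : ℝ in 𝓝 0, c / 4 * t ^ 2 ≤ 0 := by
    filter_upwards [hmin, hmax] with t h1 h2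
    simp only [hψ] at h2
    nlinarith
  obtain ⟨δ, hδ, hδ'⟩ := Metric.eventually_nhds_iff.1 hboth
  have h1 := hδ' (y := δ / 2) (by rw [Real.dist_eq, sub_zero, abs_of_pos (by linarith)]; linarith)
  have : 0 < c / 4 * (δ / 2) ^ 2 := by positivity
  linarith

/-- the comparison principle on a compact set -/
theorem comparison {K O : Set ℂ} {w : ℂ → ℝ} {m β : ℂ → ℂ} (hK : IsCompact K) (hO : IsOpen O)
    (hOK : O ⊆ K) (hw : ContinuousOn w K) (hb : ∀ s ∈ K, s ∉ O → 0 ≤ w s)
    (h2 : ∀ s ∈ O, ContDiffAt ℝ 2 w s)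
    (hL : ∀ s ∈ O, lin (m s) (hess w s) + ip (β s) (grad w s) < 0) : ∀ s ∈ K, 0 ≤ w s := by
  intro s hs
  obtain ⟨s₀, hs₀, hmin⟩ := hK.exists_isMinOn ⟨s, hs⟩ hw
  refine le_trans ?_ (hmin hs)
  by_contra hneg
  have hO₀ : s₀ ∈ O := by
    by_contra h
    exact hneg (hb s₀ hs₀ h)
  have hloc : IsLocalMin w s₀ := by
    filter_upwards [hO.mem_nhds hO₀] with t ht
    exact hmin (hOK ht)
  have h1 := grad_eq_zero_of_isLocalMin hloc
  have h3 := hess_nonneg_of_isLocalMin (h2 s₀ hO₀) hloc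
  have h4 := hL s₀ hO₀
  rw [h1, ip_zero_right, lin_eq_app] at h4
  linarith [h3 1, h3 Complex.I, h3 (Complex.I * m s₀)]

/-- gradient and Hessian of `v - k h` -/
theorem grad_sub_mul {v h : ℂ → ℝ} {s : ℂ} (k : ℝ) (hv : DifferentiableAt ℝ v s)
    (hh : DifferentiableAt ℝ h s) :
    grad (fun t => v t - k * h t) s = grad v s - (k : ℂ) * grad h s := by
  have e := (hv.hasFDerivAt.sub (hh.hasFDerivAt.const_mul k)).fderiv
  have e' : fderiv ℝ (fun t => v t - k * h t) s = fderiv ℝ v s - k • fderiv ℝ h s := e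
  unfold grad d1 d2
  rw [e']
  apply Complex.ext <;> simp

theorem d_sub_mul {v h : ℂ → ℝ} {s : ℂ} (k : ℝ) (hv : DifferentiableAt ℝ v s)
    (hh : DifferentiableAt ℝ h s) :
    d1 (fun t => v t - k * h t) s = d1 v s - k * d1 h s ∧
      d2 (fun t => v t - k * h t) s = d2 v s - k * d2 h s := by
  have e := grad_sub_mul k hv hh
  have e1 := congrArg Complex.re e
  have e2 := congrArg Complex.im e
  simp [grad] at e1 e2
  exact ⟨e1, e2⟩

theorem lin_sub_mul {v h : ℂ → ℝ} {s : ℂ} (k : ℝ) (m : ℂ) (hv : ContDiffAt ℝ 2 v s)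
    (hh : ContDiffAt ℝ 2 h s) :
    lin m (hess (fun t => v t - k * h t) s) = lin m (hess v s) - k * lin m (hess h s) := by
  have hv' := eventually_differentiableAt hv
  have hh' := eventually_differentiableAt hh
  have e1 : d1 (fun t => v t - k * h t) =ᶠ[𝓝 s] fun t => d1 v t - k * d1 h t := by
    filter_upwards [hv', hh'] with t h1 h2
    exact (d_sub_mul k h1 h2).1
  have e2 : d2 (fun t => v t - k * h t) =ᶠ[𝓝 s] fun t => d2 v t - k * d2 h t := by
    filter_upwards [hv', hh'] with t h1 h2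
    exact (d_sub_mul k h1 h2).2
  have a1 := (contDiffAt_d1 hv).differentiableAt (by norm_num)
  have a2 := (contDiffAt_d2 hv).differentiableAt (by norm_num)
  have b1 := (contDiffAt_d1 hh).differentiableAt (by norm_num)
  have b2 := (contDiffAt_d2 hh).differentiableAt (by norm_num)
  have c1 := d_sub_mul k a1 b1
  have c2 := d_sub_mul k a2 b2
  have f11 : d1 (d1 (fun t => v t - k * h t)) s = d1 (d1 v) s - k * d1 (d1 h) s := by
    rw [← c1.1]
    change fderiv ℝ (d1 (fun t => v t - k * h t)) s 1 = _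
    rw [Filter.EventuallyEq.fderiv_eq e1]; rfl
  have f12 : d2 (d1 (fun t => v t - k * h t)) s = d2 (d1 v) s - k * d2 (d1 h) s := by
    rw [← c1.2]
    change fderiv ℝ (d1 (fun t => v t - k * h t)) s Complex.I = _
    rw [Filter.EventuallyEq.fderiv_eq e1]; rfl
  have f22 : d2 (d2 (fun t => v t - k * h t)) s = d2 (d2 v) s - k * d2 (d2 h) s := by
    rw [← c2.2]
    change fderiv ℝ (d2 (fun t => v t - k * h t)) s Complex.I = _
    rw [Filter.EventuallyEq.fderiv_eq e2]; rfl
  simp only [lin, hess, f11, f12, f22]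
  ring

/-- a quadratic polynomial on the plane -/
def quad (A B C D E G : ℝ) (s : ℂ) : ℝ :=
  A * s.re ^ 2 + 2 * B * s.re * s.im + C * s.im ^ 2 + D * s.re + E * s.im + G

theorem contDiff_quad (A B C D E G : ℝ) {n : WithTop ℕ∞} : ContDiff ℝ n (quad A B C D E G) := by
  have h1 : ContDiff ℝ n (fun p : ℂ => p.re) := Complex.reCLM.contDiff
  have h2 : ContDiff ℝ n (fun p : ℂ => p.im) := Complex.imCLM.contDiff
  unfold quad
  fun_prop

theorem d_quad (A B C D E G : ℝ) (s : ℂ) :
    d1 (quad A B C D E G) s = 2 * A * s.re + 2 * B * s.im + D ∧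
      d2 (quad A B C D E G) s = 2 * B * s.re + 2 * C * s.im + E := by
  have h1 : HasFDerivAt (fun w : ℂ => w.re) Complex.reCLM s := Complex.reCLM.hasFDerivAt
  have h2 : HasFDerivAt (fun w : ℂ => w.im) Complex.imCLM s := Complex.imCLM.hasFDerivAt
  have h : HasFDerivAt (quad A B C D E G)
      ((2 * A * s.re + 2 * B * s.im + D) • Complex.reCLM
        + (2 * B * s.re + 2 * C * s.im + E) • Complex.imCLM) s := by
    have h3 := ((((((h1.pow 2).const_mul A).add ((h1.mul h2).const_mul (2 * B))).add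
      ((h2.pow 2).const_mul C)).add (h1.const_mul D)).add (h2.const_mul E)).add_const G
    have e : quad A B C D E G = fun s : ℂ => A * s.re ^ 2 + 2 * B * (s.re * s.im) + C * s.im ^ 2
        + D * s.re + E * s.im + G := by
      funext s; unfold quad; ring
    rw [e]
    refine h3.congr_fderiv ?_
    ext v
    simp
    ring
  unfold d1 d2
  rw [h.fderiv]
  constructor <;> simp

theorem hess_quad (A B C D E G : ℝ) (s : ℂ) :
    hess (quad A B C D E G) s = ⟨2 * A, 2 * B, 2 * C⟩ := by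
  have e1 : d1 (quad A B C D E G) = quad 0 0 0 (2 * A) (2 * B) D := by
    funext t; rw [(d_quad A B C D E G t).1]; unfold quad; ring
  have e2 : d2 (quad A B C D E G) = quad 0 0 0 (2 * B) (2 * C) E := by
    funext t; rw [(d_quad A B C D E G t).2]; unfold quad; ring
  unfold hess
  rw [e1, e2, (d_quad _ _ _ _ _ _ s).1, (d_quad _ _ _ _ _ _ s).2, (d_quad _ _ _ _ _ _ s).2]
  simp

/-- gradient and Hessian of a composition -/
theorem comp_formula {F F' : ℝ → ℝ} {P : ℂ → ℝ} {s : ℂ} {F2 : ℝ} (hP : ContDiffAt ℝ 2 P s)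
    (hF : ∀ᶠ t in 𝓝 (P s), HasDerivAt F (F' t) t) (hF' : HasDerivAt F' F2 (P s)) :
    grad (fun t => F (P t)) s = ((F' (P s) : ℝ) : ℂ) * grad P s ∧
    hess (fun t => F (P t)) s = ⟨F2 * d1 P s ^ 2 + F' (P s) * (hess P s).a,
      F2 * d1 P s * d2 P s + F' (P s) * (hess P s).b,
      F2 * d2 P s ^ 2 + F' (P s) * (hess P s).c⟩ := by
  have hPd := eventually_differentiableAt hP
  have hev : ∀ᶠ t in 𝓝 s, HasFDerivAt (fun t => F (P t)) (F' (P t) • fderiv ℝ P t) t := by
    filter_upwards [hPd, hP.continuousAt.eventually hF] with t h1 h2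
    exact h2.comp_hasFDerivAt t h1.hasFDerivAt
  have e1 : d1 (fun t => F (P t)) =ᶠ[𝓝 s] fun t => F' (P t) * d1 P t := by
    filter_upwards [hev] with t h1
    unfold d1; rw [h1.fderiv]; simp
  have e2 : d2 (fun t => F (P t)) =ᶠ[𝓝 s] fun t => F' (P t) * d2 P t := by
    filter_upwards [hev] with t h1
    unfold d2; rw [h1.fderiv]; simp
  have hPs := hP.differentiableAt (by norm_num)
  have hF'P : HasFDerivAt (fun t => F' (P t)) (F2 • fderiv ℝ P s) s :=
    hF'.comp_hasFDerivAt s hPs.hasFDerivAt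
  have a1 := hF'P.mul ((contDiffAt_d1 hP).differentiableAt (by norm_num)).hasFDerivAt
  have a2 := hF'P.mul ((contDiffAt_d2 hP).differentiableAt (by norm_num)).hasFDerivAt
  have f1 : fderiv ℝ (d1 (fun t => F (P t))) s = F' (P s) • fderiv ℝ (d1 P) s
      + d1 P s • F2 • fderiv ℝ P s := by
    rw [Filter.EventuallyEq.fderiv_eq e1]; exact a1.fderiv
  have f2 : fderiv ℝ (d2 (fun t => F (P t))) s = F' (P s) • fderiv ℝ (d2 P) s
      + d2 P s • F2 • fderiv ℝ P s := by
    rw [Filter.EventuallyEq.fderiv_eq e2]; exact a2.fderiv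
  constructor
  · unfold grad
    rw [e1.self_of_nhds, e2.self_of_nhds]
    apply Complex.ext <;> simp
  · have g11 : d1 (d1 (fun t => F (P t))) s = F2 * d1 P s ^ 2 + F' (P s) * d1 (d1 P) s := by
      change fderiv ℝ (d1 (fun t => F (P t))) s 1 = _
      rw [f1]
      change F' (P s) * d1 (d1 P) s + d1 P s * (F2 * d1 P s) = _
      ring
    have g12 : d2 (d1 (fun t => F (P t))) s = F2 * d1 P s * d2 P s + F' (P s) * d2 (d1 P) s := by
      change fderiv ℝ (d1 (fun t => F (P t))) s Complex.I = _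
      rw [f1]
      change F' (P s) * d2 (d1 P) s + d1 P s * (F2 * d2 P s) = _
      ring
    have g22 : d2 (d2 (fun t => F (P t))) s = F2 * d2 P s ^ 2 + F' (P s) * d2 (d2 P) s := by
      change fderiv ℝ (d2 (fun t => F (P t))) s Complex.I = _
      rw [f2]
      change F' (P s) * d2 (d2 P) s + d2 P s * (F2 * d2 P s) = _
      ring
    simp only [hess, g11, g12, g22]

end Cyl
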