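import Pool.Agent.Cyl.BASIC

/-!
# NOCON: no point of the surface at positive height over a good boundary point
-/

open MeasureTheory Set Filter Topology Metric
open scoped ContDiff

noncomputable section

namespace Cyl

universe u

namespace Nocon

variable {M : Type u} [TopologicalSpace M] [CompactSpace M] [T2Space M] (S : Setup M)

/-- if all points of the surface near an interior point `q` lie over the frontier of `D`, then
the surface contains the points vertically above `q` -/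
theorem rise (hL : LocalGraphStatement.{u}) {q : M} (hq : q ∉ S.bd)
    (hfr : ∀ᶠ q' in 𝓝 q, (S.f q').1 ∈ frontier S.D) :
    ∃ q', (S.f q').1 = (S.f q).1 ∧ (S.f q).2 < (S.f q').2 := by
  obtain ⟨F, r, g, e, hp, hdis⟩ := S.surf.interior q hq
  obtain ⟨U, hUf, hUo, hqU⟩ := eventually_nhds_iff.1 hfr
  obtain ⟨δ, hδ, hsmall⟩ := hp.exists_ball (hUo.mem_nhds hqU)
  set δ' : ℝ := min δ r with hδ'
  have hδ'0 : 0 < δ' := lt_min hδ hp.r_pos
  have hin : ∀ s : ℂ, ‖s‖ < δ' → s ∈ ball (0 : ℂ) r ∧ e.symm s ∈ U := by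
    intro s hs
    have h1 : s ∈ ball (0 : ℂ) r := by
      rw [mem_ball_zero_iff]; exact hs.trans_le (min_le_right _ _)
    exact ⟨h1, hsmall s h1 (hs.trans_le (min_le_left _ _))⟩
  -- the normal is horizontal
  have hN : ∀ s : ℂ, ‖s‖ < δ' → (S.N (e.symm s)).2 = 0 := by
    intro s hs
    obtain ⟨h1, h2⟩ := hin s hs
    by_contra hne
    have h3 : e.symm s ∉ S.bd := fun h4 => disjoint_left.1 hdis (hp.symm_mem h1) h4
    obtain ⟨hopen, -, -⟩ := hL M S (e.symm s) h3 hne
    have h5 := hopen U (hUo.mem_nhds h2)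
    have h6 : (S.f (e.symm s)).1 ∈ closure S.D := S.cyl _
    rw [mem_closure_iff_nhds] at h6
    obtain ⟨x, hx, hxD⟩ := h6 _ h5
    obtain ⟨q', hq', rfl⟩ := hx
    have h7 := hUf q' hq'
    rw [S.curve.isOpen.frontier_eq] at h7
    exact h7.2 hxD
  have hn : ∀ s : ℂ, ‖s‖ < δ' → F.n.2 - d1 g s * F.a.2 - d2 g s * F.b.2 = 0 := by
    intro s hs
    have h1 := hN s hs
    rw [hp.normal s (hin s hs).1] at h1
    have h2 := (W_pos (grad g s)).ne'
    simpa [Frame.nor, h2] using h1
  have hn0 : F.n.2 = 0 := by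
    have h1 := hn 0 (by simpa using hδ'0)
    rw [hp.d1_zero, hp.d2_zero] at h1
    linarith
  -- `g` is constant in the direction `ξ`
  set ξ : ℂ := ⟨F.a.2, F.b.2⟩ with hξ
  have hξn : ‖ξ‖ = 1 := by
    have h1 : ‖ξ‖ ^ 2 = 1 := by
      rw [← ip_self]
      have := F.complete.zz
      rw [hn0] at this
      simp only [ip, hξ]
      nlinarith
    nlinarith [norm_nonneg ξ]
  set τ : ℝ := δ' / 2 with hτ
  have hτ0 : 0 < τ := by positivity
  have hτδ : τ < δ' := by rw [hτ]; linarith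
  have hnorm : ∀ t ∈ Icc (0 : ℝ) τ, ‖t • ξ‖ < δ' := by
    intro t ht
    rw [norm_smul, hξn, mul_one, Real.norm_eq_abs, abs_of_nonneg ht.1]
    exact ht.2.trans_lt hτδ
  have hder : ∀ t ∈ Icc (0 : ℝ) τ, HasDerivAt (fun t : ℝ => g (t • ξ)) 0 t := by
    intro t ht
    have h1 := hnorm t ht
    have h2 := (hin _ h1).1
    have h3 : DifferentiableAt ℝ g (t • ξ) :=
      ((hp.smooth.contDiffAt (isOpen_ball.mem_nhds h2)).differentiableAt (by simp))
    have h4 : HasDerivAt (fun t : ℝ => t • ξ) ((1 : ℝ) • ξ) t := (hasDerivAt_id t).smul_const ξ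
    have h5 := h3.hasFDerivAt.comp_hasDerivAt t h4
    have h6 : fderiv ℝ g (t • ξ) ((1 : ℝ) • ξ) = 0 := by
      rw [one_smul, fderiv_re_im]
      have := hn _ h1
      rw [hn0] at this
      simp only [hξ]
      linarith
    rw [h6] at h5
    exact h5
  have hconst : g (τ • ξ) = 0 := by
    have h1 : ∀ t ∈ Icc (0 : ℝ) τ, g (t • ξ) = g ((0 : ℝ) • ξ) := by
      apply constant_of_has_deriv_right_zero
      · exact fun t ht => (hder t ht).continuousAt.continuousWithinAt
      · exact fun t ht => (hder t ⟨ht.1, ht.2.le⟩).hasDerivWithinAt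
    rw [h1 τ ⟨hτ0.le, le_rfl⟩, zero_smul, hp.g_zero]
  obtain ⟨h1, h2⟩ := hin (τ • ξ) (hnorm τ ⟨hτ0.le, le_rfl⟩)
  refine ⟨e.symm (τ • ξ), ?_⟩
  have h3 := hp.param _ h1
  have h4 : F.pt (S.f q) g (τ • ξ) = S.f q + τ • ((0 : ℂ), (1 : ℝ)) := by
    rw [F.expand_vert, hn0]
    unfold Frame.pt
    rw [hconst]
    simp only [hξ, Complex.smul_re, Complex.smul_im, smul_eq_mul, smul_add, smul_smul, zero_smul,
      add_zero]
    rw [add_assoc]
  rw [h3, h4]
  constructor
  · simp
  · simp [hτ0]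

end Nocon

/-- NOCON -/
theorem NOCON_holds (hcov : CovStatement.{u}) (hL : LocalGraphStatement.{u}) :
    NoContactStatement.{u} := by
  intro M _ _ _ S hcn hT θ hgood q₀ hq₀
  by_contra hpos
  push Not at hpos
  have hfc : Continuous S.f := S.surf.continuous_f
  -- a highest point over `γ θ`
  have hcl : IsClosed {q | (S.f q).1 = S.γ θ} :=
    isClosed_eq (continuous_fst.comp hfc) continuous_const
  obtain ⟨q, hq, hmax⟩ := hcl.isCompact.exists_isMaxOn ⟨q₀, hq₀⟩
    (continuous_snd.comp hfc).continuousOn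
  have hz : 0 < (S.f q).2 := hpos.trans_le (hmax hq₀)
  have hqbd : q ∉ S.bd := by
    intro h
    have h1 : S.f q ∈ S.f '' S.bd := mem_image_of_mem _ h
    rw [S.img_bd] at h1
    have h2 : (S.f q).2 = 0 := h1.2
    linarith
  -- points over `D` near `q` are too high
  have hV : {q' | (S.f q').2 < (S.f q).2 / 2} ∈ 𝓝 (S.b θ) := by
    apply (isOpen_lt (continuous_snd.comp hfc) continuous_const).mem_nhds
    change (S.f (S.b θ)).2 < (S.f q).2 / 2
    rw [S.f_b θ]
    simp only
    linarith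
  obtain ⟨δ, hδ, hcov⟩ := hcov M S hcn hT θ hgood _ hV
  have hfr : ∀ᶠ q' in 𝓝 q, (S.f q').1 ∈ frontier S.D := by
    have h1 : ∀ᶠ q' in 𝓝 q, ‖(S.f q').1 - S.γ θ‖ < δ := by
      have hc : Continuous fun q' => ‖(S.f q').1 - S.γ θ‖ :=
        ((continuous_fst.comp hfc).sub continuous_const).norm
      apply (isOpen_lt hc continuous_const).mem_nhds
      change ‖(S.f q).1 - S.γ θ‖ < δ
      rw [show (S.f q).1 = S.γ θ from hq, sub_self, norm_zero]
      exact hδ
    have h2 : ∀ᶠ q' in 𝓝 q, (S.f q).2 / 2 < (S.f q').2 := by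
      apply (isOpen_lt continuous_const (continuous_snd.comp hfc)).mem_nhds
      change (S.f q).2 / 2 < (S.f q).2
      linarith
    filter_upwards [h1, h2] with q' h3 h4
    by_contra hnf
    have h5 : (S.f q').1 ∈ S.D := by
      have h6 : (S.f q').1 ∈ closure S.D := S.cyl q'
      rw [closure_eq_self_union_frontier] at h6
      exact h6.resolve_right hnf
    obtain ⟨q'', ⟨h7, h8⟩, h9⟩ := hcov _ h5 h3
    have h10 := hT.high q'' h8 q' h9.symm
    have h11 : (S.f q'').2 < (S.f q).2 / 2 := h7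
    linarith
  obtain ⟨q', h1, h2⟩ := Nocon.rise S hL hqbd hfr
  have h3 : q' ∈ {q | (S.f q).1 = S.γ θ} := by
    change (S.f q').1 = S.γ θ
    rw [h1]; exact hq
  have h4 : (S.f q').2 ≤ (S.f q).2 := hmax h3
  linarith

end Cyl
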