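import Pool.Agent.Cyl.Base2

open MeasureTheory Set Filter Topology Metric
open scoped ContDiff

noncomputable section

namespace Cyl

universe u

/-- the quadratic bump -/
def nsH (s₁ : ℂ) (r₁ : ℝ) (s : ℂ) : ℝ := ‖s - s₁‖ ^ 2 - r₁ ^ 2

theorem nsH_eq (s₁ : ℂ) (r₁ : ℝ) :
    nsH s₁ r₁ = fun s => (s.re - s₁.re) ^ 2 + (s.im - s₁.im) ^ 2 - r₁ ^ 2 := by
  funext s
  rw [nsH, ← ip_self]
  simp only [ip, Complex.sub_re, Complex.sub_im]
  ring

theorem nsH_contDiff (s₁ : ℂ) (r₁ : ℝ) : ContDiff ℝ ∞ (nsH s₁ r₁) := by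
  rw [nsH_eq]
  have h1 : ContDiff ℝ ∞ (fun p : ℂ => p.re) := Complex.reCLM.contDiff
  have h2 : ContDiff ℝ ∞ (fun p : ℂ => p.im) := Complex.imCLM.contDiff
  fun_prop

theorem nsH_fderiv (s₁ : ℂ) (r₁ : ℝ) (s : ℂ) :
    HasFDerivAt (nsH s₁ r₁) ((2 * (s.re - s₁.re)) • Complex.reCLM
      + (2 * (s.im - s₁.im)) • Complex.imCLM) s := by
  rw [nsH_eq]
  have h1 : HasFDerivAt (fun w : ℂ => w.re - s₁.re) Complex.reCLM s :=
    (Complex.reCLM.hasFDerivAt).sub_const _
  have h2 : HasFDerivAt (fun w : ℂ => w.im - s₁.im) Complex.imCLM s :=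
    (Complex.imCLM.hasFDerivAt).sub_const _
  refine HasFDerivAt.congr_fderiv (((h1.pow 2).add (h2.pow 2)).sub_const _) ?_
  ext v
  simp

theorem nsH_d1 (s₁ : ℂ) (r₁ : ℝ) : d1 (nsH s₁ r₁) = fun s => 2 * (s.re - s₁.re) := by
  funext s
  simp [d1, (nsH_fderiv s₁ r₁ s).fderiv]

theorem nsH_d2 (s₁ : ℂ) (r₁ : ℝ) : d2 (nsH s₁ r₁) = fun s => 2 * (s.im - s₁.im) := by
  funext s
  simp [d2, (nsH_fderiv s₁ r₁ s).fderiv]

theorem nsH_grad (s₁ : ℂ) (r₁ : ℝ) (s : ℂ) : grad (nsH s₁ r₁) s = (2 : ℝ) • (s - s₁) := by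
  apply Complex.ext
  · simp [grad, nsH_d1]
  · simp [grad, nsH_d2]

theorem nsH_hess (s₁ : ℂ) (r₁ : ℝ) (s : ℂ) : hess (nsH s₁ r₁) s = ⟨2, 0, 2⟩ := by
  have h1 : HasFDerivAt (fun w : ℂ => 2 * (w.re - s₁.re)) ((2 : ℝ) • Complex.reCLM) s :=
    ((Complex.reCLM.hasFDerivAt).sub_const _).const_mul 2
  have h2 : HasFDerivAt (fun w : ℂ => 2 * (w.im - s₁.im)) ((2 : ℝ) • Complex.imCLM) s :=
    ((Complex.imCLM.hasFDerivAt).sub_const _).const_mul 2
  unfold hess
  rw [nsH_d1, nsH_d2]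
  simp only [d1, d2]
  rw [h1.fderiv, h2.fderiv]
  simp

theorem ns_Lop (g : ℂ → ℝ) (s₁ : ℂ) (r₁ : ℝ) (s : ℂ) :
    4 - 2 * ‖dcurv (grad g s) (hess g s)‖ * ‖s - s₁‖ ≤ Lop g (nsH s₁ r₁) s := by
  unfold Lop
  rw [nsH_grad, nsH_hess, ip_smul_right]
  have h1 : 4 ≤ lin (grad g s) ⟨2, 0, 2⟩ := by
    unfold lin
    nlinarith [sq_nonneg (grad g s).re, sq_nonneg (grad g s).im]
  have h2 := (abs_le.1 (abs_ip_le (dcurv (grad g s) (hess g s)) (s - s₁))).1
  linarith

theorem ns_dcurv_cont {U : Set ℂ} (hU : IsOpen U) {g : ℂ → ℝ} (hg : ContDiffOn ℝ ∞ g U) :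
    ContinuousOn (fun s => dcurv (grad g s) (hess g s)) U := by
  have h1 := contDiffOn_d1 hU hg
  have h2 := contDiffOn_d2 hU hg
  have k1 := h1.continuousOn
  have k2 := h2.continuousOn
  have k11 := (contDiffOn_d1 hU h1).continuousOn
  have k12 := (contDiffOn_d2 hU h1).continuousOn
  have k22 := (contDiffOn_d2 hU h2).continuousOn
  have kW : ContinuousOn (fun s => W (grad g s)) U :=
    continuous_W.comp_continuousOn (contDiffOn_grad hU hg).continuousOn
  have kl : ContinuousOn (fun s => lin (grad g s) (hess g s) / (W (grad g s)) ^ 2) U := by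
    apply ContinuousOn.div
    · have e : (fun s => lin (grad g s) (hess g s)) = fun s => (1 + d2 g s ^ 2) * d1 (d1 g) s
          - 2 * d1 g s * d2 g s * d2 (d1 g) s + (1 + d1 g s ^ 2) * d2 (d2 g) s := rfl
      rw [e]
      exact (((continuousOn_const.add (k2.pow 2)).mul k11).sub
        (((continuousOn_const.mul k1).mul k2).mul k12)).add
        ((continuousOn_const.add (k1.pow 2)).mul k22)
    · exact kW.pow 2
    · intro s _
      exact pow_ne_zero _ (W_pos _).ne'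
  have e : (fun s => dcurv (grad g s) (hess g s)) = fun s =>
      (((2 * d1 g s * d2 (d2 g) s - 2 * d2 g s * d2 (d1 g) s)
        - 3 * d1 g s * (lin (grad g s) (hess g s) / (W (grad g s)) ^ 2) : ℝ) : ℂ)
      + (((2 * d2 g s * d1 (d1 g) s - 2 * d1 g s * d2 (d1 g) s)
        - 3 * d2 g s * (lin (grad g s) (hess g s) / (W (grad g s)) ^ 2) : ℝ) : ℂ) * Complex.I := by
    funext s
    rw [← Complex.mk_eq_add_mul_I]
    unfold dcurv
    congr 1
    · simp only [grad, hess]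
      ring
    · simp only [grad, hess]
      ring
  rw [e]
  have c1 : ContinuousOn (fun s => (2 * d1 g s * d2 (d2 g) s - 2 * d2 g s * d2 (d1 g) s)
        - 3 * d1 g s * (lin (grad g s) (hess g s) / (W (grad g s)) ^ 2)) U :=
    (((continuousOn_const.mul k1).mul k22).sub ((continuousOn_const.mul k2).mul k12)).sub
      ((continuousOn_const.mul k1).mul kl)
  have c2 : ContinuousOn (fun s => (2 * d2 g s * d1 (d1 g) s - 2 * d1 g s * d2 (d1 g) s)
        - 3 * d2 g s * (lin (grad g s) (hess g s) / (W (grad g s)) ^ 2)) U :=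
    (((continuousOn_const.mul k2).mul k11).sub ((continuousOn_const.mul k1).mul k12)).sub
      ((continuousOn_const.mul k2).mul kl)
  exact (Complex.continuous_ofReal.comp_continuousOn c1).add
    ((Complex.continuous_ofReal.comp_continuousOn c2).mul continuousOn_const)

theorem ns_pt_sub (F : Frame) (q : E3) (g : ℂ → ℝ) (τ : ℝ) (h : ℂ → ℝ) (s : ℂ) :
    F.pt q (fun t => g t - τ * h t) s = F.pt q g s - (τ * h s) • F.n := by
  unfold Frame.pt
  rw [sub_smul]
  abel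

theorem NSIDE_holds (hPert : PerturbStatement) : NSideStatement.{u} := by
  intro M _ _ _ S hAbs q F r g e hP s₁ hs₁ hD
  have hpatch := hP.1
  have hr := hpatch.r_pos
  have hU : IsOpen (ball (0 : ℂ) r) := isOpen_ball
  have hg := hpatch.smooth
  have hmc : ∀ s ∈ ball (0 : ℂ) r, mc g s = 2 * S.H := hpatch.mean
  have hH := S.H_pos
  -- a first radius
  have hptc : ContinuousOn (fun s => (F.pt (S.f q) g s).1) (ball 0 r) :=
    continuous_fst.comp_continuousOn (F.contDiffOn_pt (S.f q) hg).continuousOn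
  have hop : IsOpen (ball (0 : ℂ) r ∩ (fun s => (F.pt (S.f q) g s).1) ⁻¹' S.D) :=
    hptc.isOpen_inter_preimage hU S.curve.isOpen
  obtain ⟨r₀, hr₀, hsub0⟩ := Metric.isOpen_iff.1 hop s₁ ⟨hs₁, hD⟩
  set ra : ℝ := r₀ / 2 with hra
  have hrap : 0 < ra := by positivity
  have hsuba : closedBall s₁ ra ⊆ ball s₁ r₀ := closedBall_subset_ball (by rw [hra]; linarith)
  have hKU : closedBall s₁ ra ⊆ ball (0 : ℂ) r := fun s hs => (hsub0 (hsuba hs)).1
  obtain ⟨C, hC⟩ := (isCompact_closedBall s₁ ra).exists_bound_of_continuousOn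
    ((ns_dcurv_cont hU hg).mono hKU)
  have hC0 : 0 ≤ C := (norm_nonneg _).trans (hC s₁ (mem_closedBall_self hrap.le))
  set r₁ : ℝ := min ra (1 / (C + 1)) with hr₁
  have hr₁p : 0 < r₁ := lt_min hrap (by positivity)
  have hr₁a : r₁ ≤ ra := min_le_left _ _
  have hr₁C : r₁ * (C + 1) ≤ 1 := by
    have : r₁ ≤ 1 / (C + 1) := min_le_right _ _
    rwa [le_div_iff₀ (by positivity)] at this
  set K : Set ℂ := closedBall s₁ r₁ with hK
  have hKa : K ⊆ closedBall s₁ ra := closedBall_subset_closedBall hr₁a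
  have hKc : IsCompact K := isCompact_closedBall _ _
  have hKU' : K ⊆ ball (0 : ℂ) r := hKa.trans hKU
  have hh := nsH_contDiff s₁ r₁
  have hLop : ∀ s ∈ K, 0 < Lop g (nsH s₁ r₁) s := by
    intro s hs
    have h1 := ns_Lop g s₁ r₁ s
    have h2 := hC s (hKa hs)
    have h3 : ‖s - s₁‖ ≤ r₁ := by
      rw [← dist_eq_norm]
      exact hs
    have h4 : ‖dcurv (grad g s) (hess g s)‖ * ‖s - s₁‖ ≤ C * r₁ := by gcongr
    nlinarith
  obtain ⟨τ₀, hτ₀, hpert⟩ := hPert (ball 0 r) K g (nsH s₁ r₁) hU hKc hKU' hg hh.contDiffOn hLop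
  -- staying over `D`
  have himgc : IsCompact ((fun s => (F.pt (S.f q) g s).1) '' K) :=
    hKc.image_of_continuousOn (hptc.mono hKU')
  have himgD : (fun s => (F.pt (S.f q) g s).1) '' K ⊆ S.D := by
    rintro _ ⟨s, hs, rfl⟩
    exact (hsub0 (hsuba (hKa hs))).2
  obtain ⟨δ₀, hδ₀, hthick⟩ := himgc.exists_thickening_subset_open S.curve.isOpen himgD
  set Cn : ℝ := ‖F.n.1‖ + 1 with hCn
  have hCnp : 0 < Cn := by positivity
  set τ₁ : ℝ := min τ₀ (min (τ₀ * S.H) (δ₀ / (r₁ ^ 2 * Cn))) with hτ₁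
  have hτ₁p : 0 < τ₁ := lt_min hτ₀ (lt_min (by positivity) (by positivity))
  have hbelow : ∀ τ, 0 < τ → τ < τ₁ → ∀ s ∈ K,
      F.pt (S.f q) (fun t => g t - τ * nsH s₁ r₁ t) s ∈ below (range S.f) := by
    intro τ hτ hτ'
    obtain ⟨c, hc, hcs⟩ := hpert τ hτ (hτ'.trans_le (min_le_left _ _))
    have hτH : τ < τ₀ * S.H := hτ'.trans_le ((min_le_right _ _).trans (min_le_left _ _))
    have hτD : τ * (r₁ ^ 2 * Cn) < δ₀ := by
      have := hτ'.trans_le ((min_le_right _ _).trans (min_le_right _ _))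
      rwa [lt_div_iff₀ (by positivity)] at this
    apply hAbs F (S.f q) (fun t => g t - τ * nsH s₁ r₁ t) K (ball 0 r) c hKc hU hKU'
    · exact hg.sub (contDiffOn_const.mul hh.contDiffOn)
    · exact hc
    · intro s hs
      apply subset_closure
      apply hthick
      rw [mem_thickening_iff]
      refine ⟨_, mem_image_of_mem _ hs, ?_⟩
      rw [ns_pt_sub, dist_eq_norm]
      simp only [Prod.fst_sub, Prod.smul_fst]
      have e1 : (F.pt (S.f q) g s).1 - (τ * nsH s₁ r₁ s) • F.n.1 - (F.pt (S.f q) g s).1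
          = -((τ * nsH s₁ r₁ s) • F.n.1) := by abel
      rw [e1, norm_neg, norm_smul, Real.norm_eq_abs]
      have h3 : ‖s - s₁‖ ≤ r₁ := by
        rw [← dist_eq_norm]
        exact hs
      have h4 : |τ * nsH s₁ r₁ s| ≤ τ * r₁ ^ 2 := by
        rw [abs_mul, abs_of_pos hτ]
        gcongr
        unfold nsH
        rw [abs_le]
        constructor
        · nlinarith [norm_nonneg (s - s₁)]
        · nlinarith [norm_nonneg (s - s₁)]
      calc |τ * nsH s₁ r₁ s| * ‖F.n.1‖ ≤ τ * r₁ ^ 2 * Cn := by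
            apply mul_le_mul h4 _ (norm_nonneg _) (by positivity)
            rw [hCn]
            linarith
        _ = τ * (r₁ ^ 2 * Cn) := by ring
        _ < δ₀ := hτD
    · intro s hs hs'
      have h3 : dist s s₁ = r₁ := by
        rw [hK, interior_closedBall _ hr₁p.ne', mem_ball, not_lt] at hs'
        exact le_antisymm hs hs'
      have h4 : nsH s₁ r₁ s = 0 := by
        unfold nsH
        rw [← dist_eq_norm, h3]
        ring
      rw [ns_pt_sub, h4, mul_zero, zero_smul, sub_zero, ← hpatch.param s (hKU' hs)]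
      exact subset_below _ (mem_range_self _)
    · intro s hs
      obtain ⟨h1, h2⟩ := hcs s hs
      rw [hmc s (hKU' hs)] at h1 h2
      have h3 : τ₀⁻¹ * τ ≤ S.H := by
        rw [inv_mul_le_iff₀ hτ₀]
        exact hτH.le
      have h4 := (abs_le.1 h2).1
      rw [abs_le]
      constructor <;> linarith
  -- the conclusion
  set δ : ℝ := min (r₁ / 2) (r₁ ^ 2 * τ₁ / 2) with hδ
  have hδp : 0 < δ := lt_min (by positivity) (by positivity)
  refine ⟨δ, hδp, fun s hs y hy hy' => ?_⟩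
  have hs2 : ‖s - s₁‖ < r₁ / 2 := hs.trans_le (min_le_left _ _)
  have hsK : s ∈ K := by
    rw [hK, mem_closedBall, dist_eq_norm]
    linarith
  have hcase : S.f q + s.re • F.a + s.im • F.b + y • F.n
      = F.pt (S.f q) g s + (y - g s) • F.n := by
    unfold Frame.pt
    rw [sub_smul]
    abel
  rw [hcase]
  rcases eq_or_lt_of_le hy with h0 | h0
  · rw [← h0, sub_self, zero_smul, add_zero, ← hpatch.param s (hKU' hsK)]
    exact subset_below _ (mem_range_self _)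
  · have hden : 0 < r₁ ^ 2 - ‖s - s₁‖ ^ 2 := by nlinarith [norm_nonneg (s - s₁)]
    have hden2 : 3 / 4 * r₁ ^ 2 ≤ r₁ ^ 2 - ‖s - s₁‖ ^ 2 := by nlinarith [norm_nonneg (s - s₁)]
    set τ : ℝ := (y - g s) / (r₁ ^ 2 - ‖s - s₁‖ ^ 2) with hτ
    have hτp : 0 < τ := div_pos (sub_pos.2 h0) hden
    have hτl : τ < τ₁ := by
      rw [hτ, div_lt_iff₀ hden]
      have h1 : y - g s ≤ δ := by linarith
      have h2 : δ ≤ r₁ ^ 2 * τ₁ / 2 := min_le_right _ _
      have h3 : τ₁ * (3 / 4 * r₁ ^ 2) ≤ τ₁ * (r₁ ^ 2 - ‖s - s₁‖ ^ 2) := by gcongr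
      have h4 : 0 < r₁ ^ 2 * τ₁ := by positivity
      linarith
    have h5 := hbelow τ hτp hτl s hsK
    rw [ns_pt_sub] at h5
    have h6 : τ * nsH s₁ r₁ s = -(y - g s) := by
      unfold nsH
      rw [hτ]
      field_simp
      ring
    rw [h6, neg_smul, sub_neg_eq_add] at h5
    exact h5

end Cyl
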