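import Pool.Agent.Cyl.Base2
import Pool.Agent.Cyl.Stmt3

/-!
# ORIENT: the inner conormal is `σ N × (γ', 0)` with a constant sign
-/

open MeasureTheory Set Filter Topology Metric
open scoped ContDiff

noncomputable section

namespace Cyl

universe u

namespace Ori

variable {M : Type u} [TopologicalSpace M]

theorem hasDerivAt_dot {φ : ℝ → E3} {φ' : E3} {t : ℝ} (h : HasDerivAt φ φ' t) (V : E3) :
    HasDerivAt (fun t => dot (φ t) V) (dot φ' V) t := by
  have h1 : HasDerivAt (fun t => (φ t).1) φ'.1 t := h.fst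
  have h2 : HasDerivAt (fun t => (φ t).2) φ'.2 t := h.snd
  have h3 : HasDerivAt (fun t => (φ t).1.re) φ'.1.re t :=
    Complex.reCLM.hasFDerivAt.comp_hasDerivAt t h1
  have h4 : HasDerivAt (fun t => (φ t).1.im) φ'.1.im t :=
    Complex.imCLM.hasFDerivAt.comp_hasDerivAt t h1
  have h5 := (((h3.mul_const V.1.re).add (h4.mul_const V.1.im)).add (h2.mul_const V.2))
  exact h5

theorem nonneg_of_hasDerivAt {ψ : ℝ → ℝ} {c : ℝ} (h : HasDerivAt ψ c 0) (h0 : ψ 0 = 0)
    (hp : ∀ᶠ t in 𝓝[>] (0 : ℝ), 0 ≤ ψ t) : 0 ≤ c := by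
  have h1 := h.tendsto_slope_zero_right
  refine ge_of_tendsto h1 ?_
  filter_upwards [hp, self_mem_nhdsWithin] with t ht ht0
  have ht0' : 0 < t := ht0
  rw [zero_add, h0, sub_zero, smul_eq_mul]
  positivity

/-- frame vectors: `V` orthogonal to `b` and `n` -/
theorem expand_a (F : Frame) (V : E3) (hb : dot V F.b = 0) (hn : dot V F.n = 0) :
    V = dot V F.a • F.a := by
  have h := F.expand V
  rw [hb, hn] at h
  simpa using h

theorem expand_b (F : Frame) (V : E3) (ha : dot V F.a = 0) (hn : dot V F.n = 0) :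
    V = dot V F.b • F.b := by
  have h := F.expand V
  rw [ha, hn] at h
  simpa using h

/-- the one-sided comparison of two boundary patches -/
theorem two_patches {f N : M → E3} {bd : Set M} {H : ℝ} {q q' : M} {F F' : Frame} {r r' : ℝ}
    {g g' : ℂ → ℝ} {β β' : ℝ → ℝ} {e e' : PartialEquiv M ℂ}
    (h : BdPatch f N bd H q F r g β e) (h' : BdPatch f N bd H q' F' r' g' β' e')
    (hq : q' ∈ e.source) (hq' : q' ∈ bd) : 0 ≤ dot (F.X2 g (e q')) F'.b := by
  have hs : e q' ∈ halfDisc r β := h.1.map_mem hq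
  have hsb : e q' ∈ ball (0 : ℂ) r := hs.1
  have him : (e q').im = β (e q').re := by
    have := (h.2.2.2.2 (e q') hs).1 (by rw [e.left_inv hq]; exact hq')
    exact this
  -- the curve
  have hline : HasDerivAt (fun t : ℝ => e q' + t • Complex.I) Complex.I 0 := by
    have h := ((hasDerivAt_id (0 : ℝ)).smul_const Complex.I).const_add (e q')
    simpa using h
  have e0 : e q' + (0 : ℝ) • Complex.I = e q' := by simp
  have hgd : DifferentiableAt ℝ g (e q') :=
    (h.1.smooth.contDiffAt (isOpen_ball.mem_nhds hsb)).differentiableAt (by simp)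
  have hφ : HasDerivAt (fun t : ℝ => F.pt (f q) g (e q' + t • Complex.I) - f q') (F.X2 g (e q')) 0 := by
    have h1 := F.hasFDerivAt_pt (f q) hgd
    have h2 : HasFDerivAt (F.pt (f q) g) ((Complex.reCLM.smulRight (F.X1 g (e q'))) +
      (Complex.imCLM.smulRight (F.X2 g (e q')))) (e q' + (0 : ℝ) • Complex.I) := by rw [e0]; exact h1
    have h3 := (h2.comp_hasDerivAt (0 : ℝ) hline).sub_const (f q')
    refine h3.congr_deriv ?_
    simp [ContinuousLinearMap.smulRight_apply]
  have ha := hasDerivAt_dot hφ F'.a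
  have hb := hasDerivAt_dot hφ F'.b
  have hfq' : F.pt (f q) g (e q') = f q' := by
    rw [← h.1.param (e q') hs, e.left_inv hq]
  have hz : F.pt (f q) g (e q' + (0 : ℝ) • Complex.I) - f q' = 0 := by
    rw [e0, hfq', sub_self]
  have hβ : HasDerivAt β' 0 (dot (F.pt (f q) g (e q' + (0 : ℝ) • Complex.I) - f q') F'.a) := by
    have h1 : dot (F.pt (f q) g (e q' + (0 : ℝ) • Complex.I) - f q') F'.a = 0 := by
      rw [hz]; simp [dot, ip]
    rw [h1]
    have h2 := (h'.2.1.differentiable (by simp) (0 : ℝ)).hasDerivAt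
    rw [h'.2.2.2.1] at h2
    exact h2
  have hψ : HasDerivAt (fun t : ℝ => dot (F.pt (f q) g (e q' + t • Complex.I) - f q') F'.b -
      β' (dot (F.pt (f q) g (e q' + t • Complex.I) - f q') F'.a)) (dot (F.X2 g (e q')) F'.b) 0 := by
    have h1 := hβ.comp (0 : ℝ) ha
    refine (hb.sub h1).congr_deriv ?_
    ring
  refine nonneg_of_hasDerivAt hψ ?_ ?_
  · rw [hz]
    have e1 : dot 0 F'.b = 0 := by simp [dot, ip]
    have e2 : dot 0 F'.a = 0 := by simp [dot, ip]
    rw [e1, e2, h'.2.2.1]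
    ring
  · -- the points of the curve belong to both patches
    have hcont : Tendsto (fun t : ℝ => e q' + t • Complex.I) (𝓝[>] 0) (𝓝 (e q')) := by
      have := hline.continuousAt.tendsto
      rw [e0] at this
      exact this.mono_left nhdsWithin_le_nhds
    have hin : ∀ᶠ t : ℝ in 𝓝[>] 0, e q' + t • Complex.I ∈ halfDisc r β := by
      filter_upwards [hcont (isOpen_ball.mem_nhds hsb), self_mem_nhdsWithin] with t ht ht0
      have ht0' : 0 < t := ht0
      refine ⟨ht, ?_⟩
      have e1 : (e q' + t • Complex.I).re = (e q').re := by simp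
      have e2 : (e q' + t • Complex.I).im = (e q').im + t := by simp
      rw [e1, e2, him]
      linarith
    have hlim : Tendsto (fun t : ℝ => e.symm (e q' + t • Complex.I)) (𝓝[>] 0) (𝓝 q') := by
      have h1 := h.1.tendsto_symm hs
      rw [e.left_inv hq] at h1
      exact h1.comp (tendsto_nhdsWithin_of_tendsto_nhds_of_eventually_within _ hcont hin)
    filter_upwards [hin, hlim (h'.1.isOpen.mem_nhds h'.1.mem)] with t h1 h2
    have h3 : f (e.symm (e q' + t • Complex.I)) = F.pt (f q) g (e q' + t • Complex.I) := h.1.param _ h1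
    have h4 := h'.1.f_eq h2
    have h5 := h'.1.map_mem h2
    have h6 := F'.dot_pt_sub (f q') g' (e' (e.symm (e q' + t • Complex.I)))
    rw [← h4, h3] at h6
    rw [h6.1, h6.2.1]
    have := h5.2
    linarith

end Ori

open Ori in
theorem ORIENT_holds (hB : BasicStatement.{u}) : OrientStatement.{u} := by
  intro M _ _ _ S
  obtain ⟨hf, hN, hbd, hb, hper, hsurj, hNN, hNg⟩ := hB M S
  have hI := S.curve
  have hγ' : ∀ θ, ip (deriv S.γ θ) (deriv S.γ θ) = 1 := fun θ => by
    rw [ip_self, hI.unit θ]; norm_num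
  have hγd : ∀ θ, HasDerivAt S.γ (deriv S.γ θ) θ := fun θ =>
    (hI.smooth.differentiable (by simp) θ).hasDerivAt
  -- the model conormal
  have hcnV : ∀ θ, dot (S.cn 1 θ) (deriv S.γ θ, 0) = 0 := by
    intro θ
    unfold Setup.cn dot ip
    simp
    ring
  have hcnN : ∀ θ, dot (S.cn 1 θ) (S.N (S.b θ)) = 0 := by
    intro θ
    unfold Setup.cn Setup.ν dot ip
    simp
    ring
  have hcn1 : ∀ θ, dot (S.cn 1 θ) (S.cn 1 θ) = 1 := by
    intro θ
    have h1 := hNN (S.b θ)
    have h2 := hNg θ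
    have h3 := hγ' θ
    obtain ⟨n, hn⟩ : ∃ n, n = S.N (S.b θ) := ⟨_, rfl⟩
    obtain ⟨p, hp⟩ : ∃ p, p = deriv S.γ θ := ⟨_, rfl⟩
    unfold Setup.cn Setup.ν
    rw [← hn] at h1 h2 ⊢
    rw [← hp] at h2 h3 ⊢
    unfold dot ip at *
    simp at h1 h2 h3 ⊢
    -- `n.1 = ν I p`
    have key : (n.1.re * p.re + n.1.im * p.im) ^ 2 + (n.1.im * p.re - n.1.re * p.im) ^ 2 =
      (n.1.re * n.1.re + n.1.im * n.1.im) * (p.re * p.re + p.im * p.im) := by ring
    rw [h3, h2] at key
    have e2 : n.2 * p.im * (n.2 * p.im) + n.2 * p.re * (n.2 * p.re) = n.2 * n.2 := by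
      linear_combination (n.2 * n.2) * h3
    nlinarith
  -- tangent vector of the boundary in a patch
  have htan : ∀ θ F r g β e, BdPatch S.f S.N S.bd S.H (S.b θ) F r g β e →
      dot (deriv S.γ θ, 0) F.b = 0 := by
    intro θ F r g β e h
    have hφ : HasDerivAt (fun t : ℝ => ((S.γ t, (0 : ℝ)) : E3) - S.f (S.b θ)) (deriv S.γ θ, 0) θ :=
      ((hγd θ).prodMk (hasDerivAt_const θ (0 : ℝ))).sub_const _
    have ha := hasDerivAt_dot hφ F.a
    have hbb := hasDerivAt_dot hφ F.b
    have hz : ((S.γ θ, (0 : ℝ)) : E3) - S.f (S.b θ) = 0 := by rw [S.f_b, sub_self]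
    have hβ : HasDerivAt β 0 (dot (((S.γ θ, (0 : ℝ)) : E3) - S.f (S.b θ)) F.a) := by
      have h1 : dot (((S.γ θ, (0 : ℝ)) : E3) - S.f (S.b θ)) F.a = 0 := by
        rw [hz]; simp [dot, ip]
      rw [h1]
      have h2 := (h.2.1.differentiable (by simp) (0 : ℝ)).hasDerivAt
      rw [h.2.2.2.1] at h2
      exact h2
    have hcomp := hβ.comp θ ha
    have hev : (fun t : ℝ => dot (((S.γ t, (0 : ℝ)) : E3) - S.f (S.b θ)) F.b) =ᶠ[𝓝 θ]
        (β ∘ fun t : ℝ => dot (((S.γ t, (0 : ℝ)) : E3) - S.f (S.b θ)) F.a) := by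
      filter_upwards [hb.continuousAt (h.1.isOpen.mem_nhds h.1.mem)] with t ht
      have h1 := h.1.f_eq ht
      have h2 := h.1.map_mem ht
      have h3 := (h.2.2.2.2 _ h2).1 (by rw [e.left_inv ht]; exact S.b_mem t)
      have h4 := F.dot_pt_sub (S.f (S.b θ)) g (e (S.b t))
      rw [← h1, S.f_b t] at h4
      simp only [Function.comp]
      rw [h4.1, h4.2.1, h3]
    have h1 := hbb.unique (hcomp.congr_of_eventuallyEq hev)
    rw [h1]
    ring
  -- sign at a point
  have hsign : ∀ θ F r g β e, BdPatch S.f S.N S.bd S.H (S.b θ) F r g β e →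
      ∃ κ : ℝ, (κ = 1 ∨ κ = -1) ∧ F.b = κ • S.cn 1 θ := by
    intro θ F r g β e h
    have hn := h.1.normal_center
    have hVb := htan θ F r g β e h
    have hVn : dot (deriv S.γ θ, 0) F.n = 0 := by
      rw [← hn, dot_comm]; exact hNg θ
    have hV := expand_a F _ hVb hVn
    have hVV : dot ((deriv S.γ θ, (0 : ℝ)) : E3) (deriv S.γ θ, 0) = 1 := by
      unfold dot
      simp only [mul_zero, add_zero]
      exact hγ' θ
    have hne : dot ((deriv S.γ θ, (0 : ℝ)) : E3) F.a ≠ 0 := by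
      intro h0
      rw [h0, zero_smul] at hV
      rw [hV] at hVV
      simp [dot, ip] at hVV
    have hca : dot (S.cn 1 θ) F.a = 0 := by
      have h1 := hcnV θ
      rw [hV, dot_smul_right] at h1
      rcases mul_eq_zero.1 h1 with h2 | h2
      · exact absurd h2 hne
      · exact h2
    have hcn : dot (S.cn 1 θ) F.n = 0 := by rw [← hn]; exact hcnN θ
    have hcb := expand_b F _ hca hcn
    obtain ⟨κ, hκ⟩ : ∃ κ, κ = dot (S.cn 1 θ) F.b := ⟨_, rfl⟩
    rw [← hκ] at hcb
    have hκ2 : κ * κ = 1 := by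
      have h1 := hcn1 θ
      rw [hcb, dot_smul_left, dot_smul_right, F.hbb] at h1
      linarith
    refine ⟨κ, mul_self_eq_one_iff.1 hκ2, ?_⟩
    rw [hcb, smul_smul, hκ2, one_smul]
  have hcns : ∀ σ θ, S.cn σ θ = σ • S.cn 1 θ := by
    intro σ θ
    unfold Setup.cn
    rw [one_smul]
  -- continuity of the model conormal
  have hcnc : Continuous (fun θ => S.cn 1 θ) := by
    have h1 : Continuous (deriv S.γ) := hI.smooth.continuous_deriv (by simp)
    have h2 : Continuous (fun θ => S.N (S.b θ)) := hN.comp hb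
    have h3 : Continuous S.ν := by
      unfold Setup.ν ip
      have h4 : Continuous (fun θ => (S.N (S.b θ)).1.re) :=
        Complex.continuous_re.comp (continuous_fst.comp h2)
      have h5 : Continuous (fun θ => (S.N (S.b θ)).1.im) :=
        Complex.continuous_im.comp (continuous_fst.comp h2)
      have h6 : Continuous (fun θ => (Complex.I * deriv S.γ θ).re) :=
        Complex.continuous_re.comp (continuous_const.mul h1)
      have h7 : Continuous (fun θ => (Complex.I * deriv S.γ θ).im) :=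
        Complex.continuous_im.comp (continuous_const.mul h1)
      exact (h4.mul h6).add (h5.mul h7)
    unfold Setup.cn
    simp only [one_smul]
    apply Continuous.prodMk
    · exact (Complex.continuous_ofReal.comp (continuous_snd.comp h2)).mul (continuous_const.mul h1)
    · exact h3.neg
  -- local constancy
  have hloc : ∀ θ₀ σ : ℝ, (σ = 1 ∨ σ = -1) →
      (∃ F r g β e, BdPatch S.f S.N S.bd S.H (S.b θ₀) F r g β e ∧ F.b = σ • S.cn 1 θ₀) →
      ∀ᶠ θ in 𝓝 θ₀, ∀ F r g β e, BdPatch S.f S.N S.bd S.H (S.b θ) F r g β e →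
        F.b = σ • S.cn 1 θ := by
    intro θ₀ σ hσ hex
    obtain ⟨F, r, g, β, e, h, hFb⟩ := hex
    have hσ2 : σ * σ = 1 := by rcases hσ with h | h <;> rw [h] <;> norm_num
    -- the function `dot (X2 g (e (b θ))) (cn 1 θ)` tends to `σ`
    have hX2 : ContinuousAt (fun s => F.X2 g s) 0 := by
      have h1 : ContinuousOn (d2 g) (ball 0 r) := (contDiffOn_d2 isOpen_ball h.1.smooth).continuousOn
      have h2 : ContinuousAt (d2 g) 0 := h1.continuousAt (isOpen_ball.mem_nhds (mem_ball_self h.1.r_pos))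
      unfold Frame.X2
      exact continuousAt_const.add (h2.smul continuousAt_const)
    have he : Tendsto (fun θ => e (S.b θ)) (𝓝 θ₀) (𝓝 0) := by
      have h1 : ContinuousAt e (S.b θ₀) := h.1.cont.continuousAt (h.1.isOpen.mem_nhds h.1.mem)
      have h2 := h1.tendsto.comp hb.continuousAt.tendsto
      rw [h.1.map_zero] at h2
      exact h2
    have hlim : Tendsto (fun θ => dot (F.X2 g (e (S.b θ))) (S.cn 1 θ)) (𝓝 θ₀)
        (𝓝 (dot (F.X2 g 0) (S.cn 1 θ₀))) := by
      have hdc : Continuous (fun p : E3 × E3 => dot p.1 p.2) := by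
        unfold dot ip
        have c1 : Continuous (fun p : E3 × E3 => p.1.1.re) :=
          Complex.continuous_re.comp (continuous_fst.comp continuous_fst)
        have c2 : Continuous (fun p : E3 × E3 => p.1.1.im) :=
          Complex.continuous_im.comp (continuous_fst.comp continuous_fst)
        have c3 : Continuous (fun p : E3 × E3 => p.2.1.re) :=
          Complex.continuous_re.comp (continuous_fst.comp continuous_snd)
        have c4 : Continuous (fun p : E3 × E3 => p.2.1.im) :=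
          Complex.continuous_im.comp (continuous_fst.comp continuous_snd)
        have c5 : Continuous (fun p : E3 × E3 => p.1.2) := continuous_snd.comp continuous_fst
        have c6 : Continuous (fun p : E3 × E3 => p.2.2) := continuous_snd.comp continuous_snd
        exact ((c1.mul c3).add (c2.mul c4)).add (c5.mul c6)
      have h1 : Tendsto (fun θ => (F.X2 g (e (S.b θ)), S.cn 1 θ)) (𝓝 θ₀)
          (𝓝 (F.X2 g 0, S.cn 1 θ₀)) :=
        (hX2.tendsto.comp he).prodMk_nhds hcnc.continuousAt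
      exact (hdc.tendsto _).comp h1
    have hval : dot (F.X2 g 0) (S.cn 1 θ₀) = σ := by
      have h1 : F.X2 g 0 = F.b := by
        unfold Frame.X2
        rw [h.1.d2_zero]
        simp
      rw [h1, hFb, dot_smul_left, hcn1, mul_one]
    rw [hval] at hlim
    have hpos : ∀ᶠ θ in 𝓝 θ₀, 0 < σ * dot (F.X2 g (e (S.b θ))) (S.cn 1 θ) := by
      have h1 := hlim.const_mul σ
      rw [hσ2] at h1
      exact h1.eventually (lt_mem_nhds one_pos)
    filter_upwards [hpos, hb.continuousAt (h.1.isOpen.mem_nhds h.1.mem)] with θ h1 h2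
    intro F' r' g' β' e' h'
    obtain ⟨κ, hκ, hFb'⟩ := hsign θ F' r' g' β' e' h'
    have h3 := two_patches h h' h2 (S.b_mem θ)
    rw [hFb', dot_smul_right] at h3
    have h4 : κ = σ := by
      rcases hκ with hk | hk <;> rcases hσ with hs | hs
      · rw [hk, hs]
      · exfalso
        rw [hk] at h3
        rw [hs] at h1
        linarith
      · exfalso
        rw [hk] at h3
        rw [hs] at h1
        linarith
      · rw [hk, hs]
    rw [hFb', h4]
  -- existence of a patch and its sign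
  have hex : ∀ θ, ∃ σ : ℝ, (σ = 1 ∨ σ = -1) ∧
      ∃ F r g β e, BdPatch S.f S.N S.bd S.H (S.b θ) F r g β e ∧ F.b = σ • S.cn 1 θ := by
    intro θ
    obtain ⟨F, r, g, β, e, h⟩ := S.surf.boundary (S.b θ) (S.b_mem θ)
    obtain ⟨κ, hκ, hFb⟩ := hsign θ F r g β e h
    exact ⟨κ, hκ, F, r, g, β, e, h, hFb⟩
  -- the two sets
  obtain ⟨A, hA⟩ : ∃ A : ℝ → Set ℝ, A = fun σ => {θ | ∃ F r g β e,
    BdPatch S.f S.N S.bd S.H (S.b θ) F r g β e ∧ F.b = σ • S.cn 1 θ} := ⟨_, rfl⟩
  have hopen : ∀ σ : ℝ, (σ = 1 ∨ σ = -1) → IsOpen (A σ) := by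
    intro σ hσ
    rw [isOpen_iff_mem_nhds]
    intro θ₀ hθ₀
    rw [hA] at hθ₀
    filter_upwards [hloc θ₀ σ hσ hθ₀] with θ hθ
    obtain ⟨F, r, g, β, e, h⟩ := S.surf.boundary (S.b θ) (S.b_mem θ)
    rw [hA]
    exact ⟨F, r, g, β, e, h, hθ F r g β e h⟩
  have hall : ∀ σ : ℝ, (σ = 1 ∨ σ = -1) → (∀ θ, θ ∈ A σ) → S.Conormal σ := by
    intro σ hσ hθ θ F r g β e h
    rw [hcns]
    have h1 := hθ θ
    rw [hA] at h1
    exact (hloc θ σ hσ h1).self_of_nhds F r g β e h
  have hcover : (univ : Set ℝ) ⊆ A 1 ∪ A (-1) := by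
    intro θ _
    obtain ⟨σ, hσ, h⟩ := hex θ
    rcases hσ with hs | hs
    · left; rw [hA]; rw [hs] at h; exact h
    · right; rw [hA]; rw [hs] at h; exact h
  have hdisj : ∀ θ, ¬ (θ ∈ A 1 ∧ θ ∈ A (-1)) := by
    rintro θ ⟨h1, h2⟩
    rw [hA] at h1 h2
    obtain ⟨F, r, g, β, e, h, hb1⟩ := h1
    have hb2 := (hloc θ (-1) (Or.inr rfl) h2).self_of_nhds F r g β e h
    rw [hb1] at hb2
    have h3 := hcn1 θ
    have h4 : dot ((1 : ℝ) • S.cn 1 θ) (S.cn 1 θ) = dot ((-1 : ℝ) • S.cn 1 θ) (S.cn 1 θ) := by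
      rw [hb2]
    rw [dot_smul_left, dot_smul_left, h3] at h4
    norm_num at h4
  have hpre : IsPreconnected (univ : Set ℝ) := isPreconnected_univ
  rcases hpre.subset_or_subset (hopen 1 (Or.inl rfl)) (hopen (-1) (Or.inr rfl))
    (Set.disjoint_left.2 fun θ h1 h2 => hdisj θ ⟨h1, h2⟩) hcover with h | h
  · exact ⟨1, Or.inl rfl, hall 1 (Or.inl rfl) fun θ => h (mem_univ θ)⟩
  · exact ⟨-1, Or.inr rfl, hall (-1) (Or.inr rfl) fun θ => h (mem_univ θ)⟩

end Cyl
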