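import Pool.Agent.Cyl.LIN

/-!
# PERT: if `L_g h > 0` on a compact set then `mc (g - τ h) < mc g` there for small `τ`
-/

open MeasureTheory Set Filter Topology Metric
open scoped ContDiff

noncomputable section

namespace Cyl

theorem fderiv_sub_mul {U : Set ℂ} (hU : IsOpen U) {φ ψ : ℂ → ℝ} (hφ : ContDiffOn ℝ ∞ φ U)
    (hψ : ContDiffOn ℝ ∞ ψ U) (τ : ℝ) (v : ℂ) {t : ℂ} (ht : t ∈ U) :
    fderiv ℝ (fun t => φ t - τ * ψ t) t v = fderiv ℝ φ t v - τ * fderiv ℝ ψ t v := by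
  have h1 : DifferentiableAt ℝ φ t := (contDiffAt_of_mem hU hφ ht).differentiableAt (by simp)
  have h2 : DifferentiableAt ℝ ψ t := (contDiffAt_of_mem hU hψ ht).differentiableAt (by simp)
  have h := (h1.hasFDerivAt.sub (h2.hasFDerivAt.const_mul τ)).fderiv
  have e : fderiv ℝ (fun t => φ t - τ * ψ t) t = fderiv ℝ φ t - τ • fderiv ℝ ψ t := h
  rw [e]
  simp

/-- the 2-jet of `g - τ h` -/
theorem mc_sub_mul {U : Set ℂ} (hU : IsOpen U) {g h : ℂ → ℝ} (hg : ContDiffOn ℝ ∞ g U)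
    (hh : ContDiffOn ℝ ∞ h U) (τ : ℝ) {s : ℂ} (hs : s ∈ U) :
    mc (fun t => g t - τ * h t) s = curv ⟨d1 g s - τ * d1 h s, d2 g s - τ * d2 h s⟩
      ⟨d1 (d1 g) s - τ * d1 (d1 h) s, d2 (d1 g) s - τ * d2 (d1 h) s,
        d2 (d2 g) s - τ * d2 (d2 h) s⟩ := by
  have e1 : ∀ t ∈ U, d1 (fun t => g t - τ * h t) t = d1 g t - τ * d1 h t := fun t ht =>
    fderiv_sub_mul hU hg hh τ 1 ht
  have e2 : ∀ t ∈ U, d2 (fun t => g t - τ * h t) t = d2 g t - τ * d2 h t := fun t ht =>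
    fderiv_sub_mul hU hg hh τ Complex.I ht
  have ev : ∀ {φ ψ : ℂ → ℝ}, (∀ t ∈ U, φ t = ψ t) → fderiv ℝ φ s = fderiv ℝ ψ s := by
    intro φ ψ hφ
    apply Filter.EventuallyEq.fderiv_eq
    filter_upwards [hU.mem_nhds hs] with t ht
    exact hφ t ht
  have e11 : d1 (d1 (fun t => g t - τ * h t)) s = d1 (d1 g) s - τ * d1 (d1 h) s := by
    show fderiv ℝ (d1 (fun t => g t - τ * h t)) s 1 = _
    rw [ev e1]
    exact fderiv_sub_mul hU (contDiffOn_d1 hU hg) (contDiffOn_d1 hU hh) τ 1 hs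
  have e12 : d2 (d1 (fun t => g t - τ * h t)) s = d2 (d1 g) s - τ * d2 (d1 h) s := by
    show fderiv ℝ (d1 (fun t => g t - τ * h t)) s Complex.I = _
    rw [ev e1]
    exact fderiv_sub_mul hU (contDiffOn_d1 hU hg) (contDiffOn_d1 hU hh) τ Complex.I hs
  have e22 : d2 (d2 (fun t => g t - τ * h t)) s = d2 (d2 g) s - τ * d2 (d2 h) s := by
    show fderiv ℝ (d2 (fun t => g t - τ * h t)) s Complex.I = _
    rw [ev e2]
    exact fderiv_sub_mul hU (contDiffOn_d2 hU hg) (contDiffOn_d2 hU hh) τ Complex.I hs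
  unfold mc grad hess
  rw [e1 s hs, e2 s hs, e11, e12, e22]

/-- PERT -/
theorem PERT_holds : PerturbStatement := by
  intro U K g h hU hK hKU hg hh hL
  rcases K.eq_empty_or_nonempty with rfl | hne
  · exact ⟨1, one_pos, fun τ _ _ => ⟨1, one_pos, fun s hs => absurd hs (Set.notMem_empty s)⟩⟩
  -- continuity of the jets on `[0,1] × K`
  set S : Set (ℝ × ℂ) := Icc 0 1 ×ˢ K with hS
  have hSc : IsCompact S := isCompact_Icc.prod hK
  have hmaps : MapsTo (fun z : ℝ × ℂ => z.2) S U := fun z hz => hKU hz.2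
  have hc : ∀ {φ : ℂ → ℝ}, ContDiffOn ℝ ∞ φ U → ContinuousOn (fun z : ℝ × ℂ => φ z.2) S := by
    intro φ hφ
    exact hφ.continuousOn.comp continuousOn_snd hmaps
  have g1 := contDiffOn_d1 hU hg
  have g2 := contDiffOn_d2 hU hg
  have h1 := contDiffOn_d1 hU hh
  have h2 := contDiffOn_d2 hU hh
  have cτ : ContinuousOn (fun z : ℝ × ℂ => z.1) S := continuousOn_fst
  have cp := hc h1
  have cq := hc h2
  have ca := hc (contDiffOn_d1 hU h1)
  have cb := hc (contDiffOn_d2 hU h1)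
  have cc := hc (contDiffOn_d2 hU h2)
  have cP := (hc g1).sub (cτ.mul cp)
  have cQ := (hc g2).sub (cτ.mul cq)
  have cA := (hc (contDiffOn_d1 hU g1)).sub (cτ.mul ca)
  have cB := (hc (contDiffOn_d2 hU g1)).sub (cτ.mul cb)
  have cC := (hc (contDiffOn_d2 hU g2)).sub (cτ.mul cc)
  set P : ℝ × ℂ → ℝ := fun z => d1 g z.2 - z.1 * d1 h z.2 with hP
  set Q : ℝ × ℂ → ℝ := fun z => d2 g z.2 - z.1 * d2 h z.2 with hQ
  set A : ℝ × ℂ → ℝ := fun z => d1 (d1 g) z.2 - z.1 * d1 (d1 h) z.2 with hA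
  set B : ℝ × ℂ → ℝ := fun z => d2 (d1 g) z.2 - z.1 * d2 (d1 h) z.2 with hB
  set C : ℝ × ℂ → ℝ := fun z => d2 (d2 g) z.2 - z.1 * d2 (d2 h) z.2 with hC
  set Ψ : ℝ × ℂ → ℝ := fun z =>
    (lin ⟨P z, Q z⟩ ⟨-d1 (d1 h) z.2, -d2 (d1 h) z.2, -d2 (d2 h) z.2⟩ +
      ip (dcurv ⟨P z, Q z⟩ ⟨A z, B z, C z⟩) ⟨-d1 h z.2, -d2 h z.2⟩) / (W ⟨P z, Q z⟩) ^ 3 with hΨ
  have cW : ContinuousOn (fun z => W ⟨P z, Q z⟩) S := by
    have e : (fun z => W ⟨P z, Q z⟩) = fun z => Real.sqrt (1 + P z ^ 2 + Q z ^ 2) := rfl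
    rw [e]
    exact ((continuousOn_const.add (cP.pow 2)).add (cQ.pow 2)).sqrt
  have cL : ContinuousOn (fun z => lin ⟨P z, Q z⟩ ⟨A z, B z, C z⟩) S :=
    (((continuousOn_const.add (cQ.pow 2)).mul cA).sub
      (((continuousOn_const.mul cP).mul cQ).mul cB)).add ((continuousOn_const.add (cP.pow 2)).mul cC)
  have cL' : ContinuousOn (fun z : ℝ × ℂ => lin ⟨P z, Q z⟩
      ⟨-d1 (d1 h) z.2, -d2 (d1 h) z.2, -d2 (d2 h) z.2⟩) S :=
    (((continuousOn_const.add (cQ.pow 2)).mul ca.neg).sub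
      (((continuousOn_const.mul cP).mul cQ).mul cb.neg)).add
      ((continuousOn_const.add (cP.pow 2)).mul cc.neg)
  have cD1 : ContinuousOn (fun z => (dcurv ⟨P z, Q z⟩ ⟨A z, B z, C z⟩).re) S := by
    have e : (fun z => (dcurv ⟨P z, Q z⟩ ⟨A z, B z, C z⟩).re) = fun z =>
        (2 * P z * C z - 2 * Q z * B z) - 3 * P z * lin ⟨P z, Q z⟩ ⟨A z, B z, C z⟩ /
          (W ⟨P z, Q z⟩) ^ 2 := rfl
    rw [e]
    exact (((continuousOn_const.mul cP).mul cC).sub ((continuousOn_const.mul cQ).mul cB)).sub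
      (((continuousOn_const.mul cP).mul cL).div (cW.pow 2) (fun z _ => pow_ne_zero 2 (W_pos _).ne'))
  have cD2 : ContinuousOn (fun z => (dcurv ⟨P z, Q z⟩ ⟨A z, B z, C z⟩).im) S := by
    have e : (fun z => (dcurv ⟨P z, Q z⟩ ⟨A z, B z, C z⟩).im) = fun z =>
        (2 * Q z * A z - 2 * P z * B z) - 3 * Q z * lin ⟨P z, Q z⟩ ⟨A z, B z, C z⟩ /
          (W ⟨P z, Q z⟩) ^ 2 := rfl
    rw [e]
    exact (((continuousOn_const.mul cQ).mul cA).sub ((continuousOn_const.mul cP).mul cB)).sub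
      (((continuousOn_const.mul cQ).mul cL).div (cW.pow 2) (fun z _ => pow_ne_zero 2 (W_pos _).ne'))
  have cΨ : ContinuousOn Ψ S :=
    (cL'.add ((cD1.mul cp.neg).add (cD2.mul cq.neg))).div (cW.pow 3)
      (fun z _ => pow_ne_zero 3 (W_pos _).ne')
  -- derivative in `τ`
  have hder : ∀ s ∈ U, ∀ τ : ℝ, HasDerivAt (fun τ : ℝ => mc (fun t => g t - τ * h t) s)
      (Ψ (τ, s)) τ := by
    intro s hs τ
    have hlin : ∀ x y : ℝ, HasDerivAt (fun τ : ℝ => x - τ * y) (-y) τ := by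
      intro x y
      have := ((hasDerivAt_id τ).mul_const y).const_sub x
      simpa using this
    have hd := hasDerivAt_curv (hlin (d1 g s) (d1 h s)) (hlin (d2 g s) (d2 h s))
      (hlin (d1 (d1 g) s) (d1 (d1 h) s)) (hlin (d2 (d1 g) s) (d2 (d1 h) s))
      (hlin (d2 (d2 g) s) (d2 (d2 h) s))
    refine hd.congr_of_eventuallyEq ?_
    exact Eventually.of_forall (fun τ' => mc_sub_mul hU hg hh τ' hs)
  -- value at `τ = 0`
  have hzero : ∀ s, Ψ (0, s) = -(Lop g h s / (W (grad g s)) ^ 3) := by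
    intro s
    simp only [hΨ, hP, hQ, hA, hB, hC, zero_mul, sub_zero]
    rw [← neg_div]
    have e : (⟨d1 g s, d2 g s⟩ : ℂ) = grad g s := rfl
    congr 1
    unfold Lop lin dcurv ip hess grad
    simp only
    ring
  have hneg : ∀ s ∈ K, 0 < -Ψ (0, s) := by
    intro s hs
    rw [hzero s, neg_neg]
    exact div_pos (hL s hs) (pow_pos (W_pos _) 3)
  have c0 : ContinuousOn (fun s : ℂ => -Ψ (0, s)) K := by
    have : ContinuousOn (fun s : ℂ => Ψ ((0 : ℝ), s)) K :=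
      cΨ.comp (Continuous.prodMk_right (0 : ℝ)).continuousOn
        (fun s hs => ⟨⟨le_rfl, zero_le_one⟩, hs⟩)
    exact this.neg
  obtain ⟨s₀, hs₀, hmin⟩ := hK.exists_isMinOn hne c0
  set c₁ : ℝ := -Ψ (0, s₀) / 2 with hc₁
  have hc₁0 : 0 < c₁ := half_pos (hneg s₀ hs₀)
  obtain ⟨C₁, hC₁⟩ := hSc.exists_bound_of_continuousOn cΨ
  have hC₁0 : 0 ≤ C₁ := (norm_nonneg _).trans (hC₁ (0, s₀) ⟨⟨le_rfl, zero_le_one⟩, hs₀⟩)
  have huc := hSc.uniformContinuousOn_of_continuous cΨ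
  rw [Metric.uniformContinuousOn_iff] at huc
  obtain ⟨δ, hδ, hδ'⟩ := huc c₁ hc₁0
  have hup : ∀ s ∈ K, ∀ τ, 0 ≤ τ → τ < δ → τ ≤ 1 → Ψ (τ, s) ≤ -c₁ := by
    intro s hs τ h0 h1 h2
    have h3 := hδ' (τ, s) ⟨⟨h0, h2⟩, hs⟩ (0, s) ⟨⟨le_rfl, zero_le_one⟩, hs⟩ (by
      rw [Prod.dist_eq, dist_self, max_eq_left dist_nonneg, Real.dist_eq, sub_zero,
        abs_of_nonneg h0]
      exact h1)
    rw [Real.dist_eq] at h3
    have h4 := (abs_lt.mp h3).2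
    have h5 : -Ψ (0, s₀) ≤ -Ψ (0, s) := hmin hs
    have h6 : -Ψ (0, s₀) = 2 * c₁ := by rw [hc₁]; ring
    linarith
  refine ⟨min (min δ 1) (1 / (C₁ + 1)), by positivity, fun τ hτ0 hτ => ?_⟩
  have hτδ : τ < δ := hτ.trans_le ((min_le_left _ _).trans (min_le_left _ _))
  have hτ1 : τ < 1 := hτ.trans_le ((min_le_left _ _).trans (min_le_right _ _))
  refine ⟨c₁ * τ, by positivity, fun s hs => ?_⟩
  obtain ⟨ξ, hξ, hslope⟩ := exists_hasDerivAt_eq_slope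
    (fun τ : ℝ => mc (fun t => g t - τ * h t) s) (fun τ => Ψ (τ, s)) hτ0
    (fun x _ => (hder s (hKU hs) x).continuousAt.continuousWithinAt)
    (fun x _ => hder s (hKU hs) x)
  have e0 : mc (fun t => g t - 0 * h t) s = mc g s := by
    have : (fun t => g t - 0 * h t) = g := by funext t; ring
    rw [this]
  rw [sub_zero, eq_div_iff hτ0.ne', e0] at hslope
  have h1 := hup s hs ξ hξ.1.le (hξ.2.trans hτδ) (hξ.2.trans hτ1).le
  have h2 := hC₁ (ξ, s) ⟨⟨hξ.1.le, (hξ.2.trans hτ1).le⟩, hs⟩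
  rw [Real.norm_eq_abs] at h2
  constructor
  · nlinarith
  · rw [← hslope, abs_mul, abs_of_pos hτ0]
    apply mul_le_mul_of_nonneg_right _ hτ0.le
    refine h2.trans ?_
    have h3 : min (min δ 1) (1 / (C₁ + 1)) ≤ 1 / (C₁ + 1) := min_le_right _ _
    have h4 : 0 < min (min δ 1) (1 / (C₁ + 1)) := by positivity
    have h5 : (1 / (C₁ + 1))⁻¹ ≤ (min (min δ 1) (1 / (C₁ + 1)))⁻¹ := inv_anti₀ h4 h3
    rw [one_div, inv_inv] at h5
    rw [one_div]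
    linarith

end Cyl
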