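import Pool.Agent.Cyl.Stmt2
import Pool.Agent.Cyl.Base

/-!
# REFLECT: reflection in the plane of the curve
-/

open MeasureTheory Set Filter Topology Metric
open scoped ContDiff

noncomputable section

namespace Cyl

universe u

/-- reflection in the horizontal plane -/
def refl3 (X : E3) : E3 := (X.1, -X.2)

theorem refl3_refl3 (X : E3) : refl3 (refl3 X) = X := by
  unfold refl3; simp

theorem refl3_add (X Y : E3) : refl3 (X + Y) = refl3 X + refl3 Y := by
  unfold refl3
  apply Prod.ext
  · simp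
  · simp; ring

theorem refl3_sub (X Y : E3) : refl3 (X - Y) = refl3 X - refl3 Y := by
  unfold refl3
  apply Prod.ext
  · simp
  · simp; ring

theorem refl3_smul (t : ℝ) (X : E3) : refl3 (t • X) = t • refl3 X := by
  unfold refl3
  apply Prod.ext
  · simp
  · simp

theorem dot_refl3 (X Y : E3) : dot (refl3 X) (refl3 Y) = dot X Y := by
  unfold refl3 dot; simp

/-- the reflected frame -/
def Frame.refl (F : Frame) : Frame where
  a := refl3 F.a
  b := refl3 F.b
  n := refl3 F.n
  haa := by rw [dot_refl3]; exact F.haa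
  hbb := by rw [dot_refl3]; exact F.hbb
  hnn := by rw [dot_refl3]; exact F.hnn
  hab := by rw [dot_refl3]; exact F.hab
  han := by rw [dot_refl3]; exact F.han
  hbn := by rw [dot_refl3]; exact F.hbn

theorem Frame.refl_refl (F : Frame) : F.refl.refl = F := by
  cases F
  simp only [Frame.refl, refl3_refl3]

theorem Frame.refl_pt (F : Frame) (q : E3) (g : ℂ → ℝ) (s : ℂ) :
    F.refl.pt (refl3 q) g s = refl3 (F.pt q g s) := by
  unfold Frame.pt
  simp only [refl3_add, refl3_smul, Frame.refl]

theorem Frame.refl_nor (F : Frame) (g : ℂ → ℝ) (s : ℂ) :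
    F.refl.nor g s = refl3 (F.nor g s) := by
  unfold Frame.nor
  simp only [refl3_sub, refl3_smul, Frame.refl]

variable {M : Type u} [TopologicalSpace M]

theorem Patch.refl {f N : M → E3} {H : ℝ} {q : M} {F : Frame} {r : ℝ} {g : ℂ → ℝ} {R : Set ℂ}
    {e : PartialEquiv M ℂ} (h : Patch f N H q F r g R e) :
    Patch (fun q => refl3 (f q)) (fun q => refl3 (N q)) H q F.refl r g R e where
  r_pos := h.r_pos
  smooth := h.smooth
  g_zero := h.g_zero
  grad_zero := h.grad_zero
  isOpen := h.isOpen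
  target := h.target
  cont := h.cont
  cont_symm := h.cont_symm
  mem := h.mem
  map_zero := h.map_zero
  param := by
    intro s hs
    rw [Frame.refl_pt, h.param s hs]
  normal := by
    intro s hs
    rw [Frame.refl_nor, h.normal s hs]
  mean := h.mean

theorem BdPatch.refl {f N : M → E3} {bd : Set M} {H : ℝ} {q : M} {F : Frame} {r : ℝ} {g : ℂ → ℝ}
    {β : ℝ → ℝ} {e : PartialEquiv M ℂ} (h : BdPatch f N bd H q F r g β e) :
    BdPatch (fun q => refl3 (f q)) (fun q => refl3 (N q)) bd H q F.refl r g β e :=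
  ⟨h.1.refl, h.2⟩

theorem CMC.refl {f N : M → E3} {bd : Set M} {H : ℝ} (h : CMC f N bd H) :
    CMC (fun q => refl3 (f q)) (fun q => refl3 (N q)) bd H where
  interior := by
    intro q hq
    obtain ⟨F, r, g, e, h1, h2⟩ := h.interior q hq
    exact ⟨F.refl, r, g, e, h1.refl, h2⟩
  boundary := by
    intro q hq
    obtain ⟨F, r, g, β, e, h1⟩ := h.boundary q hq
    exact ⟨F.refl, r, g, β, e, h1.refl⟩

/-- the reflected setup -/
def Setup.refl (S : Setup M) : Setup M where
  D := S.D
  γ := S.γ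
  L := S.L
  H := S.H
  f := fun q => refl3 (S.f q)
  N := fun q => refl3 (S.N q)
  bd := S.bd
  curve := S.curve
  H_pos := S.H_pos
  surf := S.surf.refl
  inj_bd := by
    intro p hp q hq h
    apply S.inj_bd hp hq
    have h1 := congrArg refl3 h
    simpa only [refl3_refl3] using h1
  img_bd := by
    have h : (fun q => refl3 (S.f q)) '' S.bd = refl3 '' (S.f '' S.bd) := by
      rw [image_image]
    rw [h, S.img_bd]
    ext X
    constructor
    · rintro ⟨Y, ⟨hY1, hY2⟩, rfl⟩
      refine ⟨hY1, ?_⟩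
      have : Y.2 = 0 := hY2
      simp [refl3, this]
    · rintro ⟨h1, h2⟩
      refine ⟨X, ⟨h1, h2⟩, ?_⟩
      have : X.2 = 0 := h2
      apply Prod.ext
      · rfl
      · simp [refl3, this]
  cyl := fun q => S.cyl q

theorem Setup.refl_b (S : Setup M) (θ : ℝ) : S.refl.b θ = S.b θ := by
  apply S.inj_bd (S.refl.b_mem θ) (S.b_mem θ)
  have h1 : refl3 (S.f (S.refl.b θ)) = (S.γ θ, (0 : ℝ)) := S.refl.f_b θ
  have h2 := congrArg refl3 h1
  rw [refl3_refl3] at h2
  rw [h2, S.f_b θ]
  simp [refl3]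

theorem REFLECT_holds : ReflectStatement.{u} := by
  intro M _ _ _ S
  refine ⟨S.refl, rfl, rfl, rfl, rfl, rfl, fun q => rfl, fun q => rfl, ?_⟩
  intro hC θ F r g β e hp
  rw [S.refl_b θ] at hp
  have h1 : BdPatch (fun q => refl3 (refl3 (S.f q))) (fun q => refl3 (refl3 (S.N q))) S.bd S.H
      (S.b θ) F.refl r g β e := hp.refl
  simp only [refl3_refl3] at h1
  have h2 := hC θ F.refl r g β e h1
  have h3 : F.b = refl3 (S.cn 1 θ) := by
    rw [← h2]
    exact (refl3_refl3 F.b).symm
  rw [h3]
  have hN : S.refl.N (S.refl.b θ) = refl3 (S.N (S.b θ)) := by rw [S.refl_b θ]; rfl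
  have hν : S.refl.ν θ = S.ν θ := by
    unfold Setup.ν
    rw [hN]
    rfl
  unfold Setup.cn
  rw [hν, hN]
  have hγ : S.refl.γ = S.γ := rfl
  rw [hγ]
  apply Prod.ext
  · simp [refl3]
  · simp [refl3]

end Cyl
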