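import Pool.Agent.Cyl.MaxP

/-!
# SMP: the strong maximum principle (Hopf)
-/

open MeasureTheory Set Filter Topology Metric
open scoped ContDiff

noncomputable section

namespace Cyl

/-- Hopf's barrier -/
def hopf (α R : ℝ) (c s : ℂ) : ℝ := Real.exp (-α * ‖s - c‖ ^ 2) - Real.exp (-α * R ^ 2)

theorem hopf_eq (α R : ℝ) (c s : ℂ) :
    hopf α R c s = Real.exp (-α * quad 1 0 1 (-2 * c.re) (-2 * c.im) (c.re ^ 2 + c.im ^ 2) s)
      - Real.exp (-α * R ^ 2) := by
  unfold hopf
  congr 3
  rw [← ip_self, ip, quad]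
  simp
  ring

theorem contDiff_hopf (α R : ℝ) (c : ℂ) {n : WithTop ℕ∞} : ContDiff ℝ n (hopf α R c) := by
  have e : hopf α R c = fun s => Real.exp (-α * quad 1 0 1 (-2 * c.re) (-2 * c.im)
      (c.re ^ 2 + c.im ^ 2) s) - Real.exp (-α * R ^ 2) := funext (hopf_eq α R c)
  rw [e]
  exact (Real.contDiff_exp.comp (contDiff_const.mul (contDiff_quad _ _ _ _ _ _))).sub contDiff_const

/-- value of the linear operator on the barrier -/
theorem hopf_lin (α R : ℝ) (c s m β : ℂ) :
    lin m (hess (hopf α R c) s) + ip β (grad (hopf α R c) s) =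
      2 * α * Real.exp (-α * ‖s - c‖ ^ 2) *
        (2 * α * (‖s - c‖ ^ 2 + (m.im * (s - c).re - m.re * (s - c).im) ^ 2)
          - (2 + ‖m‖ ^ 2) - ip β (s - c)) := by
  set P : ℂ → ℝ := quad 1 0 1 (-2 * c.re) (-2 * c.im) (c.re ^ 2 + c.im ^ 2) with hP
  have hPc : ContDiffAt ℝ 2 P s := (contDiff_quad _ _ _ _ _ _).contDiffAt
  have hPs : P s = ‖s - c‖ ^ 2 := by
    rw [← ip_self, ip, hP, quad]; simp; ring
  have hF : ∀ t : ℝ, HasDerivAt (fun t : ℝ => Real.exp (-α * t) - Real.exp (-α * R ^ 2))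
      (-α * Real.exp (-α * t)) t := by
    intro t
    have h1 : HasDerivAt (fun t : ℝ => -α * t) (-α) t := by
      simpa using (hasDerivAt_id t).const_mul (-α)
    have h2 := (h1.exp).sub_const (Real.exp (-α * R ^ 2))
    refine h2.congr_deriv ?_
    ring
  have hF' : HasDerivAt (fun t : ℝ => -α * Real.exp (-α * t)) (α ^ 2 * Real.exp (-α * P s)) (P s) := by
    have h1 : HasDerivAt (fun t : ℝ => -α * t) (-α) (P s) := by
      simpa using (hasDerivAt_id (P s)).const_mul (-α)
    have h2 := (h1.exp).const_mul (-α)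
    refine h2.congr_deriv ?_
    ring
  have h := comp_formula hPc (Filter.Eventually.of_forall hF) hF'
  have e : hopf α R c = fun t => (fun t : ℝ => Real.exp (-α * t) - Real.exp (-α * R ^ 2)) (P t) :=
    funext (hopf_eq α R c)
  rw [e, h.1, h.2]
  have hd := d_quad 1 0 1 (-2 * c.re) (-2 * c.im) (c.re ^ 2 + c.im ^ 2) s
  have hh := hess_quad 1 0 1 (-2 * c.re) (-2 * c.im) (c.re ^ 2 + c.im ^ 2) s
  rw [← hP] at hd hh
  rw [hh, ip_ofReal_mul_right]
  have hm : ‖m‖ ^ 2 = m.re ^ 2 + m.im ^ 2 := by rw [← ip_self, ip]; ring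
  have hn : ‖s - c‖ ^ 2 = (s.re - c.re) ^ 2 + (s.im - c.im) ^ 2 := by
    rw [← ip_self, ip]; simp; ring
  rw [hPs, hm]
  unfold lin ip grad
  rw [hd.1, hd.2]
  simp only [Complex.sub_re, Complex.sub_im]
  rw [hn]
  ring

theorem exists_bound {m : ℂ → ℂ} {r : ℝ} (hm : ContinuousOn m (ball 0 r)) {ρ : ℝ} (hρ : ρ < r) :
    ∃ C, 0 ≤ C ∧ ∀ s ∈ closedBall (0 : ℂ) ρ, ‖m s‖ ≤ C := by
  have hK : IsCompact (closedBall (0 : ℂ) ρ) := isCompact_closedBall _ _
  have hsub : closedBall (0 : ℂ) ρ ⊆ ball 0 r := closedBall_subset_ball hρ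
  obtain ⟨C, hC⟩ := (hK.exists_bound_of_continuousOn (hm.mono hsub))
  exact ⟨max C 0, le_max_right _ _, fun s hs => (hC s hs).trans (le_max_left _ _)⟩

theorem SMP_holds : SMPStatement := by
  intro r v m β hr hv hm hβ hv0 hv00 hL
  refine ⟨r / 8, by positivity, ?_⟩
  by_contra hcon
  push Not at hcon
  obtain ⟨c, hc, hvc⟩ := hcon
  have hc' : ‖c‖ < r / 8 := by simpa using hc
  have hcr : c ∈ ball (0 : ℂ) r := by
    rw [mem_ball_zero_iff]; linarith
  have hvc0 : 0 < v c := lt_of_le_of_ne (hv0 c hcr) (Ne.symm hvc)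
  -- the zero set
  have hvcont : ContinuousOn v (closedBall 0 (r / 2)) :=
    hv.continuousOn.mono (closedBall_subset_ball (by linarith))
  have hKc : IsCompact (closedBall (0 : ℂ) (r / 2)) := isCompact_closedBall _ _
  set Z : Set ℂ := {s | s ∈ closedBall (0 : ℂ) (r / 2) ∧ v s = 0} with hZ
  have hZc : IsClosed Z := by
    have := hvcont.preimage_isClosed_of_isClosed hKc.isClosed (isClosed_singleton (x := (0 : ℝ)))
    convert this using 1
    ext s
    simp [hZ]
  have hZcomp : IsCompact Z := hKc.of_isClosed_subset hZc fun s hs => hs.1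
  have h0Z : (0 : ℂ) ∈ Z := ⟨by simp; linarith, hv00⟩
  obtain ⟨p, hpZ, hp⟩ := hZcomp.exists_infDist_eq_dist ⟨0, h0Z⟩ c
  set R : ℝ := dist c p with hR
  have hRmin : ∀ s ∈ Z, R ≤ dist c s := fun s hs => by
    rw [← hp]; exact infDist_le_dist_of_mem hs
  have hR0 : 0 < R := by
    rw [hR, dist_pos]
    intro h
    rw [h] at hvc0
    exact hvc0.ne' hpZ.2
  have hRc : R ≤ ‖c‖ := by simpa using hRmin 0 h0Z
  -- points of the closed ball are near `0`
  have hnear : ∀ s, ‖s - c‖ ≤ R → s ∈ closedBall (0 : ℂ) (r / 4) := by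
    intro s hs
    rw [mem_closedBall_zero_iff]
    calc ‖s‖ = ‖(s - c) + c‖ := by ring_nf
      _ ≤ ‖s - c‖ + ‖c‖ := norm_add_le _ _
      _ ≤ r / 4 := by linarith
  have hpos : ∀ s, ‖s - c‖ < R → 0 < v s := by
    intro s hs
    have h1 := hnear s hs.le
    have h1' : s ∈ ball (0 : ℂ) r := by
      rw [mem_closedBall_zero_iff] at h1; rw [mem_ball_zero_iff]; linarith
    refine lt_of_le_of_ne (hv0 s h1') fun h => ?_
    have h2 : s ∈ Z := by
      refine ⟨?_, h.symm⟩
      rw [mem_closedBall_zero_iff] at h1 ⊢; linarith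
    have h3 := hRmin s h2
    rw [dist_comm, dist_eq_norm] at h3
    linarith
  -- bounds
  obtain ⟨M, hM0, hM⟩ := exists_bound hm (show r / 4 < r by linarith)
  obtain ⟨B, hB0, hB⟩ := exists_bound hβ (show r / 4 < r by linarith)
  -- choice of `α`
  set α : ℝ := (2 + M ^ 2 + B * R + 1) * 2 / R ^ 2 with hα
  have hα0 : 0 < α := by positivity
  have hαR : 2 * α * (R / 2) ^ 2 = 2 + M ^ 2 + B * R + 1 := by
    rw [hα]; field_simp
  have hLh : ∀ s, R / 2 ≤ ‖s - c‖ → ‖s - c‖ ≤ R →
      0 < lin (m s) (hess (hopf α R c) s) + ip (β s) (grad (hopf α R c) s) := by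
    intro s h1 h2
    rw [hopf_lin]
    apply mul_pos (by positivity)
    have h3 := hM s (hnear s h2)
    have h4 := hB s (hnear s h2)
    have h5 : ip (β s) (s - c) ≤ B * R := by
      calc ip (β s) (s - c) ≤ ‖β s‖ * ‖s - c‖ := ip_le _ _
        _ ≤ B * R := by gcongr
    have h6 : ‖m s‖ ^ 2 ≤ M ^ 2 := by gcongr
    have h7 : 2 * α * (R / 2) ^ 2 ≤ 2 * α * (‖s - c‖ ^ 2 +
        ((m s).im * (s - c).re - (m s).re * (s - c).im) ^ 2) := by
      have : (R / 2) ^ 2 ≤ ‖s - c‖ ^ 2 := by gcongr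
      have h8 := sq_nonneg ((m s).im * (s - c).re - (m s).re * (s - c).im)
      apply mul_le_mul_of_nonneg_left _ (by positivity)
      linarith
    linarith
  have hcn : Continuous (fun s : ℂ => ‖s - c‖) := (continuous_id.sub continuous_const).norm
  -- the annulus
  set K : Set ℂ := {s | R / 2 ≤ ‖s - c‖ ∧ ‖s - c‖ ≤ R} with hK
  set O : Set ℂ := {s | R / 2 < ‖s - c‖ ∧ ‖s - c‖ < R} with hO
  have hKcomp : IsCompact K := by
    have h1 : IsCompact (closedBall c R) := isCompact_closedBall _ _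
    refine h1.of_isClosed_subset ?_ ?_
    · exact (isClosed_le continuous_const hcn).inter (isClosed_le hcn continuous_const)
    · intro s hs
      rw [mem_closedBall, dist_eq_norm]; exact hs.2
  have hOo : IsOpen O := (isOpen_lt continuous_const hcn).inter (isOpen_lt hcn continuous_const)
  -- lower bound on the inner circle
  obtain ⟨μ, hμ0, hμ⟩ : ∃ μ > 0, ∀ s, ‖s - c‖ ≤ R / 2 → μ ≤ v s := by
    have h1 : IsCompact (closedBall c (R / 2)) := isCompact_closedBall _ _
    have h2 : ContinuousOn v (closedBall c (R / 2)) := by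
      apply hvcont.mono
      intro s hs
      rw [mem_closedBall, dist_eq_norm] at hs
      have := hnear s (by linarith)
      rw [mem_closedBall_zero_iff] at this ⊢
      linarith
    obtain ⟨s₀, hs₀, hmin⟩ := h1.exists_isMinOn ⟨c, by simp; linarith⟩ h2
    refine ⟨v s₀, hpos s₀ ?_, ?_⟩
    · rw [mem_closedBall, dist_eq_norm] at hs₀; linarith
    · intro s hs
      exact hmin (by rw [mem_closedBall, dist_eq_norm]; exact hs)
  have hball : ∀ s, ‖s - c‖ ≤ R → s ∈ ball (0 : ℂ) r := by
    intro s hs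
    have := hnear s hs
    rw [mem_closedBall_zero_iff] at this
    rw [mem_ball_zero_iff]; linarith
  have hcomp : ∀ s ∈ K, 0 ≤ v s - μ * hopf α R c s := by
    apply comparison (m := m) (β := β) hKcomp hOo (fun s hs => ⟨hs.1.le, hs.2.le⟩)
    · apply ContinuousOn.sub
      · exact hv.continuousOn.mono fun s hs => hball s hs.2
      · exact (continuous_const.mul (contDiff_hopf α R c (n := 0)).continuous).continuousOn
    · intro s hs hsO
      by_cases h1 : ‖s - c‖ = R / 2
      · have h2 := hμ s h1.le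
        have h3 : hopf α R c s ≤ 1 := by
          unfold hopf
          have h4 : Real.exp (-α * ‖s - c‖ ^ 2) ≤ 1 := by
            apply Real.exp_le_one_iff.2
            have : 0 ≤ α * ‖s - c‖ ^ 2 := by positivity
            linarith
          have h5 := Real.exp_pos (-α * R ^ 2)
          linarith
        nlinarith
      · have h2 : ‖s - c‖ = R := by
          by_contra h3
          exact hsO ⟨lt_of_le_of_ne hs.1 (Ne.symm h1), lt_of_le_of_ne hs.2 h3⟩
        have h3 : hopf α R c s = 0 := by unfold hopf; rw [h2]; ring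
        rw [h3]
        have := hv0 s (hball s hs.2)
        linarith
    · intro s hs
      have h1 : ContDiffAt ℝ 2 v s := hv.contDiffAt (isOpen_ball.mem_nhds (hball s hs.2.le))
      exact h1.sub (contDiffAt_const.mul (contDiff_hopf α R c).contDiffAt)
    · intro s hs
      have h1 : ContDiffAt ℝ 2 v s := hv.contDiffAt (isOpen_ball.mem_nhds (hball s hs.2.le))
      have h2 : ContDiffAt ℝ 2 (hopf α R c) s := (contDiff_hopf α R c).contDiffAt
      rw [lin_sub_mul μ (m s) h1 h2, grad_sub_mul μ (h1.differentiableAt (by norm_num))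
        (h2.differentiableAt (by norm_num)), ip_sub_right, ip_ofReal_mul_right]
      have h3 := hL s (hball s hs.2.le)
      have h4 := hLh s hs.1.le hs.2.le
      nlinarith
  -- the derivative at `p`
  have hpc : ‖p - c‖ = R := by rw [hR, dist_comm, dist_eq_norm]
  have hpb : p ∈ ball (0 : ℂ) r := hball p hpc.le
  have hvp : ContDiffAt ℝ 2 v p := hv.contDiffAt (isOpen_ball.mem_nhds hpb)
  have hminp : IsLocalMin v p := by
    filter_upwards [isOpen_ball.mem_nhds hpb] with t ht
    rw [hpZ.2]; exact hv0 t ht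
  have hfd : fderiv ℝ v p = 0 := hminp.fderiv_eq_zero
  have hder : HasDerivAt (fun t : ℝ => v (p + t • (c - p))) 0 0 := by
    have h1 : DifferentiableAt ℝ v (p + (0 : ℝ) • (c - p)) := by
      simpa using hvp.differentiableAt (by norm_num)
    have h2 := hasDerivAt_line h1
    simpa [hfd] using h2
  set k : ℝ := μ * (Real.exp (-α * R ^ 2) * (α * R ^ 2)) with hk
  have hk0 : 0 < k := by positivity
  have hlow : ∀ t : ℝ, 0 < t → t < 1 / 2 → k * t ≤ v (p + t • (c - p)) := by
    intro t ht0 ht1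
    have e1 : ‖p + t • (c - p) - c‖ = (1 - t) * R := by
      have : p + t • (c - p) - c = (1 - t) • (p - c) := by
        simp only [Complex.real_smul]; push_cast; ring
      rw [this, norm_smul, hpc, Real.norm_eq_abs, abs_of_pos (by linarith)]
    have hin : p + t • (c - p) ∈ K := by
      constructor
      · rw [e1]; nlinarith
      · rw [e1]; nlinarith
    have h1 := hcomp _ hin
    have h2 : Real.exp (-α * R ^ 2) * (α * R ^ 2) * t ≤ hopf α R c (p + t • (c - p)) := by
      unfold hopf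
      rw [e1]
      have e2 : -α * ((1 - t) * R) ^ 2 = -α * R ^ 2 + α * R ^ 2 * (2 * t - t ^ 2) := by ring
      rw [e2, Real.exp_add]
      have h3 : α * R ^ 2 * (2 * t - t ^ 2) + 1 ≤ Real.exp (α * R ^ 2 * (2 * t - t ^ 2)) :=
        Real.add_one_le_exp _
      have h4 : α * R ^ 2 * t ≤ α * R ^ 2 * (2 * t - t ^ 2) := by
        apply mul_le_mul_of_nonneg_left _ (by positivity)
        nlinarith
      have h5 := Real.exp_pos (-α * R ^ 2)
      nlinarith
    have h6 : k * t ≤ μ * hopf α R c (p + t • (c - p)) := by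
      rw [hk]
      calc μ * (Real.exp (-α * R ^ 2) * (α * R ^ 2)) * t
          = μ * (Real.exp (-α * R ^ 2) * (α * R ^ 2) * t) := by ring
        _ ≤ _ := by gcongr
    linarith
  -- contradiction
  have h1 := hasDerivAt_iff_isLittleO.1 hder
  have h2 := (h1.def (half_pos hk0))
  obtain ⟨δ, hδ, hδ'⟩ := Metric.eventually_nhds_iff.1 h2
  set t : ℝ := min (δ / 2) (1 / 4) with ht
  have ht0 : 0 < t := lt_min (by linarith) (by norm_num)
  have ht1 : t < 1 / 2 := lt_of_le_of_lt (min_le_right _ _) (by norm_num)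
  have ht2 : t < δ := lt_of_le_of_lt (min_le_left _ _) (by linarith)
  have h3 := hδ' (y := t) (by rw [Real.dist_eq, sub_zero, abs_of_pos ht0]; exact ht2)
  have h4 := hlow t ht0 ht1
  simp only [zero_smul, add_zero, hpZ.2, sub_zero, smul_zero, Real.norm_eq_abs] at h3
  rw [abs_of_pos ht0] at h3
  have h5 := le_abs_self (v (p + t • (c - p)))
  nlinarith

end Cyl
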