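import Pool.Agent.Cyl.Base2

/-!
# ST1: lifting a partition of unity to the surface
-/

open MeasureTheory Set Filter Topology Metric
open scoped ContDiff Manifold

noncomputable section

namespace Cyl

universe u

namespace St1

/-- smooth partition of unity near a compact set, subordinate to small balls -/
theorem partition {Kc : Set E3} (hK : IsCompact Kc) {δ : ℝ} (hδ : 0 < δ) :
    ∃ (n : ℕ) (ρ : Fin n → E3 → ℝ) (c : Fin n → E3), (∀ k, ContDiff ℝ ∞ (ρ k)) ∧
      (∃ O : Set E3, IsOpen O ∧ Kc ⊆ O ∧ ∀ X ∈ O, ∑ k, ρ k X = 1) ∧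
      ∀ k, tsupport (ρ k) ⊆ ball (c k) δ := by
  obtain ⟨t, -, htf, hcov⟩ := hK.finite_cover_balls (half_pos hδ)
  set T : Finset E3 := htf.toFinset with hT
  set c : Fin T.card → E3 := fun k => (T.equivFin.symm k).1 with hc
  have hc' : ∀ x ∈ t, ∃ k, c k = x := by
    intro x hx
    have hx' : x ∈ T := by rw [hT]; simpa using hx
    refine ⟨T.equivFin ⟨x, hx'⟩, ?_⟩
    simp [hc]
  set s : Set E3 := ⋃ k, closedBall (c k) (δ / 2) with hs
  have hscl : IsClosed s := isClosed_iUnion_of_finite fun k => isClosed_closedBall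
  have hsU : s ⊆ ⋃ k, ball (c k) δ :=
    iUnion_mono fun k => closedBall_subset_ball (by linarith)
  obtain ⟨f, hf⟩ := SmoothPartitionOfUnity.exists_isSubordinate 𝓘(ℝ, E3) hscl
    (fun k => ball (c k) δ) (fun k => isOpen_ball) hsU
  refine ⟨T.card, fun k => f k, c, fun k => ?_, ⟨⋃ k, ball (c k) (δ / 2),
    isOpen_iUnion fun k => isOpen_ball, ?_, ?_⟩, fun k => hf k⟩
  · exact contMDiff_iff_contDiff.1 (f k).contMDiff
  · intro x hx
    have h1 := hcov hx
    rw [mem_iUnion₂] at h1
    obtain ⟨y, hy, hxy⟩ := h1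
    obtain ⟨k, rfl⟩ := hc' y hy
    exact mem_iUnion.2 ⟨k, hxy⟩
  · intro X hX
    have hXs : X ∈ s := by
      obtain ⟨k, hk⟩ := mem_iUnion.1 hX
      exact mem_iUnion.2 ⟨k, ball_subset_closedBall hk⟩
    have h1 := f.sum_eq_one hXs
    rwa [finsum_eq_sum_of_fintype] at h1

end St1

/-- ST1 -/
theorem ST1_holds : LiftPartitionStatement.{u} := by
  intro M _ _ _ f hf U hUo hUm hUi
  classical
  -- compact neighbourhoods and separation
  have hK : ∀ q, ∃ K, IsCompact K ∧ q ∈ interior K ∧ K ⊆ U q := fun q =>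
    exists_compact_subset (hUo q) (hUm q)
  choose K hKc hKi hKU using hK
  have hr : ∀ q, ∃ r > 0, ∀ q' ∈ K q, q' ∉ interior (K q) → r ≤ dist (f q') (f q) := by
    intro q
    have h1 : IsCompact (K q \ interior (K q)) := (hKc q).diff isOpen_interior
    have h2 : IsClosed (f '' (K q \ interior (K q))) := (h1.image hf).isClosed
    have h3 : f q ∈ (f '' (K q \ interior (K q)))ᶜ := by
      rintro ⟨q', ⟨hq1, hq2⟩, hq3⟩
      have := hUi q (hKU q hq1) (hUm q) hq3
      rw [this] at hq2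
      exact hq2 (hKi q)
    obtain ⟨r, hr, h4⟩ := Metric.isOpen_iff.1 h2.isOpen_compl (f q) h3
    refine ⟨r, hr, fun q' hq1 hq2 => ?_⟩
    by_contra hcon
    push Not at hcon
    exact h4 (mem_ball.2 hcon) ⟨q', ⟨hq1, hq2⟩, rfl⟩
  choose r hr0 hsep using hr
  -- finite cover of `M`
  set C : M → Set M := fun q => {q' | q' ∈ interior (K q) ∧ dist (f q') (f q) < r q / 2} with hC
  have hCo : ∀ q, IsOpen (C q) := fun q =>
    isOpen_interior.inter (isOpen_lt (hf.dist continuous_const) continuous_const)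
  obtain ⟨t, ht⟩ := isCompact_univ.elim_finite_subcover C hCo (by
    intro q _
    refine mem_iUnion.2 ⟨q, hKi q, ?_⟩
    rw [dist_self]
    exact half_pos (hr0 q))
  obtain ⟨δ, hδt, hδ⟩ : ∃ δ : ℝ, (∀ q ∈ t, 4 * δ < r q) ∧ 0 < δ := by
    have h1 : ∀ᶠ δ in 𝓝[>] (0 : ℝ), ∀ q ∈ t, 4 * δ < r q := by
      rw [Finset.eventually_all]
      intro q _
      apply nhdsWithin_le_nhds
      apply (isOpen_lt (continuous_const.mul continuous_id) continuous_const).mem_nhds
      change 4 * (0 : ℝ) < r q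
      have := hr0 q
      linarith
    exact (h1.and self_mem_nhdsWithin).exists
  obtain ⟨n, ρ, c, hρ, hO, hsupp⟩ := St1.partition (isCompact_range hf) hδ
  set Q : Fin t.card → M := fun i => (t.equivFin.symm i).1 with hQ
  have hQ' : ∀ q ∈ t, ∃ i, Q i = q := by
    intro q hq
    refine ⟨t.equivFin ⟨q, hq⟩, ?_⟩
    simp [hQ]
  have hQt : ∀ i, Q i ∈ t := fun i => (t.equivFin.symm i).2
  set valid : Fin n → Fin t.card → Prop := fun k i =>
    ball (c k) δ ⊆ ball (f (Q i)) (r (Q i)) with hvalid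
  set A : Fin n → Fin t.card → Set M := fun k i =>
    {q | valid k i ∧ q ∈ interior (K (Q i)) ∧ f q ∈ ball (c k) δ} with hA
  have hKint : ∀ k i q, valid k i → f q ∈ ball (c k) δ → q ∈ K (Q i) → q ∈ interior (K (Q i)) := by
    intro k i q hv hfq hq
    by_contra hcon
    have h1 := hsep (Q i) q hq hcon
    have h2 := mem_ball.1 (hv hfq)
    linarith
  have hAo : ∀ k i, IsOpen (A k i) := by
    intro k i
    by_cases hv : valid k i
    · have e : A k i = interior (K (Q i)) ∩ f ⁻¹' ball (c k) δ := by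
        ext q; simp [hA, hv]
      rw [e]
      exact isOpen_interior.inter (isOpen_ball.preimage hf)
    · have e : A k i = ∅ := by
        ext q; simp [hA, hv]
      rw [e]; exact isOpen_empty
  refine ⟨n, t.card, ρ, Q, fun k i => {q | q ∈ A k i ∧ ∀ j, j < i → q ∉ A k j}, hρ, ?_, ?_, ?_, ?_,
    ?_, ?_⟩
  · exact hO
  · -- open
    intro k i
    rw [isOpen_iff_mem_nhds]
    rintro q ⟨hq1, hq2⟩
    have h1 : ∀ᶠ q' in 𝓝 q, ∀ j, j < i → q' ∉ A k j := by
      rw [eventually_all]
      intro j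
      by_cases hj : j < i
      · by_cases hv : valid k j
        · have h3 : q ∉ K (Q j) := by
            intro h4
            exact hq2 j hj ⟨hv, hKint k j q hv hq1.2.2 h4, hq1.2.2⟩
          filter_upwards [(hKc (Q j)).isClosed.isOpen_compl.mem_nhds h3] with q' hq' _ h5
          exact hq' (interior_subset h5.2.1)
        · exact Eventually.of_forall fun q' _ h5 => hv h5.1
      · exact Eventually.of_forall fun q' h5 => absurd h5 hj
    filter_upwards [(hAo k i).mem_nhds hq1, h1] with q' h2 h3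
    exact ⟨h2, h3⟩
  · -- disjoint
    intro k i j hij
    rw [disjoint_left]
    rintro q ⟨h1, h2⟩ ⟨h3, h4⟩
    rcases lt_or_gt_of_ne hij with h | h
    · exact h4 i h h1
    · exact h2 j h h3
  · -- cover
    intro k q hq
    have hfq := hsupp k hq
    have hqm := ht (mem_univ q)
    rw [mem_iUnion₂] at hqm
    obtain ⟨q₀, hq₀, h1, h2⟩ := hqm
    obtain ⟨i₀, rfl⟩ := hQ' q₀ hq₀
    have hv : valid k i₀ := by
      intro y hy
      rw [mem_ball] at hy hfq ⊢
      have h3 := hδt _ hq₀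
      have h4 := dist_triangle4 y (c k) (f q) (f (Q i₀))
      rw [dist_comm (c k) (f q)] at h4
      linarith
    have hne : ∃ i, q ∈ A k i := ⟨i₀, hv, h1, hfq⟩
    have hfin : {i | q ∈ A k i}.Nonempty := hne
    obtain ⟨i, hi, hmin⟩ := WellFounded.has_min (wellFounded_lt (α := Fin t.card)) _ hfin
    exact ⟨i, hi, fun j hj hjA => hmin j hjA hj⟩
  · -- inside `U`
    rintro k i q ⟨h1, -⟩
    exact hKU _ (interior_subset h1.2.1)
  · -- compact
    intro k i
    apply IsClosed.isCompact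
    have e : {q | q ∈ {q | q ∈ A k i ∧ ∀ j, j < i → q ∉ A k j} ∧ f q ∈ tsupport (ρ k)} =
        (f ⁻¹' tsupport (ρ k)) ∩ ({q | valid k i ∧ q ∈ K (Q i)} ∩
          ⋂ j, {q | j < i → ¬ (valid k j ∧ q ∈ interior (K (Q j)))}) := by
      ext q
      simp only [mem_ofPred_eq, mem_inter_iff, mem_preimage, mem_iInter]
      constructor
      · rintro ⟨⟨h1, h2⟩, h3⟩
        refine ⟨h3, ⟨h1.1, interior_subset h1.2.1⟩, fun j hj h4 => ?_⟩
        exact h2 j hj ⟨h4.1, h4.2, hsupp k h3⟩
      · rintro ⟨h3, ⟨h1, h2⟩, h4⟩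
        refine ⟨⟨⟨h1, hKint k i q h1 (hsupp k h3) h2, hsupp k h3⟩, fun j hj h5 => ?_⟩, h3⟩
        exact h4 j hj ⟨h5.1, h5.2.1⟩
    rw [e]
    apply IsClosed.inter ((isClosed_tsupport _).preimage hf)
    apply IsClosed.inter
    · by_cases hv : valid k i
      · have e2 : {q | valid k i ∧ q ∈ K (Q i)} = K (Q i) := by ext q; simp [hv]
        rw [e2]; exact (hKc _).isClosed
      · have e2 : {q | valid k i ∧ q ∈ K (Q i)} = ∅ := by ext q; simp [hv]
        rw [e2]; exact isClosed_empty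
    · apply isClosed_iInter
      intro j
      by_cases hj : j < i ∧ valid k j
      · have e2 : {q | j < i → ¬ (valid k j ∧ q ∈ interior (K (Q j)))} =
            (interior (K (Q j)))ᶜ := by ext q; simp [hj.1, hj.2]
        rw [e2]; exact isOpen_interior.isClosed_compl
      · have e2 : {q | j < i → ¬ (valid k j ∧ q ∈ interior (K (Q j)))} = univ := by
          ext q
          simp only [mem_ofPred_eq, mem_univ, iff_true]
          intro h1 h2
          exact hj ⟨h1, h2.1⟩
        rw [e2]; exact isClosed_univ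

end Cyl
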