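import Pool.Agent.Cyl.Stmt3
import Pool.Agent.Cyl.Base

/-!
# Module ST2: Stokes' theorem on one patch
-/

open MeasureTheory Set Filter Topology Metric
open scoped ContDiff Manifold

noncomputable section

namespace Cyl

namespace Stk

/-! ### sheared coordinates -/

/-- sheared coordinates -/
def sh (β : ℝ → ℝ) (z : ℝ × ℝ) : ℂ := ⟨z.1, β z.1 + z.2⟩

theorem sh_eq (β : ℝ → ℝ) (z : ℝ × ℝ) :
    sh β z = (z.1 : ℂ) + ((β z.1 + z.2 : ℝ) : ℂ) * Complex.I := by
  apply Complex.ext <;> simp [sh]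

/-- sheared coordinates as a homeomorphism -/
def shHomeo (β : ℝ → ℝ) (hβ : Continuous β) : ℝ × ℝ ≃ₜ ℂ where
  toFun := sh β
  invFun := fun s => (s.re, s.im - β s.re)
  left_inv := by intro z; simp [sh]
  right_inv := by intro s; apply Complex.ext <;> simp [sh]
  continuous_toFun := by
    have h : sh β = fun z => (z.1 : ℂ) + ((β z.1 + z.2 : ℝ) : ℂ) * Complex.I :=
      funext (sh_eq β)
    show Continuous (sh β)
    rw [h]
    fun_prop
  continuous_invFun := by
    have h1 := Complex.continuous_re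
    have h2 := Complex.continuous_im
    exact h1.prodMk (h2.sub (hβ.comp h1))

theorem sh_continuous (β : ℝ → ℝ) (hβ : Continuous β) : Continuous (sh β) :=
  (shHomeo β hβ).continuous

theorem sh_mp (β : ℝ → ℝ) (hβ : Continuous β) : MeasurePreserving (sh β) volume volume := by
  have h1 : MeasurePreserving (fun z : ℝ × ℝ => (z.1, β z.1 + z.2))
      ((volume : Measure ℝ).prod volume) ((volume : Measure ℝ).prod volume) := by
    refine (MeasurePreserving.id (volume : Measure ℝ)).skew_product (g := fun t h => β t + h) ?_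
      (Eventually.of_forall fun t => ?_)
    · exact ((hβ.comp continuous_fst).add continuous_snd).measurable
    · exact (measurePreserving_add_left (volume : Measure ℝ) (β t)).map_eq
  exact (Complex.volume_preserving_equiv_real_prod.symm).comp h1

theorem sh_deriv_fst {β : ℝ → ℝ} (hβ : Differentiable ℝ β) (t h : ℝ) :
    HasDerivAt (fun t => sh β (t, h)) (1 + ((deriv β t : ℝ) : ℂ) * Complex.I) t := by
  have e : (fun t => sh β (t, h)) = fun t : ℝ => (t : ℂ) + ((β t + h : ℝ) : ℂ) * Complex.I :=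
    funext fun t => sh_eq β (t, h)
  rw [e]
  have h1 : HasDerivAt (fun t : ℝ => (t : ℂ)) 1 t := Complex.ofRealCLM.hasDerivAt
  have h2 : HasDerivAt (fun t : ℝ => β t + h) (deriv β t) t :=
    (hβ t).hasDerivAt.add_const h
  exact h1.add ((h2.ofReal_comp).mul_const Complex.I)

theorem sh_deriv_snd (β : ℝ → ℝ) (t h : ℝ) :
    HasDerivAt (fun h => sh β (t, h)) Complex.I h := by
  have e : (fun h => sh β (t, h)) = fun h : ℝ => (t : ℂ) + ((β t + h : ℝ) : ℂ) * Complex.I :=
    funext fun h => sh_eq β (t, h)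
  rw [e]
  have h2 : HasDerivAt (fun h : ℝ => β t + h) 1 h := (hasDerivAt_id h).const_add (β t)
  simpa using ((h2.ofReal_comp).mul_const Complex.I).const_add (t : ℂ)

theorem comp_fst {β : ℝ → ℝ} (hβ : Differentiable ℝ β) {P : ℂ → ℝ} (hP : Differentiable ℝ P)
    (t h : ℝ) : HasDerivAt (fun t => P (sh β (t, h)))
      (d1 P (sh β (t, h)) + deriv β t * d2 P (sh β (t, h))) t := by
  have h1 := (hP (sh β (t, h))).hasFDerivAt.comp_hasDerivAt t (sh_deriv_fst hβ t h)
  refine h1.congr_deriv ?_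
  have e : ((deriv β t : ℝ) : ℂ) * Complex.I = deriv β t • Complex.I := by simp
  rw [e, map_add, map_smul, smul_eq_mul]
  rfl

theorem comp_snd (β : ℝ → ℝ) {P : ℂ → ℝ} (hP : Differentiable ℝ P)
    (t h : ℝ) : HasDerivAt (fun h => P (sh β (t, h))) (d2 P (sh β (t, h))) h :=
  (hP (sh β (t, h))).hasFDerivAt.comp_hasDerivAt h (sh_deriv_snd β t h)

theorem continuous_d1 {P : ℂ → ℝ} (hP : ContDiff ℝ 1 P) : Continuous (d1 P) :=
  (hP.continuous_fderiv one_ne_zero).clm_apply continuous_const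

theorem continuous_d2 {P : ℂ → ℝ} (hP : ContDiff ℝ 1 P) : Continuous (d2 P) :=
  (hP.continuous_fderiv one_ne_zero).clm_apply continuous_const

/-- a continuous function of compact support in sheared coordinates -/
theorem hcs_comp {β : ℝ → ℝ} (hβ : Continuous β) {P : ℂ → ℝ} (cP : HasCompactSupport P) :
    HasCompactSupport (fun z => P (sh β z)) :=
  cP.comp_homeomorph (shHomeo β hβ)

theorem hcs_fst {β : ℝ → ℝ} (hβ : Continuous β) {P : ℂ → ℝ} (cP : HasCompactSupport P) (h : ℝ) :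
    HasCompactSupport (fun t => P (sh β (t, h))) := by
  have h1 := hcs_comp hβ cP
  refine HasCompactSupport.intro (K := Prod.fst '' tsupport (fun z => P (sh β z)))
    (h1.isCompact.image continuous_fst) ?_
  intro t ht
  by_contra hne
  exact ht ⟨(t, h), subset_tsupport _ hne, rfl⟩

theorem hcs_snd {β : ℝ → ℝ} (hβ : Continuous β) {P : ℂ → ℝ} (cP : HasCompactSupport P) (t : ℝ) :
    HasCompactSupport (fun h => P (sh β (t, h))) := by
  have h1 := hcs_comp hβ cP
  refine HasCompactSupport.intro (K := Prod.snd '' tsupport (fun z => P (sh β z)))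
    (h1.isCompact.image continuous_snd) ?_
  intro h hh
  by_contra hne
  exact hh ⟨(t, h), subset_tsupport _ hne, rfl⟩

/-- Stokes' theorem above a graph -/
theorem half_stokes {P Q : ℂ → ℝ} (hP : ContDiff ℝ 1 P) (hQ : ContDiff ℝ 1 Q)
    (cP : HasCompactSupport P) (cQ : HasCompactSupport Q) {β : ℝ → ℝ} (hβ : ContDiff ℝ ∞ β) :
    ∫ s in {s : ℂ | β s.re ≤ s.im}, (d1 P s + d2 Q s) =
      ∫ t, (deriv β t * P ⟨t, β t⟩ - Q ⟨t, β t⟩) := by
  have bc : Continuous β := hβ.continuous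
  have bd : Differentiable ℝ β := hβ.differentiable (by simp)
  have bdc : Continuous (deriv β) := hβ.continuous_deriv (by simp)
  have Pd : Differentiable ℝ P := hP.differentiable one_ne_zero
  have Qd : Differentiable ℝ Q := hQ.differentiable one_ne_zero
  have cd1P : HasCompactSupport (d1 P) := cP.fderiv_apply ℝ 1
  have cd2P : HasCompactSupport (d2 P) := cP.fderiv_apply ℝ Complex.I
  have cd2Q : HasCompactSupport (d2 Q) := cQ.fderiv_apply ℝ Complex.I
  have shc := sh_continuous β bc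
  -- change of variables
  have e0 : ∫ s in {s : ℂ | β s.re ≤ s.im}, (d1 P s + d2 Q s) =
      ∫ z, (d1 P (sh β z) + d2 Q (sh β z)) ∂((volume : Measure ℝ).prod
        (volume.restrict (Ioi (0 : ℝ)))) := by
    have h1 := (sh_mp β bc).setIntegral_preimage_emb
      (shHomeo β bc).measurableEmbedding (fun s => d1 P s + d2 Q s) {s : ℂ | β s.re ≤ s.im}
    rw [← h1]
    have h2 : sh β ⁻¹' {s : ℂ | β s.re ≤ s.im} = univ ×ˢ Ici (0 : ℝ) := by
      ext z
      simp [sh]
    rw [h2]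
    have h3 : (volume : Measure (ℝ × ℝ)).restrict (univ ×ˢ Ici (0 : ℝ)) =
        (volume : Measure ℝ).prod (volume.restrict (Ioi (0 : ℝ))) := by
      have h4 := Measure.prod_restrict (μ := (volume : Measure ℝ)) (ν := (volume : Measure ℝ))
        univ (Ici (0 : ℝ))
      rw [Measure.restrict_univ] at h4
      rw [restrict_Ioi_eq_restrict_Ici, h4]
      rfl
    rw [h3]
  rw [e0]
  -- the two parts
  have c1 : Continuous (fun z : ℝ × ℝ => d1 P (sh β z) + deriv β z.1 * d2 P (sh β z)) :=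
    ((continuous_d1 hP).comp shc).add ((bdc.comp continuous_fst).mul ((continuous_d2 hP).comp shc))
  have c2 : Continuous (fun z : ℝ × ℝ => d2 Q (sh β z) - deriv β z.1 * d2 P (sh β z)) :=
    ((continuous_d2 hQ).comp shc).sub ((bdc.comp continuous_fst).mul ((continuous_d2 hP).comp shc))
  have s1 : HasCompactSupport (fun z : ℝ × ℝ => d1 P (sh β z) + deriv β z.1 * d2 P (sh β z)) :=
    (hcs_comp bc cd1P).add (hcs_comp bc cd2P).mul_left
  have s2 : HasCompactSupport (fun z : ℝ × ℝ => d2 Q (sh β z) - deriv β z.1 * d2 P (sh β z)) := by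
    have h := (hcs_comp bc cd2Q).add
      ((hcs_comp bc cd2P).mul_left (f := fun z : ℝ × ℝ => - deriv β z.1))
    have e : (fun z : ℝ × ℝ => d2 Q (sh β z) - deriv β z.1 * d2 P (sh β z)) =
        (fun z => d2 Q (sh β z)) + (fun z : ℝ × ℝ => - deriv β z.1) * fun z => d2 P (sh β z) := by
      funext z
      simp only [Pi.add_apply, Pi.mul_apply]
      ring
    rw [e]
    exact h
  have i1 : Integrable (fun z : ℝ × ℝ => d1 P (sh β z) + deriv β z.1 * d2 P (sh β z))
      ((volume : Measure ℝ).prod (volume.restrict (Ioi (0 : ℝ)))) := by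
    have h := c1.integrable_of_hasCompactSupport (μ := (volume : Measure (ℝ × ℝ))) s1
    refine h.mono_measure ?_
    exact Measure.prod_mono le_rfl Measure.restrict_le_self
  have i2 : Integrable (fun z : ℝ × ℝ => d2 Q (sh β z) - deriv β z.1 * d2 P (sh β z))
      ((volume : Measure ℝ).prod (volume.restrict (Ioi (0 : ℝ)))) := by
    have h := c2.integrable_of_hasCompactSupport (μ := (volume : Measure (ℝ × ℝ))) s2
    refine h.mono_measure ?_
    exact Measure.prod_mono le_rfl Measure.restrict_le_self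
  have e1 : ∀ z : ℝ × ℝ, d1 P (sh β z) + d2 Q (sh β z) =
      (d1 P (sh β z) + deriv β z.1 * d2 P (sh β z)) +
        (d2 Q (sh β z) - deriv β z.1 * d2 P (sh β z)) := by
    intro z; ring
  simp only [e1]
  rw [integral_add i1 i2, integral_prod_symm _ i1, integral_prod _ i2]
  have z1 : ∀ h : ℝ, ∫ t, (d1 P (sh β (t, h)) + deriv β t * d2 P (sh β (t, h))) = 0 := by
    intro h
    refine integral_eq_zero_of_hasDerivAt_of_integrable (f := fun t => P (sh β (t, h)))
      (fun t => comp_fst bd Pd t h) ?_ ?_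
    · refine Continuous.integrable_of_hasCompactSupport
        (c1.comp (continuous_id.prodMk continuous_const)) ?_
      exact (hcs_fst bc cd1P h).add (hcs_fst bc cd2P h).mul_left
    · exact Continuous.integrable_of_hasCompactSupport
        (hP.continuous.comp (shc.comp (continuous_id.prodMk continuous_const)))
        (hcs_fst bc cP h)
  have z2 : ∀ t : ℝ, ∫ h in Ioi (0 : ℝ), (d2 Q (sh β (t, h)) - deriv β t * d2 P (sh β (t, h))) =
      deriv β t * P ⟨t, β t⟩ - Q ⟨t, β t⟩ := by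
    intro t
    have h1 : ∀ h, HasDerivAt (fun h => Q (sh β (t, h)) - deriv β t * P (sh β (t, h)))
        (d2 Q (sh β (t, h)) - deriv β t * d2 P (sh β (t, h))) h := fun h =>
      (comp_snd β Qd t h).sub ((comp_snd β Pd t h).const_mul _)
    have h2 : Continuous (fun h : ℝ => d2 Q (sh β (t, h)) - deriv β t * d2 P (sh β (t, h))) :=
      c2.comp (continuous_const.prodMk continuous_id)
    have h3 : HasCompactSupport (fun h : ℝ => Q (sh β (t, h)) - deriv β t * P (sh β (t, h))) := by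
      have h := (hcs_snd bc cQ t).add
        ((hcs_snd bc cP t).mul_left (f := fun _ : ℝ => - deriv β t))
      have e : (fun h : ℝ => Q (sh β (t, h)) - deriv β t * P (sh β (t, h))) =
          (fun h => Q (sh β (t, h))) + (fun _ : ℝ => - deriv β t) *
            fun h => P (sh β (t, h)) := by
        funext z
        simp only [Pi.add_apply, Pi.mul_apply]
        ring
      rw [e]
      exact h
    have h4 : deriv (fun h => Q (sh β (t, h)) - deriv β t * P (sh β (t, h))) =
        fun h => d2 Q (sh β (t, h)) - deriv β t * d2 P (sh β (t, h)) :=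
      funext fun h => (h1 h).deriv
    have h5 : ContDiff ℝ 1 (fun h => Q (sh β (t, h)) - deriv β t * P (sh β (t, h))) := by
      rw [contDiff_one_iff_deriv]
      refine ⟨fun h => (h1 h).differentiableAt, ?_⟩
      rw [h4]
      exact h2
    have h6 := h3.integral_Ioi_deriv_eq h5 0
    rw [h4] at h6
    rw [h6]
    simp [sh]
  simp only [z1, z2, integral_zero, zero_add]

/-! ### the functions on the patch -/

section patch

variable {r : ℝ} {g : ℂ → ℝ} {F : Frame} {p : E3} {Y' : ℂ → ℂ} {ρ : E3 → ℝ}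

theorem contDiffOn_dir (hg : ContDiffOn ℝ ∞ g (ball 0 r)) (v : ℂ) :
    ContDiffOn ℝ ∞ (fun s => fderiv ℝ g s v) (ball 0 r) :=
  (hg.fderiv_of_isOpen isOpen_ball (m := ∞) (by simp)).clm_apply contDiffOn_const

/-- derivative of the parametrisation -/
theorem pt_hasFDerivAt (hg : ContDiffOn ℝ ∞ g (ball 0 r)) {s : ℂ} (hs : s ∈ ball (0 : ℂ) r) :
    HasFDerivAt (F.pt p g) (Complex.reCLM.smulRight F.a + Complex.imCLM.smulRight F.b +
      (fderiv ℝ g s).smulRight F.n) s := by
  have h1 : HasFDerivAt g (fderiv ℝ g s) s :=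
    ((hg.differentiableOn (by simp)).differentiableAt (isOpen_ball.mem_nhds hs)).hasFDerivAt
  have h2 := (((Complex.reCLM.hasFDerivAt (x := s)).smul_const F.a).const_add p).add
    ((Complex.imCLM.hasFDerivAt (x := s)).smul_const F.b)
  exact h2.add (h1.smul_const F.n)

theorem pt_contDiffOn (hg : ContDiffOn ℝ ∞ g (ball 0 r)) :
    ContDiffOn ℝ ∞ (F.pt p g) (ball 0 r) := by
  have h1 : ContDiff ℝ ∞ (fun s : ℂ => p + s.re • F.a + s.im • F.b) :=
    (contDiff_const.add (Complex.reCLM.contDiff.smul contDiff_const)).add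
      (Complex.imCLM.contDiff.smul contDiff_const)
  exact h1.contDiffOn.add (hg.smul contDiffOn_const)

/-- the pulled back function -/
def chi (F : Frame) (p : E3) (g : ℂ → ℝ) (ρ : E3 → ℝ) (s : ℂ) : ℝ := ρ (F.pt p g s)

theorem chi_contDiffOn (hg : ContDiffOn ℝ ∞ g (ball 0 r)) (hρ : ContDiff ℝ ∞ ρ) :
    ContDiffOn ℝ ∞ (chi F p g ρ) (ball 0 r) :=
  hρ.comp_contDiffOn (pt_contDiffOn hg)

theorem d1_chi (hg : ContDiffOn ℝ ∞ g (ball 0 r)) (hρ : ContDiff ℝ ∞ ρ) {s : ℂ}
    (hs : s ∈ ball (0 : ℂ) r) : d1 (chi F p g ρ) s = fderiv ℝ ρ (F.pt p g s) (F.X1 g s) := by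
  have h := ((hρ.differentiable (by simp) (F.pt p g s)).hasFDerivAt.comp s
    (pt_hasFDerivAt (F := F) (p := p) hg hs)).fderiv
  have e : (ρ ∘ F.pt p g) = chi F p g ρ := rfl
  rw [e] at h
  unfold d1
  rw [h]
  simp [Frame.X1, d1]

theorem d2_chi (hg : ContDiffOn ℝ ∞ g (ball 0 r)) (hρ : ContDiff ℝ ∞ ρ) {s : ℂ}
    (hs : s ∈ ball (0 : ℂ) r) : d2 (chi F p g ρ) s = fderiv ℝ ρ (F.pt p g s) (F.X2 g s) := by
  have h := ((hρ.differentiable (by simp) (F.pt p g s)).hasFDerivAt.comp s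
    (pt_hasFDerivAt (F := F) (p := p) hg hs)).fderiv
  have e : (ρ ∘ F.pt p g) = chi F p g ρ := rfl
  rw [e] at h
  unfold d2
  rw [h]
  simp [Frame.X2, d2]

/-- the first coefficient -/
def fA (F : Frame) (g : ℂ → ℝ) (Y' : ℂ → ℂ) (s : ℂ) : ℝ := ip (Y' s) (F.X1 g s).1

/-- the second coefficient -/
def fB (F : Frame) (g : ℂ → ℝ) (Y' : ℂ → ℂ) (s : ℂ) : ℝ := ip (Y' s) (F.X2 g s).1

theorem ip_contDiffOn {U : Set ℂ} {a b : ℂ → ℂ} (ha : ContDiffOn ℝ 1 a U)
    (hb : ContDiffOn ℝ 1 b U) : ContDiffOn ℝ 1 (fun s => ip (a s) (b s)) U := by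
  have r1 := Complex.reCLM.contDiff.comp_contDiffOn (n := 1) ha
  have r2 := Complex.reCLM.contDiff.comp_contDiffOn (n := 1) hb
  have i1 := Complex.imCLM.contDiff.comp_contDiffOn (n := 1) ha
  have i2 := Complex.imCLM.contDiff.comp_contDiffOn (n := 1) hb
  exact (r1.mul r2).add (i1.mul i2)

theorem fA_contDiffOn (hg : ContDiffOn ℝ ∞ g (ball 0 r)) (hY : ContDiffOn ℝ 1 Y' (ball 0 r)) :
    ContDiffOn ℝ 1 (fA F g Y') (ball 0 r) := by
  refine ip_contDiffOn hY ?_
  have h1 : ContDiffOn ℝ 1 (fun s => d1 g s) (ball 0 r) :=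
    (contDiffOn_dir hg 1).of_le (by exact_mod_cast le_top)
  have h2 : ContDiffOn ℝ 1 (fun s => F.a + d1 g s • F.n) (ball 0 r) :=
    contDiffOn_const.add (h1.smul contDiffOn_const)
  exact (ContinuousLinearMap.fst ℝ ℂ ℝ).contDiff.comp_contDiffOn h2

theorem fB_contDiffOn (hg : ContDiffOn ℝ ∞ g (ball 0 r)) (hY : ContDiffOn ℝ 1 Y' (ball 0 r)) :
    ContDiffOn ℝ 1 (fB F g Y') (ball 0 r) := by
  refine ip_contDiffOn hY ?_
  have h1 : ContDiffOn ℝ 1 (fun s => d2 g s) (ball 0 r) :=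
    (contDiffOn_dir hg Complex.I).of_le (by exact_mod_cast le_top)
  have h2 : ContDiffOn ℝ 1 (fun s => F.b + d2 g s • F.n) (ball 0 r) :=
    contDiffOn_const.add (h1.smul contDiffOn_const)
  exact (ContinuousLinearMap.fst ℝ ℂ ℝ).contDiff.comp_contDiffOn h2

end patch

/-- a product with a cut-off function is globally smooth -/
theorem cutoff_contDiff {U t : Set ℂ} {f η : ℂ → ℝ} (hU : IsOpen U) (ht : IsClosed t)
    (htU : t ⊆ U) (hf : ContDiffOn ℝ 1 f U) (hη : ContDiff ℝ ∞ η) (h0 : ∀ s ∉ t, η s = 0) :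
    ContDiff ℝ 1 (fun s => η s * f s) := by
  rw [contDiff_iff_contDiffAt]
  intro s
  by_cases hs : s ∈ t
  · exact ((hη.of_le (by exact_mod_cast le_top)).contDiffAt).mul
      (hf.contDiffAt (hU.mem_nhds (htU hs)))
  · have h1 : (fun s => η s * f s) =ᶠ[𝓝 s] fun _ => 0 := by
      filter_upwards [ht.isOpen_compl.mem_nhds hs] with x hx
      rw [h0 x hx, zero_mul]
    exact contDiffAt_const.congr_of_eventuallyEq h1

theorem cutoff_hcs {t : Set ℂ} {f η : ℂ → ℝ} (ht : IsCompact t) (h0 : ∀ s ∉ t, η s = 0) :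
    HasCompactSupport (fun s => η s * f s) :=
  HasCompactSupport.intro ht fun s hs => by rw [h0 s hs, zero_mul]

/-- cut-off functions -/
theorem exists_cutoff {K U : Set ℂ} (hK : IsCompact K) (hU : IsOpen U) (hKU : K ⊆ U) :
    ∃ (t : Set ℂ) (η : ℂ → ℝ), IsCompact t ∧ t ⊆ U ∧ ContDiff ℝ ∞ η ∧
      (∀ s ∈ K, ∀ᶠ x in 𝓝 s, η x = 1) ∧ ∀ s ∉ t, η s = 0 := by
  obtain ⟨t, ht, hKt, htU⟩ := exists_compact_between hK hU hKU
  obtain ⟨η, h1, h2, -⟩ := exists_contMDiffMap_one_nhds_of_subset_interior (n := ⊤)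
    𝓘(ℝ, ℂ) hK.isClosed hKt
  refine ⟨t, η, ht, htU, η.contMDiff.contDiff, ?_, h2⟩
  intro s hs
  exact (Filter.eventually_of_mem (mem_nhdsSet_iff_forall.1 h1 s hs) fun _ h => h)

/-- the integrand -/
def stg (F : Frame) (p : E3) (g : ℂ → ℝ) (Y' : ℂ → ℂ) (ρ : E3 → ℝ) (s : ℂ) : ℝ :=
  fderiv ℝ ρ (F.pt p g s) (F.X1 g s) * ip (Y' s) (F.X2 g s).1
    - fderiv ℝ ρ (F.pt p g s) (F.X2 g s) * ip (Y' s) (F.X1 g s).1

theorem stokes_half (r : ℝ) (g : ℂ → ℝ) (F : Frame) (p : E3) (β : ℝ → ℝ) (O O' : Set ℂ)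
    (Y' : ℂ → ℂ) (ρ : E3 → ℝ) (hg : ContDiffOn ℝ ∞ g (ball 0 r))
    (hY : ContDiffOn ℝ 1 Y' (ball 0 r)) (hρ : ContDiff ℝ ∞ ρ) (hβ : ContDiff ℝ ∞ β)
    (hO' : IsOpen O') (hO : O = O' ∩ halfDisc r β)
    (hK : IsCompact {s | s ∈ O ∧ F.pt p g s ∈ tsupport ρ})
    (hcl : ∀ s ∈ halfDisc r β, d1 (fB F g Y') s = d2 (fA F g Y') s) :
    ∫ s in O, stg F p g Y' ρ s =
      ∫ t in {t : ℝ | (⟨t, β t⟩ : ℂ) ∈ O}, ρ (F.pt p g ⟨t, β t⟩) *
        ip (Y' ⟨t, β t⟩) (F.X1 g ⟨t, β t⟩ + deriv β t • F.X2 g ⟨t, β t⟩).1 := by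
  have hKU : {s | s ∈ O ∧ F.pt p g s ∈ tsupport ρ} ⊆ O' ∩ ball 0 r := by
    rintro s ⟨hs, -⟩
    rw [hO] at hs
    exact ⟨hs.1, hs.2.1⟩
  obtain ⟨t, η, ht, htU, hη, h1, h0⟩ := exists_cutoff hK (hO'.inter isOpen_ball) hKU
  have htb : t ⊆ ball 0 r := htU.trans inter_subset_right
  have hχ1 : ContDiffOn ℝ 1 (chi F p g ρ) (ball 0 r) :=
    (chi_contDiffOn hg hρ).of_le (by exact_mod_cast le_top)
  have hA := fA_contDiffOn (F := F) hg hY
  have hB := fB_contDiffOn (F := F) hg hY
  obtain ⟨P, hPdef⟩ : ∃ P : ℂ → ℝ, P = fun s => η s * (chi F p g ρ s * fB F g Y' s) := ⟨_, rfl⟩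
  obtain ⟨Q, hQdef⟩ : ∃ Q : ℂ → ℝ, Q = fun s => η s * (-(chi F p g ρ s * fA F g Y' s)) :=
    ⟨_, rfl⟩
  have hP : ContDiff ℝ 1 P := by
    rw [hPdef]
    exact cutoff_contDiff isOpen_ball ht.isClosed htb (hχ1.mul hB) hη h0
  have hQ : ContDiff ℝ 1 Q := by
    rw [hQdef]
    exact cutoff_contDiff isOpen_ball ht.isClosed htb (hχ1.mul hA).neg hη h0
  have cP : HasCompactSupport P := by rw [hPdef]; exact cutoff_hcs ht h0
  have cQ : HasCompactSupport Q := by rw [hQdef]; exact cutoff_hcs ht h0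
  have P0 : ∀ s ∉ t, P s = 0 := fun s hs => by rw [hPdef]; simp only [h0 s hs, zero_mul]
  have Q0 : ∀ s ∉ t, Q s = 0 := fun s hs => by rw [hQdef]; simp only [h0 s hs, zero_mul]
  have dz : ∀ s ∉ t, d1 P s + d2 Q s = 0 := by
    intro s hs
    have e1 : P =ᶠ[𝓝 s] fun _ => 0 := by
      filter_upwards [ht.isClosed.isOpen_compl.mem_nhds hs] with x hx using P0 x hx
    have e2 : Q =ᶠ[𝓝 s] fun _ => 0 := by
      filter_upwards [ht.isClosed.isOpen_compl.mem_nhds hs] with x hx using Q0 x hx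
    unfold d1 d2
    rw [e1.fderiv_eq, e2.fderiv_eq]
    simp
  -- pointwise identity
  have key : ∀ s ∈ halfDisc r β, O'.indicator (stg F p g Y' ρ) s = d1 P s + d2 Q s := by
    intro s hs
    have hsb : s ∈ ball (0 : ℂ) r := hs.1
    by_cases hsO : s ∈ O'
    · rw [indicator_of_mem hsO]
      by_cases hsK : F.pt p g s ∈ tsupport ρ
      · have hsK' : s ∈ {s | s ∈ O ∧ F.pt p g s ∈ tsupport ρ} := by
          refine ⟨?_, hsK⟩
          rw [hO]
          exact ⟨hsO, hs⟩
        have e1 : P =ᶠ[𝓝 s] fun x => chi F p g ρ x * fB F g Y' x := by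
          filter_upwards [h1 s hsK'] with x hx
          rw [hPdef]
          simp only [hx, one_mul]
        have e2 : Q =ᶠ[𝓝 s] fun x => -(chi F p g ρ x * fA F g Y' x) := by
          filter_upwards [h1 s hsK'] with x hx
          rw [hQdef]
          simp only [hx, one_mul]
        have nb := isOpen_ball.mem_nhds hsb
        have dχ : DifferentiableAt ℝ (chi F p g ρ) s :=
          (hχ1.differentiableOn one_ne_zero).differentiableAt nb
        have dA : DifferentiableAt ℝ (fA F g Y') s :=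
          (hA.differentiableOn one_ne_zero).differentiableAt nb
        have dB : DifferentiableAt ℝ (fB F g Y') s :=
          (hB.differentiableOn one_ne_zero).differentiableAt nb
        have f1 : d1 P s = chi F p g ρ s * d1 (fB F g Y') s
            + fB F g Y' s * d1 (chi F p g ρ) s := by
          unfold d1
          rw [e1.fderiv_eq, fderiv_fun_mul dχ dB]
          simp
        have f2 : d2 Q s = -(chi F p g ρ s * d2 (fA F g Y') s
            + fA F g Y' s * d2 (chi F p g ρ) s) := by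
          unfold d2
          rw [e2.fderiv_eq, fderiv_fun_neg, fderiv_fun_mul dχ dA]
          simp
        rw [f1, f2, hcl s hs, d1_chi hg hρ hsb, d2_chi hg hρ hsb]
        unfold stg fA fB
        ring
      · have h2 : ∀ᶠ x in 𝓝 s, F.pt p g x ∉ tsupport ρ := by
          have hc : ContinuousAt (F.pt p g) s := (pt_hasFDerivAt hg hsb).continuousAt
          exact hc.eventually ((isClosed_tsupport ρ).isOpen_compl.mem_nhds hsK)
        have e1 : P =ᶠ[𝓝 s] fun _ => 0 := by
          filter_upwards [h2] with x hx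
          rw [hPdef]
          simp only [chi, image_eq_zero_of_notMem_tsupport hx, zero_mul, mul_zero]
        have e2 : Q =ᶠ[𝓝 s] fun _ => 0 := by
          filter_upwards [h2] with x hx
          rw [hQdef]
          simp only [chi, image_eq_zero_of_notMem_tsupport hx, zero_mul, mul_zero, neg_zero]
        have e3 : fderiv ℝ ρ (F.pt p g s) = 0 := by
          by_contra hne
          exact hsK (support_fderiv_subset ℝ (Function.mem_support.2 hne))
        unfold stg d1 d2
        rw [e1.fderiv_eq, e2.fderiv_eq, e3]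
        simp
    · rw [indicator_of_notMem hsO, dz s (fun h => hsO (htU h).1)]
  have mH : MeasurableSet {s : ℂ | β s.re ≤ s.im} :=
    (isClosed_le (hβ.continuous.comp Complex.continuous_re) Complex.continuous_im).measurableSet
  have mD : MeasurableSet (halfDisc r β) := by
    have : halfDisc r β = ball 0 r ∩ {s : ℂ | β s.re ≤ s.im} := rfl
    rw [this]
    exact isOpen_ball.measurableSet.inter mH
  have mO : MeasurableSet O := by
    rw [hO]
    exact hO'.measurableSet.inter mD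
  have c1 : ∫ s in O, stg F p g Y' ρ s = ∫ s in halfDisc r β, (d1 P s + d2 Q s) := by
    rw [← setIntegral_congr_fun mD key, setIntegral_indicator hO'.measurableSet, hO, inter_comm]
  have c2 : ∫ s in {s : ℂ | β s.re ≤ s.im}, (d1 P s + d2 Q s) =
      ∫ s in halfDisc r β, (d1 P s + d2 Q s) := by
    refine setIntegral_eq_of_subset_of_forall_sdiff_eq_zero mH (fun s hs => hs.2) ?_
    rintro s ⟨hs1, hs2⟩
    refine dz s (fun h => hs2 ⟨htb h, hs1⟩)
  rw [c1, ← c2, half_stokes hP hQ cP cQ hβ]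
  have cβ : Continuous (fun t : ℝ => (⟨t, β t⟩ : ℂ)) := by
    have e : (fun t : ℝ => (⟨t, β t⟩ : ℂ)) = fun t => sh β (t, 0) := by
      funext t
      simp [sh]
    rw [e]
    exact (sh_continuous β hβ.continuous).comp (continuous_id.prodMk continuous_const)
  have mT : MeasurableSet {t : ℝ | (⟨t, β t⟩ : ℂ) ∈ O} := cβ.measurable mO
  have out : ∀ t : ℝ, t ∉ {t : ℝ | (⟨t, β t⟩ : ℂ) ∈ O} →
      deriv β t * P ⟨t, β t⟩ - Q ⟨t, β t⟩ = 0 := by
    intro t' ht'
    have hnt : (⟨t', β t'⟩ : ℂ) ∉ t := by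
      intro h
      apply ht'
      show (⟨t', β t'⟩ : ℂ) ∈ O
      rw [hO]
      exact ⟨(htU h).1, htb h, le_refl (β t')⟩
    rw [P0 _ hnt, Q0 _ hnt]
    ring
  rw [← setIntegral_eq_integral_of_forall_compl_eq_zero out]
  refine setIntegral_congr_fun mT fun t' ht' => ?_
  have hsO : (⟨t', β t'⟩ : ℂ) ∈ O := ht'
  by_cases hsK : F.pt p g ⟨t', β t'⟩ ∈ tsupport ρ
  · have hη1 : η ⟨t', β t'⟩ = 1 := (h1 _ ⟨hsO, hsK⟩).self_of_nhds
    rw [hPdef, hQdef]
    simp only [hη1, one_mul]
    have e : ip (Y' ⟨t', β t'⟩) (F.X1 g ⟨t', β t'⟩ + deriv β t' • F.X2 g ⟨t', β t'⟩).1 =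
        fA F g Y' ⟨t', β t'⟩ + deriv β t' * fB F g Y' ⟨t', β t'⟩ := by
      rw [Prod.fst_add, Prod.smul_fst, ip_add_right, ip_smul_right]
      rfl
    rw [e]
    unfold chi
    ring
  · have e : ρ (F.pt p g ⟨t', β t'⟩) = 0 := image_eq_zero_of_notMem_tsupport hsK
    rw [hPdef, hQdef]
    simp only [chi, e]
    ring

end Stk

open Stk in
theorem ST2_holds : PlanarStokesStatement := by
  intro r g F p R O O' Y' ρ hr hg hY hρ hO' hO hK hcl
  refine ⟨fun hR => ?_, fun β hβ hR => ?_⟩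
  · have hR' : R = halfDisc r (fun _ => -r) := by
      rw [hR]
      ext s
      constructor
      · intro hs
        refine ⟨hs, ?_⟩
        have h1 : |s.im| ≤ ‖s‖ := Complex.abs_im_le_norm s
        have h2 : ‖s‖ < r := by simpa using hs
        have h3 := neg_abs_le s.im
        show -r ≤ s.im
        linarith
      · intro hs
        exact hs.1
    have h := stokes_half r g F p (fun _ => -r) O O' Y' ρ hg hY hρ contDiff_const hO'
      (by rw [← hR']; exact hO) hK (by rw [← hR']; exact hcl)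
    have he : {t : ℝ | (⟨t, (fun _ : ℝ => -r) t⟩ : ℂ) ∈ O} = ∅ := by
      ext t
      simp only [mem_ofPred_eq, mem_empty_iff_false, iff_false]
      intro ht
      rw [hO, hR] at ht
      have h1 : |(-r : ℝ)| ≤ ‖(⟨t, -r⟩ : ℂ)‖ := Complex.abs_im_le_norm ⟨t, -r⟩
      have h2 : ‖(⟨t, -r⟩ : ℂ)‖ < r := by simpa using ht.2
      rw [abs_neg, abs_of_pos hr] at h1
      linarith
    rw [he, Measure.restrict_empty, integral_zero_measure] at h
    exact h
  · subst hR
    exact stokes_half r g F p β O O' Y' ρ hg hY hρ hβ hO' hO hK hcl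

end Cyl
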