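import Pool.Agent.Cyl.Stmt3
import Pool.Agent.Cyl.Base

open MeasureTheory Set Filter Topology Metric
open scoped ContDiff

noncomputable section

namespace Cyl

universe u

namespace St4

/-! ## vector algebra -/

theorem e3_ext {X Y : E3} (h1 : X.1.re = Y.1.re) (h2 : X.1.im = Y.1.im) (h3 : X.2 = Y.2) : X = Y :=
  Prod.ext (Complex.ext h1 h2) h3

theorem dot_cross_left (X Y : E3) : dot (cross X Y) X = 0 := by
  simp [dot, cross, ip]; ring

theorem dot_cross_right (X Y : E3) : dot (cross X Y) Y = 0 := by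
  simp [dot, cross, ip]; ring

theorem dot_cross_cyc (X Y Z : E3) : dot (cross X Y) Z = dot (cross Y Z) X := by
  simp [dot, cross, ip]; ring

theorem cross_anti (X Y : E3) : cross X Y = -cross Y X := by
  apply e3_ext <;> simp [cross] <;> ring

theorem cross_self (X : E3) : cross X X = 0 := by
  apply e3_ext <;> simp [cross] <;> ring

theorem cross_add_left (X Y Z : E3) : cross (X + Y) Z = cross X Z + cross Y Z := by
  apply e3_ext <;> simp [cross] <;> ring

theorem cross_add_right (X Y Z : E3) : cross X (Y + Z) = cross X Y + cross X Z := by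
  apply e3_ext <;> simp [cross] <;> ring

theorem cross_smul_left (t : ℝ) (X Y : E3) : cross (t • X) Y = t • cross X Y := by
  apply e3_ext <;> simp [cross] <;> ring

theorem cross_smul_right (t : ℝ) (X Y : E3) : cross X (t • Y) = t • cross X Y := by
  apply e3_ext <;> simp [cross] <;> ring

theorem lagrange (G Z X Y : E3) :
    dot (cross G Z) (cross X Y) = dot G X * dot Z Y - dot G Y * dot Z X := by
  simp [dot, cross, ip]; ring

theorem cross_ab (F : Frame) : cross F.a F.b = F.det • F.n := by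
  have h := F.expand (cross F.a F.b)
  rw [dot_cross_left, dot_cross_right] at h
  rw [h]
  simp [Frame.det]

theorem det_sq (F : Frame) : F.det * F.det = 1 := by
  have h := lagrange F.a F.b F.a F.b
  rw [cross_ab, dot_smul_left, dot_smul_right, F.hnn, F.haa, F.hbb, F.hab] at h
  linarith

theorem cross_bn (F : Frame) : cross F.b F.n = F.det • F.a := by
  have h := F.expand (cross F.b F.n)
  rw [dot_cross_left, dot_cross_right, ← dot_cross_cyc] at h
  rw [h]
  simp [Frame.det]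

theorem cross_na (F : Frame) : cross F.n F.a = F.det • F.b := by
  have h := F.expand (cross F.n F.a)
  rw [dot_cross_left, dot_cross_right, ← dot_cross_cyc F.b F.n F.a, ← dot_cross_cyc] at h
  rw [h]
  simp [Frame.det]

theorem cross_X (F : Frame) (g : ℂ → ℝ) (s : ℂ) :
    cross (F.X1 g s) (F.X2 g s) = (F.det * W (grad g s)) • F.nor g s := by
  have hW := W_pos (grad g s)
  have e : (F.det * W (grad g s)) • F.nor g s = F.det • (F.n - d1 g s • F.a - d2 g s • F.b) := by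
    unfold Frame.nor
    rw [smul_smul, mul_assoc, mul_inv_cancel₀ hW.ne', mul_one]
  rw [e]
  unfold Frame.X1 Frame.X2
  rw [cross_add_left, cross_add_right, cross_add_right, cross_smul_left, cross_smul_left,
    cross_smul_right, cross_smul_right, cross_self, cross_anti F.a F.n, cross_anti F.n F.b,
    cross_ab, cross_bn, cross_na]
  apply e3_ext <;> simp <;> ring

/-- gradient of a function on space -/
def Gr (ρ : E3 → ℝ) (X : E3) : E3 :=
  (⟨fderiv ℝ ρ X ((1 : ℂ), (0 : ℝ)), fderiv ℝ ρ X (Complex.I, (0 : ℝ))⟩,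
    fderiv ℝ ρ X ((0 : ℂ), (1 : ℝ)))

theorem fderiv_eq_dot (ρ : E3 → ℝ) (X V : E3) : fderiv ℝ ρ X V = dot (Gr ρ X) V := by
  have e : V = V.1.re • ((1 : ℂ), (0 : ℝ)) + V.1.im • (Complex.I, (0 : ℝ)) +
      V.2 • ((0 : ℂ), (1 : ℝ)) := by
    apply e3_ext <;> simp
  conv_lhs => rw [e]
  rw [map_add, map_add, map_smul, map_smul, map_smul]
  simp [Gr, dot, ip]; ring

/-- the density whose integral vanishes -/
def A {M : Type u} (f N : M → E3) (Y : M → ℂ) (ρ : E3 → ℝ) (q : M) : ℝ :=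
  fderiv ℝ ρ (f q) (cross (Y q, (0 : ℝ)) (N q))

theorem dot_zero_snd (y : ℂ) (X : E3) : dot (y, (0 : ℝ)) X = ip y X.1 := by
  simp [dot]

/-- pointwise identity between the two densities -/
theorem density (F : Frame) (p : E3) (g : ℂ → ℝ) (ρ : E3 → ℝ) (y : ℂ) (s : ℂ) :
    F.det * (fderiv ℝ ρ (F.pt p g s) (F.X1 g s) * ip y (F.X2 g s).1
      - fderiv ℝ ρ (F.pt p g s) (F.X2 g s) * ip y (F.X1 g s).1) =
    W (grad g s) * fderiv ℝ ρ (F.pt p g s) (cross (y, (0 : ℝ)) (F.nor g s)) := by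
  have h := lagrange (Gr ρ (F.pt p g s)) (y, (0 : ℝ)) (F.X1 g s) (F.X2 g s)
  rw [cross_X, dot_smul_right, dot_zero_snd, dot_zero_snd, ← fderiv_eq_dot, ← fderiv_eq_dot,
    dot_cross_cyc, dot_comm _ (Gr ρ (F.pt p g s)), ← fderiv_eq_dot] at h
  rw [← h]
  have h2 := det_sq F
  linear_combination (W (grad g s) *
    fderiv ℝ ρ (F.pt p g s) (cross (y, (0 : ℝ)) (F.nor g s))) * h2

/-! ## curves on a graph -/

theorem hasDerivAt_mk {u v : ℝ → ℝ} {u' v' θ : ℝ} (hu : HasDerivAt u u' θ)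
    (hv : HasDerivAt v v' θ) : HasDerivAt (fun t => (⟨u t, v t⟩ : ℂ)) ⟨u', v'⟩ θ := by
  have h := hu.ofReal_comp.add (hv.ofReal_comp.mul_const Complex.I)
  have e1 : (fun t => (⟨u t, v t⟩ : ℂ)) = (fun y => ((u y : ℝ) : ℂ)) +
      fun y => ((v y : ℝ) : ℂ) * Complex.I := funext fun t => Complex.mk_eq_add_mul_I _ _
  rw [e1, Complex.mk_eq_add_mul_I u' v']
  exact h

theorem fderiv_mk (g : ℂ → ℝ) (s : ℂ) (u v : ℝ) :
    fderiv ℝ g s ⟨u, v⟩ = u * d1 g s + v * d2 g s := by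
  have e : (⟨u, v⟩ : ℂ) = u • (1 : ℂ) + v • Complex.I := by
    apply Complex.ext <;> simp
  rw [e, map_add, map_smul, map_smul]
  rfl

theorem pt_hasDerivAt (F : Frame) (p : E3) (g : ℂ → ℝ) {u v : ℝ → ℝ} {u' v' θ : ℝ}
    (hu : HasDerivAt u u' θ) (hv : HasDerivAt v v' θ)
    (hg : DifferentiableAt ℝ g ⟨u θ, v θ⟩) :
    HasDerivAt (fun t => F.pt p g ⟨u t, v t⟩)
      (u' • F.X1 g ⟨u θ, v θ⟩ + v' • F.X2 g ⟨u θ, v θ⟩) θ := by
  have h1 := hg.hasFDerivAt.comp_hasDerivAt θ (hasDerivAt_mk hu hv)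
  have h2 := (((hu.smul_const F.a).const_add p).add (hv.smul_const F.b)).add (h1.smul_const F.n)
  rw [fderiv_mk] at h2
  have h3 : HasDerivAt (fun t => F.pt p g ⟨u t, v t⟩) _ θ := h2
  refine h3.congr_deriv ?_
  unfold Frame.X1 Frame.X2
  apply e3_ext <;> simp <;> ring

variable {M : Type u} [TopologicalSpace M]

/-- a boundary point in a boundary patch -/
theorem bd_point (S : Setup M) {q : M} {F : Frame} {r : ℝ} {g : ℂ → ℝ} {β : ℝ → ℝ}
    {e : PartialEquiv M ℂ} (hp : BdPatch S.f S.N S.bd S.H q F r g β e) {θ : ℝ}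
    (hθ : S.b θ ∈ e.source) {t : ℝ} (ht : t = dot ((S.γ θ, (0 : ℝ)) - S.f q) F.a) :
    (⟨t, β t⟩ : ℂ) ∈ halfDisc r β ∧ e (S.b θ) = ⟨t, β t⟩ ∧
      F.pt (S.f q) g ⟨t, β t⟩ = (S.γ θ, (0 : ℝ)) ∧ e.symm ⟨t, β t⟩ = S.b θ := by
  obtain ⟨hP, -, -, -, hbd⟩ := hp
  have hs : e (S.b θ) ∈ halfDisc r β := by
    rw [← hP.target]; exact e.map_source hθ
  have hsym : e.symm (e (S.b θ)) = S.b θ := e.left_inv hθ
  have h1 := hP.param _ hs
  rw [hsym, S.f_b] at h1
  have h2 := (hbd _ hs).1 (by rw [hsym]; exact S.b_mem θ)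
  have h3 := (F.dot_pt_sub (S.f q) g (e (S.b θ))).1
  rw [← h1, ← ht] at h3
  have h4 : (⟨t, β t⟩ : ℂ) = e (S.b θ) := by
    apply Complex.ext
    · exact h3
    · simp only; rw [h3, ← h2]
  rw [h4]
  exact ⟨hs, rfl, h1.symm, hsym⟩

theorem curve_hasDerivAt (S : Setup M) (θ : ℝ) :
    HasDerivAt (fun t => ((S.γ t, (0 : ℝ)) : E3)) (deriv S.γ θ, (0 : ℝ)) θ := by
  have h : HasDerivAt S.γ (deriv S.γ θ) θ :=
    ((S.curve.smooth.differentiable (by simp)) θ).hasDerivAt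
  exact h.prodMk (hasDerivAt_const _ _)

theorem tau_hasDerivAt (S : Setup M) (p V : E3) (θ : ℝ) :
    HasDerivAt (fun t => dot ((S.γ t, (0 : ℝ)) - p) V) (dot (deriv S.γ θ, (0 : ℝ)) V) θ := by
  have h := (curve_hasDerivAt S θ).sub_const p
  have h1 : HasDerivAt (fun t => ((S.γ t, (0 : ℝ)) - p : E3).1.re) (deriv S.γ θ).re θ :=
    (Complex.reCLM.hasFDerivAt.comp_hasDerivAt θ
      ((ContinuousLinearMap.fst ℝ ℂ ℝ).hasFDerivAt.comp_hasDerivAt θ h))
  have h2 : HasDerivAt (fun t => ((S.γ t, (0 : ℝ)) - p : E3).1.im) (deriv S.γ θ).im θ :=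
    (Complex.imCLM.hasFDerivAt.comp_hasDerivAt θ
      ((ContinuousLinearMap.fst ℝ ℂ ℝ).hasFDerivAt.comp_hasDerivAt θ h))
  have h3 : HasDerivAt (fun t => ((S.γ t, (0 : ℝ)) - p : E3).2) (0 : ℝ) θ :=
    (ContinuousLinearMap.snd ℝ ℂ ℝ).hasFDerivAt.comp_hasDerivAt θ h
  have h4 := ((h1.mul_const V.1.re).add (h2.mul_const V.1.im)).add (h3.mul_const V.2)
  exact h4

/-- the tangent vector of the boundary curve in a boundary patch -/
theorem tangent (S : Setup M) (hb : Continuous S.b) {q : M} {F : Frame} {r : ℝ} {g : ℂ → ℝ}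
    {β : ℝ → ℝ} {e : PartialEquiv M ℂ} (hp : BdPatch S.f S.N S.bd S.H q F r g β e) {θ : ℝ}
    (hθ : S.b θ ∈ e.source) {t : ℝ} (ht : t = dot ((S.γ θ, (0 : ℝ)) - S.f q) F.a) :
    (deriv S.γ θ, (0 : ℝ)) = dot (deriv S.γ θ, (0 : ℝ)) F.a •
      (F.X1 g ⟨t, β t⟩ + deriv β t • F.X2 g ⟨t, β t⟩) := by
  have hev : ∀ᶠ θ' in 𝓝 θ, S.b θ' ∈ e.source :=
    hb.continuousAt.eventually (hp.1.isOpen.mem_nhds hθ)
  have hτ := tau_hasDerivAt S (S.f q) F.a θ
  have hβ : HasDerivAt β (deriv β t) t :=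
    ((hp.2.1.differentiable (by simp)) t).hasDerivAt
  have hβ' : HasDerivAt β (deriv β t) (dot ((S.γ θ, (0 : ℝ)) - S.f q) F.a) := by
    rw [← ht]; exact hβ
  have hv := hβ'.comp θ hτ
  have hs := (bd_point S hp hθ ht).1
  have hg : DifferentiableAt ℝ g (⟨t, β t⟩ : ℂ) :=
    (hp.1.smooth.differentiableOn (by simp)).differentiableAt (isOpen_ball.mem_nhds hs.1)
  have hg' : DifferentiableAt ℝ g (⟨dot ((S.γ θ, (0 : ℝ)) - S.f q) F.a,
      (β ∘ fun t => dot ((S.γ t, (0 : ℝ)) - S.f q) F.a) θ⟩ : ℂ) := by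
    simp only [Function.comp]; rw [← ht]; exact hg
  have h1 := pt_hasDerivAt F (S.f q) g hτ hv hg'
  have h2 : (fun t => ((S.γ t, (0 : ℝ)) : E3)) =ᶠ[𝓝 θ] fun t => F.pt (S.f q) g
      ⟨dot ((S.γ t, (0 : ℝ)) - S.f q) F.a,
        (β ∘ fun t => dot ((S.γ t, (0 : ℝ)) - S.f q) F.a) t⟩ := by
    filter_upwards [hev] with θ' hθ'
    exact ((bd_point S hp hθ' rfl).2.2.1).symm
  have h3 := (h1.congr_of_eventuallyEq h2).unique (curve_hasDerivAt S θ)
  refine h3.symm.trans ?_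
  simp only [Function.comp]
  rw [← ht, smul_add, smul_smul, mul_comm (deriv β t)]

theorem cn_eq (S : Setup M) (σ θ : ℝ) :
    S.cn σ θ = σ • cross (S.N (S.b θ)) (deriv S.γ θ, (0 : ℝ)) := by
  unfold Setup.cn Setup.ν
  apply e3_ext
  · simp [cross, ip]
  · simp [cross, ip]
  · simp only [cross, ip, Prod.smul_snd, smul_eq_mul, Complex.mul_re, Complex.mul_im,
      Complex.I_re, Complex.I_im]
    ring

theorem dot_hasDerivAt {P : ℝ → E3} {P' : E3} {θ : ℝ} (h : HasDerivAt P P' θ) (p V : E3) :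
    HasDerivAt (fun t => dot (P t - p) V) (dot P' V) θ := by
  have h0 := h.sub_const p
  have h1 : HasDerivAt (fun t => (P t - p : E3).1.re) P'.1.re θ :=
    (Complex.reCLM.hasFDerivAt.comp_hasDerivAt θ
      ((ContinuousLinearMap.fst ℝ ℂ ℝ).hasFDerivAt.comp_hasDerivAt θ h0))
  have h2 : HasDerivAt (fun t => (P t - p : E3).1.im) P'.1.im θ :=
    (Complex.imCLM.hasFDerivAt.comp_hasDerivAt θ
      ((ContinuousLinearMap.fst ℝ ℂ ℝ).hasFDerivAt.comp_hasDerivAt θ h0))
  have h3 : HasDerivAt (fun t => (P t - p : E3).2) P'.2 θ :=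
    (ContinuousLinearMap.snd ℝ ℂ ℝ).hasFDerivAt.comp_hasDerivAt θ h0
  exact ((h1.mul_const V.1.re).add (h2.mul_const V.1.im)).add (h3.mul_const V.2)

/-- the direction in which the boundary curve runs in a boundary patch -/
theorem sign_lemma [CompactSpace M] [T2Space M] (hB : BasicStatement.{u}) (S : Setup M) {σ : ℝ}
    (hσ : σ = 1 ∨ σ = -1) (hC : S.Conormal σ) {q : M} {F : Frame} {r : ℝ} {g : ℂ → ℝ}
    {β : ℝ → ℝ} {e : PartialEquiv M ℂ} (hp : BdPatch S.f S.N S.bd S.H q F r g β e) {θ : ℝ}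
    (hθ : S.b θ ∈ e.source) : 0 < σ * F.det * dot (deriv S.γ θ, (0 : ℝ)) F.a := by
  obtain ⟨-, -, -, hbc, -, -, -, -⟩ := hB M S
  obtain ⟨t, ht⟩ : ∃ t, t = dot ((S.γ θ, (0 : ℝ)) - S.f q) F.a := ⟨_, rfl⟩
  have hkey := tangent S hbc hp hθ ht
  obtain ⟨hs, -, hpt, hsym⟩ := bd_point S hp hθ ht
  obtain ⟨c, hc⟩ : ∃ c, c = dot (deriv S.γ θ, (0 : ℝ)) F.a := ⟨_, rfl⟩
  rw [← hc] at hkey ⊢
  obtain ⟨F', r', g', β', e', hp'⟩ := S.surf.boundary (S.b θ) (S.b_mem θ)
  have hb' := hC θ _ _ _ _ _ hp'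
  obtain ⟨hP', hβ's, hβ'0, hβ'1, -⟩ := hp'
  obtain ⟨hP, -, -, -, -⟩ := hp
  have hg : DifferentiableAt ℝ g (⟨t, β t⟩ : ℂ) :=
    (hP.smooth.differentiableOn (by simp)).differentiableAt (isOpen_ball.mem_nhds hs.1)
  -- the pairing of `X2` with the conormal
  have hN : S.N (S.b θ) = F.nor g ⟨t, β t⟩ := by
    rw [← hsym]; exact hP.normal _ hs
  have e1 : dot (F.X2 g ⟨t, β t⟩) F'.b = σ * F.det * c * W (grad g ⟨t, β t⟩) := by
    rw [hb', cn_eq, hkey, dot_smul_right, cross_smul_right, dot_smul_right, cross_add_right,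
      cross_smul_right, dot_add_right, dot_smul_right,
      dot_comm _ (cross (S.N (S.b θ)) (F.X2 g _)), dot_cross_right,
      dot_comm _ (cross (S.N (S.b θ)) (F.X1 g _)), dot_cross_cyc, cross_X, hN, dot_smul_left,
      F.dot_nor]
    ring
  -- it is nonnegative
  have hP1 : HasDerivAt (fun h : ℝ => F.pt (S.f q) g ⟨t, β t + h⟩) (F.X2 g ⟨t, β t⟩) 0 := by
    have h1 := pt_hasDerivAt F (S.f q) g (hasDerivAt_const (0 : ℝ) t)
      ((hasDerivAt_id (0 : ℝ)).const_add (β t)) (by simpa using hg)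
    simpa using h1
  have ha := dot_hasDerivAt hP1 (S.f (S.b θ)) F'.a
  have hb := dot_hasDerivAt hP1 (S.f (S.b θ)) F'.b
  have hp0 : F.pt (S.f q) g ⟨t, β t⟩ = S.f (S.b θ) := by rw [hpt, S.f_b]
  have hz : dot (F.pt (S.f q) g ⟨t, β t + 0⟩ - S.f (S.b θ)) F'.a = 0 := by
    rw [add_zero, hp0]; simp [dot, ip]
  have hβd : HasDerivAt β' 0 0 := by
    have h1 := ((hβ's.differentiable (by simp)) 0).hasDerivAt
    rw [hβ'1] at h1
    exact h1
  have hψ : HasDerivAt (fun h : ℝ => dot (F.pt (S.f q) g ⟨t, β t + h⟩ - S.f (S.b θ)) F'.b -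
      β' (dot (F.pt (S.f q) g ⟨t, β t + h⟩ - S.f (S.b θ)) F'.a)) (dot (F.X2 g ⟨t, β t⟩) F'.b) 0 := by
    have h1 : HasDerivAt β' 0 (dot (F.pt (S.f q) g ⟨t, β t + 0⟩ - S.f (S.b θ)) F'.a) := by
      rw [hz]; exact hβd
    have h2 := hb.sub (h1.comp (0 : ℝ) ha)
    rw [zero_mul, sub_zero] at h2
    exact h2
  -- the points stay in the second patch
  have hz0 : Tendsto (fun h : ℝ => (⟨t, β t + h⟩ : ℂ)) (𝓝[>] 0) (𝓝 (⟨t, β t⟩ : ℂ)) := by
    have h1 : ContinuousAt (fun h : ℝ => (⟨t, β t + h⟩ : ℂ)) 0 :=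
      (hasDerivAt_mk (hasDerivAt_const (0 : ℝ) t)
        ((hasDerivAt_id (0 : ℝ)).const_add (β t))).continuousAt
    have h2 := h1.tendsto
    simp only [add_zero] at h2
    exact h2.mono_left nhdsWithin_le_nhds
  have hzR : ∀ᶠ h in 𝓝[>] (0 : ℝ), (⟨t, β t + h⟩ : ℂ) ∈ halfDisc r β := by
    filter_upwards [hz0.eventually (isOpen_ball.mem_nhds hs.1), self_mem_nhdsWithin] with h h1 h2
    exact ⟨h1, by simpa using le_of_lt h2⟩
  have hz1 : Tendsto (fun h : ℝ => (⟨t, β t + h⟩ : ℂ)) (𝓝[>] 0) (𝓝[e.target] (⟨t, β t⟩ : ℂ)) := by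
    rw [hP.target]
    exact tendsto_nhdsWithin_iff.2 ⟨hz0, hzR⟩
  have hsrc : ∀ᶠ h in 𝓝[>] (0 : ℝ), e.symm ⟨t, β t + h⟩ ∈ e'.source := by
    have h1 := (hP.cont_symm ⟨t, β t⟩ (by rw [hP.target]; exact hs)).tendsto.comp hz1
    rw [hsym] at h1
    exact h1.eventually (hP'.isOpen.mem_nhds hP'.mem)
  have hpos : ∀ᶠ h in 𝓝[>] (0 : ℝ),
      0 ≤ dot (F.pt (S.f q) g ⟨t, β t + h⟩ - S.f (S.b θ)) F'.b -
      β' (dot (F.pt (S.f q) g ⟨t, β t + h⟩ - S.f (S.b θ)) F'.a) := by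
    filter_upwards [hsrc, hzR] with h h1 h2
    have h3 : e' (e.symm ⟨t, β t + h⟩) ∈ halfDisc r' β' := by
      rw [← hP'.target]; exact e'.map_source h1
    have h4 := hP'.param _ h3
    rw [e'.left_inv h1, hP.param _ h2] at h4
    rw [h4]
    obtain ⟨h5, h6, -⟩ := F'.dot_pt_sub (S.f (S.b θ)) g' (e' (e.symm ⟨t, β t + h⟩))
    rw [h5, h6]
    linarith [h3.2]
  have hnn : 0 ≤ dot (F.X2 g ⟨t, β t⟩) F'.b := by
    refine ge_of_tendsto hψ.tendsto_slope_zero_right ?_
    filter_upwards [hpos, self_mem_nhdsWithin] with h h1 h2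
    simp only [zero_add, hz, hβ'0]
    have e0 : dot (F.pt (S.f q) g ⟨t, β t + 0⟩ - S.f (S.b θ)) F'.b = 0 := by
      rw [add_zero, hp0]; simp [dot, ip]
    rw [e0]
    simp only [sub_zero, smul_eq_mul]
    exact mul_nonneg (inv_nonneg.2 (le_of_lt h2)) h1
  have hW := W_pos (grad g ⟨t, β t⟩)
  rw [e1] at hnn
  have hnn2 : 0 ≤ σ * F.det * c := nonneg_of_mul_nonneg_left hnn hW
  have hne : σ * F.det * c ≠ 0 := by
    have h1 : σ ≠ 0 := by rcases hσ with h | h <;> rw [h] <;> norm_num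
    have h2 : F.det ≠ 0 := by
      intro h
      have := det_sq F
      rw [h] at this
      norm_num at this
    have h3 : c ≠ 0 := by
      intro h
      rw [h, zero_smul] at hkey
      have h4 : deriv S.γ θ = 0 := congrArg Prod.fst hkey
      have h5 := S.curve.unit θ
      rw [h4] at h5
      norm_num at h5
    exact mul_ne_zero (mul_ne_zero h1 h2) h3
  exact lt_of_le_of_ne hnn2 (Ne.symm hne)

theorem measurableSet_halfDisc {r : ℝ} {β : ℝ → ℝ} (hβ : Continuous β) :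
    MeasurableSet (halfDisc r β) :=
  isOpen_ball.measurableSet.inter
    (isClosed_le (hβ.comp Complex.continuous_re) Complex.continuous_im).measurableSet

/-- the boundary integral of a patch -/
theorem bd_integral [CompactSpace M] [T2Space M] (hB : BasicStatement.{u}) (S : Setup M) {σ : ℝ}
    (hσ : σ = 1 ∨ σ = -1) (hC : S.Conormal σ) {q : M} {F : Frame} {r : ℝ} {g : ℂ → ℝ}
    {β : ℝ → ℝ} {e : PartialEquiv M ℂ} (hp : BdPatch S.f S.N S.bd S.H q F r g β e)
    {V : Set M} (hV : V ⊆ e.source) (hVo : IsOpen V) (Y : M → ℂ) (Y' : ℂ → ℂ)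
    (hY : ∀ s ∈ halfDisc r β, Y (e.symm s) = Y' s) (ρ : E3 → ℝ) :
    F.det * ∫ t in {t : ℝ | (⟨t, β t⟩ : ℂ) ∈ {s | s ∈ halfDisc r β ∧ e.symm s ∈ V}},
      ρ (F.pt (S.f q) g ⟨t, β t⟩) *
        ip (Y' ⟨t, β t⟩) (F.X1 g ⟨t, β t⟩ + deriv β t • F.X2 g ⟨t, β t⟩).1 =
    σ * ∫ θ in Ico 0 S.L ∩ {θ | S.b θ ∈ V},
      ρ (S.γ θ, (0 : ℝ)) * ip (Y (S.b θ)) (deriv S.γ θ) := by
  obtain ⟨-, -, -, hbc, hper, hsur, -, -⟩ := hB M S
  let τ : ℝ → ℝ := fun θ => dot ((S.γ θ, (0 : ℝ)) - S.f q) F.a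
  have himg : {t : ℝ | (⟨t, β t⟩ : ℂ) ∈ {s | s ∈ halfDisc r β ∧ e.symm s ∈ V}} =
      τ '' (Ico 0 S.L ∩ {θ | S.b θ ∈ V}) := by
    ext t
    constructor
    · rintro ⟨h1, h2⟩
      have h3 : e.symm ⟨t, β t⟩ ∈ S.bd := (hp.2.2.2.2 _ h1).2 rfl
      obtain ⟨θ₀, hθ₀⟩ := hsur _ h3
      obtain ⟨θ, hθ, hθe⟩ := Function.Periodic.exists_mem_Ico₀ hper S.curve.L_pos θ₀
      have h4 : S.b θ = e.symm ⟨t, β t⟩ := by rw [← hθe, hθ₀]
      refine ⟨θ, ⟨hθ, ?_⟩, ?_⟩
      · show S.b θ ∈ V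
        rw [h4]; exact h2
      · have h5 : S.b θ ∈ e.source := hV (by rw [h4]; exact h2)
        have h6 := (bd_point S hp h5 rfl).2.1
        rw [h4, e.right_inv (by rw [hp.1.target]; exact h1)] at h6
        exact (congrArg Complex.re h6).symm
    · rintro ⟨θ, ⟨-, hθ⟩, rfl⟩
      obtain ⟨h1, -, -, h2⟩ := bd_point S hp (hV hθ) (rfl : τ θ = _)
      exact ⟨h1, by rw [h2]; exact hθ⟩
  have hinj : InjOn τ (Ico 0 S.L ∩ {θ | S.b θ ∈ V}) := by
    rintro θ₁ ⟨h1, h1'⟩ θ₂ ⟨h2, h2'⟩ h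
    obtain ⟨-, -, h3, -⟩ := bd_point S hp (hV h1') (rfl : τ θ₁ = _)
    obtain ⟨-, -, h4, -⟩ := bd_point S hp (hV h2') (rfl : τ θ₂ = _)
    rw [h, h4] at h3
    exact (S.curve.inj h2 h1 (congrArg Prod.fst h3)).symm
  have hm : MeasurableSet (Ico 0 S.L ∩ {θ | S.b θ ∈ V}) :=
    measurableSet_Ico.inter (hVo.preimage hbc).measurableSet
  rw [himg, integral_image_eq_integral_abs_deriv_smul hm
    (fun θ _ => (tau_hasDerivAt S (S.f q) F.a θ).hasDerivWithinAt) hinj,
    ← integral_const_mul, ← integral_const_mul]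
  refine setIntegral_congr_fun hm ?_
  rintro θ ⟨-, hθ⟩
  have hθs : S.b θ ∈ e.source := hV hθ
  have hsg := sign_lemma hB S hσ hC hp hθs
  have htan := tangent S hbc hp hθs (rfl : τ θ = _)
  obtain ⟨hs, -, hpt, hsym⟩ := bd_point S hp hθs (rfl : τ θ = _)
  obtain ⟨c, hc⟩ : ∃ c, c = dot (deriv S.γ θ, (0 : ℝ)) F.a := ⟨_, rfl⟩
  rw [← hc] at hsg htan
  have hγ : deriv S.γ θ = c • (F.X1 g ⟨τ θ, β (τ θ)⟩ + deriv β (τ θ) •
      F.X2 g ⟨τ θ, β (τ θ)⟩).1 := congrArg Prod.fst htan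
  simp only
  rw [hpt, ← hc, ← hY _ hs, hsym, smul_eq_mul]
  conv_rhs => rw [hγ, ip_smul_right]
  have habs : F.det * |c| = σ * c := by
    have hd := det_sq F
    have h1 : (σ * F.det) * (σ * F.det) = 1 := by
      have h2 : σ * σ = 1 := by rcases hσ with h | h <;> rw [h] <;> norm_num
      linear_combination F.det * F.det * h2 + hd
    rcases mul_self_eq_one_iff.1 h1 with h | h
    · have hc0 : 0 < c := by rw [h] at hsg; linarith
      rw [abs_of_pos hc0]
      have h3 : F.det = σ := by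
        rcases hσ with h' | h' <;> rw [h'] at h ⊢ <;> linarith
      rw [h3]
    · have hc0 : c < 0 := by rw [h] at hsg; linarith
      rw [abs_of_neg hc0]
      have h3 : F.det = -σ := by
        rcases hσ with h' | h' <;> rw [h'] at h ⊢ <;> linarith
      rw [h3]; ring
  linear_combination (ρ (S.γ θ, (0 : ℝ)) * ip (Y (S.b θ)) (F.X1 g ⟨τ θ, β (τ θ)⟩ +
    deriv β (τ θ) • F.X2 g ⟨τ θ, β (τ θ)⟩).1) * habs

/-- integrals over the surface in a patch -/
theorem area_integral [MeasurableSpace M] [BorelSpace M] {μ : Measure M} {f N : M → E3} {H : ℝ}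
    {q : M} {F : Frame} {r : ℝ} {g : ℂ → ℝ} {R : Set ℂ} {e : PartialEquiv M ℂ}
    (hP : Patch f N H q F r g R e) (hRm : MeasurableSet R) (hRb : R ⊆ ball 0 r)
    (hμ : μ.restrict e.source =
      Measure.map e.symm ((volume.restrict R).withDensity fun s => ENNReal.ofReal (W (grad g s))))
    {V : Set M} (hV : V ⊆ e.source) (hVo : IsOpen V) (a : M → ℝ) (ha : Continuous a) :
    ∫ x in V, a x ∂μ = ∫ s in {s | s ∈ R ∧ e.symm s ∈ V}, W (grad g s) * a (e.symm s) := by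
  have hVm := hVo.measurableSet
  have hcs : ContinuousOn e.symm R := by rw [← hP.target]; exact hP.cont_symm
  have hes : AEMeasurable e.symm ((volume.restrict R).withDensity
      fun s => ENNReal.ofReal (W (grad g s))) :=
    (hcs.aemeasurable hRm).mono_ac (withDensity_absolutelyContinuous _ _)
  have hgc : ContinuousOn (fun s => W (grad g s)) (ball 0 r) := by
    have h1 : ContinuousOn (fderiv ℝ g) (ball 0 r) :=
      (hP.smooth.continuousOn_fderiv_of_isOpen isOpen_ball (by simp))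
    have h2 : ContinuousOn (fun s => grad g s) (ball 0 r) := by
      have h3 : ContinuousOn (fun s => d1 g s) (ball 0 r) := h1.clm_apply continuousOn_const
      have h4 : ContinuousOn (fun s => d2 g s) (ball 0 r) := h1.clm_apply continuousOn_const
      have e1 : (fun s => grad g s) = fun s => ((d1 g s : ℝ) : ℂ) + ((d2 g s : ℝ) : ℂ) *
          Complex.I := funext fun s => Complex.mk_eq_add_mul_I _ _
      rw [e1]
      exact (Complex.continuous_ofReal.comp_continuousOn h3).add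
        ((Complex.continuous_ofReal.comp_continuousOn h4).mul continuousOn_const)
    exact continuous_W.comp_continuousOn h2
  have hWm : AEMeasurable (fun s => W (grad g s)) (volume.restrict R) :=
    (hgc.aemeasurable isOpen_ball.measurableSet).mono_measure (Measure.restrict_mono hRb le_rfl)
  obtain ⟨u, hu, hue⟩ := continuousOn_iff'.1 hcs V hVo
  have hO : {s | s ∈ R ∧ e.symm s ∈ V} = R ∩ u := by
    rw [inter_comm R u, ← hue]
    ext s; exact ⟨fun h => ⟨h.2, h.1⟩, fun h => ⟨h.2, h.1⟩⟩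
  rw [← Measure.restrict_restrict_of_subset hV, hμ, ← integral_indicator hVm, integral_map hes
    ((ha.measurable.indicator hVm).aestronglyMeasurable),
    integral_withDensity_eq_integral_toReal_smul₀ hWm.ennreal_ofReal
      (Eventually.of_forall fun _ => ENNReal.ofReal_lt_top), hO, ← setIntegral_indicator hu.measurableSet]
  refine setIntegral_congr_fun hRm ?_
  intro s hs
  simp only
  rw [ENNReal.toReal_ofReal (W_pos _).le, smul_eq_mul]
  by_cases h : e.symm s ∈ V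
  · have h2 : s ∈ u := (hue ▸ (⟨h, hs⟩ : s ∈ e.symm ⁻¹' V ∩ R) : s ∈ u ∩ R).1
    rw [indicator_of_mem h, indicator_of_mem h2]
  · have h2 : s ∉ u := by
      intro h3
      have h4 : s ∈ e.symm ⁻¹' V ∩ R := by rw [hue]; exact ⟨h3, hs⟩
      exact h h4.1
    rw [indicator_of_notMem h, indicator_of_notMem h2, mul_zero]

theorem anyPatch_patch {f N : M → E3} {bd : Set M} {H : ℝ} {q : M} {F : Frame} {r : ℝ}
    {g : ℂ → ℝ} {R : Set ℂ} {e : PartialEquiv M ℂ} (h : AnyPatch f N bd H q F r g R e) :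
    Patch f N H q F r g R e ∧ MeasurableSet R ∧ R ⊆ ball 0 r ∧ (0 : ℂ) ∈ R := by
  rcases h with ⟨rfl, h, -⟩ | ⟨β, rfl, h, hβ, hβ0, -⟩
  · exact ⟨h, isOpen_ball.measurableSet, subset_rfl, mem_ball_self h.r_pos⟩
  · exact ⟨h, measurableSet_halfDisc hβ.continuous, fun s hs => hs.1,
      mem_ball_self h.r_pos, by simp [hβ0]⟩

theorem closed_continuous (S : Setup M) {Y : M → ℂ} (hY : S.Closed Y) : Continuous Y := by
  rw [continuous_iff_continuousAt]
  intro q
  obtain ⟨F, r, g, R, e, hp, Y', hY', hYe, -⟩ := hY q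
  obtain ⟨hP, -, hRb, h0⟩ := anyPatch_patch hp
  have h1 : ContinuousAt e q := (hP.cont q hP.mem).continuousAt (hP.isOpen.mem_nhds hP.mem)
  have h2 : ContinuousAt Y' (e q) := by
    rw [hP.map_zero]
    exact (hY'.continuousOn 0 (hRb h0)).continuousAt (isOpen_ball.mem_nhds (hRb h0))
  have h3 : ContinuousAt (Y' ∘ e) q := h2.comp h1
  refine h3.congr ?_
  filter_upwards [hP.isOpen.mem_nhds hP.mem] with q' hq'
  have h4 : e q' ∈ R := by rw [← hP.target]; exact e.map_source hq'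
  have h5 := hYe _ h4
  rw [e.left_inv hq'] at h5
  exact h5.symm

theorem continuous_cross {X Z : M → E3} (hX : Continuous X) (hZ : Continuous Z) :
    Continuous fun q => cross (X q) (Z q) := by
  have h1 : Continuous fun q => (X q).1.re := Complex.continuous_re.comp (continuous_fst.comp hX)
  have h2 : Continuous fun q => (X q).1.im := Complex.continuous_im.comp (continuous_fst.comp hX)
  have h3 : Continuous fun q => (X q).2 := continuous_snd.comp hX
  have h4 : Continuous fun q => (Z q).1.re := Complex.continuous_re.comp (continuous_fst.comp hZ)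
  have h5 : Continuous fun q => (Z q).1.im := Complex.continuous_im.comp (continuous_fst.comp hZ)
  have h6 : Continuous fun q => (Z q).2 := continuous_snd.comp hZ
  have e1 : (fun q => cross (X q) (Z q)) = fun q =>
      ((((X q).1.im * (Z q).2 - (X q).2 * (Z q).1.im : ℝ) : ℂ) +
        (((X q).2 * (Z q).1.re - (X q).1.re * (Z q).2 : ℝ) : ℂ) * Complex.I,
        (X q).1.re * (Z q).1.im - (X q).1.im * (Z q).1.re) := by
    funext q
    exact Prod.ext (Complex.mk_eq_add_mul_I _ _) rfl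
  rw [e1]
  fun_prop

theorem continuous_A {f N : M → E3} {Y : M → ℂ} {ρ : E3 → ℝ} (hf : Continuous f)
    (hN : Continuous N) (hY : Continuous Y) (hρ : ContDiff ℝ ∞ ρ) : Continuous (A f N Y ρ) := by
  have h1 : Continuous fun q => fderiv ℝ ρ (f q) := (hρ.continuous_fderiv (by simp)).comp hf
  exact h1.clm_apply (continuous_cross (hY.prodMk continuous_const) hN)

end St4

open St4 in
/-- ST4. -/
theorem ST4_holds : StokesAssemblyStatement.{u} := by
  intro hL hPS hAM hB M _ _ _ S σ hσ hC Y hY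
  let _ : MeasurableSpace M := borel M
  have _ : BorelSpace M := ⟨rfl⟩
  obtain ⟨hfc, hNc, hbdc, hbc, hper, hsur, -, -⟩ := hB M S
  obtain ⟨μ, hfin, hμ⟩ := hAM M S
  have hYc := closed_continuous S hY
  choose F r g R e hp Y' hY' hYe hcl using hY
  have hP := fun q => anyPatch_patch (hp q)
  have hinj : ∀ q, InjOn S.f (e q).source := by
    intro q x hx y hy hxy
    have hx1 : e q x ∈ R q := by rw [← (hP q).1.target]; exact (e q).map_source hx
    have hy1 : e q y ∈ R q := by rw [← (hP q).1.target]; exact (e q).map_source hy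
    have h1 := (hP q).1.param _ hx1
    have h2 := (hP q).1.param _ hy1
    rw [(e q).left_inv hx] at h1
    rw [(e q).left_inv hy] at h2
    have h3 := (F q).pt_injective _ _ (h1.symm.trans (hxy.trans h2))
    exact (e q).injOn hx hy h3
  obtain ⟨n, m, ρ, Q, V, hρ, ⟨O, hO, hfO, hsum⟩, hVo, hVd, hVc, hVU, hVk⟩ :=
    hL M S.f hfc (fun q => (e q).source) (fun q => (hP q).1.isOpen) (fun q => (hP q).1.mem) hinj
  -- the two families
  let a : Fin n → M → ℝ := fun k => A S.f S.N Y (ρ k)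
  have hac : ∀ k, Continuous (a k) := fun k => continuous_A hfc hNc hYc (hρ k)
  let B : Fin n → ℝ → ℝ := fun k θ => ρ k (S.γ θ, (0 : ℝ)) * ip (Y (S.b θ)) (deriv S.γ θ)
  have hcore : ∀ k i, ∫ x in V k i, a k x ∂μ =
      σ * ∫ θ in Ico 0 S.L ∩ {θ | S.b θ ∈ V k i}, B k θ := by
    intro k i
    obtain ⟨hPi, hRm, hRb, -⟩ := hP (Q i)
    rw [area_integral hPi hRm hRb (hμ _ _ _ _ _ _ (hp (Q i))) (hVU k i) (hVo k i) (a k) (hac k)]
    have hcs : ContinuousOn (e (Q i)).symm (R (Q i)) := by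
      rw [← hPi.target]; exact hPi.cont_symm
    obtain ⟨u, hu, hue⟩ := continuousOn_iff'.1 hcs (V k i) (hVo k i)
    have hOe : {s | s ∈ R (Q i) ∧ (e (Q i)).symm s ∈ V k i} = u ∩ R (Q i) := by
      rw [← hue]
      ext s; exact ⟨fun h => ⟨h.2, h.1⟩, fun h => ⟨h.2, h.1⟩⟩
    have hOm : MeasurableSet {s | s ∈ R (Q i) ∧ (e (Q i)).symm s ∈ V k i} := by
      rw [hOe]; exact hu.measurableSet.inter hRm
    have hcomp : IsCompact {s | s ∈ {s | s ∈ R (Q i) ∧ (e (Q i)).symm s ∈ V k i} ∧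
        (F (Q i)).pt (S.f (Q i)) (g (Q i)) s ∈ tsupport (ρ k)} := by
      have h1 : {s | s ∈ {s | s ∈ R (Q i) ∧ (e (Q i)).symm s ∈ V k i} ∧
          (F (Q i)).pt (S.f (Q i)) (g (Q i)) s ∈ tsupport (ρ k)} =
          e (Q i) '' {q | q ∈ V k i ∧ S.f q ∈ tsupport (ρ k)} := by
        ext s
        constructor
        · rintro ⟨⟨h2, h3⟩, h4⟩
          refine ⟨(e (Q i)).symm s, ⟨h3, ?_⟩, (e (Q i)).right_inv (by rw [hPi.target]; exact h2)⟩
          rw [hPi.param _ h2]; exact h4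
        · rintro ⟨q, ⟨h2, h3⟩, rfl⟩
          have h4 := hVU k i h2
          have h5 : e (Q i) q ∈ R (Q i) := by rw [← hPi.target]; exact (e (Q i)).map_source h4
          refine ⟨⟨h5, ?_⟩, ?_⟩
          · rw [(e (Q i)).left_inv h4]; exact h2
          · rw [← hPi.param _ h5, (e (Q i)).left_inv h4]; exact h3
      rw [h1]
      exact (hVk k i).image_of_continuousOn (hPi.cont.mono fun q hq => hVU k i hq.1)
    have hps := hPS (r (Q i)) (g (Q i)) (F (Q i)) (S.f (Q i)) (R (Q i))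
      {s | s ∈ R (Q i) ∧ (e (Q i)).symm s ∈ V k i} u (Y' (Q i)) (ρ k) hPi.r_pos hPi.smooth
      (hY' (Q i)) (hρ k) hu hOe hcomp (by
        intro s hs
        have h1 := hcl (Q i) s hs
        simpa [Frame.X1, Frame.X2] using h1)
    have hdens : ∫ s in {s | s ∈ R (Q i) ∧ (e (Q i)).symm s ∈ V k i},
        W (grad (g (Q i)) s) * a k ((e (Q i)).symm s) =
        (F (Q i)).det * ∫ s in {s | s ∈ R (Q i) ∧ (e (Q i)).symm s ∈ V k i},
          (fderiv ℝ (ρ k) ((F (Q i)).pt (S.f (Q i)) (g (Q i)) s) ((F (Q i)).X1 (g (Q i)) s) *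
              ip (Y' (Q i) s) ((F (Q i)).X2 (g (Q i)) s).1 -
            fderiv ℝ (ρ k) ((F (Q i)).pt (S.f (Q i)) (g (Q i)) s) ((F (Q i)).X2 (g (Q i)) s) *
              ip (Y' (Q i) s) ((F (Q i)).X1 (g (Q i)) s).1) := by
      rw [← integral_const_mul]
      refine setIntegral_congr_fun hOm ?_
      rintro s ⟨hs, -⟩
      simp only
      rw [density]
      simp only [a, A]
      rw [hPi.param _ hs, hYe _ _ hs, hPi.normal _ hs]
    rw [hdens]
    rcases hp (Q i) with ⟨hR, hI⟩ | ⟨β, hR, hI⟩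
    · rw [hps.1 hR, mul_zero]
      have h1 : Ico 0 S.L ∩ {θ | S.b θ ∈ V k i} = ∅ := by
        rw [eq_empty_iff_forall_notMem]
        rintro θ ⟨-, h2⟩
        exact disjoint_left.1 hI.2 (hVU k i h2) (S.b_mem θ)
      rw [h1]; simp
    · rw [hps.2 β hI.2.1 hR]
      have hI' := hI
      rw [hR]
      exact bd_integral hB S hσ hC hI' (hVU k i) (hVo k i) Y (Y' (Q i))
        (fun s hs => hYe (Q i) s (by rw [hR]; exact hs)) (ρ k)
  -- summing over the patches of one function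
  have hint : ∀ k, Integrable (a k) μ := by
    intro k
    obtain ⟨C, hC'⟩ := isCompact_univ.exists_bound_of_continuousOn (hac k).continuousOn
    exact Integrable.of_bound (hac k).measurable.aestronglyMeasurable C
      (Eventually.of_forall fun q => hC' q (mem_univ q))
  have hL1 : ∀ k, ∑ i, ∫ x in V k i, a k x ∂μ = ∫ x, a k x ∂μ := by
    intro k
    rw [← integral_iUnion_fintype (fun i => (hVo k i).measurableSet)
      (fun i j hij => hVd k i j hij) (fun i => (hint k).integrableOn)]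
    refine setIntegral_eq_integral_of_forall_compl_eq_zero ?_
    intro q hq
    have h1 : S.f q ∉ tsupport (ρ k) := by
      intro h2
      obtain ⟨i, hi⟩ := hVc k q h2
      exact hq (mem_iUnion.2 ⟨i, hi⟩)
    have h2 : fderiv ℝ (ρ k) (S.f q) = 0 := by
      by_contra h3
      exact h1 (support_fderiv_subset ℝ (Function.mem_support.2 h3))
    simp only [a, A]
    rw [h2]; rfl
  have hderc : Continuous (deriv S.γ) := S.curve.smooth.continuous_deriv (by simp)
  have hipc : Continuous fun θ => ip (Y (S.b θ)) (deriv S.γ θ) := by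
    unfold ip
    have := hYc.comp hbc
    fun_prop
  have hBc : ∀ k, Continuous (B k) := fun k =>
    ((hρ k).continuous.comp (S.curve.smooth.continuous.prodMk continuous_const)).mul hipc
  have hBi : ∀ k, IntegrableOn (B k) (Ico 0 S.L) := fun k =>
    ((hBc k).integrableOn_Icc (a := 0) (b := S.L)).mono_set Ico_subset_Icc_self
  have hR1 : ∀ k, ∑ i, ∫ θ in Ico 0 S.L ∩ {θ | S.b θ ∈ V k i}, B k θ =
      ∫ θ in Ico 0 S.L, B k θ := by
    intro k
    have key := integral_iUnion_fintype (μ := volume) (f := B k)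
      (s := fun i => Ico 0 S.L ∩ {θ | S.b θ ∈ V k i})
      (fun i => measurableSet_Ico.inter ((hVo k i).preimage hbc).measurableSet)
      (fun i j hij => ?_) (fun i => (hBi k).mono_set inter_subset_left)
    · rw [← key, ← inter_iUnion]
      refine (setIntegral_eq_of_subset_of_forall_sdiff_eq_zero measurableSet_Ico
        inter_subset_left ?_).symm
      rintro θ ⟨h1, h2⟩
      have h3 : ρ k (S.γ θ, (0 : ℝ)) = 0 := by
        by_contra h4
        have h5 : S.f (S.b θ) ∈ tsupport (ρ k) := by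
          rw [S.f_b]; exact subset_tsupport _ (Function.mem_support.2 h4)
        obtain ⟨i, hi⟩ := hVc k _ h5
        exact h2 ⟨h1, mem_iUnion.2 ⟨i, hi⟩⟩
      simp only [B]
      rw [h3, zero_mul]
    · exact (((hVd k i j hij).preimage S.b).mono inter_subset_right inter_subset_right)
  -- the total sums
  have hzero : ∑ k, ∫ x, a k x ∂μ = 0 := by
    rw [← integral_finsetSum _ (fun k _ => hint k)]
    refine integral_eq_zero_of_ae (Eventually.of_forall fun q => ?_)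
    have hfq : S.f q ∈ O := hfO (mem_range_self q)
    have h1 : ∑ k, fderiv ℝ (ρ k) (S.f q) = 0 := by
      have h2 : fderiv ℝ (fun X => ∑ k, ρ k X) (S.f q) = ∑ k, fderiv ℝ (ρ k) (S.f q) :=
        fderiv_fun_sum fun k _ => ((hρ k).differentiable (by simp)) _
      rw [← h2]
      have h3 : (fun X => ∑ k, ρ k X) =ᶠ[𝓝 (S.f q)] fun _ => (1 : ℝ) := by
        filter_upwards [hO.mem_nhds hfq] with X hX using hsum X hX
      rw [h3.fderiv_eq]
      exact fderiv_const_apply _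
    have h4 := congrArg (fun T : E3 →L[ℝ] ℝ => T (cross (Y q, (0 : ℝ)) (S.N q))) h1
    simpa [a, A] using h4
  have hone : ∑ k, ∫ θ in Ico 0 S.L, B k θ =
      ∫ θ in Ico 0 S.L, ip (Y (S.b θ)) (deriv S.γ θ) := by
    rw [← integral_finsetSum _ (fun k _ => hBi k)]
    refine integral_congr_ae (Eventually.of_forall fun θ => ?_)
    have hfq : (S.γ θ, (0 : ℝ)) ∈ O := by rw [← S.f_b]; exact hfO (mem_range_self _)
    simp only [B]
    rw [← Finset.sum_mul, hsum _ hfq, one_mul]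
  have hfinal : (0 : ℝ) = σ * ∫ θ in Ico 0 S.L, ip (Y (S.b θ)) (deriv S.γ θ) := by
    refine hzero.symm.trans ?_
    rw [← hone, Finset.mul_sum]
    refine Finset.sum_congr rfl fun k _ => ?_
    rw [← hL1, ← hR1, Finset.mul_sum]
    exact Finset.sum_congr rfl fun i _ => hcore k i
  have hσ0 : σ ≠ 0 := by rcases hσ with h | h <;> rw [h] <;> norm_num
  have hlast := (mul_eq_zero.1 hfinal.symm).resolve_left hσ0
  rw [intervalIntegral.integral_of_le S.curve.L_pos.le, integral_Ioc_eq_integral_Ioo,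
    ← integral_Ico_eq_integral_Ioo, hlast]

end Cyl
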