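import Pool.Agent.Cyl.Stmt3
import Pool.Agent.Cyl.Base

/-!
# Module STEP: one step along the boundary
-/

open MeasureTheory Set Filter Topology Metric
open scoped ContDiff

noncomputable section

namespace Cyl

universe u

namespace StepAux

/-! ## calculus in the plane -/

theorem hasFDerivAt_grad {G : ℂ → ℝ} {s : ℂ} (h : DifferentiableAt ℝ G s) :
    HasFDerivAt G (d1 G s • Complex.reCLM + d2 G s • Complex.imCLM) s := by
  refine h.hasFDerivAt.congr_fderiv ?_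
  ext v
  have hv : v = v.re • (1 : ℂ) + v.im • Complex.I := by
    apply Complex.ext <;> simp
  conv_lhs => rw [hv, map_add, map_smul, map_smul]
  simp [d1, d2]
  ring

theorem hasDerivAt_mk_im (x t : ℝ) : HasDerivAt (fun t : ℝ => (⟨x, t⟩ : ℂ)) Complex.I t := by
  have h : (fun t : ℝ => (⟨x, t⟩ : ℂ)) = fun t : ℝ => (x : ℂ) + t • Complex.I := by
    funext t
    apply Complex.ext <;> simp
  rw [h]
  have h1 : HasDerivAt (fun t : ℝ => t • Complex.I) ((1 : ℝ) • Complex.I) t :=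
    (hasDerivAt_id t).smul_const Complex.I
  simpa using h1.const_add (x : ℂ)

theorem hasDerivAt_mk_re (x t : ℝ) : HasDerivAt (fun x : ℝ => (⟨x, t⟩ : ℂ)) 1 x := by
  have h : (fun x : ℝ => (⟨x, t⟩ : ℂ)) = fun x : ℝ => x • (1 : ℂ) + t • Complex.I := by
    funext x
    apply Complex.ext <;> simp
  rw [h]
  have h1 : HasDerivAt (fun x : ℝ => x • (1 : ℂ)) ((1 : ℝ) • (1 : ℂ)) x :=
    (hasDerivAt_id x).smul_const (1 : ℂ)
  simpa using h1.add_const (t • Complex.I)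

theorem hasDerivAt_im {G : ℂ → ℝ} {x t : ℝ} (h : DifferentiableAt ℝ G ⟨x, t⟩) :
    HasDerivAt (fun t : ℝ => G ⟨x, t⟩) (d2 G ⟨x, t⟩) t :=
  h.hasFDerivAt.comp_hasDerivAt t (hasDerivAt_mk_im x t)

theorem hasDerivAt_re {G : ℂ → ℝ} {x t : ℝ} (h : DifferentiableAt ℝ G ⟨x, t⟩) :
    HasDerivAt (fun x : ℝ => G ⟨x, t⟩) (d1 G ⟨x, t⟩) x :=
  h.hasFDerivAt.comp_hasDerivAt x (hasDerivAt_mk_re x t)

theorem norm_mk_le {x t τ : ℝ} (h0 : 0 ≤ τ) (h : τ ≤ t) : ‖(⟨x, τ⟩ : ℂ)‖ ≤ ‖(⟨x, t⟩ : ℂ)‖ := by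
  have h1 : ‖(⟨x, τ⟩ : ℂ)‖ ^ 2 ≤ ‖(⟨x, t⟩ : ℂ)‖ ^ 2 := by
    rw [← ip_self, ← ip_self]
    simp only [ip]
    nlinarith
  exact le_of_sq_le_sq h1 (norm_nonneg _)

theorem norm_mk_le' {x y t : ℝ} (h0 : 0 ≤ y) (h : y ≤ x) : ‖(⟨y, t⟩ : ℂ)‖ ≤ ‖(⟨x, t⟩ : ℂ)‖ := by
  have h1 : ‖(⟨y, t⟩ : ℂ)‖ ^ 2 ≤ ‖(⟨x, t⟩ : ℂ)‖ ^ 2 := by
    rw [← ip_self, ← ip_self]
    simp only [ip]
    nlinarith
  exact le_of_sq_le_sq h1 (norm_nonneg _)

theorem mvt_im {G : ℂ → ℝ} {r x t : ℝ} (hG : DifferentiableOn ℝ G (ball 0 r)) (ht : 0 < t)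
    (hx : (⟨x, t⟩ : ℂ) ∈ ball (0 : ℂ) r) :
    ∃ τ, 0 < τ ∧ τ < t ∧ d2 G ⟨x, τ⟩ * t = G ⟨x, t⟩ - G ⟨x, 0⟩ := by
  have hd : ∀ τ ∈ Icc (0 : ℝ) t, HasDerivAt (fun t : ℝ => G ⟨x, t⟩) (d2 G ⟨x, τ⟩) τ := by
    intro τ hτ
    apply hasDerivAt_im
    apply hG.differentiableAt
    apply isOpen_ball.mem_nhds
    rw [mem_ball_zero_iff] at hx ⊢
    exact (norm_mk_le hτ.1 hτ.2).trans_lt hx
  obtain ⟨τ, hτ, h⟩ := exists_hasDerivAt_eq_slope (fun t : ℝ => G ⟨x, t⟩) (fun τ => d2 G ⟨x, τ⟩) ht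
    (fun τ hτ => (hd τ hτ).continuousAt.continuousWithinAt)
    (fun τ hτ => hd τ (Ioo_subset_Icc_self hτ))
  refine ⟨τ, hτ.1, hτ.2, ?_⟩
  rw [h, sub_zero, div_mul_cancel₀ _ ht.ne']

theorem mvt_re {G : ℂ → ℝ} {r x : ℝ} (hG : DifferentiableOn ℝ G (ball 0 r)) (hx0 : 0 < x)
    (hx : (⟨x, 0⟩ : ℂ) ∈ ball (0 : ℂ) r) :
    ∃ y, 0 < y ∧ y < x ∧ d1 G ⟨y, 0⟩ * x = G ⟨x, 0⟩ - G ⟨0, 0⟩ := by
  have hd : ∀ y ∈ Icc (0 : ℝ) x, HasDerivAt (fun y : ℝ => G ⟨y, 0⟩) (d1 G ⟨y, 0⟩) y := by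
    intro y hy
    apply hasDerivAt_re
    apply hG.differentiableAt
    apply isOpen_ball.mem_nhds
    rw [mem_ball_zero_iff] at hx ⊢
    exact (norm_mk_le' hy.1 hy.2).trans_lt hx
  obtain ⟨y, hy, h⟩ := exists_hasDerivAt_eq_slope (fun y : ℝ => G ⟨y, 0⟩) (fun y => d1 G ⟨y, 0⟩) hx0
    (fun τ hτ => (hd τ hτ).continuousAt.continuousWithinAt)
    (fun τ hτ => hd τ (Ioo_subset_Icc_self hτ))
  refine ⟨y, hy.1, hy.2, ?_⟩
  rw [h, sub_zero, div_mul_cancel₀ _ hx0.ne']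

theorem smooth_d1 {G : ℂ → ℝ} {r : ℝ} (hG : ContDiffOn ℝ ∞ G (ball 0 r)) :
    ContDiffOn ℝ ∞ (d1 G) (ball 0 r) := by
  have h := hG.fderiv_of_isOpen isOpen_ball (m := ∞) (by simp)
  exact h.clm_apply contDiffOn_const

theorem smooth_d2 {G : ℂ → ℝ} {r : ℝ} (hG : ContDiffOn ℝ ∞ G (ball 0 r)) :
    ContDiffOn ℝ ∞ (d2 G) (ball 0 r) := by
  have h := hG.fderiv_of_isOpen isOpen_ball (m := ∞) (by simp)
  exact h.clm_apply contDiffOn_const

theorem diffOn {G : ℂ → ℝ} {r : ℝ} (hG : ContDiffOn ℝ ∞ G (ball 0 r)) :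
    DifferentiableOn ℝ G (ball 0 r) := hG.differentiableOn (by simp)

/-- symmetry of the second derivatives -/
theorem d1_d2 {G : ℂ → ℝ} {s : ℂ} (hG : ContDiffAt ℝ ∞ G s) : d1 (d2 G) s = d2 (d1 G) s := by
  have hs : IsSymmSndFDerivAt ℝ G s := hG.isSymmSndFDerivAt (by
    simp only [minSmoothness_of_isRCLikeNormedField]
    exact (WithTop.coe_le_coe.2 le_top : ((2 : ℕ∞) : WithTop ℕ∞) ≤ ((⊤ : ℕ∞) : WithTop ℕ∞)))
  have hd : DifferentiableAt ℝ (fderiv ℝ G) s := by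
    have h := hG.fderiv_right (m := ∞) (by simp)
    exact h.differentiableAt (by simp)
  have e1 : d1 (d2 G) s = fderiv ℝ (fderiv ℝ G) s 1 Complex.I := by
    unfold d1 d2
    rw [fderiv_clm_apply hd (differentiableAt_const _)]
    simp
  have e2 : d2 (d1 G) s = fderiv ℝ (fderiv ℝ G) s Complex.I 1 := by
    unfold d1 d2
    rw [fderiv_clm_apply hd (differentiableAt_const _)]
    simp
  rw [e1, e2]
  exact hs 1 Complex.I

/-- vanishing order by integration -/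
theorem order_step {u : ℂ → ℝ} {A B : ℂ → ℝ} {r C : ℝ} {k : ℕ} (hC : 0 ≤ C)
    (hu : ∀ s : ℂ, ‖s‖ ≤ r → HasFDerivAt u (A s • Complex.reCLM + B s • Complex.imCLM) s)
    (hA : ∀ s : ℂ, ‖s‖ ≤ r → |A s| ≤ C * ‖s‖ ^ k) (hB : ∀ s : ℂ, ‖s‖ ≤ r → |B s| ≤ C * ‖s‖ ^ k)
    (h0 : u 0 = 0) : ∀ s : ℂ, ‖s‖ ≤ r → |u s| ≤ (2 * C) * ‖s‖ ^ (k + 1) := by
  intro s hs
  have hconv : Convex ℝ (closedBall (0 : ℂ) ‖s‖) := convex_closedBall _ _
  have hbound : ∀ x ∈ closedBall (0 : ℂ) ‖s‖,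
      ‖A x • Complex.reCLM + B x • Complex.imCLM‖ ≤ 2 * C * ‖s‖ ^ k := by
    intro x hx
    rw [mem_closedBall_zero_iff] at hx
    have hxr : ‖x‖ ≤ r := hx.trans hs
    have h1 := hA x hxr
    have h2 := hB x hxr
    have h3 : C * ‖x‖ ^ k ≤ C * ‖s‖ ^ k := by gcongr
    calc ‖A x • Complex.reCLM + B x • Complex.imCLM‖
        ≤ ‖A x • Complex.reCLM‖ + ‖B x • Complex.imCLM‖ := norm_add_le _ _
      _ = |A x| + |B x| := by
          rw [norm_smul, norm_smul, Complex.reCLM_norm, Complex.imCLM_norm]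
          simp
      _ ≤ 2 * C * ‖s‖ ^ k := by linarith
  have h := hconv.norm_image_sub_le_of_norm_hasFDerivWithin_le
    (fun x hx => (hu x ((mem_closedBall_zero_iff.1 hx).trans hs)).hasFDerivWithinAt) hbound
    (mem_closedBall_self (norm_nonneg s)) (mem_closedBall_zero_iff.2 le_rfl)
  rw [h0, sub_zero, sub_zero, Real.norm_eq_abs] at h
  calc |u s| ≤ 2 * C * ‖s‖ ^ k * ‖s‖ := h
    _ = _ := by ring

theorem exists_bound {w : ℂ → ℝ} {r : ℝ} (hr : 0 < r) (hw : ContDiffOn ℝ ∞ w (ball 0 r)) :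
    ∃ C, 0 ≤ C ∧ ∀ s : ℂ, ‖s‖ ≤ r / 2 → |w s| ≤ C := by
  have hc : IsCompact (closedBall (0 : ℂ) (r / 2)) := isCompact_closedBall _ _
  have hsub : closedBall (0 : ℂ) (r / 2) ⊆ ball 0 r := closedBall_subset_ball (by linarith)
  obtain ⟨C, hC⟩ := hc.exists_bound_of_continuousOn (hw.continuousOn.mono hsub)
  refine ⟨C, (norm_nonneg _).trans (hC 0 (mem_closedBall_self (by positivity))), fun s hs => ?_⟩
  exact hC s (mem_closedBall_zero_iff.2 hs)

theorem order_one {w : ℂ → ℝ} {r : ℝ} (hr : 0 < r) (hw : ContDiffOn ℝ ∞ w (ball 0 r))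
    (h0 : w 0 = 0) : ∃ C, 0 ≤ C ∧ ∀ s : ℂ, ‖s‖ ≤ r / 2 → |w s| ≤ C * ‖s‖ ^ 1 := by
  obtain ⟨C1, hC1, h1⟩ := exists_bound hr (smooth_d1 hw)
  obtain ⟨C2, hC2, h2⟩ := exists_bound hr (smooth_d2 hw)
  refine ⟨2 * (C1 + C2), by positivity, ?_⟩
  have hC : 0 ≤ C1 + C2 := by positivity
  apply order_step (k := 0) hC (A := d1 w) (B := d2 w) _ _ _ h0
  · intro s hs
    apply hasFDerivAt_grad
    apply (diffOn hw).differentiableAt
    apply isOpen_ball.mem_nhds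
    rw [mem_ball_zero_iff]
    linarith
  · intro s hs
    have := h1 s hs
    simp
    linarith
  · intro s hs
    have := h2 s hs
    simp
    linarith

/-- third order vanishing of `v - a x y` -/
theorem order_three {v : ℂ → ℝ} {r : ℝ} (hr : 0 < r) (hv : ContDiffOn ℝ ∞ v (ball 0 r))
    (h0 : v 0 = 0) (h1 : d1 v 0 = 0) (h2 : d2 v 0 = 0) (h11 : d1 (d1 v) 0 = 0)
    (h22 : d2 (d2 v) 0 = 0) : ∃ C, 0 ≤ C ∧ ∀ s : ℂ, ‖s‖ ≤ r / 2 →
      |v s - d2 (d1 v) 0 * s.re * s.im| ≤ C * ‖s‖ ^ 3 := by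
  set a := d2 (d1 v) 0 with ha
  have h00 : (0 : ℂ) ∈ ball (0 : ℂ) r := mem_ball_self hr
  have hsym : d1 (d2 v) 0 = a := d1_d2 (hv.contDiffAt (isOpen_ball.mem_nhds h00))
  have hball : ∀ s : ℂ, ‖s‖ ≤ r / 2 → s ∈ ball (0 : ℂ) r := by
    intro s hs
    rw [mem_ball_zero_iff]
    linarith
  have s1 := smooth_d1 hv
  have s2 := smooth_d2 hv
  have s11 := smooth_d1 s1
  have s12 := smooth_d2 s1
  have s21 := smooth_d1 s2
  have s22 := smooth_d2 s2
  obtain ⟨C11, hC11, b11⟩ := order_one hr s11 h11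
  obtain ⟨C22, hC22, b22⟩ := order_one hr s22 h22
  obtain ⟨C12, hC12, b12⟩ := order_one (w := fun s => d2 (d1 v) s - a) hr
    (s12.sub contDiffOn_const) (by simp [ha])
  obtain ⟨C21, hC21, b21⟩ := order_one (w := fun s => d1 (d2 v) s - a) hr
    (s21.sub contDiffOn_const) (by simp [hsym])
  set C := C11 + C12 + C21 + C22 with hC
  have hC0 : 0 ≤ C := by positivity
  have hdat : ∀ {w : ℂ → ℝ}, ContDiffOn ℝ ∞ w (ball 0 r) → ∀ s : ℂ, ‖s‖ ≤ r / 2 →
      HasFDerivAt w (d1 w s • Complex.reCLM + d2 w s • Complex.imCLM) s := by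
    intro w hw s hs
    apply hasFDerivAt_grad
    exact (diffOn hw).differentiableAt (isOpen_ball.mem_nhds (hball s hs))
  have hle : ∀ {c x y : ℝ}, 0 ≤ c → c ≤ C → 0 ≤ y → x ≤ c * y → x ≤ C * y := by
    intro c x y _ h2 h3 h4
    exact h4.trans (mul_le_mul_of_nonneg_right h2 h3)
  -- first derivatives
  have b1 : ∀ s : ℂ, ‖s‖ ≤ r / 2 → |d1 v s - a * s.im| ≤ (2 * C) * ‖s‖ ^ 2 := by
    apply order_step (k := 1) hC0 (A := fun s => d1 (d1 v) s) (B := fun s => d2 (d1 v) s - a)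
    · intro s hs
      have h := (hdat s1 s hs).sub ((Complex.imCLM.hasFDerivAt (x := s)).const_mul a)
      refine HasFDerivAt.congr_fderiv h ?_
      ext w
      simp
      ring
    · intro s hs
      exact hle hC11 (by rw [hC]; linarith) (by positivity) (b11 s hs)
    · intro s hs
      exact hle hC12 (by rw [hC]; linarith) (by positivity) (b12 s hs)
    · simp [h1]
  have b2 : ∀ s : ℂ, ‖s‖ ≤ r / 2 → |d2 v s - a * s.re| ≤ (2 * C) * ‖s‖ ^ 2 := by
    apply order_step (k := 1) hC0 (A := fun s => d1 (d2 v) s - a) (B := fun s => d2 (d2 v) s)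
    · intro s hs
      have h := (hdat s2 s hs).sub ((Complex.reCLM.hasFDerivAt (x := s)).const_mul a)
      refine HasFDerivAt.congr_fderiv h ?_
      ext w
      simp
      ring
    · intro s hs
      exact hle hC21 (by rw [hC]; linarith) (by positivity) (b21 s hs)
    · intro s hs
      exact hle hC22 (by rw [hC]; linarith) (by positivity) (b22 s hs)
    · simp [h2]
  refine ⟨2 * (2 * C), by positivity, ?_⟩
  apply order_step (k := 2) (by positivity) (A := fun s => d1 v s - a * s.im)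
    (B := fun s => d2 v s - a * s.re)
  · intro s hs
    have h := (hdat hv s hs).sub (((Complex.reCLM.hasFDerivAt (x := s)).const_mul a).mul
      (Complex.imCLM.hasFDerivAt (x := s)))
    refine HasFDerivAt.congr_fderiv h ?_
    ext w
    simp
    ring
  · exact b1
  · exact b2
  · simp [h0]

/-! ## consequences of the wall -/

section wall

variable {g : ℂ → ℝ} {r : ℝ}

theorem mk_zero_ball {x : ℝ} (h : |x| < r) : (⟨x, 0⟩ : ℂ) ∈ ball (0 : ℂ) r := by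
  rw [mem_ball_zero_iff]
  have : (⟨x, 0⟩ : ℂ) = (x : ℂ) := rfl
  rw [this, Complex.norm_real]
  exact h

theorem zero_mk_ball {t : ℝ} (h : |t| < r) : (⟨0, t⟩ : ℂ) ∈ ball (0 : ℂ) r := by
  rw [mem_ball_zero_iff]
  have : (⟨0, t⟩ : ℂ) = (t : ℂ) * Complex.I := by
    apply Complex.ext <;> simp
  rw [this, norm_mul, Complex.norm_real, Complex.norm_I, mul_one]
  exact h

/-- a continuous function negative at a point is negative near it -/
theorem neg_near {G : ℂ → ℝ} (hG : ContinuousOn G (ball 0 r)) {p : ℂ} (hp : p ∈ ball (0 : ℂ) r)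
    (h : G p < 0) : ∃ δ > 0, ∀ s : ℂ, ‖s - p‖ < δ → s ∈ ball (0 : ℂ) r ∧ G s < 0 := by
  have hc : ContinuousAt G p := hG.continuousAt (isOpen_ball.mem_nhds hp)
  have h1 : ∀ᶠ s in 𝓝 p, s ∈ ball (0 : ℂ) r ∧ G s < 0 :=
    (isOpen_ball.eventually_mem hp).and (hc.eventually_lt continuousAt_const h)
  obtain ⟨δ, hδ, h2⟩ := Metric.eventually_nhds_iff.1 h1
  exact ⟨δ, hδ, fun s hs => h2 (by rwa [dist_eq_norm])⟩

theorem norm_mk_im_sub (x t : ℝ) : ‖(⟨x, t⟩ : ℂ) - ⟨x, 0⟩‖ = |t| := by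
  have : (⟨x, t⟩ : ℂ) - ⟨x, 0⟩ = (t : ℂ) * Complex.I := by
    apply Complex.ext <;> simp
  rw [this, norm_mul, Complex.norm_real, Complex.norm_I, mul_one, Real.norm_eq_abs]

theorem norm_mk_re_sub (x : ℝ) : ‖(⟨x, 0⟩ : ℂ) - ⟨0, 0⟩‖ = |x| := by
  have : (⟨x, 0⟩ : ℂ) - ⟨0, 0⟩ = (x : ℂ) := by
    apply Complex.ext <;> simp
  rw [this, Complex.norm_real, Real.norm_eq_abs]

/-- `g` does not decrease at the first instant -/
theorem wall_d2 (hg : ContDiffOn ℝ ∞ g (ball 0 r))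
    (hw : ∀ s ∈ ball (0 : ℂ) r, 0 ≤ s.im → g (s.re : ℂ) ≤ g s) {x : ℝ}
    (hx : (⟨x, 0⟩ : ℂ) ∈ ball (0 : ℂ) r) : 0 ≤ d2 g ⟨x, 0⟩ := by
  by_contra hneg
  push Not at hneg
  obtain ⟨δ, hδ, h⟩ := neg_near (smooth_d2 hg).continuousOn hx hneg
  have ht : (0 : ℝ) < δ / 2 := by positivity
  have h1 := h ⟨x, δ / 2⟩ (by rw [norm_mk_im_sub, abs_of_pos ht]; linarith)
  obtain ⟨τ, hτ0, hτ1, hτ⟩ := mvt_im (diffOn hg) ht h1.1
  have h2 := h ⟨x, τ⟩ (by rw [norm_mk_im_sub, abs_of_pos hτ0]; linarith)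
  have h3 := hw ⟨x, δ / 2⟩ h1.1 ht.le
  have h4 : g ⟨x, 0⟩ ≤ g ⟨x, δ / 2⟩ := h3
  nlinarith [h2.2]

/-- second derivative at a point of vanishing first derivative -/
theorem wall_d22 (hg : ContDiffOn ℝ ∞ g (ball 0 r))
    (hw : ∀ s ∈ ball (0 : ℂ) r, 0 ≤ s.im → g (s.re : ℂ) ≤ g s) (hr : 0 < r)
    (h0 : d2 g 0 = 0) : 0 ≤ d2 (d2 g) 0 := by
  by_contra hneg
  push Not at hneg
  obtain ⟨δ, hδ, h⟩ := neg_near (smooth_d2 (smooth_d2 hg)).continuousOn
    (mem_ball_self hr : (0 : ℂ) ∈ ball (0 : ℂ) r) hneg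
  have h' : ∀ t : ℝ, 0 < t → t < δ → (⟨0, t⟩ : ℂ) ∈ ball (0 : ℂ) r ∧ d2 (d2 g) ⟨0, t⟩ < 0 := by
    intro t h1 h2
    apply h
    have := norm_mk_im_sub 0 t
    rw [abs_of_pos h1] at this
    have e : (⟨0, 0⟩ : ℂ) = 0 := rfl
    rw [e] at this
    linarith
  have ht : (0 : ℝ) < δ / 2 := by positivity
  have h1 := (h' (δ / 2) ht (by linarith)).1
  obtain ⟨τ, hτ0, hτ1, hτ⟩ := mvt_im (diffOn hg) ht h1
  have h2 := (h' τ hτ0 (by linarith)).1
  obtain ⟨σ, hσ0, hσ1, hσ⟩ := mvt_im (diffOn (smooth_d2 hg)) hτ0 h2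
  have h3 := (h' σ hσ0 (by linarith)).2
  have e : (⟨0, 0⟩ : ℂ) = 0 := rfl
  rw [e, h0] at hσ
  have h4 : g ⟨0, 0⟩ ≤ g ⟨0, δ / 2⟩ := hw ⟨0, δ / 2⟩ h1 ht.le
  have h5 : d2 g ⟨0, τ⟩ < 0 := by nlinarith
  nlinarith

/-- third derivative at a point of vanishing first and second derivative -/
theorem wall_d222 (hg : ContDiffOn ℝ ∞ g (ball 0 r))
    (hw : ∀ s ∈ ball (0 : ℂ) r, 0 ≤ s.im → g (s.re : ℂ) ≤ g s) (hr : 0 < r)
    (h0 : d2 g 0 = 0) (h1 : d2 (d2 g) 0 = 0) : 0 ≤ d2 (d2 (d2 g)) 0 := by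
  by_contra hneg
  push Not at hneg
  obtain ⟨δ, hδ, h⟩ := neg_near (smooth_d2 (smooth_d2 (smooth_d2 hg))).continuousOn
    (mem_ball_self hr : (0 : ℂ) ∈ ball (0 : ℂ) r) hneg
  have h' : ∀ t : ℝ, 0 < t → t < δ → (⟨0, t⟩ : ℂ) ∈ ball (0 : ℂ) r ∧
      d2 (d2 (d2 g)) ⟨0, t⟩ < 0 := by
    intro t h1 h2
    apply h
    have := norm_mk_im_sub 0 t
    rw [abs_of_pos h1] at this
    have e : (⟨0, 0⟩ : ℂ) = 0 := rfl
    rw [e] at this
    linarith
  have ht : (0 : ℝ) < δ / 2 := by positivity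
  have k1 := (h' (δ / 2) ht (by linarith)).1
  obtain ⟨τ, hτ0, hτ1, hτ⟩ := mvt_im (diffOn hg) ht k1
  have k2 := (h' τ hτ0 (by linarith)).1
  obtain ⟨σ, hσ0, hσ1, hσ⟩ := mvt_im (diffOn (smooth_d2 hg)) hτ0 k2
  have k3 := (h' σ hσ0 (by linarith)).1
  obtain ⟨ρ, hρ0, hρ1, hρ⟩ := mvt_im (diffOn (smooth_d2 (smooth_d2 hg))) hσ0 k3
  have k4 := (h' ρ hρ0 (by linarith)).2
  have e : (⟨0, 0⟩ : ℂ) = 0 := rfl
  rw [e, h0] at hσ
  rw [e, h1] at hρ
  have k5 : g ⟨0, 0⟩ ≤ g ⟨0, δ / 2⟩ := hw ⟨0, δ / 2⟩ k1 ht.le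
  have k6 : d2 (d2 g) ⟨0, σ⟩ < 0 := by nlinarith
  have k7 : d2 g ⟨0, τ⟩ < 0 := by nlinarith
  nlinarith

/-- second derivative along the wall -/
theorem wall_d112 (hg : ContDiffOn ℝ ∞ g (ball 0 r))
    (hw : ∀ s ∈ ball (0 : ℂ) r, 0 ≤ s.im → g (s.re : ℂ) ≤ g s) (hr : 0 < r)
    (h0 : d2 g 0 = 0) (h1 : d1 (d2 g) 0 = 0) : 0 ≤ d1 (d1 (d2 g)) 0 := by
  by_contra hneg
  push Not at hneg
  obtain ⟨δ, hδ, h⟩ := neg_near (smooth_d1 (smooth_d1 (smooth_d2 hg))).continuousOn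
    (mem_ball_self hr : (0 : ℂ) ∈ ball (0 : ℂ) r) hneg
  have h' : ∀ t : ℝ, 0 < t → t < δ → (⟨t, 0⟩ : ℂ) ∈ ball (0 : ℂ) r ∧
      d1 (d1 (d2 g)) ⟨t, 0⟩ < 0 := by
    intro t h1 h2
    apply h
    have := norm_mk_re_sub t
    rw [abs_of_pos h1] at this
    have e : (⟨0, 0⟩ : ℂ) = 0 := rfl
    rw [e] at this
    linarith
  have ht : (0 : ℝ) < δ / 2 := by positivity
  have k1 := (h' (δ / 2) ht (by linarith)).1
  obtain ⟨τ, hτ0, hτ1, hτ⟩ := mvt_re (diffOn (smooth_d2 hg)) ht k1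
  have k2 := (h' τ hτ0 (by linarith)).1
  obtain ⟨σ, hσ0, hσ1, hσ⟩ := mvt_re (diffOn (smooth_d1 (smooth_d2 hg))) hτ0 k2
  have k3 := (h' σ hσ0 (by linarith)).2
  have e : (⟨0, 0⟩ : ℂ) = 0 := rfl
  rw [e, h1] at hσ
  rw [e, h0] at hτ
  have k5 : 0 ≤ d2 g ⟨δ / 2, 0⟩ := wall_d2 hg hw k1
  have k7 : d1 (d2 g) ⟨τ, 0⟩ < 0 := by nlinarith
  nlinarith

/-- the first derivative along the wall vanishes -/
theorem wall_d12 (hg : ContDiffOn ℝ ∞ g (ball 0 r))
    (hw : ∀ s ∈ ball (0 : ℂ) r, 0 ≤ s.im → g (s.re : ℂ) ≤ g s) (hr : 0 < r)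
    (h0 : d2 g 0 = 0) : d1 (d2 g) 0 = 0 := by
  have hmin : IsLocalMin (fun x : ℝ => d2 g ⟨x, 0⟩) 0 := by
    have : ∀ᶠ x : ℝ in 𝓝 0, |x| < r := by
      have := (continuous_abs.tendsto (0 : ℝ)).eventually_lt_const (u := r) (by simpa using hr)
      exact this
    filter_upwards [this] with x hx
    have e : (⟨0, 0⟩ : ℂ) = 0 := rfl
    rw [e, h0]
    exact wall_d2 hg hw (mk_zero_ball hx)
  have hd : HasDerivAt (fun x : ℝ => d2 g ⟨x, 0⟩) (d1 (d2 g) ⟨0, 0⟩) 0 :=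
    hasDerivAt_re ((diffOn (smooth_d2 hg)).differentiableAt
      (isOpen_ball.mem_nhds (mem_ball_self hr : (0 : ℂ) ∈ ball (0 : ℂ) r)))
  exact hmin.hasDerivAt_eq_zero hd

/-- case of positive second derivative -/
theorem wall_pos (hg : ContDiffOn ℝ ∞ g (ball 0 r))
    (hw : ∀ s ∈ ball (0 : ℂ) r, 0 ≤ s.im → g (s.re : ℂ) ≤ g s) (hr : 0 < r)
    (hc : 0 < d2 (d2 g) 0) : ∃ r' > 0, r' ≤ r ∧ ∀ s ∈ ball (0 : ℂ) r', 0 < s.im →
      g (s.re : ℂ) < g s := by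
  have hc' : (fun s => - d2 (d2 g) s) 0 < 0 := by
    simpa using hc
  obtain ⟨δ, hδ, h⟩ := neg_near (G := fun s => - d2 (d2 g) s)
    (smooth_d2 (smooth_d2 hg)).continuousOn.neg
    (mem_ball_self hr : (0 : ℂ) ∈ ball (0 : ℂ) r) hc'
  refine ⟨min δ r, lt_min hδ hr, min_le_right _ _, fun s hs hs2 => ?_⟩
  obtain ⟨x, t⟩ := s
  rw [mem_ball_zero_iff, lt_min_iff] at hs
  simp only at hs2
  have hs' : (⟨x, t⟩ : ℂ) ∈ ball (0 : ℂ) r := mem_ball_zero_iff.2 hs.2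
  obtain ⟨τ, hτ0, hτ1, hτ⟩ := mvt_im (diffOn hg) hs2 hs'
  have h1 : (⟨x, τ⟩ : ℂ) ∈ ball (0 : ℂ) r :=
    mem_ball_zero_iff.2 ((norm_mk_le hτ0.le hτ1.le).trans_lt hs.2)
  obtain ⟨σ, hσ0, hσ1, hσ⟩ := mvt_im (diffOn (smooth_d2 hg)) hτ0 h1
  have h2 := (h ⟨x, σ⟩ (by
    rw [sub_zero]
    exact (norm_mk_le hσ0.le (hσ1.le.trans hτ1.le)).trans_lt hs.1)).2
  have h3 : (⟨x, 0⟩ : ℂ) ∈ ball (0 : ℂ) r :=
    mem_ball_zero_iff.2 ((norm_mk_le le_rfl hs2.le).trans_lt hs.2)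
  have h4 := wall_d2 hg hw h3
  have h5 : 0 < d2 (d2 g) ⟨x, σ⟩ := by simpa using h2
  have h6 : 0 < d2 g ⟨x, τ⟩ := by nlinarith
  have h7 : g ⟨x, 0⟩ < g ⟨x, t⟩ := by nlinarith
  exact h7

theorem continuousOn_mk {A B : ℂ → ℝ} {U : Set ℂ} (hA : ContinuousOn A U)
    (hB : ContinuousOn B U) : ContinuousOn (fun s => (⟨A s, B s⟩ : ℂ)) U := by
  have e : (fun s => (⟨A s, B s⟩ : ℂ)) = fun s => ((A s : ℝ) : ℂ) + ((B s : ℝ) : ℂ) * Complex.I := by
    funext s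
    exact Complex.mk_eq_add_mul_I _ _
  rw [e]
  exact (Complex.continuous_ofReal.comp_continuousOn hA).add
    ((Complex.continuous_ofReal.comp_continuousOn hB).mul continuousOn_const)

/-- continuity of the coefficients -/
theorem continuousOn_grad (hg : ContDiffOn ℝ ∞ g (ball 0 r)) :
    ContinuousOn (fun s => grad g s) (ball 0 r) :=
  continuousOn_mk (smooth_d1 hg).continuousOn (smooth_d2 hg).continuousOn

theorem continuousOn_dcurv (hg : ContDiffOn ℝ ∞ g (ball 0 r)) :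
    ContinuousOn (fun s => dcurv (grad g s) (hess g s)) (ball 0 r) := by
  have h1 := (smooth_d1 hg).continuousOn
  have h2 := (smooth_d2 hg).continuousOn
  have h11 := (smooth_d1 (smooth_d1 hg)).continuousOn
  have h12 := (smooth_d2 (smooth_d1 hg)).continuousOn
  have h22 := (smooth_d2 (smooth_d2 hg)).continuousOn
  have hW : ContinuousOn (fun s => W (grad g s)) (ball 0 r) :=
    continuous_W.comp_continuousOn (continuousOn_grad hg)
  have hl : ContinuousOn (fun s => lin (grad g s) (hess g s)) (ball 0 r) := by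
    unfold lin grad hess
    simp only
    fun_prop
  have hre : ContinuousOn (fun s => (2 * d1 g s * d2 (d2 g) s - 2 * d2 g s * d2 (d1 g) s)
      - 3 * d1 g s * lin (grad g s) (hess g s) / (W (grad g s)) ^ 2) (ball 0 r) := by
    apply ContinuousOn.sub
    · fun_prop
    · apply ContinuousOn.div
      · fun_prop
      · fun_prop
      · intro s _
        exact pow_ne_zero _ (W_pos _).ne'
  have him : ContinuousOn (fun s => (2 * d2 g s * d1 (d1 g) s - 2 * d1 g s * d2 (d1 g) s)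
      - 3 * d2 g s * lin (grad g s) (hess g s) / (W (grad g s)) ^ 2) (ball 0 r) := by
    apply ContinuousOn.sub
    · fun_prop
    · apply ContinuousOn.div
      · fun_prop
      · fun_prop
      · intro s _
        exact pow_ne_zero _ (W_pos _).ne'
  exact continuousOn_mk hre him

theorem continuousOn_Lop {h : ℂ → ℝ} (hg : ContDiffOn ℝ ∞ g (ball 0 r))
    (hh : ContDiffOn ℝ ∞ h (ball 0 r)) : ContinuousOn (fun s => Lop g h s) (ball 0 r) := by
  have h1 := (smooth_d1 hg).continuousOn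
  have h2 := (smooth_d2 hg).continuousOn
  have k1 := (smooth_d1 hh).continuousOn
  have k2 := (smooth_d2 hh).continuousOn
  have k11 := (smooth_d1 (smooth_d1 hh)).continuousOn
  have k12 := (smooth_d2 (smooth_d1 hh)).continuousOn
  have k22 := (smooth_d2 (smooth_d2 hh)).continuousOn
  have hb := continuousOn_dcurv hg
  have hre : ContinuousOn (fun s => (dcurv (grad g s) (hess g s)).re) (ball 0 r) :=
    Complex.continuous_re.comp_continuousOn hb
  have him : ContinuousOn (fun s => (dcurv (grad g s) (hess g s)).im) (ball 0 r) :=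
    Complex.continuous_im.comp_continuousOn hb
  have e : (fun s => Lop g h s) = fun s =>
      ((1 + d2 g s ^ 2) * d1 (d1 h) s - 2 * d1 g s * d2 g s * d2 (d1 h) s
        + (1 + d1 g s ^ 2) * d2 (d2 h) s)
      + ((dcurv (grad g s) (hess g s)).re * d1 h s + (dcurv (grad g s) (hess g s)).im * d2 h s) := by
    funext s
    simp only [Lop, lin, ip, grad, hess]
  rw [e]
  fun_prop

/-- the degenerate case is impossible -/
theorem wall_false (hL : LinPDEStatement) (hC : CornerStatement) {k κ r₁ : ℝ}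
    (hg : ContDiffOn ℝ ∞ g (ball 0 r)) (hr : 0 < r) (hgrad : grad g 0 = 0)
    (hw : ∀ s ∈ ball (0 : ℂ) r, 0 ≤ s.im → g (s.re : ℂ) ≤ g s)
    (hmc : ∀ s ∈ ball (0 : ℂ) r, 0 < s.im → mc g s = k)
    (hc : d2 (d2 g) 0 = 0) (hκ : κ = 1 ∨ κ = -1) (hr₁ : 0 < r₁) (hr₁r : r₁ ≤ r)
    (hpos : ∀ s ∈ ball (0 : ℂ) r₁, 0 < κ * s.re → 0 < s.im → 0 < d2 g s) : False := by
  have h2 : d2 g 0 = 0 := by
    have := congrArg Complex.im hgrad
    simpa [grad] using this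
  have h00 : (0 : ℂ) ∈ ball (0 : ℂ) r := mem_ball_self hr
  have sv := smooth_d2 hg
  have hv1 : d1 (d2 g) 0 = 0 := wall_d12 hg hw hr h2
  have hv11 : 0 ≤ d1 (d1 (d2 g)) 0 := wall_d112 hg hw hr h2 hv1
  have hv22 : 0 ≤ d2 (d2 (d2 g)) 0 := wall_d222 hg hw hr h2 hc
  -- the linear equation
  have hU : IsOpen {s : ℂ | s ∈ ball (0 : ℂ) r ∧ 0 < s.im} :=
    isOpen_ball.inter (isOpen_lt continuous_const Complex.continuous_im)
  have hLop : ∀ s ∈ {s : ℂ | s ∈ ball (0 : ℂ) r ∧ 0 < s.im}, Lop g (d2 g) s = 0 :=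
    hL _ g k Complex.I hU (hg.mono fun s hs => hs.1) (fun s hs => hmc s hs.1 hs.2)
  have hLop0 : Lop g (d2 g) 0 = 0 := by
    have hc0 : ContinuousAt (fun s => Lop g (d2 g) s) 0 :=
      (continuousOn_Lop hg sv).continuousAt (isOpen_ball.mem_nhds h00)
    have hlim : Tendsto (fun n : ℕ => (⟨0, r / ((n : ℝ) + 2)⟩ : ℂ)) atTop (𝓝 0) := by
      have h1 : Tendsto (fun n : ℕ => r / ((n : ℝ) + 2)) atTop (𝓝 0) := by
        apply Tendsto.div_atTop tendsto_const_nhds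
        exact tendsto_atTop_add_const_right _ _ tendsto_natCast_atTop_atTop
      have e : (fun n : ℕ => (⟨0, r / ((n : ℝ) + 2)⟩ : ℂ)) =
          fun n : ℕ => ((r / ((n : ℝ) + 2) : ℝ) : ℂ) * Complex.I := by
        funext n
        rw [Complex.mk_eq_add_mul_I, Complex.ofReal_zero, zero_add]
      rw [e]
      have h2 := ((Complex.continuous_ofReal.tendsto 0).comp h1).mul_const Complex.I
      simpa using h2
    have h3 := hc0.tendsto.comp hlim
    have h4 : ∀ n : ℕ, Lop g (d2 g) (⟨0, r / ((n : ℝ) + 2)⟩ : ℂ) = 0 := by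
      intro n
      apply hLop
      have hn : (0 : ℝ) ≤ n := Nat.cast_nonneg n
      refine ⟨zero_mk_ball ?_, ?_⟩
      · rw [abs_of_pos (by positivity), div_lt_iff₀ (by positivity)]
        nlinarith
      · change 0 < r / ((n : ℝ) + 2)
        positivity
    have h5 : ((fun s => Lop g (d2 g) s) ∘ fun n : ℕ => (⟨0, r / ((n : ℝ) + 2)⟩ : ℂ)) =
        fun _ => (0 : ℝ) := by
      funext n
      exact h4 n
    rw [h5] at h3
    exact tendsto_nhds_unique h3 tendsto_const_nhds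
  have hsum : d1 (d1 (d2 g)) 0 + d2 (d2 (d2 g)) 0 = 0 := by
    have h1 : d1 g 0 = 0 := by
      have := congrArg Complex.re hgrad
      simpa [grad] using this
    have := hLop0
    simp only [Lop, lin, ip, grad, hess, h1, h2, hv1, hc] at this
    simpa using this
  have hv11' : d1 (d1 (d2 g)) 0 = 0 := by linarith
  have hv22' : d2 (d2 (d2 g)) 0 = 0 := by linarith
  obtain ⟨C, hC0, hb⟩ := order_three hr sv h2 hv1 hc hv11' hv22'
  set a := d2 (d1 (d2 g)) 0 with ha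
  -- `a = 0`
  have ha0 : a = 0 := by
    have key : ∀ t : ℝ, 0 < t → t ≤ r / 4 → |a| ≤ 16 * C * t := by
      intro t ht htr
      obtain ⟨ς, hς, hςa⟩ : ∃ ς : ℝ, |ς| = 1 ∧ a * ς = -|a| := by
        rcases le_total 0 a with h | h
        · exact ⟨-1, by simp, by rw [abs_of_nonneg h]; ring⟩
        · exact ⟨1, by simp, by rw [abs_of_nonpos h]; ring⟩
      have hnorm : ∀ τ, 0 ≤ τ → τ ≤ t → ‖(⟨ς * t, τ⟩ : ℂ)‖ ≤ 2 * t := by
        intro τ h1 h2
        have e : (⟨ς * t, τ⟩ : ℂ) = ((ς * t : ℝ) : ℂ) + ((τ : ℝ) : ℂ) * Complex.I := by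
          apply Complex.ext <;> simp
        rw [e]
        calc ‖((ς * t : ℝ) : ℂ) + ((τ : ℝ) : ℂ) * Complex.I‖
            ≤ ‖((ς * t : ℝ) : ℂ)‖ + ‖((τ : ℝ) : ℂ) * Complex.I‖ := norm_add_le _ _
          _ = t + τ := by
              rw [norm_mul, Complex.norm_I, Complex.norm_real, Complex.norm_real,
                Real.norm_eq_abs, Real.norm_eq_abs, abs_mul, hς, abs_of_pos ht, abs_of_nonneg h1]
              ring
          _ ≤ 2 * t := by linarith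
      have hdt : ∀ τ ∈ Icc (0 : ℝ) t, HasDerivAt
          (fun τ : ℝ => g ⟨ς * t, τ⟩ - a * (ς * t) * τ ^ 2 / 2)
          (d2 g ⟨ς * t, τ⟩ - a * (ς * t) * τ) τ := by
        intro τ hτ
        have h1 : DifferentiableAt ℝ g ⟨ς * t, τ⟩ := by
          apply (diffOn hg).differentiableAt
          apply isOpen_ball.mem_nhds
          rw [mem_ball_zero_iff]
          have := hnorm τ hτ.1 hτ.2
          linarith
        have h2 := hasDerivAt_im h1
        have h3 : HasDerivAt (fun τ : ℝ => a * (ς * t) * τ ^ 2 / 2) (a * (ς * t) * τ) τ := by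
          have := ((hasDerivAt_id τ).pow 2).const_mul (a * (ς * t) / 2)
          refine HasDerivAt.congr_deriv ?_ (?_ : a * (ς * t) / 2 * (2 * τ) = a * (ς * t) * τ)
          · have e : (fun τ : ℝ => a * (ς * t) * τ ^ 2 / 2) = fun τ : ℝ =>
                a * (ς * t) / 2 * τ ^ 2 := by
              funext τ
              ring
            rw [e]
            simpa using this
          · ring
        exact h2.sub h3
      obtain ⟨τ, hτ, hslope⟩ := exists_hasDerivAt_eq_slope _ _ ht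
        (fun τ hτ => (hdt τ hτ).continuousAt.continuousWithinAt)
        (fun τ hτ => hdt τ (Ioo_subset_Icc_self hτ))
      have h1 := hb ⟨ς * t, τ⟩ (by
        have := hnorm τ hτ.1.le hτ.2.le
        linarith)
      simp only at h1
      have h2 : ‖(⟨ς * t, τ⟩ : ℂ)‖ ^ 3 ≤ (2 * t) ^ 3 :=
        pow_le_pow_left₀ (norm_nonneg _) (hnorm τ hτ.1.le hτ.2.le) 3
      have h3 : |d2 g ⟨ς * t, τ⟩ - a * (ς * t) * τ| ≤ C * (2 * t) ^ 3 :=
        h1.trans (mul_le_mul_of_nonneg_left h2 hC0)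
      rw [eq_div_iff (by linarith : t - 0 ≠ 0)] at hslope
      have h4 : g ⟨ς * t, 0⟩ ≤ g ⟨ς * t, t⟩ := by
        apply hw ⟨ς * t, t⟩ _ ht.le
        rw [mem_ball_zero_iff]
        have := hnorm t ht.le le_rfl
        linarith
      have h5 : (d2 g ⟨ς * t, τ⟩ - a * (ς * t) * τ) * t ≤ C * (2 * t) ^ 3 * t :=
        mul_le_mul_of_nonneg_right ((le_abs_self _).trans h3) ht.le
      have h6 : a * (ς * t) * t ^ 2 / 2 = -|a| * t ^ 3 / 2 := by
        rw [← hςa]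
        ring
      have h7 : |a| * t ^ 3 / 2 ≤ C * (2 * t) ^ 3 * t := by
        simp only [sub_zero] at hslope
        nlinarith
      have h8 : |a| * t ^ 3 ≤ (16 * C * t) * t ^ 3 := by
        nlinarith
      exact le_of_mul_le_mul_right h8 (by positivity)
    by_contra hne
    have hpos' : 0 < |a| := abs_pos.2 hne
    have h1 := key (min (r / 4) (|a| / (32 * (C + 1)))) (lt_min (by positivity) (by positivity))
      (min_le_left _ _)
    have h2 : 16 * C * min (r / 4) (|a| / (32 * (C + 1))) ≤ 16 * C * (|a| / (32 * (C + 1))) := by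
      gcongr
      exact min_le_right _ _
    have h3 : 16 * C * (|a| / (32 * (C + 1))) ≤ |a| / 2 := by
      rw [mul_div_assoc', div_le_div_iff₀ (by positivity) (by positivity)]
      nlinarith
    linarith
  rw [ha0] at hb
  have hr₂ : 0 < min r₁ (r / 2) := lt_min hr₁ (by positivity)
  have hsub : ball (0 : ℂ) (min r₁ (r / 2)) ⊆ ball 0 r :=
    ball_subset_ball ((min_le_left _ _).trans hr₁r)
  refine hC (min r₁ (r / 2)) (d2 g) (fun s => grad g s) (fun s => dcurv (grad g s) (hess g s)) κ C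
    hr₂ hκ ((sv.of_le
      (WithTop.coe_le_coe.2 le_top : ((2 : ℕ∞) : WithTop ℕ∞) ≤ ((⊤ : ℕ∞) : WithTop ℕ∞))).mono hsub)
    ((continuousOn_grad hg).mono hsub)
    ((continuousOn_dcurv hg).mono hsub) hgrad ?_ ?_
  · intro s hs h1 h2
    refine ⟨hpos s (ball_subset_ball (min_le_left _ _) hs) h1 h2, ?_⟩
    exact hLop s ⟨hsub hs, h2⟩
  · intro s hs h1 h2
    have h3 := hb s (by
      rw [mem_ball_zero_iff, lt_min_iff] at hs
      exact hs.2.le)
    simp only [zero_mul, sub_zero] at h3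
    exact (le_abs_self _).trans h3

end wall

end StepAux

open StepAux

/-- STEP -/
theorem STEP_holds (hV : VertBdStatement.{u}) (hN : NoContactStatement.{u})
    (hL : LinPDEStatement) (hC : CornerStatement) (hB : BasicStatement.{u}) :
    GoodStepStatement.{u} := by
  intro M _ _ _ S hcn TF θ κ hν hκ hgood
  obtain ⟨κF, F, r, g, e, P⟩ := hV M S hcn θ hν
  obtain ⟨δ, hδ, hgood⟩ := hgood
  obtain ⟨hf, hNc, hbdc, hbc, hper, hsurj, hunit, hperp⟩ := hB M S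
  have hr : 0 < r := P.patch.r_pos
  have hg : ContDiffOn ℝ ∞ g (ball 0 r) := P.patch.smooth
  have hgrad : grad g 0 = 0 := P.patch.grad_zero
  have hw : ∀ s ∈ ball (0 : ℂ) r, 0 ≤ s.im → g (s.re : ℂ) ≤ g s := fun s hs h => P.wall s ⟨hs, h⟩
  have hd20 : d2 g 0 = 0 := by
    have := congrArg Complex.im hgrad
    simpa [grad] using this
  have hκF : κF * κF = 1 := by
    rcases P.sign with h | h <;> rw [h] <;> norm_num
  have hκκ : κ * κ = 1 := by
    rcases hκ with h | h <;> rw [h] <;> norm_num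
  have hγγ : ip (deriv S.γ θ) (deriv S.γ θ) = 1 := by
    rw [ip_self, S.curve.unit θ]
    norm_num
  -- the parametrisation
  have hpt1 : ∀ s : ℂ, s ∈ ball (0 : ℂ) r → 0 ≤ s.im → (S.f (e.symm s)).1 =
      S.γ θ + s.re • ((κF : ℂ) * deriv S.γ θ) + g s • (Complex.I * deriv S.γ θ) := by
    intro s hs h
    rw [P.patch.param s ⟨hs, h⟩, S.f_b θ]
    simp [Frame.pt, P.ha, P.hb, P.hn]
  have hpt2 : ∀ s : ℂ, s ∈ ball (0 : ℂ) r → 0 ≤ s.im → (S.f (e.symm s)).2 = s.im := by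
    intro s hs h
    rw [P.patch.param s ⟨hs, h⟩, S.f_b θ]
    simp [Frame.pt, P.ha, P.hb, P.hn]
  have htarget : ∀ q ∈ e.source, e q ∈ ball (0 : ℂ) r ∧ 0 ≤ (e q).im := by
    intro q hq
    have h := e.map_source hq
    rw [P.patch.target] at h
    exact h
  -- boundary points near `b θ`
  have hbpt : ∀ θ', S.b θ' ∈ e.source → (e (S.b θ')).im = 0 ∧
      ip (S.γ θ' - S.γ θ) (deriv S.γ θ) = κF * (e (S.b θ')).re := by
    intro θ' hq
    obtain ⟨h1, h2⟩ := htarget _ hq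
    have h3 : e.symm (e (S.b θ')) = S.b θ' := e.left_inv hq
    have h4 : (e (S.b θ')).im = 0 := by
      apply (P.bd_iff _ ⟨h1, h2⟩).1
      rw [h3]
      exact S.b_mem θ'
    refine ⟨h4, ?_⟩
    have h5 := hpt1 _ h1 h2
    rw [h3, S.f_b θ'] at h5
    have h6 : S.γ θ' - S.γ θ = (e (S.b θ')).re • ((κF : ℂ) * deriv S.γ θ)
        + g (e (S.b θ')) • (Complex.I * deriv S.γ θ) := by
      have h7 : S.γ θ' = S.γ θ + (e (S.b θ')).re • ((κF : ℂ) * deriv S.γ θ)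
        + g (e (S.b θ')) • (Complex.I * deriv S.γ θ) := h5
      rw [h7]
      ring
    rw [h6, ip_add_left, ip_smul_left, ip_smul_left, ip_ofReal_mul_left, ip_I_mul_self, hγγ]
    ring
  -- the function `χ`
  set χ : ℝ → ℝ := fun t => -κ * ip (S.γ (θ - κ * t) - S.γ θ) (deriv S.γ θ) with hχ
  have hγd : ∀ t, HasDerivAt S.γ (deriv S.γ t) t := fun t =>
    (S.curve.smooth.differentiable (by simp)).differentiableAt.hasDerivAt
  have hχc : Continuous χ := by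
    have h1 : Continuous S.γ := S.curve.smooth.continuous
    have h2 : Continuous fun t : ℝ => S.γ (θ - κ * t) := h1.comp (by fun_prop)
    have h3 : χ = fun t => -κ * ((S.γ (θ - κ * t) - S.γ θ).re * (deriv S.γ θ).re
        + (S.γ (θ - κ * t) - S.γ θ).im * (deriv S.γ θ).im) := rfl
    rw [h3]
    have h4 : Continuous fun t : ℝ => (S.γ (θ - κ * t) - S.γ θ).re :=
      Complex.continuous_re.comp (h2.sub continuous_const)
    have h5 : Continuous fun t : ℝ => (S.γ (θ - κ * t) - S.γ θ).im :=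
      Complex.continuous_im.comp (h2.sub continuous_const)
    fun_prop
  have hχ0 : χ 0 = 0 := by
    simp [hχ, ip]
  have hχd : HasDerivAt χ 1 0 := by
    have h1 : HasDerivAt (fun t : ℝ => θ - κ * t) (-κ) 0 := by
      have := ((hasDerivAt_id (0 : ℝ)).const_mul κ).const_sub θ
      simpa using this
    have h2 : HasDerivAt (fun t : ℝ => S.γ (θ - κ * t)) ((-κ) • deriv S.γ θ) 0 := by
      have h3 := (hγd (θ - κ * 0)).scomp (0 : ℝ) h1
      simpa [Function.comp_def] using h3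
    have h3 : HasDerivAt (fun t : ℝ => (S.γ (θ - κ * t) - S.γ θ).re)
        (((-κ) • deriv S.γ θ).re) 0 :=
      Complex.reCLM.hasFDerivAt.comp_hasDerivAt (0 : ℝ) (h2.sub_const _)
    have h4 : HasDerivAt (fun t : ℝ => (S.γ (θ - κ * t) - S.γ θ).im)
        (((-κ) • deriv S.γ θ).im) 0 :=
      Complex.imCLM.hasFDerivAt.comp_hasDerivAt (0 : ℝ) (h2.sub_const _)
    have h5 := ((h3.mul_const (deriv S.γ θ).re).add (h4.mul_const (deriv S.γ θ).im)).const_mul (-κ)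
    refine HasDerivAt.congr_deriv h5 ?_
    have h6 : (deriv S.γ θ).re * (deriv S.γ θ).re + (deriv S.γ θ).im * (deriv S.γ θ).im = 1 := hγγ
    simp only [Complex.smul_re, Complex.smul_im, smul_eq_mul]
    calc -κ * (-κ * (deriv S.γ θ).re * (deriv S.γ θ).re + -κ * (deriv S.γ θ).im * (deriv S.γ θ).im)
        = (κ * κ) * ((deriv S.γ θ).re * (deriv S.γ θ).re
          + (deriv S.γ θ).im * (deriv S.γ θ).im) := by ring
      _ = 1 := by rw [hκκ, h6, one_mul]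
  obtain ⟨δ₂, hδ₂, hχpos⟩ : ∃ δ₂ > 0, ∀ t, 0 < t → t < δ₂ → 0 < χ t := by
    have h1 := hasDerivAt_iff_tendsto_slope.1 hχd
    have h2 := h1.eventually_const_lt (show (0 : ℝ) < 1 by norm_num)
    rw [eventually_nhdsWithin_iff, Metric.eventually_nhds_iff] at h2
    obtain ⟨δ₂, hδ₂, h3⟩ := h2
    refine ⟨δ₂, hδ₂, fun t ht ht' => ?_⟩
    have h4 := h3 (y := t) (by rw [Real.dist_eq, sub_zero, abs_of_pos ht]; exact ht') ht.ne'
    rw [slope_def_field, hχ0, sub_zero, sub_zero] at h4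
    rw [div_pos_iff] at h4
    rcases h4 with h4 | h4
    · exact h4.1
    · linarith [h4.2]
  -- the boundary points in the patch
  set κ₁ : ℝ := -(κF * κ) with hκ₁
  have hκ₁' : κ₁ * κ₁ = 1 := by
    rw [hκ₁]
    calc -(κF * κ) * -(κF * κ) = (κF * κF) * (κ * κ) := by ring
      _ = 1 := by rw [hκF, hκκ, one_mul]
  have hκ₁s : κ₁ = 1 ∨ κ₁ = -1 := by
    rw [hκ₁]
    rcases P.sign with h | h <;> rcases hκ with h' | h' <;> rw [h, h'] <;> norm_num
  have hre : ∀ t, S.b (θ - κ * t) ∈ e.source → κ₁ * (e (S.b (θ - κ * t))).re = χ t := by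
    intro t ht
    have h1 := (hbpt _ ht).2
    rw [hχ]
    simp only
    rw [h1, hκ₁]
    ring
  have hec : ContinuousAt e (S.b θ) := P.patch.cont.continuousAt
    (P.patch.isOpen.mem_nhds P.patch.mem)
  have hnear : ∀ r' > 0, ∃ δ₁ > 0, ∀ t, 0 ≤ t → t < δ₁ → S.b (θ - κ * t) ∈ e.source ∧
      e (S.b (θ - κ * t)) ∈ ball (0 : ℂ) r' := by
    intro r' hr'
    have h1 : Tendsto (fun t : ℝ => S.b (θ - κ * t)) (𝓝 0) (𝓝 (S.b θ)) := by
      have h2 : Continuous fun t : ℝ => S.b (θ - κ * t) := hbc.comp (by fun_prop)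
      have h3 := h2.tendsto 0
      simpa using h3
    have h2 : ∀ᶠ q in 𝓝 (S.b θ), q ∈ e.source ∧ e q ∈ ball (0 : ℂ) r' := by
      apply (P.patch.isOpen.eventually_mem P.patch.mem).and
      apply hec.eventually
      rw [P.patch.map_zero]
      exact isOpen_ball.eventually_mem (mem_ball_self hr')
    have h3 := h1.eventually h2
    rw [Metric.eventually_nhds_iff] at h3
    obtain ⟨δ₁, hδ₁, h4⟩ := h3
    refine ⟨δ₁, hδ₁, fun t ht ht' => h4 ?_⟩
    rw [Real.dist_eq, sub_zero, abs_of_nonneg ht]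
    exact ht'
  -- every small collar meets the top
  have hmeets : ∀ r', 0 < r' → r' ≤ r → ∃ s ∈ ball (0 : ℂ) r', 0 < s.im ∧ 0 < κ₁ * s.re ∧
      e.symm s ∈ S.top := by
    intro r' hr' hr'r
    obtain ⟨δ₁, hδ₁, h1⟩ := hnear r' hr'
    set t := min δ (min δ₁ δ₂) / 2 with ht
    have htmin : 0 < min δ (min δ₁ δ₂) := lt_min hδ (lt_min hδ₁ hδ₂)
    have ht0 : 0 < t := by positivity
    have htl : t < min δ (min δ₁ δ₂) := by rw [ht]; linarith
    have htδ : t < δ := htl.trans_le (min_le_left _ _)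
    have htδ₁ : t < δ₁ := htl.trans_le ((min_le_right _ _).trans (min_le_left _ _))
    have htδ₂ : t < δ₂ := htl.trans_le ((min_le_right _ _).trans (min_le_right _ _))
    obtain ⟨hsrc, hball⟩ := h1 t ht0.le htδ₁
    have hχt := hχpos t ht0 htδ₂
    rw [← hre t hsrc] at hχt
    set s' := e (S.b (θ - κ * t)) with hs'
    have him : s'.im = 0 := (hbpt _ hsrc).1
    have hsymm : e.symm s' = S.b (θ - κ * t) := e.left_inv hsrc
    obtain ⟨V, hV, hVtop⟩ := hgood t ht0 htδ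
    have hcs : ContinuousWithinAt e.symm e.target s' := P.patch.cont_symm s' (e.map_source hsrc)
    have h2 : ∀ᶠ s in 𝓝[e.target] s', e.symm s ∈ V := by
      apply hcs.eventually
      rw [hsymm]
      exact hV
    rw [eventually_nhdsWithin_iff] at h2
    have h3 : ∀ᶠ s in 𝓝 s', (s ∈ e.target → e.symm s ∈ V) ∧ s ∈ ball (0 : ℂ) r' :=
      h2.and (isOpen_ball.eventually_mem hball)
    rw [Metric.eventually_nhds_iff] at h3
    obtain ⟨ε, hε, h4⟩ := h3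
    have hs'eq : s' = ⟨s'.re, 0⟩ := by
      apply Complex.ext
      · rfl
      · exact him
    have h5 := h4 (y := ⟨s'.re, ε / 2⟩) (by
      rw [dist_eq_norm]
      conv_lhs => rw [hs'eq]
      rw [norm_mk_im_sub, abs_of_pos (by positivity)]
      linarith)
    have h6 : (⟨s'.re, ε / 2⟩ : ℂ) ∈ ball (0 : ℂ) r := ball_subset_ball hr'r h5.2
    have hpos2 : 0 < ε / 2 := by positivity
    refine ⟨⟨s'.re, ε / 2⟩, h5.2, hpos2, hχt, ?_⟩
    apply hVtop
    refine ⟨h5.1 ?_, ?_⟩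
    · rw [P.patch.target]
      exact ⟨h6, hpos2.le⟩
    · intro hmem
      have h7 := (P.bd_iff ⟨s'.re, ε / 2⟩ ⟨h6, hpos2.le⟩).1 hmem
      exact hpos2.ne' h7
  -- connectedness
  have hconn : ∀ Q : Set ℂ, IsPreconnected Q → (∀ s ∈ Q, s ∈ ball (0 : ℂ) r ∧ 0 < s.im) →
      (∀ s ∈ Q, g (s.re : ℂ) < g s) → (∃ s ∈ Q, e.symm s ∈ S.top) → ∀ s ∈ Q, e.symm s ∈ S.top := by
    intro Q hQ hQr hQg hQt s hs
    have hsub : Q ⊆ e.target := by
      rw [P.patch.target]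
      exact fun s hs => ⟨(hQr s hs).1, (hQr s hs).2.le⟩
    have h1 : IsPreconnected (e.symm '' Q) := hQ.image _ (P.patch.cont_symm.mono hsub)
    have h2 : ∀ q ∈ e.symm '' Q, (S.f q).1 ∈ S.D := by
      rintro q ⟨s, hs, rfl⟩
      exact (P.inside s ⟨(hQr s hs).1, (hQr s hs).2.le⟩).2 (hQg s hs)
    have h3 : (e.symm '' Q ∩ S.top).Nonempty := by
      obtain ⟨s, hs, hst⟩ := hQt
      exact ⟨e.symm s, mem_image_of_mem _ hs, hst⟩
    exact TF.conn _ h1 h2 h3 (mem_image_of_mem _ hs)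
  rcases (wall_d22 hg hw hr hd20).lt_or_eq with hc | hc
  · -- the nondegenerate case
    obtain ⟨r', hr', hr'r, hlt⟩ := wall_pos hg hw hr hc
    have htop : ∀ s ∈ {s : ℂ | s ∈ ball (0 : ℂ) r' ∧ 0 < s.im}, e.symm s ∈ S.top := by
      apply hconn
      · apply Convex.isPreconnected
        exact (convex_ball 0 r').inter (convex_halfSpace_im_gt 0)
      · intro s hs
        exact ⟨ball_subset_ball hr'r hs.1, hs.2⟩
      · intro s hs
        exact hlt s hs.1 hs.2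
      · obtain ⟨s, h1, h2, _, h3⟩ := hmeets r' hr' hr'r
        exact ⟨s, ⟨h1, h2⟩, h3⟩
    have hVn : ∀ᶠ q in 𝓝 (S.b θ), q ∈ e.source ∧ e q ∈ ball (0 : ℂ) r' := by
      apply (P.patch.isOpen.eventually_mem P.patch.mem).and
      apply hec.eventually
      rw [P.patch.map_zero]
      exact isOpen_ball.eventually_mem (mem_ball_self hr')
    refine ⟨{q | q ∈ e.source ∧ e q ∈ ball (0 : ℂ) r'}, hVn, ?_⟩
    rintro q ⟨⟨hq1, hq2⟩, hq3⟩
    obtain ⟨h1, h2⟩ := htarget q hq1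
    have h3 : e.symm (e q) = q := e.left_inv hq1
    have h4 : (e q).im ≠ 0 := by
      intro h5
      apply hq3
      have := (P.bd_iff _ ⟨h1, h2⟩).2 h5
      rwa [h3] at this
    have h5 := htop (e q) ⟨hq2, lt_of_le_of_ne h2 (Ne.symm h4)⟩
    rwa [h3] at h5
  · -- the degenerate case
    exfalso
    obtain ⟨δ₁, hδ₁, h1⟩ := hnear r hr
    set t₁ := min δ (min δ₁ δ₂) / 2 with ht₁
    have htmin : 0 < min δ (min δ₁ δ₂) := lt_min hδ (lt_min hδ₁ hδ₂)
    have ht0 : 0 < t₁ := by positivity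
    have htl : t₁ < min δ (min δ₁ δ₂) := by rw [ht₁]; linarith
    have htδ : t₁ < δ := htl.trans_le (min_le_left _ _)
    have htδ₁ : t₁ < δ₁ := htl.trans_le ((min_le_right _ _).trans (min_le_left _ _))
    have htδ₂ : t₁ < δ₂ := htl.trans_le ((min_le_right _ _).trans (min_le_right _ _))
    have hx₁ : 0 < χ t₁ := hχpos t₁ ht0 htδ₂
    -- real points of the patch on the good side
    have hreal : ∀ x : ℝ, 0 < κ₁ * x → κ₁ * x < χ t₁ → ∃ t, 0 < t ∧ t < δ ∧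
        e.symm (x : ℂ) = S.b (θ - κ * t) := by
      intro x hx hx'
      obtain ⟨t, ht, hte⟩ : κ₁ * x ∈ χ '' Icc 0 t₁ := by
        apply intermediate_value_Icc ht0.le hχc.continuousOn
        rw [hχ0]
        exact ⟨hx.le, hx'.le⟩
      have ht0' : t ≠ 0 := by
        rintro rfl
        rw [hχ0] at hte
        exact hx.ne hte
      have htpos : 0 < t := lt_of_le_of_ne ht.1 (Ne.symm ht0')
      obtain ⟨hsrc, _⟩ := h1 t ht.1 (ht.2.trans_lt htδ₁)
      have h2 := hre t hsrc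
      rw [hte] at h2
      have h3 : (e (S.b (θ - κ * t))).re = x := by
        have h4 : κ₁ * (κ₁ * (e (S.b (θ - κ * t))).re) = κ₁ * (κ₁ * x) := by rw [h2]
        rw [← mul_assoc, ← mul_assoc, hκ₁', one_mul, one_mul] at h4
        exact h4
      have h4 : e (S.b (θ - κ * t)) = (x : ℂ) := by
        apply Complex.ext
        · exact h3
        · exact (hbpt _ hsrc).1
      refine ⟨t, htpos, ht.2.trans_lt htδ, ?_⟩
      rw [← h4]
      exact e.left_inv hsrc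
    set r' := min r (χ t₁) with hr'
    have hr'0 : 0 < r' := lt_min hr hx₁
    have hr'r : r' ≤ r := min_le_left _ _
    have hQ : ∀ s ∈ {s : ℂ | s ∈ ball (0 : ℂ) r' ∧ (0 < κ₁ * s.re ∧ 0 < s.im)},
        s ∈ ball (0 : ℂ) r ∧ 0 < s.im := fun s hs => ⟨ball_subset_ball hr'r hs.1, hs.2.2⟩
    have hlt : ∀ s ∈ {s : ℂ | s ∈ ball (0 : ℂ) r' ∧ (0 < κ₁ * s.re ∧ 0 < s.im)},
        g (s.re : ℂ) < g s := by
      intro s hs
      obtain ⟨hsr, hs2⟩ := hQ s hs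
      rcases (hw s hsr hs2.le).lt_or_eq with h | h
      · exact h
      · exfalso
        have hsre : ‖(s.re : ℂ)‖ ≤ ‖s‖ := by
          rw [Complex.norm_real]
          exact Complex.abs_re_le_norm s
        have hsnorm : ‖s‖ < r' := mem_ball_zero_iff.1 hs.1
        have habs : κ₁ * s.re ≤ ‖s‖ := by
          have h3 : |κ₁| = 1 := by
            rcases hκ₁s with h | h <;> rw [h] <;> simp
          calc κ₁ * s.re ≤ |κ₁ * s.re| := le_abs_self _
            _ = |s.re| := by rw [abs_mul, h3, one_mul]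
            _ ≤ ‖s‖ := Complex.abs_re_le_norm s
        obtain ⟨t, ht1, ht2, hte⟩ := hreal s.re hs.2.1
          ((habs.trans_lt hsnorm).trans_le (min_le_right _ _))
        have hb1 : ((s.re : ℝ) : ℂ) ∈ ball (0 : ℂ) r := by
          rw [mem_ball_zero_iff]
          exact (hsre.trans_lt hsnorm).trans_le hr'r
        have k1 := hpt1 s hsr hs2.le
        have k2 := hpt1 (s.re : ℂ) hb1 (by simp)
        rw [hte, S.f_b, Complex.ofReal_re, h, ← k1] at k2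
        have k3 := hN M S hcn TF _ (hgood t ht1 ht2) (e.symm s) k2.symm
        rw [hpt2 s hsr hs2.le] at k3
        linarith
    have hconv : Convex ℝ {s : ℂ | s ∈ ball (0 : ℂ) r' ∧ (0 < κ₁ * s.re ∧ 0 < s.im)} := by
      apply (convex_ball 0 r').inter
      apply Convex.inter _ (convex_halfSpace_im_gt 0)
      apply convex_halfSpace_gt (f := fun s : ℂ => κ₁ * s.re)
      exact ⟨fun x y => by simp; ring, fun c x => by simp; ring⟩
    have htop := hconn _ hconv.isPreconnected hQ hlt (by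
      obtain ⟨s, h1, h2, h3, h4⟩ := hmeets r' hr'0 hr'r
      exact ⟨s, ⟨h1, h3, h2⟩, h4⟩)
    refine wall_false hL hC hg hr hgrad hw
      (fun s hs h => P.patch.mean s ⟨hs, h.le⟩) hc.symm hκ₁s hr'0 hr'r ?_
    intro s hs h1 h2
    have h3 := TF.neg _ (htop s ⟨hs, h1, h2⟩)
    have hsr : s ∈ ball (0 : ℂ) r := ball_subset_ball hr'r hs
    rw [P.patch.normal s ⟨hsr, h2.le⟩] at h3
    simp only [Frame.nor, P.ha, P.hb, P.hn, Prod.smul_snd, Prod.snd_sub, smul_eq_mul] at h3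
    have hW : 0 < (W (grad g s))⁻¹ := inv_pos.2 (W_pos _)
    have h4 : (W (grad g s))⁻¹ * (0 - d1 g s * 0 - d2 g s * 1) =
        -((W (grad g s))⁻¹ * d2 g s) := by ring
    rw [h4] at h3
    have h5 : 0 < (W (grad g s))⁻¹ * d2 g s := by linarith
    exact (mul_pos_iff_of_pos_left hW).1 h5

end Cyl
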