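import Pool.Agent.Cyl.Base2

open MeasureTheory Set Filter Topology Metric
open scoped ContDiff

noncomputable section

namespace Cyl

universe u

variable {M : Type u} [TopologicalSpace M]

theorem Tneg.not_bd (S : Setup M) {q : M} (h : (S.f q).1 ∈ S.D) : q ∉ S.bd := by
  intro hq
  have h1 : S.f q ∈ frontier S.D ×ˢ ({0} : Set ℝ) := by
    rw [← S.img_bd]; exact mem_image_of_mem _ hq
  have h2 := h1.1
  rw [S.curve.isOpen.frontier_eq] at h2
  exact h2.2 h

/-- where the normal points upwards the surface is interior to the region below it -/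
theorem Tneg.up [CompactSpace M] [T2Space M] (hN : NSideStatement.{u}) (S : Setup M)
    (hA : Absorbs S.D S.H (range S.f)) {q : M} (hq : (S.f q).1 ∈ S.D) (hn : 0 < (S.N q).2) :
    S.f q ∈ interior (below (range S.f)) := by
  obtain ⟨F, r, g, e, hp⟩ := S.surf.interior q (Tneg.not_bd S hq)
  have hnc := hp.1.normal_center
  rw [hnc] at hn
  obtain ⟨δ, hδ, hbel⟩ := hN M S hA q F r g e hp 0 (mem_ball_self hp.1.r_pos) (by
    have h1 := hp.1.param 0 (mem_ball_self hp.1.r_pos)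
    rw [hp.1.symm_zero] at h1
    rw [← h1]; exact hq)
  have hgd : HasFDerivAt g (0 : ℂ →L[ℝ] ℝ) 0 := by
    have h1 : DifferentiableAt ℝ g 0 :=
      (hp.1.smooth.differentiableOn (by simp)).differentiableAt
        (isOpen_ball.mem_nhds (mem_ball_self hp.1.r_pos))
    have h2 : fderiv ℝ g 0 = 0 := by
      ext v
      rw [fderiv_re_im, hp.1.d1_zero, hp.1.d2_zero]; simp
    rw [← h2]; exact h1.hasFDerivAt
  have hlo := (hasFDerivAt_iff_isLittleO_nhds_zero.1 hgd).def (c := F.n.2 / 8) (by positivity)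
  rw [Metric.eventually_nhds_iff] at hlo
  obtain ⟨δ₁, hδ₁, hlo⟩ := hlo
  obtain ⟨zz⟩ : F.a.2 ^ 2 + F.b.2 ^ 2 + F.n.2 ^ 2 = 1 ∧ True := ⟨F.complete.zz, trivial⟩
  have ha1 : |F.a.2| ≤ 1 := abs_le_one_iff_mul_self_le_one.2 (by nlinarith)
  have hb1 : |F.b.2| ≤ 1 := abs_le_one_iff_mul_self_le_one.2 (by nlinarith)
  have hn1 : F.n.2 ≤ 1 := by nlinarith
  obtain ⟨t, ht⟩ : ∃ t, t = min δ δ₁ / 8 := ⟨_, rfl⟩
  have ht0 : 0 < t := by rw [ht]; positivity
  have ht1 : 8 * t ≤ δ := by rw [ht]; linarith [min_le_left δ δ₁]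
  have ht2 : 8 * t ≤ δ₁ := by rw [ht]; linarith [min_le_right δ δ₁]
  rw [mem_interior_iff_mem_nhds]
  have hc : ∀ V : E3, Continuous fun X : E3 => dot (X - S.f q) V := by
    intro V; unfold dot ip; fun_prop
  have hev : ∀ V : E3, ∀ ε > 0, ∀ᶠ X in 𝓝 (S.f q), |dot (X - S.f q) V| < ε := by
    intro V ε hε
    have h1 := (hc V).tendsto (S.f q)
    have h2 : dot (S.f q - S.f q) V = 0 := by simp [dot, ip]
    rw [h2] at h1
    have h3 := h1.eventually (Metric.ball_mem_nhds 0 hε)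
    filter_upwards [h3] with X hX
    simpa using hX
  filter_upwards [hev F.a (t / 2) (by positivity), hev F.b (t / 2) (by positivity),
    hev F.n (t * F.n.2 / 2) (by positivity)] with X h1 h2 h3
  obtain ⟨s, hs⟩ : ∃ s : ℂ, s = ⟨dot (X - S.f q) F.a + t * F.a.2,
    dot (X - S.f q) F.b + t * F.b.2⟩ := ⟨_, rfl⟩
  have hsn : ‖s‖ ≤ 3 * t := by
    refine (Complex.norm_le_abs_re_add_abs_im s).trans ?_
    rw [hs]
    have e1 := abs_add_le (dot (X - S.f q) F.a) (t * F.a.2)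
    have e2 := abs_add_le (dot (X - S.f q) F.b) (t * F.b.2)
    rw [abs_mul, abs_of_pos ht0] at e1 e2
    have e3 := mul_le_mul_of_nonneg_left ha1 ht0.le
    have e4 := mul_le_mul_of_nonneg_left hb1 ht0.le
    simp only
    linarith
  have hgs : |g s| ≤ F.n.2 / 8 * (3 * t) := by
    have h4 := hlo (y := s) (by rw [dist_zero_right]; linarith)
    rw [hp.1.g_zero] at h4
    simp only [zero_add, sub_zero, zero_apply, Real.norm_eq_abs] at h4
    exact h4.trans (mul_le_mul_of_nonneg_left hsn (by positivity))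
  have hgs' := abs_le.1 hgs
  have h3' := abs_lt.1 h3
  have htn : t * F.n.2 ≤ t := by nlinarith
  have htn0 : 0 < t * F.n.2 := by positivity
  have hin := hbel s (by rw [sub_zero]; linarith) (dot (X - S.f q) F.n + t * F.n.2)
    (by nlinarith) (by nlinarith)
  refine below_down hin ?_ ?_
  · have h5 := F.expand (X - S.f q)
    have h6 := F.expand_vert
    have h7 : S.f q + s.re • F.a + s.im • F.b + (dot (X - S.f q) F.n + t * F.n.2) • F.n =
        X + t • ((0 : ℂ), (1 : ℝ)) := by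
      rw [h6]
      have h8 : X = S.f q + (X - S.f q) := by abel
      conv_rhs => rw [h8, h5]
      rw [hs]
      simp only [add_smul, smul_add, smul_smul]
      abel
    rw [h7]; simp
  · have h5 := F.expand (X - S.f q)
    have h6 := F.expand_vert
    have h7 : S.f q + s.re • F.a + s.im • F.b + (dot (X - S.f q) F.n + t * F.n.2) • F.n =
        X + t • ((0 : ℂ), (1 : ℝ)) := by
      rw [h6]
      have h8 : X = S.f q + (X - S.f q) := by abel
      conv_rhs => rw [h8, h5]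
      rw [hs]
      simp only [add_smul, smul_add, smul_smul]
      abel
    rw [h7]; simp [ht0.le]

/-- TNEG. -/
theorem TNEG_holds (hO : TopOpenStatement.{u}) (hN : NSideStatement.{u}) (hL : LinPDEStatement)
    (hM : SMPStatement) (hB : BasicStatement.{u}) : TopNegStatement.{u} := by
  intro M _ _ _ S hA q₀ hq₀
  obtain ⟨hfc, hNc, -, -, -, -, -, -⟩ := hB M S
  have hopen := hO M S hA
  have hle : ∀ q ∈ S.top, (S.N q).2 ≤ 0 := by
    intro q hq
    by_contra h
    exact hq.2 (Tneg.up hN S hA hq.1 (not_le.1 h))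
  refine lt_of_le_of_ne (hle q₀ hq₀) ?_
  intro h0
  -- the highest point
  let Z : Set M := {q | ((S.f q).1 = (S.f q₀).1 ∧ (S.N q).2 = 0) ∧
    S.f q ∉ interior (below (range S.f))}
  have hZc : IsCompact Z := by
    apply IsClosed.isCompact
    refine IsClosed.inter (IsClosed.inter ?_ ?_) ?_
    · exact isClosed_eq (continuous_fst.comp hfc) continuous_const
    · exact isClosed_eq (continuous_snd.comp hNc) continuous_const
    · exact (isOpen_interior.preimage hfc).isClosed_compl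
  have hZne : Z.Nonempty := ⟨q₀, ⟨rfl, h0⟩, hq₀.2⟩
  obtain ⟨q, hqZ, hmax⟩ := hZc.exists_isMaxOn hZne (continuous_snd.comp hfc).continuousOn
  have hqt : q ∈ S.top := ⟨by rw [hqZ.1.1]; exact hq₀.1, hqZ.2⟩
  obtain ⟨F, r, g, e, hp⟩ := S.surf.interior q (Tneg.not_bd S hqt.1)
  have hn0 : F.n.2 = 0 := by rw [← hp.1.normal_center]; exact hqZ.1.2
  obtain ⟨ε, hε, hball⟩ := hp.1.exists_ball (hopen.mem_nhds hqt)
  obtain ⟨ρ, hρ, hρε, hρr⟩ : ∃ ρ > 0, ρ ≤ ε ∧ ρ ≤ r :=
    ⟨min ε r, lt_min hε hp.1.r_pos, min_le_left _ _, min_le_right _ _⟩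
  have htop : ∀ s ∈ ball (0 : ℂ) ρ, e.symm s ∈ S.top := by
    intro s hs
    exact hball s (ball_subset_ball hρr hs) (by
      have := mem_ball_zero_iff.1 hs; linarith)
  obtain ⟨ξ, hξ⟩ : ∃ ξ : ℂ, ξ = ⟨F.a.2, F.b.2⟩ := ⟨_, rfl⟩
  have hsm : ContDiffOn ℝ ∞ g (ball 0 ρ) := hp.1.smooth.mono (ball_subset_ball hρr)
  have hv : ContDiffOn ℝ ∞ (fun t => fderiv ℝ g t ξ) (ball 0 ρ) :=
    contDiffOn_fderiv_apply isOpen_ball hsm ξ
  have hN3 : ∀ s ∈ ball (0 : ℂ) ρ, (S.N (e.symm s)).2 =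
      -((W (grad g s))⁻¹ * fderiv ℝ g s ξ) := by
    intro s hs
    rw [hp.1.normal s (ball_subset_ball hρr hs), fderiv_re_im, hξ]
    simp [Frame.nor, hn0]
    ring
  have hvnn : ∀ s ∈ ball (0 : ℂ) ρ, 0 ≤ fderiv ℝ g s ξ := by
    intro s hs
    have h1 := hle _ (htop s hs)
    rw [hN3 s hs] at h1
    have h2 := W_pos (grad g s)
    have h3 : 0 ≤ (W (grad g s))⁻¹ * fderiv ℝ g s ξ := by linarith
    exact nonneg_of_mul_nonneg_right h3 (by positivity)
  have hv0 : fderiv ℝ g 0 ξ = 0 := by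
    rw [fderiv_re_im, hp.1.d1_zero, hp.1.d2_zero]; simp
  have hlin := hL (ball 0 ρ) g (2 * S.H) ξ isOpen_ball hsm
    (fun s hs => hp.1.mean s (ball_subset_ball hρr hs))
  have hgc : ContinuousOn (grad g) (ball 0 ρ) := (contDiffOn_grad isOpen_ball hsm).continuousOn
  have hWc : ContinuousOn (fun s => W (grad g s)) (ball 0 ρ) := continuous_W.comp_continuousOn hgc
  have h1 := contDiffOn_d1 isOpen_ball hsm
  have h2 := contDiffOn_d2 isOpen_ball hsm
  have h11 := (contDiffOn_d1 isOpen_ball h1).continuousOn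
  have h12 := (contDiffOn_d2 isOpen_ball h1).continuousOn
  have h22 := (contDiffOn_d2 isOpen_ball h2).continuousOn
  have h1c := h1.continuousOn
  have h2c := h2.continuousOn
  have hlinc : ContinuousOn (fun s => lin (grad g s) (hess g s)) (ball 0 ρ) := by
    have e0 : (fun s => lin (grad g s) (hess g s)) = fun s => (1 + d2 g s ^ 2) * d1 (d1 g) s -
        2 * d1 g s * d2 g s * d2 (d1 g) s + (1 + d1 g s ^ 2) * d2 (d2 g) s := rfl
    rw [e0]
    fun_prop
  have hdc : ContinuousOn (fun s => dcurv (grad g s) (hess g s)) (ball 0 ρ) := by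
    have e0 : (fun s => dcurv (grad g s) (hess g s)) = fun s =>
        (((2 * d1 g s * d2 (d2 g) s - 2 * d2 g s * d2 (d1 g) s) -
          3 * d1 g s * lin (grad g s) (hess g s) / (W (grad g s)) ^ 2 : ℝ) : ℂ) +
        (((2 * d2 g s * d1 (d1 g) s - 2 * d1 g s * d2 (d1 g) s) -
          3 * d2 g s * lin (grad g s) (hess g s) / (W (grad g s)) ^ 2 : ℝ) : ℂ) * Complex.I :=
      funext fun s => Complex.mk_eq_add_mul_I _ _
    rw [e0]
    have hW0 : ∀ s ∈ ball (0 : ℂ) ρ, (W (grad g s)) ^ 2 ≠ 0 := fun s _ =>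
      pow_ne_zero _ (W_pos _).ne'
    have hA1 : ContinuousOn (fun s => (2 * d1 g s * d2 (d2 g) s - 2 * d2 g s * d2 (d1 g) s) -
          3 * d1 g s * lin (grad g s) (hess g s) / (W (grad g s)) ^ 2) (ball 0 ρ) :=
      (((continuousOn_const.mul h1c).mul h22).sub ((continuousOn_const.mul h2c).mul h12)).sub
        ((((continuousOn_const.mul h1c).mul hlinc)).div (hWc.pow 2) hW0)
    have hA2 : ContinuousOn (fun s => (2 * d2 g s * d1 (d1 g) s - 2 * d1 g s * d2 (d1 g) s) -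
          3 * d2 g s * lin (grad g s) (hess g s) / (W (grad g s)) ^ 2) (ball 0 ρ) :=
      (((continuousOn_const.mul h2c).mul h11).sub ((continuousOn_const.mul h1c).mul h12)).sub
        ((((continuousOn_const.mul h2c).mul hlinc)).div (hWc.pow 2) hW0)
    exact (Complex.continuous_ofReal.comp_continuousOn hA1).add
      ((Complex.continuous_ofReal.comp_continuousOn hA2).mul continuousOn_const)
  obtain ⟨δ, hδ, hzero⟩ := hM ρ (fun t => fderiv ℝ g t ξ) (grad g)
    (fun s => dcurv (grad g s) (hess g s)) hρ (hv.of_le (WithTop.coe_le_coe.2 (le_top : (2 : ℕ∞) ≤ ⊤))) hgc hdc hvnn hv0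
    (fun s hs => hlin s hs)
  -- walk along `ξ`
  obtain ⟨τ, hτ, hτδ, hτρ⟩ : ∃ τ > 0, τ < δ ∧ τ < ρ :=
    ⟨min δ ρ / 2, by positivity, by linarith [min_le_left δ ρ, lt_min hδ hρ],
      by linarith [min_le_right δ ρ, lt_min hδ hρ]⟩
  have hξn : ‖ξ‖ = 1 := by
    have h3 := F.complete.zz
    rw [hn0] at h3
    have h4 : ‖ξ‖ ^ 2 = 1 := by
      rw [← Complex.normSq_eq_norm_sq, Complex.normSq_apply, hξ]
      simp only
      nlinarith
    nlinarith [norm_nonneg ξ]
  have hin : ∀ t ∈ Icc (0 : ℝ) τ, (t : ℂ) * ξ ∈ ball (0 : ℂ) ρ ∧ (t : ℂ) * ξ ∈ ball (0 : ℂ) δ := by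
    intro t ht
    have h3 : ‖(t : ℂ) * ξ‖ = t := by
      rw [norm_mul, hξn, mul_one, Complex.norm_real, Real.norm_eq_abs, abs_of_nonneg ht.1]
    constructor
    · rw [mem_ball_zero_iff, h3]; linarith [ht.2]
    · rw [mem_ball_zero_iff, h3]; linarith [ht.2]
  have hgzero : g ((τ : ℂ) * ξ) = 0 := by
    have hd : ∀ t ∈ Icc (0 : ℝ) τ, HasDerivAt (fun t : ℝ => g ((t : ℂ) * ξ)) 0 t := by
      intro t ht
      have h3 : HasDerivAt (fun t : ℝ => (t : ℂ) * ξ) ξ t := by
        have h4 := (Complex.ofRealCLM.hasDerivAt (x := t)).mul_const ξ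
        simpa using h4
      have h5 : DifferentiableAt ℝ g ((t : ℂ) * ξ) :=
        (hsm.differentiableOn (by simp)).differentiableAt (isOpen_ball.mem_nhds (hin t ht).1)
      have h6 := h5.hasFDerivAt.comp_hasDerivAt t h3
      have h7 : fderiv ℝ g ((t : ℂ) * ξ) ξ = 0 := hzero _ (hin t ht).2
      rw [h7] at h6
      exact h6
    have h8 := constant_of_has_deriv_right_zero (f := fun t : ℝ => g ((t : ℂ) * ξ)) (a := 0)
      (b := τ) (fun t ht => (hd t ht).continuousAt.continuousWithinAt)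
      (fun t ht => (hd t ⟨ht.1, ht.2.le⟩).hasDerivWithinAt) τ ⟨hτ.le, le_rfl⟩
    rw [h8]
    simp [hp.1.g_zero]
  have hf : S.f (e.symm ((τ : ℂ) * ξ)) = S.f q + τ • ((0 : ℂ), (1 : ℝ)) := by
    rw [hp.1.param _ (ball_subset_ball hρr (hin τ ⟨hτ.le, le_rfl⟩).1), Frame.pt, hgzero,
      F.expand_vert, hn0, hξ]
    simp only [Complex.mul_re, Complex.mul_im, Complex.ofReal_re, Complex.ofReal_im, zero_mul,
      sub_zero, add_zero, zero_smul, smul_add, smul_smul]
    abel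
  have hqZ' : e.symm ((τ : ℂ) * ξ) ∈ Z := by
    refine ⟨⟨?_, ?_⟩, (htop _ (hin τ ⟨hτ.le, le_rfl⟩).1).2⟩
    · rw [hf, ← hqZ.1.1]; simp
    · rw [hN3 _ (hin τ ⟨hτ.le, le_rfl⟩).1]
      have h7 : fderiv ℝ g ((τ : ℂ) * ξ) ξ = 0 := hzero _ (hin τ ⟨hτ.le, le_rfl⟩).2
      rw [h7]; simp
  have hfin := hmax hqZ'
  simp only [mem_ofPred_eq, Function.comp] at hfin
  rw [hf] at hfin
  simp at hfin
  linarith

end Cyl
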