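import Pool.Agent.Cyl.Stmt2
import Pool.Agent.Cyl.Base

/-!
# TOPEN: the top part of the surface is open
-/

open MeasureTheory Set Filter Topology Metric
open scoped ContDiff

noncomputable section

namespace Cyl

namespace TopenAux

universe u

/-! ### smoothness of partial derivatives -/

theorem d1_contDiffOn {U : Set ℂ} {g : ℂ → ℝ} (hU : IsOpen U) (hg : ContDiffOn ℝ ∞ g U) :
    ContDiffOn ℝ ∞ (d1 g) U :=
  (hg.fderiv_of_isOpen hU (m := ∞) (by simp)).clm_apply contDiffOn_const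

theorem d2_contDiffOn {U : Set ℂ} {g : ℂ → ℝ} (hU : IsOpen U) (hg : ContDiffOn ℝ ∞ g U) :
    ContDiffOn ℝ ∞ (d2 g) U :=
  (hg.fderiv_of_isOpen hU (m := ∞) (by simp)).clm_apply contDiffOn_const

theorem mk_continuousOn {U : Set ℂ} {A B : ℂ → ℝ} (hA : ContinuousOn A U)
    (hB : ContinuousOn B U) : ContinuousOn (fun s => (⟨A s, B s⟩ : ℂ)) U := by
  have h : (fun s => (⟨A s, B s⟩ : ℂ)) = fun s => (A s : ℂ) + (B s : ℂ) * Complex.I := by
    funext s
    apply Complex.ext <;> simp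
  rw [h]
  exact (Complex.continuous_ofReal.comp_continuousOn hA).add
    ((Complex.continuous_ofReal.comp_continuousOn hB).mul continuousOn_const)

theorem grad_continuousOn {U : Set ℂ} {g : ℂ → ℝ} (hU : IsOpen U) (hg : ContDiffOn ℝ ∞ g U) :
    ContinuousOn (grad g) U :=
  mk_continuousOn (d1_contDiffOn hU hg).continuousOn (d2_contDiffOn hU hg).continuousOn

theorem dcurv_continuousOn {U : Set ℂ} {g : ℂ → ℝ} (hU : IsOpen U) (hg : ContDiffOn ℝ ∞ g U) :
    ContinuousOn (fun s => dcurv (grad g s) (hess g s)) U := by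
  have h1 := (d1_contDiffOn hU hg)
  have h2 := (d2_contDiffOn hU hg)
  have h11 := (d1_contDiffOn hU h1).continuousOn
  have h21 := (d2_contDiffOn hU h1).continuousOn
  have h22 := (d2_contDiffOn hU h2).continuousOn
  have g1 := h1.continuousOn
  have g2 := h2.continuousOn
  have hW : ContinuousOn (fun s => W (grad g s)) U :=
    continuous_W.comp_continuousOn (grad_continuousOn hU hg)
  have hW0 : ∀ s ∈ U, W (grad g s) ^ 2 ≠ 0 := fun s _ => (pow_pos (W_pos _) 2).ne'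
  unfold dcurv lin
  simp only [grad, hess] at hW hW0 ⊢
  apply mk_continuousOn
  · apply ContinuousOn.sub
    · fun_prop
    · apply ContinuousOn.div _ _ hW0 <;> fun_prop
  · apply ContinuousOn.sub
    · fun_prop
    · apply ContinuousOn.div _ _ hW0 <;> fun_prop

/-! ### calculus with partial derivatives -/

/-- `f` is differentiable at `s` with partial derivatives `A`, `B` -/
def HD (f : ℂ → ℝ) (s : ℂ) (A B : ℝ) : Prop :=
  HasFDerivAt f (A • Complex.reCLM + B • Complex.imCLM) s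

theorem HD.d1 {f : ℂ → ℝ} {s : ℂ} {A B : ℝ} (h : HD f s A B) : Cyl.d1 f s = A := by
  rw [Cyl.d1, HasFDerivAt.fderiv h]; simp

theorem HD.d2 {f : ℂ → ℝ} {s : ℂ} {A B : ℝ} (h : HD f s A B) : Cyl.d2 f s = B := by
  rw [Cyl.d2, HasFDerivAt.fderiv h]; simp

theorem HD.congr {f : ℂ → ℝ} {s : ℂ} {A B A' B' : ℝ} (h : HD f s A B) (hA : A = A')
    (hB : B = B') : HD f s A' B' := by subst hA hB; exact h

theorem HD.const (c : ℝ) (s : ℂ) : HD (fun _ => c) s 0 0 := by
  have := hasFDerivAt_const (𝕜 := ℝ) c s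
  unfold HD; simpa using this

theorem HD.re (s : ℂ) : HD (fun s => s.re) s 1 0 := by
  have h : HasFDerivAt (fun s : ℂ => s.re) Complex.reCLM s := Complex.reCLM.hasFDerivAt
  unfold HD
  simpa using h

theorem HD.im (s : ℂ) : HD (fun s => s.im) s 0 1 := by
  have h : HasFDerivAt (fun s : ℂ => s.im) Complex.imCLM s := Complex.imCLM.hasFDerivAt
  unfold HD
  simpa using h

theorem HD.add {f g : ℂ → ℝ} {s : ℂ} {A B A' B' : ℝ} (hf : HD f s A B) (hg : HD g s A' B') :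
    HD (fun s => f s + g s) s (A + A') (B + B') := by
  unfold HD at *
  refine (HasFDerivAt.add hf hg).congr_fderiv ?_
  ext v; simp; ring

theorem HD.sub {f g : ℂ → ℝ} {s : ℂ} {A B A' B' : ℝ} (hf : HD f s A B) (hg : HD g s A' B') :
    HD (fun s => f s - g s) s (A - A') (B - B') := by
  unfold HD at *
  refine (HasFDerivAt.sub hf hg).congr_fderiv ?_
  ext v; simp; ring

theorem HD.mul {f g : ℂ → ℝ} {s : ℂ} {A B A' B' : ℝ} (hf : HD f s A B) (hg : HD g s A' B') :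
    HD (fun s => f s * g s) s (f s * A' + A * g s) (f s * B' + B * g s) := by
  unfold HD at *
  refine (HasFDerivAt.mul hf hg).congr_fderiv ?_
  ext v; simp; ring

theorem HD.exp {f : ℂ → ℝ} {s : ℂ} {A B : ℝ} (hf : HD f s A B) :
    HD (fun s => Real.exp (f s)) s (Real.exp (f s) * A) (Real.exp (f s) * B) := by
  unfold HD at *
  refine (HasFDerivAt.exp hf).congr_fderiv ?_
  ext v; simp; ring

/-! ### the Gaussian barrier -/

/-- `|s - c|²` -/
def sq (c s : ℂ) : ℝ := (s.re - c.re) * (s.re - c.re) + (s.im - c.im) * (s.im - c.im)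

theorem sq_eq (c s : ℂ) : sq c s = ‖s - c‖ ^ 2 := by
  rw [← ip_self]; simp [sq, ip]

theorem sq_HD (c s : ℂ) : HD (sq c) s (2 * (s.re - c.re)) (2 * (s.im - c.im)) := by
  have h1 := (HD.re s).sub (HD.const c.re s)
  have h2 := (HD.im s).sub (HD.const c.im s)
  exact ((h1.mul h1).add (h2.mul h2)).congr (by ring) (by ring)

/-- `exp(-α|s-c|²) - k` -/
def hf (α : ℝ) (c : ℂ) (k : ℝ) (s : ℂ) : ℝ := Real.exp (-α * sq c s) - k

theorem hf_HD (α : ℝ) (c : ℂ) (k : ℝ) (s : ℂ) :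
    HD (hf α c k) s (Real.exp (-α * sq c s) * (-2 * α * (s.re - c.re)))
      (Real.exp (-α * sq c s) * (-2 * α * (s.im - c.im))) := by
  have h1 := ((((HD.const (-α) s).mul (sq_HD c s))).exp).sub (HD.const k s)
  exact h1.congr (by ring) (by ring)

theorem hf_d1 (α : ℝ) (c : ℂ) (k : ℝ) :
    d1 (hf α c k) = fun s => Real.exp (-α * sq c s) * (-2 * α * (s.re - c.re)) :=
  funext fun s => (hf_HD α c k s).d1

theorem hf_d2 (α : ℝ) (c : ℂ) (k : ℝ) :
    d2 (hf α c k) = fun s => Real.exp (-α * sq c s) * (-2 * α * (s.im - c.im)) :=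
  funext fun s => (hf_HD α c k s).d2

theorem hf_hess (α : ℝ) (c : ℂ) (k : ℝ) (s : ℂ) :
    hess (hf α c k) s = ⟨Real.exp (-α * sq c s) * (4 * α ^ 2 * (s.re - c.re) ^ 2 - 2 * α),
      Real.exp (-α * sq c s) * (4 * α ^ 2 * (s.re - c.re) * (s.im - c.im)),
      Real.exp (-α * sq c s) * (4 * α ^ 2 * (s.im - c.im) ^ 2 - 2 * α)⟩ := by
  have hE := ((HD.const (-α) s).mul (sq_HD c s)).exp
  have hr := (HD.const (-2 * α) s).mul ((HD.re s).sub (HD.const c.re s))
  have hi := (HD.const (-2 * α) s).mul ((HD.im s).sub (HD.const c.im s))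
  have h1 := hE.mul hr
  have h2 := hE.mul hi
  unfold hess
  rw [hf_d1, hf_d2]
  rw [h1.d1, h1.d2, h2.d2]
  congr 1 <;> ring

theorem hf_contDiff (α : ℝ) (c : ℂ) (k : ℝ) : ContDiff ℝ ∞ (hf α c k) := by
  have h1 : ContDiff ℝ ∞ (fun p : ℂ => p.re) := Complex.reCLM.contDiff
  have h2 : ContDiff ℝ ∞ (fun p : ℂ => p.im) := Complex.imCLM.contDiff
  unfold hf sq
  fun_prop

/-- `L_g h > 0` for the Gaussian barrier -/
theorem hf_Lop {g : ℂ → ℝ} {s c : ℂ} {α k Cβ ρ : ℝ} (hα : 0 < α) (hρ : 0 < ρ)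
    (hm : ‖grad g s‖ ≤ 1) (hβ : ‖dcurv (grad g s) (hess g s)‖ ≤ Cβ)
    (h1 : ρ ≤ ‖s - c‖) (h2 : ‖s - c‖ ≤ 2 * ρ) (h : 3 + 2 * Cβ * ρ < 2 * α * ρ ^ 2) :
    0 < Lop g (hf α c k) s := by
  set m := grad g s with hmdef
  set β := dcurv (grad g s) (hess g s) with hβdef
  set E := Real.exp (-α * sq c s) with hE
  have hE0 : 0 < E := Real.exp_pos _
  set x := s.re - c.re with hx
  set y := s.im - c.im with hy
  have hgr : grad (hf α c k) s = ((E * (-2 * α) : ℝ) : ℂ) * (s - c) := by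
    unfold grad
    rw [hf_d1, hf_d2]
    apply Complex.ext
    · rw [Complex.re_ofReal_mul, Complex.sub_re]
      simp only [← hE]
      ring
    · rw [Complex.im_ofReal_mul, Complex.sub_im]
      simp only [← hE]
      ring
  have hz : x ^ 2 + y ^ 2 = ‖s - c‖ ^ 2 := by
    rw [← ip_self]; simp [ip, ← hx, ← hy]; ring
  have hm2 : m.re ^ 2 + m.im ^ 2 ≤ 1 := by
    have : ip m m = ‖m‖ ^ 2 := ip_self m
    have h3 : ‖m‖ ^ 2 ≤ 1 := by
      have := norm_nonneg m
      nlinarith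
    rw [← this, ip] at h3
    nlinarith
  have e1 : Lop g (hf α c k) s = E * (4 * α ^ 2 * ((x ^ 2 + y ^ 2) + (m.im * x - m.re * y) ^ 2)
      - 2 * α * (2 + (m.re ^ 2 + m.im ^ 2)) - 2 * α * ip β (s - c)) := by
    unfold Lop
    rw [hgr, ip_ofReal_mul_right, hf_hess]
    simp only [lin, ← hE, ← hmdef, ← hx, ← hy]
    ring
  rw [e1]
  apply mul_pos hE0
  have h4 : ip β (s - c) ≤ Cβ * (2 * ρ) := by
    calc ip β (s - c) ≤ ‖β‖ * ‖s - c‖ := ip_le _ _
      _ ≤ Cβ * (2 * ρ) := by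
        apply mul_le_mul hβ h2 (norm_nonneg _) ((norm_nonneg _).trans hβ)
  have h5 : ρ ^ 2 ≤ x ^ 2 + y ^ 2 := by
    rw [hz]; nlinarith
  have h6 : 0 ≤ (m.im * x - m.re * y) ^ 2 := sq_nonneg _
  have h7 : 4 * α ^ 2 * ρ ^ 2 ≤ 4 * α ^ 2 * ((x ^ 2 + y ^ 2) + (m.im * x - m.re * y) ^ 2) := by
    have : 0 ≤ 4 * α ^ 2 := by positivity
    apply mul_le_mul_of_nonneg_left _ this
    linarith
  have h8 : 2 * α * (2 + (m.re ^ 2 + m.im ^ 2)) ≤ 2 * α * 3 := by
    apply mul_le_mul_of_nonneg_left _ (by positivity)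
    linarith
  have h9 : 2 * α * ip β (s - c) ≤ 2 * α * (Cβ * (2 * ρ)) :=
    mul_le_mul_of_nonneg_left h4 (by positivity)
  nlinarith

/-- lower bound of the Gaussian barrier -/
theorem hf_lower {α R : ℝ} {c s : ℂ} (hα : 0 < α) (h : ‖s - c‖ ≤ R) :
    α * R * Real.exp (-α * R ^ 2) * (R - ‖s - c‖) ≤ hf α c (Real.exp (-α * R ^ 2)) s := by
  unfold hf
  rw [sq_eq]
  have e : Real.exp (-α * ‖s - c‖ ^ 2) = Real.exp (-α * R ^ 2)
      * Real.exp (α * (R ^ 2 - ‖s - c‖ ^ 2)) := by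
    rw [← Real.exp_add]; congr 1; ring
  rw [e]
  have h1 := Real.add_one_le_exp (α * (R ^ 2 - ‖s - c‖ ^ 2))
  have h2 : 0 < Real.exp (-α * R ^ 2) := Real.exp_pos _
  have h3 := norm_nonneg (s - c)
  have h4 : R * (R - ‖s - c‖) ≤ R ^ 2 - ‖s - c‖ ^ 2 := by nlinarith
  have h5 : α * (R * (R - ‖s - c‖)) ≤ Real.exp (α * (R ^ 2 - ‖s - c‖ ^ 2)) - 1 := by
    have := mul_le_mul_of_nonneg_left h4 hα.le
    linarith
  have h6 := mul_le_mul_of_nonneg_left h5 h2.le
  nlinarith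

/-! ### the quadratic barrier -/

/-- `ρ/16 + x/2 + x²/(2ρ) - (3/(16ρ))|s-c|²`, `x = ⟨s-c, ξ⟩` -/
def bq (ρ : ℝ) (ξ c : ℂ) (s : ℂ) : ℝ :=
  ρ / 16 + (1 / 2) * ((s.re - c.re) * ξ.re + (s.im - c.im) * ξ.im)
    + (1 / (2 * ρ)) * (((s.re - c.re) * ξ.re + (s.im - c.im) * ξ.im)
      * ((s.re - c.re) * ξ.re + (s.im - c.im) * ξ.im))
    - (3 / (16 * ρ)) * sq c s

theorem bq_HD (ρ : ℝ) (ξ c s : ℂ) :
    HD (bq ρ ξ c) s ((1 / 2) * ξ.re + (1 / ρ) * ((s.re - c.re) * ξ.re + (s.im - c.im) * ξ.im) * ξ.re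
        - (3 / (8 * ρ)) * (s.re - c.re))
      ((1 / 2) * ξ.im + (1 / ρ) * ((s.re - c.re) * ξ.re + (s.im - c.im) * ξ.im) * ξ.im
        - (3 / (8 * ρ)) * (s.im - c.im)) := by
  have hr := (((HD.re s).sub (HD.const c.re s)).mul (HD.const ξ.re s))
  have hi := (((HD.im s).sub (HD.const c.im s)).mul (HD.const ξ.im s))
  have hx := hr.add hi
  have h := (((HD.const (ρ / 16) s).add ((HD.const (1 / 2) s).mul hx)).add
    ((HD.const (1 / (2 * ρ)) s).mul (hx.mul hx))).sub ((HD.const (3 / (16 * ρ)) s).mul (sq_HD c s))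
  exact h.congr (by ring) (by ring)

theorem bq_d1 (ρ : ℝ) (ξ c : ℂ) : d1 (bq ρ ξ c) = fun s =>
    (1 / 2) * ξ.re + (1 / ρ) * ((s.re - c.re) * ξ.re + (s.im - c.im) * ξ.im) * ξ.re
        - (3 / (8 * ρ)) * (s.re - c.re) :=
  funext fun s => (bq_HD ρ ξ c s).d1

theorem bq_d2 (ρ : ℝ) (ξ c : ℂ) : d2 (bq ρ ξ c) = fun s =>
    (1 / 2) * ξ.im + (1 / ρ) * ((s.re - c.re) * ξ.re + (s.im - c.im) * ξ.im) * ξ.im
        - (3 / (8 * ρ)) * (s.im - c.im) :=
  funext fun s => (bq_HD ρ ξ c s).d2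

theorem bq_hess (ρ : ℝ) (ξ c s : ℂ) :
    hess (bq ρ ξ c) s = ⟨(1 / ρ) * ξ.re ^ 2 - 3 / (8 * ρ), (1 / ρ) * (ξ.re * ξ.im),
      (1 / ρ) * ξ.im ^ 2 - 3 / (8 * ρ)⟩ := by
  have hr := ((HD.re s).sub (HD.const c.re s))
  have hi := ((HD.im s).sub (HD.const c.im s))
  have hx := (hr.mul (HD.const ξ.re s)).add (hi.mul (HD.const ξ.im s))
  have h1 := (((HD.const ((1 / 2) * ξ.re) s).add
    (((HD.const (1 / ρ) s).mul hx).mul (HD.const ξ.re s)))).sub ((HD.const (3 / (8 * ρ)) s).mul hr)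
  have h2 := (((HD.const ((1 / 2) * ξ.im) s).add
    (((HD.const (1 / ρ) s).mul hx).mul (HD.const ξ.im s)))).sub ((HD.const (3 / (8 * ρ)) s).mul hi)
  unfold hess
  rw [bq_d1, bq_d2]
  rw [h1.d1, h1.d2, h2.d2]
  congr 1 <;> ring

theorem bq_contDiff (ρ : ℝ) (ξ c : ℂ) : ContDiff ℝ ∞ (bq ρ ξ c) := by
  have h1 : ContDiff ℝ ∞ (fun p : ℂ => p.re) := Complex.reCLM.contDiff
  have h2 : ContDiff ℝ ∞ (fun p : ℂ => p.im) := Complex.imCLM.contDiff
  unfold bq sq
  fun_prop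

/-- `L_g b > 0` for the quadratic barrier -/
theorem bq_Lop {g : ℂ → ℝ} {s c ξ : ℂ} {Cβ ρ : ℝ} (hρ : 0 < ρ) (hξ : ‖ξ‖ = 1)
    (hm : ‖grad g s‖ ≤ 1 / 4) (hβ : ‖dcurv (grad g s) (hess g s)‖ ≤ Cβ)
    (h2 : ‖s - c‖ ≤ ρ) (h : ρ * (10 * Cβ) < 1) :
    0 < Lop g (bq ρ ξ c) s := by
  set m := grad g s with hmdef
  set β := dcurv (grad g s) (hess g s) with hβdef
  have hξ2 : ξ.re ^ 2 + ξ.im ^ 2 = 1 := by
    have : ip ξ ξ = ‖ξ‖ ^ 2 := ip_self ξ
    rw [hξ, ip] at this
    nlinarith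
  have hm2 : m.re ^ 2 + m.im ^ 2 ≤ 1 / 16 := by
    have : ip m m = ‖m‖ ^ 2 := ip_self m
    have h3 : ‖m‖ ^ 2 ≤ 1 / 16 := by
      have := norm_nonneg m
      nlinarith
    rw [← this, ip] at h3
    nlinarith
  have hgr : grad (bq ρ ξ c) s = ((1 / 2 + (1 / ρ) * ip (s - c) ξ : ℝ) : ℂ) * ξ
      - ((3 / (8 * ρ) : ℝ) : ℂ) * (s - c) := by
    unfold grad
    rw [bq_d1, bq_d2]
    apply Complex.ext
    · rw [Complex.sub_re, Complex.re_ofReal_mul, Complex.re_ofReal_mul, Complex.sub_re, ip,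
        Complex.sub_re, Complex.sub_im]
      ring
    · rw [Complex.sub_im, Complex.im_ofReal_mul, Complex.im_ofReal_mul, Complex.sub_im, ip,
        Complex.sub_re, Complex.sub_im]
      ring
  have e1 : Lop g (bq ρ ξ c) s = (1 / ρ) * (1 + (m.im * ξ.re - m.re * ξ.im) ^ 2
      - 3 / 8 * (2 + (m.re ^ 2 + m.im ^ 2)))
      + ((1 / 2 + (1 / ρ) * ip (s - c) ξ) * ip β ξ - (3 / (8 * ρ)) * ip β (s - c)) := by
    unfold Lop
    rw [hgr, ip_sub_right, ip_ofReal_mul_right, ip_ofReal_mul_right, bq_hess]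
    simp only [lin, ← hmdef]
    have : (1:ℝ) = ξ.re ^ 2 + ξ.im ^ 2 := hξ2.symm
    congr 1
    field_simp
    linear_combination (8 : ℝ) * hξ2
  have hCβ : 0 ≤ Cβ := (norm_nonneg _).trans hβ
  have h3 : |ip β ξ| ≤ Cβ := by
    calc _ ≤ ‖β‖ * ‖ξ‖ := abs_ip_le _ _
      _ ≤ Cβ := by rw [hξ, mul_one]; exact hβ
  have h4 : |ip β (s - c)| ≤ Cβ * ρ := by
    calc _ ≤ ‖β‖ * ‖s - c‖ := abs_ip_le _ _
      _ ≤ Cβ * ρ := mul_le_mul hβ h2 (norm_nonneg _) hCβ
  have h5 : |ip (s - c) ξ| ≤ ρ := by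
    calc _ ≤ ‖s - c‖ * ‖ξ‖ := abs_ip_le _ _
      _ ≤ ρ := by rw [hξ, mul_one]; exact h2
  have h6 : |(1 / 2 + (1 / ρ) * ip (s - c) ξ)| ≤ 3 / 2 := by
    have h7 : |(1 / ρ) * ip (s - c) ξ| ≤ 1 := by
      rw [abs_mul, abs_of_pos (by positivity : 0 < 1 / ρ), one_div, inv_mul_le_iff₀ hρ]
      simpa using h5
    rw [abs_le] at h7 ⊢
    constructor <;> linarith [h7.1, h7.2]
  have h8 : |(1 / 2 + (1 / ρ) * ip (s - c) ξ) * ip β ξ| ≤ 3 / 2 * Cβ := by
    rw [abs_mul]
    exact mul_le_mul h6 h3 (abs_nonneg _) (by norm_num)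
  have h9 : |(3 / (8 * ρ)) * ip β (s - c)| ≤ 3 / 8 * Cβ := by
    rw [abs_mul, abs_of_pos (by positivity : 0 < 3 / (8 * ρ))]
    calc 3 / (8 * ρ) * |ip β (s - c)| ≤ 3 / (8 * ρ) * (Cβ * ρ) := by
          apply mul_le_mul_of_nonneg_left h4 (by positivity)
      _ = 3 / 8 * Cβ := by field_simp
  rw [e1]
  rw [abs_le] at h8 h9
  have h10 : (1 / ρ) * (1 / 5) ≤ (1 / ρ) * (1 + (m.im * ξ.re - m.re * ξ.im) ^ 2
      - 3 / 8 * (2 + (m.re ^ 2 + m.im ^ 2))) := by
    apply mul_le_mul_of_nonneg_left _ (by positivity)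
    have := sq_nonneg (m.im * ξ.re - m.re * ξ.im)
    linarith
  have h11 : 2 * Cβ < (1 / ρ) * (1 / 5) := by
    rw [one_div, ← div_eq_inv_mul, lt_div_iff₀ hρ]
    linarith
  linarith [h8.1, h9.2]

/-! ### perturbed patches -/

variable {M : Type u} [TopologicalSpace M]

theorem not_bd (S : Setup M) {q : M} (hq : (S.f q).1 ∈ S.D) : q ∉ S.bd := by
  intro h
  have h1 : S.f q ∈ S.f '' S.bd := ⟨q, h, rfl⟩
  rw [S.img_bd] at h1
  have h2 := h1.1
  rw [S.curve.isOpen.frontier_eq] at h2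
  exact h2.2 hq

theorem stay {K : Set ℂ} (hK : IsCompact K) {P Q : ℂ → E3} (hP : ContinuousOn P K)
    (hQ : ContinuousOn Q K) {O : Set E3} (hO : IsOpen O) (h : ∀ s ∈ K, P s ∈ O) :
    ∃ τ₁ > 0, ∀ τ : ℝ, 0 < τ → τ < τ₁ → ∀ s ∈ K, P s + τ • Q s ∈ O := by
  obtain ⟨δ, hδ, hsub⟩ := (hK.image_of_continuousOn hP).exists_thickening_subset_open hO
    (by rintro _ ⟨s, hs, rfl⟩; exact h s hs)
  obtain ⟨C, hC⟩ := hK.exists_bound_of_continuousOn hQ
  have hC' : 0 < |C| + 1 := by positivity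
  refine ⟨δ / (|C| + 1), by positivity, fun τ h0 h1 s hs => hsub ?_⟩
  rw [mem_thickening_iff]
  refine ⟨P s, ⟨s, hs, rfl⟩, ?_⟩
  rw [dist_eq_norm, add_sub_cancel_left, norm_smul, Real.norm_eq_abs, abs_of_pos h0]
  rw [lt_div_iff₀ hC'] at h1
  have h2 : ‖Q s‖ ≤ |C| + 1 := (hC s hs).trans ((le_abs_self C).trans (by linarith))
  calc τ * ‖Q s‖ ≤ τ * (|C| + 1) := mul_le_mul_of_nonneg_left h2 h0.le
    _ < δ := h1

theorem pt_sub (F : Frame) (q : E3) (g h : ℂ → ℝ) (τ : ℝ) (s : ℂ) :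
    F.pt q (fun t => g t - τ * h t) s = F.pt q g s + τ • ((-h s) • F.n) := by
  unfold Frame.pt
  rw [smul_smul, sub_smul]
  rw [show τ * -h s = -(τ * h s) by ring, neg_smul]
  abel

theorem pt_continuousOn (F : Frame) (q : E3) {g : ℂ → ℝ} {U : Set ℂ} (hg : ContinuousOn g U) :
    ContinuousOn (F.pt q g) U := by
  unfold Frame.pt
  have h1 : Continuous (fun s : ℂ => s.re) := Complex.continuous_re
  have h2 : Continuous (fun s : ℂ => s.im) := Complex.continuous_im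
  exact ((continuousOn_const.add (h1.continuousOn.smul continuousOn_const)).add
    (h2.continuousOn.smul continuousOn_const)).add (hg.smul continuousOn_const)

theorem absorb_patch (hP : PerturbStatement) (S : Setup M)
    (hA : Absorbs S.D S.H (range S.f)) {q : M} {F : Frame} {r : ℝ} {g : ℂ → ℝ}
    {e : PartialEquiv M ℂ} (hp : IntPatch S.f S.N S.bd S.H q F r g e) {h : ℂ → ℝ} {K : Set ℂ}
    (hK : IsCompact K) (hKr : K ⊆ ball 0 r) (hKD : ∀ s ∈ K, (F.pt (S.f q) g s).1 ∈ S.D)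
    (hh : ContDiff ℝ ∞ h) (hL : ∀ s ∈ K, 0 < Lop g h s)
    (hb : ∃ τ' > 0, ∀ τ, 0 < τ → τ < τ' → ∀ s ∈ K, s ∉ interior K →
      F.pt (S.f q) (fun t => g t - τ * h t) s ∈ below (range S.f)) :
    ∃ τ₁ > 0, ∀ τ, 0 < τ → τ < τ₁ → ∀ s ∈ K,
      F.pt (S.f q) (fun t => g t - τ * h t) s ∈ below (range S.f) := by
  obtain ⟨τ', hτ', hb⟩ := hb
  obtain ⟨τ₀, hτ₀, hpert⟩ := hP (ball 0 r) K g h isOpen_ball hK hKr hp.1.smooth hh.contDiffOn hL
  have hgc : ContinuousOn g K := hp.1.smooth.continuousOn.mono hKr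
  obtain ⟨τ₂, hτ₂, hst⟩ := stay hK (pt_continuousOn F (S.f q) hgc)
    (Q := fun s => (-h s) • F.n) ((hh.continuous.neg.smul continuous_const).continuousOn)
    (O := {X : E3 | X.1 ∈ S.D}) (S.curve.isOpen.preimage continuous_fst) hKD
  have hH := S.H_pos
  refine ⟨min (min τ' τ₀) (min τ₂ (τ₀ * S.H)), by positivity, fun τ h0 h1 s hs => ?_⟩
  have a1 : τ < τ' := h1.trans_le ((min_le_left _ _).trans (min_le_left _ _))
  have a2 : τ < τ₀ := h1.trans_le ((min_le_left _ _).trans (min_le_right _ _))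
  have a3 : τ < τ₂ := h1.trans_le ((min_le_right _ _).trans (min_le_left _ _))
  have a4 : τ < τ₀ * S.H := h1.trans_le ((min_le_right _ _).trans (min_le_right _ _))
  obtain ⟨c, hc, hcurv⟩ := hpert τ h0 a2
  refine hA F (S.f q) (fun t => g t - τ * h t) K (ball 0 r) (min c S.H) hK isOpen_ball hKr
    (hp.1.smooth.sub ((contDiff_const.mul hh).contDiffOn)) (lt_min hc hH) ?_ (hb τ h0 a1) ?_ s hs
  · intro t ht
    apply subset_closure
    have := hst τ h0 a3 t ht
    rw [← pt_sub] at this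
    exact this
  · intro t ht
    obtain ⟨h2, h3⟩ := hcurv t ht
    have h4 : mc g t = 2 * S.H := hp.1.mean t (hKr ht)
    rw [h4] at h2 h3
    have h5 : τ₀⁻¹ * τ ≤ S.H := by
      rw [inv_mul_le_iff₀ hτ₀]; exact a4.le
    rw [abs_le] at h3 ⊢
    have h6 := min_le_left c S.H
    have h7 := min_le_right c S.H
    constructor
    · linarith [h3.1]
    · linarith

/-! ### the main argument -/

set_option maxHeartbeats 4000000 in
theorem core (hNS : NSideStatement.{u}) (hP : PerturbStatement) [CompactSpace M] [T2Space M]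
    (S : Setup M) (hA : Absorbs S.D S.H (range S.f)) {q : M} {F : Frame} {r : ℝ} {g : ℂ → ℝ}
    {e : PartialEquiv M ℂ} (hp : IntPatch S.f S.N S.bd S.H q F r g e)
    (hq : S.f q ∉ interior (below (range S.f))) {r₂ : ℝ} (hr₂ : 0 < r₂) (hr : r₂ ≤ r / 2)
    (hD : ∀ s ∈ ball (0 : ℂ) r₂, (F.pt (S.f q) g s).1 ∈ S.D)
    (hg : ∀ s ∈ ball (0 : ℂ) r₂, ‖grad g s‖ ≤ 1 / 4) :
    ∀ s ∈ ball (0 : ℂ) (r₂ / 8), F.pt (S.f q) g s ∉ interior (below (range S.f)) := by
  intro s' hs' hs'E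
  have hsub : ball (0 : ℂ) r₂ ⊆ ball 0 r := ball_subset_ball (by linarith [hp.1.r_pos])
  have hcs : closedBall (0 : ℂ) (r / 2) ⊆ ball 0 r := closedBall_subset_ball (by linarith [hp.1.r_pos])
  have hsub' : ball (0 : ℂ) r₂ ⊆ closedBall 0 (r / 2) :=
    (ball_subset_ball hr).trans ball_subset_closedBall
  obtain ⟨Cβ, hCβ⟩ := (isCompact_closedBall (0 : ℂ) (r / 2)).exists_bound_of_continuousOn
    ((dcurv_continuousOn isOpen_ball hp.1.smooth).mono hcs)
  have hgc : ContinuousOn g (ball 0 r) := hp.1.smooth.continuousOn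
  have hPc := pt_continuousOn F (S.f q) (hgc.mono hsub)
  set P := F.pt (S.f q) g with hPdef
  have hCβ0 : 0 ≤ Cβ := (norm_nonneg _).trans (hCβ 0 (by simp; linarith [hp.1.r_pos]))
  set E : Set ℂ := ball 0 r₂ ∩ P ⁻¹' interior (below (range S.f)) with hEdef
  have hE : IsOpen E := hPc.isOpen_inter_preimage isOpen_ball isOpen_interior
  have hs'r : ‖s'‖ < r₂ / 8 := by simpa using hs'
  have hs'E : s' ∈ E := ⟨ball_subset_ball (by linarith) hs', hs'E⟩
  have h0E : (0 : ℂ) ∈ Eᶜ := by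
    intro h
    apply hq
    have h2 := h.2
    have e0 : P 0 = S.f q := by
      rw [hPdef]; simp [Frame.pt, hp.1.g_zero]
    simpa [e0] using h2
  set R := infDist s' Eᶜ with hRdef
  have hR0 : 0 < R := (hE.isClosed_compl.notMem_iff_infDist_pos ⟨0, h0E⟩).1 (fun h => h hs'E)
  obtain ⟨s₁, hs₁, hR₁⟩ := hE.isClosed_compl.exists_infDist_eq_dist ⟨0, h0E⟩ s'
  rw [← hRdef] at hR₁
  have hRs : R ≤ ‖s'‖ := by
    have := infDist_le_dist_of_mem h0E (x := s')
    simpa [← hRdef] using this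
  have hball : ∀ t, ‖t - s'‖ < R → t ∈ E := by
    intro t ht
    by_contra h
    have h2 := infDist_le_dist_of_mem (s := Eᶜ) (x := s') h
    rw [← hRdef, dist_comm, dist_eq_norm] at h2
    linarith
  -- the annulus
  set K : Set ℂ := {s | R / 2 ≤ ‖s - s'‖ ∧ ‖s - s'‖ ≤ R} with hKdef
  have hcn : Continuous fun s : ℂ => ‖s - s'‖ := by fun_prop
  have hKc : IsCompact K := by
    apply (isCompact_closedBall s' R).of_isClosed_subset
    · exact (isClosed_le continuous_const hcn).inter (isClosed_le hcn continuous_const)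
    · intro s hs
      rw [mem_closedBall, dist_eq_norm]
      exact hs.2
  have hK2 : K ⊆ ball 0 r₂ := by
    intro s hs
    have h1 : ‖s‖ ≤ ‖s - s'‖ + ‖s'‖ := by
      have := norm_add_le (s - s') s'
      simpa using this
    rw [mem_ball_zero_iff]
    linarith [hs.2]
  have hKint : ∀ s ∈ K, s ∉ interior K → ‖s - s'‖ = R / 2 ∨ ‖s - s'‖ = R := by
    intro s hs hns
    by_contra hcon
    push Not at hcon
    apply hns
    have ho : IsOpen {s : ℂ | R / 2 < ‖s - s'‖ ∧ ‖s - s'‖ < R} :=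
      (isOpen_lt continuous_const hcn).inter (isOpen_lt hcn continuous_const)
    have hsub3 : {s : ℂ | R / 2 < ‖s - s'‖ ∧ ‖s - s'‖ < R} ⊆ K := fun t ht => ⟨ht.1.le, ht.2.le⟩
    apply interior_maximal hsub3 ho
    exact ⟨lt_of_le_of_ne hs.1 (Ne.symm hcon.1), lt_of_le_of_ne hs.2 hcon.2⟩
  set α : ℝ := 2 * (4 + Cβ * R) / R ^ 2 with hα
  have hα0 : 0 < α := by positivity
  set k : ℝ := Real.exp (-α * R ^ 2) with hk
  have hk0 : 0 < k := Real.exp_pos _
  obtain ⟨τ₁, hτ₁, habs⟩ := absorb_patch hP S hA hp (h := hf α s' k) hKc (hK2.trans hsub)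
    (fun s hs => hD s (hK2 hs)) (hf_contDiff α s' k)
    (by
      intro s hs
      have hsr := hK2 hs
      refine hf_Lop (ρ := R / 2) (Cβ := Cβ) hα0 (by positivity) ((hg s hsr).trans (by norm_num))
        (hCβ s (hsub' hsr)) hs.1 (by linarith [hs.2]) ?_
      have e1 : 2 * α * (R / 2) ^ 2 = 4 + Cβ * R := by
        rw [hα]; field_simp
      rw [e1]; linarith)
    (by
      obtain ⟨τ', hτ', hst⟩ := stay (isCompact_sphere s' (R / 2)) (P := P)
        (Q := fun s => (-hf α s' k s) • F.n) (O := interior (below (range S.f)))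
        (hPc.mono (by
          intro s hs
          rw [mem_sphere, dist_eq_norm] at hs
          exact hK2 ⟨hs.ge, by linarith⟩))
        (((hf_contDiff α s' k).continuous.neg.smul continuous_const).continuousOn)
        isOpen_interior (by
          intro s hs
          rw [mem_sphere, dist_eq_norm] at hs
          exact (hball s (by linarith)).2)
      refine ⟨τ', hτ', fun τ h0 h1 s hs hns => ?_⟩
      rcases hKint s hs hns with h | h
      · have h3 := hst τ h0 h1 s (by rw [mem_sphere, dist_eq_norm]; exact h)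
        rw [hPdef, ← pt_sub] at h3
        exact interior_subset h3
      · have h3 : hf α s' k s = 0 := by
          rw [hf, sq_eq, h, hk]; ring
        rw [pt_sub, h3]
        simp only [neg_zero, zero_smul, smul_zero, add_zero]
        apply subset_below
        rw [← hp.1.param s (hsub (hK2 hs))]
        exact mem_range_self _)
  -- the second barrier
  have hRd : ‖s' - s₁‖ = R := by rw [← dist_eq_norm, ← hR₁]
  have hs₁r : ‖s₁‖ < r₂ / 4 := by
    have h1 : ‖s₁‖ ≤ ‖s₁ - s'‖ + ‖s'‖ := by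
      have := norm_add_le (s₁ - s') s'
      simpa using this
    rw [norm_sub_rev] at h1
    linarith
  have hs₁r2 : s₁ ∈ ball (0 : ℂ) r₂ := by rw [mem_ball_zero_iff]; linarith
  obtain ⟨δ, hδ, hN⟩ := hNS M S hA q F r g e hp s₁ (hsub hs₁r2) (hD s₁ hs₁r2)
  set ρ : ℝ := min (R / 4) (min (δ / 2) (1 / (20 * (Cβ + 1)))) with hρ
  have hρ0 : 0 < ρ := by positivity
  have hρR : ρ ≤ R / 4 := min_le_left _ _
  have hρδ : ρ < δ := ((min_le_right _ _).trans (min_le_left _ _)).trans_lt (by linarith)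
  have hρC : ρ * (10 * Cβ) < 1 := by
    have h1 : ρ ≤ 1 / (20 * (Cβ + 1)) := (min_le_right _ _).trans (min_le_right _ _)
    rw [le_div_iff₀ (by positivity)] at h1
    nlinarith
  set ξ : ℂ := ((R⁻¹ : ℝ) : ℂ) * (s' - s₁) with hξ
  have hξ1 : ‖ξ‖ = 1 := by
    rw [hξ, norm_mul, Complex.norm_real, Real.norm_eq_abs, abs_of_pos (inv_pos.2 hR0), hRd]
    field_simp
  have hcb2 : closedBall s₁ ρ ⊆ ball 0 r₂ := by
    intro s hs
    rw [mem_closedBall, dist_eq_norm] at hs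
    have h1 : ‖s‖ ≤ ‖s - s₁‖ + ‖s₁‖ := by
      have := norm_add_le (s - s₁) s₁
      simpa using this
    rw [mem_ball_zero_iff]
    linarith
  obtain ⟨B, hB⟩ := (isCompact_closedBall s₁ ρ).exists_bound_of_continuousOn
    (bq_contDiff ρ ξ s₁).continuous.continuousOn
  have hB0 : 0 ≤ B := (norm_nonneg _).trans (hB s₁ (mem_closedBall_self hρ0.le))
  have hb_eq : ∀ s, bq ρ ξ s₁ s = ρ / 16 + (1 / 2) * ip (s - s₁) ξ
      + (1 / (2 * ρ)) * ip (s - s₁) ξ ^ 2 - (3 / (16 * ρ)) * ‖s - s₁‖ ^ 2 := by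
    intro s
    rw [← sq_eq, bq, ip, Complex.sub_re, Complex.sub_im]
    ring
  obtain ⟨τ₂, hτ₂, habs2⟩ := absorb_patch hP S hA hp (h := bq ρ ξ s₁) (isCompact_closedBall s₁ ρ)
    (hcb2.trans hsub) (fun s hs => hD s (hcb2 hs)) (bq_contDiff ρ ξ s₁)
    (by
      intro s hs
      have hsr := hcb2 hs
      rw [mem_closedBall, dist_eq_norm] at hs
      exact bq_Lop hρ0 hξ1 (hg s hsr) (hCβ s (hsub' hsr)) hs hρC)
    (by
      refine ⟨min (δ / (B + 1)) (α * R * k * τ₁), by positivity, fun τ h0 h1 s hs hns => ?_⟩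
      have h1a : τ < δ / (B + 1) := h1.trans_le (min_le_left _ _)
      have h1b : τ < α * R * k * τ₁ := h1.trans_le (min_le_right _ _)
      have hBs : ‖bq ρ ξ s₁ s‖ ≤ B := hB s hs
      have hsρ : ‖s - s₁‖ = ρ := by
        rw [interior_closedBall _ hρ0.ne'] at hns
        rw [mem_closedBall, dist_eq_norm] at hs
        rw [mem_ball, dist_eq_norm] at hns
        linarith
      have hbs := hb_eq s
      rw [hsρ] at hbs
      set x := ip (s - s₁) ξ with hx
      rcases le_or_gt (bq ρ ξ s₁ s) 0 with hneg | hpos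
      · have h2 := hN s (by rw [hsρ]; exact hρδ) (g s - τ * bq ρ ξ s₁ s)
          (by nlinarith) (by
            rw [Real.norm_eq_abs, abs_le] at hBs
            rw [lt_div_iff₀ (by positivity)] at h1a
            nlinarith)
        exact h2
      · have hxρ : |x| ≤ ρ := by
          have := abs_ip_le (s - s₁) ξ
          rw [hξ1, hsρ, mul_one] at this
          exact this
        rw [abs_le] at hxρ
        have e2 : (1 / (2 * ρ)) * x ^ 2 * (2 * ρ) = x ^ 2 := by field_simp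
        have e3 : (3 / (16 * ρ)) * ρ ^ 2 = 3 * ρ / 16 := by field_simp
        have hx0 : 0 < x := by
          by_contra hx0
          push Not at hx0
          have h3 : (1 / (2 * ρ)) * x ^ 2 ≤ - x / 2 := by
            rw [one_div, inv_mul_le_iff₀ (by positivity)]
            nlinarith
          rw [hbs, e3] at hpos
          linarith
        have h3 : (1 / (2 * ρ)) * x ^ 2 ≤ x / 2 := by
          rw [one_div, inv_mul_le_iff₀ (by positivity)]
          nlinarith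
        have h4 : bq ρ ξ s₁ s ≤ x - ρ / 8 := by
          rw [hbs, e3]; linarith
        have h5 : ρ ^ 2 / (2 * R) ≤ ρ / 8 := by
          rw [div_le_iff₀ (by positivity)]; nlinarith
        have h6 : bq ρ ξ s₁ s ≤ x - ρ ^ 2 / (2 * R) := by linarith
        set N := ‖s - s'‖ with hNdef
        have hN0 : 0 ≤ N := norm_nonneg _
        have hN2 : N ^ 2 = ρ ^ 2 - 2 * R * x + R ^ 2 := by
          have e4 : s - s' = (s - s₁) - (s' - s₁) := by ring
          rw [hNdef, e4, norm_sub_sq', hsρ, hRd]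
          have e5 : ip (s - s₁) (s' - s₁) = R * x := by
            rw [hx, hξ, ip_ofReal_mul_right]
            field_simp
          rw [e5]; ring
        have h7 : ρ ^ 2 < 2 * R * x := by
          have h8 : ρ ^ 2 / (2 * R) < x := by linarith
          rw [div_lt_iff₀ (by positivity)] at h8
          linarith
        have hNR : N < R := by
          apply lt_of_pow_lt_pow_left₀ 2 hR0.le
          rw [hN2]; linarith
        have hNR2 : R / 2 ≤ N := by
          have : R ≤ N + ρ := by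
            have h8 : ‖s' - s₁‖ ≤ ‖s' - s‖ + ‖s - s₁‖ := by
              have := norm_add_le (s' - s) (s - s₁)
              simpa using this
            rw [norm_sub_rev s' s, hsρ, hRd] at h8
            exact h8
          linarith
        have hsK : s ∈ K := ⟨hNR2, hNR.le⟩
        have h8 : x - ρ ^ 2 / (2 * R) ≤ R - N := by
          have h9 : (x - ρ ^ 2 / (2 * R)) * (2 * R) = 2 * R * x - ρ ^ 2 := by
            field_simp
          have h10 : (x - ρ ^ 2 / (2 * R)) * (2 * R) ≤ (R - N) * (2 * R) := by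
            rw [h9]; nlinarith
          exact le_of_mul_le_mul_right h10 (by positivity)
        have h9 := hf_lower (α := α) (R := R) (c := s') (s := s) hα0 hNR.le
        rw [← hk, ← hNdef] at h9
        have hc1 : 0 < α * R * k := by positivity
        have h10 : α * R * k * bq ρ ξ s₁ s ≤ hf α s' k s :=
          (mul_le_mul_of_nonneg_left (h6.trans h8) hc1.le).trans h9
        have hh0 : 0 < hf α s' k s := lt_of_lt_of_le (mul_pos hc1 hpos) h10
        have h11 := habs (τ * bq ρ ξ s₁ s / hf α s' k s) (by positivity) (by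
          rw [div_lt_iff₀ hh0]
          calc τ * bq ρ ξ s₁ s < α * R * k * τ₁ * bq ρ ξ s₁ s := mul_lt_mul_of_pos_right h1b hpos
            _ = τ₁ * (α * R * k * bq ρ ξ s₁ s) := by ring
            _ ≤ τ₁ * hf α s' k s := mul_le_mul_of_nonneg_left h10 hτ₁.le) s hsK
        have e6 : F.pt (S.f q) (fun t => g t - τ * bq ρ ξ s₁ t) s
            = F.pt (S.f q) (fun t => g t - τ * bq ρ ξ s₁ s / hf α s' k s * hf α s' k t) s := by
          unfold Frame.pt
          have : τ * bq ρ ξ s₁ s / hf α s' k s * hf α s' k s = τ * bq ρ ξ s₁ s := by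
            field_simp
          simp only [this]
        rw [e6]
        exact h11)
  -- a full neighbourhood of `P s₁`
  apply hs₁
  refine ⟨hs₁r2, ?_⟩
  rw [mem_preimage, mem_interior_iff_mem_nhds]
  set σ : E3 → ℂ := fun X => ⟨dot (X - S.f q) F.a, dot (X - S.f q) F.b⟩ with hσ
  set y : E3 → ℝ := fun X => dot (X - S.f q) F.n with hy
  have hdc : ∀ V : E3, Continuous fun X : E3 => dot (X - S.f q) V := by
    intro V
    unfold dot ip
    fun_prop
  have hσc : Continuous σ := by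
    have := mk_continuousOn (U := univ) (A := fun _ => (0:ℝ)) (B := fun _ => (0:ℝ))
      continuousOn_const continuousOn_const
    have h : σ = fun X => ((dot (X - S.f q) F.a : ℝ) : ℂ) + ((dot (X - S.f q) F.b : ℝ) : ℂ) * Complex.I := by
      funext X
      apply Complex.ext <;> simp [hσ]
    rw [h]
    exact (Complex.continuous_ofReal.comp (hdc F.a)).add
      ((Complex.continuous_ofReal.comp (hdc F.b)).mul continuous_const)
  have hyc : Continuous y := hdc F.n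
  obtain ⟨p1, p2, p3⟩ := F.dot_pt_sub (S.f q) g s₁
  have hσ1 : σ (P s₁) = s₁ := Complex.ext p1 p2
  have hy1 : y (P s₁) = g s₁ := p3
  have hgat : ContinuousAt g s₁ := hgc.continuousAt (isOpen_ball.mem_nhds (hsub hs₁r2))
  have hexp : ∀ X : E3, X = S.f q + (σ X).re • F.a + (σ X).im • F.b + y X • F.n := by
    intro X
    have h := F.expand (X - S.f q)
    have h2 : X = S.f q + (X - S.f q) := by abel
    rw [h] at h2
    rw [hσ, hy]
    simp only
    rw [add_assoc, add_assoc, ← add_assoc (_ • F.a)]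
    exact h2
  have c1 : ∀ᶠ X in 𝓝 (P s₁), ‖σ X - s₁‖ < ρ := by
    have h1 : ContinuousAt (fun X => ‖σ X - s₁‖) (P s₁) := by
      apply Continuous.continuousAt; fun_prop
    have h2 : ‖σ (P s₁) - s₁‖ < ρ := by rw [hσ1]; simpa using hρ0
    exact h1.eventually_lt continuousAt_const h2
  have c2 : ∀ᶠ X in 𝓝 (P s₁), ρ / 32 < bq ρ ξ s₁ (σ X) := by
    have h1 : ContinuousAt (fun X => bq ρ ξ s₁ (σ X)) (P s₁) :=
      ((bq_contDiff ρ ξ s₁).continuous.comp hσc).continuousAt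
    have h2 : ρ / 32 < bq ρ ξ s₁ (σ (P s₁)) := by
      rw [hσ1, hb_eq]; simp [ip_zero_left]; linarith
    exact continuousAt_const.eventually_lt h1 h2
  have c3 : ∀ᶠ X in 𝓝 (P s₁), |y X - g (σ X)| < min δ (τ₂ * (ρ / 32)) := by
    have h1 : ContinuousAt (fun X => |y X - g (σ X)|) (P s₁) := by
      have h3 : ContinuousAt (fun X => g (σ X)) (P s₁) := by
        apply ContinuousAt.comp (g := g)
        · rw [hσ1]; exact hgat
        · exact hσc.continuousAt
      exact (hyc.continuousAt.sub h3).abs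
    have h2 : |y (P s₁) - g (σ (P s₁))| < min δ (τ₂ * (ρ / 32)) := by
      rw [hσ1, hy1]; simp only [sub_self, abs_zero]; positivity
    exact h1.eventually_lt continuousAt_const h2
  filter_upwards [c1, c2, c3] with X h1 h2 h3
  rw [abs_lt] at h3
  have h3a : min δ (τ₂ * (ρ / 32)) ≤ δ := min_le_left _ _
  have h3b : min δ (τ₂ * (ρ / 32)) ≤ τ₂ * (ρ / 32) := min_le_right _ _
  rcases le_or_gt (g (σ X)) (y X) with h | h
  · rw [hexp X]
    exact hN (σ X) (h1.trans hρδ) (y X) h (by linarith [h3.2])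
  · have hb0 : 0 < bq ρ ξ s₁ (σ X) := by linarith
    have h4 := habs2 ((g (σ X) - y X) / bq ρ ξ s₁ (σ X)) (div_pos (by linarith) hb0) (by
      rw [div_lt_iff₀ hb0]
      calc g (σ X) - y X < τ₂ * (ρ / 32) := by linarith [h3.1]
        _ ≤ τ₂ * bq ρ ξ s₁ (σ X) := mul_le_mul_of_nonneg_left h2.le hτ₂.le) (σ X) (by
          rw [mem_closedBall, dist_eq_norm]; exact h1.le)
    have e6 : F.pt (S.f q) (fun t => g t - (g (σ X) - y X) / bq ρ ξ s₁ (σ X) * bq ρ ξ s₁ t) (σ X)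
        = X := by
      conv_rhs => rw [hexp X]
      unfold Frame.pt
      have : g (σ X) - (g (σ X) - y X) / bq ρ ξ s₁ (σ X) * bq ρ ξ s₁ (σ X) = y X := by
        field_simp; ring
      simp only [this]
    rw [e6] at h4
    exact h4

end TopenAux

universe u

open TopenAux in
/-- TOPEN. The top part of the surface is open. -/
theorem TOPEN_holds (hNS : NSideStatement.{u}) (hP : PerturbStatement) : TopOpenStatement.{u} := by
  intro M _ _ _ S hA
  rw [isOpen_iff_mem_nhds]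
  intro q hq
  obtain ⟨F, r, g, e, hp⟩ := S.surf.interior q (not_bd S hq.1)
  have hr := hp.1.r_pos
  have hgc : ContinuousOn g (ball 0 r) := hp.1.smooth.continuousOn
  have hPc := pt_continuousOn F (S.f q) hgc
  have h0 : (0 : ℂ) ∈ ball (0 : ℂ) r := mem_ball_self hr
  have e0 : F.pt (S.f q) g 0 = S.f q := by simp [Frame.pt, hp.1.g_zero]
  have hPat : ContinuousAt (F.pt (S.f q) g) 0 := hPc.continuousAt (isOpen_ball.mem_nhds h0)
  have hgat : ContinuousAt (grad g) 0 :=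
    (grad_continuousOn isOpen_ball hp.1.smooth).continuousAt (isOpen_ball.mem_nhds h0)
  have c1 : ∀ᶠ s in 𝓝 (0 : ℂ), (F.pt (S.f q) g s).1 ∈ S.D := by
    have h1 : ContinuousAt (fun s => (F.pt (S.f q) g s).1) 0 := continuous_fst.continuousAt.comp hPat
    apply h1.preimage_mem_nhds
    apply S.curve.isOpen.mem_nhds
    rw [e0]; exact hq.1
  have c2 : ∀ᶠ s in 𝓝 (0 : ℂ), ‖grad g s‖ < 1 / 4 := by
    have h1 : ContinuousAt (fun s => ‖grad g s‖) 0 := hgat.norm
    apply h1.eventually_lt continuousAt_const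
    rw [hp.1.grad_zero]; norm_num
  obtain ⟨r₃, hr₃, hb⟩ := Metric.eventually_nhds_iff_ball.1 (c1.and c2)
  have hr₂ : 0 < min r₃ (r / 2) := by positivity
  have hcore := core hNS hP S hA hp hq.2 hr₂ (min_le_right _ _)
    (fun s hs => (hb s (ball_subset_ball (min_le_left _ _) hs)).1)
    (fun s hs => (hb s (ball_subset_ball (min_le_left _ _) hs)).2.le)
  set r₂ := min r₃ (r / 2) with hr₂def
  have hnb : e.source ∩ e ⁻¹' ball 0 (r₂ / 8) ∈ 𝓝 q := by
    apply (hp.1.cont.isOpen_inter_preimage hp.1.isOpen isOpen_ball).mem_nhds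
    refine ⟨hp.1.mem, ?_⟩
    rw [mem_preimage, hp.1.map_zero]
    exact mem_ball_self (by positivity)
  filter_upwards [hnb] with q' hq'
  have hs : e q' ∈ ball (0 : ℂ) (r₂ / 8) := hq'.2
  have hs3 : e q' ∈ ball (0 : ℂ) r₃ := by
    apply ball_subset_ball _ hs
    have := min_le_left r₃ (r / 2)
    linarith
  have hsr : e q' ∈ ball (0 : ℂ) r := by
    apply ball_subset_ball _ hs
    have := min_le_right r₃ (r / 2)
    linarith
  have e1 : S.f q' = F.pt (S.f q) g (e q') := by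
    rw [← hp.1.param (e q') hsr, e.left_inv hq'.1]
  refine ⟨?_, ?_⟩
  · rw [e1]; exact (hb _ hs3).1
  · rw [e1]; exact hcore _ hs

end Cyl
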