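import Pool.Agent.Cyl.Base

/-!
# Fermi coordinates of a convex curve
-/

open MeasureTheory Set Filter Topology Metric
open scoped ContDiff

noncomputable section

namespace Cyl

namespace TUBE

variable {D : Set ℂ} {γ : ℝ → ℂ} {L : ℝ}

theorem hasDerivAt_ip {f g : ℝ → ℂ} {v w : ℂ} {s : ℝ} (hf : HasDerivAt f v s)
    (hg : HasDerivAt g w s) :
    HasDerivAt (fun s => ip (f s) (g s)) (ip v (g s) + ip (f s) w) s := by
  have h1 := Complex.reCLM.hasFDerivAt.comp_hasDerivAt s hf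
  have h2 := Complex.imCLM.hasFDerivAt.comp_hasDerivAt s hf
  have h3 := Complex.reCLM.hasFDerivAt.comp_hasDerivAt s hg
  have h4 := Complex.imCLM.hasFDerivAt.comp_hasDerivAt s hg
  have h := (h1.mul h3).add (h2.mul h4)
  refine (h.congr_deriv ?_)
  simp only [ip, Complex.reCLM_apply, Complex.imCLM_apply, Function.comp]
  ring

theorem hasDerivAt_ip_const {f : ℝ → ℂ} {v : ℂ} {s : ℝ} (hf : HasDerivAt f v s) (w : ℂ) :
    HasDerivAt (fun s => ip (f s) w) (ip v w) s := by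
  have h := hasDerivAt_ip hf (hasDerivAt_const s w)
  rwa [ip_zero_right, add_zero] at h

/-- the inner normal -/
def nn (γ : ℝ → ℂ) (θ : ℝ) : ℂ := Complex.I * deriv γ θ

theorem Phi_eq (γ : ℝ → ℂ) (θ t : ℝ) : Phi γ θ t = γ θ - (t : ℂ) * nn γ θ := rfl

theorem norm_nn (h : ConvexCurve D γ L) (θ : ℝ) : ‖nn γ θ‖ = 1 := by
  rw [nn, norm_mul, Complex.norm_I, one_mul, h.unit]

theorem ip_nn_nn (h : ConvexCurve D γ L) (θ : ℝ) : ip (nn γ θ) (nn γ θ) = 1 := by
  rw [ip_self, norm_nn h, one_pow]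

theorem norm_Phi_sub (h : ConvexCurve D γ L) (θ t : ℝ) : ‖Phi γ θ t - γ θ‖ = |t| := by
  rw [Phi_eq, sub_sub_cancel_left, norm_neg, norm_mul, norm_nn h, mul_one, Complex.norm_real,
    Real.norm_eq_abs]

theorem front (h : ConvexCurve D γ L) (θ : ℝ) : γ θ ∈ frontier D :=
  h.range_eq ▸ mem_range_self θ

theorem front_closure (h : ConvexCurve D γ L) (θ : ℝ) : γ θ ∈ closure D :=
  frontier_subset_closure (front h θ)

theorem front_compl (h : ConvexCurve D γ L) (θ : ℝ) : γ θ ∈ Dᶜ := by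
  have h1 := front h θ
  rw [h.isOpen.frontier_eq] at h1
  exact h1.2

theorem ip_closure (h : ConvexCurve D γ L) (θ : ℝ) {x : ℂ} (hx : x ∈ closure D) :
    0 ≤ ip (x - γ θ) (nn γ θ) := by
  have hc : IsClosed {x : ℂ | 0 ≤ ip (x - γ θ) (nn γ θ)} := by
    refine isClosed_le continuous_const ?_
    unfold ip
    fun_prop
  have hsub : D ⊆ {x : ℂ | 0 ≤ ip (x - γ θ) (nn γ θ)} := fun y hy => (h.inner θ y hy).le
  exact closure_minimal hsub hc hx

theorem smooth_ne (h : ConvexCurve D γ L) (θ : ℝ) : HasDerivAt γ (deriv γ θ) θ :=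
  (h.smooth.differentiable (by simp)).differentiableAt.hasDerivAt

theorem contDiff_deriv (h : ConvexCurve D γ L) : ContDiff ℝ ∞ (deriv γ) :=
  (contDiff_infty_iff_deriv.mp h.smooth).2

theorem contDiff_deriv2 (h : ConvexCurve D γ L) : ContDiff ℝ ∞ (deriv (deriv γ)) :=
  (contDiff_infty_iff_deriv.mp (contDiff_deriv h)).2

theorem smooth_ne2 (h : ConvexCurve D γ L) (θ : ℝ) :
    HasDerivAt (deriv γ) (deriv (deriv γ) θ) θ :=
  ((contDiff_deriv h).differentiable (by simp)).differentiableAt.hasDerivAt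

theorem kap_nonneg (h : ConvexCurve D γ L) (θ : ℝ) : 0 ≤ kap γ θ := by
  by_contra hneg
  push Not at hneg
  set f : ℝ → ℝ := fun s => ip (γ s - γ θ) (nn γ θ) with hf
  have hf1 : ∀ s, HasDerivAt f (ip (deriv γ s) (nn γ θ)) s := fun s =>
    hasDerivAt_ip_const ((smooth_ne h s).sub_const (γ θ)) (nn γ θ)
  have hd1 : deriv f = fun s => ip (deriv γ s) (nn γ θ) := funext fun s => (hf1 s).deriv
  have hd2 : deriv (deriv f) θ = kap γ θ := by
    rw [hd1]
    exact (hasDerivAt_ip_const (smooth_ne2 h θ) (nn γ θ)).deriv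
  have hmax : IsLocalMax f θ := by
    refine isLocalMax_of_deriv_deriv_neg (by rw [hd2]; exact hneg) ?_ (hf1 θ).continuousAt
    rw [hd1]
    simp only [nn]
    rw [ip_comm]
    exact ip_I_mul_self _
  have h0 : f θ = 0 := by simp [hf, ip_zero_left]
  have hz : ∀ᶠ s in 𝓝 θ, f s = 0 := by
    filter_upwards [hmax] with s hs
    refine le_antisymm ?_ (ip_closure h θ (front_closure h s))
    rw [h0] at hs
    exact hs
  have hz' : f =ᶠ[𝓝 θ] fun _ => (0 : ℝ) := hz
  have h3 : deriv (deriv f) θ = 0 := by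
    have h4 := hz'.deriv
    have h5 := h4.deriv_eq
    rw [h5]
    simp
  rw [hd2] at h3
  exact absurd h3 hneg.ne

theorem deriv_periodic (h : ConvexCurve D γ L) : Function.Periodic (deriv γ) L := by
  intro θ
  have h1 : (fun x => γ (x + L)) = γ := funext h.periodic
  have h2 := deriv_comp_add_const γ L θ
  rw [h1] at h2
  exact h2.symm

theorem deriv2_periodic (h : ConvexCurve D γ L) : Function.Periodic (deriv (deriv γ)) L := by
  intro θ
  have h1 : (fun x => deriv γ (x + L)) = deriv γ := funext (deriv_periodic h)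
  have h2 := deriv_comp_add_const (deriv γ) L θ
  rw [h1] at h2
  exact h2.symm

theorem exists_K (h : ConvexCurve D γ L) : ∃ K : ℝ, 1 ≤ K ∧ ∀ θ, ‖deriv (deriv γ) θ‖ ≤ K := by
  obtain ⟨C, hC⟩ := isCompact_Icc.exists_bound_of_continuousOn (s := Icc 0 L)
    (contDiff_deriv2 h).continuous.continuousOn
  refine ⟨max 1 C, le_max_left _ _, fun θ => ?_⟩
  obtain ⟨y, hy, hθ⟩ := (deriv2_periodic h).exists_mem_Ico₀ h.L_pos θ
  rw [hθ]
  exact (hC y ⟨hy.1, hy.2.le⟩).trans (le_max_right _ _)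

theorem deriv_lip (h : ConvexCurve D γ L) {K : ℝ} (hK : ∀ θ, ‖deriv (deriv γ) θ‖ ≤ K)
    (x y : ℝ) : ‖deriv γ y - deriv γ x‖ ≤ K * |y - x| := by
  have := convex_univ.norm_image_sub_le_of_norm_hasDerivWithin_le (f := deriv γ)
    (f' := deriv (deriv γ)) (C := K) (s := univ) (x := x) (y := y)
    (fun s _ => (smooth_ne2 h s).hasDerivWithinAt) (fun s _ => hK s) (mem_univ _) (mem_univ _)
  rwa [Real.norm_eq_abs] at this

theorem taylor (h : ConvexCurve D γ L) {K : ℝ} (hK0 : 0 ≤ K)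
    (hK : ∀ θ, ‖deriv (deriv γ) θ‖ ≤ K) (θ u : ℝ) :
    ‖γ u - γ θ - ((u - θ : ℝ) : ℂ) * deriv γ θ‖ ≤ K * (u - θ) ^ 2 := by
  have h1 := (convex_uIcc θ u).norm_image_sub_le_of_norm_hasDerivWithin_le
    (f := fun s : ℝ => γ s - (s : ℂ) * deriv γ θ)
    (f' := fun s => deriv γ s - deriv γ θ) (C := K * |u - θ|) (x := θ) (y := u)
    (fun s _ => by
      have h2 : HasDerivAt (fun s : ℝ => (s : ℂ)) 1 s := Complex.ofRealCLM.hasDerivAt
      have h3 := ((smooth_ne h s).sub (h2.mul_const (deriv γ θ)))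
      rw [one_mul] at h3
      exact h3.hasDerivWithinAt)
    (fun s hs => by
      refine (deriv_lip h hK θ s).trans ?_
      refine mul_le_mul_of_nonneg_left ?_ hK0
      have := abs_sub_left_of_mem_uIcc hs
      exact this)
    left_mem_uIcc right_mem_uIcc
  have e1 : γ u - (u : ℂ) * deriv γ θ - (γ θ - (θ : ℂ) * deriv γ θ)
      = γ u - γ θ - ((u - θ : ℝ) : ℂ) * deriv γ θ := by
    push_cast
    ring
  have e2 : K * |u - θ| * ‖u - θ‖ = K * (u - θ) ^ 2 := by
    rw [Real.norm_eq_abs, mul_assoc, ← sq, sq_abs]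
  rw [← e1, ← e2]
  exact h1

/-- far from the diagonal the distance of points of the curve is bounded below -/
theorem exists_far (h : ConvexCurve D γ L) {δ : ℝ} (hδ : 0 < δ) :
    ∃ m : ℝ, 0 < m ∧ ∀ θ u : ℝ, δ ≤ u → u ≤ L - δ → m ≤ ‖γ (θ + u) - γ θ‖ := by
  have hcont : Continuous (fun z : ℝ × ℝ => ‖γ (z.1 + z.2) - γ z.1‖) := by
    have := h.smooth.continuous
    fun_prop
  obtain ⟨m, hm, hm2⟩ := (isCompact_Icc.prod isCompact_Icc).exists_forall_le'
    (s := Icc (0 : ℝ) L ×ˢ Icc δ (L - δ)) hcont.continuousOn (a := 0) (fun z hz => by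
      rw [norm_pos_iff, sub_ne_zero]
      intro heq
      obtain ⟨⟨h1, h2⟩, h3, h4⟩ := hz
      -- reduce to `Ico 0 L`
      obtain ⟨y1, hy1, hy1'⟩ : ∃ y ∈ Ico 0 L, γ z.1 = γ y ∧ ∃ k : ℤ, y = z.1 + k * L := by
        rcases eq_or_lt_of_le h2 with h5 | h5
        · refine ⟨0, ⟨le_rfl, h.L_pos⟩, ?_, -1, by push_cast; linarith⟩
          have := h.periodic 0
          rw [zero_add] at this
          rw [h5, this]
        · exact ⟨z.1, ⟨h1, h5⟩, rfl, 0, by simp⟩
      obtain ⟨hy2, k, hk⟩ := hy1'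
      obtain ⟨y3, hy3, hy4, k', hk'⟩ : ∃ y ∈ Ico 0 L, γ (z.1 + z.2) = γ y ∧
          ∃ k : ℤ, y = z.1 + z.2 + k * L := by
        rcases lt_or_ge (z.1 + z.2) L with h5 | h5
        · exact ⟨z.1 + z.2, ⟨by linarith, h5⟩, rfl, 0, by simp⟩
        · refine ⟨z.1 + z.2 - L, ⟨by linarith, by linarith⟩, ?_, -1, by push_cast; ring⟩
          have := h.periodic (z.1 + z.2 - L)
          rw [sub_add_cancel] at this
          exact this
      have h6 : y3 = y1 := h.inj hy3 hy1 (by rw [← hy4, heq, hy2])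
      rw [hk, hk'] at h6
      have h7 : z.2 = ((k - k' : ℤ) : ℝ) * L := by push_cast; linarith
      have hLpos := h.L_pos
      have h8 : (0 : ℝ) < ((k - k' : ℤ) : ℝ) := by
        by_contra hcon
        push Not at hcon
        nlinarith
      have h9 : ((k - k' : ℤ) : ℝ) < 1 := by
        by_contra hcon
        push Not at hcon
        nlinarith
      have h10 : 0 < k - k' := by exact_mod_cast h8
      have h11 : k - k' < 1 := by exact_mod_cast h9
      omega)
  refine ⟨m, hm, fun θ u h1 h2 => ?_⟩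
  have hper : Function.Periodic (fun θ => ‖γ (θ + u) - γ θ‖) L := by
    intro x
    simp only
    have e1 : x + L + u = (x + u) + L := by ring
    rw [e1, h.periodic, h.periodic]
  obtain ⟨y, hy, hθ⟩ := hper.exists_mem_Ico₀ h.L_pos θ
  rw [hθ]
  exact hm2 (y, u) ⟨⟨hy.1, hy.2.le⟩, h1, h2⟩

/-- inner side, near the diagonal -/
theorem near_local (h : ConvexCurve D γ L) {K : ℝ} (hK1 : 1 ≤ K)
    (hK : ∀ θ, ‖deriv (deriv γ) θ‖ ≤ K) {s : ℝ} (hs0 : 0 ≤ s) (hs : s < 1 / (8 * K)) (θ u : ℝ)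
    (hu : |u - θ| ≤ 1 / (2 * K)) : γ u = γ θ ∨ s < ‖γ θ + (s : ℂ) * nn γ θ - γ u‖ := by
  by_cases hd : u = θ
  · left; rw [hd]
  right
  have hK0 : 0 < K := by linarith
  obtain ⟨A, hA⟩ : ∃ A, A = γ u - γ θ := ⟨_, rfl⟩
  obtain ⟨d, hdd⟩ : ∃ d, d = u - θ := ⟨_, rfl⟩
  have ht := taylor h hK0.le hK θ u
  rw [← hA, ← hdd] at ht
  rw [← hdd] at hu
  have hd0 : 0 < |d| := by
    rw [abs_pos, hdd, sub_ne_zero]
    exact hd
  have hdsq : d ^ 2 = |d| ^ 2 := (sq_abs d).symm
  have h1 : ip A (nn γ θ) ≤ K * d ^ 2 := by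
    have e : ip A (nn γ θ) = ip (A - (d : ℂ) * deriv γ θ) (nn γ θ) := by
      rw [ip_sub_left, ip_ofReal_mul_left, nn, ip_comm (deriv γ θ), ip_I_mul_self]
      ring
    rw [e]
    refine (ip_le _ _).trans ?_
    rw [norm_nn h, mul_one]
    exact ht
  have h2 : |d| / 2 ≤ ‖A‖ := by
    have h3 : |d| ≤ ‖A‖ + K * d ^ 2 := by
      calc |d| = ‖(d : ℂ) * deriv γ θ‖ := by
            rw [norm_mul, h.unit, mul_one, Complex.norm_real, Real.norm_eq_abs]
        _ = ‖A - (A - (d : ℂ) * deriv γ θ)‖ := by congr 1; ring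
        _ ≤ ‖A‖ + ‖A - (d : ℂ) * deriv γ θ‖ := norm_sub_le _ _
        _ ≤ ‖A‖ + K * d ^ 2 := by linarith
    have h4 : K * d ^ 2 ≤ |d| / 2 := by
      rw [hdsq]
      have h5 : K * |d| ≤ 1 / 2 := by
        calc K * |d| ≤ K * (1 / (2 * K)) := mul_le_mul_of_nonneg_left hu hK0.le
          _ = 1 / 2 := by field_simp
      nlinarith
    linarith
  have h3 : |d| ^ 2 / 4 ≤ ‖A‖ ^ 2 := by nlinarith
  have h4 : s * K < 1 / 8 := by
    calc s * K < 1 / (8 * K) * K := mul_lt_mul_of_pos_right hs hK0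
      _ = 1 / 8 := by field_simp
  have e1 : ‖γ θ + (s : ℂ) * nn γ θ - γ u‖ ^ 2 = s ^ 2 - 2 * (s * ip A (nn γ θ)) + ‖A‖ ^ 2 := by
    have : γ θ + (s : ℂ) * nn γ θ - γ u = (s : ℂ) * nn γ θ - A := by rw [hA]; ring
    rw [this, norm_sub_sq', norm_mul, norm_nn h, mul_one, Complex.norm_real, Real.norm_eq_abs,
      sq_abs, ip_ofReal_mul_left, ip_comm (nn γ θ)]
  have h5 : s * ip A (nn γ θ) ≤ s * (K * d ^ 2) := mul_le_mul_of_nonneg_left h1 hs0
  have h6 : s ^ 2 < ‖γ θ + (s : ℂ) * nn γ θ - γ u‖ ^ 2 := by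
    rw [e1]
    have h7 : 0 < |d| ^ 2 := by positivity
    have h8 : s * (K * d ^ 2) < 1 / 8 * |d| ^ 2 := by
      rw [hdsq]
      nlinarith
    linarith
  exact lt_of_pow_lt_pow_left₀ 2 (norm_nonneg _) h6

/-- inner side -/
theorem exists_inner (h : ConvexCurve D γ L) : ∃ s₀ : ℝ, 0 < s₀ ∧ ∀ s, 0 ≤ s → s < s₀ → ∀ θ u,
    γ u = γ θ ∨ s < ‖γ θ + (s : ℂ) * nn γ θ - γ u‖ := by
  obtain ⟨K, hK1, hK⟩ := exists_K h
  have hK0 : 0 < K := by linarith
  have hδ : 0 < 1 / (2 * K) := by positivity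
  obtain ⟨m, hm, hfar⟩ := exists_far h hδ
  refine ⟨min (1 / (8 * K)) (m / 2), by positivity, fun s hs0 hs θ u => ?_⟩
  have hs1 : s < 1 / (8 * K) := lt_of_lt_of_le hs (min_le_left _ _)
  have hs2 : s < m / 2 := lt_of_lt_of_le hs (min_le_right _ _)
  obtain ⟨y, hy, hu⟩ := (show Function.Periodic γ L from h.periodic).exists_mem_Ico h.L_pos u θ
  rw [hu]
  rcases le_or_gt (y - θ) (1 / (2 * K)) with h1 | h1
  · exact near_local h hK1 hK hs0 hs1 θ y (by rw [abs_of_nonneg (by linarith [hy.1])]; exact h1)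
  rcases le_or_gt (L - (y - θ)) (1 / (2 * K)) with h2 | h2
  · have h3 : γ y = γ (y - L) := by
      have := h.periodic (y - L)
      rw [sub_add_cancel] at this
      exact this
    rw [h3]
    refine near_local h hK1 hK hs0 hs1 θ (y - L) ?_
    rw [abs_of_nonpos (by linarith [hy.2])]
    linarith
  · right
    have h3 := hfar θ (y - θ) h1.le (by linarith)
    rw [add_sub_cancel] at h3
    have h4 : ‖γ y - γ θ‖ ≤ ‖γ θ + (s : ℂ) * nn γ θ - γ y‖ + s := by
      calc ‖γ y - γ θ‖ = ‖(s : ℂ) * nn γ θ - (γ θ + (s : ℂ) * nn γ θ - γ y)‖ := by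
            congr 1; ring
        _ ≤ ‖(s : ℂ) * nn γ θ‖ + ‖γ θ + (s : ℂ) * nn γ θ - γ y‖ := norm_sub_le _ _
        _ = ‖γ θ + (s : ℂ) * nn γ θ - γ y‖ + s := by
            rw [norm_mul, norm_nn h, mul_one, Complex.norm_real, Real.norm_eq_abs,
              abs_of_nonneg hs0]
            ring
    linarith

/-- outer side -/
theorem outer (h : ConvexCurve D γ L) {t : ℝ} (ht : 0 ≤ t) (θ u : ℝ) :
    γ u = γ θ ∨ t < ‖Phi γ θ t - γ u‖ := by
  by_cases hd : γ u = γ θ
  · left; exact hd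
  right
  have h1 := ip_closure h θ (front_closure h u)
  have h2 : 0 < ‖γ u - γ θ‖ := by rw [norm_pos_iff, sub_ne_zero]; exact hd
  have e1 : ‖Phi γ θ t - γ u‖ ^ 2
      = t ^ 2 + 2 * (t * ip (γ u - γ θ) (nn γ θ)) + ‖γ u - γ θ‖ ^ 2 := by
    have : Phi γ θ t - γ u = -((t : ℂ) * nn γ θ + (γ u - γ θ)) := by rw [Phi_eq]; ring
    rw [this, norm_neg, norm_add_sq', norm_mul, norm_nn h, mul_one, Complex.norm_real,
      Real.norm_eq_abs, sq_abs, ip_ofReal_mul_left, ip_comm (nn γ θ)]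
  have h3 : t ^ 2 < ‖Phi γ θ t - γ u‖ ^ 2 := by
    rw [e1]
    have h4 : 0 ≤ t * ip (γ u - γ θ) (nn γ θ) := mul_nonneg ht h1
    have h5 : 0 < ‖γ u - γ θ‖ ^ 2 := by positivity
    linarith
  exact lt_of_pow_lt_pow_left₀ 2 (norm_nonneg _) h3

theorem exists_key (h : ConvexCurve D γ L) : ∃ s₀ : ℝ, 0 < s₀ ∧ ∀ t, -s₀ < t → ∀ θ u,
    γ u = γ θ ∨ |t| < ‖Phi γ θ t - γ u‖ := by
  obtain ⟨s₀, hs₀, hin⟩ := exists_inner h
  refine ⟨s₀, hs₀, fun t ht θ u => ?_⟩
  rcases le_or_gt 0 t with h0 | h0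
  · rw [abs_of_nonneg h0]
    exact outer h h0 θ u
  · have := hin (-t) (by linarith) (by linarith) θ u
    rw [abs_of_neg h0, Phi_eq]
    have e : γ θ - (t : ℂ) * nn γ θ - γ u = γ θ + ((-t : ℝ) : ℂ) * nn γ θ - γ u := by
      push_cast; ring
    rw [e]
    exact this

/-- projection of an exterior point -/
theorem proj (h : ConvexCurve D γ L) {x : ℂ} (hx : x ∉ closure D) :
    ∃ θ, ∀ y ∈ closure D, ip (x - γ θ) (y - γ θ) ≤ 0 := by
  obtain ⟨v, hv, hv2⟩ := exists_norm_eq_iInf_of_complete_convex (K := closure D)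
    h.nonempty.closure isClosed_closure.isComplete h.convex.closure x
  have hv3 := (norm_eq_iInf_iff_real_inner_le_zero h.convex.closure hv).mp hv2
  have hfr : v ∈ frontier D := by
    rw [h.isOpen.frontier_eq]
    refine ⟨hv, fun hvD => ?_⟩
    have hne : x - v ≠ 0 := by
      rw [sub_ne_zero]
      rintro rfl
      exact hx hv
    have hcont : Tendsto (fun τ : ℝ => v + (τ : ℂ) * (x - v)) (𝓝[>] 0) (𝓝 v) := by
      have : Continuous (fun τ : ℝ => v + (τ : ℂ) * (x - v)) := by fun_prop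
      have h1 := this.tendsto 0
      simp only [Complex.ofReal_zero, zero_mul, add_zero] at h1
      exact h1.mono_left nhdsWithin_le_nhds
    have h2 := (hcont.eventually (h.isOpen.mem_nhds hvD)).and self_mem_nhdsWithin
    obtain ⟨τ, hτ1, hτ2⟩ := h2.exists
    have h3 := hv3 _ (subset_closure hτ1)
    rw [← ip_eq_inner, add_sub_cancel_left, ip_ofReal_mul_right, ip_self] at h3
    have h4 : 0 < ‖x - v‖ := norm_pos_iff.mpr hne
    have h5 : 0 < τ * ‖x - v‖ ^ 2 := mul_pos hτ2 (by positivity)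
    linarith
  rw [← h.range_eq] at hfr
  obtain ⟨θ, rfl⟩ := hfr
  refine ⟨θ, fun y hy => ?_⟩
  rw [ip_eq_inner]
  exact hv3 y hy

theorem perp (h : ConvexCurve D γ L) {x : ℂ} {θ : ℝ} (hmin : ∀ u, ‖x - γ θ‖ ≤ ‖x - γ u‖) :
    ip (x - γ θ) (deriv γ θ) = 0 := by
  set f : ℝ → ℝ := fun u => ip (x - γ u) (x - γ u) with hf
  have h1 : HasDerivAt f (ip (-deriv γ θ) (x - γ θ) + ip (x - γ θ) (-deriv γ θ)) θ := by
    have h2 := (smooth_ne h θ).const_sub x
    exact hasDerivAt_ip h2 h2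
  have h2 : IsLocalMin f θ := by
    refine Eventually.of_forall fun u => ?_
    simp only [hf, ip_self]
    have := hmin u
    gcongr
  have h3 := h2.hasDerivAt_eq_zero h1
  rw [ip_neg_left, ip_neg_right, ip_comm (deriv γ θ)] at h3
  linarith

theorem decomp (h : ConvexCurve D γ L) {z : ℂ} {θ : ℝ} (hz : ip z (deriv γ θ) = 0) :
    z = ((ip z (nn γ θ) : ℝ) : ℂ) * nn γ θ := by
  have hu : (deriv γ θ).re ^ 2 + (deriv γ θ).im ^ 2 = 1 := by
    have h1 := h.unit θ
    have h2 := ip_self (deriv γ θ)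
    rw [h1] at h2
    unfold ip at h2
    nlinarith
  obtain ⟨a, ha⟩ : ∃ a, a = (deriv γ θ).re := ⟨_, rfl⟩
  obtain ⟨b, hb⟩ : ∃ b, b = (deriv γ θ).im := ⟨_, rfl⟩
  unfold ip at hz
  rw [← ha, ← hb] at hz hu
  apply Complex.ext
  · simp only [ip, nn, Complex.mul_re, Complex.mul_im, Complex.I_re, Complex.I_im,
      Complex.ofReal_re, Complex.ofReal_im, ← ha, ← hb]
    linear_combination (-z.re) * hu + a * hz
  · simp only [ip, nn, Complex.mul_re, Complex.mul_im, Complex.I_re, Complex.I_im,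
      Complex.ofReal_re, Complex.ofReal_im, ← ha, ← hb]
    linear_combination (-z.im) * hu + b * hz

/-- the nearest point of the complement -/
theorem nearest_compl (h : ConvexCurve D γ L) {x : ℂ} (hx : x ∈ D) :
    ∃ θ, infDist x Dᶜ = ‖x - γ θ‖ := by
  have hcl : IsClosed Dᶜ := h.isOpen.isClosed_compl
  have hne : (Dᶜ).Nonempty := ⟨γ 0, front_compl h 0⟩
  obtain ⟨p, hp, hpd⟩ := hcl.exists_infDist_eq_dist hne x
  have hpos : 0 < infDist x Dᶜ := (hcl.notMem_iff_infDist_pos hne).mp (fun hc => hc hx)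
  have hball : ball x (infDist x Dᶜ) ⊆ D := by
    intro y hy
    by_contra hyD
    have h1 := infDist_le_dist_of_mem (x := x) (show y ∈ Dᶜ from hyD)
    rw [mem_ball, dist_comm] at hy
    linarith
  have hcb : p ∈ closure D := by
    have h1 : p ∈ closedBall x (infDist x Dᶜ) := by
      rw [mem_closedBall, dist_comm, hpd]
    rw [← closure_ball x hpos.ne'] at h1
    exact closure_mono hball h1
  have hfr : p ∈ frontier D := by
    rw [h.isOpen.frontier_eq]
    exact ⟨hcb, hp⟩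
  rw [← h.range_eq] at hfr
  obtain ⟨θ, rfl⟩ := hfr
  exact ⟨θ, by rw [hpd, dist_eq_norm]⟩

theorem Phi_periodic (h : ConvexCurve D γ L) (t : ℝ) :
    Function.Periodic (fun θ => Phi γ θ t) L := by
  intro θ
  simp only [Phi]
  rw [h.periodic, deriv_periodic h]

theorem sd_Phi_nonneg (h : ConvexCurve D γ L) (θ : ℝ) {t : ℝ} (ht : 0 ≤ t) :
    sd D (Phi γ θ t) = t := by
  have h1 : infDist (Phi γ θ t) D = t := by
    apply le_antisymm
    · rw [← infDist_closure]
      refine (infDist_le_dist_of_mem (front_closure h θ)).trans ?_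
      rw [dist_eq_norm, norm_Phi_sub h, abs_of_nonneg ht]
    · rw [le_infDist h.nonempty]
      intro y hy
      have h2 := (h.inner θ y hy).le
      have h3 : t ≤ ip (y - Phi γ θ t) (nn γ θ) := by
        have e : y - Phi γ θ t = (y - γ θ) + (t : ℂ) * nn γ θ := by rw [Phi_eq]; ring
        rw [e, ip_add_left, ip_ofReal_mul_left, ip_nn_nn h]
        have h4 : 0 ≤ ip (y - γ θ) (nn γ θ) := h2
        linarith
      have h4 := ip_le (y - Phi γ θ t) (nn γ θ)
      rw [norm_nn h, mul_one] at h4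
      rw [dist_comm, dist_eq_norm]
      linarith
  have h2 : infDist (Phi γ θ t) Dᶜ = 0 := by
    refine infDist_zero_of_mem ?_
    intro hD
    have h3 := h.inner θ _ hD
    have e : Phi γ θ t - γ θ = -((t : ℂ) * nn γ θ) := by rw [Phi_eq]; ring
    have h4 : ip (Phi γ θ t - γ θ) (nn γ θ) = -t := by
      rw [e, ip_neg_left, ip_ofReal_mul_left, ip_nn_nn h, mul_one]
    have h5 : ip (Phi γ θ t - γ θ) (nn γ θ) > 0 := h3
    linarith
  rw [sd, h1, h2, sub_zero]

theorem Phi_mem (h : ConvexCurve D γ L) {s₀ : ℝ}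
    (hkey : ∀ t, -s₀ < t → ∀ θ u, γ u = γ θ ∨ |t| < ‖Phi γ θ t - γ u‖) (θ : ℝ) {t : ℝ}
    (ht0 : -s₀ < t) (ht : t < 0) : Phi γ θ t ∈ D := by
  by_contra hx
  have hnf : Phi γ θ t ∉ closure D := by
    intro hcl
    have hfr : Phi γ θ t ∈ frontier D := by
      rw [h.isOpen.frontier_eq]
      exact ⟨hcl, hx⟩
    rw [← h.range_eq] at hfr
    obtain ⟨u, hu⟩ := hfr
    rcases hkey t ht0 θ u with h1 | h1
    · have h2 := norm_Phi_sub h θ t
      rw [← hu, h1, sub_self, norm_zero, abs_of_neg ht] at h2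
      linarith
    · rw [hu, sub_self, norm_zero] at h1
      exact absurd h1 (not_lt.mpr (abs_nonneg t))
  obtain ⟨u, hu⟩ := proj h hnf
  have h1 : ‖Phi γ θ t - γ u‖ ≤ |t| := by
    have h2 := hu (γ θ) (front_closure h θ)
    have h3 : ‖Phi γ θ t - γ θ‖ ^ 2 = ‖Phi γ θ t - γ u‖ ^ 2
        - 2 * ip (Phi γ θ t - γ u) (γ θ - γ u) + ‖γ θ - γ u‖ ^ 2 := by
      rw [← norm_sub_sq']
      congr 2
      ring
    rw [norm_Phi_sub h] at h3
    have h4 : ‖Phi γ θ t - γ u‖ ^ 2 ≤ |t| ^ 2 := by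
      have : 0 ≤ ‖γ θ - γ u‖ ^ 2 := by positivity
      linarith
    exact le_of_sq_le_sq h4 (abs_nonneg t)
  rcases hkey t ht0 θ u with h2 | h2
  · obtain ⟨y, hy⟩ := h.nonempty
    have h3 := hu y (subset_closure hy)
    have h4 := h.inner θ y hy
    rw [h2] at h3
    have e : Phi γ θ t - γ θ = ((-t : ℝ) : ℂ) * nn γ θ := by rw [Phi_eq]; push_cast; ring
    rw [e, ip_ofReal_mul_left, ip_comm] at h3
    have h5 : 0 < -t * ip (y - γ θ) (nn γ θ) := mul_pos (by linarith) h4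
    linarith
  · linarith

end TUBE

open TUBE in
/-- TUBE -/
theorem TUBE_holds : TubeStatement := by
  intro D γ L h
  obtain ⟨K, hK1, hK⟩ := exists_K h
  have hK0 : 0 < K := by linarith
  obtain ⟨s₀, hs₀, hkey⟩ := exists_key h
  have hsurj0 : ∀ x, ∃ θ, x = Phi γ θ (sd D x) := by
    intro x
    by_cases hxD : x ∈ D
    · obtain ⟨θ, hθ⟩ := nearest_compl h hxD
      have hmin : ∀ u, ‖x - γ θ‖ ≤ ‖x - γ u‖ := by
        intro u
        rw [← hθ, ← dist_eq_norm]
        exact infDist_le_dist_of_mem (front_compl h u)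
      have h1 := decomp h (perp h hmin)
      obtain ⟨b, hb⟩ : ∃ b, b = ip (x - γ θ) (nn γ θ) := ⟨_, rfl⟩
      rw [← hb] at h1
      have hb0 : 0 < b := by rw [hb]; exact h.inner θ x hxD
      have h2 : ‖x - γ θ‖ = b := by
        rw [h1, norm_mul, norm_nn h, mul_one, Complex.norm_real, Real.norm_eq_abs,
          abs_of_pos hb0]
      have h3 : sd D x = -b := by
        rw [sd, infDist_zero_of_mem hxD, hθ, h2, zero_sub]
      refine ⟨θ, ?_⟩
      rw [h3, Phi_eq]
      push_cast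
      rw [neg_mul, sub_neg_eq_add, ← h1]
      ring
    · by_cases hxc : x ∈ closure D
      · have hfr : x ∈ frontier D := by
          rw [h.isOpen.frontier_eq]
          exact ⟨hxc, hxD⟩
        rw [← h.range_eq] at hfr
        obtain ⟨θ, rfl⟩ := hfr
        refine ⟨θ, ?_⟩
        have h1 := sd_Phi_nonneg h θ (le_refl 0)
        have h2 : Phi γ θ 0 = γ θ := by simp [Phi]
        rw [h2] at h1
        rw [h1, h2]
      · obtain ⟨θ, hθ⟩ := proj h hxc
        have hmin : ∀ u, ‖x - γ θ‖ ≤ ‖x - γ u‖ := by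
          intro u
          have h2 := hθ (γ u) (front_closure h u)
          have h3 : ‖x - γ u‖ ^ 2 = ‖x - γ θ‖ ^ 2
              - 2 * ip (x - γ θ) (γ u - γ θ) + ‖γ u - γ θ‖ ^ 2 := by
            rw [← norm_sub_sq']
            congr 2
            ring
          have h4 : ‖x - γ θ‖ ^ 2 ≤ ‖x - γ u‖ ^ 2 := by
            have : 0 ≤ ‖γ u - γ θ‖ ^ 2 := by positivity
            linarith
          exact le_of_sq_le_sq h4 (norm_nonneg _)
        have h1 := decomp h (perp h hmin)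
        obtain ⟨b, hb⟩ : ∃ b, b = ip (x - γ θ) (nn γ θ) := ⟨_, rfl⟩
        rw [← hb] at h1
        obtain ⟨y, hy⟩ := h.nonempty
        have hb0 : b ≤ 0 := by
          by_contra hcon
          push Not at hcon
          have h2 := hθ y (subset_closure hy)
          rw [h1, ip_ofReal_mul_left, ip_comm] at h2
          have h3 : 0 < b * ip (y - γ θ) (nn γ θ) := mul_pos hcon (h.inner θ y hy)
          linarith
        have hx : x = Phi γ θ (-b) := by
          rw [Phi_eq]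
          push_cast
          rw [neg_mul, sub_neg_eq_add, ← h1]
          ring
        refine ⟨θ, ?_⟩
        have h4 : sd D x = -b := by
          rw [hx]
          exact sd_Phi_nonneg h θ (by linarith)
        rw [h4]
        exact hx
  refine ⟨min s₀ (1 / (2 * K)), ?_, kap_nonneg h, ?_, ?_, ?_, ?_, ?_⟩
  · positivity
  · intro θ t ht
    have ht1 : -(1 / (2 * K)) < t := by
      have := min_le_right s₀ (1 / (2 * K))
      linarith
    have hk0 := kap_nonneg h θ
    have hk1 : kap γ θ ≤ K := by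
      refine (ip_le _ _).trans ?_
      have := norm_nn h θ
      rw [nn] at this
      rw [this, mul_one]
      exact hK θ
    rcases le_or_gt 0 t with h0 | h0
    · have := mul_nonneg hk0 h0
      linarith
    · have h1 : K * t ≤ kap γ θ * t := mul_le_mul_of_nonpos_right hk1 h0.le
      have h2 : K * (-(1 / (2 * K))) ≤ K * t := mul_le_mul_of_nonneg_left ht1.le hK0.le
      have h3 : K * (-(1 / (2 * K))) = -(1 / 2) := by field_simp
      linarith
  · intro θ t ht
    have ht1 : -s₀ < t := by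
      have := min_le_left s₀ (1 / (2 * K))
      linarith
    rcases le_or_gt 0 t with h0 | h0
    · exact sd_Phi_nonneg h θ h0
    · have hD := Phi_mem h hkey θ ht1 h0
      have h1 : infDist (Phi γ θ t) Dᶜ = -t := by
        apply le_antisymm
        · refine (infDist_le_dist_of_mem (front_compl h θ)).trans ?_
          rw [dist_eq_norm, norm_Phi_sub h, abs_of_neg h0]
        · obtain ⟨u, hu⟩ := nearest_compl h hD
          rw [hu, ← abs_of_neg h0]
          rcases hkey t ht1 θ u with h2 | h2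
          · rw [h2, norm_Phi_sub h]
          · exact h2.le
      rw [sd, infDist_zero_of_mem hD, h1]
      ring
  · intro θ t ht p hp
    have ht1 : -s₀ < t := by
      have := min_le_left s₀ (1 / (2 * K))
      linarith
    rw [← h.range_eq] at hp
    obtain ⟨u, rfl⟩ := hp
    rcases hkey t ht1 θ u with h2 | h2
    · rw [h2, norm_Phi_sub h]
    · exact h2.le
  · intro x _
    obtain ⟨θ, hθ⟩ := hsurj0 x
    obtain ⟨y, hy, hy2⟩ := (Phi_periodic h (sd D x)).exists_mem_Ico₀ h.L_pos θ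
    refine ⟨y, hy, ?_⟩
    rw [← hy2]
    exact hθ
  · rintro ⟨θ, t⟩ ⟨hθ, ht⟩ ⟨θ', t'⟩ ⟨hθ', ht'⟩ heq
    simp only at heq hθ ht hθ' ht'
    have hmin := min_le_left s₀ (1 / (2 * K))
    rw [mem_Ioi] at ht ht'
    have ht1 : -s₀ < t := by linarith
    have ht1' : -s₀ < t' := by linarith
    have hsd : ∀ θ t, -s₀ < t → sd D (Phi γ θ t) = t := by
      intro θ t ht1
      rcases le_or_gt 0 t with h0 | h0
      · exact sd_Phi_nonneg h θ h0
      · have hD := Phi_mem h hkey θ ht1 h0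
        have h1 : infDist (Phi γ θ t) Dᶜ = -t := by
          apply le_antisymm
          · refine (infDist_le_dist_of_mem (front_compl h θ)).trans ?_
            rw [dist_eq_norm, norm_Phi_sub h, abs_of_neg h0]
          · obtain ⟨u, hu⟩ := nearest_compl h hD
            rw [hu, ← abs_of_neg h0]
            rcases hkey t ht1 θ u with h2 | h2
            · rw [h2, norm_Phi_sub h]
            · exact h2.le
        rw [sd, infDist_zero_of_mem hD, h1]
        ring
    have htt : t = t' := by rw [← hsd θ t ht1, heq, hsd θ' t' ht1']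
    subst htt
    have hγ : γ θ' = γ θ := by
      rcases hkey t ht1 θ θ' with h2 | h2
      · exact h2
      · rw [heq, norm_Phi_sub h] at h2
        exact absurd h2 (lt_irrefl _)
    have := h.inj hθ' hθ hγ
    rw [this]

end Cyl
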