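import Pool.Agent.Cyl.Stmt3
import Pool.Agent.Cyl.Base
import Pool.Agent.Cyl.Base2

/-!
# Module UNIQ: uniqueness of the top point and good collars
-/

open MeasureTheory Set Filter Topology Metric
open scoped ContDiff

noncomputable section

namespace Cyl

universe u

namespace Uniq

variable {M : Type u} [TopologicalSpace M]

theorem not_mem_bd (S : Setup M) {q : M} (hq : (S.f q).1 ∈ S.D) : q ∉ S.bd := by
  intro h
  have h1 : S.f q ∈ S.f '' S.bd := mem_image_of_mem _ h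
  rw [S.img_bd] at h1
  have h2 : (S.f q).1 ∈ frontier S.D := h1.1
  rw [S.curve.isOpen.frontier_eq] at h2
  exact h2.2 hq

theorem γ_mem_closure (S : Setup M) (θ : ℝ) : S.γ θ ∈ closure S.D := by
  apply frontier_subset_closure
  rw [← S.curve.range_eq]
  exact mem_range_self θ

theorem exists_near (S : Setup M) (θ : ℝ) {δ : ℝ} (hδ : 0 < δ) :
    ∃ x ∈ S.D, ‖x - S.γ θ‖ < δ := by
  obtain ⟨x, hx, h⟩ := Metric.mem_closure_iff.1 (γ_mem_closure S θ) δ hδ
  refine ⟨x, hx, ?_⟩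
  rw [← dist_eq_norm, dist_comm]
  exact h

theorem inner_nonneg (S : Setup M) (θ : ℝ) {x : ℂ} (hx : x ∈ closure S.D) :
    0 ≤ ip (x - S.γ θ) (Complex.I * deriv S.γ θ) := by
  have hc : Continuous fun x : ℂ => ip (x - S.γ θ) (Complex.I * deriv S.γ θ) := by
    unfold ip
    fun_prop
  have hcl : IsClosed {x : ℂ | 0 ≤ ip (x - S.γ θ) (Complex.I * deriv S.γ θ)} :=
    isClosed_le continuous_const hc
  exact closure_minimal (fun x hx => (S.curve.inner θ x hx).le) hcl hx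

/-- an interior point of the surface at the level of the curve is a vertical contact -/
theorem vertContact_of_zero (S : Setup M) {θ : ℝ} {q : M} (hq : q ∉ S.bd)
    (h : S.f q = (S.γ θ, (0 : ℝ))) : HasRay (range S.f) (S.γ θ, (0 : ℝ)) ((0 : ℂ), (1 : ℝ)) := by
  obtain ⟨F, r, g, e, hP, -⟩ := S.surf.interior q hq
  have hr := hP.r_pos
  set n : ℂ := Complex.I * deriv S.γ θ with hn
  have hnn : ip n n = 1 := by
    rw [ip_self, hn, norm_mul, Complex.norm_I, S.curve.unit θ]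
    norm_num
  have hgd : DifferentiableAt ℝ g 0 := (hP.smooth.differentiableOn (by simp)).differentiableAt
    (isOpen_ball.mem_nhds (mem_ball_self hr))
  have hg0 : HasFDerivAt g (0 : ℂ →L[ℝ] ℝ) 0 := by
    have h1 := hgd.hasFDerivAt
    refine h1.congr_fderiv ?_
    ext v
    rw [fderiv_re_im, hP.d1_zero, hP.d2_zero]
    simp
  -- the distance to the wall
  set φ : ℂ → ℝ := fun s => ip ((F.pt (S.f q) g s).1 - S.γ θ) n with hφ
  have hφe : φ = fun s => s.re * ip F.a.1 n + s.im * ip F.b.1 n + g s * ip F.n.1 n := by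
    funext s
    rw [hφ]
    simp only [Frame.pt, Prod.fst_add, Prod.smul_fst, h]
    rw [show S.γ θ + s.re • F.a.1 + s.im • F.b.1 + g s • F.n.1 - S.γ θ =
      s.re • F.a.1 + s.im • F.b.1 + g s • F.n.1 by ring]
    rw [ip_add_left, ip_add_left, ip_smul_left, ip_smul_left, ip_smul_left]
  have hφd : HasFDerivAt φ (ip F.a.1 n • Complex.reCLM + ip F.b.1 n • Complex.imCLM) 0 := by
    rw [hφe]
    have h1 : HasFDerivAt (fun p : ℂ => p.re) Complex.reCLM 0 := Complex.reCLM.hasFDerivAt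
    have h2 : HasFDerivAt (fun p : ℂ => p.im) Complex.imCLM 0 := Complex.imCLM.hasFDerivAt
    have h3 := ((h1.mul_const (ip F.a.1 n)).add (h2.mul_const (ip F.b.1 n))).add
      (hg0.mul_const (ip F.n.1 n))
    refine HasFDerivAt.congr_fderiv h3 ?_
    ext v
    simp
  have hmin : IsLocalMin φ 0 := by
    have h1 : ∀ᶠ s : ℂ in 𝓝 0, s ∈ ball (0 : ℂ) r := isOpen_ball.eventually_mem (mem_ball_self hr)
    filter_upwards [h1] with s hs
    have h2 : φ 0 = 0 := by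
      rw [hφe]
      simp [hP.g_zero]
    rw [h2, hφ]
    simp only
    rw [← hP.param s hs]
    exact inner_nonneg S θ (S.cyl _)
  have h0 := hmin.hasFDerivAt_eq_zero hφd
  have ha : ip F.a.1 n = 0 := by
    have := congrArg (fun l : ℂ →L[ℝ] ℝ => l 1) h0
    simpa using this
  have hb : ip F.b.1 n = 0 := by
    have := congrArg (fun l : ℂ →L[ℝ] ℝ => l Complex.I) h0
    simpa using this
  have hexp := F.expand (n, (0 : ℝ))
  have e1 : dot (n, (0 : ℝ)) F.a = 0 := by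
    simp only [dot]
    rw [ip_comm, ha]
    simp
  have e2 : dot (n, (0 : ℝ)) F.b = 0 := by
    simp only [dot]
    rw [ip_comm, hb]
    simp
  rw [e1, e2, zero_smul, zero_smul, zero_add, zero_add] at hexp
  have hn2 : F.n.2 = 0 := by
    have h3 := congrArg Prod.snd hexp
    simp only [Prod.smul_snd, smul_eq_mul] at h3
    rcases mul_eq_zero.1 h3.symm with h4 | h4
    · exfalso
      rw [h4, zero_smul] at hexp
      have h5 := congrArg Prod.fst hexp
      simp only [Prod.fst_zero] at h5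
      rw [h5, ip_zero_left] at hnn
      norm_num at hnn
    · exact h4
  have hvert := F.expand_vert
  rw [hn2, zero_smul, add_zero] at hvert
  set ξ : ℂ := ⟨F.a.2, F.b.2⟩ with hξ
  have hpt : ∀ τ : ℝ, F.pt (S.f q) g ((τ : ℂ) * ξ) =
      (S.γ θ, (0 : ℝ)) + τ • ((0 : ℂ), (1 : ℝ)) + g ((τ : ℂ) * ξ) • F.n := by
    intro τ
    rw [hvert, smul_add, smul_smul, smul_smul, h]
    unfold Frame.pt
    have h1 : ((τ : ℂ) * ξ).re = τ * F.a.2 := by simp [hξ]
    have h2 : ((τ : ℂ) * ξ).im = τ * F.b.2 := by simp [hξ]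
    rw [h1, h2]
    abel
  -- `g = o(|s|)`
  intro η hη
  have hlo := (hasFDerivAt_iff_isLittleO_nhds_zero.1 hg0).def (c := η / (‖ξ‖ * ‖F.n‖ + 1))
    (by positivity)
  have h1 : ∀ᶠ s : ℂ in 𝓝 0, s ∈ ball (0 : ℂ) r := isOpen_ball.eventually_mem (mem_ball_self hr)
  have h2 := hlo.and h1
  rw [Metric.eventually_nhds_iff] at h2
  obtain ⟨δ, hδ, h3⟩ := h2
  refine ⟨δ / (‖ξ‖ + 1), by positivity, fun τ hτ hτδ => ?_⟩
  have hτξ : ‖(τ : ℂ) * ξ‖ = τ * ‖ξ‖ := by
    rw [norm_mul, Complex.norm_real, Real.norm_eq_abs, abs_of_pos hτ]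
  have h4 := h3 (y := (τ : ℂ) * ξ) (by
    rw [dist_zero_right, hτξ]
    rw [lt_div_iff₀ (by positivity)] at hτδ
    nlinarith [norm_nonneg ξ])
  refine ⟨_, mem_range_self (e.symm ((τ : ℂ) * ξ)), ?_⟩
  rw [hP.param _ h4.2, hpt τ]
  have h5 : (S.γ θ, (0 : ℝ)) + τ • ((0 : ℂ), (1 : ℝ)) + g ((τ : ℂ) * ξ) • F.n -
      ((S.γ θ, (0 : ℝ)) + τ • ((0 : ℂ), (1 : ℝ))) = g ((τ : ℂ) * ξ) • F.n := by abel
  rw [h5, norm_smul]
  have h6 := h4.1
  rw [zero_add, hP.g_zero] at h6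
  simp only [sub_zero, _root_.zero_apply] at h6
  rw [hτξ] at h6
  calc ‖g ((τ : ℂ) * ξ)‖ * ‖F.n‖ ≤ (η / (‖ξ‖ * ‖F.n‖ + 1) * (τ * ‖ξ‖)) * ‖F.n‖ := by gcongr
    _ = η * τ * ((‖ξ‖ * ‖F.n‖) / (‖ξ‖ * ‖F.n‖ + 1)) := by ring
    _ ≤ η * τ * 1 := by
        gcongr
        rw [div_le_one (by positivity)]
        linarith
    _ = η * τ := mul_one _

/-- generic parameters -/
theorem exists_generic [CompactSpace M] [T2Space M] (hB : BasicStatement.{u}) (S : Setup M)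
    (hNull : S.Null) {O : Set ℝ} (hO : IsOpen O) (hne : O.Nonempty) (hν : ∀ θ ∈ O, |S.ν θ| < 1) :
    ∃ θ ∈ O, ¬ VertContact (range S.f) (S.γ θ) := by
  obtain ⟨hf, hNc, hbdc, hbc, hper, hsurj, hunit, hperp⟩ := hB M S
  obtain ⟨θ₀, hθ₀⟩ := hne
  have hL := S.curve.L_pos
  -- periodicity
  have hγp : Function.Periodic S.γ S.L := S.curve.periodic
  have hbp : Function.Periodic S.b S.L := hper
  set k : ℤ := toIcoDiv hL 0 θ₀ with hk
  have hmod : toIcoMod hL 0 θ₀ + k • S.L = θ₀ := toIcoMod_add_toIcoDiv_zsmul hL 0 θ₀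
  have hmem : toIcoMod hL 0 θ₀ ∈ Ico 0 (0 + S.L) := toIcoMod_mem_Ico hL 0 θ₀
  rw [zero_add] at hmem
  have hγk : ∀ θ, S.γ (θ + k • S.L) = S.γ θ := fun θ => hγp.zsmul k θ
  have hbk : ∀ θ, S.b (θ + k • S.L) = S.b θ := fun θ => hbp.zsmul k θ
  have hdk : ∀ θ, deriv S.γ (θ + k • S.L) = deriv S.γ θ := by
    intro θ
    have h1 : (fun θ => S.γ (θ + k • S.L)) = S.γ := funext hγk
    have h2 := deriv_comp_add_const S.γ (k • S.L) θ
    rw [h1] at h2
    exact h2.symm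
  have hνk : ∀ θ, S.ν (θ + k • S.L) = S.ν θ := by
    intro θ
    unfold Setup.ν
    rw [hbk, hdk]
  set O' : Set ℝ := (fun θ => θ + k • S.L) ⁻¹' O with hO'
  have hO'o : IsOpen O' := hO.preimage (by fun_prop)
  have hmemO' : toIcoMod hL 0 θ₀ ∈ O' := by
    rw [hO', mem_preimage, hmod]
    exact hθ₀
  have hU : (O' ∩ Ioo 0 S.L).Nonempty := by
    have h1 : toIcoMod hL 0 θ₀ ∈ closure (Ioo 0 S.L) := by
      rw [closure_Ioo hL.ne]
      exact ⟨hmem.1, hmem.2.le⟩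
    exact mem_closure_iff.1 h1 O' hO'o hmemO'
  have hae : ∀ᵐ θ, θ ∈ Ioo 0 S.L → VertContact (range S.f) (S.γ θ) → S.ν θ = 1 :=
    (ae_restrict_iff' measurableSet_Ioo).1 hNull
  have hdense := Measure.dense_of_ae hae
  obtain ⟨θ, hθ1, hθ2⟩ := hdense.inter_open_nonempty _ (hO'o.inter isOpen_Ioo) hU
  refine ⟨θ + k • S.L, hθ1.1, ?_⟩
  rw [hγk]
  intro hvc
  have h1 := hθ2 hθ1.2 hvc
  have h2 := hν _ hθ1.1
  rw [hνk, h1] at h2
  norm_num at h2

/-- continuity of `ν` -/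
theorem continuous_ν [CompactSpace M] [T2Space M] (hB : BasicStatement.{u}) (S : Setup M) :
    Continuous S.ν := by
  obtain ⟨hf, hNc, hbdc, hbc, hper, hsurj, hunit, hperp⟩ := hB M S
  have hd : Continuous (deriv S.γ) := S.curve.smooth.continuous_deriv (by simp)
  have h1 : Continuous fun θ => (S.N (S.b θ)).1 := continuous_fst.comp (hNc.comp hbc)
  have h2 : Continuous fun θ => Complex.I * deriv S.γ θ := continuous_const.mul hd
  unfold Setup.ν ip
  exact ((Complex.continuous_re.comp h1).mul (Complex.continuous_re.comp h2)).add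
    ((Complex.continuous_im.comp h1).mul (Complex.continuous_im.comp h2))

/-- Lemma Cl: over a neighbourhood of a generic boundary point all top points are close to it -/
theorem collar [CompactSpace M] [T2Space M] (hB : BasicStatement.{u})
    (hBC : BdCollarStatement.{u}) (S : Setup M) (hcn : S.Conormal (-1)) (TF : TopFacts S) {θ : ℝ}
    (hν : |S.ν θ| < 1) (hvc : ¬ VertContact (range S.f) (S.γ θ)) {V : Set M}
    (hV : V ∈ 𝓝 (S.b θ)) : ∃ δ > 0, ∀ q ∈ S.top, ‖(S.f q).1 - S.γ θ‖ < δ → q ∈ V := by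
  obtain ⟨hf, hNc, hbdc, hbc, hper, hsurj, hunit, hperp⟩ := hB M S
  by_contra hcon
  push Not at hcon
  have hπ : Continuous fun q => (S.f q).1 := continuous_fst.comp hf
  have hh : Continuous fun q => (S.f q).2 := continuous_snd.comp hf
  set l : Filter M := comap (fun q => (S.f q).1) (𝓝 (S.γ θ)) ⊓ 𝓟 (S.top \ V) with hl
  have hne : l.NeBot := by
    rw [hl, inf_principal_neBot_iff]
    intro U hU
    rw [mem_comap] at hU
    obtain ⟨W', hW', hsub⟩ := hU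
    obtain ⟨δ, hδ, hball⟩ := Metric.mem_nhds_iff.1 hW'
    obtain ⟨q, hq, hqn, hqV⟩ := hcon δ hδ
    refine ⟨q, hsub ?_, hq, hqV⟩
    apply hball
    rw [mem_ball, dist_eq_norm]
    exact hqn
  obtain ⟨q, hq⟩ := exists_clusterPt_of_compactSpace l
  have hNB : (𝓝 q ⊓ l).NeBot := hq
  have hle1 : 𝓝 q ⊓ l ≤ 𝓝 q := inf_le_left
  have hle2 : 𝓝 q ⊓ l ≤ comap (fun q => (S.f q).1) (𝓝 (S.γ θ)) := inf_le_right.trans inf_le_left
  have hle3 : 𝓝 q ⊓ l ≤ 𝓟 (S.top \ V) := inf_le_right.trans inf_le_right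
  have ht1 : Tendsto (fun q => (S.f q).1) (𝓝 q ⊓ l) (𝓝 (S.f q).1) :=
    (hπ.tendsto q).mono_left hle1
  have ht2 : Tendsto (fun q => (S.f q).1) (𝓝 q ⊓ l) (𝓝 (S.γ θ)) := tendsto_comap.mono_left hle2
  have hqγ : (S.f q).1 = S.γ θ := tendsto_nhds_unique ht1 ht2
  have hqb : q ≠ S.b θ := by
    rintro rfl
    have h1 : V ∈ 𝓝 (S.b θ) ⊓ l := hle1 hV
    have h2 : S.top \ V ∈ 𝓝 (S.b θ) ⊓ l := hle3 (mem_principal_self _)
    obtain ⟨x, hx1, hx2⟩ := hNB.nonempty_of_mem (inter_mem h1 h2)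
    exact hx2.2 hx1
  -- the height is nonnegative
  have hheight : 0 ≤ (S.f q).2 := by
    by_contra hneg
    push Not at hneg
    set ε := -(S.f q).2 / 2 with hε
    have hε0 : 0 < ε := by rw [hε]; linarith
    have hVε : {q' | -ε < (S.f q').2} ∈ 𝓝 (S.b θ) := by
      apply (isOpen_lt continuous_const hh).mem_nhds
      change -ε < (S.f (S.b θ)).2
      rw [S.f_b]
      linarith
    obtain ⟨V', hV', hV'ε, hpre, hD, hinj, δ, hδ, hcov⟩ := hBC M S hcn θ hν _ hVε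
    have h1 : ∀ᶠ q' in 𝓝 q ⊓ l, (S.f q').2 < -ε := by
      have h2 : Tendsto (fun q => (S.f q).2) (𝓝 q ⊓ l) (𝓝 (S.f q).2) :=
        (hh.tendsto q).mono_left hle1
      apply h2.eventually_lt_const
      rw [hε]
      linarith
    have h2 : ∀ᶠ q' in 𝓝 q ⊓ l, ‖(S.f q').1 - S.γ θ‖ < δ := by
      have h3 := ht2 (ball_mem_nhds (S.γ θ) hδ)
      rw [mem_map] at h3
      filter_upwards [h3] with q' hq'
      rw [mem_preimage, mem_ball, dist_eq_norm] at hq'
      exact hq'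
    have h3 : ∀ᶠ q' in 𝓝 q ⊓ l, q' ∈ S.top \ V := hle3 (mem_principal_self _)
    obtain ⟨q', h4, h5, h6⟩ := (h1.and (h2.and h3)).exists
    obtain ⟨q'', hq'', hq''e⟩ := hcov _ h6.1.1 h5
    have h7 := TF.high q' h6.1 q'' hq''e
    have h8 : -ε < (S.f q'').2 := hV'ε hq''.1
    linarith
  have hqbd : q ∉ S.bd := by
    intro hmem
    apply hqb
    apply S.inj_bd hmem (S.b_mem θ)
    have h1 : S.f q ∈ S.f '' S.bd := mem_image_of_mem _ hmem
    rw [S.img_bd] at h1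
    have h2 : (S.f q).2 = 0 := h1.2
    rw [S.f_b]
    exact Prod.ext hqγ h2
  apply hvc
  rcases hheight.lt_or_eq with h | h
  · left
    exact ⟨S.f q, mem_range_self q, hqγ, h⟩
  · right
    exact vertContact_of_zero S hqbd (Prod.ext hqγ h.symm)

end Uniq

open Uniq

/-- UNIQ -/
theorem UNIQ_holds (hBC : BdCollarStatement.{u}) (hB : BasicStatement.{u}) :
    UniqueStatement.{u} := by
  intro M _ _ _ S hcn TF hNull hex
  rcases TF.dich with h | h
  · exact h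
  · exfalso
    obtain ⟨θ₀, hθ₀⟩ := hex
    have hO : IsOpen {θ | |S.ν θ| < 1} :=
      isOpen_lt (continuous_abs.comp (continuous_ν hB S)) continuous_const
    obtain ⟨θ, hθ, hvc⟩ := exists_generic hB S hNull hO ⟨θ₀, hθ₀⟩ fun θ hθ => hθ
    obtain ⟨V', hV', -, -, -, hinj, -⟩ := hBC M S hcn θ hθ univ univ_mem
    obtain ⟨δ, hδ, hcol⟩ := collar hB hBC S hcn TF hθ hvc hV'
    obtain ⟨x, hx, hxδ⟩ := exists_near S θ hδ
    obtain ⟨q, hq, q', hq', e1, e2, hne⟩ := h x hx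
    apply hne
    apply hinj
    · apply hcol q hq
      rw [e1]
      exact hxδ
    · apply hcol q' hq'
      rw [e2]
      exact hxδ
    · simp only
      rw [e1, e2]

/-- CGOOD -/
theorem CGOOD_holds (hBC : BdCollarStatement.{u}) (hB : BasicStatement.{u}) :
    CollarGoodStatement.{u} := by
  intro M _ _ _ S hcn TF hNull θ₀ hθ₀
  obtain ⟨hf, hNc, hbdc, hbc, hper, hsurj, hunit, hperp⟩ := hB M S
  obtain ⟨V', hV', -, hpre, hD, hinj, -⟩ := hBC M S hcn θ₀ hθ₀ univ univ_mem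
  refine ⟨V', hV', ?_⟩
  apply TF.conn _ hpre hD
  have hO : IsOpen ({θ | |S.ν θ| < 1} ∩ S.b ⁻¹' interior V') :=
    (isOpen_lt (continuous_abs.comp (continuous_ν hB S)) continuous_const).inter
      (isOpen_interior.preimage hbc)
  obtain ⟨θ, ⟨hθ, hθV⟩, hvc⟩ := exists_generic hB S hNull hO
    ⟨θ₀, hθ₀, mem_interior_iff_mem_nhds.2 hV'⟩ fun θ hθ => hθ.1
  obtain ⟨δ, hδ, hcol⟩ := collar hB hBC S hcn TF hθ hvc (mem_interior_iff_mem_nhds.1 hθV)
  obtain ⟨x, hx, hxδ⟩ := exists_near S θ hδ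
  obtain ⟨q, hq, hqx⟩ := TF.ex x hx
  refine ⟨q, ⟨?_, ?_⟩, hq⟩
  · apply hcol q hq
    rw [hqx]
    exact hxδ
  · apply not_mem_bd
    rw [hqx]
    exact hx

end Cyl
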