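import Pool.Agent.Cyl.FDATA
import Pool.Agent.Cyl.MaxP

/-!
# Modules NODOWN and VBD: boundary points where the surface is vertical
-/

open MeasureTheory Set Filter Topology Metric
open scoped ContDiff

noncomputable section

namespace Cyl

universe u

variable {M : Type u} [TopologicalSpace M]

theorem Setup.norm_I_γ' (S : Setup M) (θ : ℝ) : ‖Complex.I * deriv S.γ θ‖ = 1 := by
  rw [norm_mul, Complex.norm_I, S.curve.unit]; ring

/-- `ν² + N₃² = 1` -/
theorem Setup.ν_sq_add [CompactSpace M] (S : Setup M) (θ : ℝ) :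
    S.ν θ ^ 2 + (S.N (S.b θ)).2 ^ 2 = 1 := by
  have h1 := S.surf.unit (S.b θ)
  have h2 := S.dot_N_tangent θ
  unfold dot at h1 h2
  rw [ip_self] at h1
  have h3 := ip_sq_add (S.N (S.b θ)).1 (deriv S.γ θ)
  rw [S.curve.unit] at h3
  have h4 : ip (S.N (S.b θ)).1 (deriv S.γ θ) = 0 := by simpa using h2
  rw [h4] at h3
  unfold Setup.ν
  nlinarith

/-- expansion of a plane vector in the frame `γ', iγ'` -/
theorem plane_expand {u : ℂ} (hu : ‖u‖ = 1) (v : ℂ) :
    v = ((ip v u : ℝ) : ℂ) * u + ((ip v (Complex.I * u) : ℝ) : ℂ) * (Complex.I * u) := by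
  have h : u.re * u.re + u.im * u.im = 1 := by
    have := ip_self u
    rw [hu] at this
    unfold ip at this
    linarith
  apply Complex.ext
  · simp [ip]
    linear_combination (-v.re) * h
  · simp [ip]
    linear_combination (-v.im) * h

theorem Setup.N_h [CompactSpace M] (S : Setup M) (θ : ℝ) :
    (S.N (S.b θ)).1 = ((S.ν θ : ℝ) : ℂ) * (Complex.I * deriv S.γ θ) := by
  have h2 := S.dot_N_tangent θ
  have h4 : ip (S.N (S.b θ)).1 (deriv S.γ θ) = 0 := by simpa [dot] using h2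
  conv_lhs => rw [plane_expand (S.curve.unit θ) (S.N (S.b θ)).1]
  rw [h4, Setup.ν]
  simp

/-- the frame of a boundary patch at a vertical boundary point -/
theorem Setup.vert_frame [CompactSpace M] (S : Setup M) (hc : S.Conormal (-1)) {θ : ℝ}
    (hν : S.ν θ ^ 2 = 1) {F : Frame} {r : ℝ} {g : ℂ → ℝ} {β : ℝ → ℝ} {e : PartialEquiv M ℂ}
    (hp : BdPatch S.f S.N S.bd S.H (S.b θ) F r g β e) :
    F.b = ((0 : ℂ), S.ν θ) ∧ F.n = (((S.ν θ : ℝ) : ℂ) * (Complex.I * deriv S.γ θ), (0 : ℝ)) ∧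
      ∃ κ : ℝ, (κ = 1 ∨ κ = -1) ∧ F.a = ((κ : ℂ) * deriv S.γ θ, (0 : ℝ)) := by
  have hN2 : (S.N (S.b θ)).2 = 0 := by
    have := S.ν_sq_add θ
    rw [hν] at this
    nlinarith [sq_nonneg (S.N (S.b θ)).2]
  have hn : F.n = (((S.ν θ : ℝ) : ℂ) * (Complex.I * deriv S.γ θ), (0 : ℝ)) := by
    rw [← hp.1.normal_center]
    exact Prod.ext (S.N_h θ) hN2
  have hb : F.b = ((0 : ℂ), S.ν θ) := by
    rw [hc θ F r g β e hp]
    unfold Setup.cn
    rw [hN2]
    apply Prod.ext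
    · simp
    · simp
  have hν0 : S.ν θ ≠ 0 := by
    intro h; rw [h] at hν; norm_num at hν
  refine ⟨hb, hn, ip F.a.1 (deriv S.γ θ), ?_, ?_⟩
  all_goals
    have hab := F.hab
    have han := F.han
    have haa := F.haa
    rw [hb] at hab
    rw [hn] at han
    simp only [dot, ip_zero_right, zero_add, mul_zero, add_zero] at hab han
    rw [ip_ofReal_mul_right] at han
    have ha2 : F.a.2 = 0 := by
      rcases mul_eq_zero.1 hab with h | h
      · exact h
      · exact absurd h hν0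
    have ha1 : ip F.a.1 (Complex.I * deriv S.γ θ) = 0 := by
      rcases mul_eq_zero.1 han with h | h
      · exact absurd h hν0
      · exact h
  · have h3 := ip_sq_add F.a.1 (deriv S.γ θ)
    rw [ha1, S.curve.unit] at h3
    unfold dot at haa
    rw [ip_self, ha2] at haa
    have h4 : (ip F.a.1 (deriv S.γ θ)) ^ 2 = 1 := by nlinarith
    have h5 : (ip F.a.1 (deriv S.γ θ) - 1) * (ip F.a.1 (deriv S.γ θ) + 1) = 0 := by nlinarith
    rcases mul_eq_zero.1 h5 with h | h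
    · left; linarith
    · right; linarith
  · apply Prod.ext
    · conv_lhs => rw [plane_expand (S.curve.unit θ) F.a.1]
      rw [ha1]
      simp
    · exact ha2


/-- if `φ(0) = φ'(0) = 0` and `φ ≤ 0` for small positive `t` then `φ''(0) ≤ 0` -/
theorem second_deriv_nonpos {φ : ℝ → ℝ} {c : ℝ} (hd : ∀ᶠ t in 𝓝 0, DifferentiableAt ℝ φ t)
    (h2 : HasDerivAt (deriv φ) c 0) (h0 : φ 0 = 0) (h0' : deriv φ 0 = 0)
    (hle : ∀ᶠ t in 𝓝[>] (0 : ℝ), φ t ≤ 0) : c ≤ 0 := by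
  by_contra hc
  rw [not_le] at hc
  have h3 := (h2.isLittleO).bound (show (0 : ℝ) < c / 2 by positivity)
  have h4 : ∀ᶠ t in 𝓝 (0 : ℝ), DifferentiableAt ℝ φ t ∧ |deriv φ t - t * c| ≤ c / 2 * |t| := by
    filter_upwards [hd, h3] with t ht ht'
    refine ⟨ht, ?_⟩
    simpa [h0', Real.norm_eq_abs] using ht'
  rw [Metric.eventually_nhds_iff] at h4
  obtain ⟨δ, hδ, h4⟩ := h4
  have hmono : StrictMonoOn φ (Icc 0 (δ / 2)) := by
    apply strictMonoOn_of_deriv_pos (convex_Icc _ _)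
    · intro t ht
      have : dist t 0 < δ := by
        rw [dist_zero_right, Real.norm_eq_abs, abs_of_nonneg ht.1]; linarith [ht.2]
      exact (h4 this).1.continuousAt.continuousWithinAt
    · intro t ht
      rw [interior_Icc] at ht
      have : dist t 0 < δ := by
        rw [dist_zero_right, Real.norm_eq_abs, abs_of_pos ht.1]; linarith [ht.2]
      have h5 := (abs_le.1 (h4 this).2).1
      rw [abs_of_pos ht.1] at h5
      nlinarith [ht.1]
  have h6 : ∀ᶠ t in 𝓝[>] (0 : ℝ), t < δ / 2 := by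
    apply mem_nhdsWithin_of_mem_nhds
    exact Iio_mem_nhds (by positivity)
  obtain ⟨t, ht1, ht2, ht3⟩ := (hle.and (h6.and self_mem_nhdsWithin)).exists
  have ht3' : (0 : ℝ) < t := ht3
  have := hmono ⟨le_rfl, by positivity⟩ ⟨ht3'.le, ht2.le⟩ ht3'
  rw [h0] at this
  linarith

section vert

/-- horizontal and vertical position in a patch at a vertical boundary point -/
theorem Setup.vert_pos (S : Setup M) {θ κ : ℝ} {F : Frame} {g : ℂ → ℝ}
    (hb : F.b = ((0 : ℂ), S.ν θ))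
    (hn : F.n = (((S.ν θ : ℝ) : ℂ) * (Complex.I * deriv S.γ θ), (0 : ℝ)))
    (ha : F.a = ((κ : ℂ) * deriv S.γ θ, (0 : ℝ))) (s : ℂ) :
    F.pt (S.f (S.b θ)) g s = (S.γ θ + ((s.re * κ : ℝ) : ℂ) * deriv S.γ θ +
      ((g s * S.ν θ : ℝ) : ℂ) * (Complex.I * deriv S.γ θ), s.im * S.ν θ) := by
  rw [S.f_b, Frame.pt, ha, hb, hn]
  apply Prod.ext
  · simp
    ring
  · simp

/-- the boundary of a patch at a vertical boundary point is straight -/
theorem Setup.vert_beta [CompactSpace M] (S : Setup M) (hc : S.Conormal (-1)) {θ : ℝ}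
    (hν : S.ν θ ^ 2 = 1) {F : Frame} {r : ℝ} {g : ℂ → ℝ} {β : ℝ → ℝ} {e : PartialEquiv M ℂ}
    (hp : BdPatch S.f S.N S.bd S.H (S.b θ) F r g β e) :
    ∃ r₁ > 0, r₁ ≤ r ∧ ∀ x : ℝ, |x| < r₁ → β x = 0 := by
  obtain ⟨hb, hn, κ, hκ, ha⟩ := S.vert_frame hc hν hp
  have hν0 : S.ν θ ≠ 0 := by
    intro h; rw [h] at hν; norm_num at hν
  have hcont : Continuous (fun x : ℝ => (⟨x, β x⟩ : ℂ)) := by
    have h1 : (fun x : ℝ => (⟨x, β x⟩ : ℂ)) = fun x : ℝ => (x : ℂ) + (β x : ℂ) * Complex.I := by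
      funext x; apply Complex.ext <;> simp
    rw [h1]
    have := hp.2.1.continuous
    fun_prop
  have h0 : (⟨0, β 0⟩ : ℂ) = 0 := by rw [hp.2.2.1]; rfl
  have h1 : ∀ᶠ x : ℝ in 𝓝 0, (⟨x, β x⟩ : ℂ) ∈ ball (0 : ℂ) r := by
    have : (⟨0, β 0⟩ : ℂ) ∈ ball (0 : ℂ) r := by rw [h0]; exact mem_ball_self hp.1.r_pos
    exact hcont.continuousAt.eventually (isOpen_ball.mem_nhds this)
  rw [Metric.eventually_nhds_iff] at h1
  obtain ⟨δ, hδ, h1⟩ := h1
  refine ⟨min δ r, lt_min hδ hp.1.r_pos, min_le_right _ _, fun x hx => ?_⟩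
  have h2 := h1 (y := x) (by rw [dist_zero_right]; exact hx.trans_le (min_le_left _ _))
  have h3 : (⟨x, β x⟩ : ℂ) ∈ halfDisc r β := ⟨h2, le_rfl⟩
  have h4 := (hp.2.2.2.2 _ h3).2 rfl
  have h5 : S.f (e.symm ⟨x, β x⟩) ∈ S.f '' S.bd := mem_image_of_mem _ h4
  rw [S.img_bd, hp.1.param _ h3, S.vert_pos hb hn ha] at h5
  have h6 : β x * S.ν θ = 0 := h5.2
  rcases mul_eq_zero.1 h6 with h | h
  · exact h
  · exact absurd h hν0

end vert

theorem NODOWN_holds : NoDownStatement.{u} := by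
  intro M _ _ _ S hc θ
  have hsq := S.ν_sq_add θ
  have hle : S.ν θ ≤ 1 := by nlinarith [sq_nonneg (S.N (S.b θ)).2]
  have hge : -1 ≤ S.ν θ := by nlinarith [sq_nonneg (S.N (S.b θ)).2]
  refine ⟨lt_of_le_of_ne hge ?_, hle⟩
  intro hν
  have hν' : S.ν θ = -1 := hν.symm
  have hν2 : S.ν θ ^ 2 = 1 := by rw [hν']; norm_num
  obtain ⟨F, r, g, β, e, hp⟩ := S.surf.boundary (S.b θ) (S.b_mem θ)
  obtain ⟨hb, hn, κ, hκ, ha⟩ := S.vert_frame hc hν2 hp
  obtain ⟨r₁, hr₁, hrr, hβ⟩ := S.vert_beta hc hν2 hp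
  -- `g ≤ 0` on the half disc
  have hg : ∀ s : ℂ, ‖s‖ < r₁ → 0 ≤ s.im → g s ≤ 0 := by
    intro s hs him
    have hre : |s.re| < r₁ := (Complex.abs_re_le_norm s).trans_lt hs
    have hR : s ∈ halfDisc r β := ⟨by simpa using hs.trans_le hrr, by rw [hβ _ hre]; exact him⟩
    have h1 := S.curve.inner_closure θ (S.cyl (e.symm s))
    rw [hp.1.param _ hR, S.vert_pos hb hn ha, hν'] at h1
    have h2 : ip (S.γ θ + ((s.re * κ : ℝ) : ℂ) * deriv S.γ θ +
      ((g s * -1 : ℝ) : ℂ) * (Complex.I * deriv S.γ θ) - S.γ θ) (Complex.I * deriv S.γ θ)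
        = - g s := by
      have e1 : S.γ θ + ((s.re * κ : ℝ) : ℂ) * deriv S.γ θ +
        ((g s * -1 : ℝ) : ℂ) * (Complex.I * deriv S.γ θ) - S.γ θ =
        ((s.re * κ : ℝ) : ℂ) * deriv S.γ θ + ((g s * -1 : ℝ) : ℂ) * (Complex.I * deriv S.γ θ) := by
        ring
      rw [e1, ip_add_left, ip_ofReal_mul_left, ip_ofReal_mul_left, ip_self, S.norm_I_γ',
        ip_comm, ip_I_mul_self]
      ring
    simp only at h1
    rw [h2] at h1
    linarith
  have hsm : ContDiffAt ℝ 2 g 0 :=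
    (hp.1.smooth.contDiffAt (ball_mem_nhds _ hp.1.r_pos)).of_le (by norm_cast)
  have key : ∀ v : ℂ, ‖v‖ = 1 → 0 ≤ v.im → (hess g 0).app v ≤ 0 := by
    intro v hv him
    apply second_deriv_nonpos (φ := fun t : ℝ => g (0 + t • v))
    · filter_upwards [eventually_line (v := v) (eventually_differentiableAt hsm)] with t ht
      exact (hasDerivAt_line ht).differentiableAt
    · exact hasDerivAt_deriv_line hsm v
    · simp [hp.1.g_zero]
    · have h1 : DifferentiableAt ℝ g (0 + (0 : ℝ) • v) := by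
        simpa using hsm.differentiableAt (by norm_num)
      rw [(hasDerivAt_line h1).deriv, fderiv_re_im]
      simp [hp.1.d1_zero, hp.1.d2_zero]
    · have h1 : ∀ᶠ t : ℝ in 𝓝[>] (0 : ℝ), t < r₁ :=
        mem_nhdsWithin_of_mem_nhds (Iio_mem_nhds hr₁)
      filter_upwards [h1, self_mem_nhdsWithin] with t ht1 ht2
      have ht2' : (0 : ℝ) < t := ht2
      apply hg
      · rw [zero_add, norm_smul, hv, Real.norm_eq_abs, abs_of_pos ht2']; linarith
      · simp; positivity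
  have h1 := key 1 (by simp) (by simp)
  have h2 := key Complex.I (by simp) (by simp)
  have h3 := hp.1.mean 0 hp.1.zero_mem
  unfold mc at h3
  rw [hp.1.grad_zero, curv_zero] at h3
  simp [Q2.app] at h1 h2
  have := S.H_pos
  linarith


/-- the inner normal points into `D` -/
theorem Tube.inner_mem {D : Set ℂ} {γ : ℝ → ℂ} {L t₀ : ℝ} (hT : Tube D γ L t₀) (θ : ℝ) {t : ℝ}
    (h0 : 0 < t) (ht : t < t₀) : γ θ + (t : ℂ) * (Complex.I * deriv γ θ) ∈ D := by
  have h1 := hT.sd_Phi θ (-t) (by linarith)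
  have e : Phi γ θ (-t) = γ θ + (t : ℂ) * (Complex.I * deriv γ θ) := by
    unfold Phi; push_cast; ring
  rw [e] at h1
  by_contra hcon
  have h2 : infDist (γ θ + (t : ℂ) * (Complex.I * deriv γ θ)) Dᶜ = 0 :=
    infDist_zero_of_mem hcon
  unfold sd at h1
  rw [h2] at h1
  have := infDist_nonneg (x := γ θ + (t : ℂ) * (Complex.I * deriv γ θ)) (s := D)
  linarith

/-- points of a normal line between a point of the closure and a point of `D` are in `D` -/
theorem line_mem {D : Set ℂ} (hD : Convex ℝ D) (hO : IsOpen D) {p n : ℂ} {y₁ y₂ y₃ : ℝ}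
    (h1 : p + (y₁ : ℂ) * n ∈ closure D) (h3 : p + (y₃ : ℂ) * n ∈ D) (h12 : y₁ < y₂)
    (h23 : y₂ < y₃) : p + (y₂ : ℂ) * n ∈ D := by
  have h4 := hD.openSegment_closure_interior_subset_interior h1 (hO.interior_eq.symm ▸ h3)
  rw [hO.interior_eq] at h4
  apply h4
  have hpos : 0 < y₃ - y₁ := by linarith
  refine ⟨(y₃ - y₂) / (y₃ - y₁), (y₂ - y₁) / (y₃ - y₁), by apply div_pos <;> linarith,
    by apply div_pos <;> linarith, ?_, ?_⟩
  · field_simp; ring
  · have e1 : ((y₃ - y₂) / (y₃ - y₁)) + (y₂ - y₁) / (y₃ - y₁) = 1 := by field_simp; ring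
    have e2 : ((y₃ - y₂) / (y₃ - y₁)) * y₁ + (y₂ - y₁) / (y₃ - y₁) * y₃ = y₂ := by
      field_simp; ring
    set a := (y₃ - y₂) / (y₃ - y₁)
    set b := (y₂ - y₁) / (y₃ - y₁)
    have e3 : a • (p + (y₁ : ℂ) * n) + b • (p + (y₃ : ℂ) * n)
        = ((a + b : ℝ) : ℂ) * p + ((a * y₁ + b * y₃ : ℝ) : ℂ) * n := by
      simp only [Complex.real_smul]; push_cast; ring
    rw [e3, e1, e2]; simp

theorem VBD_holds (hT : TubeStatement) : VertBdStatement.{u} := by
  intro M _ _ _ S hc θ hν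
  have hν2 : S.ν θ ^ 2 = 1 := by rw [hν]; norm_num
  obtain ⟨t₀, hTube⟩ := hT _ _ _ S.curve
  obtain ⟨F, r, g, β, e, hp⟩ := S.surf.boundary (S.b θ) (S.b_mem θ)
  obtain ⟨hb, hn, κ, hκ, ha⟩ := S.vert_frame hc hν2 hp
  obtain ⟨r₁, hr₁, hrr, hβ⟩ := S.vert_beta hc hν2 hp
  have hpos := S.vert_pos (g := g) hb hn ha
  set t₁ : ℝ := t₀ / 2 with ht₁
  have ht0 := hTube.pos
  have hz0 : S.γ θ + (t₁ : ℂ) * (Complex.I * deriv S.γ θ) ∈ S.D :=
    hTube.inner_mem θ (by positivity) (by rw [ht₁]; linarith)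
  obtain ⟨δ₁, hδ₁, hball⟩ := Metric.isOpen_iff.1 S.curve.isOpen _ hz0
  have hκn : ‖(κ : ℂ) * deriv S.γ θ‖ = 1 := by
    rw [norm_mul, S.curve.unit, Complex.norm_real]
    rcases hκ with h | h <;> simp [h]
  have hz : ∀ x : ℝ, |x| < δ₁ → (S.γ θ + ((x * κ : ℝ) : ℂ) * deriv S.γ θ)
      + (t₁ : ℂ) * (Complex.I * deriv S.γ θ) ∈ S.D := by
    intro x hx
    apply hball
    rw [mem_ball, dist_eq_norm]
    have e1 : S.γ θ + ((x * κ : ℝ) : ℂ) * deriv S.γ θ + (t₁ : ℂ) * (Complex.I * deriv S.γ θ)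
        - (S.γ θ + (t₁ : ℂ) * (Complex.I * deriv S.γ θ)) = (x : ℂ) * ((κ : ℂ) * deriv S.γ θ) := by
      push_cast; ring
    rw [e1, norm_mul, hκn, Complex.norm_real, Real.norm_eq_abs]; linarith
  obtain ⟨δ₂, hδ₂, hgs⟩ := hp.1.g_small one_pos
  set r' : ℝ := min (min r₁ δ₁) (min δ₂ t₁) with hr'
  have ht1pos : 0 < t₁ := by positivity
  have hr'0 : 0 < r' := lt_min (lt_min hr₁ hδ₁) (lt_min hδ₂ ht1pos)
  have hr'1 : r' ≤ r₁ := (min_le_left _ _).trans (min_le_left _ _)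
  have hr'2 : r' ≤ δ₁ := (min_le_left _ _).trans (min_le_right _ _)
  have hr'3 : r' ≤ δ₂ := (min_le_right _ _).trans (min_le_left _ _)
  have hr'4 : r' ≤ t₁ := (min_le_right _ _).trans (min_le_right _ _)
  have hr'r : r' ≤ r := hr'1.trans hrr
  have hp' := hp.shrink hr'0 hr'r
  have hset : halfDisc r' β = halfDisc r' (fun _ => 0) := by
    ext s
    constructor
    · rintro ⟨h1, h2⟩
      refine ⟨h1, ?_⟩
      rwa [hβ s.re ((Complex.abs_re_le_norm s).trans_lt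
        ((by simpa using h1 : ‖s‖ < r').trans_le hr'1))] at h2
    · rintro ⟨h1, h2⟩
      refine ⟨h1, ?_⟩
      rwa [hβ s.re ((Complex.abs_re_le_norm s).trans_lt
        ((by simpa using h1 : ‖s‖ < r').trans_le hr'1))]
  have hP : Patch S.f S.N S.H (S.b θ) F r' g (halfDisc r' fun _ => 0)
      (e.restr (e ⁻¹' ball 0 r')) := by rw [← hset]; exact hp'.1
  have hbdiff : ∀ s ∈ halfDisc r' (fun _ => 0),
      (e.restr (e ⁻¹' ball 0 r')).symm s ∈ S.bd ↔ s.im = 0 := by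
    intro s hs
    have h1 := hp'.2.2.2.2 s (by rw [hset]; exact hs)
    rwa [hβ s.re ((Complex.abs_re_le_norm s).trans_lt
        ((by simpa using hs.1 : ‖s‖ < r').trans_le hr'1))] at h1
  -- horizontal position
  have hf1 : ∀ s ∈ halfDisc r' (fun _ => 0), (S.f ((e.restr (e ⁻¹' ball 0 r')).symm s)).1
      = (S.γ θ + ((s.re * κ : ℝ) : ℂ) * deriv S.γ θ) +
      ((g s : ℝ) : ℂ) * (Complex.I * deriv S.γ θ) := by
    intro s hs
    rw [hP.param s hs, hpos, hν]
    simp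
  have hre : ∀ s ∈ halfDisc r' (fun _ => 0), ((s.re : ℂ)) ∈ halfDisc r' (fun _ => 0) := by
    intro s hs
    refine ⟨?_, by simp⟩
    have h1 : ‖s‖ < r' := by simpa using hs.1
    simp only [mem_ball, dist_zero_right, Complex.norm_real, Real.norm_eq_abs]
    exact (Complex.abs_re_le_norm s).trans_lt h1
  have hgt : ∀ s ∈ halfDisc r' (fun _ => 0), g s < t₁ := by
    intro s hs
    have h1 : ‖s‖ < r' := by simpa using hs.1
    have h2 := hgs s (h1.trans_le hr'3)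
    have h3 := (abs_le.1 h2).2
    linarith
  have hfr : ∀ s ∈ halfDisc r' (fun _ => 0), (S.γ θ + ((s.re * κ : ℝ) : ℂ) * deriv S.γ θ) +
      ((g (s.re : ℂ) : ℝ) : ℂ) * (Complex.I * deriv S.γ θ) ∈ frontier S.D := by
    intro s hs
    have h1 := (hbdiff _ (hre s hs)).2 (by simp)
    have h2 := mem_image_of_mem S.f h1
    rw [S.img_bd] at h2
    have h3 := h2.1
    rw [hf1 _ (hre s hs)] at h3
    simpa using h3
  have hfrD : ∀ x ∈ frontier S.D, x ∉ S.D := by
    intro x hx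
    rw [S.curve.isOpen.frontier_eq] at hx
    exact hx.2
  have hzs : ∀ s ∈ halfDisc r' (fun _ => 0), (S.γ θ + ((s.re * κ : ℝ) : ℂ) * deriv S.γ θ)
      + (t₁ : ℂ) * (Complex.I * deriv S.γ θ) ∈ S.D := by
    intro s hs
    apply hz
    have h1 : ‖s‖ < r' := by simpa using hs.1
    exact (Complex.abs_re_le_norm s).trans_lt (h1.trans_le hr'2)
  have hwall : ∀ s ∈ halfDisc r' (fun _ => 0), g (s.re : ℂ) ≤ g s := by
    intro s hs
    by_contra hcon
    rw [not_le] at hcon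
    apply hfrD _ (hfr s hs)
    apply line_mem S.curve.convex S.curve.isOpen _ (hzs s hs) hcon (hgt _ (hre s hs))
    rw [← hf1 s hs]
    exact S.cyl _
  refine ⟨κ, F, r', g, _, hP, hbdiff, hκ, ha, ?_, ?_, hwall, ?_⟩
  · rw [hb, hν]
  · rw [hn, hν]; simp
  · intro s hs
    constructor
    · intro h
      apply lt_of_le_of_ne (hwall s hs)
      intro heq
      apply hfrD _ (hfr s hs)
      rw [heq, ← hf1 s hs]
      exact h
    · intro h
      rw [hf1 s hs]
      exact line_mem S.curve.convex S.curve.isOpen (frontier_subset_closure (hfr s hs)) (hzs s hs) h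
        (hgt s hs)

end Cyl
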