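import Pool.Agent.Cyl.Stmt3
import Pool.Agent.Cyl.Base

/-!
# WEAK1: lower bounds for second differences pass to the distributional Hessian
-/

open MeasureTheory Set Filter Topology Metric
open scoped ContDiff

noncomputable section

namespace Cyl

namespace Weak1

theorem two_le_infty : (2 : WithTop ℕ∞) ≤ ∞ := by
  exact ENat.LEInfty.out

theorem one_add_one_le_infty : (1 + 1 : WithTop ℕ∞) ≤ ∞ := by
  rw [one_add_one_eq_two]; exact two_le_infty

/-- Taylor's formula of order two with vanishing first two coefficients -/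
theorem taylor2 (φ φ' φ'' : ℝ → ℝ) (h1 : ∀ t, HasDerivAt φ (φ' t) t)
    (h2 : ∀ t, HasDerivAt φ' (φ'' t) t) (h0 : φ 0 = 0) (h0' : φ' 0 = 0) {t : ℝ} (ht : 0 < t) :
    ∃ ξ ∈ Ioo (0:ℝ) t, φ t = t ^ 2 / 2 * φ'' ξ := by
  obtain ⟨c, hc, hc'⟩ := exists_ratio_hasDerivAt_eq_ratio_slope φ φ' ht
    (fun x _ => (h1 x).continuousAt.continuousWithinAt) (fun x _ => h1 x)
    (fun x => x ^ 2) (fun x => 2 * x) (by fun_prop)
    (fun x _ => by simpa using hasDerivAt_pow 2 x)
  obtain ⟨ξ, hξ, hξ'⟩ := exists_hasDerivAt_eq_slope φ' φ'' hc.1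
    (fun x _ => (h2 x).continuousAt.continuousWithinAt) (fun x _ => h2 x)
  refine ⟨ξ, ⟨hξ.1, hξ.2.trans hc.2⟩, ?_⟩
  have hc0 : 0 < c := hc.1
  rw [h0', sub_zero, sub_zero] at hξ'
  rw [h0, sub_zero] at hc'
  have e : φ' c = φ'' ξ * c := by
    rw [hξ']; field_simp
  rw [e] at hc'
  have e2 : c * (φ t - t ^ 2 / 2 * φ'' ξ) = 0 := by
    linear_combination (-1/2) * hc'
  rcases mul_eq_zero.1 e2 with h | h
  · exact absurd h hc0.ne'
  · linarith

/-- the second derivative as a quadratic form -/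
theorem app_hess (ψ : ℂ → ℝ) (hψ : ContDiff ℝ ∞ ψ) (x v : ℂ) :
    (hess ψ x).app v = fderiv ℝ (fderiv ℝ ψ) x v v := by
  have hd : Differentiable ℝ (fderiv ℝ ψ) :=
    (hψ.fderiv_right (m := 1) one_add_one_le_infty).differentiable (by norm_num)
  have e : ∀ (w z : ℂ), fderiv ℝ (fun s => fderiv ℝ ψ s w) x z = fderiv ℝ (fderiv ℝ ψ) x z w := by
    intro w z
    have h := ((ContinuousLinearMap.apply ℝ ℝ w).hasFDerivAt.comp x (hd x).hasFDerivAt)
    have h' : HasFDerivAt (fun s => fderiv ℝ ψ s w)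
      ((ContinuousLinearMap.apply ℝ ℝ w).comp (fderiv ℝ (fderiv ℝ ψ) x)) x := h
    rw [h'.fderiv]
    rfl
  have hsymm : fderiv ℝ (fderiv ℝ ψ) x 1 Complex.I = fderiv ℝ (fderiv ℝ ψ) x Complex.I 1 := by
    have := (hψ.contDiffAt (x := x)).isSymmSndFDerivAt (by simpa using two_le_infty)
    exact this 1 Complex.I
  unfold hess Q2.app d1 d2
  simp only
  rw [e 1 1, e 1 Complex.I, e Complex.I Complex.I]
  have hv : v = v.re • (1:ℂ) + v.im • Complex.I := by
    apply Complex.ext <;> simp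
  conv_rhs => rw [hv]
  simp only [map_add, map_smul, add_apply, smul_apply,
    smul_eq_mul]
  rw [hsymm]
  ring

/-- second difference of a smooth function -/
theorem dd_taylor (ψ : ℂ → ℝ) (hψ : ContDiff ℝ ∞ ψ) (x v : ℂ) {t : ℝ} (ht : 0 < t) :
    ∃ ξ ∈ Ioo (0:ℝ) t, dd ψ ((t:ℂ) * v) x = t ^ 2 / 2 *
      ((hess ψ (x + (ξ:ℂ) * v)).app v + (hess ψ (x - (ξ:ℂ) * v)).app v) := by
  have hd : Differentiable ℝ (fderiv ℝ ψ) :=
    (hψ.fderiv_right (m := 1) one_add_one_le_infty).differentiable (by norm_num)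
  have hd0 : Differentiable ℝ ψ := hψ.differentiable (by norm_num)
  have hl : ∀ t : ℝ, HasDerivAt (fun t : ℝ => x + (t:ℂ) * v) v t := by
    intro t
    have := ((Complex.ofRealCLM.hasDerivAt (x := t)).mul_const v).const_add x
    simpa using this
  have hl' : ∀ t : ℝ, HasDerivAt (fun t : ℝ => x - (t:ℂ) * v) (-v) t := by
    intro t
    have := ((Complex.ofRealCLM.hasDerivAt (x := t)).mul_const v).const_sub x
    simpa using this
  have key := taylor2 (fun t => dd ψ ((t:ℂ) * v) x)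
    (fun t => fderiv ℝ ψ (x + (t:ℂ) * v) v + fderiv ℝ ψ (x - (t:ℂ) * v) (-v))
    (fun t => fderiv ℝ (fderiv ℝ ψ) (x + (t:ℂ) * v) v v
      + fderiv ℝ (fderiv ℝ ψ) (x - (t:ℂ) * v) (-v) (-v)) ?_ ?_ (by simp [dd]; ring) (by simp) ht
  · obtain ⟨ξ, hξ, h⟩ := key
    refine ⟨ξ, hξ, ?_⟩
    rw [app_hess ψ hψ, app_hess ψ hψ]
    rw [show dd ψ ((t:ℂ) * v) x = _ from h]
    simp
  · intro t
    unfold dd
    have h1 := ((hd0 (x + (t:ℂ) * v)).hasFDerivAt.comp_hasDerivAt t (hl t))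
    have h2 := ((hd0 (x - (t:ℂ) * v)).hasFDerivAt.comp_hasDerivAt t (hl' t))
    exact (h1.add h2).sub_const _
  · intro t
    have h1 := ((hd (x + (t:ℂ) * v)).hasFDerivAt.comp_hasDerivAt t (hl t))
    have h2 := ((hd (x - (t:ℂ) * v)).hasFDerivAt.comp_hasDerivAt t (hl' t))
    have h3 := h1.clm_apply (hasDerivAt_const t v)
    have h4 := h2.clm_apply (hasDerivAt_const t (-v))
    have h5 := h3.add h4
    refine (h5.congr_deriv ?_)
    simp

theorem hess_zero_of_nmem (ψ : ℂ → ℝ) {x : ℂ} (hx : x ∉ tsupport ψ) (v : ℂ) :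
    (hess ψ x).app v = 0 := by
  have h0 : ψ =ᶠ[𝓝 x] 0 := notMem_tsupport_iff_eventuallyEq.1 hx
  have e1 : ∀ w, (fun s => fderiv ℝ ψ s w) =ᶠ[𝓝 x] fun _ => 0 := by
    intro w
    filter_upwards [h0.eventuallyEq_nhds] with y hy
    rw [hy.fderiv_eq]
    simp
  have e2 : ∀ w z, fderiv ℝ (fun s => fderiv ℝ ψ s w) x z = 0 := by
    intro w z
    rw [(e1 w).fderiv_eq]
    simp
  unfold hess Q2.app d1 d2
  simp only
  rw [e2, e2, e2]
  ring

theorem continuous_hess_app (ψ : ℂ → ℝ) (hψ : ContDiff ℝ ∞ ψ) (v : ℂ) :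
    Continuous fun x => (hess ψ x).app v := by
  have h : (fun x => (hess ψ x).app v) = fun x => fderiv ℝ (fderiv ℝ ψ) x v v := by
    funext x; exact app_hess ψ hψ x v
  rw [h]
  have h1 : ContDiff ℝ 1 (fderiv ℝ ψ) := hψ.fderiv_right (m := 1) one_add_one_le_infty
  have h2 : Continuous (fderiv ℝ (fderiv ℝ ψ)) := h1.continuous_fderiv (by norm_num)
  fun_prop

theorem hess_app_bound (ψ : ℂ → ℝ) (hψ : ContDiff ℝ ∞ ψ) (hc : HasCompactSupport ψ) (v : ℂ) :
    ∃ C : ℝ, 0 ≤ C ∧ ∀ x, |(hess ψ x).app v| ≤ C := by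
  have hcs : HasCompactSupport fun x => (hess ψ x).app v := by
    apply HasCompactSupport.intro hc
    intro x hx
    exact hess_zero_of_nmem ψ hx v
  obtain ⟨C, hC⟩ := hcs.exists_bound_of_continuous (continuous_hess_app ψ hψ v)
  exact ⟨C, (norm_nonneg _).trans (hC 0), fun x => hC x⟩

theorem dd_bound (ψ : ℂ → ℝ) (hψ : ContDiff ℝ ∞ ψ) (v : ℂ) {C : ℝ}
    (hC : ∀ x, |(hess ψ x).app v| ≤ C) (x : ℂ) {t : ℝ} (ht : 0 < t) :
    |dd ψ ((t:ℂ) * v) x| ≤ C * t ^ 2 := by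
  obtain ⟨ξ, hξ, h⟩ := dd_taylor ψ hψ x v ht
  rw [h, abs_mul, abs_of_pos (by positivity : 0 < t ^ 2 / 2)]
  have h1 := hC (x + (ξ:ℂ) * v)
  have h2 := hC (x - (ξ:ℂ) * v)
  have h3 : |(hess ψ (x + (ξ:ℂ) * v)).app v + (hess ψ (x - (ξ:ℂ) * v)).app v| ≤ C + C :=
    (abs_add_le _ _).trans (by linarith)
  calc t ^ 2 / 2 * |(hess ψ (x + (ξ:ℂ) * v)).app v + (hess ψ (x - (ξ:ℂ) * v)).app v|
      ≤ t ^ 2 / 2 * (C + C) := by gcongr
    _ = C * t ^ 2 := by ring

theorem dd_tendsto (ψ : ℂ → ℝ) (hψ : ContDiff ℝ ∞ ψ) (v x : ℂ) :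
    Tendsto (fun n : ℕ => ((n:ℝ) + 1) ^ 2 * dd ψ ((((n:ℝ) + 1)⁻¹ : ℝ) * v) x) atTop
      (𝓝 ((hess ψ x).app v)) := by
  have ht : ∀ n : ℕ, (0:ℝ) < ((n:ℝ) + 1)⁻¹ := fun n => by positivity
  choose ξ hξ h using fun n : ℕ => dd_taylor ψ hψ x v (ht n)
  have hlim : Tendsto (fun n : ℕ => ((n:ℝ) + 1)⁻¹) atTop (𝓝 0) := by
    have := tendsto_one_div_add_atTop_nhds_zero_nat (𝕜 := ℝ)
    simpa using this
  have hξ0 : Tendsto ξ atTop (𝓝 0) :=
    tendsto_of_tendsto_of_tendsto_of_le_of_le tendsto_const_nhds hlim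
      (fun n => (hξ n).1.le) (fun n => (hξ n).2.le)
  have e : (fun n : ℕ => ((n:ℝ) + 1) ^ 2 * dd ψ ((((n:ℝ) + 1)⁻¹ : ℝ) * v) x)
      = fun n => ((hess ψ (x + (ξ n:ℂ) * v)).app v + (hess ψ (x - (ξ n:ℂ) * v)).app v) / 2 := by
    funext n
    rw [h n]
    have : ((n:ℝ) + 1) ≠ 0 := by positivity
    field_simp
  rw [e]
  have hc := continuous_hess_app ψ hψ v
  have h1 : Tendsto (fun n => (hess ψ (x + (ξ n:ℂ) * v)).app v) atTop (𝓝 ((hess ψ x).app v)) := by
    have hg : Continuous fun s : ℝ => (hess ψ (x + (s:ℂ) * v)).app v := by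
      exact hc.comp (by fun_prop)
    have := (hg.tendsto 0).comp hξ0
    simpa [Function.comp_def] using this
  have h2 : Tendsto (fun n => (hess ψ (x - (ξ n:ℂ) * v)).app v) atTop (𝓝 ((hess ψ x).app v)) := by
    have hg : Continuous fun s : ℝ => (hess ψ (x - (s:ℂ) * v)).app v := by
      exact hc.comp (by fun_prop)
    have := (hg.tendsto 0).comp hξ0
    simpa [Function.comp_def] using this
  have := (h1.add h2).div_const 2
  simpa using this

/-- summation by parts -/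
theorem integral_dd (u ψ : ℂ → ℝ) (hu : Continuous u) (hψ : Continuous ψ)
    (hc : HasCompactSupport ψ) (v : ℂ) :
    ∫ x, ψ x * dd u v x = ∫ x, u x * dd ψ v x := by
  have hci : ∀ w : ℂ, HasCompactSupport fun x => ψ (x + w) := fun w =>
    hc.comp_homeomorph (Homeomorph.addRight w)
  have i1 : ∀ w : ℂ, Integrable fun x => ψ x * u (x + w) := fun w =>
    Continuous.integrable_of_hasCompactSupport (by fun_prop) hc.mul_right
  have i2 : ∀ w : ℂ, Integrable fun x => u x * ψ (x + w) := fun w =>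
    Continuous.integrable_of_hasCompactSupport (by fun_prop) (hci w).mul_left
  have e : ∀ w : ℂ, ∫ x, ψ x * u (x + w) = ∫ x, u x * ψ (x - w) := by
    intro w
    rw [← integral_sub_right_eq_self (fun x => ψ x * u (x + w)) w]
    apply integral_congr_ae
    filter_upwards with x
    simp only [sub_add_cancel]
    ring
  unfold dd
  have l1 : ∀ x, ψ x * (u (x + v) + u (x - v) - 2 * u x)
      = ψ x * u (x + v) + ψ x * u (x + -v) - 2 * (ψ x * u (x + 0)) := by
    intro x; rw [← sub_eq_add_neg, add_zero]; ring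
  have l2 : ∀ x, u x * (ψ (x + v) + ψ (x - v) - 2 * ψ x)
      = u x * ψ (x + v) + u x * ψ (x + -v) - 2 * (u x * ψ (x + 0)) := by
    intro x; rw [← sub_eq_add_neg, add_zero]; ring
  simp only [l1, l2]
  have j1 : Integrable fun x => ψ x * u (x + v) + ψ x * u (x + -v) := (i1 v).add (i1 (-v))
  have j2 : Integrable fun x => u x * ψ (x + v) + u x * ψ (x + -v) := (i2 v).add (i2 (-v))
  rw [integral_sub j1 ((i1 0).const_mul 2), integral_sub j2 ((i2 0).const_mul 2),
    integral_add (i1 v) (i1 (-v)), integral_add (i2 v) (i2 (-v)),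
    integral_const_mul, integral_const_mul, e v, e (-v), e 0]
  simp only [sub_eq_add_neg, neg_zero, neg_neg]
  ring


theorem D2n_eq (u : ℂ → ℝ) (q : ℂ) (n : ℕ) (x : ℂ) : D2n u q n x =
    ((n : ℝ) + 1) ^ 2 * dd u ((((n:ℝ) + 1)⁻¹ : ℝ) * 1) x
    + ((n : ℝ) + 1) ^ 2 * dd u ((((n:ℝ) + 1)⁻¹ : ℝ) * Complex.I) x
    + ((n : ℝ) + 1) ^ 2 * dd u ((((n:ℝ) + 1)⁻¹ : ℝ) * (Complex.I * q)) x := by
  unfold D2n
  rw [mul_one]
  ring

theorem lin_eq_app (q : ℂ) (B : Q2) :
    lin q B = B.app 1 + B.app Complex.I + B.app (Complex.I * q) := by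
  unfold lin Q2.app
  simp
  ring

theorem D2n_tendsto (ψ : ℂ → ℝ) (hψ : ContDiff ℝ ∞ ψ) (q x : ℂ) :
    Tendsto (fun n : ℕ => D2n ψ q n x) atTop (𝓝 (lin q (hess ψ x))) := by
  rw [lin_eq_app]
  simp only [D2n_eq]
  exact ((dd_tendsto ψ hψ 1 x).add (dd_tendsto ψ hψ Complex.I x)).add
    (dd_tendsto ψ hψ (Complex.I * q) x)

theorem D2n_bound (ψ : ℂ → ℝ) (hψ : ContDiff ℝ ∞ ψ) (hc : HasCompactSupport ψ) (q : ℂ) :
    ∃ C : ℝ, 0 ≤ C ∧ ∀ n x, |D2n ψ q n x| ≤ C := by
  obtain ⟨C1, h1, h1'⟩ := hess_app_bound ψ hψ hc 1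
  obtain ⟨C2, h2, h2'⟩ := hess_app_bound ψ hψ hc Complex.I
  obtain ⟨C3, h3, h3'⟩ := hess_app_bound ψ hψ hc (Complex.I * q)
  refine ⟨C1 + C2 + C3, by positivity, fun n x => ?_⟩
  rw [D2n_eq]
  have hp : (0:ℝ) < (n:ℝ) + 1 := by positivity
  have key : ∀ (v : ℂ) (C : ℝ), (∀ x, |(hess ψ x).app v| ≤ C) →
      |((n : ℝ) + 1) ^ 2 * dd ψ ((((n:ℝ) + 1)⁻¹ : ℝ) * v) x| ≤ C := by
    intro v C hC
    have := dd_bound ψ hψ v hC x (t := ((n:ℝ) + 1)⁻¹) (by positivity)
    rw [abs_mul, abs_of_pos (by positivity)]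
    calc ((n : ℝ) + 1) ^ 2 * |dd ψ ((((n:ℝ) + 1)⁻¹ : ℝ) * v) x|
        ≤ ((n : ℝ) + 1) ^ 2 * (C * ((n:ℝ) + 1)⁻¹ ^ 2) := by gcongr
      _ = C := by field_simp
  exact (abs_add_three _ _ _).trans (add_le_add (add_le_add (key _ _ h1') (key _ _ h2'))
    (key _ _ h3'))

theorem D2n_support (ψ : ℂ → ℝ) (hc : HasCompactSupport ψ) (q : ℂ) :
    ∃ R : ℝ, ∀ n x, R < ‖x‖ → D2n ψ q n x = 0 := by
  obtain ⟨R, hR⟩ := hc.isBounded.subset_closedBall (0 : ℂ)
  have h0 : ∀ y : ℂ, R < ‖y‖ → ψ y = 0 := by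
    intro y hy
    apply image_eq_zero_of_notMem_tsupport
    intro h
    have := hR h
    simp at this
    linarith
  refine ⟨R + (1 + ‖q‖), fun n x hx => ?_⟩
  have hq := norm_nonneg q
  have ht : ((n:ℝ) + 1)⁻¹ ≤ 1 := by
    apply inv_le_one_of_one_le₀
    linarith [(Nat.cast_nonneg n : (0:ℝ) ≤ n)]
  have ht0 : 0 ≤ ((n:ℝ) + 1)⁻¹ := by positivity
  have key : ∀ v : ℂ, ‖v‖ ≤ 1 + ‖q‖ → dd ψ ((((n:ℝ) + 1)⁻¹ : ℝ) * v) x = 0 := by
    intro v hv
    have h1 : ‖((((n:ℝ) + 1)⁻¹ : ℝ) : ℂ) * v‖ ≤ 1 + ‖q‖ := by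
      rw [norm_mul, Complex.norm_real, Real.norm_eq_abs, abs_of_nonneg ht0]
      nlinarith [norm_nonneg v]
    unfold dd
    rw [h0 x (by linarith), h0 (x + _) ?_, h0 (x - _) ?_]
    · simp
    · have := norm_sub_norm_le x (((((n:ℝ) + 1)⁻¹ : ℝ) : ℂ) * v)
      linarith
    · have := norm_sub_norm_le x (-(((((n:ℝ) + 1)⁻¹ : ℝ) : ℂ) * v))
      rw [norm_neg, sub_neg_eq_add] at this
      linarith
  rw [D2n_eq, key 1 (by simp), key Complex.I (by simp), key (Complex.I * q) (by simp)]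
  simp

/-- lower bound for the second differences of a semiconvex function -/
theorem dd_lower (u : ℂ → ℝ) (c : ℝ) (hconv : ConvexOn ℝ univ (fun x => u x + c / 2 * ‖x‖ ^ 2))
    (v x : ℂ) : - (c * ‖v‖ ^ 2) ≤ dd u v x := by
  have h := hconv.2 (mem_univ (x + v)) (mem_univ (x - v)) (by norm_num : (0:ℝ) ≤ 1/2)
    (by norm_num : (0:ℝ) ≤ 1/2) (by norm_num)
  simp only [smul_eq_mul] at h
  have e : (1/2 : ℝ) • (x + v) + (1/2 : ℝ) • (x - v) = x := by
    apply Complex.ext <;> simp <;> ring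
  rw [e, norm_add_sq', norm_sub_sq'] at h
  unfold dd
  nlinarith [h]

theorem D2n_lower (u : ℂ → ℝ) (c : ℝ) (hconv : ConvexOn ℝ univ (fun x => u x + c / 2 * ‖x‖ ^ 2))
    (q : ℂ) (n : ℕ) (x : ℂ) : - (c * (2 + ‖q‖ ^ 2)) ≤ D2n u q n x := by
  rw [D2n_eq]
  have hp : (0:ℝ) < (n:ℝ) + 1 := by positivity
  have key : ∀ v : ℂ, - (c * ‖v‖ ^ 2) ≤
      ((n : ℝ) + 1) ^ 2 * dd u ((((n:ℝ) + 1)⁻¹ : ℝ) * v) x := by
    intro v
    have h := dd_lower u c hconv ((((n:ℝ) + 1)⁻¹ : ℝ) * v) x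
    rw [norm_mul, Complex.norm_real, Real.norm_eq_abs, abs_of_pos (by positivity)] at h
    calc - (c * ‖v‖ ^ 2) = ((n : ℝ) + 1) ^ 2 * (- (c * (((n:ℝ) + 1)⁻¹ * ‖v‖) ^ 2)) := by
          field_simp
      _ ≤ _ := by gcongr
  have h1 := key 1
  have h2 := key Complex.I
  have h3 := key (Complex.I * q)
  simp only [norm_one, Complex.norm_I, norm_mul, one_mul] at h1 h2 h3
  linarith

theorem continuous_of_semiconvex (u : ℂ → ℝ) (c : ℝ)
    (hconv : ConvexOn ℝ univ (fun x => u x + c / 2 * ‖x‖ ^ 2)) : Continuous u := by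
  have h1 : Continuous (fun x => u x + c / 2 * ‖x‖ ^ 2) := hconv.locallyLipschitz.continuous
  have h2 : u = fun x => (u x + c / 2 * ‖x‖ ^ 2) - c / 2 * ‖x‖ ^ 2 := by
    funext x; ring
  rw [h2]
  exact h1.sub (by fun_prop)

theorem integral_D2n (u ψ : ℂ → ℝ) (hu : Continuous u) (hψ : Continuous ψ)
    (hc : HasCompactSupport ψ) (q : ℂ) (n : ℕ) :
    ∫ x, ψ x * D2n u q n x = ∫ x, u x * D2n ψ q n x := by
  have hci : ∀ w : ℂ, HasCompactSupport fun x => dd ψ w x := by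
    intro w
    have h1 : HasCompactSupport fun x => ψ (x + w) := hc.comp_homeomorph (Homeomorph.addRight w)
    have h2 : HasCompactSupport fun x => ψ (x - w) := by
      have := hc.comp_homeomorph (Homeomorph.addRight (-w))
      simpa [sub_eq_add_neg, Function.comp_def] using this
    have h3 : HasCompactSupport fun x => 2 * ψ x := hc.mul_left
    exact (h1.add h2).sub h3
  have hdd : ∀ (g : ℂ → ℝ), Continuous g → ∀ w, Continuous fun x => dd g w x := by
    intro g hg w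
    unfold dd
    fun_prop
  have i1 : ∀ w : ℂ, Integrable fun x => ((n:ℝ) + 1) ^ 2 * (ψ x * dd u w x) := fun w =>
    (Continuous.integrable_of_hasCompactSupport (hψ.mul (hdd u hu w)) hc.mul_right).const_mul _
  have i2 : ∀ w : ℂ, Integrable fun x => ((n:ℝ) + 1) ^ 2 * (u x * dd ψ w x) := fun w =>
    (Continuous.integrable_of_hasCompactSupport (hu.mul (hdd ψ hψ w)) (hci w).mul_left).const_mul _
  have l1 : ∀ x, ψ x * D2n u q n x =
      ((n:ℝ) + 1) ^ 2 * (ψ x * dd u ((((n:ℝ) + 1)⁻¹ : ℝ) * 1) x)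
      + ((n:ℝ) + 1) ^ 2 * (ψ x * dd u ((((n:ℝ) + 1)⁻¹ : ℝ) * Complex.I) x)
      + ((n:ℝ) + 1) ^ 2 * (ψ x * dd u ((((n:ℝ) + 1)⁻¹ : ℝ) * (Complex.I * q)) x) := by
    intro x; rw [D2n_eq]; ring
  have l2 : ∀ x, u x * D2n ψ q n x =
      ((n:ℝ) + 1) ^ 2 * (u x * dd ψ ((((n:ℝ) + 1)⁻¹ : ℝ) * 1) x)
      + ((n:ℝ) + 1) ^ 2 * (u x * dd ψ ((((n:ℝ) + 1)⁻¹ : ℝ) * Complex.I) x)
      + ((n:ℝ) + 1) ^ 2 * (u x * dd ψ ((((n:ℝ) + 1)⁻¹ : ℝ) * (Complex.I * q)) x) := by
    intro x; rw [D2n_eq]; ring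
  simp only [l1, l2]
  have k1 : ∀ a b : ℂ, Integrable fun x => ((n:ℝ) + 1) ^ 2 * (ψ x * dd u a x)
      + ((n:ℝ) + 1) ^ 2 * (ψ x * dd u b x) := fun a b => (i1 a).add (i1 b)
  have k2 : ∀ a b : ℂ, Integrable fun x => ((n:ℝ) + 1) ^ 2 * (u x * dd ψ a x)
      + ((n:ℝ) + 1) ^ 2 * (u x * dd ψ b x) := fun a b => (i2 a).add (i2 b)
  rw [integral_add (k1 _ _) (i1 _), integral_add (i1 _) (i1 _),
    integral_add (k2 _ _) (i2 _), integral_add (i2 _) (i2 _)]
  simp only [integral_const_mul]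
  rw [integral_dd u ψ hu hψ hc, integral_dd u ψ hu hψ hc, integral_dd u ψ hu hψ hc]

theorem integral_D2n_tendsto (u ψ : ℂ → ℝ) (hu : Continuous u) (hψ : ContDiff ℝ ∞ ψ)
    (hc : HasCompactSupport ψ) (q : ℂ) :
    Tendsto (fun n : ℕ => ∫ x, u x * D2n ψ q n x) atTop (𝓝 (∫ x, u x * lin q (hess ψ x))) := by
  obtain ⟨C, hC0, hC⟩ := D2n_bound ψ hψ hc q
  obtain ⟨R, hR⟩ := D2n_support ψ hc q
  have hcont : ∀ n, Continuous fun x => D2n ψ q n x := by
    intro n
    have := hψ.continuous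
    unfold D2n dd
    fun_prop
  apply tendsto_integral_of_dominated_convergence
    (fun x => (closedBall (0:ℂ) R).indicator (fun x => |u x| * C) x)
  · intro n
    exact (hu.mul (hcont n)).aestronglyMeasurable
  · apply IntegrableOn.integrable_indicator
    · exact (Continuous.continuousOn (by fun_prop)).integrableOn_compact
        (isCompact_closedBall (0:ℂ) R)
    · exact measurableSet_closedBall
  · intro n
    filter_upwards with x
    by_cases hx : x ∈ closedBall (0:ℂ) R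
    · rw [indicator_of_mem hx, norm_mul, Real.norm_eq_abs, Real.norm_eq_abs]
      exact mul_le_mul_of_nonneg_left (hC n x) (abs_nonneg _)
    · rw [indicator_of_notMem hx, hR n x (by simpa using hx)]
      simp
  · filter_upwards with x
    exact (D2n_tendsto ψ hψ q x).const_mul _

end Weak1

open Weak1

theorem WEAK1_holds : Weak1Statement := by
  intro u c hc hconv q F K hF hFK hae ψ hψ hψc hψ0
  have hu := continuous_of_semiconvex u c hconv
  set C0 : ℝ := c * (2 + ‖q‖ ^ 2) with hC0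
  have hψcont := hψ.continuous
  have hψi : Integrable ψ := hψcont.integrable_of_hasCompactSupport hψc
  have hcont : ∀ n, Continuous fun x => D2n u q n x := by
    intro n
    unfold D2n dd
    fun_prop
  set G : ℕ → ℂ → ℝ := fun n x => ψ x * (D2n u q n x + C0) with hG
  have hG0 : ∀ n x, 0 ≤ G n x := by
    intro n x
    have := D2n_lower u c hconv q n x
    exact mul_nonneg (hψ0 x) (by linarith)
  have hGc : ∀ n, Continuous (G n) := fun n => hψcont.mul ((hcont n).add_const _)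
  have hGi : ∀ n, Integrable (G n) := fun n =>
    (hGc n).integrable_of_hasCompactSupport hψc.mul_right
  have hI : ∀ n, ∫ x, G n x = (∫ x, u x * D2n ψ q n x) + C0 * ∫ x, ψ x := by
    intro n
    have i1 : Integrable fun x => ψ x * D2n u q n x :=
      (hψcont.mul (hcont n)).integrable_of_hasCompactSupport hψc.mul_right
    have e : ∀ x, G n x = ψ x * D2n u q n x + C0 * ψ x := by
      intro x; simp only [hG]; ring
    simp only [e]
    rw [integral_add i1 (hψi.const_mul _), integral_D2n u ψ hu hψcont hψc q n,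
      integral_const_mul]
  have hlim : Tendsto (fun n => ∫ x, G n x) atTop
      (𝓝 ((∫ x, u x * lin q (hess ψ x)) + C0 * ∫ x, ψ x)) := by
    simp only [hI]
    exact (integral_D2n_tendsto u ψ hu hψ hψc q).add_const _
  have hlim0 : 0 ≤ (∫ x, u x * lin q (hess ψ x)) + C0 * ∫ x, ψ x :=
    ge_of_tendsto' hlim fun n => integral_nonneg (hG0 n)
  -- Fatou
  have hfat : ∫⁻ x, ENNReal.ofReal (ψ x * (F x + C0)) ≤
      ENNReal.ofReal ((∫ x, u x * lin q (hess ψ x)) + C0 * ∫ x, ψ x) := by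
    calc ∫⁻ x, ENNReal.ofReal (ψ x * (F x + C0))
        ≤ ∫⁻ x, liminf (fun n => ENNReal.ofReal (G n x)) atTop := by
          apply lintegral_mono_ae
          filter_upwards [hae] with x hx
          apply le_of_forall_lt
          intro b hb
          -- pick `η`
          have hb' : b.toReal < ψ x * (F x + C0) := by
            have hbt : b ≠ ⊤ := hb.ne_top
            rw [← ENNReal.ofReal_toReal hbt] at hb
            exact (ENNReal.ofReal_lt_ofReal_iff_of_nonneg ENNReal.toReal_nonneg).1 hb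
          have hbt : b ≠ ⊤ := hb.ne_top
          set η : ℝ := (ψ x * (F x + C0) - b.toReal) / (2 * (ψ x + 1)) with hη
          have hψ1 : 0 < ψ x + 1 := by linarith [hψ0 x]
          have hη0 : 0 < η := by
            rw [hη]; apply div_pos (by linarith) (by positivity)
          have hη1 : ψ x * η ≤ (ψ x * (F x + C0) - b.toReal) / 2 := by
            rw [hη]
            rw [mul_div_assoc', div_le_div_iff₀ (by positivity) (by norm_num)]
            have := hψ0 x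
            nlinarith
          set b' : ℝ := (ψ x * (F x + C0) + b.toReal) / 2 with hb2
          have hb3 : b < ENNReal.ofReal b' := by
            rw [← ENNReal.ofReal_toReal hbt]
            rw [ENNReal.ofReal_lt_ofReal_iff_of_nonneg ENNReal.toReal_nonneg]
            rw [hb2]; linarith
          refine lt_of_lt_of_le hb3 ?_
          apply le_liminf_of_le
          · isBoundedDefault
          filter_upwards [hx η hη0] with n hn
          apply ENNReal.ofReal_le_ofReal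
          have h1 : ψ x * (F x - η + C0) ≤ G n x := by
            simp only [hG]
            exact mul_le_mul_of_nonneg_left (by linarith) (hψ0 x)
          have h2 : ψ x * (F x - η + C0) = ψ x * (F x + C0) - ψ x * η := by ring
          rw [hb2]
          linarith
      _ ≤ liminf (fun n => ∫⁻ x, ENNReal.ofReal (G n x)) atTop :=
          lintegral_liminf_le fun n => (hGc n).measurable.ennreal_ofReal
      _ = liminf (fun n => ENNReal.ofReal (∫ x, G n x)) atTop := by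
          congr 1
          funext n
          rw [ofReal_integral_eq_lintegral_ofReal (hGi n) (ae_of_all _ (hG0 n))]
      _ = _ := by
          apply Tendsto.liminf_eq
          exact (ENNReal.continuous_ofReal.tendsto _).comp hlim
  have hFi : Integrable fun x => ψ x * F x := by
    refine Integrable.mono' (hψi.mul_const K) ?_ ?_
    · exact (hψcont.measurable.mul hF).aestronglyMeasurable
    · filter_upwards with x
      rw [norm_mul, Real.norm_eq_abs, Real.norm_eq_abs, abs_of_nonneg (hψ0 x)]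
      exact mul_le_mul_of_nonneg_left (hFK x) (hψ0 x)
  have hFC : Integrable fun x => ψ x * (F x + C0) := by
    have e : (fun x => ψ x * (F x + C0)) = fun x => ψ x * F x + C0 * ψ x := by
      funext x; ring
    rw [e]
    exact hFi.add (hψi.const_mul _)
  have h1 : ∫ x, ψ x * (F x + C0) ≤ (∫ x, u x * lin q (hess ψ x)) + C0 * ∫ x, ψ x := by
    rw [integral_eq_lintegral_pos_part_sub_lintegral_neg_part hFC]
    have h2 : (∫⁻ x, ENNReal.ofReal (ψ x * (F x + C0))).toReal ≤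
        (∫ x, u x * lin q (hess ψ x)) + C0 * ∫ x, ψ x := by
      have := ENNReal.toReal_mono ENNReal.ofReal_ne_top hfat
      rwa [ENNReal.toReal_ofReal hlim0] at this
    have h3 : 0 ≤ (∫⁻ x, ENNReal.ofReal (-(ψ x * (F x + C0)))).toReal := ENNReal.toReal_nonneg
    linarith
  have h2 : ∫ x, ψ x * (F x + C0) = (∫ x, ψ x * F x) + C0 * ∫ x, ψ x := by
    have e : ∀ x, ψ x * (F x + C0) = ψ x * F x + C0 * ψ x := by intro x; ring
    simp only [e]
    rw [integral_add hFi (hψi.const_mul _), integral_const_mul]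
  linarith

end Cyl
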