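import Pool.Agent.Cyl.Stmt3
import Pool.Agent.Cyl.Base

/-!
# Module WEAK2: mollification of semiconvex functions
-/

open MeasureTheory Set Filter Topology Metric
open scoped ContDiff Convolution

noncomputable section

namespace Cyl

namespace Weak2

theorem norm_sq_comb (x y : ℂ) (a b : ℝ) (hab : a + b = 1) :
    ‖a • x + b • y‖ ^ 2 = a * ‖x‖ ^ 2 + b * ‖y‖ ^ 2 - a * b * ‖x - y‖ ^ 2 := by
  have hb : b = 1 - a := by linarith
  subst hb
  simp only [← ip_self, ip]
  simp
  ring

/-- semiconvexity as a translation invariant inequality -/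
def Semi (u : ℂ → ℝ) (c : ℝ) : Prop :=
  ∀ (x y : ℂ) (a b : ℝ), 0 ≤ a → 0 ≤ b → a + b = 1 →
    u (a • x + b • y) ≤ a * u x + b * u y + c / 2 * (a * b) * ‖x - y‖ ^ 2

theorem semi_iff {u : ℂ → ℝ} {c : ℝ} :
    ConvexOn ℝ univ (fun x => u x + c / 2 * ‖x‖ ^ 2) ↔ Semi u c := by
  constructor
  · intro h x y a b ha hb hab
    have h1 := h.2 (mem_univ x) (mem_univ y) ha hb hab
    simp only [smul_eq_mul] at h1
    rw [norm_sq_comb x y a b hab] at h1
    nlinarith [h1]
  · intro h
    refine ⟨convex_univ, ?_⟩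
    intro x _ y _ a b ha hb hab
    have h1 := h x y a b ha hb hab
    simp only [smul_eq_mul]
    rw [norm_sq_comb x y a b hab]
    nlinarith [h1]

theorem Semi.continuous {u : ℂ → ℝ} {c : ℝ} (h : Semi u c) : Continuous u := by
  have h1 := (semi_iff.2 h).locallyLipschitz.continuous
  have h2 : Continuous (fun x : ℂ => c / 2 * ‖x‖ ^ 2) := by fun_prop
  have h3 : u = fun x => (u x + c / 2 * ‖x‖ ^ 2) - c / 2 * ‖x‖ ^ 2 := by
    funext x; ring
  rw [h3]
  exact h1.sub h2

/-! ### convolution -/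

/-- convolution -/
def cv (f u : ℂ → ℝ) (x : ℂ) : ℝ := ∫ t, f t * u (x - t)

theorem cv_eq (f u : ℂ → ℝ) : (f ⋆[ContinuousLinearMap.lsmul ℝ ℝ, volume] u) = cv f u := by
  funext x
  rw [convolution_lsmul]
  rfl

theorem cv_integrable {f u : ℂ → ℝ} (hf : Continuous f) (hc : HasCompactSupport f)
    (hu : Continuous u) (x : ℂ) : Integrable (fun t => f t * u (x - t)) :=
  (hf.mul (hu.comp (continuous_const.sub continuous_id))).integrable_of_hasCompactSupport
    hc.mul_right

theorem cv_contDiff {f u : ℂ → ℝ} (hf : ContDiff ℝ ∞ f) (hc : HasCompactSupport f)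
    (hu : Continuous u) : ContDiff ℝ ∞ (cv f u) := by
  rw [← cv_eq]
  exact hc.contDiff_convolution_left (ContinuousLinearMap.lsmul ℝ ℝ) hf hu.locallyIntegrable

theorem cv_fderiv {f u : ℂ → ℝ} (hf : ContDiff ℝ ∞ f) (hc : HasCompactSupport f)
    (hu : Continuous u) (x v : ℂ) :
    fderiv ℝ (cv f u) x v = cv (fun t => fderiv ℝ f t v) u x := by
  have h := (hc.hasFDerivAt_convolution_left (ContinuousLinearMap.lsmul ℝ ℝ)
    (hf.of_le (by exact_mod_cast le_top)) (hu.locallyIntegrable (μ := volume)) x).fderiv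
  rw [cv_eq] at h
  rw [h]
  have hex := (hc.fderiv ℝ).convolutionExists_left ((ContinuousLinearMap.lsmul ℝ ℝ).precompL ℂ)
    (hf.continuous_fderiv (by simp)) (hu.locallyIntegrable (μ := volume)) x
  rw [convolution_def, ContinuousLinearMap.integral_apply hex]
  rfl

theorem contDiff_dir {f : ℂ → ℝ} (hf : ContDiff ℝ ∞ f) (v : ℂ) :
    ContDiff ℝ ∞ (fun t => fderiv ℝ f t v) :=
  (hf.fderiv_right (m := ∞) (by simp)).clm_apply contDiff_const

theorem contDiff_d1 {f : ℂ → ℝ} (hf : ContDiff ℝ ∞ f) : ContDiff ℝ ∞ (d1 f) := contDiff_dir hf 1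

theorem contDiff_d2 {f : ℂ → ℝ} (hf : ContDiff ℝ ∞ f) : ContDiff ℝ ∞ (d2 f) :=
  contDiff_dir hf Complex.I

theorem hcs_d1 {f : ℂ → ℝ} (hc : HasCompactSupport f) : HasCompactSupport (d1 f) :=
  hc.fderiv_apply ℝ 1

theorem hcs_d2 {f : ℂ → ℝ} (hc : HasCompactSupport f) : HasCompactSupport (d2 f) :=
  hc.fderiv_apply ℝ Complex.I

theorem d1_cv {f u : ℂ → ℝ} (hf : ContDiff ℝ ∞ f) (hc : HasCompactSupport f)
    (hu : Continuous u) : d1 (cv f u) = cv (d1 f) u := by
  funext x
  exact cv_fderiv hf hc hu x 1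

theorem d2_cv {f u : ℂ → ℝ} (hf : ContDiff ℝ ∞ f) (hc : HasCompactSupport f)
    (hu : Continuous u) : d2 (cv f u) = cv (d2 f) u := by
  funext x
  exact cv_fderiv hf hc hu x Complex.I

theorem lin_hess_cv {f u : ℂ → ℝ} (hf : ContDiff ℝ ∞ f) (hc : HasCompactSupport f)
    (hu : Continuous u) (q x : ℂ) :
    lin q (hess (cv f u) x) = cv (fun t => lin q (hess f t)) u x := by
  have h11 : d1 (d1 (cv f u)) x = cv (d1 (d1 f)) u x := by
    rw [d1_cv hf hc hu, d1_cv (contDiff_d1 hf) (hcs_d1 hc) hu]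
  have h12 : d2 (d1 (cv f u)) x = cv (d2 (d1 f)) u x := by
    rw [d1_cv hf hc hu, d2_cv (contDiff_d1 hf) (hcs_d1 hc) hu]
  have h22 : d2 (d2 (cv f u)) x = cv (d2 (d2 f)) u x := by
    rw [d2_cv hf hc hu, d2_cv (contDiff_d2 hf) (hcs_d2 hc) hu]
  have i11 := cv_integrable (contDiff_d1 (contDiff_d1 hf)).continuous (hcs_d1 (hcs_d1 hc)) hu x
  have i12 := cv_integrable (contDiff_d2 (contDiff_d1 hf)).continuous (hcs_d2 (hcs_d1 hc)) hu x
  have i22 := cv_integrable (contDiff_d2 (contDiff_d2 hf)).continuous (hcs_d2 (hcs_d2 hc)) hu x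
  unfold lin hess
  simp only
  rw [h11, h12, h22]
  unfold cv
  have i3 : Integrable (fun t => (1 + q.im ^ 2) * (d1 (d1 f) t * u (x - t))
      - 2 * q.re * q.im * (d2 (d1 f) t * u (x - t))) := (i11.const_mul _).sub (i12.const_mul _)
  rw [← integral_const_mul, ← integral_const_mul, ← integral_const_mul,
    ← integral_sub (i11.const_mul _) (i12.const_mul _),
    ← integral_add i3 (i22.const_mul _)]
  refine integral_congr_ae (Eventually.of_forall fun t => ?_)
  simp only
  ring

/-! ### reflection -/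

theorem fderiv_refl {g : ℂ → ℝ} (hg : Differentiable ℝ g) (x y v : ℂ) :
    fderiv ℝ (fun y => g (x - y)) y v = - fderiv ℝ g (x - y) v := by
  have h1 : HasFDerivAt (fun y : ℂ => x - y) (-(ContinuousLinearMap.id ℝ ℂ)) y := by
    simpa using (hasFDerivAt_id y).const_sub x
  have h2 := ((hg (x - y)).hasFDerivAt.comp y h1).fderiv
  have h3 : (g ∘ fun y : ℂ => x - y) = fun y => g (x - y) := rfl
  rw [h3] at h2
  rw [h2]
  simp

theorem d1_refl {g : ℂ → ℝ} (hg : Differentiable ℝ g) (x : ℂ) :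
    d1 (fun y => g (x - y)) = fun y => - d1 g (x - y) := by
  funext y
  exact fderiv_refl hg x y 1

theorem d2_refl {g : ℂ → ℝ} (hg : Differentiable ℝ g) (x : ℂ) :
    d2 (fun y => g (x - y)) = fun y => - d2 g (x - y) := by
  funext y
  exact fderiv_refl hg x y Complex.I

theorem d1_neg_refl {g : ℂ → ℝ} (hg : Differentiable ℝ g) (x : ℂ) :
    d1 (fun y => - g (x - y)) = fun y => d1 g (x - y) := by
  funext y
  have h := congrFun (d1_refl hg.neg x) y
  have h2 : d1 (-g) (x - y) = - d1 g (x - y) := by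
    unfold d1
    rw [fderiv_neg]
    simp
  simp only [Pi.neg_apply] at h
  rw [h, h2, neg_neg]

theorem d2_neg_refl {g : ℂ → ℝ} (hg : Differentiable ℝ g) (x : ℂ) :
    d2 (fun y => - g (x - y)) = fun y => d2 g (x - y) := by
  funext y
  have h := congrFun (d2_refl hg.neg x) y
  have h2 : d2 (-g) (x - y) = - d2 g (x - y) := by
    unfold d2
    rw [fderiv_neg]
    simp
  simp only [Pi.neg_apply] at h
  rw [h, h2, neg_neg]

theorem hess_refl {g : ℂ → ℝ} (hg : ContDiff ℝ ∞ g) (x y : ℂ) :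
    hess (fun y => g (x - y)) y = hess g (x - y) := by
  have e0 := hg.differentiable (by simp)
  have e1 := (contDiff_d1 hg).differentiable (by simp)
  have e2 := (contDiff_d2 hg).differentiable (by simp)
  unfold hess
  rw [d1_refl e0, d2_refl e0, d1_neg_refl e1, d2_neg_refl e1, d2_neg_refl e2]

/-! ### gradients -/

theorem fderiv_le {w : ℂ → ℝ} {c : ℝ} (hc : 0 ≤ c) (h : Semi w c) {x : ℂ}
    (hd : DifferentiableAt ℝ w x) (v : ℂ) :
    fderiv ℝ w x v ≤ w (x + v) - w x + c / 2 * ‖v‖ ^ 2 := by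
  have h1 : HasDerivAt (fun t : ℝ => w (x + t • v)) (fderiv ℝ w x v) 0 := by
    have h2 : HasDerivAt (fun t : ℝ => x + t • v) v 0 := by
      simpa using ((hasDerivAt_id (0 : ℝ)).smul_const v).const_add x
    have h3 : HasFDerivAt w (fderiv ℝ w x) (x + (0 : ℝ) • v) := by
      simpa using hd.hasFDerivAt
    exact h3.comp_hasDerivAt (0 : ℝ) h2
  have h4 := h1.tendsto_slope_zero_right
  refine le_of_tendsto h4 ?_
  have h5 : Ioo (0 : ℝ) 1 ∈ 𝓝[>] (0 : ℝ) := Ioo_mem_nhdsGT one_pos
  filter_upwards [h5] with t ht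
  obtain ⟨ht0, ht1⟩ := ht
  have h6 := h x (x + v) (1 - t) t (by linarith) ht0.le (by ring)
  have e1 : (1 - t) • x + t • (x + v) = x + t • v := by
    rw [sub_smul, one_smul, smul_add]; abel
  have e2 : x - (x + v) = -v := by abel
  rw [e1, e2, norm_neg] at h6
  simp only [zero_add, zero_smul, add_zero, smul_eq_mul]
  rw [inv_mul_le_iff₀ ht0]
  have h7 : 0 ≤ c / 2 * ‖v‖ ^ 2 := by positivity
  nlinarith [mul_nonneg (mul_nonneg ht0.le ht0.le) h7]

theorem fderiv_limsup {un : ℕ → ℂ → ℝ} {u : ℂ → ℝ} {c : ℝ} (hc : 0 ≤ c)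
    (h : ∀ n, Semi (un n) c) {x : ℂ} (hd : ∀ n, DifferentiableAt ℝ (un n) x)
    (hlim : ∀ y, Tendsto (fun n => un n y) atTop (𝓝 (u y))) (hdu : DifferentiableAt ℝ u x)
    (v : ℂ) {ε : ℝ} (hε : 0 < ε) : ∀ᶠ n in atTop, fderiv ℝ (un n) x v < fderiv ℝ u x v + ε := by
  have h1 : HasDerivAt (fun t : ℝ => u (x + t • v)) (fderiv ℝ u x v) 0 := by
    have h2 : HasDerivAt (fun t : ℝ => x + t • v) v 0 := by
      simpa using ((hasDerivAt_id (0 : ℝ)).smul_const v).const_add x
    have h3 : HasFDerivAt u (fderiv ℝ u x) (x + (0 : ℝ) • v) := by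
      simpa using hdu.hasFDerivAt
    exact h3.comp_hasDerivAt (0 : ℝ) h2
  have h4 := h1.tendsto_slope_zero_right
  have h5 : Tendsto (fun t : ℝ => c / 2 * t * ‖v‖ ^ 2) (𝓝[>] 0) (𝓝 0) := by
    have : Continuous (fun t : ℝ => c / 2 * t * ‖v‖ ^ 2) := by fun_prop
    have h6 := (this.tendsto 0).mono_left (nhdsWithin_le_nhds (s := Ioi (0 : ℝ)))
    simpa using h6
  have h6 := h4.add h5
  rw [add_zero] at h6
  have h7 := h6.eventually (gt_mem_nhds (show fderiv ℝ u x v < fderiv ℝ u x v + ε by linarith))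
  obtain ⟨t, ht, ht0⟩ := (h7.and self_mem_nhdsWithin).exists
  have ht0' : 0 < t := ht0
  simp only [zero_add, zero_smul, add_zero, smul_eq_mul] at ht
  have h8 : Tendsto (fun n => t⁻¹ * (un n (x + t • v) - un n x) + c / 2 * t * ‖v‖ ^ 2) atTop
      (𝓝 (t⁻¹ * (u (x + t • v) - u x) + c / 2 * t * ‖v‖ ^ 2)) :=
    (((hlim _).sub (hlim _)).const_mul _).add_const _
  filter_upwards [h8.eventually (gt_mem_nhds ht)] with n hn
  refine lt_of_le_of_lt ?_ hn
  have h9 := fderiv_le hc (h n) (hd n) (t • v)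
  rw [map_smul, norm_smul, Real.norm_eq_abs, abs_of_pos ht0', smul_eq_mul] at h9
  have h10 : fderiv ℝ (un n) x v = t⁻¹ * (t * fderiv ℝ (un n) x v) := by
    field_simp
  rw [h10]
  have h11 : t⁻¹ * (un n (x + t • v) - un n x) + c / 2 * t * ‖v‖ ^ 2
      = t⁻¹ * (un n (x + t • v) - un n x + c / 2 * (t * ‖v‖) ^ 2) := by
    field_simp
  rw [h11]
  exact mul_le_mul_of_nonneg_left h9 (by positivity)

theorem fderiv_tendsto {un : ℕ → ℂ → ℝ} {u : ℂ → ℝ} {c : ℝ} (hc : 0 ≤ c)
    (h : ∀ n, Semi (un n) c) {x : ℂ} (hd : ∀ n, DifferentiableAt ℝ (un n) x)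
    (hlim : ∀ y, Tendsto (fun n => un n y) atTop (𝓝 (u y))) (hdu : DifferentiableAt ℝ u x)
    (v : ℂ) : Tendsto (fun n => fderiv ℝ (un n) x v) atTop (𝓝 (fderiv ℝ u x v)) := by
  rw [Metric.tendsto_nhds]
  intro ε hε
  filter_upwards [fderiv_limsup hc h hd hlim hdu v hε, fderiv_limsup hc h hd hlim hdu (-v) hε]
    with n h1 h2
  rw [map_neg, map_neg] at h2
  rw [Real.dist_eq, abs_lt]
  constructor <;> linarith

theorem grad_eq (g : ℂ → ℝ) (s : ℂ) : grad g s = (d1 g s : ℂ) + (d2 g s : ℂ) * Complex.I := by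
  apply Complex.ext <;> simp [grad]

/-! ### the mollifier -/

/-- the bump functions -/
def bump (n : ℕ) : ContDiffBump (0 : ℂ) where
  rIn := 1 / ((n : ℝ) + 1)
  rOut := 2 / ((n : ℝ) + 1)
  rIn_pos := by positivity
  rIn_lt_rOut := by
    apply div_lt_div_of_pos_right _ (by positivity)
    norm_num

/-- the normalised bump function -/
def bf (n : ℕ) : ℂ → ℝ := (bump n).normed volume

theorem bf_contDiff (n : ℕ) : ContDiff ℝ ∞ (bf n) := (bump n).contDiff_normed

theorem bf_hcs (n : ℕ) : HasCompactSupport (bf n) := (bump n).hasCompactSupport_normed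

theorem bf_nonneg (n : ℕ) (x : ℂ) : 0 ≤ bf n x := (bump n).nonneg_normed x

theorem bf_integral (n : ℕ) : ∫ x, bf n x = 1 := (bump n).integral_normed

theorem bump_rOut : Tendsto (fun n => (bump n).rOut) atTop (𝓝 0) := by
  show Tendsto (fun n : ℕ => 2 / ((n : ℝ) + 1)) atTop (𝓝 0)
  exact Tendsto.div_atTop tendsto_const_nhds
    (tendsto_atTop_add_const_right _ _ tendsto_natCast_atTop_atTop)

theorem semi_cv {u : ℂ → ℝ} {c : ℝ} (h : Semi u c) (n : ℕ) : Semi (cv (bf n) u) c := by
  intro x y a b ha hb hab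
  have hu := h.continuous
  have hi := fun z => cv_integrable (bf_contDiff n).continuous (bf_hcs n) hu z
  have hb' : Integrable (bf n) := (bf_contDiff n).continuous.integrable_of_hasCompactSupport
    (bf_hcs n)
  have i3 : Integrable (fun t => a * (bf n t * u (x - t)) + b * (bf n t * u (y - t))) :=
    ((hi x).const_mul a).add ((hi y).const_mul b)
  have h1 : a * cv (bf n) u x + b * cv (bf n) u y + c / 2 * (a * b) * ‖x - y‖ ^ 2 =
      ∫ t, (a * (bf n t * u (x - t)) + b * (bf n t * u (y - t)) +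
        (c / 2 * (a * b) * ‖x - y‖ ^ 2) * bf n t) := by
    rw [integral_add i3 (hb'.const_mul _),
      integral_add ((hi x).const_mul a) ((hi y).const_mul b), integral_const_mul,
      integral_const_mul, integral_const_mul, bf_integral, mul_one]
    rfl
  rw [h1]
  refine integral_mono (hi _) (i3.add (hb'.const_mul _)) ?_
  intro t
  have h2 := h (x - t) (y - t) a b ha hb hab
  have e1 : a • (x - t) + b • (y - t) = a • x + b • y - t := by
    rw [smul_sub, smul_sub]
    have : t = a • t + b • t := by rw [← add_smul, hab, one_smul]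
    nth_rw 3 [this]
    abel
  have e2 : x - t - (y - t) = x - y := by abel
  rw [e1, e2] at h2
  have h3 := mul_le_mul_of_nonneg_left h2 (bf_nonneg n t)
  simp only
  nlinarith [h3]

end Weak2

open Weak2 in
theorem WEAK2_holds : Weak2Statement := by
  intro u c hc hu
  have hs := semi_iff.1 hu
  have hcont := hs.continuous
  refine ⟨fun n => cv (bf n) u, fun n => cv_contDiff (bf_contDiff n) (bf_hcs n) hcont,
    fun n => semi_iff.2 (semi_cv hs n), ?_, ?_⟩
  · intro x hx
    have hlim : ∀ y, Tendsto (fun n => cv (bf n) u y) atTop (𝓝 (u y)) := by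
      intro y
      have h := ContDiffBump.convolution_tendsto_right_of_continuous (μ := volume) bump_rOut
        hcont y
      refine h.congr fun n => ?_
      exact congrFun (cv_eq _ _) y
    have hd : ∀ n, DifferentiableAt ℝ (cv (bf n) u) x := fun n =>
      (cv_contDiff (bf_contDiff n) (bf_hcs n) hcont).differentiable (by simp) x
    have hv := fderiv_tendsto hc (fun n => semi_cv hs n) hd hlim hx
    simp only [grad_eq]
    exact ((Complex.continuous_ofReal.tendsto _).comp (hv 1)).add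
      (((Complex.continuous_ofReal.tendsto _).comp (hv Complex.I)).mul_const _)
  · intro q F K hF hK hψ
    have hloc : LocallyIntegrable F volume :=
      (locallyIntegrable_const K).mono hF.aestronglyMeasurable
        (Eventually.of_forall fun x => by
          rw [Real.norm_eq_abs, Real.norm_eq_abs]
          exact (hK x).trans (le_abs_self K))
    have hae := ContDiffBump.ae_convolution_tendsto_right_of_locallyIntegrable (μ := volume)
      (K := 2) bump_rOut (Eventually.of_forall fun n => by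
        show 2 / ((n : ℝ) + 1) ≤ 2 * (1 / ((n : ℝ) + 1))
        apply le_of_eq; ring) hloc
    filter_upwards [hae] with x hx η hη
    filter_upwards [hx.eventually (lt_mem_nhds (show F x - η < F x by linarith))] with n hn
    refine hn.le.trans ?_
    show (bf n ⋆[ContinuousLinearMap.lsmul ℝ ℝ, volume] F) x ≤ _
    rw [congrFun (cv_eq (bf n) F) x, lin_hess_cv (bf_contDiff n) (bf_hcs n) hcont]
    have h1 := hψ (fun y => bf n (x - y))
      ((bf_contDiff n).comp (contDiff_const.sub contDiff_id))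
      ((bf_hcs n).comp_homeomorph (Homeomorph.subLeft x)) (fun y => bf_nonneg n _)
    have e1 : ∫ y, bf n (x - y) * F y = cv (bf n) F x := by
      rw [← integral_sub_left_eq_self _ volume x]
      unfold cv
      simp only [sub_sub_cancel]
    have e2 : ∫ y, u y * lin q (hess (fun y => bf n (x - y)) y)
        = cv (fun t => lin q (hess (bf n) t)) u x := by
      rw [← integral_sub_left_eq_self _ volume x]
      unfold cv
      refine integral_congr_ae (Eventually.of_forall fun t => ?_)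
      simp only
      rw [hess_refl (bf_contDiff n), sub_sub_cancel, mul_comm]
    rw [e1, e2] at h1
    exact h1

end Cyl
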