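import Pool.Agent.Cyl.Base
import Pool.Agent.Cyl.Stmt3

/-!
# WEAK3: the weak inequality for semiconvex functions, from WEAK1 and WEAK2
-/

open MeasureTheory Set Filter Topology Metric
open scoped ContDiff

noncomputable section

namespace Cyl

namespace W3

/-! ## calculus -/

theorem decomp (v : ℂ) : v = v.re • (1 : ℂ) + v.im • Complex.I := by
  apply Complex.ext <;> simp

theorem fderiv_apply (g : ℂ → ℝ) (s v : ℂ) : fderiv ℝ g s v = v.re * d1 g s + v.im * d2 g s := by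
  conv_lhs => rw [decomp v]
  rw [map_add, map_smul, map_smul]
  rfl

theorem fderiv_eq_ip (g : ℂ → ℝ) (s v : ℂ) : fderiv ℝ g s v = ip (grad g s) v := by
  rw [fderiv_apply]
  unfold ip grad
  ring

theorem contDiff_d1 {g : ℂ → ℝ} (hg : ContDiff ℝ ∞ g) : ContDiff ℝ ∞ (d1 g) := by
  unfold d1
  exact (hg.fderiv_right (m := ∞) (by simp)).clm_apply contDiff_const

theorem contDiff_d2 {g : ℂ → ℝ} (hg : ContDiff ℝ ∞ g) : ContDiff ℝ ∞ (d2 g) := by
  unfold d2
  exact (hg.fderiv_right (m := ∞) (by simp)).clm_apply contDiff_const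

theorem d_symm {g : ℂ → ℝ} (hg : ContDiff ℝ ∞ g) (s : ℂ) : d1 (d2 g) s = d2 (d1 g) s := by
  have hdiff : Differentiable ℝ (fderiv ℝ g) :=
    (hg.fderiv_right (m := ∞) (by simp)).differentiable (by simp)
  have h1 : d1 (d2 g) s = fderiv ℝ (fderiv ℝ g) s 1 Complex.I := by
    show fderiv ℝ (fun y => fderiv ℝ g y Complex.I) s 1 = _
    rw [fderiv_clm_apply (hdiff s) (differentiableAt_const _)]
    simp
  have h2 : d2 (d1 g) s = fderiv ℝ (fderiv ℝ g) s Complex.I 1 := by
    show fderiv ℝ (fun y => fderiv ℝ g y 1) s Complex.I = _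
    rw [fderiv_clm_apply (hdiff s) (differentiableAt_const _)]
    simp
  rw [h1, h2]
  exact second_derivative_symmetric (fun y => (hg.differentiable (by simp) y).hasFDerivAt)
    (hdiff s).hasFDerivAt _ _

theorem contDiff_grad {g : ℂ → ℝ} (hg : ContDiff ℝ ∞ g) : ContDiff ℝ ∞ (grad g) := by
  have h : grad g = fun s => (d1 g s) • (1 : ℂ) + (d2 g s) • Complex.I := by
    funext s
    exact decomp (grad g s)
  rw [h]
  exact ((contDiff_d1 hg).smul contDiff_const).add ((contDiff_d2 hg).smul contDiff_const)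

/-- divergence of `T(∇g)` -/
theorem div_T {g : ℂ → ℝ} (hg : ContDiff ℝ ∞ g) (s : ℂ) :
    d1 (fun y => (T (grad g y)).re) s + d2 (fun y => (T (grad g y)).im) s = mc g s := by
  have h1 : HasFDerivAt (d1 g) (fderiv ℝ (d1 g) s) s :=
    ((contDiff_d1 hg).differentiable (by simp) s).hasFDerivAt
  have h2 : HasFDerivAt (d2 g) (fderiv ℝ (d2 g) s) s :=
    ((contDiff_d2 hg).differentiable (by simp) s).hasFDerivAt
  obtain ⟨w, hw⟩ : ∃ w, w = W (grad g s) := ⟨_, rfl⟩
  have hw0 : 0 < w := by rw [hw]; exact W_pos _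
  have hw2 : w ^ 2 = 1 + d1 g s ^ 2 + d2 g s ^ 2 := by rw [hw, W_sq]; rfl
  have hq : HasFDerivAt (fun y => 1 + d1 g y ^ 2 + d2 g y ^ 2)
      ((2 * d1 g s) • fderiv ℝ (d1 g) s + (2 * d2 g s) • fderiv ℝ (d2 g) s) s := by
    have h3 := ((h1.pow 2).const_add 1).add (h2.pow 2)
    refine h3.congr_fderiv ?_
    ext v
    simp
  have hW : HasFDerivAt (fun y => W (grad g y))
      ((1 / w) • (d1 g s • fderiv ℝ (d1 g) s + d2 g s • fderiv ℝ (d2 g) s)) s := by
    have h3 := hq.sqrt (by positivity)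
    have e : (fun y => W (grad g y)) = fun y => Real.sqrt (1 + d1 g y ^ 2 + d2 g y ^ 2) := rfl
    rw [e]
    refine h3.congr_fderiv ?_
    have e2 : Real.sqrt (1 + d1 g s ^ 2 + d2 g s ^ 2) = w := by rw [hw]; rfl
    rw [e2]
    ext v
    simp
    field_simp
  have hWi : HasFDerivAt (fun y => (W (grad g y))⁻¹)
      ((-(w ^ 2)⁻¹) • ((1 / w) • (d1 g s • fderiv ℝ (d1 g) s + d2 g s • fderiv ℝ (d2 g) s))) s := by
    have h3 := (hasDerivAt_inv (W_pos (grad g s)).ne').comp_hasFDerivAt s hW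
    rw [← hw] at h3
    exact h3
  have hA : HasFDerivAt (fun y => (T (grad g y)).re)
      (d1 g s • ((-(w ^ 2)⁻¹) • ((1 / w) • (d1 g s • fderiv ℝ (d1 g) s
        + d2 g s • fderiv ℝ (d2 g) s))) + w⁻¹ • fderiv ℝ (d1 g) s) s := by
    have e : (fun y => (T (grad g y)).re) = fun y => d1 g y * (W (grad g y))⁻¹ := by
      funext y
      exact div_eq_mul_inv _ _
    rw [e]
    have h3 := h1.mul hWi
    rw [← hw] at h3
    exact h3
  have hB : HasFDerivAt (fun y => (T (grad g y)).im)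
      (d2 g s • ((-(w ^ 2)⁻¹) • ((1 / w) • (d1 g s • fderiv ℝ (d1 g) s
        + d2 g s • fderiv ℝ (d2 g) s))) + w⁻¹ • fderiv ℝ (d2 g) s) s := by
    have e : (fun y => (T (grad g y)).im) = fun y => d2 g y * (W (grad g y))⁻¹ := by
      funext y
      exact div_eq_mul_inv _ _
    rw [e]
    have h3 := h2.mul hWi
    rw [← hw] at h3
    exact h3
  have e1 : d1 (fun y => (T (grad g y)).re) s =
      d1 g s * (-(w ^ 2)⁻¹ * ((1 / w) * (d1 g s * d1 (d1 g) s
        + d2 g s * d1 (d2 g) s))) + w⁻¹ * d1 (d1 g) s := by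
    show fderiv ℝ (fun y => (T (grad g y)).re) s 1 = _
    rw [hA.fderiv]
    rfl
  have e2 : d2 (fun y => (T (grad g y)).im) s =
      d2 g s * (-(w ^ 2)⁻¹ * ((1 / w) * (d1 g s * d2 (d1 g) s
        + d2 g s * d2 (d2 g) s))) + w⁻¹ * d2 (d2 g) s := by
    show fderiv ℝ (fun y => (T (grad g y)).im) s Complex.I = _
    rw [hB.fderiv]
    rfl
  rw [e1, e2, d_symm hg]
  unfold mc curv
  rw [← hw]
  simp only [grad, hess]
  have hw' : w ≠ 0 := hw0.ne'
  field_simp
  rw [show (w : ℝ) ^ 2 = 1 + d1 g s ^ 2 + d2 g s ^ 2 from hw2]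
  ring

/-- the Hessian of a smooth semiconvex function -/
theorem hess_nonneg {g : ℂ → ℝ} (hg : ContDiff ℝ ∞ g) {c : ℝ}
    (hc : ConvexOn ℝ univ (fun x => g x + c / 2 * ‖x‖ ^ 2)) (x v : ℂ) :
    0 ≤ (hess g x).app v + c * ‖v‖ ^ 2 := by
  obtain ⟨φ, hφ⟩ : ∃ φ : ℝ → ℝ, φ = fun t => g (x + t • v) + c / 2 * ‖x + t • v‖ ^ 2 := ⟨_, rfl⟩
  obtain ⟨φ', hφ'⟩ : ∃ φ' : ℝ → ℝ, φ' = fun t => (v.re * d1 g (x + t • v) + v.im * d2 g (x + t • v))
    + c * (ip x v + t * ‖v‖ ^ 2) := ⟨_, rfl⟩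
  have hφc : ConvexOn ℝ univ φ := by
    refine ⟨convex_univ, fun s _ t _ a b ha hb hab => ?_⟩
    have h := hc.2 (mem_univ (x + s • v)) (mem_univ (x + t • v)) ha hb hab
    have e : a • (x + s • v) + b • (x + t • v) = x + (a • s + b • t) • v := by
      have hb' : b = 1 - a := by linarith
      subst hb'
      apply Complex.ext <;> simp <;> ring
    simp only [e] at h
    rw [hφ]
    exact h
  have hline : ∀ t : ℝ, HasDerivAt (fun t : ℝ => x + t • v) v t := by
    intro t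
    have h := ((hasDerivAt_id t).smul_const v).const_add x
    simpa using h
  have hd : ∀ t, HasDerivAt φ (φ' t) t := by
    intro t
    have h1 : HasDerivAt (fun t : ℝ => g (x + t • v)) (fderiv ℝ g (x + t • v) v) t :=
      (hg.differentiable (by simp) _).hasFDerivAt.comp_hasDerivAt t (hline t)
    have h2 : HasDerivAt (fun t : ℝ => ‖x + t • v‖ ^ 2) (2 * ip x v + 2 * t * ‖v‖ ^ 2) t := by
      have e : (fun t : ℝ => ‖x + t • v‖ ^ 2) = fun t : ℝ => ‖x‖ ^ 2 + 2 * (t * ip x v) + t ^ 2 * ‖v‖ ^ 2 := by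
        funext t
        rw [norm_add_sq', ip_smul_right, norm_smul, mul_pow, Real.norm_eq_abs, sq_abs]
      rw [e]
      have h3 := ((((hasDerivAt_id t).mul_const (ip x v)).const_mul 2).const_add (‖x‖ ^ 2)).add
        ((hasDerivAt_pow 2 t).mul_const (‖v‖ ^ 2))
      refine h3.congr_deriv ?_
      simp
    rw [hφ, hφ']
    refine (h1.add (h2.const_mul (c / 2))).congr_deriv ?_
    rw [fderiv_apply]
    ring
  have hmono : Monotone φ' := by
    have h := hφc.monotoneOn_deriv (fun t _ => (hd t).differentiableAt)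
    have e : deriv φ = φ' := funext fun t => (hd t).deriv
    rw [e] at h
    exact monotoneOn_univ.1 h
  have hd2 : HasDerivAt φ' ((hess g x).app v + c * ‖v‖ ^ 2) 0 := by
    have h1 : HasDerivAt (fun t : ℝ => d1 g (x + t • v)) (fderiv ℝ (d1 g) x v) 0 := by
      have h := ((contDiff_d1 hg).differentiable (by simp) (x + (0 : ℝ) • v)).hasFDerivAt.comp_hasDerivAt
        (0 : ℝ) (hline 0)
      have e0 : x + (0 : ℝ) • v = x := by simp
      rw [e0] at h
      exact h
    have h2 : HasDerivAt (fun t : ℝ => d2 g (x + t • v)) (fderiv ℝ (d2 g) x v) 0 := by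
      have h := ((contDiff_d2 hg).differentiable (by simp) (x + (0 : ℝ) • v)).hasFDerivAt.comp_hasDerivAt
        (0 : ℝ) (hline 0)
      have e0 : x + (0 : ℝ) • v = x := by simp
      rw [e0] at h
      exact h
    rw [hφ']
    have h3 := ((h1.const_mul v.re).add (h2.const_mul v.im)).add
      ((((hasDerivAt_id (0 : ℝ)).mul_const (‖v‖ ^ 2)).const_add (ip x v)).const_mul c)
    refine h3.congr_deriv ?_
    rw [fderiv_apply, fderiv_apply, d_symm hg]
    unfold Q2.app hess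
    simp only
    ring
  have h := hmono.deriv_nonneg (x := (0 : ℝ))
  rwa [hd2.deriv] at h

/-! ## quadratic forms -/

theorem lin_eq (p : ℂ) (B : Q2) : lin p B = B.app 1 + B.app Complex.I + B.app (Complex.I * p) := by
  unfold lin Q2.app
  simp
  ring

/-- translation of a form by a multiple of the identity -/
def sh (B : Q2) (c : ℝ) : Q2 := ⟨B.a + c, B.b, B.c + c⟩

theorem sh_app (B : Q2) (c : ℝ) (v : ℂ) : (sh B c).app v = B.app v + c * ‖v‖ ^ 2 := by
  rw [← ip_self]
  unfold sh Q2.app ip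
  simp only
  ring

theorem lin_sh (p : ℂ) (B : Q2) (c : ℝ) : lin p (sh B c) = lin p B + c * (2 + ‖p‖ ^ 2) := by
  rw [← ip_self]
  unfold lin sh ip
  simp only
  ring

/-- trace bound for nonnegative forms -/
theorem app_le_trace {B : Q2} (hB : ∀ v, 0 ≤ B.app v) (v : ℂ) :
    B.app v ≤ ‖v‖ ^ 2 * (B.a + B.c) := by
  have h := hB (Complex.I * v)
  rw [← ip_self]
  unfold Q2.app ip at *
  simp only [Complex.mul_re, Complex.mul_im, Complex.I_re, Complex.I_im] at h
  nlinarith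

theorem a_nonneg {B : Q2} (hB : ∀ v, 0 ≤ B.app v) : 0 ≤ B.a := by
  have h := hB 1
  unfold Q2.app at h
  simpa using h

theorem c_nonneg {B : Q2} (hB : ∀ v, 0 ≤ B.app v) : 0 ≤ B.c := by
  have h := hB Complex.I
  unfold Q2.app at h
  simpa using h

/-- Peter-Paul inequality for nonnegative forms -/
theorem app_peter {B : Q2} (hB : ∀ v, 0 ≤ B.app v) (v w : ℂ) (e : ℝ) (he : 0 < e) :
    B.app v ≤ (1 + e) * B.app w + (1 + 1 / e) * B.app (w - v) := by
  -- 0 ≤ B (e w - (w - v) ... )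
  have h := hB (((e : ℝ) : ℂ) * w + (w - v))
  have key : e * ((1 + e) * B.app w + (1 + 1 / e) * B.app (w - v) - B.app v) =
      B.app (((e : ℝ) : ℂ) * w + (w - v)) := by
    unfold Q2.app
    simp only [Complex.add_re, Complex.add_im, Complex.sub_re, Complex.sub_im, Complex.mul_re,
      Complex.mul_im, Complex.ofReal_re, Complex.ofReal_im]
    field_simp
    ring
  have h2 : 0 ≤ e * ((1 + e) * B.app w + (1 + 1 / e) * B.app (w - v) - B.app v) := by
    rw [key]; exact h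
  have h3 := nonneg_of_mul_nonneg_right h2 he
  linarith

/-- comparison of `lin p` and `lin q` for nonnegative forms -/
theorem lin_compare {B : Q2} (hB : ∀ v, 0 ≤ B.app v) (p q : ℂ) (e : ℝ) (he : 0 < e)
    (hpq : ‖p - q‖ ^ 2 ≤ e ^ 2 / (1 + e)) : lin q B ≤ (1 + e) * lin p B := by
  rw [lin_eq, lin_eq]
  have h1 := app_peter hB (Complex.I * q) (Complex.I * p) e he
  have h2 := app_le_trace hB (Complex.I * p - Complex.I * q)
  have h3 : ‖Complex.I * p - Complex.I * q‖ = ‖p - q‖ := by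
    rw [← mul_sub, norm_mul, Complex.norm_I, one_mul]
  rw [h3] at h2
  have ha := a_nonneg hB
  have hc := c_nonneg hB
  have e1 : B.app 1 = B.a := by unfold Q2.app; simp
  have e2 : B.app Complex.I = B.c := by unfold Q2.app; simp
  rw [e1, e2]
  have h4 : (1 + 1 / e) * B.app (Complex.I * p - Complex.I * q) ≤ e * (B.a + B.c) := by
    calc (1 + 1 / e) * B.app (Complex.I * p - Complex.I * q)
        ≤ (1 + 1 / e) * ((e ^ 2 / (1 + e)) * (B.a + B.c)) := by
          apply mul_le_mul_of_nonneg_left _ (by positivity)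
          refine h2.trans ?_
          exact mul_le_mul_of_nonneg_right hpq (by linarith)
      _ = e * (B.a + B.c) := by
          field_simp
          ring
  nlinarith

theorem lin_nonneg {B : Q2} (hB : ∀ v, 0 ≤ B.app v) (p : ℂ) : 0 ≤ lin p B := by
  rw [lin_eq]
  have h1 := hB 1
  have h2 := hB Complex.I
  have h3 := hB (Complex.I * p)
  linarith

/-- lower bound for the curvature of semiconvex functions -/
theorem mc_lower {g : ℂ → ℝ} (hg : ContDiff ℝ ∞ g) {c : ℝ} (hc0 : 0 ≤ c)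
    (hc : ConvexOn ℝ univ (fun x => g x + c / 2 * ‖x‖ ^ 2)) (x : ℂ) : -(2 * c) ≤ mc g x := by
  have hB : ∀ v, 0 ≤ (sh (hess g x) c).app v := fun v => by
    rw [sh_app]; exact hess_nonneg hg hc x v
  have h1 := lin_nonneg hB (grad g x)
  rw [lin_sh] at h1
  show -(2 * c) ≤ lin (grad g x) (hess g x) / W (grad g x) ^ 3
  have hW := one_le_W (grad g x)
  have hW2 := W_sq' (grad g x)
  rw [le_div_iff₀ (by positivity)]
  have h2 : 2 + ‖grad g x‖ ^ 2 ≤ 2 * W (grad g x) ^ 3 := by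
    have h3 : W (grad g x) ^ 2 ≤ W (grad g x) ^ 3 := by
      apply pow_le_pow_right₀ hW (by norm_num)
    nlinarith [sq_nonneg ‖grad g x‖]
  nlinarith

/-! ## jets and second differences -/

theorem jet_grad {u : ℂ → ℝ} {x p : ℂ} {B : Q2} (hd : DifferentiableAt ℝ u x) (hj : LJ u x p B) :
    p = grad u x := by
  have key : ∀ v : ℂ, ip p v ≤ fderiv ℝ u x v := by
    intro v
    have hline : HasDerivAt (fun t : ℝ => x + t • v) v 0 := by
      have h := ((hasDerivAt_id (0 : ℝ)).smul_const v).const_add x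
      simpa using h
    have e0 : x + (0 : ℝ) • v = x := by simp
    have h1 : HasDerivAt (fun t : ℝ => u (x + t • v)) (fderiv ℝ u x v) 0 := by
      have hd' : HasFDerivAt u (fderiv ℝ u x) (x + (0 : ℝ) • v) := by rw [e0]; exact hd.hasFDerivAt
      exact hd'.comp_hasDerivAt (0 : ℝ) hline
    have h2 : HasDerivAt (fun t : ℝ => t * ip p v + t ^ 2 * (B.app v / 2 - ‖v‖ ^ 2)) (ip p v) 0 := by
      have h := ((hasDerivAt_id (0 : ℝ)).mul_const (ip p v)).add
        ((hasDerivAt_pow 2 (0 : ℝ)).mul_const (B.app v / 2 - ‖v‖ ^ 2))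
      refine h.congr_deriv ?_
      simp
    have h3 := (h1.sub h2).tendsto_slope_zero_right
    have h4 : 0 ≤ fderiv ℝ u x v - ip p v := by
      refine ge_of_tendsto h3 ?_
      obtain ⟨δ, hδ, hj1⟩ := hj 1 one_pos
      have hsmall : ∀ᶠ t : ℝ in 𝓝[>] 0, t * ‖v‖ < δ := by
        have : Tendsto (fun t : ℝ => t * ‖v‖) (𝓝[>] 0) (𝓝 (0 * ‖v‖)) :=
          ((continuous_id.mul continuous_const).tendsto 0).mono_left nhdsWithin_le_nhds
        rw [zero_mul] at this
        exact this.eventually (gt_mem_nhds hδ)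
      filter_upwards [hsmall, self_mem_nhdsWithin] with t ht ht0
      have ht0' : 0 < t := ht0
      have h5 := hj1 (t • v) (by rw [norm_smul, Real.norm_of_nonneg ht0'.le]; exact ht)
      rw [ip_smul_right, norm_smul, Real.norm_of_nonneg ht0'.le, mul_pow] at h5
      have e3 : B.app (t • v) = t ^ 2 * B.app v := by
        have := app_smul B t v
        rwa [← Complex.real_smul] at this
      rw [e3] at h5
      rw [smul_eq_mul]
      apply mul_nonneg (by positivity)
      simp only [Pi.sub_apply, zero_add, e0]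
      nlinarith
    linarith
  have h1 : ∀ v : ℂ, ip p v = ip (grad u x) v := by
    intro v
    have h2 := key v
    have h3 := key (-v)
    rw [ip_neg_right, map_neg] at h3
    rw [← fderiv_eq_ip]
    linarith
  apply Complex.ext
  · have := h1 1
    simpa [ip] using this
  · have := h1 Complex.I
    simpa [ip] using this

theorem dd_jet {u : ℂ → ℝ} {x p : ℂ} {B : Q2} (hj : LJ u x p B) (w : ℂ) (η : ℝ) (hη : 0 < η) :
    ∀ᶠ n : ℕ in atTop, B.app w - η ≤
      ((n : ℝ) + 1) ^ 2 * dd u (((((n : ℝ) + 1)⁻¹ : ℝ) : ℂ) * w) x := by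
  obtain ⟨δ, hδ, hj1⟩ := hj (η / (2 * (‖w‖ ^ 2 + 1))) (by positivity)
  obtain ⟨N, hN⟩ := exists_nat_gt (‖w‖ / δ)
  refine eventually_atTop.2 ⟨N, fun n hn => ?_⟩
  have hn0 : (0 : ℝ) < (n : ℝ) + 1 := by positivity
  obtain ⟨v, hv⟩ : ∃ v, v = ((((n : ℝ) + 1)⁻¹ : ℝ) : ℂ) * w := ⟨_, rfl⟩
  have hnv : ‖v‖ = ((n : ℝ) + 1)⁻¹ * ‖w‖ := by
    rw [hv, norm_mul, Complex.norm_real, Real.norm_of_nonneg (by positivity)]
  have hvδ : ‖v‖ < δ := by
    rw [hnv, inv_mul_lt_iff₀ hn0]
    have h1 : ‖w‖ / δ < (n : ℝ) + 1 := by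
      have : (N : ℝ) ≤ n := by exact_mod_cast hn
      linarith
    rw [div_lt_iff₀ hδ] at h1
    linarith
  have h1 := hj1 v hvδ
  have h2 := hj1 (-v) (by rwa [norm_neg])
  rw [ip_neg_right, app_neg, norm_neg] at h2
  have e1 : B.app v = ((n : ℝ) + 1)⁻¹ ^ 2 * B.app w := by rw [hv, app_smul]
  rw [← hv]
  have h3 : B.app v - 2 * (η / (2 * (‖w‖ ^ 2 + 1))) * ‖v‖ ^ 2 ≤ dd u v x := by
    unfold dd
    rw [sub_eq_add_neg x v]
    linarith
  have h4 : ((n : ℝ) + 1) ^ 2 * (B.app v - 2 * (η / (2 * (‖w‖ ^ 2 + 1))) * ‖v‖ ^ 2) =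
      B.app w - η * (‖w‖ ^ 2 / (‖w‖ ^ 2 + 1)) := by
    rw [e1, hnv]
    have : ‖w‖ ^ 2 + 1 ≠ 0 := by positivity
    field_simp
  have h5 : ‖w‖ ^ 2 / (‖w‖ ^ 2 + 1) ≤ 1 := by
    rw [div_le_one (by positivity)]
    linarith
  have h6 := mul_le_mul_of_nonneg_left h3 (by positivity : 0 ≤ ((n : ℝ) + 1) ^ 2)
  rw [h4] at h6
  have h7 : η * (‖w‖ ^ 2 / (‖w‖ ^ 2 + 1)) ≤ η := mul_le_of_le_one_right hη.le h5
  linarith

theorem D2n_jet {u : ℂ → ℝ} {x p : ℂ} {B : Q2} (hj : LJ u x p B) (q : ℂ) (η : ℝ) (hη : 0 < η) :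
    ∀ᶠ n : ℕ in atTop, lin q B - η ≤ D2n u q n x := by
  filter_upwards [dd_jet hj 1 (η / 3) (by positivity), dd_jet hj Complex.I (η / 3) (by positivity),
    dd_jet hj (Complex.I * q) (η / 3) (by positivity)] with n h1 h2 h3
  rw [mul_one] at h1
  unfold D2n
  rw [lin_eq]
  linarith

theorem dd_lower {u : ℂ → ℝ} {c : ℝ}
    (hc : ConvexOn ℝ univ (fun x => u x + c / 2 * ‖x‖ ^ 2)) (v x : ℂ) :
    -(c * ‖v‖ ^ 2) ≤ dd u v x := by
  have h := hc.2 (mem_univ (x + v)) (mem_univ (x - v)) (by norm_num : (0 : ℝ) ≤ 1 / 2)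
    (by norm_num : (0 : ℝ) ≤ 1 / 2) (by norm_num)
  have e : (1 / 2 : ℝ) • (x + v) + (1 / 2 : ℝ) • (x - v) = x := by
    apply Complex.ext <;> simp <;> ring
  rw [e] at h
  simp only [smul_eq_mul] at h
  rw [norm_add_sq', norm_sub_sq'] at h
  unfold dd
  linarith

theorem D2n_lower {u : ℂ → ℝ} {c : ℝ}
    (hc : ConvexOn ℝ univ (fun x => u x + c / 2 * ‖x‖ ^ 2)) (q : ℂ) (n : ℕ) (x : ℂ) :
    -(c * (2 + ‖q‖ ^ 2)) ≤ D2n u q n x := by
  have hn0 : (0 : ℝ) < (n : ℝ) + 1 := by positivity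
  have key : ∀ w : ℂ, -(c * ‖w‖ ^ 2) ≤ ((n : ℝ) + 1) ^ 2 * dd u (((((n : ℝ) + 1)⁻¹ : ℝ) : ℂ) * w) x := by
    intro w
    have h := dd_lower hc (((((n : ℝ) + 1)⁻¹ : ℝ) : ℂ) * w) x
    rw [norm_mul, Complex.norm_real, Real.norm_of_nonneg (by positivity)] at h
    have h2 := mul_le_mul_of_nonneg_left h (by positivity : 0 ≤ ((n : ℝ) + 1) ^ 2)
    refine le_trans (le_of_eq ?_) h2
    field_simp
  have h1 := key 1
  have h2 := key Complex.I
  have h3 := key (Complex.I * q)
  rw [mul_one, norm_one] at h1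
  rw [Complex.norm_I] at h2
  rw [norm_mul, Complex.norm_I, one_mul] at h3
  unfold D2n
  nlinarith

/-! ## passage to the limit at a point -/

theorem limit_step {B : Q2} {p : ℂ} {c : ℝ} (H : ℕ → Q2) (P : ℕ → ℂ) (hP : Tendsto P atTop (𝓝 p))
    (hH : ∀ n v, 0 ≤ (sh (H n) c).app v) (Q : ℕ → ℂ) (hQ : DenseRange Q)
    (h : ∀ k, ∀ η > 0, ∀ᶠ n in atTop, lin (Q k) B - η ≤ lin (Q k) (H n)) (η : ℝ) (hη : 0 < η) :
    ∀ᶠ n in atTop, lin p B - η ≤ lin (P n) (H n) := by
  obtain ⟨A, hA⟩ : ∃ A : ℂ → ℝ, A = fun q => lin q (sh B c) := ⟨_, rfl⟩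
  have hAc : Continuous A := by
    rw [hA]
    unfold lin
    have h1 : Continuous (fun p : ℂ => p.re) := Complex.continuous_re
    have h2 : Continuous (fun p : ℂ => p.im) := Complex.continuous_im
    fun_prop
  -- choice of e
  obtain ⟨e, he0, he⟩ : ∃ e : ℝ, 0 < e ∧ (|A p| + 1) * e ≤ η / 8 := by
    refine ⟨η / 8 / (|A p| + 1), by positivity, ?_⟩
    rw [mul_div_cancel₀]
    positivity
  have hr : 0 < e ^ 2 / (1 + e) / 4 := by positivity
  -- choice of q
  have hopen : IsOpen {q : ℂ | |A q - A p| < η / 8 ∧ ‖p - q‖ ^ 2 < e ^ 2 / (1 + e) / 4} := by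
    apply IsOpen.inter
    · exact isOpen_lt (continuous_abs.comp (hAc.sub continuous_const)) continuous_const
    · exact isOpen_lt ((continuous_const.sub continuous_id).norm.pow 2) continuous_const
  have hne : {q : ℂ | |A q - A p| < η / 8 ∧ ‖p - q‖ ^ 2 < e ^ 2 / (1 + e) / 4}.Nonempty := by
    refine ⟨p, ?_, ?_⟩
    · simp; positivity
    · simp; positivity
  obtain ⟨k, hk1, hk2⟩ := hQ.exists_mem_open hopen hne
  -- eventually
  have ev1 := h k (η / 8) (by positivity)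
  have ev2 : ∀ᶠ n in atTop, ‖P n - Q k‖ ^ 2 ≤ e ^ 2 / (1 + e) := by
    have ht : Tendsto (fun n => ‖P n - Q k‖ ^ 2) atTop (𝓝 (‖p - Q k‖ ^ 2)) :=
      ((hP.sub_const (Q k)).norm).pow 2
    have hlt : ‖p - Q k‖ ^ 2 < e ^ 2 / (1 + e) := by linarith
    filter_upwards [ht.eventually (gt_mem_nhds hlt)] with n hn
    exact hn.le
  have ev3 : ∀ᶠ n in atTop, c * (2 + ‖P n‖ ^ 2) < c * (2 + ‖p‖ ^ 2) + η / 8 := by
    have ht : Tendsto (fun n => c * (2 + ‖P n‖ ^ 2)) atTop (𝓝 (c * (2 + ‖p‖ ^ 2))) :=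
      ((((hP.norm).pow 2).const_add 2).const_mul c)
    exact ht.eventually (gt_mem_nhds (by linarith))
  filter_upwards [ev1, ev2, ev3] with n h1 h2 h3
  have h4 := lin_compare (hH n) (P n) (Q k) e he0 h2
  rw [lin_sh, lin_sh] at h4
  have h5 : A (Q k) - η / 8 ≤ (1 + e) * (lin (P n) (H n) + c * (2 + ‖P n‖ ^ 2)) := by
    refine le_trans ?_ h4
    rw [hA]
    simp only
    rw [lin_sh]
    linarith
  have h6 := (abs_lt.1 hk1).1
  obtain ⟨Z, hZ⟩ : ∃ Z, Z = lin (P n) (H n) + c * (2 + ‖P n‖ ^ 2) := ⟨_, rfl⟩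
  rw [← hZ] at h5
  -- (1 + e) Z ≥ A p - η / 4, Z ≥ 0
  have hZ0 : 0 ≤ Z := by
    rw [hZ, ← lin_sh]
    exact lin_nonneg (hH n) _
  have h7 : A p - η / 4 ≤ (1 + e) * Z := by linarith
  have h8 : A p - 3 * η / 8 ≤ Z := by
    by_contra hcon
    push Not at hcon
    have h9 : (1 + e) * Z ≤ Z + e * (|A p|) := by
      have : Z ≤ |A p| := by
        have := le_abs_self (A p)
        linarith
      nlinarith
    nlinarith [abs_nonneg (A p)]
  have h9 : A p = lin p B + c * (2 + ‖p‖ ^ 2) := by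
    rw [hA]
    simp only
    rw [lin_sh]
  linarith

/-! ## Lipschitz functions, integration by parts -/

theorem semiconvex_continuous {u : ℂ → ℝ} {c : ℝ}
    (hc : ConvexOn ℝ univ (fun x => u x + c / 2 * ‖x‖ ^ 2)) : Continuous u := by
  have h := hc.locallyLipschitz.continuous
  have e : u = fun x => (u x + c / 2 * ‖x‖ ^ 2) - c / 2 * ‖x‖ ^ 2 := by
    funext x; ring
  rw [e]
  exact h.sub (continuous_const.mul (continuous_norm.pow 2))

theorem differentiable_normsq : Differentiable ℝ (fun x : ℂ => ‖x‖ ^ 2) := by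
  have e : (fun x : ℂ => ‖x‖ ^ 2) = fun x : ℂ => x.re ^ 2 + x.im ^ 2 := by
    funext x
    rw [← ip_self, ip]
    ring
  rw [e]
  exact (Complex.reCLM.differentiable.pow 2).add (Complex.imCLM.differentiable.pow 2)

theorem semiconvex_ae_differentiable {u : ℂ → ℝ} {c : ℝ}
    (hc : ConvexOn ℝ univ (fun x => u x + c / 2 * ‖x‖ ^ 2)) : ∀ᵐ x, DifferentiableAt ℝ u x := by
  have h : ∀ n : ℕ, ∀ᵐ x, x ∈ ball (0 : ℂ) n →
      DifferentiableAt ℝ (fun x => u x + c / 2 * ‖x‖ ^ 2) x := by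
    intro n
    have h0 : LocallyLipschitzOn (closedBall (0 : ℂ) n) (fun x => u x + c / 2 * ‖x‖ ^ 2) :=
      hc.locallyLipschitz.locallyLipschitzOn
    obtain ⟨C, hC⟩ := h0.exists_lipschitzOnWith_of_compact (isCompact_closedBall _ _)
    have h1 := (hC.mono ball_subset_closedBall).ae_differentiableWithinAt_of_mem (μ := volume)
    filter_upwards [h1] with x hx hx'
    exact (hx hx').differentiableAt (isOpen_ball.mem_nhds hx')
  rw [← ae_all_iff] at h
  filter_upwards [h] with x hx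
  obtain ⟨n, hn⟩ := exists_nat_gt ‖x‖
  have h1 := hx n (by simpa using hn)
  have e : u = fun x => (u x + c / 2 * ‖x‖ ^ 2) - c / 2 * ‖x‖ ^ 2 := by
    funext x; ring
  rw [e]
  exact h1.sub ((differentiable_normsq x).const_mul (c / 2))

theorem integrable_mul_fderiv {V ψ : ℂ → ℝ} (hV : Continuous V) {C : NNReal}
    (hψ : LipschitzWith C ψ) (hs : HasCompactSupport ψ) (v : ℂ) :
    Integrable (fun x => V x * fderiv ℝ ψ x v) := by
  have hK : IsCompact (tsupport ψ) := hs
  have hsupp : Function.support (fun x => V x * fderiv ℝ ψ x v) ⊆ tsupport ψ := by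
    intro x hx
    by_contra hcon
    apply hx
    have : fderiv ℝ ψ x = 0 := by
      by_contra h0
      exact hcon (support_fderiv_subset ℝ h0)
    simp [this]
  rw [← integrableOn_iff_integrable_of_support_subset hsupp]
  obtain ⟨M, hM⟩ := hK.exists_bound_of_continuousOn hV.continuousOn
  refine Measure.integrableOn_of_bounded (M := M * (C * ‖v‖)) hK.measure_lt_top.ne ?_ ?_
  · exact (hV.measurable.mul (measurable_fderiv_apply_const ℝ ψ v)).aestronglyMeasurable
  · refine (ae_restrict_iff' hK.measurableSet).2 (Eventually.of_forall fun x hx => ?_)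
    rw [norm_mul]
    have h1 := hM x hx
    have h2 : ‖fderiv ℝ ψ x v‖ ≤ C * ‖v‖ :=
      ((fderiv ℝ ψ x).le_opNorm v).trans
        (mul_le_mul_of_nonneg_right (norm_fderiv_le_of_lipschitz ℝ hψ) (norm_nonneg _))
    exact mul_le_mul h1 h2 (norm_nonneg _) ((norm_nonneg _).trans h1)

theorem ibp {V ψ : ℂ → ℝ} (hV : ContDiff ℝ ∞ V) {C : NNReal}
    (hψ : LipschitzWith C ψ) (hs : HasCompactSupport ψ) (v : ℂ) :
    ∫ x, ψ x * fderiv ℝ V x v = - ∫ x, V x * fderiv ℝ ψ x v := by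
  have hK : IsCompact (tsupport ψ) := hs
  obtain ⟨R, hR0, hR⟩ : ∃ R : ℝ, 0 < R ∧ tsupport ψ ⊆ ball 0 R := by
    obtain ⟨R, hR⟩ := hK.isBounded.subset_ball (0 : ℂ)
    exact ⟨max R 1, by positivity, hR.trans (ball_subset_ball (le_max_left _ _))⟩
  let χ : ContDiffBump (0 : ℂ) := ⟨R, R + 1, hR0, by linarith⟩
  have hχ1 : ∀ x ∈ ball (0 : ℂ) R, χ x = 1 := fun x hx =>
    χ.one_of_mem_closedBall (ball_subset_closedBall hx)
  obtain ⟨f, hf⟩ : ∃ f : ℂ → ℝ, f = fun x => χ x * V x := ⟨_, rfl⟩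
  have hfs : ContDiff ℝ ∞ f := by rw [hf]; exact χ.contDiff.mul hV
  have hfc : HasCompactSupport f := by
    rw [hf]
    exact χ.hasCompactSupport.mul_right
  obtain ⟨D, hD⟩ := hfs.lipschitzWith_of_hasCompactSupport hfc (by simp)
  have hfV : ∀ x ∈ ball (0 : ℂ) R, f x = V x ∧ fderiv ℝ f x = fderiv ℝ V x := by
    intro x hx
    have he : f =ᶠ[𝓝 x] V := by
      filter_upwards [isOpen_ball.mem_nhds hx] with y hy
      rw [hf]
      simp only
      rw [hχ1 y hy, one_mul]
    exact ⟨he.eq_of_nhds, he.fderiv_eq⟩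
  have hzero : ∀ x, x ∉ ball (0 : ℂ) R → ψ x = 0 ∧ fderiv ℝ ψ x = 0 := by
    intro x hx
    have hx' : x ∉ tsupport ψ := fun h => hx (hR h)
    refine ⟨image_eq_zero_of_notMem_tsupport hx', ?_⟩
    by_contra h0
    exact hx' (support_fderiv_subset ℝ h0)
  have key := LipschitzWith.integral_lineDeriv_mul_eq (μ := (volume : Measure ℂ)) hD hψ hs v
  have e1 : ∫ x, lineDeriv ℝ f x v * ψ x = ∫ x, ψ x * fderiv ℝ V x v := by
    apply integral_congr_ae
    refine Eventually.of_forall fun x => ?_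
    simp only
    rw [((hfs.differentiable (by simp)) x).lineDeriv_eq_fderiv]
    by_cases hx : x ∈ ball (0 : ℂ) R
    · rw [(hfV x hx).2, mul_comm]
    · rw [(hzero x hx).1]; simp
  have e2 : ∫ x, lineDeriv ℝ ψ x (-v) * f x = ∫ x, -(V x * fderiv ℝ ψ x v) := by
    apply integral_congr_ae
    filter_upwards [hψ.ae_differentiableAt (μ := volume)] with x hx
    rw [hx.lineDeriv_eq_fderiv]
    by_cases hx' : x ∈ ball (0 : ℂ) R
    · rw [(hfV x hx').1, map_neg]
      ring
    · rw [(hzero x hx').2]; simp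
  rw [← e1, key, e2, integral_neg]

theorem contDiff_Tre {g : ℂ → ℝ} (hg : ContDiff ℝ ∞ g) :
    ContDiff ℝ ∞ (fun y => (T (grad g y)).re) :=
  Complex.reCLM.contDiff.comp (contDiff_T.comp (contDiff_grad hg))

theorem contDiff_Tim {g : ℂ → ℝ} (hg : ContDiff ℝ ∞ g) :
    ContDiff ℝ ∞ (fun y => (T (grad g y)).im) :=
  Complex.imCLM.contDiff.comp (contDiff_T.comp (contDiff_grad hg))

theorem continuous_mc {g : ℂ → ℝ} (hg : ContDiff ℝ ∞ g) : Continuous (mc g) := by
  have e : mc g = fun s => d1 (fun y => (T (grad g y)).re) s + d2 (fun y => (T (grad g y)).im) s := by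
    funext s
    rw [div_T hg]
  rw [e]
  exact (contDiff_d1 (contDiff_Tre hg)).continuous.add (contDiff_d2 (contDiff_Tim hg)).continuous

/-- integration by parts for the mean curvature operator -/
theorem ibp_mc {g ψ : ℂ → ℝ} (hg : ContDiff ℝ ∞ g) {C : NNReal}
    (hψ : LipschitzWith C ψ) (hs : HasCompactSupport ψ) :
    ∫ x, ψ x * mc g x = - ∫ x, ip (T (grad g x)) (grad ψ x) := by
  have h1 := ibp (contDiff_Tre hg) hψ hs 1
  have h2 := ibp (contDiff_Tim hg) hψ hs Complex.I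
  have i1 : Integrable (fun x => ψ x * fderiv ℝ (fun y => (T (grad g y)).re) x 1) :=
    (hψ.continuous.mul (contDiff_d1 (contDiff_Tre hg)).continuous).integrable_of_hasCompactSupport
      hs.mul_right
  have i2 : Integrable (fun x => ψ x * fderiv ℝ (fun y => (T (grad g y)).im) x Complex.I) :=
    (hψ.continuous.mul (contDiff_d2 (contDiff_Tim hg)).continuous).integrable_of_hasCompactSupport
      hs.mul_right
  have i3 := integrable_mul_fderiv (contDiff_Tre hg).continuous hψ hs 1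
  have i4 := integrable_mul_fderiv (contDiff_Tim hg).continuous hψ hs Complex.I
  calc ∫ x, ψ x * mc g x = ∫ x, (ψ x * fderiv ℝ (fun y => (T (grad g y)).re) x 1 +
        ψ x * fderiv ℝ (fun y => (T (grad g y)).im) x Complex.I) := by
        apply integral_congr_ae
        refine Eventually.of_forall fun x => ?_
        simp only
        rw [← div_T hg]
        unfold d1 d2
        ring
    _ = - ∫ x, ((T (grad g x)).re * fderiv ℝ ψ x 1 + (T (grad g x)).im * fderiv ℝ ψ x Complex.I) := by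
        rw [integral_add i1 i2, h1, h2, integral_add i3 i4]
        ring
    _ = - ∫ x, ip (T (grad g x)) (grad ψ x) := rfl

/-! ## the almost everywhere claim -/

/-- truncated lower limit of the discrete operators -/
def FF (u : ℂ → ℝ) (q : ℂ) (k : ℕ) (x : ℂ) : ℝ :=
  liminf (fun n => min (k : ℝ) (D2n u q n x)) atTop

theorem FF_bounds {u : ℂ → ℝ} {c : ℝ} (hc : ConvexOn ℝ univ (fun x => u x + c / 2 * ‖x‖ ^ 2))
    (q : ℂ) (k : ℕ) (x : ℂ) : ∀ n, min (k : ℝ) (-(c * (2 + ‖q‖ ^ 2))) ≤ min (k : ℝ) (D2n u q n x) ∧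
      min (k : ℝ) (D2n u q n x) ≤ k := fun n =>
  ⟨min_le_min le_rfl (D2n_lower hc q n x), min_le_left _ _⟩

theorem FF_bddBelow {u : ℂ → ℝ} {c : ℝ} (hc : ConvexOn ℝ univ (fun x => u x + c / 2 * ‖x‖ ^ 2))
    (q : ℂ) (k : ℕ) (x : ℂ) :
    IsBoundedUnder (· ≥ ·) atTop (fun n => min (k : ℝ) (D2n u q n x)) :=
  isBoundedUnder_of ⟨min (k : ℝ) (-(c * (2 + ‖q‖ ^ 2))), fun n => (FF_bounds hc q k x n).1⟩

theorem FF_cobdd {u : ℂ → ℝ} {c : ℝ} (hc : ConvexOn ℝ univ (fun x => u x + c / 2 * ‖x‖ ^ 2))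
    (q : ℂ) (k : ℕ) (x : ℂ) :
    IsCoboundedUnder (· ≥ ·) atTop (fun n => min (k : ℝ) (D2n u q n x)) :=
  (isBoundedUnder_of ⟨(k : ℝ), fun n => (FF_bounds hc q k x n).2⟩ :
    IsBoundedUnder (· ≤ ·) atTop (fun n => min (k : ℝ) (D2n u q n x))).isCoboundedUnder_ge

theorem FF_le {u : ℂ → ℝ} {c : ℝ} (hc : ConvexOn ℝ univ (fun x => u x + c / 2 * ‖x‖ ^ 2))
    (q : ℂ) (k : ℕ) (x : ℂ) (η : ℝ) (hη : 0 < η) :
    ∀ᶠ n in atTop, FF u q k x - η ≤ D2n u q n x := by
  have h : FF u q k x - η < liminf (fun n => min (k : ℝ) (D2n u q n x)) atTop := by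
    show FF u q k x - η < FF u q k x
    linarith
  filter_upwards [eventually_lt_of_lt_liminf h (FF_bddBelow hc q k x)] with n hn
  exact (hn.le).trans (min_le_right _ _)

theorem le_FF {u : ℂ → ℝ} {c : ℝ} (hc : ConvexOn ℝ univ (fun x => u x + c / 2 * ‖x‖ ^ 2))
    (q : ℂ) (k : ℕ) {x p : ℂ} {B : Q2} (hj : LJ u x p B) (hk : lin q B ≤ k) :
    lin q B ≤ FF u q k x := by
  apply le_of_forall_pos_sub_le
  intro η hη
  apply le_liminf_of_le (FF_cobdd hc q k x)
  filter_upwards [D2n_jet hj q η hη] with n hn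
  exact le_min (by linarith) hn

theorem measurable_FF {u : ℂ → ℝ} {c : ℝ}
    (hc : ConvexOn ℝ univ (fun x => u x + c / 2 * ‖x‖ ^ 2)) (q : ℂ) (k : ℕ) :
    Measurable (FF u q k) := by
  have hu := semiconvex_continuous hc
  apply Measurable.liminf
  intro n
  apply Measurable.min measurable_const
  apply Continuous.measurable
  unfold D2n dd
  fun_prop

theorem abs_FF_le {u : ℂ → ℝ} {c : ℝ} (hc : ConvexOn ℝ univ (fun x => u x + c / 2 * ‖x‖ ^ 2))
    (q : ℂ) (k : ℕ) (x : ℂ) : |FF u q k x| ≤ k + |c * (2 + ‖q‖ ^ 2)| := by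
  have h1 : min (k : ℝ) (-(c * (2 + ‖q‖ ^ 2))) ≤ FF u q k x :=
    le_liminf_of_le (FF_cobdd hc q k x) (Eventually.of_forall fun n => (FF_bounds hc q k x n).1)
  have h2 : FF u q k x ≤ k := by
    refine liminf_le_of_frequently_le ?_ (FF_bddBelow hc q k x)
    exact (Eventually.of_forall fun n => (FF_bounds hc q k x n).2).frequently
  have hk0 : (0 : ℝ) ≤ k := Nat.cast_nonneg k
  have h3 := abs_nonneg (c * (2 + ‖q‖ ^ 2))
  have h4 := neg_abs_le (-(c * (2 + ‖q‖ ^ 2)))
  rw [abs_neg] at h4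
  have h5 : -(k + |c * (2 + ‖q‖ ^ 2)|) ≤ min (k : ℝ) (-(c * (2 + ‖q‖ ^ 2))) :=
    le_min (by linarith) (by linarith)
  rw [abs_le]
  constructor <;> linarith

/-- the pointwise claim -/
theorem mc_claim {u : ℂ → ℝ} {c : ℝ} (hc : ConvexOn ℝ univ (fun x => u x + c / 2 * ‖x‖ ^ 2))
    (un : ℕ → ℂ → ℝ) (hs : ∀ n, ContDiff ℝ ∞ (un n))
    (hcn : ∀ n, ConvexOn ℝ univ (fun x => un n x + c / 2 * ‖x‖ ^ 2)) (Q : ℕ → ℂ) (hQ : DenseRange Q)
    {x p : ℂ} {B : Q2} (hd : DifferentiableAt ℝ u x)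
    (hg : Tendsto (fun n => grad (un n) x) atTop (𝓝 (grad u x)))
    (hj : LJ u x p B) (hF : ∀ j k : ℕ, ∀ η > 0, ∀ᶠ n in atTop,
      FF u (Q j) k x - η ≤ lin (Q j) (hess (un n) x)) (η : ℝ) (hη : 0 < η) :
    ∀ᶠ n in atTop, curv p B - η ≤ mc (un n) x := by
  have hp : p = grad u x := jet_grad hd hj
  rw [← hp] at hg
  have h1 : ∀ k, ∀ η > 0, ∀ᶠ n in atTop, lin (Q k) B - η ≤ lin (Q k) (hess (un n) x) := by
    intro j η hη
    obtain ⟨k, hk⟩ := exists_nat_ge (lin (Q j) B)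
    filter_upwards [hF j k η hη] with n hn
    have := le_FF hc (Q j) k hj hk
    linarith
  have h2 := limit_step (B := B) (p := p) (c := c) (fun n => hess (un n) x) (fun n => grad (un n) x) hg
    (fun n v => by rw [sh_app]; exact hess_nonneg (hs n) (hcn n) x v) Q hQ h1 (η / 2) (by positivity)
  have hW : Tendsto (fun n => (lin p B - η / 2) / W (grad (un n) x) ^ 3) atTop
      (𝓝 ((lin p B - η / 2) / W p ^ 3)) := by
    apply Tendsto.div tendsto_const_nhds
    · exact ((continuous_W.tendsto p).comp hg).pow 3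
    · exact (pow_pos (W_pos p) 3).ne'
  have h3 : curv p B - η < (lin p B - η / 2) / W p ^ 3 := by
    have hW1 : 1 ≤ W p ^ 3 := one_le_pow₀ (one_le_W p)
    have hW0 : 0 < W p ^ 3 := by linarith
    show lin p B / W p ^ 3 - η < (lin p B - η / 2) / W p ^ 3
    have : η / 2 / W p ^ 3 ≤ η / 2 := div_le_self (by positivity) hW1
    rw [sub_div]
    linarith
  filter_upwards [h2, hW.eventually (lt_mem_nhds h3)] with n h4 h5
  have hWn := W_pos (grad (un n) x)
  show curv p B - η ≤ lin (grad (un n) x) (hess (un n) x) / W (grad (un n) x) ^ 3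
  refine h5.le.trans ?_
  exact div_le_div_of_nonneg_right h4 (by positivity)

end W3

open W3 in
theorem WEAK3_holds : Weak3Statement := by
  intro hW1 hW2 u c hc0 hc h K hm hK hjet ψ hψL hψs hψ0
  obtain ⟨C, hψ⟩ := hψL
  obtain ⟨un, hs, hcn, hgr, hF⟩ := hW2 u c hc0 hc
  -- a dense sequence
  obtain ⟨Q, hQ⟩ : ∃ Q : ℕ → ℂ, DenseRange Q := ⟨TopologicalSpace.denseSeq ℂ,
    TopologicalSpace.denseRange_denseSeq ℂ⟩
  have hae : ∀ᵐ x, ∀ j k : ℕ, ∀ η > 0, ∀ᶠ n in atTop,
      FF u (Q j) k x - η ≤ lin (Q j) (hess (un n) x) := by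
    rw [ae_all_iff]
    intro j
    rw [ae_all_iff]
    intro k
    apply hF (Q j) (FF u (Q j) k) _ (measurable_FF hc (Q j) k) (abs_FF_le hc (Q j) k)
    exact hW1 u c hc0 hc (Q j) (FF u (Q j) k) _ (measurable_FF hc (Q j) k) (abs_FF_le hc (Q j) k)
      (Eventually.of_forall fun x η hη => FF_le hc (Q j) k x η hη)
  have hdiff := semiconvex_ae_differentiable hc
  have hclaim : ∀ᵐ x, ∀ η > 0, ∀ᶠ n in atTop, h x - η ≤ mc (un n) x := by
    filter_upwards [hae, hdiff, hjet] with x h1 h2 h3 η hη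
    obtain ⟨p, B, hj, hle⟩ := h3
    filter_upwards [mc_claim hc un hs hcn Q hQ h2 (hgr x h2) hj h1 η hη] with n hn
    linarith
  -- left side
  have hK0 : 0 ≤ K := (abs_nonneg _).trans (hK 0)
  have hψc := hψ.continuous
  have hψi : Integrable ψ := hψc.integrable_of_hasCompactSupport hψs
  have lhs : Tendsto (fun n => ∫ x, ψ x * min (mc (un n) x) (h x)) atTop (𝓝 (∫ x, ψ x * h x)) := by
    apply tendsto_integral_of_dominated_convergence (fun x => ψ x * (2 * c + K))
    · intro n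
      exact (hψc.measurable.mul ((continuous_mc (hs n)).measurable.min hm)).aestronglyMeasurable
    · exact hψi.mul_const _
    · intro n
      refine Eventually.of_forall fun x => ?_
      rw [norm_mul, Real.norm_of_nonneg (hψ0 x), Real.norm_eq_abs]
      apply mul_le_mul_of_nonneg_left _ (hψ0 x)
      have h1 := mc_lower (hs n) hc0 (hcn n) x
      have h2 := abs_le.1 (hK x)
      rw [abs_le]
      constructor
      · exact le_min (by linarith) (by linarith [h2.1])
      · exact (min_le_right _ _).trans (by linarith [h2.2])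
    · filter_upwards [hclaim] with x hx
      apply Tendsto.const_mul
      rw [Metric.tendsto_atTop]
      intro η hη
      obtain ⟨N, hN⟩ := eventually_atTop.1 (hx (η / 2) (by positivity))
      refine ⟨N, fun n hn => ?_⟩
      have h1 := hN n hn
      rw [Real.dist_eq, abs_lt]
      constructor
      · have : h x - η / 2 ≤ min (mc (un n) x) (h x) := le_min h1 (by linarith)
        linarith
      · have : min (mc (un n) x) (h x) ≤ h x := min_le_right _ _
        linarith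
  -- right side
  have i1 : Integrable (fun x => |fderiv ℝ ψ x 1| + |fderiv ℝ ψ x Complex.I|) := by
    have h1 := integrable_mul_fderiv (V := fun _ => 1) continuous_const hψ hψs 1
    have h2 := integrable_mul_fderiv (V := fun _ => 1) continuous_const hψ hψs Complex.I
    simp only [one_mul] at h1 h2
    exact h1.abs.add h2.abs
  have rhs : Tendsto (fun n => ∫ x, ip (T (grad (un n) x)) (grad ψ x)) atTop
      (𝓝 (∫ x, ip (T (grad u x)) (grad ψ x))) := by
    apply tendsto_integral_of_dominated_convergence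
      (fun x => |fderiv ℝ ψ x 1| + |fderiv ℝ ψ x Complex.I|)
    · intro n
      have m1 : Measurable (fun x => (T (grad (un n) x)).re * fderiv ℝ ψ x 1) :=
        (contDiff_Tre (hs n)).continuous.measurable.mul (measurable_fderiv_apply_const ℝ ψ 1)
      have m2 : Measurable (fun x => (T (grad (un n) x)).im * fderiv ℝ ψ x Complex.I) :=
        (contDiff_Tim (hs n)).continuous.measurable.mul (measurable_fderiv_apply_const ℝ ψ _)
      exact (m1.add m2).aestronglyMeasurable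
    · exact i1
    · intro n
      refine Eventually.of_forall fun x => ?_
      have hT := norm_T_le (grad (un n) x)
      have h1 : |(T (grad (un n) x)).re| ≤ 1 := (Complex.abs_re_le_norm _).trans hT
      have h2 : |(T (grad (un n) x)).im| ≤ 1 := (Complex.abs_im_le_norm _).trans hT
      show |(T (grad (un n) x)).re * fderiv ℝ ψ x 1 + (T (grad (un n) x)).im * fderiv ℝ ψ x Complex.I| ≤ _
      refine (abs_add_le _ _).trans ?_
      rw [abs_mul, abs_mul]
      have h3 := mul_le_of_le_one_left (abs_nonneg (fderiv ℝ ψ x 1)) h1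
      have h4 := mul_le_of_le_one_left (abs_nonneg (fderiv ℝ ψ x Complex.I)) h2
      linarith
    · filter_upwards [hdiff] with x hx
      have h1 := (continuous_T.tendsto (grad u x)).comp (hgr x hx)
      have h2 : Tendsto (fun n => (T (grad (un n) x)).re) atTop (𝓝 (T (grad u x)).re) :=
        (Complex.continuous_re.tendsto _).comp h1
      have h3 : Tendsto (fun n => (T (grad (un n) x)).im) atTop (𝓝 (T (grad u x)).im) :=
        (Complex.continuous_im.tendsto _).comp h1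
      exact (h2.mul_const _).add (h3.mul_const _)
  -- comparison
  refine le_of_tendsto_of_tendsto' lhs rhs.neg fun n => ?_
  rw [← ibp_mc (hs n) hψ hψs]
  apply integral_mono_ae
  · have hint : Integrable (fun x => ψ x * (2 * c + K)) := hψi.mul_const _
    refine hint.mono' ?_ ?_
    · exact (hψc.measurable.mul ((continuous_mc (hs n)).measurable.min hm)).aestronglyMeasurable
    · refine Eventually.of_forall fun x => ?_
      rw [norm_mul, Real.norm_of_nonneg (hψ0 x), Real.norm_eq_abs]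
      apply mul_le_mul_of_nonneg_left _ (hψ0 x)
      have h1 := mc_lower (hs n) hc0 (hcn n) x
      have h2 := abs_le.1 (hK x)
      rw [abs_le]
      constructor
      · exact le_min (by linarith) (by linarith [h2.1])
      · exact (min_le_right _ _).trans (by linarith [h2.2])
  · exact (hψc.mul (continuous_mc (hs n))).integrable_of_hasCompactSupport hψs.mul_right
  · refine Eventually.of_forall fun x => ?_
    exact mul_le_mul_of_nonneg_left (min_le_left _ _) (hψ0 x)

end Cyl
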