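import Pool.Agent.Cyl.ABS
import Pool.Agent.Cyl.AMEAS
import Pool.Agent.Cyl.AREA
import Pool.Agent.Cyl.ASYM
import Pool.Agent.Cyl.BASIC
import Pool.Agent.Cyl.BCOLLAR
import Pool.Agent.Cyl.Base
import Pool.Agent.Cyl.Base2
import Pool.Agent.Cyl.CHVAR
import Pool.Agent.Cyl.CLA
import Pool.Agent.Cyl.CLN
import Pool.Agent.Cyl.COLLIM
import Pool.Agent.Cyl.CORNER
import Pool.Agent.Cyl.COV
import Pool.Agent.Cyl.CUTG
import Pool.Agent.Cyl.FDATA
import Pool.Agent.Cyl.FINAL
import Pool.Agent.Cyl.FJET
import Pool.Agent.Cyl.FLOC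
import Pool.Agent.Cyl.FLUXONTO
import Pool.Agent.Cyl.FMASS
import Pool.Agent.Cyl.GJET
import Pool.Agent.Cyl.JET
import Pool.Agent.Cyl.LIN
import Pool.Agent.Cyl.LOC
import Pool.Agent.Cyl.MAIN
import Pool.Agent.Cyl.MaxP
import Pool.Agent.Cyl.NOCON
import Pool.Agent.Cyl.NSIDE
import Pool.Agent.Cyl.ORIENT
import Pool.Agent.Cyl.PERT
import Pool.Agent.Cyl.REFLECT
import Pool.Agent.Cyl.SMP
import Pool.Agent.Cyl.ST1
import Pool.Agent.Cyl.ST2
import Pool.Agent.Cyl.ST4
import Pool.Agent.Cyl.STEP
import Pool.Agent.Cyl.TFACTS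
import Pool.Agent.Cyl.TNEG
import Pool.Agent.Cyl.TOPEN
import Pool.Agent.Cyl.TUBE
import Pool.Agent.Cyl.UNIQ
import Pool.Agent.Cyl.VBD
import Pool.Agent.Cyl.WEAK1
import Pool.Agent.Cyl.WEAK2
import Pool.Agent.Cyl.WEAK3

/-!
# Assembly of all modules: the main theorem
-/

namespace Cyl

universe u

theorem weakIneq : WeakIneqStatement := WEAK3_holds WEAK1_holds WEAK2_holds

theorem area : AreaStatement := AREA_holds TUBE_holds

theorem collarLimit : CollarLimitStatement := COLLIM_holds TUBE_holds CUTG_holds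

theorem fluxJet : FluxJetStatement := FJET_holds JET_holds

theorem fluxMass : FluxMassStatement := FMASS_holds CHVAR_holds FLOC_holds

theorem asymSuper : AsymSuperStatement :=
  ASYM_holds weakIneq TUBE_holds CHVAR_holds CUTG_holds collarLimit fluxJet FLOC_holds fluxMass

theorem nullContact : NullContactStatement :=
  NULLC_holds weakIneq TUBE_holds CHVAR_holds CUTG_holds collarLimit fluxJet FLOC_holds fluxMass

theorem absorb : AbsorbStatement := ABS_holds weakIneq asymSuper JET_holds GJET_holds collarLimit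

theorem stokes : StokesStatement.{u} := ST4_holds ST1_holds ST2_holds AMEAS_holds BASIC_holds

theorem flux : FluxStatement.{u} := FLUX_holds stokes CLN_holds area

theorem onto : OntoStatement.{u} := ONTO_holds stokes CLA_holds

theorem fluxData : FluxDataStatement.{u} := FDATA_holds GJET_holds flux onto

theorem nside : NSideStatement.{u} := NSIDE_holds PERT_holds

theorem topOpen : TopOpenStatement.{u} := TOPEN_holds nside PERT_holds

theorem topNeg : TopNegStatement.{u} := TNEG_holds topOpen nside LIN_holds SMP_holds BASIC_holds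

theorem topFacts : TopFactsStatement.{u} := TFACTS_holds topOpen topNeg LOC_holds BASIC_holds

theorem vertBd : VertBdStatement.{u} := VBD_holds TUBE_holds

theorem cov : CovStatement.{u} := COV_holds BCOLLAR_holds vertBd NODOWN_holds

theorem noContact : NoContactStatement.{u} := NOCON_holds cov LOC_holds

theorem goodStep : GoodStepStatement.{u} :=
  STEP_holds vertBd noContact LIN_holds CORNER_holds BASIC_holds

theorem final : FinalStatement.{u} := FINAL_holds cov LOC_holds BASIC_holds

/-- **Main theorem.** -/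
theorem mainTheorem : MainStatement.{u} :=
  MAIN_holds (ORIENT_holds BASIC_holds) REFLECT_holds fluxData absorb nullContact topFacts
    NODOWN_holds (CGOOD_holds BCOLLAR_holds BASIC_holds) goodStep
    (UNIQ_holds BCOLLAR_holds BASIC_holds) final

end Cyl

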