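import Mathlib

/-!
# Constant mean curvature surfaces in a cylinder over a convex domain: definitions

Euclidean 3-space is `ℂ × ℝ` (horizontal plane times vertical line) with inner product `dot`.
-/

open MeasureTheory Set Filter Topology Metric
open scoped ContDiff

noncomputable section

namespace Cyl

universe u

/-- Euclidean 3-space: horizontal plane `ℂ` times vertical line `ℝ` (the Euclidean inner product
is `dot` below). -/
abbrev E3 := ℂ × ℝ

/-- the Euclidean inner product of the plane -/
def ip (p q : ℂ) : ℝ := p.re * q.re + p.im * q.im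

/-- the Euclidean inner product of 3-space -/
def dot (X Y : E3) : ℝ := ip X.1 Y.1 + X.2 * Y.2

/-- first partial derivative of a function on the plane -/
def d1 (g : ℂ → ℝ) (s : ℂ) : ℝ := fderiv ℝ g s 1

/-- second partial derivative of a function on the plane -/
def d2 (g : ℂ → ℝ) (s : ℂ) : ℝ := fderiv ℝ g s Complex.I

/-- gradient of a function on the plane -/
def grad (g : ℂ → ℝ) (s : ℂ) : ℂ := ⟨d1 g s, d2 g s⟩

/-- `√(1 + |p|²)` -/
def W (p : ℂ) : ℝ := Real.sqrt (1 + p.re ^ 2 + p.im ^ 2)

/-- `p / √(1 + |p|²)` -/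
def T (p : ℂ) : ℂ := ⟨p.re / W p, p.im / W p⟩

/-- a quadratic form `a x² + 2 b x y + c y²` on the plane -/
structure Q2 where
  a : ℝ
  b : ℝ
  c : ℝ

/-- value of the quadratic form -/
def Q2.app (B : Q2) (v : ℂ) : ℝ := B.a * v.re ^ 2 + 2 * B.b * v.re * v.im + B.c * v.im ^ 2

/-- Hessian of a function on the plane -/
def hess (g : ℂ → ℝ) (s : ℂ) : Q2 := ⟨d1 (d1 g) s, d2 (d1 g) s, d2 (d2 g) s⟩

/-- the sum of the principal curvatures of a graph with slope `p` and Hessian `B`, with respect to
the upward normal -/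
def curv (p : ℂ) (B : Q2) : ℝ :=
  ((1 + p.im ^ 2) * B.a - 2 * p.re * p.im * B.b + (1 + p.re ^ 2) * B.c) / (W p) ^ 3

/-- the sum of the principal curvatures (twice the mean curvature) of the graph of `g` at the
point over `s`, with respect to the upward normal:
`((1+g_y²) g_xx - 2 g_x g_y g_xy + (1+g_x²) g_yy) / (1+g_x²+g_y²)^{3/2}` -/
def mc (g : ℂ → ℝ) (s : ℂ) : ℝ := curv (grad g s) (hess g s)

/-- an orthonormal frame of 3-space -/
structure Frame where
  a : E3
  b : E3
  n : E3
  haa : dot a a = 1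
  hbb : dot b b = 1
  hnn : dot n n = 1
  hab : dot a b = 0
  han : dot a n = 0
  hbn : dot b n = 0

/-- the point `q + s₁ a + s₂ b + g(s) n` of the graph of `g` over the plane `q + ⟨a, b⟩` -/
def Frame.pt (F : Frame) (q : E3) (g : ℂ → ℝ) (s : ℂ) : E3 :=
  q + s.re • F.a + s.im • F.b + g s • F.n

/-- the unit normal `(n - g₁ a - g₂ b) / √(1+|∇g|²)` of the graph of `g` -/
def Frame.nor (F : Frame) (g : ℂ → ℝ) (s : ℂ) : E3 :=
  (W (grad g s))⁻¹ • (F.n - d1 g s • F.a - d2 g s • F.b)

/-- the part `{s₂ ≥ β(s₁)}` of the open disc of radius `r` about `0` -/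
def halfDisc (r : ℝ) (β : ℝ → ℝ) : Set ℂ := {s | s ∈ ball (0 : ℂ) r ∧ β s.re ≤ s.im}

/-- Over the region `R` of the disc of radius `r` in the tangent plane at `q`, the surface
`(f, N)` is the graph of the smooth function `g`, with unit normal `N` and with mean curvature
`H` with respect to `N`; `e` is the corresponding chart of `M`. -/
structure Patch {M : Type u} [TopologicalSpace M] (f N : M → E3) (H : ℝ) (q : M) (F : Frame)
    (r : ℝ) (g : ℂ → ℝ) (R : Set ℂ) (e : PartialEquiv M ℂ) : Prop where
  r_pos : 0 < r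
  smooth : ContDiffOn ℝ ∞ g (ball 0 r)
  g_zero : g 0 = 0
  grad_zero : grad g 0 = 0
  isOpen : IsOpen e.source
  target : e.target = R
  cont : ContinuousOn e e.source
  cont_symm : ContinuousOn e.symm e.target
  mem : q ∈ e.source
  map_zero : e q = 0
  param : ∀ s ∈ R, f (e.symm s) = F.pt (f q) g s
  normal : ∀ s ∈ R, N (e.symm s) = F.nor g s
  mean : ∀ s ∈ R, mc g s = 2 * H

/-- `q` is an interior point and near `q` the surface is a graph over a disc -/
def IntPatch {M : Type u} [TopologicalSpace M] (f N : M → E3) (bd : Set M) (H : ℝ) (q : M)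
    (F : Frame) (r : ℝ) (g : ℂ → ℝ) (e : PartialEquiv M ℂ) : Prop :=
  Patch f N H q F r g (ball 0 r) e ∧ Disjoint e.source bd

/-- `q` is a boundary point; near `q` the surface is the graph over the part `{s₂ ≥ β(s₁)}` of a
disc, the boundary of the surface being the part of the graph over `{s₂ = β(s₁)}` -/
def BdPatch {M : Type u} [TopologicalSpace M] (f N : M → E3) (bd : Set M) (H : ℝ) (q : M)
    (F : Frame) (r : ℝ) (g : ℂ → ℝ) (β : ℝ → ℝ) (e : PartialEquiv M ℂ) : Prop :=
  Patch f N H q F r g (halfDisc r β) e ∧ ContDiff ℝ ∞ β ∧ β 0 = 0 ∧ deriv β 0 = 0 ∧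
    ∀ s ∈ halfDisc r β, e.symm s ∈ bd ↔ s.im = β s.re

/-- `f : M → ℝ³` is a smooth immersed surface with boundary `bd` and unit normal field `N`,
of constant mean curvature `H` with respect to `N`. -/
structure CMC {M : Type u} [TopologicalSpace M] (f N : M → E3) (bd : Set M) (H : ℝ) : Prop where
  interior : ∀ q, q ∉ bd → ∃ F r g e, IntPatch f N bd H q F r g e
  boundary : ∀ q, q ∈ bd → ∃ F r g β e, BdPatch f N bd H q F r g β e

/-- `D` is a bounded convex plane domain whose boundary is the smooth closed curve `γ` of length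
`L`, parametrised by arc length, the inner normal being `i γ'`. -/
structure ConvexCurve (D : Set ℂ) (γ : ℝ → ℂ) (L : ℝ) : Prop where
  isOpen : IsOpen D
  convex : Convex ℝ D
  bounded : Bornology.IsBounded D
  nonempty : D.Nonempty
  L_pos : 0 < L
  smooth : ContDiff ℝ ∞ γ
  unit : ∀ θ, ‖deriv γ θ‖ = 1
  periodic : ∀ θ, γ (θ + L) = γ θ
  inj : InjOn γ (Ico 0 L)
  range_eq : range γ = frontier D
  inner : ∀ θ, ∀ x ∈ D, 0 < ip (x - γ θ) (Complex.I * deriv γ θ)

/-- the surface is a graph on `D` -/
def IsGraph {M : Type u} (f : M → E3) (D : Set ℂ) : Prop :=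
  ∃ w : ℂ → ℝ, ContDiffOn ℝ ∞ w D ∧ ContinuousOn w (closure D) ∧ (∀ x ∈ frontier D, w x = 0) ∧
    Function.Injective f ∧ range f = {X : E3 | X.1 ∈ closure D ∧ X.2 = w X.1}

/-- All data of the problem. -/
structure Setup (M : Type u) [TopologicalSpace M] where
  D : Set ℂ
  γ : ℝ → ℂ
  L : ℝ
  H : ℝ
  f : M → E3
  N : M → E3
  bd : Set M
  curve : ConvexCurve D γ L
  H_pos : 0 < H
  surf : CMC f N bd H
  inj_bd : InjOn f bd
  img_bd : f '' bd = frontier D ×ˢ {0}
  cyl : ∀ q, (f q).1 ∈ closure D

/-- The main theorem: a compact connected surface of constant mean curvature `H > 0` spanning the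
convex curve and contained in the closed cylinder is a graph, or else `2 H |D| = L` and the
surface is orthogonal to the plane of the curve along the whole curve. -/
def MainStatement : Prop :=
  ∀ (M : Type u) [TopologicalSpace M] [CompactSpace M] [T2Space M] [ConnectedSpace M]
    (S : Setup M), IsGraph S.f S.D ∨ (2 * S.H * volume.real S.D = S.L ∧ ∀ q ∈ S.bd, (S.N q).2 = 0)

end Cyl
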