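import Pool.Agent.Cyl.Base

/-!
# FLOC: location of the contact set `XC`
-/

open MeasureTheory Set Filter Topology Metric
open scoped ContDiff

noncomputable section

namespace Cyl

namespace FLOC

/-- If the point `X` of `S` realises the sup-convolution at `x`, then a ray of `S` at `X` does not
increase the function `X ↦ X₃ - |x - X|²/2ε` to first order. -/
theorem ray_le {S : Set E3} (hS : IsCompact S) {ε : ℝ} (hε : 0 < ε) {x : ℂ} {X V : E3}
    (h : sc ε S x = X.2 - ‖x - X.1‖ ^ 2 / (2 * ε)) (hr : HasRay S X V) :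
    ε * V.2 + ip (x - X.1) V.1 ≤ 0 := by
  set t : ℂ := x - X.1 with ht
  -- the inequality for every `η`
  have key : ∀ η : ℝ, 0 < η → ε * V.2 + ip t V.1 ≤ η * (ε + ‖t‖) := by
    intro η hη
    obtain ⟨δ, hδ, hY⟩ := hr η hη
    -- the inequality for every small `τ`
    have h1 : ∀ τ : ℝ, 0 < τ → τ < δ →
        ε * V.2 + ip t V.1 ≤ η * (ε + ‖t‖) + τ * ((‖V.1‖ + η) ^ 2) := by
      intro τ hτ hτδ
      obtain ⟨Y, hYS, hYn⟩ := hY τ hτ hτδ
      have hY1 : ‖Y.1 - (X.1 + (τ : ℂ) * V.1)‖ ≤ η * τ := by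
        have := (norm_fst_le (Y - (X + τ • V))).trans hYn
        simpa using this
      have hY2 : |Y.2 - (X.2 + τ * V.2)| ≤ η * τ := by
        have := (norm_snd_le (Y - (X + τ • V))).trans hYn
        simpa using this
      have h2 := le_sc hS ε x hYS
      rw [h] at h2
      set e : ℂ := Y.1 - (X.1 + (τ : ℂ) * V.1) with he
      have hxY : x - Y.1 = t - ((τ : ℂ) * V.1 + e) := by rw [he, ht]; ring
      rw [hxY, norm_sub_sq', ip_add_right, ip_ofReal_mul_right] at h2
      have h3 : ‖(τ : ℂ) * V.1 + e‖ ≤ τ * (‖V.1‖ + η) := by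
        calc ‖(τ : ℂ) * V.1 + e‖ ≤ ‖(τ : ℂ) * V.1‖ + ‖e‖ := norm_add_le _ _
          _ ≤ τ * ‖V.1‖ + η * τ := by
              rw [norm_mul, Complex.norm_real, Real.norm_eq_abs, abs_of_pos hτ]
              linarith
          _ = _ := by ring
      have h4 : ‖(τ : ℂ) * V.1 + e‖ ^ 2 ≤ (τ * (‖V.1‖ + η)) ^ 2 :=
        pow_le_pow_left₀ (norm_nonneg _) h3 2
      have h5 : |ip t e| ≤ ‖t‖ * (η * τ) :=
        (abs_ip_le t e).trans (mul_le_mul_of_nonneg_left hY1 (norm_nonneg t))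
      have h6 := (abs_le.1 h5).1
      have h7 := (abs_le.1 hY2).1
      have h8 : Y.2 - X.2 ≤ (‖(τ : ℂ) * V.1 + e‖ ^ 2 - 2 * (τ * ip t V.1 + ip t e)) / (2 * ε) := by
        have : (‖t‖ ^ 2 - 2 * (τ * ip t V.1 + ip t e) + ‖(τ : ℂ) * V.1 + e‖ ^ 2) / (2 * ε)
            = ‖t‖ ^ 2 / (2 * ε)
              + (‖(τ : ℂ) * V.1 + e‖ ^ 2 - 2 * (τ * ip t V.1 + ip t e)) / (2 * ε) := by ring
        linarith
      rw [le_div_iff₀ (by positivity)] at h8
      have h9 : (τ * V.2 - η * τ) * (2 * ε) ≤ (Y.2 - X.2) * (2 * ε) :=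
        mul_le_mul_of_nonneg_right (by linarith) (by positivity)
      have h10 : τ * (ε * V.2 + ip t V.1) ≤ τ * (η * (ε + ‖t‖) + τ * ((‖V.1‖ + η) ^ 2)) := by
        nlinarith [sq_nonneg (τ * (‖V.1‖ + η))]
      exact le_of_mul_le_mul_left h10 hτ
    have h2 : Tendsto (fun τ : ℝ => η * (ε + ‖t‖) + τ * ((‖V.1‖ + η) ^ 2)) (𝓝[>] 0)
        (𝓝 (η * (ε + ‖t‖) + 0 * ((‖V.1‖ + η) ^ 2))) :=
      ((continuous_const.add (continuous_id.mul continuous_const)).tendsto 0).mono_left
        nhdsWithin_le_nhds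
    have h3 := ge_of_tendsto h2 (b := ε * V.2 + ip t V.1) (by
      filter_upwards [Ioo_mem_nhdsGT hδ] with τ hτ
      exact h1 τ hτ.1 hτ.2)
    simpa using h3
  have h2 : Tendsto (fun η : ℝ => η * (ε + ‖t‖)) (𝓝[>] 0) (𝓝 (0 * (ε + ‖t‖))) :=
    ((continuous_id.mul continuous_const).tendsto 0).mono_left nhdsWithin_le_nhds
  have h3 := ge_of_tendsto h2 (b := ε * V.2 + ip t V.1) (by
    filter_upwards [self_mem_nhdsWithin] with η hη
    exact key η hη)
  simpa using h3

end FLOC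

theorem FLOC_holds : FluxLocStatement := by
  intro D γ L H S a ν hF t₀ hT
  constructor
  · intro ε hε θ t ht hx
    have hx' : sc ε S (Phi γ θ t) = - t ^ 2 / (2 * ε) := by
      have := hx
      rw [XC, mem_setOf_eq, hT.sd_Phi θ t ht] at this
      exact this
    have hn : ‖Complex.I * deriv γ θ‖ = 1 := by
      rw [norm_mul, Complex.norm_I, one_mul]; exact hF.curve.unit θ
    have hd : Phi γ θ t - γ θ = -((t : ℂ) * (Complex.I * deriv γ θ)) := by
      unfold Phi; ring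
    have hd2 : ‖Phi γ θ t - γ θ‖ ^ 2 = t ^ 2 := by
      rw [hd, norm_neg, norm_mul, hn, mul_one, Complex.norm_real, Real.norm_eq_abs, sq_abs]
    have hsc : sc ε S (Phi γ θ t) =
        ((γ θ, (0 : ℝ)) : E3).2 - ‖Phi γ θ t - ((γ θ, (0 : ℝ)) : E3).1‖ ^ 2 / (2 * ε) := by
      rw [hx']
      simp only
      rw [hd2]
      ring
    constructor
    · have h1 := FLOC.ray_le hF.compact hε hsc (hF.conormal θ)
      simp only at h1
      rw [hd, ip_neg_left, ip_ofReal_mul_left, ip_ofReal_mul_right, ip_self, hn] at h1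
      nlinarith
    · rintro (⟨X, hX, h1, h2⟩ | hr)
      · have h3 := le_sc hF.compact ε (Phi γ θ t) hX
        rw [h1, hd2, hx'] at h3
        have : - t ^ 2 / (2 * ε) = - (t ^ 2 / (2 * ε)) := by ring
        linarith
      · have h1 := FLOC.ray_le hF.compact hε hsc hr
        simp only [ip_zero_right] at h1
        linarith
  · obtain ⟨Z, hZ⟩ := hF.compact.isBounded.subset_closedBall (0 : E3)
    refine ⟨Z, ?_⟩
    intro ε hε x hx hxD
    obtain ⟨X, hX, hX1⟩ := hF.onto x (subset_closure hxD)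
    have h1 := le_sc hF.compact ε x hX
    have h2 : sc ε S x = - (sd D x) ^ 2 / (2 * ε) := hx
    rw [hX1, sub_self, norm_zero, h2] at h1
    have h3 : |X.2| ≤ Z := by
      have h4 : ‖X‖ ≤ Z := by simpa using hZ hX
      have h5 := norm_snd_le X
      rw [Real.norm_eq_abs] at h5
      linarith
    have h4 := (abs_le.1 h3).1
    have h5 : sd D x ^ 2 / (2 * ε) ≤ Z := by
      have : - (sd D x) ^ 2 / (2 * ε) = - (sd D x ^ 2 / (2 * ε)) := by ring
      rw [this] at h1
      simp at h1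
      linarith
    rw [div_le_iff₀ (by positivity)] at h5
    linarith

end Cyl
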