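import Pool.Agent.Cyl.VBD
import Pool.Agent.Cyl.TUBE

/-!
# Curvature of the boundary curve at vertical boundary points
-/

open MeasureTheory Set Filter Topology Metric
open scoped ContDiff

noncomputable section

namespace Cyl

universe u

/-- at a boundary point where the surface is vertical, the curvature of `C` is at most `2H` -/
theorem Setup.kap_le {M : Type u} [TopologicalSpace M] [CompactSpace M] [T2Space M] (S : Setup M)
    (hT : TubeStatement) (hc : S.Conormal (-1)) {θ : ℝ} (hν : S.ν θ = 1) :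
    kap S.γ θ ≤ 2 * S.H := by
  obtain ⟨κ, F, r, g, e, hV⟩ := VBD_holds hT M S hc θ hν
  have hP := hV.patch
  have hsm : ContDiffAt ℝ 2 g 0 :=
    (hP.smooth.contDiffAt (ball_mem_nhds _ hP.r_pos)).of_le (by norm_cast)
  -- `g₂₂(0) ≥ 0`
  have h22 : 0 ≤ (hess g 0).app Complex.I := by
    have h : -((hess g 0).app Complex.I) ≤ 0 := by
      apply second_deriv_nonpos (φ := fun t : ℝ => -(g (0 + t • Complex.I)))
      · filter_upwards [eventually_line (v := Complex.I) (eventually_differentiableAt hsm)] with t ht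
        exact (hasDerivAt_line ht).neg.differentiableAt
      · have h1 := (hasDerivAt_deriv_line hsm Complex.I).neg
        refine h1.congr_of_eventuallyEq (Filter.Eventually.of_forall fun t => ?_)
        exact deriv.fun_neg
      · simp [hP.g_zero]
      · have h1 : DifferentiableAt ℝ g (0 + (0 : ℝ) • Complex.I) := by
          simpa using hsm.differentiableAt (by norm_num)
        rw [deriv.fun_neg, (hasDerivAt_line h1).deriv, fderiv_re_im]
        simp [hP.d1_zero, hP.d2_zero]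
      · have h1 : ∀ᶠ t : ℝ in 𝓝[>] (0 : ℝ), t < r :=
          mem_nhdsWithin_of_mem_nhds (Iio_mem_nhds hP.r_pos)
        filter_upwards [h1, self_mem_nhdsWithin] with t ht1 ht2
        have ht2' : (0 : ℝ) < t := ht2
        have hs : (0 + t • Complex.I) ∈ halfDisc r (fun _ => 0) := by
          refine ⟨?_, by simp; positivity⟩
          simp [abs_of_pos ht2', ht1]
        have h2 := hV.wall _ hs
        have h3 : (((0 + t • Complex.I : ℂ).re : ℝ) : ℂ) = 0 := by simp
        rw [h3, hP.g_zero] at h2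
        linarith
    linarith
  have hmean := hP.mean 0 hP.zero_mem
  unfold mc at hmean
  rw [hP.grad_zero, curv_zero] at hmean
  have happ1 : (hess g 0).app 1 = (hess g 0).a := by simp [Q2.app]
  have happI : (hess g 0).app Complex.I = (hess g 0).c := by simp [Q2.app]
  rw [happI] at h22
  -- the curvature of the curve is `g₁₁(0)`
  have hγs := S.curve.smooth
  have hγ2 : ∀ t, HasDerivAt S.γ (deriv S.γ t) t := fun t =>
    ((hγs.differentiable (by simp)) t).hasDerivAt
  have hγ'' : HasDerivAt (deriv S.γ) (deriv (deriv S.γ) θ) θ := by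
    have h1 : ContDiff ℝ ∞ (deriv S.γ) := ContDiff.deriv' hγs
    exact ((h1.differentiable (by simp)) θ).hasDerivAt
  -- `x(t) = κ ⟨γ(t) - γ(θ), γ'(θ)⟩`, `y(t) = ⟨γ(t) - γ(θ), iγ'(θ)⟩ = g(x(t))` near `θ`
  set n : ℂ := Complex.I * deriv S.γ θ with hn
  have hip : ∀ (V : ℂ) (t : ℝ), HasDerivAt (fun t => ip (S.γ t - S.γ θ) V) (ip (deriv S.γ t) V) t := by
    intro V t
    have h1 : HasDerivAt (fun θ' => (S.γ θ').re) (deriv S.γ t).re t :=
      (Complex.reCLM.hasFDerivAt.comp_hasDerivAt t (hγ2 t))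
    have h2 : HasDerivAt (fun θ' => (S.γ θ').im) (deriv S.γ t).im t :=
      (Complex.imCLM.hasFDerivAt.comp_hasDerivAt t (hγ2 t))
    exact ((h1.sub_const (S.γ θ).re).mul_const V.re).add ((h2.sub_const (S.γ θ).im).mul_const V.im)
  have hip2 : ∀ (V : ℂ), HasDerivAt (fun t => ip (deriv S.γ t) V) (ip (deriv (deriv S.γ) θ) V) θ := by
    intro V
    have h1 : HasDerivAt (fun θ' => (deriv S.γ θ').re) (deriv (deriv S.γ) θ).re θ :=
      (Complex.reCLM.hasFDerivAt.comp_hasDerivAt θ hγ'')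
    have h2 : HasDerivAt (fun θ' => (deriv S.γ θ').im) (deriv (deriv S.γ) θ).im θ :=
      (Complex.imCLM.hasFDerivAt.comp_hasDerivAt θ hγ'')
    exact (h1.mul_const V.re).add (h2.mul_const V.im)
  set x : ℝ → ℝ := fun t => κ * ip (S.γ t - S.γ θ) (deriv S.γ θ) with hx
  have hxd : ∀ t, HasDerivAt x (κ * ip (deriv S.γ t) (deriv S.γ θ)) t := fun t =>
    (hip (deriv S.γ θ) t).const_mul κ
  have hx0 : x θ = 0 := by simp [hx, ip_zero_left]
  have hκ2 : κ ^ 2 = 1 := by rcases hV.sign with h | h <;> rw [h] <;> norm_num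
  have hunit : ip (deriv S.γ θ) (deriv S.γ θ) = 1 := by rw [ip_self, S.curve.unit]; norm_num
  have hgeq : ∀ᶠ t in 𝓝 θ, ip (S.γ t - S.γ θ) n = g (x t : ℂ) := by
    have h1 : ∀ᶠ θ' in 𝓝 θ, S.b θ' ∈ e.source :=
      S.continuous_b.continuousAt.eventually (hP.isOpen.mem_nhds hP.mem)
    filter_upwards [h1] with t ht
    have h2 := hP.f_eq ht
    rw [S.f_b, S.f_b] at h2
    have h3 := F.dot_pt_sub (S.γ θ, (0 : ℝ)) g (e (S.b t))
    rw [← h2] at h3
    have h4 : e (S.b t) = (x t : ℂ) := by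
      apply Complex.ext
      · rw [← h3.1, hV.ha]
        simp only [dot, Prod.fst_sub, Prod.snd_sub]
        rw [ip_ofReal_mul_right]
        simp [hx]
      · rw [← h3.2.1, hV.hb]
        simp [dot, ip_zero_right]
    rw [← h4, ← h3.2.2, hV.hn]
    simp [dot, hn]
  have hdg : ∀ᶠ s in 𝓝 (0 : ℂ), DifferentiableAt ℝ g s := eventually_differentiableAt hsm
  -- first derivatives near `θ`
  have hxc : ContinuousAt (fun t => ((x t : ℝ) : ℂ)) θ :=
    (Complex.continuous_ofReal.continuousAt).comp (hxd θ).continuousAt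
  have hdg' : ∀ᶠ t in 𝓝 θ, DifferentiableAt ℝ g (x t : ℂ) := by
    have : Tendsto (fun t => ((x t : ℝ) : ℂ)) (𝓝 θ) (𝓝 0) := by
      have h := hxc.tendsto
      rw [hx0] at h
      simpa using h
    exact this.eventually hdg
  have hder : ∀ᶠ t in 𝓝 θ, ip (deriv S.γ t) n = d1 g (x t : ℂ) * (κ * ip (deriv S.γ t) (deriv S.γ θ)) := by
    filter_upwards [hgeq.eventually_nhds, hdg'] with t ht hd
    have h1 : HasDerivAt (fun t => ((x t : ℝ) : ℂ)) ((κ * ip (deriv S.γ t) (deriv S.γ θ) : ℝ) : ℂ) t :=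
      (hxd t).ofReal_comp
    have h2 := hd.hasFDerivAt.comp_hasDerivAt t h1
    have h3 := (hip n t).congr_of_eventuallyEq (f₁ := fun t => g (x t : ℂ)) (by
      filter_upwards [ht] with u hu using hu.symm)
    have h4 := h3.unique h2
    rw [h4, fderiv_re_im]
    simp
    ring
  -- second derivative at `θ`
  have hd1 : DifferentiableAt ℝ (d1 g) 0 := (contDiffAt_d1 hsm).differentiableAt (by norm_num)
  have h5 : HasDerivAt (fun t => d1 g (x t : ℂ) * (κ * ip (deriv S.γ t) (deriv S.γ θ)))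
      ((hess g 0).a) θ := by
    have h1 : HasDerivAt (fun t => ((x t : ℝ) : ℂ)) ((κ * ip (deriv S.γ θ) (deriv S.γ θ) : ℝ) : ℂ) θ :=
      (hxd θ).ofReal_comp
    have h2 : HasDerivAt (fun t => d1 g (x t : ℂ))
        (fderiv ℝ (d1 g) 0 ((κ * ip (deriv S.γ θ) (deriv S.γ θ) : ℝ) : ℂ)) θ := by
      have h3 : HasFDerivAt (d1 g) (fderiv ℝ (d1 g) 0) ((x θ : ℝ) : ℂ) := by
        rw [hx0]; simpa using hd1.hasFDerivAt
      exact h3.comp_hasDerivAt θ h1
    have h3 := h2.mul ((hip2 (deriv S.γ θ)).const_mul κ)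
    refine HasDerivAt.congr_deriv h3 ?_
    rw [hx0, hunit, fderiv_re_im]
    have h4 : d1 g ((0 : ℝ) : ℂ) = 0 := by simpa using hP.d1_zero
    rw [h4]
    simp [hess]
    have : κ * κ = 1 := by rw [← sq]; exact hκ2
    linear_combination (d1 (d1 g) 0) * this
  have h6 := (hip2 n).congr_of_eventuallyEq
    (f₁ := fun t => d1 g (x t : ℂ) * (κ * ip (deriv S.γ t) (deriv S.γ θ))) (by
      filter_upwards [hder] with u hu using hu.symm)
  have h7 := h6.unique h5
  unfold kap
  rw [← hn, h7]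
  linarith

end Cyl
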