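import Pool.Agent.Cyl.All
import Pool.Agent.Cyl.KAP

/-!
# The main theorem with the curvature bound in the exceptional case
-/

open MeasureTheory Set Filter Topology Metric
open scoped ContDiff

noncomputable section

namespace Cyl

universe u

variable {M : Type u} [TopologicalSpace M]

theorem exceptional_neg [CompactSpace M] [T2Space M] [ConnectedSpace M]
    (S : Setup M) (hc : S.Conormal (-1)) :
    IsGraph S.f S.D ∨ (2 * S.H * volume.real S.D = S.L ∧ (∀ q ∈ S.bd, (S.N q).2 = 0) ∧
      ∀ θ, kap S.γ θ ≤ 2 * S.H) := by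
  rcases main_neg fluxData absorb nullContact topFacts NODOWN_holds
    (CGOOD_holds BCOLLAR_holds BASIC_holds) goodStep (UNIQ_holds BCOLLAR_holds BASIC_holds) final
    S hc with h | ⟨h1, h2⟩
  · exact Or.inl h
  · refine Or.inr ⟨h1, h2, fun θ => ?_⟩
    apply S.kap_le TUBE_holds hc
    have h3 := S.ν_sq_add θ
    rw [h2 _ (S.b_mem θ)] at h3
    have h4 := NODOWN_holds M S hc θ
    nlinarith [h4.1, h4.2]

theorem main2 [CompactSpace M] [T2Space M] [ConnectedSpace M] (S : Setup M) :
    IsGraph S.f S.D ∨ (2 * S.H * volume.real S.D = S.L ∧ (∀ q ∈ S.bd, (S.N q).2 = 0) ∧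
      ∀ θ, kap S.γ θ ≤ 2 * S.H) := by
  obtain ⟨σ, hσ, hc⟩ := ORIENT_holds BASIC_holds M S
  rcases hσ with rfl | rfl
  · obtain ⟨S', hD, hγ, hL, hH, hbd, hf, hN, hcon⟩ := REFLECT_holds M S
    rcases exceptional_neg S' (hcon hc) with h | ⟨h1, h2, h3⟩
    · left
      rw [hD] at h
      exact isGraph_of_reflect hf h
    · right
      rw [hD, hH, hL] at h1
      refine ⟨h1, fun q hq => ?_, fun θ => ?_⟩
      · have := h2 q (by rw [hbd]; exact hq)
        rw [hN q] at this
        simpa using this
      · have := h3 θ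
        rwa [hγ, hH] at this
  · exact exceptional_neg S hc

end Cyl
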