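import Pool.Agent.Cyl.Defs

/-!
# Statements of the modules (every module is a `Prop`, proved in its own file)
-/

open MeasureTheory Set Filter Topology Metric
open scoped ContDiff

noncomputable section

namespace Cyl

universe u

/-! ## Jets -/

/-- lower second-order jet `(p, B)` of `u` at `x` -/
def LJ (u : ℂ → ℝ) (x p : ℂ) (B : Q2) : Prop :=
  ∀ η > 0, ∃ δ > 0, ∀ v : ℂ, ‖v‖ < δ → u x + ip p v + B.app v / 2 - η * ‖v‖ ^ 2 ≤ u (x + v)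

/-- `S` contains, up to second order, the germ at `X` of the graph over `X + ⟨F.a, F.b⟩` of
`⟨m, s⟩ + B(s)/2`. -/
def HasJet (S : Set E3) (X : E3) (F : Frame) (m : ℂ) (B : Q2) : Prop :=
  ∀ η > 0, ∃ δ > 0, ∀ s : ℂ, ‖s‖ < δ → ∃ Y ∈ S,
    ‖Y - (X + s.re • F.a + s.im • F.b + (ip m s + B.app s / 2) • F.n)‖ ≤ η * ‖s‖ ^ 2

/-- `S` contains, up to first order, the ray from `X` in direction `V` -/
def HasRay (S : Set E3) (X V : E3) : Prop :=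
  ∀ η > 0, ∃ δ > 0, ∀ τ : ℝ, 0 < τ → τ < δ → ∃ Y ∈ S, ‖Y - (X + τ • V)‖ ≤ η * τ

/-- sup-convolution `sup_{X ∈ S} (X₃ - |x - π X|²/2ε)` -/
def sc (ε : ℝ) (S : Set E3) (x : ℂ) : ℝ :=
  sSup ((fun X : E3 => X.2 - ‖x - X.1‖ ^ 2 / (2 * ε)) '' S)

/-- highest point of `S` over `x` -/
def top (S : Set E3) (x : ℂ) : ℝ := sSup {z : ℝ | (x, z) ∈ S}

/-- everything below `S` -/
def below (S : Set E3) : Set E3 := {X | ∃ Y ∈ S, Y.1 = X.1 ∧ X.2 ≤ Y.2}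

/-! ## Analysis modules -/

/-- WEAK. A semiconvex function whose lower jets satisfy `curv ≥ h` a.e. satisfies
`div T(∇u) ≥ h` weakly. -/
def WeakIneqStatement : Prop :=
  ∀ (u : ℂ → ℝ) (c : ℝ), 0 ≤ c → ConvexOn ℝ univ (fun x => u x + c / 2 * ‖x‖ ^ 2) →
  ∀ (h : ℂ → ℝ) (K : ℝ), Measurable h → (∀ x, |h x| ≤ K) →
  (∀ᵐ x, ∃ p B, LJ u x p B ∧ h x ≤ curv p B) →
  ∀ ψ : ℂ → ℝ, (∃ C : NNReal, LipschitzWith C ψ) → HasCompactSupport ψ → (∀ x, 0 ≤ ψ x) →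
  ∫ x, ψ x * h x ≤ - ∫ x, ip (T (grad u x)) (grad ψ x)

/-- JET. At a point `x` whose maximiser `X` carries a jet of `S`, the sup-convolution has a lower
jet with the same curvature up to sign. -/
def JetScStatement : Prop :=
  ∀ (S : Set E3), IsCompact S → ∀ ε > 0, ∀ (x : ℂ) (X : E3), X ∈ S →
    sc ε S x = X.2 - ‖x - X.1‖ ^ 2 / (2 * ε) → ∀ F m B, HasJet S X F m B →
    ∃ B' : Q2, LJ (sc ε S) x (((1 / ε : ℝ) : ℂ) * (X.1 - x)) B' ∧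
      |curv (((1 / ε : ℝ) : ℂ) * (X.1 - x)) B'| = |curv m B|

/-- GJET. The graph of a `C²` function contains its jets. -/
def GraphJetStatement : Prop :=
  ∀ (S : Set E3) (F : Frame) (q : E3) (g : ℂ → ℝ) (s : ℂ), ContDiffAt ℝ 2 g s →
    (∀ᶠ t in 𝓝 s, F.pt q g t ∈ S) → HasJet S (F.pt q g s) F (grad g s) (hess g s)

/-- numerator of `curv` -/
def lin (m : ℂ) (B : Q2) : ℝ :=
  (1 + m.im ^ 2) * B.a - 2 * m.re * m.im * B.b + (1 + m.re ^ 2) * B.c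

/-- first order coefficients of the linearisation of `mc` (multiplied by `W³`) -/
def dcurv (p : ℂ) (B : Q2) : ℂ :=
  ⟨(2 * p.re * B.c - 2 * p.im * B.b) - 3 * p.re * lin p B / (W p) ^ 2,
   (2 * p.im * B.a - 2 * p.re * B.b) - 3 * p.im * lin p B / (W p) ^ 2⟩

/-- `W³` times the linearisation of `mc` at `g` -/
def Lop (g h : ℂ → ℝ) (s : ℂ) : ℝ :=
  lin (grad g s) (hess h s) + ip (dcurv (grad g s) (hess g s)) (grad h s)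

/-- PERT. If `L_g h > 0` on a compact set then `mc (g - τ h) < mc g` there for small `τ`. -/
def PerturbStatement : Prop :=
  ∀ (U K : Set ℂ) (g h : ℂ → ℝ), IsOpen U → IsCompact K → K ⊆ U → ContDiffOn ℝ ∞ g U →
    ContDiffOn ℝ ∞ h U → (∀ s ∈ K, 0 < Lop g h s) →
    ∃ τ₀ > 0, ∀ τ, 0 < τ → τ < τ₀ → ∃ c > 0, ∀ s ∈ K,
      mc (fun t => g t - τ * h t) s ≤ mc g s - c ∧ |mc (fun t => g t - τ * h t) s - mc g s| ≤ τ₀⁻¹ * τ

/-- LIN. Directional derivatives of a solution of `mc g = const` solve the linear equation. -/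
def LinPDEStatement : Prop :=
  ∀ (U : Set ℂ) (g : ℂ → ℝ) (k : ℝ) (ξ : ℂ), IsOpen U → ContDiffOn ℝ ∞ g U →
    (∀ s ∈ U, mc g s = k) → ∀ s ∈ U, Lop g (fun t => fderiv ℝ g t ξ) s = 0

/-- SMP. Strong maximum principle (no zero order term). -/
def SMPStatement : Prop :=
  ∀ (r : ℝ) (v : ℂ → ℝ) (m β : ℂ → ℂ), 0 < r → ContDiffOn ℝ 2 v (ball 0 r) →
    ContinuousOn m (ball 0 r) → ContinuousOn β (ball 0 r) → (∀ s ∈ ball (0 : ℂ) r, 0 ≤ v s) →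
    v 0 = 0 → (∀ s ∈ ball (0 : ℂ) r, lin (m s) (hess v s) + ip (β s) (grad v s) = 0) →
    ∃ δ > 0, ∀ s ∈ ball (0 : ℂ) δ, v s = 0

/-- CORNER. A positive solution in a quarter disc does not vanish to third order at the corner. -/
def CornerStatement : Prop :=
  ∀ (r : ℝ) (v : ℂ → ℝ) (m β : ℂ → ℂ) (κ C : ℝ), 0 < r → (κ = 1 ∨ κ = -1) →
    ContDiffOn ℝ 2 v (ball 0 r) → ContinuousOn m (ball 0 r) → ContinuousOn β (ball 0 r) →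
    m 0 = 0 →
    (∀ s ∈ ball (0 : ℂ) r, 0 < κ * s.re → 0 < s.im →
      0 < v s ∧ lin (m s) (hess v s) + ip (β s) (grad v s) = 0) →
    ¬ ∀ s ∈ ball (0 : ℂ) r, 0 < κ * s.re → 0 < s.im → v s ≤ C * ‖s‖ ^ 3

/-! ## The convex curve -/

/-- curvature of the curve -/
def kap (γ : ℝ → ℂ) (θ : ℝ) : ℝ := ip (deriv (deriv γ) θ) (Complex.I * deriv γ θ)

/-- Fermi coordinates: the point at signed distance `t` (positive outside) -/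
def Phi (γ : ℝ → ℂ) (θ t : ℝ) : ℂ := γ θ - (t : ℂ) * (Complex.I * deriv γ θ)

/-- signed distance to the frontier of `D`, positive outside -/
def sd (D : Set ℂ) (x : ℂ) : ℝ := infDist x D - infDist x Dᶜ

/-- cut-off function -/
def cut (D : Set ℂ) (ρ : ℝ) (x : ℂ) : ℝ := max 0 (1 - infDist x D / ρ)

/-- `t₀` is a tube radius. -/
structure Tube (D : Set ℂ) (γ : ℝ → ℂ) (L t₀ : ℝ) : Prop where
  pos : 0 < t₀
  kap_nonneg : ∀ θ, 0 ≤ kap γ θ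
  jac : ∀ θ t, -t₀ < t → 1 / 2 ≤ 1 + kap γ θ * t
  sd_Phi : ∀ θ t, -t₀ < t → sd D (Phi γ θ t) = t
  near : ∀ θ t, -t₀ < t → ∀ p ∈ frontier D, |t| ≤ ‖Phi γ θ t - p‖
  surj : ∀ x, -t₀ < sd D x → ∃ θ ∈ Ico 0 L, x = Phi γ θ (sd D x)
  inj : InjOn (fun z : ℝ × ℝ => Phi γ z.1 z.2) (Ico 0 L ×ˢ Ioi (-t₀))

/-- TUBE. -/
def TubeStatement : Prop :=
  ∀ D γ L, ConvexCurve D γ L → ∃ t₀, Tube D γ L t₀

/-- CHVAR. Change of variables in Fermi coordinates. -/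
def ChangeVarStatement : Prop :=
  ∀ D γ L t₀, ConvexCurve D γ L → Tube D γ L t₀ → ∀ ρ > 0, ∀ F : ℂ → ENNReal, Measurable F →
    ∫⁻ x in {x | -t₀ < sd D x ∧ sd D x < ρ}, F x =
      ∫⁻ z in Ioo 0 L ×ˢ Ioo (-t₀) ρ, F (Phi γ z.1 z.2) * ENNReal.ofReal (1 + kap γ z.1 * z.2)

/-- CUTG. Gradient of the cut-off function. -/
def CutGradStatement : Prop :=
  ∀ D γ L, ConvexCurve D γ L → ∀ ρ > 0,
    (∀ θ t, 0 < t → t < ρ → grad (cut D ρ) (Phi γ θ t) = ((1 / ρ : ℝ) : ℂ) * (Complex.I * deriv γ θ)) ∧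
    (∀ x, x ∈ D ∨ ρ < infDist x D → grad (cut D ρ) x = 0) ∧
    (∃ C : NNReal, LipschitzWith C (cut D ρ)) ∧ HasCompactSupport (cut D ρ)

/-- AREA. Green's formula for the area. -/
def AreaStatement : Prop :=
  ∀ D γ L, ConvexCurve D γ L →
    ∫ θ in (0:ℝ)..L, ip (γ θ) (Complex.I * deriv γ θ) = - (2 * volume.real D)

/-- COLLIM. On the outer collar `T(∇ sc)` tends to the inner normal. -/
def CollarLimitStatement : Prop :=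
  ∀ D γ L, ConvexCurve D γ L → ∀ S : Set E3, IsCompact S → (∀ X ∈ S, X.1 ∈ closure D) →
    (∀ θ, (γ θ, (0 : ℝ)) ∈ S) → ∀ ρ > 0,
    Tendsto (fun ε => ∫ x in {x | 0 < sd D x ∧ sd D x < ρ},
      ‖T (grad (sc ε S) x) - (ρ : ℂ) * grad (cut D ρ) x‖) (𝓝[>] 0) (𝓝 0)

/-! ## Flux -/

/-- Everything the flux argument needs to know about the surface. -/
structure FluxData (D : Set ℂ) (γ : ℝ → ℂ) (L H : ℝ) (S : Set E3) (a ν : ℝ → ℝ) : Prop where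
  curve : ConvexCurve D γ L
  H_pos : 0 < H
  compact : IsCompact S
  cyl : ∀ X ∈ S, X.1 ∈ closure D
  onto : ∀ x ∈ closure D, ∃ X ∈ S, X.1 = x
  bdry : ∀ θ, (γ θ, (0 : ℝ)) ∈ S
  jet : ∀ X ∈ S, X ∉ frontier D ×ˢ ({0} : Set ℝ) →
    ∃ F m B, HasJet S X F m B ∧ |curv m B| ≤ 2 * H
  ν_cont : Continuous ν
  a_nonneg : ∀ θ, 0 ≤ a θ
  a_ν : ∀ θ, a θ ^ 2 + ν θ ^ 2 = 1
  conormal : ∀ θ, HasRay S (γ θ, (0 : ℝ)) ((a θ : ℂ) * (Complex.I * deriv γ θ), ν θ)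
  flux : ∫ θ in (0:ℝ)..L, ν θ = 2 * H * volume.real D

/-- there is a point of `S` at height `> 0` over `p`, or an upward ray of `S` at `(p,0)` -/
def VertContact (S : Set E3) (p : ℂ) : Prop :=
  (∃ X ∈ S, X.1 = p ∧ 0 < X.2) ∨ HasRay S (p, (0 : ℝ)) ((0 : ℂ), (1 : ℝ))

/-- the set where the maximiser lies on the curve -/
def XC (D : Set ℂ) (ε : ℝ) (S : Set E3) : Set ℂ := {x | sc ε S x = - (sd D x) ^ 2 / (2 * ε)}

/-- `(1/ε) (1 + t²/ε²)^{-3/2}` -/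
def kk (ε t : ℝ) : ℝ := 1 / ε / (Real.sqrt (1 + (t / ε) ^ 2)) ^ 3

/-- FLX1. Lower jets of the sup-convolution in the tube. -/
def FluxJetStatement : Prop :=
  ∀ D γ L H S a ν, FluxData D γ L H S a ν → ∀ t₀, Tube D γ L t₀ → ∃ K : ℝ, 0 ≤ K ∧ ∀ ε > 0, ∀ x,
    (x ∉ XC D ε S → ∃ p B, LJ (sc ε S) x p B ∧ - (2 * H) ≤ curv p B) ∧
    (-t₀ < sd D x → x ∈ XC D ε S →
      ∃ p B, LJ (sc ε S) x p B ∧ - (2 * H) - kk ε (sd D x) - K ≤ curv p B)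

/-- FLX2. Location of `XC`. -/
def FluxLocStatement : Prop :=
  ∀ D γ L H S a ν, FluxData D γ L H S a ν → ∀ t₀, Tube D γ L t₀ →
    (∀ ε > 0, ∀ θ t, -t₀ < t → Phi γ θ t ∈ XC D ε S → ε * ν θ ≤ t * a θ ∧ ¬ VertContact S (γ θ)) ∧
    (∃ Z : ℝ, ∀ ε > 0, ∀ x ∈ XC D ε S, x ∈ D → (sd D x) ^ 2 ≤ 2 * ε * Z)

/-- FLX3. Mass of `XC`. -/
def FluxMassStatement : Prop :=
  ∀ D γ L H S a ν, FluxData D γ L H S a ν → ∀ t₀, Tube D γ L t₀ → ∀ K : ℝ, 0 ≤ K → ∀ η > 0,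
    ∃ ρ₀ > 0, ∀ ρ, 0 < ρ → ρ < ρ₀ → ∃ ε₀ > 0, ∀ ε, 0 < ε → ε < ε₀ →
      ∃ Gd : Set ℝ, MeasurableSet Gd ∧ (∀ θ ∈ Gd, ¬ VertContact S (γ θ)) ∧
      ∫ x in {x | x ∈ XC D ε S ∧ -t₀ < sd D x ∧ sd D x < ρ}, (kk ε (sd D x) + K) ≤
        (∫ θ in Ioo 0 L ∩ Gd, (1 - ν θ)) + η

/-- FLX5a. Asymptotic supersolution property of the sup-convolutions. -/
def AsymSuperStatement : Prop :=
  ∀ D γ L H S a ν, FluxData D γ L H S a ν → ∀ η > 0, ∃ ρ₀ > 0, ∀ ρ, 0 < ρ → ρ < ρ₀ →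
    ∃ ε₀ > 0, ∀ ε, 0 < ε → ε < ε₀ → ∀ (K : ℝ) (φ : ℂ → ℝ), 0 ≤ K →
      (∃ C : NNReal, LipschitzWith C φ) → (∀ x, 0 ≤ φ x) → (∀ x, φ x ≤ K * cut D ρ x) →
      2 * H * (∫ x, φ x) - ∫ x, ip (T (grad (sc ε S) x)) (grad φ x) ≤ K * η

/-- FLX5b. Contacts with the wall are negligible where the conormal is not vertical. -/
def NullContactStatement : Prop :=
  ∀ D γ L H S a ν, FluxData D γ L H S a ν →
    ∀ᵐ θ ∂(volume.restrict (Ioo 0 L)), VertContact S (γ θ) → ν θ = 1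

/-- `S` absorbs patches of curvature `< 2H`. -/
def Absorbs (D : Set ℂ) (H : ℝ) (S : Set E3) : Prop :=
  ∀ (F : Frame) (q : E3) (G : ℂ → ℝ) (Ω U : Set ℂ) (c : ℝ), IsCompact Ω → IsOpen U → Ω ⊆ U →
    ContDiffOn ℝ ∞ G U → 0 < c → (∀ s ∈ Ω, (F.pt q G s).1 ∈ closure D) →
    (∀ s ∈ Ω, s ∉ interior Ω → F.pt q G s ∈ below S) → (∀ s ∈ Ω, |mc G s| ≤ 2 * H - c) →
    ∀ s ∈ Ω, F.pt q G s ∈ below S

/-- ABS. Comparison principle. -/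
def AbsorbStatement : Prop :=
  ∀ D γ L H S a ν, FluxData D γ L H S a ν → Absorbs D H S

end Cyl
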