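import Pool.Agent.Cyl.Stmt3
import Pool.Agent.Cyl.Base
import Pool.Agent.Cyl.Base2

/-!
# TFACTS: the structure of the set of top points
-/

open MeasureTheory Set Filter Topology Metric
open scoped ContDiff

noncomputable section

namespace Cyl

universe u

namespace TFacts

variable {M : Type u} [TopologicalSpace M]

theorem not_mem_bd (S : Setup M) {q : M} (hq : (S.f q).1 ∈ S.D) : q ∉ S.bd := by
  intro h
  have h1 : S.f q ∈ S.f '' S.bd := mem_image_of_mem _ h
  rw [S.img_bd] at h1
  have h2 : (S.f q).1 ∈ frontier S.D := h1.1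
  rw [S.curve.isOpen.frontier_eq] at h2
  exact h2.2 hq

/-- a highest point over `x ∈ D` is a top point -/
theorem highest_mem_top (S : Setup M) {q : M} (hq : (S.f q).1 ∈ S.D)
    (hh : ∀ q', (S.f q').1 = (S.f q).1 → (S.f q').2 ≤ (S.f q).2) : q ∈ S.top := by
  refine ⟨hq, fun hint => ?_⟩
  have h1 : below (range S.f) ∈ 𝓝 (S.f q) := mem_interior_iff_mem_nhds.1 hint
  have hc : Tendsto (fun t : ℝ => ((S.f q).1, (S.f q).2 + t)) (𝓝[>] 0) (𝓝 (S.f q)) := by
    have : Continuous fun t : ℝ => ((S.f q).1, (S.f q).2 + t) := by fun_prop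
    have h2 := this.tendsto 0
    simp only [add_zero] at h2
    exact h2.mono_left nhdsWithin_le_nhds
  have h3 := hc h1
  rw [mem_map] at h3
  obtain ⟨t, ht, ht0⟩ := (Filter.nonempty_of_mem (inter_mem h3 self_mem_nhdsWithin))
  obtain ⟨Y, ⟨q', rfl⟩, e1, e2⟩ := ht
  have := hh q' e1
  simp only [mem_Ioi] at ht0
  simp only at e2
  linarith

/-- existence of a highest point -/
theorem exists_highest [CompactSpace M] (S : Setup M) (hf : Continuous S.f) {x : ℂ}
    (hx : ∃ q, (S.f q).1 = x) :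
    ∃ q, (S.f q).1 = x ∧ ∀ q', (S.f q').1 = x → (S.f q').2 ≤ (S.f q).2 := by
  have hcl : IsClosed {q | (S.f q).1 = x} := isClosed_eq (continuous_fst.comp hf) continuous_const
  have hcomp : IsCompact {q | (S.f q).1 = x} := hcl.isCompact
  obtain ⟨q, hq, hmax⟩ := hcomp.exists_isMaxOn hx (continuous_snd.comp hf).continuousOn
  exact ⟨q, hq, fun q' hq' => hmax hq'⟩

/-- a sheet above a point puts it in the interior of the region below -/
theorem interior_of_sheet (S : Setup M) {q q'' : M} (hf : Continuous S.f)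
    (hloc : ∀ V ∈ 𝓝 q'', (fun q' => (S.f q').1) '' V ∈ 𝓝 (S.f q'').1)
    (h1 : (S.f q'').1 = (S.f q).1) (h2 : (S.f q).2 < (S.f q'').2) :
    S.f q ∈ interior (below (range S.f)) := by
  set z : ℝ := ((S.f q).2 + (S.f q'').2) / 2 with hz
  have hV : {q' | z < (S.f q').2} ∈ 𝓝 q'' :=
    (isOpen_lt continuous_const (continuous_snd.comp hf)).mem_nhds
      (by simp only [mem_ofPred_eq, Function.comp, hz]; linarith)
  have hO := hloc _ hV
  rw [h1] at hO
  rw [mem_interior_iff_mem_nhds]
  have hprod : ((fun q' => (S.f q').1) '' {q' | z < (S.f q').2}) ×ˢ (Iio z) ∈ 𝓝 (S.f q) := by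
    have : S.f q = ((S.f q).1, (S.f q).2) := rfl
    rw [this]
    apply prod_mem_nhds hO
    apply isOpen_Iio.mem_nhds
    simp only [mem_Iio, hz]; linarith
  filter_upwards [hprod] with X hX
  obtain ⟨⟨q', hq', e⟩, hX2⟩ := hX
  refine ⟨S.f q', mem_range_self _, e, ?_⟩
  simp only [mem_ofPred_eq] at hq'
  simp only [mem_Iio] at hX2
  linarith

end TFacts

open TFacts

theorem TFACTS_holds (hTO : TopOpenStatement.{u}) (hTN : TopNegStatement.{u})
    (hLoc : LocalGraphStatement.{u}) (hB : BasicStatement.{u}) : TopFactsStatement.{u} := by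
  intro M _ _ _ S habs honto
  obtain ⟨hf, hN, hbd, hb, hper, hsurj, hNN, hNb⟩ := hB M S
  have hopen := hTO M S habs
  have hneg := hTN M S habs
  have hπ : Continuous fun q => (S.f q).1 := continuous_fst.comp hf
  have hlocal : ∀ q ∈ S.top, (∀ V ∈ 𝓝 q, (fun q' => (S.f q').1) '' V ∈ 𝓝 (S.f q).1) ∧
      (∃ V ∈ 𝓝 q, InjOn (fun q' => (S.f q').1) V) := by
    intro q hq
    have h := hLoc M S q (not_mem_bd S hq.1) (hneg q hq).ne
    exact ⟨h.1, h.2.1⟩
  have hhigh : ∀ q ∈ S.top, ∀ q', (S.f q').1 = (S.f q).1 → (S.f q').2 ≤ (S.f q).2 := by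
    intro q hq q' hq'
    by_contra hlt
    rw [not_le] at hlt
    obtain ⟨q'', h1, h2⟩ := exists_highest S hf (x := (S.f q).1) ⟨q, rfl⟩
    have h3 : q'' ∈ S.top := by
      apply highest_mem_top S
      · rw [h1]; exact hq.1
      · rw [h1]; exact h2
    have h4 : (S.f q).2 < (S.f q'').2 := lt_of_lt_of_le hlt (h2 q' hq')
    exact hq.2 (interior_of_sheet S hf (hlocal q'' h3).1 h1 h4)
  have hex : ∀ x ∈ S.D, ∃ q ∈ S.top, (S.f q).1 = x := by
    intro x hx
    obtain ⟨q, h1, h2⟩ := exists_highest S hf (honto x (subset_closure hx))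
    refine ⟨q, highest_mem_top S ?_ ?_, h1⟩
    · rw [h1]; exact hx
    · rw [h1]; exact h2
  refine ⟨honto, hopen, hneg, hhigh, hex, ?_, ?_⟩
  · -- dichotomy
    set U2 : Set ℂ := {x | x ∈ S.D ∧ ∃ q ∈ S.top, ∃ q' ∈ S.top, (S.f q).1 = x ∧ (S.f q').1 = x ∧
      q ≠ q'} with hU2
    have hU2o : IsOpen U2 := by
      rw [isOpen_iff_mem_nhds]
      rintro x ⟨hx, q, hq, q', hq', e, e', hne⟩
      obtain ⟨V, V', hV, hV', hqV, hqV', hdisj⟩ := t2_separation hne
      have h1 := (hlocal q hq).1 (V ∩ S.top) (inter_mem (hV.mem_nhds hqV) (hopen.mem_nhds hq))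
      have h2 := (hlocal q' hq').1 (V' ∩ S.top)
        (inter_mem (hV'.mem_nhds hqV') (hopen.mem_nhds hq'))
      rw [e] at h1
      rw [e'] at h2
      filter_upwards [h1, h2, S.curve.isOpen.mem_nhds hx] with y hy1 hy2 hy3
      obtain ⟨p, hp, ep⟩ := hy1
      obtain ⟨p', hp', ep'⟩ := hy2
      refine ⟨hy3, p, hp.2, p', hp'.2, ep, ep', ?_⟩
      rintro rfl
      exact (Set.disjoint_left.1 hdisj) hp.1 hp'.1
    have hU1o : IsOpen (S.D \ U2) := by
      rw [isOpen_iff_mem_nhds]
      rintro x ⟨hx, hx2⟩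
      obtain ⟨q, hq, e⟩ := hex x hx
      obtain ⟨V, hV, hinj⟩ := (hlocal q hq).2
      set K : Set M := {q' | q' ∉ interior V ∧ S.f q' ∉ interior (below (range S.f))} with hK
      have hKc : IsClosed K := by
        apply IsClosed.inter
        · exact isOpen_interior.isClosed_compl
        · exact (isOpen_interior.isClosed_compl).preimage hf
      have hKc' : IsClosed ((fun q' => (S.f q').1) '' K) := (hKc.isCompact.image hπ).isClosed
      have hxK : x ∉ (fun q' => (S.f q').1) '' K := by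
        rintro ⟨q', hq', e'⟩
        simp only at e'
        have hq'top : q' ∈ S.top := ⟨by rw [e']; exact hx, hq'.2⟩
        have hqq : q = q' := by
          by_contra hne
          exact hx2 ⟨hx, q, hq, q', hq'top, e, e', hne⟩
        apply hq'.1
        rw [← hqq]
        exact mem_interior_iff_mem_nhds.2 hV
      filter_upwards [hKc'.isOpen_compl.mem_nhds hxK, S.curve.isOpen.mem_nhds hx] with y hy hyD
      refine ⟨hyD, ?_⟩
      rintro ⟨_, p, hp, p', hp', ep, ep', hne⟩
      have hin : ∀ p ∈ S.top, (S.f p).1 = y → p ∈ V := by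
        intro p hp ep
        by_contra hpV
        apply hy
        exact ⟨p, ⟨fun h => hpV (interior_subset h), hp.2⟩, ep⟩
      exact hne (hinj (hin p hp ep) (hin p' hp' ep') (ep.trans ep'.symm))
    by_cases hne1 : (S.D ∩ U2).Nonempty
    · by_cases hne2 : (S.D ∩ (S.D \ U2)).Nonempty
      · have hpre : IsPreconnected S.D := S.curve.convex.isPreconnected
        obtain ⟨x, _, hx1, hx2⟩ := hpre U2 (S.D \ U2) hU2o hU1o
          (fun x hx => by
            by_cases h : x ∈ U2
            · exact Or.inl h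
            · exact Or.inr ⟨hx, h⟩) hne1 hne2
        exact absurd hx1 hx2.2
      · right
        intro x hx
        have hxU : x ∈ U2 := by
          by_contra h
          exact hne2 ⟨x, hx, hx, h⟩
        exact hxU.2
    · left
      intro q hq q' hq' e
      by_contra hne
      apply hne1
      exact ⟨(S.f q).1, hq.1, hq.1, q, hq, q', hq', rfl, e.symm, hne⟩
  · -- connectedness
    intro A hA hAD hAt
    intro q hq
    by_contra hqt
    have hB' : IsOpen (S.f ⁻¹' interior (below (range S.f))) := isOpen_interior.preimage hf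
    obtain ⟨p, _, hp1, hp2⟩ := hA S.top _ hopen hB'
      (fun p hp => by
        by_cases h : S.f p ∈ interior (below (range S.f))
        · exact Or.inr h
        · exact Or.inl ⟨hAD p hp, h⟩) hAt ⟨q, hq, by
          by_contra h
          exact hqt ⟨hAD q hq, h⟩⟩
    exact hp1.2 hp2

end Cyl
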